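import Pool.Agent.Run7.h399.G3

/-!
# Quadrics containing the manifold
-/

set_option autoImplicit false
set_option linter.unusedSectionVars false
set_option linter.style.haveILetI false

/-!
# Quadrics singular at a point of a smooth variety of small codimension
-/

namespace Pool.Agent.Run7.h399

open MvPolynomial Pool.Agent.Run7.h399.Hart Pool.Agent.R948

variable {τ : Type} [Fintype τ] [DecidableEq τ] {K : Type} [Field K]

lemma quad_add [Infinite K] {q : MvPolynomial τ K} (hq : q.IsHomogeneous 2) (x y : τ → K) :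
    eval (x + y) q = eval x q + dotB τ K (grad q x) y + eval y q := by
  have h1 := eval_line q x y 1
  rw [one_smul] at h1
  rw [← h1, Polynomial.eval_eq_sum_range' (n := 3) (by
    have := line_natDegree hq x y
    omega)]
  rw [Finset.sum_range_succ, Finset.sum_range_succ, Finset.sum_range_one, line_coeff_zero,
    line_coeff_one, line_top hq]
  simp

lemma quad_symm [Infinite K] {q : MvPolynomial τ K} (hq : q.IsHomogeneous 2) (x y : τ → K) :
    dotB τ K (grad q x) y = dotB τ K (grad q y) x := by
  have h1 := quad_add hq x y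
  have h2 := quad_add hq y x
  rw [add_comm y x, h1] at h2
  linear_combination h2

lemma dotB_ext {a b : τ → K} (h : ∀ y, dotB τ K a y = dotB τ K b y) : a = b := by
  funext i
  have h1 := h (Pi.single i 1)
  rw [dotB_apply, dotB_apply] at h1
  simpa [Pi.single_apply] using h1

/-- the polar map of a quadratic form -/
noncomputable def polar [Infinite K] {q : MvPolynomial τ K} (hq : q.IsHomogeneous 2) :
    (τ → K) →ₗ[K] (τ → K) where
  toFun := grad q
  map_add' a b := by
    apply dotB_ext
    intro y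
    rw [quad_symm hq, map_add, map_add, LinearMap.add_apply, quad_symm hq y a, quad_symm hq y b]
  map_smul' c a := by
    apply dotB_ext
    intro y
    rw [quad_symm hq, map_smul, RingHom.id_apply, map_smul, LinearMap.smul_apply,
      quad_symm hq y a]

lemma polar_apply [Infinite K] {q : MvPolynomial τ K} (hq : q.IsHomogeneous 2) (a : τ → K) :
    polar hq a = grad q a := rfl

lemma quad_self [Infinite K] {q : MvPolynomial τ K} (hq : q.IsHomogeneous 2) (x : τ → K) :
    dotB τ K (grad q x) x = 2 * eval x q := by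
  have h1 := quad_add hq x x
  have h2 : eval (x + x) q = 4 * eval x q := by
    have h3 := eval_hscale hq (2 : K) x
    rw [← two_smul K x, h3]
    ring
  rw [h2] at h1
  linear_combination -h1

lemma quad_eq_zero [Infinite K] [CharZero K] {q : MvPolynomial τ K} (hq : q.IsHomogeneous 2)
    (h : ∀ x, grad q x = 0) : q = 0 := by
  apply MvPolynomial.funext
  intro x
  have h1 := quad_self hq x
  rw [h x, map_zero, LinearMap.zero_apply] at h1
  rw [map_zero]
  have h2 : (2 : K) ≠ 0 := two_ne_zero
  exact (mul_eq_zero.1 h1.symm).resolve_left h2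

/-- the linear forms given by the derivatives of a quadratic form -/
lemma pderiv_quad [Infinite K] {q : MvPolynomial τ K} (hq : q.IsHomogeneous 2) (i : τ) :
    pderiv i q = lin (grad q (Pi.single i 1)) := by
  apply MvPolynomial.funext
  intro x
  rw [eval_lin, quad_symm hq, dotB_apply]
  show grad q x i = _
  simp [Pi.single_apply]

/-- the tangent space is isotropic when the quadric is singular at the point -/
lemma isotropic_tangent [IsAlgClosed K] {J : Ideal (MvPolynomial τ K)} {v0 : τ → K}
    (hA : Arcs J v0) {q : MvPolynomial τ K} (hq : q.IsHomogeneous 2) (hqJ : q ∈ J)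
    (hv0 : eval v0 q = 0) (hg : grad q v0 = 0) (a : τ → K) (ha : a ∈ tangent J v0) :
    eval a q = 0 := by
  haveI := IsAlgClosed.instInfinite (K := K)
  have h1 : sh v0 q = q := by
    apply MvPolynomial.funext
    intro x
    rw [eval_sh, quad_add hq, quad_symm hq, hg, map_zero, LinearMap.zero_apply, hv0, add_zero,
      add_zero]
  have h2 := hc_tangent' hA 2 q hqJ (by
    rw [h1, mem_pow_idealOfVars_iff]
    intro x hx
    have h3 := hq (mem_support_iff.1 hx)
    rw [Finsupp.weight_apply, Finsupp.sum_fintype _ _ (by simp)] at h3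
    have h4 : x.degree = ∑ i, x i := Finsupp.degree_eq_sum x
    simp at h3
    omega) a ha
  rw [h1, homogeneousComponent_of_mem hq, if_pos rfl] at h2
  exact h2

/-- the kernel of the polar form is large when the quadric is singular at the point -/
lemma polar_ker [IsAlgClosed K] [CharZero K] {J : Ideal (MvPolynomial τ K)} {v0 : τ → K} {r : ℕ}
    (hA : Arcs J v0) (hr : Module.finrank K (conormal J v0) = r)
    {q : MvPolynomial τ K} (hq : q.IsHomogeneous 2) (hqJ : q ∈ J)
    (hv0 : eval v0 q = 0) (hg : grad q v0 = 0) :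
    haveI := IsAlgClosed.instInfinite (K := K)
    Fintype.card τ ≤ Module.finrank K (LinearMap.ker (polar hq)) + 2 * r := by
  haveI := IsAlgClosed.instInfinite (K := K)
  set T := tangent J v0 with hT
  have hTd : Module.finrank K T + r = Fintype.card τ := by
    have := finrank_tangent J v0
    rw [← hT] at this
    omega
  let BT : T →ₗ[K] (τ → K) := (polar hq).domRestrict T
  have hrange : LinearMap.range BT ≤ conormal J v0 := by
    rintro _ ⟨a, rfl⟩
    rw [mem_conormal_iff]
    intro b hb
    have h1 := quad_add hq (a : τ → K) b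
    rw [isotropic_tangent hA hq hqJ hv0 hg _ (T.add_mem a.2 hb),
      isotropic_tangent hA hq hqJ hv0 hg _ a.2, isotropic_tangent hA hq hqJ hv0 hg _ hb,
      zero_add, add_zero] at h1
    exact h1.symm
  have h1 := LinearMap.finrank_range_add_finrank_ker BT
  have h2 := Submodule.finrank_mono hrange
  have h3 : Module.finrank K (LinearMap.ker BT) ≤
      Module.finrank K (LinearMap.ker (polar hq)) := by
    let φ : LinearMap.ker BT →ₗ[K] LinearMap.ker (polar hq) :=
      LinearMap.codRestrict _ (T.subtype.comp (LinearMap.ker BT).subtype) (by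
        intro a
        have := a.2
        rw [LinearMap.mem_ker] at this ⊢
        exact this)
    apply LinearMap.finrank_le_finrank_of_injective (f := φ)
    intro a b hab
    have h4 := congrArg (fun z : LinearMap.ker (polar hq) => (z : τ → K)) hab
    exact Subtype.ext (Subtype.ext h4)
  omega

/-- **Quadrics containing a smooth nondegenerate variety of small codimension are smooth along
the variety.** -/
theorem quad_zero [IsAlgClosed K] [CharZero K] {J : Ideal (MvPolynomial τ K)} {r : ℕ}
    (hA : ∀ v ∈ cone J, v ≠ 0 → Arcs J v) (hJ : Hm J)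
    (Y : Ideal (MvPolynomial τ K)) [hY : Y.IsPrime] (hYmin : Y ∈ J.minimalPrimes)
    (hYdim : tdP Y + r = Fintype.card τ) (hnd : ∀ ξ : τ → K, lin ξ ∈ Y → ξ = 0)
    (hn : 4 * r ≤ Fintype.card τ + 1) {q : MvPolynomial τ K} (hqJ : q ∈ J)
    (hq : q.IsHomogeneous 2) (v0 : τ → K) (hv0 : v0 ∈ cone Y) (hv00 : v0 ≠ 0)
    (hg : grad q v0 = 0) : q = 0 := by
  classical
  haveI := IsAlgClosed.instInfinite (K := K)
  have hYm : Hm Y := hJ.minimal hYmin
  have hYJ : ∀ v ∈ cone Y, v ∈ cone J := fun v hv g hg => hv g (hYmin.1.2 hg)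
  have hrank : ∀ v ∈ cone Y, v ≠ 0 → Module.finrank K (conormal J v) = r := by
    intro v hv hv0
    have h1 := tdP_eq_of_arcs (hYJ v hv) (hA v (hYJ v hv) hv0) Y hYmin hv
    omega
  by_contra hq0
  set V := LinearMap.ker (polar hq) with hV
  have hVd : Fintype.card τ ≤ Module.finrank K V + 2 * r :=
    polar_ker (hA v0 (hYJ v0 hv0) hv00) (hrank v0 hv0 hv00) hq hqJ (hYJ v0 hv0 q hqJ) hg
  have hex : ∃ y ∈ cone Y, grad q y ≠ 0 := by
    by_contra hcon
    push Not at hcon
    apply hq0
    apply quad_eq_zero hq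
    intro x
    have h1 : ∀ i, grad q (Pi.single i 1) = 0 := by
      intro i
      apply hnd
      rw [← pderiv_quad hq]
      apply mem_of_vanish Y hY
      intro y hy
      exact congrFun (hcon y hy) i
    funext i
    show eval x (pderiv i q) = 0
    rw [pderiv_quad hq, h1, eval_lin, map_zero, LinearMap.zero_apply]
  obtain ⟨y, hy, hξ⟩ := hex
  set ξ := grad q y with hξdef
  have hqy : eval y q = 0 := hYJ y hy q hqJ
  have hξy : dotB τ K ξ y = 0 := by rw [hξdef, quad_self hq, hqy, mul_zero]
  have hu : ∃ u, dotB τ K ξ u ≠ 0 := by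
    by_contra hcon
    push Not at hcon
    apply hξ
    apply dotB_ext
    intro z
    rw [hcon z, map_zero, LinearMap.zero_apply]
  obtain ⟨u, hu⟩ := hu
  have hVg : ∀ v : V, grad q (v : τ → K) = 0 := fun v => LinearMap.mem_ker.1 v.2
  have hVξ : ∀ v : V, dotB τ K ξ (v : τ → K) = 0 := by
    intro v
    rw [hξdef, quad_symm hq, hVg, map_zero, LinearMap.zero_apply]
  -- the span of the kernel, `y` and `u`
  let Ψ : (V × K × K) →ₗ[K] (τ → K) :=
    V.subtype.coprod ((LinearMap.toSpanSingleton K (τ → K) y).coprod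
      (LinearMap.toSpanSingleton K (τ → K) u))
  have hΨ : ∀ p : V × K × K, Ψ p = (p.1 : τ → K) + (p.2.1 • y + p.2.2 • u) := fun p => rfl
  have hgΨ : ∀ p : V × K × K, grad q (Ψ p) = p.2.1 • ξ + p.2.2 • grad q u := by
    intro p
    rw [hΨ, ← polar_apply hq, map_add, map_add, map_smul, map_smul, polar_apply, polar_apply,
      polar_apply, hVg, zero_add]
  have hξΨ : ∀ p : V × K × K, dotB τ K ξ (Ψ p) = p.2.2 * dotB τ K ξ u := by
    intro p
    rw [hΨ, map_add, map_add, map_smul, map_smul, hVξ, hξy, smul_zero, zero_add, zero_add,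
      smul_eq_mul]
  have hinj : Function.Injective Ψ := by
    rw [injective_iff_map_eq_zero]
    intro p h
    have h1 := hξΨ p
    rw [h, map_zero] at h1
    have hb : p.2.2 = 0 := (mul_eq_zero.1 h1.symm).resolve_right hu
    have h2 := hgΨ p
    rw [h, hb, zero_smul, add_zero, ← polar_apply hq, map_zero] at h2
    have ha : p.2.1 = 0 := (smul_eq_zero.1 h2.symm).resolve_right hξ
    rw [hΨ, ha, hb, zero_smul, zero_smul, add_zero, add_zero] at h
    exact Prod.ext (Subtype.ext h) (Prod.ext ha hb)
  set W := LinearMap.range Ψ with hW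
  have hWd : Module.finrank K W = Module.finrank K V + 2 := by
    rw [hW, LinearMap.finrank_range_of_inj hinj, Module.finrank_prod, Module.finrank_prod,
      Module.finrank_self]
  set N := (dotB τ K).orthogonal W with hN
  have hNd : Module.finrank K N + Module.finrank K W = Fintype.card τ := by
    have h1 := LinearMap.BilinForm.finrank_orthogonal dotB_nondegenerate W
    have h2 := Submodule.finrank_le W
    rw [Module.finrank_fintype_fun_eq_card] at h1 h2
    rw [← hN] at h1
    omega
  have hNmem : ∀ η : N, ∀ w ∈ W, dotB τ K (η : τ → K) w = 0 := by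
    intro η w hw
    rw [dotB_comm]
    exact (LinearMap.BilinForm.mem_orthogonal_iff.1 η.2) w hw
  let b := Module.finBasisOfFinrankEq K N rfl
  have hyW : y ∈ W := ⟨(0, 1, 0), by rw [hΨ]; simp⟩
  obtain ⟨R, hR, hRM, hRmin, hle⟩ := exists_cut Y (mx y) hY (mx_prime y)
    (fun g hg => (mem_mx y g).2 (hy g hg)) (fun i => lin ((b i : N) : τ → K)) (fun i => by
      rw [mem_mx, eval_lin]
      exact hNmem _ y hyW)
  have hYR : Y ≤ R := le_sup_left.trans hRmin.1.2
  have hRm : Hm R := by
    refine Hm.minimal (Hm.sup hYm (hm_span ?_)) hRmin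
    rintro _ ⟨j, rfl⟩
    exact ⟨1, lin_homog _⟩
  have hRY : ∀ v ∈ cone R, v ∈ cone Y := fun v hv g hg => hv g (hYR hg)
  have hyR : y ∈ cone R := fun f hf => (mem_mx y f).1 (hRM hf)
  have hRW : ∀ z ∈ cone R, ∃ p, Ψ p = z := by
    intro z hz
    have h1 : z ∈ W := by
      rw [mem_iff_orth]
      intro u' hu'
      have h2 : u' ∈ N := LinearMap.BilinForm.mem_orthogonal_iff.2 hu'
      have h3 := congrArg (fun z : N => (z : τ → K)) (b.sum_repr ⟨u', h2⟩)
      simp only [Submodule.coe_sum, Submodule.coe_smul] at h3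
      rw [← h3, map_sum]
      refine Finset.sum_eq_zero (fun i _ => ?_)
      have h4 : dotB τ K ((b i : N) : τ → K) z = 0 := by
        rw [← eval_lin]
        exact hz _ (hRmin.1.2 (Ideal.mem_sup_right (Ideal.subset_span ⟨i, rfl⟩)))
      rw [map_smul, dotB_comm, h4, smul_zero]
    exact h1
  -- the second linear form
  set κ := dotB τ K ξ u with hκ
  have hprod : lin ξ * (lin (grad q u) - C (eval u q * κ⁻¹) * lin ξ) ∈ R := by
    apply mem_of_vanish R hR
    intro z hz
    obtain ⟨p, rfl⟩ := hRW z hz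
    have h1 : eval (Ψ p) q = 0 := hYJ _ (hRY _ hz) q hqJ
    have h2 := quad_self hq (Ψ p)
    rw [h1, mul_zero, hgΨ, map_add, LinearMap.add_apply, map_smul, map_smul,
      LinearMap.smul_apply, LinearMap.smul_apply, hξΨ, smul_eq_mul, smul_eq_mul] at h2
    have h3 : dotB τ K (grad q u) (Ψ p) = p.2.1 * κ + p.2.2 * (2 * eval u q) := by
      rw [hΨ, map_add, map_add, map_smul, map_smul, quad_symm hq u p.1, hVg, map_zero,
        LinearMap.zero_apply, zero_add, quad_symm hq u y, quad_self hq u, smul_eq_mul, smul_eq_mul]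
    rw [map_mul, map_sub, map_mul, eval_C, eval_lin, eval_lin, hξΨ, h3]
    rw [h3] at h2
    field_simp
    have h4 : (2 : K) ≠ 0 := two_ne_zero
    have h5 : p.2.2 * (p.2.1 * κ + p.2.2 * eval u q) = 0 := by
      have h6 : 2 * (p.2.2 * (p.2.1 * κ + p.2.2 * eval u q)) = 0 := by linear_combination h2
      exact (mul_eq_zero.1 h6).resolve_left h4
    linear_combination κ * h5
  have hξR : lin ξ ∈ R := by
    rcases hR.mem_or_mem hprod with h1 | h1
    · exact h1
    · exfalso
      have h2 := hyR _ h1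
      rw [map_sub, map_mul, eval_lin, eval_lin, hξy, mul_zero, sub_zero, quad_symm hq] at h2
      exact hu h2
  have hRg : ∀ z ∈ cone R, ∃ a : K, grad q z = a • ξ ∧ dotB τ K (grad q u) z = a * κ := by
    intro z hz
    obtain ⟨p, rfl⟩ := hRW z hz
    have h1 := hz _ hξR
    rw [eval_lin, hξΨ] at h1
    have hb : p.2.2 = 0 := (mul_eq_zero.1 h1).resolve_right hu
    refine ⟨p.2.1, ?_, ?_⟩
    · rw [hgΨ, hb, zero_smul, add_zero]
    · rw [quad_symm hq, hgΨ, hb, zero_smul, add_zero, map_smul, LinearMap.smul_apply, smul_eq_mul]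
  have hDR : lin (grad q u) ∉ R := by
    intro h
    have h1 := hyR _ h
    rw [eval_lin, quad_symm hq] at h1
    exact hu h1
  -- the hyperplane is tangent along the section
  have hcon : ∀ z ∈ cone R, z ≠ 0 → ξ ∈ conormal J z := by
    intro z1 hz1 hz10
    by_contra hno
    have hGex := exists_basis_grads J z1
    rw [hrank z1 (hRY z1 hz1) hz10] at hGex
    obtain ⟨G, hG, hGind, hGspan⟩ := hGex
    set G' : Option (Fin r) → MvPolynomial τ K := fun o => o.elim (lin ξ) G with hG'
    have hGv : ∀ v, (fun o => grad (G' o) v) = fun o => Option.elim o ξ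
        (fun i => grad (G i) v) := by
      intro v
      funext o
      rcases o with _ | i
      · exact grad_lin ξ v
      · rfl
    have h1 : LinearIndependent K (fun o => grad (G' o) z1) := by
      rw [hGv, li_option]
      refine ⟨hGind, fun hmem => hno ?_⟩
      have h2 : Submodule.span K (Set.range fun i => grad (G i) z1) ≤ conormal J z1 := by
        rw [Submodule.span_le]
        rintro _ ⟨i, rfl⟩
        exact grad_mem J z1 (hG i)
      exact h2 hmem
    obtain ⟨W', hW'⟩ := exists_mdet G' z1 h1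
    have h2 : mdet G' W' ∉ R := by
      intro hmem
      have := hz1 _ hmem
      rw [hW'] at this
      exact one_ne_zero this
    have h3 : mdet G' W' * lin (grad q u) ∉ R := by
      intro hmem
      rcases hR.mem_or_mem hmem with h | h
      · exact h2 h
      · exact hDR h
    have h4 : ∃ z ∈ cone R, eval z (mdet G' W' * lin (grad q u)) ≠ 0 := by
      by_contra hcon'
      push Not at hcon'
      exact h3 (mem_of_vanish R hR _ hcon')
    obtain ⟨z, hz, hz'⟩ := h4
    rw [map_mul, eval_lin] at hz'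
    have h5 := ind_of_mdet G' W' z (left_ne_zero_of_mul hz')
    have h6 := right_ne_zero_of_mul hz'
    have hz0 : z ≠ 0 := by
      rintro rfl
      exact h6 (map_zero _)
    obtain ⟨a, ha1, ha2⟩ := hRg z hz
    have ha : a ≠ 0 := by
      rintro rfl
      rw [zero_mul] at ha2
      exact h6 ha2
    have h7 : ξ ∈ conormal J z := by
      have h8 := Submodule.smul_mem _ a⁻¹ (grad_mem J z hqJ)
      rwa [ha1, smul_smul, inv_mul_cancel₀ ha, one_smul] at h8
    have h8 : ∀ o, grad (G' o) z ∈ conormal J z := by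
      intro o
      rcases o with _ | i
      · have : grad (G' none) z = ξ := grad_lin ξ z
        rw [this]
        exact h7
      · exact grad_mem J z (hG i)
    let γ : Option (Fin r) → conormal J z := fun o => ⟨grad (G' o) z, h8 o⟩
    have h9 : LinearIndependent K γ :=
      LinearIndependent.of_comp (conormal J z).subtype h5
    have h10 := h9.fintype_card_le_finrank
    rw [hrank z (hRY z hz) hz0, Fintype.card_option, Fintype.card_fin] at h10
    omega
  apply hξ
  apply hnd
  apply mem_of_vanish Y hY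
  intro w hw
  rw [eval_lin]
  by_cases hw0 : w = 0
  · rw [hw0, map_zero]
  have hEex := exists_basis_grads J w
  rw [hrank w hw hw0] at hEex
  obtain ⟨E, hE, hEind, hEspan⟩ := hEex
  have hloc := locgen (hYJ w hw) (hA w (hYJ w hw) hw0) E hE hEind hEspan
  obtain ⟨y', hy', hy'0, h⟩ := join R hRm LinearMap.id J w (hYJ w hw) E hE (fun f hf => by
    obtain ⟨a, ha, haf⟩ := hloc f hf
    exact ⟨a, by rw [ha]; exact one_ne_zero, 1, by rwa [pow_one]⟩) (by omega)
  have h1 : w ∈ tangent J y' := by
    rw [mem_tangent]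
    intro f hf
    rw [← sum_homogeneousComponent f, grad_sum, map_sum, LinearMap.sum_apply]
    exact Finset.sum_eq_zero (fun d _ => (h _ (hJ f hf d) d
      (homogeneousComponent_isHomogeneous d f)).2 (fun z hz => hYJ z (hRY z hz) _ (hJ f hf d)))
  exact tangent_conormal J y' (hcon y' hy' hy'0) h1

end Pool.Agent.Run7.h399

/-!
# Quadrics containing a smooth variety of small codimension
-/

namespace Pool.Agent.Run7.h399

open MvPolynomial Pool.Agent.Run7.h399.Hart Pool.Agent.R948

variable {σ : Type} [Fintype σ] [DecidableEq σ] {K : Type} [Field K]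

/-- arcs in a smooth cone -/
lemma arcs_cone [IsAlgClosed K] [CharZero K] {I : Ideal (MvPolynomial σ K)} {r : ℕ}
    (hI : SCone I r) (p : σ → K) (hp : p ∈ cone I) (hp0 : p ≠ 0) : Arcs I p := by
  haveI := IsAlgClosed.instInfinite (K := K)
  intro u hu k
  obtain ⟨F, hF, hind, -⟩ := exists_grads hI p hp hp0
  obtain ⟨W, hW⟩ := exists_dual_vectors _ hind
  have hc0 : at0 (cv p + (Polynomial.X : Polynomial K) • cv u) = p := by
    rw [at0_add, at0_cv, at0_smul, Polynomial.eval_X, zero_smul, add_zero]
  have hdiv : ∀ i, (Polynomial.X : Polynomial K) ^ 2 ∣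
      eval (cv p + (Polynomial.X : Polynomial K) • cv u) (io (F i)) := by
    intro i
    obtain ⟨R, hR⟩ := taylor1 (io (F i)) (cv p) (cv u) Polynomial.X
    rw [hR, eval_io_cv, hp _ (hF i), map_zero, zero_add, gT_io_cv]
    have h1 : cv (grad (F i) p) ⬝ᵥ cv u = 0 := by
      have h2 := tangent_conormal I p (grad_mem I p (hF i)) hu
      rw [dotB_apply] at h2
      have h3 : cv (grad (F i) p) ⬝ᵥ cv u = Polynomial.C (∑ k, grad (F i) p k * u k) := by
        rw [map_sum]
        exact Finset.sum_congr rfl (fun k _ => by simp [cv])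
      rw [h3, h2, map_zero]
    rw [h1, mul_zero, zero_add]
    exact Dvd.intro _ rfl
  obtain ⟨a, ha⟩ := exists_arc hI p hp hp0 F hF hind W hW _ hc0 2 (by norm_num) hdiv
  refine ⟨cv u + (Polynomial.X : Polynomial K) • ∑ j, a (k + 1) j • cv (W j), ?_, ?_⟩
  · rw [at0_add, at0_cv, at0_smul, Polynomial.eval_X, zero_smul, add_zero]
  · intro g hg
    have h1 := ha (k + 1) g hg
    have h2 : cv p + (Polynomial.X : Polynomial K) • cv u + (Polynomial.X : Polynomial K) ^ 2 •
        ∑ j, a (k + 1) j • cv (W j) = cv p + (Polynomial.X : Polynomial K) •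
          (cv u + (Polynomial.X : Polynomial K) • ∑ j, a (k + 1) j • cv (W j)) := by
      rw [smul_add, smul_smul, ← pow_two, add_assoc]
    rwa [h2] at h1

/-- **A quadric containing a smooth nondegenerate variety of small codimension is smooth along
the variety.** -/
theorem quad_smooth_var [IsAlgClosed K] [CharZero K] {I : Ideal (MvPolynomial σ K)} {c : ℕ}
    (hI : SCone I c) (hnd : Nondeg I) (hn : 4 * c ≤ Fintype.card σ + 1)
    (q : MvPolynomial σ K) (hq : q ∈ I) (hq2 : q.IsHomogeneous 2) (x : σ → K)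
    (hx : x ∈ cone I) (hx0 : x ≠ 0) (hg : grad q x = 0) : q = 0 := by
  haveI := IsAlgClosed.instInfinite (K := K)
  have hp := hI.prime
  have hmin : I ∈ I.minimalPrimes := ⟨⟨hp, le_rfl⟩, fun J hJ _ => hJ.2⟩
  have hA : ∀ v ∈ cone I, v ≠ 0 → Arcs I v := fun v hv hv0 => arcs_cone hI v hv hv0
  have hd := tdP_eq_of_arcs hx (hA x hx hx0) I hmin hx
  rw [hI.rank x hx hx0] at hd
  refine quad_zero hA hI.homog I hmin hd ?_ hn hq hq2 x hx hx0 hg
  intro ξ hξ
  by_contra h
  exact hnd ξ h hξ

/-- a basis of the conormal space starting with the differentials of given quadrics -/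
theorem exists_grads_quads [IsAlgClosed K] [CharZero K] {I : Ideal (MvPolynomial σ K)} {c : ℕ}
    (hI : SCone I c) (hnd : Nondeg I) (hn : 4 * c ≤ Fintype.card σ + 1) {m : ℕ}
    (q : Fin m → MvPolynomial σ K) (hq : ∀ i, q i ∈ I) (hq2 : ∀ i, (q i).IsHomogeneous 2)
    (hlin : LinearIndependent K q) (x : σ → K) (hx : x ∈ cone I) (hx0 : x ≠ 0) :
    ∃ (F : Fin c → MvPolynomial σ K) (D : Finset ℕ), (∀ i, F i ∈ I) ∧
      LinearIndependent K (fun i => grad (F i) x) ∧
      (∀ ξ ∈ conormal I x, ∃ a : Fin c → K, ξ = ∑ i, a i • grad (F i) x) ∧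
      (∀ i ∈ D, i < c) ∧ D.card = m ∧ ∀ i : Fin c, (i : ℕ) ∈ D → (F i).totalDegree ≤ 2 := by
  classical
  have hfin := hI.rank x hx hx0
  let vq : Fin m → conormal I x := fun i => ⟨grad (q i) x, grad_mem I x (hq i)⟩
  have hv : LinearIndependent K vq := by
    rw [Fintype.linearIndependent_iff] at hlin ⊢
    intro a ha
    apply hlin a
    have h1 := congrArg (fun z : conormal I x => (z : σ → K)) ha
    simp only [Submodule.coe_sum, Submodule.coe_smul, Submodule.coe_zero, vq] at h1
    have h2 : cmb q a = 0 := by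
      apply quad_smooth_var hI hnd hn (cmb q a) (cmb_mem q hq a) (cmb_homog q 2 hq2 a) x hx hx0
      rw [grad_cmb]
      exact h1
    rw [cmb] at h2
    rw [← h2]
    exact Finset.sum_congr rfl (fun i _ => by rw [smul_eq_C_mul])
  have hs := hv.linearIndepOn_id
  let B := Module.Basis.extend hs
  haveI : Fintype (hs.extend (Set.subset_univ _)) := FiniteDimensional.fintypeBasisIndex B
  have hcard : Fintype.card (hs.extend (Set.subset_univ _)) = c := by
    rw [← hfin, Module.finrank_eq_card_basis B]
  let e : (hs.extend (Set.subset_univ _)) ≃ Fin c := Fintype.equivFinOfCardEq hcard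
  have hBi : ∀ i, B i = (i : conormal I x) := fun i => Module.Basis.extend_apply_self hs i
  choose G hG hBG using fun i => exists_grad I x (B i : σ → K) (B i).2
  have hex : ∀ i : (hs.extend (Set.subset_univ _)), ∃ f ∈ I, grad f x = (B i : σ → K) ∧
      (∀ j, vq j = (i : conormal I x) → f.totalDegree ≤ 2) := by
    intro i
    by_cases h : ∃ j, vq j = (i : conormal I x)
    · obtain ⟨j, hj⟩ := h
      refine ⟨q j, hq j, ?_, fun _ _ => (hq2 j).totalDegree_le⟩
      rw [hBi, ← hj]
    · exact ⟨G i, hG i, (hBG i).symm, fun j hj => absurd ⟨j, hj⟩ h⟩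
  choose F' hF' hF'B hF'd using hex
  have hsub : ∀ j, vq j ∈ hs.extend (Set.subset_univ _) := fun j =>
    hs.subset_extend (Set.subset_univ _) ⟨j, rfl⟩
  refine ⟨fun i => F' (e.symm i), Finset.univ.image (fun j : Fin m => (e ⟨vq j, hsub j⟩ : ℕ)),
    fun i => hF' _, ?_, ?_, ?_, ?_, ?_⟩
  · have h1 : (fun i => grad (F' (e.symm i)) x) =
        (fun i => ((B i : conormal I x) : σ → K)) ∘ e.symm := by
      funext i
      exact hF'B _
    rw [h1]
    exact (B.linearIndependent.map' (conormal I x).subtype (Submodule.ker_subtype _)).comp _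
      e.symm.injective
  · intro ξ hξ
    refine ⟨fun i => B.repr ⟨ξ, hξ⟩ (e.symm i), ?_⟩
    have h1 := congrArg (fun z : conormal I x => (z : σ → K)) (B.sum_repr ⟨ξ, hξ⟩)
    simp only [Submodule.coe_sum, Submodule.coe_smul] at h1
    rw [← e.symm.sum_comp] at h1
    refine h1.symm.trans (Finset.sum_congr rfl (fun i _ => by rw [hF'B]))
  · intro i hi
    obtain ⟨j, -, rfl⟩ := Finset.mem_image.1 hi
    exact (e _).2
  · rw [Finset.card_image_of_injective, Finset.card_univ, Fintype.card_fin]
    intro a b hab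
    have h1 := e.injective (Fin.ext hab)
    exact hv.injective (Subtype.ext_iff.1 h1)
  · intro i hi
    obtain ⟨j, -, hj⟩ := Finset.mem_image.1 hi
    have h1 : e.symm i = ⟨vq j, hsub j⟩ := by
      rw [Equiv.symm_apply_eq]
      exact Fin.ext hj.symm
    show (F' (e.symm i)).totalDegree ≤ 2
    rw [h1]
    exact hF'd _ j rfl

end Pool.Agent.Run7.h399

/-!
# Varieties of lines of manifolds contained in quadrics
-/

namespace Pool.Agent.Run7.h399

open MvPolynomial Pool.Agent.Run7.h399.Hart Pool.Agent.R948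

variable {σ τ : Type} [Fintype σ] [DecidableEq σ] [Fintype τ] [DecidableEq τ]
  {K : Type} [Field K]

theorem main2q [IsAlgClosed K] [CharZero K] {I : Ideal (MvPolynomial σ K)} {c r : ℕ}
    {x : σ → K} {A : (τ → K) →ₗ[K] (σ → K)} (h : FreePt I c x A) (hnd : Nondeg I)
    (Y : Ideal (MvPolynomial τ K)) [hY : Y.IsPrime] (hYmin : Y ∈ (linesI I x A).minimalPrimes)
    (hYdim : tdP Y + r = Fintype.card τ) (hn : c + 2 * r ≤ Fintype.card τ)
    (hpos : r < Fintype.card τ) (hc : 0 < c)
    (F : Fin c → MvPolynomial σ K) (hF : ∀ i, F i ∈ I)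
    (hind : LinearIndependent K (fun i => grad (F i) x))
    (hFs : ∀ ξ ∈ conormal I x, ∃ a : Fin c → K, ξ = ∑ i, a i • grad (F i) x)
    (D : Finset ℕ) (hDc : ∀ i ∈ D, i < c) (hDcard : D.card < c)
    (hDq : ∀ i : Fin c, (i : ℕ) ∈ D → (F i).totalDegree ≤ 2)
    (hb : 2 * r + 1 + (r - c) * (c - 1 - D.card) ≤ Fintype.card τ) :
    ∃ (Q : Fin c → MvPolynomial τ K) (G : Fin (r - c) → MvPolynomial τ K),
      (∀ i, (Q i).IsHomogeneous 2) ∧ (∀ i, ∃ d, 3 ≤ d ∧ (G i).IsHomogeneous d) ∧
      linesI I x A = Ideal.span (Set.range Q ∪ Set.range G) ∧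
      ∀ g : MvPolynomial τ K, (∀ i, ∃ k : ℕ, X i ^ k * g ∈ linesI I x A) → g ∈ linesI I x A := by
  classical
  haveI := IsAlgClosed.instInfinite (K := K)
  have hcr := codim_le h hnd Y hYmin hYdim hn hpos F hF hind
  set J := linesI I x A with hJ
  set f := cand hc x A F with hf
  have hYJ : ∀ v ∈ cone Y, v ∈ cone J := fun v hv g hg => hv g (hYmin.1.2 hg)
  have hE : Eqs f J Y c r := by
    refine ⟨hc, cand_homog hc x A F, cand_mem hc x A F hF,
      fun v hv hv0 => rank_lines h Y hYmin hYdim v hv hv0, ?_, ?_⟩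
    · intro v hv hv0 s hs hd
      exact cand_dead h hc F hF hFs v (hYJ v hv) hv0 s hs hd
    · intro v hv hv0 s hs
      exact cand_span h hc F hF hind v (hYJ v hv) s hs
  have hYh : Hm Y := Hm.minimal (linesI_homog I x A) hYmin
  have hdiv : ∀ t ∈ Finset.Ico (2 * c) (3 * c), t / c = 2 := by
    intro t ht
    rw [Finset.mem_Ico] at ht
    rw [Nat.div_eq_iff hc]
    omega
  have hGS : GS2 f c r D.card Y (3 * c) (Finset.Ico (2 * c) (3 * c)) D Y := by
    refine ⟨hYh, le_rfl, exists_ne_cone Y (by omega), ?_, ?_, le_rfl, ?_, ?_, ?_, le_rfl⟩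
    · intro t ht
      exact Finset.mem_Ico.1 ht
    · intro i hi
      rw [Finset.mem_Ico]
      omega
    · intro v hv hv0
      have h1 := quads_indep h hnd Y hYmin hYdim hn F hF hind v hv hv0
      have h2 : Function.Injective (fun t : ((Finset.Ico (2 * c) (3 * c) : Finset ℕ) : Set ℕ) =>
          (⟨(t : ℕ) % c, Nat.mod_lt _ hc⟩ : Fin c)) := by
        intro a b hab
        have ha := hdiv a a.2
        have hb := hdiv b b.2
        have h3 : (a : ℕ) % c = (b : ℕ) % c := by simpa using hab
        apply Subtype.ext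
        rw [← Nat.div_add_mod (a : ℕ) c, ← Nat.div_add_mod (b : ℕ) c, ha, hb, h3]
      have h3 := h1.comp _ h2
      have h4 : ((fun i => grad ((lexp x A (F i)).coeff 2) v) ∘
          fun t : ((Finset.Ico (2 * c) (3 * c) : Finset ℕ) : Set ℕ) =>
          (⟨(t : ℕ) % c, Nat.mod_lt _ hc⟩ : Fin c)) =
          fun t : ((Finset.Ico (2 * c) (3 * c) : Finset ℕ) : Set ℕ) => grad (f (t : ℕ)) v := by
        funext t
        simp only [Function.comp_apply, hf, cand]
        rw [hdiv t t.2]
      rw [h4] at h3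
      exact h3
    · intro v hv hv0 t ht
      rcases Nat.lt_or_ge t (2 * c) with h1 | h1
      · have h2 : t / c < 2 := (Nat.div_lt_iff_lt_mul hc).2 h1
        have h3 : grad (f t) v = 0 := by
          rw [hf, cand]
          rcases Nat.lt_or_ge (t / c) 1 with h4 | h4
          · have h5 : t / c = 0 := Nat.lt_one_iff.1 h4
            rw [h5]
            exact grad_coeff_zero A (h.mem _ (hF _)) v
          · have h5 : t / c = 1 := le_antisymm (Nat.lt_succ_iff.1 h2) h4
            rw [h5]
            exact grad_coeff_one A h.tan (hF _) v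
        rw [h3]
        exact Submodule.zero_mem _
      · exact mem_US f v (by
          rw [Finset.coe_Ico]
          exact ⟨h1, ht⟩)
    · intro i hi
      have hic := hDc i hi
      refine ⟨hic, 3 * c + i, by omega, by rw [Nat.mul_add_mod', Nat.mod_eq_of_lt hic], ?_, ?_⟩
      · intro t ht hti
        have h1 := Nat.div_add_mod' t c
        have h2 : 3 ≤ t / c := (Nat.le_div_iff_mul_le hc).2 ht
        have h3 : 3 * c ≤ t / c * c := Nat.mul_le_mul_right c h2
        omega
      · intro v hv hv0
        have h1 : f (3 * c + i) = 0 := by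
          have h2 := cand_eq hc x A F 3 ⟨i, hic⟩
          rw [hf]
          rw [h2]
          exact Polynomial.coeff_eq_zero_of_natDegree_lt
            (lt_of_le_of_lt (lexp_natDegree x A (hDq ⟨i, hic⟩ hi)) (by norm_num))
        rw [h1, grad_zero]
        exact Submodule.zero_mem _
  obtain ⟨T, P, hPp, hPm, hYP, hTr, hbase, hlow, hTind, hcost⟩ := greedy2 hE
    ((r - (Finset.Ico (2 * c) (3 * c)).card) + (c - D.card)) (3 * c)
    (Finset.Ico (2 * c) (3 * c)) D Y hGS hDcard le_rfl
  have hmul : (r - c) * (c - 1) = (r - c) * (c - 1 - D.card) + (r - c) * D.card := by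
    rw [← Nat.mul_add]
    congr 1
    omega
  let e : T ≃ Fin r := Finset.equivFinOfCardEq hTr
  let GA : Fin r → MvPolynomial τ K := fun i => f (e.symm i)
  have hGAP : ∀ v ∈ cone P, v ≠ 0 → LinearIndependent K (fun i => grad (GA i) v) := by
    intro v hv hv0
    have h1 : LinearIndependent K (fun t : T => grad (f t) v) := hTind v hv hv0
    exact h1.comp _ e.symm.injective
  obtain ⟨h1, h2⟩ := lines_close' h Y hYmin hYdim P hPm hYP (by omega) GA
    (fun i => (e.symm i : ℕ) / c)
    (fun i => hE.homog _) (fun i => Nat.div_pos (by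
      have := hlow (e.symm i) (e.symm i).2
      omega) hc) (fun i => hE.mem _) hGAP
  have hIco : Finset.Ico (2 * c) (3 * c) ⊆ T := by
    intro t ht
    rw [Finset.mem_Ico] at ht
    have := hbase (t - 2 * c) (by omega)
    rwa [Nat.add_sub_cancel' ht.1] at this
  have hcard : (T \ Finset.Ico (2 * c) (3 * c)).card = r - c := by
    rw [Finset.card_sdiff_of_subset hIco, hTr, Nat.card_Ico]
    omega
  let e' : (T \ Finset.Ico (2 * c) (3 * c) : Finset ℕ) ≃ Fin (r - c) :=
    Finset.equivFinOfCardEq hcard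
  refine ⟨fun i => f (2 * c + i), fun i => f (e'.symm i), ?_, ?_, ?_, h2⟩
  · intro i
    have h3 := hE.homog (2 * c + i)
    have h4 := hdiv (2 * c + i) (by
      rw [Finset.mem_Ico]
      have := i.2
      omega)
    rwa [h4] at h3
  · intro i
    refine ⟨_, ?_, hE.homog _⟩
    have h3 := (e'.symm i).2
    rw [Finset.mem_sdiff, Finset.mem_Ico] at h3
    have h4 := hlow _ h3.1
    rw [Nat.le_div_iff_mul_le hc]
    by_contra h5
    exact h3.2 ⟨h4, by omega⟩
  · rw [hJ, h1]
    congr 1
    ext g
    constructor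
    · rintro ⟨i, rfl⟩
      by_cases hi : ((e.symm i : T) : ℕ) ∈ Finset.Ico (2 * c) (3 * c)
      · left
        rw [Finset.mem_Ico] at hi
        refine ⟨⟨(e.symm i : ℕ) - 2 * c, by omega⟩, ?_⟩
        simp only [GA]
        rw [Nat.add_sub_cancel' hi.1]
      · right
        refine ⟨e' ⟨(e.symm i : ℕ), Finset.mem_sdiff.2 ⟨(e.symm i).2, hi⟩⟩, ?_⟩
        simp only [Equiv.symm_apply_apply, GA]
    · rintro (⟨i, rfl⟩ | ⟨i, rfl⟩)
      · refine ⟨e ⟨2 * c + i, hbase i i.2⟩, ?_⟩
        simp only [GA, Equiv.symm_apply_apply]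
      · refine ⟨e ⟨(e'.symm i : ℕ), (Finset.mem_sdiff.1 (e'.symm i).2).1⟩, ?_⟩
        simp only [GA, Equiv.symm_apply_apply]

end Pool.Agent.Run7.h399

/-!
# Manifolds contained in many quadrics
-/

namespace Pool.Agent.Run7.h399

open MvPolynomial Pool.Agent.Run7.h399.Hart Pool.Agent.R948 LX

/-- the conclusion at one general point -/
theorem quads_close {n c r m : ℕ} {I : Ideal (Pol (n + c + 1))} (hX : IsManifold n c I)
    {x : Fin (n + c + 1) → ℂ} {A : (Fin n → ℂ) →ₗ[ℂ] (Fin (n + c + 1) → ℂ)}
    (h : FreePt I c x A) (Y : Ideal (Pol n)) [hY : Y.IsPrime]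
    (hYmin : Y ∈ (linesI I x A).minimalPrimes) (hYdim : tdP Y + r = n) (hc : 0 < c) (hr : r < n)
    (hn : c + 2 * r ≤ n) (hcr : c ≤ r) (q : Fin m → Pol (n + c + 1)) (hq : ∀ i, q i ∈ I)
    (hq2 : ∀ i, (q i).IsHomogeneous 2) (hlin : LinearIndependent ℂ q) :
    m ≤ c ∧ (r = c ∨ 2 * r + 1 + (r - c) * (c - 1 - m) ≤ n →
      GeneratedBy c (r - c) (linesIdeal I x A)) := by
  have hnd := nondeg_of hX
  have hcard : tdP Y + r = Fintype.card (Fin n) := by rw [Fintype.card_fin]; exact hYdim
  obtain ⟨F, D, hF, hind, hFs, hDc, hDm, hDq⟩ := exists_grads_quads h.sc hnd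
    (by rw [Fintype.card_fin]; omega) q hq hq2 hlin x h.mem h.ne
  have hmc : m ≤ c := by
    have h1 : D ⊆ Finset.range c := fun i hi => Finset.mem_range.2 (hDc i hi)
    have h2 := Finset.card_le_card h1
    rwa [Finset.card_range, hDm] at h2
  refine ⟨hmc, ?_⟩
  rintro (hrc | hb)
  · obtain ⟨-, F', hF', hind', hJ, hsat⟩ := main1 h hnd Y hYmin hcard
      (by rw [Fintype.card_fin]; omega) (by rw [Fintype.card_fin]; omega) hrc.le
    subst hrc
    refine ⟨hsat, fun i => (lexp x A (F' i)).coeff 2, fun i => 0,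
      fun i => lexp_coeff_homog x A (F' i) 2, fun i => ⟨3, le_rfl, isHomogeneous_zero _ _ 3⟩, ?_⟩
    have h0' : Set.range (fun _ : Fin (r - r) => (0 : Pol n)) = ∅ := by
      rw [Set.range_eq_empty_iff, Nat.sub_self]
      infer_instance
    rw [h0', Set.union_empty]
    exact hJ
  · obtain ⟨D', hD'D, hD'c⟩ := Finset.exists_subset_card_eq (s := D) (n := min m (c - 1))
      (by rw [hDm]; exact min_le_left _ _)
    obtain ⟨Q, G, hQ, hG, hJ, hsat⟩ := main2q h hnd Y hYmin hcard
      (by rw [Fintype.card_fin]; omega) (by rw [Fintype.card_fin]; omega) hc F hF hind hFs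
      D' (fun i hi => hDc i (hD'D hi)) (by omega) (fun i hi => hDq i (hD'D hi)) (by
        rw [Fintype.card_fin, hD'c]
        have h1 : c - 1 - min m (c - 1) = c - 1 - m := by omega
        rw [h1]
        exact hb)
    exact ⟨hsat, Q, G, hQ, hG, hJ⟩

end Pool.Agent.Run7.h399
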