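import Pool.Agent.Run7.h399.Defs

/-!
# Nondegenerate varieties of lines
-/

set_option autoImplicit false

namespace Pool.Agent.Run7.h399.LX

open MvPolynomial

/-- For a general point `x` the variety of lines `L_x ⊂ P^(n-1)` has an irreducible component of
codimension `r` which is not contained in a hyperplane. -/
def LinesNondegenerate (n c r : ℕ) (I : Ideal (Pol (n + c + 1))) : Prop :=
  ∃ g, g ∉ I ∧ ∀ x ∈ zeros I, eval x g ≠ 0 →
    ∀ A : (Fin n → ℂ) →ₗ[ℂ] (Fin (n + c + 1) → ℂ), IsFrame I x A →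
      ∃ Y ∈ (linesIdeal I x A).minimalPrimes,
        ringKrullDim (Pol n ⧸ Y) = ((n - r : ℕ) : WithBot ℕ∞) ∧
          ∀ f ∈ Y, f.IsHomogeneous 1 → f = 0

end Pool.Agent.Run7.h399.LX
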