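import Pool.Agent.Run7.h399.G4
import Pool.Agent.Run7.h399.Defs2

/-!
# Nondegenerate varieties of lines
-/

set_option autoImplicit false
set_option linter.unusedSectionVars false
set_option linter.style.haveILetI false

/-!
# Pencils of quadratic forms with common isotropic subspaces
-/

namespace Pool.Agent.Run7.h399

variable {K : Type} [Field K]

/-- a pencil of square matrices of positive size contains a singular member -/
lemma pencil_det [IsAlgClosed K] {m : ℕ} (hm : 0 < m) (A B : Matrix (Fin m) (Fin m) K) :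
    ∃ s t : K, (s ≠ 0 ∨ t ≠ 0) ∧ (s • A + t • B).det = 0 := by
  classical
  by_cases hA : A.det = 0
  · exact ⟨1, 0, Or.inl one_ne_zero, by rw [one_smul, zero_smul, add_zero, hA]⟩
  · haveI : Nonempty (Fin m) := ⟨⟨0, hm⟩⟩
    obtain ⟨l, hl⟩ := IsAlgClosed.exists_root (A⁻¹ * B).charpoly (by
      rw [Matrix.charpoly_degree_eq_dim, Fintype.card_fin]
      exact_mod_cast hm.ne')
    refine ⟨-l, 1, Or.inr one_ne_zero, ?_⟩
    have h1 : ((Matrix.scalar (Fin m)) l - A⁻¹ * B).det = 0 := by
      rw [← Matrix.eval_charpoly]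
      exact hl
    have h2 : -l • A + (1 : K) • B = -(A * ((Matrix.scalar (Fin m)) l - A⁻¹ * B)) := by
      rw [mul_sub, ← mul_assoc, Matrix.mul_nonsing_inv _ (Ne.isUnit hA), one_mul, neg_sub,
        one_smul, neg_smul, Matrix.scalar_apply, ← Matrix.smul_one_eq_diagonal,
        Matrix.mul_smul, mul_one, sub_eq_add_neg, add_comm]
    rw [h2, Matrix.det_neg, Matrix.det_mul, h1, mul_zero, mul_zero]

variable {E : Type} [AddCommGroup E] [Module K E] [FiniteDimensional K E]

/-- two isotropic subspaces of the same dimension are equal when all members of the pencil have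
small kernels -/
theorem pencil_le [IsAlgClosed K] (P Q : E →ₗ[K] E →ₗ[K] K) (hP : ∀ x y, P x y = P y x)
    (hQ : ∀ x y, Q x y = Q y x) (T T' : Submodule K E)
    (hd : Module.finrank K T = Module.finrank K T')
    (hT : ∀ x ∈ T, ∀ y ∈ T, P x y = 0 ∧ Q x y = 0)
    (hT' : ∀ x ∈ T', ∀ y ∈ T', P x y = 0 ∧ Q x y = 0)
    (hker : ∀ s t : K, (s ≠ 0 ∨ t ≠ 0) →
      Module.finrank K E + Module.finrank K (LinearMap.ker (s • P + t • Q)) <
        2 * Module.finrank K T + 2) : T ≤ T' := by
  classical
  by_contra hno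
  set D := T ⊓ T' with hD
  obtain ⟨C0, hC0⟩ := D.exists_isCompl
  have hDT : D ≤ T := inf_le_left
  have hDT' : D ≤ T' := inf_le_right
  have hC1 : D ⊔ C0 ⊓ T = T := by rw [← sup_inf_assoc_of_le C0 hDT, hC0.sup_eq_top, top_inf_eq]
  have hC1' : D ⊔ C0 ⊓ T' = T' := by
    rw [← sup_inf_assoc_of_le C0 hDT', hC0.sup_eq_top, top_inf_eq]
  have hC2 : D ⊓ (C0 ⊓ T) = ⊥ := by
    rw [eq_bot_iff, ← hC0.inf_eq_bot]
    exact inf_le_inf_left _ inf_le_left
  have hC2' : D ⊓ (C0 ⊓ T') = ⊥ := by
    rw [eq_bot_iff, ← hC0.inf_eq_bot]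
    exact inf_le_inf_left _ inf_le_left
  set C := C0 ⊓ T with hC
  set C' := C0 ⊓ T' with hC'
  have hd1 := Submodule.finrank_sup_add_finrank_inf_eq D C
  rw [hC1, hC2, finrank_bot, add_zero] at hd1
  have hd2 := Submodule.finrank_sup_add_finrank_inf_eq D C'
  rw [hC1', hC2', finrank_bot, add_zero] at hd2
  have hdC : Module.finrank K C' = Module.finrank K C := by omega
  have hm : 0 < Module.finrank K C := by
    rw [Nat.pos_iff_ne_zero]
    intro h0
    have h1 : C = ⊥ := Submodule.finrank_eq_zero.1 h0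
    apply hno
    rw [← hC1, h1, sup_bot_eq]
    exact hDT'
  let b := Module.finBasis K C
  let b' := Module.finBasisOfFinrankEq K C' hdC
  obtain ⟨s, t, hst, hdet⟩ := pencil_det hm
    (Matrix.of fun i j => P ((b i : C) : E) ((b' j : C') : E))
    (Matrix.of fun i j => Q ((b i : C) : E) ((b' j : C') : E))
  set R := s • P + t • Q with hR
  have hRsymm : ∀ x y, R x y = R y x := by
    intro x y
    simp only [hR, LinearMap.add_apply, LinearMap.smul_apply, smul_eq_mul]
    rw [hP x y, hQ x y]
  have hRT : ∀ x ∈ T, ∀ y ∈ T, R x y = 0 := by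
    intro x hx y hy
    simp only [hR, LinearMap.add_apply, LinearMap.smul_apply, smul_eq_mul]
    rw [(hT x hx y hy).1, (hT x hx y hy).2, mul_zero, mul_zero, add_zero]
  have hRT' : ∀ x ∈ T', ∀ y ∈ T', R x y = 0 := by
    intro x hx y hy
    simp only [hR, LinearMap.add_apply, LinearMap.smul_apply, smul_eq_mul]
    rw [(hT' x hx y hy).1, (hT' x hx y hy).2, mul_zero, mul_zero, add_zero]
  set M : Matrix (Fin (Module.finrank K C)) (Fin (Module.finrank K C)) K :=
    Matrix.of fun i j => R ((b i : C) : E) ((b' j : C') : E) with hM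
  have hMdet : M.det = 0 := by
    rw [← hdet]
    congr 1
  obtain ⟨α, hα, hα'⟩ := Matrix.exists_vecMul_eq_zero_iff.2 hMdet
  obtain ⟨β, hβ, hβ'⟩ := Matrix.exists_mulVec_eq_zero_iff.2 hMdet
  set x : E := ∑ i, α i • ((b i : C) : E) with hx
  set y : E := ∑ j, β j • ((b' j : C') : E) with hy
  have hxC : x ∈ C := Submodule.sum_mem _ (fun i _ => Submodule.smul_mem _ _ (b i).2)
  have hyC : y ∈ C' := Submodule.sum_mem _ (fun i _ => Submodule.smul_mem _ _ (b' i).2)
  have hx0 : x ≠ 0 := by
    intro h0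
    apply hα
    have h1 : ∑ i, α i • b i = 0 := by
      apply Subtype.ext
      rw [Submodule.coe_sum]
      simpa using h0
    funext i
    exact Fintype.linearIndependent_iff.1 b.linearIndependent α h1 i
  have hy0 : y ≠ 0 := by
    intro h0
    apply hβ
    have h1 : ∑ i, β i • b' i = 0 := by
      apply Subtype.ext
      rw [Submodule.coe_sum]
      simpa using h0
    funext i
    exact Fintype.linearIndependent_iff.1 b'.linearIndependent β h1 i
  have hCT : C ≤ T := inf_le_right
  have hCT' : C' ≤ T' := inf_le_right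
  have hxC' : ∀ z ∈ C', R x z = 0 := by
    intro z hz
    have h1 : ∀ j, R x ((b' j : C') : E) = 0 := by
      intro j
      have h2 := congrFun hα' j
      rw [Matrix.vecMul, dotProduct, Pi.zero_apply] at h2
      rw [hx, map_sum, LinearMap.sum_apply, ← h2]
      refine Finset.sum_congr rfl (fun i _ => ?_)
      rw [map_smul, LinearMap.smul_apply, smul_eq_mul]
      rfl
    have h3 := congrArg (fun w : C' => (w : E)) (b'.sum_repr ⟨z, hz⟩)
    simp only [Submodule.coe_sum, Submodule.coe_smul] at h3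
    rw [← h3, map_sum]
    exact Finset.sum_eq_zero (fun j _ => by rw [map_smul, h1 j, smul_zero])
  have hyC' : ∀ z ∈ C, R z y = 0 := by
    intro z hz
    have h1 : ∀ i, R ((b i : C) : E) y = 0 := by
      intro i
      have h2 := congrFun hβ' i
      rw [Matrix.mulVec, dotProduct, Pi.zero_apply] at h2
      rw [hy, map_sum, ← h2]
      refine Finset.sum_congr rfl (fun j _ => ?_)
      rw [map_smul, smul_eq_mul, mul_comm]
      rfl
    have h3 := congrArg (fun w : C => (w : E)) (b.sum_repr ⟨z, hz⟩)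
    simp only [Submodule.coe_sum, Submodule.coe_smul] at h3
    rw [hRsymm, ← h3, map_sum]
    exact Finset.sum_eq_zero (fun j _ => by rw [map_smul, hRsymm, h1 j, smul_zero])
  -- the three pieces are orthogonal to everything
  have hDo : ∀ z ∈ D, ∀ u ∈ T ⊔ T', R z u = 0 := by
    intro z hz u hu
    obtain ⟨u1, hu1, u2, hu2, rfl⟩ := Submodule.mem_sup.1 hu
    rw [map_add, hRT z (hDT hz) u1 hu1, hRT' z (hDT' hz) u2 hu2, add_zero]
  have hxo : ∀ u ∈ T ⊔ T', R x u = 0 := by
    intro u hu
    obtain ⟨u1, hu1, u2, hu2, rfl⟩ := Submodule.mem_sup.1 hu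
    rw [map_add, hRT x (hCT hxC) u1 hu1, zero_add]
    rw [← hC1'] at hu2
    obtain ⟨d, hd', e, he, rfl⟩ := Submodule.mem_sup.1 hu2
    rw [map_add, hxC' e he, add_zero]
    exact hRT x (hCT hxC) d (hDT hd')
  have hyo : ∀ u ∈ T ⊔ T', R y u = 0 := by
    intro u hu
    obtain ⟨u1, hu1, u2, hu2, rfl⟩ := Submodule.mem_sup.1 hu
    rw [map_add, hRT' y (hCT' hyC) u2 hu2, add_zero]
    rw [← hC1] at hu1
    obtain ⟨d, hd', e, he, rfl⟩ := Submodule.mem_sup.1 hu1
    rw [map_add, hRsymm y e, hyC' e he, add_zero]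
    exact hRT' y (hCT' hyC) d (hDT' hd')
  set Ω := (T ⊔ T').dualAnnihilator with hΩ
  have hΩd := Subspace.finrank_add_finrank_dualAnnihilator_eq (T ⊔ T')
  rw [← hΩ] at hΩd
  have hTT := Submodule.finrank_sup_add_finrank_inf_eq T T'
  rw [← hD] at hTT
  let Ψ : (D × K × K) →ₗ[K] E := D.subtype.coprod
    ((LinearMap.toSpanSingleton K E x).coprod (LinearMap.toSpanSingleton K E y))
  have hΨ : ∀ p : D × K × K, Ψ p = (p.1 : E) + (p.2.1 • x + p.2.2 • y) := fun p => rfl
  have hinj : Function.Injective Ψ := by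
    rw [injective_iff_map_eq_zero]
    intro p hp
    rw [hΨ] at hp
    have h1 : p.2.1 • x ∈ D ⊓ C := by
      refine ⟨Submodule.mem_inf.2 ⟨T.smul_mem _ (hCT hxC), ?_⟩, C.smul_mem _ hxC⟩
      have h2 : p.2.1 • x = -((p.1 : E) + p.2.2 • y) := by
        rw [eq_neg_iff_add_eq_zero, ← hp]
        abel
      rw [h2]
      exact T'.neg_mem (T'.add_mem (hDT' p.1.2) (T'.smul_mem _ (hCT' hyC)))
    rw [hC2, Submodule.mem_bot] at h1
    have ha : p.2.1 = 0 := (smul_eq_zero.1 h1).resolve_right hx0
    rw [ha, zero_smul, zero_add] at hp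
    have h3 : p.2.2 • y ∈ D ⊓ C' := by
      refine ⟨?_, C'.smul_mem _ hyC⟩
      rw [eq_neg_of_add_eq_zero_right hp]
      exact D.neg_mem p.1.2
    rw [hC2', Submodule.mem_bot] at h3
    have hb : p.2.2 = 0 := (smul_eq_zero.1 h3).resolve_right hy0
    rw [hb, zero_smul, add_zero] at hp
    exact Prod.ext (Subtype.ext hp) (Prod.ext ha hb)
  let Φ : (D × K × K) →ₗ[K] Module.Dual K E := LinearMap.comp R Ψ
  have hrange : LinearMap.range Φ ≤ Ω := by
    rintro _ ⟨p, rfl⟩
    rw [hΩ, Submodule.mem_dualAnnihilator]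
    intro u hu
    show R (Ψ p) u = 0
    rw [hΨ, map_add, map_add, map_smul, map_smul]
    simp only [LinearMap.add_apply, LinearMap.smul_apply]
    rw [hDo _ p.1.2 u hu, hxo u hu, hyo u hu, smul_zero, smul_zero, add_zero, add_zero]
  have h1 := LinearMap.finrank_range_add_finrank_ker Φ
  have h2 := Submodule.finrank_mono hrange
  have h3 : Module.finrank K (LinearMap.ker Φ) ≤ Module.finrank K (LinearMap.ker R) := by
    let φ : LinearMap.ker Φ →ₗ[K] LinearMap.ker R :=
      LinearMap.codRestrict _ (Ψ.comp (LinearMap.ker Φ).subtype) (by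
        intro a
        have h4 := a.2
        rw [LinearMap.mem_ker] at h4 ⊢
        exact h4)
    apply LinearMap.finrank_le_finrank_of_injective (f := φ)
    intro a c hac
    have h4 := congrArg (fun z : LinearMap.ker R => (z : E)) hac
    exact Subtype.ext (hinj h4)
  have h4 := hker s t hst
  rw [Module.finrank_prod, Module.finrank_prod, Module.finrank_self] at h1
  rw [← hR] at h4
  omega

theorem pencil_eq [IsAlgClosed K] (P Q : E →ₗ[K] E →ₗ[K] K) (hP : ∀ x y, P x y = P y x)
    (hQ : ∀ x y, Q x y = Q y x) (T T' : Submodule K E)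
    (hd : Module.finrank K T = Module.finrank K T')
    (hT : ∀ x ∈ T, ∀ y ∈ T, P x y = 0 ∧ Q x y = 0)
    (hT' : ∀ x ∈ T', ∀ y ∈ T', P x y = 0 ∧ Q x y = 0)
    (hker : ∀ s t : K, (s ≠ 0 ∨ t ≠ 0) →
      Module.finrank K E + Module.finrank K (LinearMap.ker (s • P + t • Q)) <
        2 * Module.finrank K T + 2) : T = T' :=
  Submodule.eq_of_le_of_finrank_eq (pencil_le P Q hP hQ T T' hd hT hT' hker) hd

end Pool.Agent.Run7.h399

/-!
# The rank of quadrics containing a smooth nondegenerate variety
-/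

namespace Pool.Agent.Run7.h399

open MvPolynomial Pool.Agent.Run7.h399.Hart Pool.Agent.R948

variable {τ : Type} [Fintype τ] [DecidableEq τ] {K : Type} [Field K]

/-- **The rank of the quadrics containing a smooth nondegenerate variety.** -/
theorem quad_rank [IsAlgClosed K] [CharZero K] {J : Ideal (MvPolynomial τ K)} {r : ℕ}
    (hA : ∀ v ∈ cone J, v ≠ 0 → Arcs J v) (hJ : Hm J)
    (Y : Ideal (MvPolynomial τ K)) [hY : Y.IsPrime] (hYmin : Y ∈ J.minimalPrimes)
    (hYdim : tdP Y + r = Fintype.card τ) (hnd : ∀ ξ : τ → K, lin ξ ∈ Y → ξ = 0)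
    {q : MvPolynomial τ K} (hqJ : q ∈ J) (hq : q.IsHomogeneous 2)
    (hn : haveI := IsAlgClosed.instInfinite (K := K)
      2 * r ≤ Module.finrank K (LinearMap.ker (polar hq)) + 1) : q = 0 := by
  classical
  haveI := IsAlgClosed.instInfinite (K := K)
  have hYm : Hm Y := hJ.minimal hYmin
  have hYJ : ∀ v ∈ cone Y, v ∈ cone J := fun v hv g hg => hv g (hYmin.1.2 hg)
  have hrank : ∀ v ∈ cone Y, v ≠ 0 → Module.finrank K (conormal J v) = r := by
    intro v hv hv0
    have h1 := tdP_eq_of_arcs (hYJ v hv) (hA v (hYJ v hv) hv0) Y hYmin hv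
    omega
  by_contra hq0
  set V := LinearMap.ker (polar hq) with hV
  have hex : ∃ y ∈ cone Y, grad q y ≠ 0 := by
    by_contra hcon
    push Not at hcon
    apply hq0
    apply quad_eq_zero hq
    intro x
    have h1 : ∀ i, grad q (Pi.single i 1) = 0 := by
      intro i
      apply hnd
      rw [← pderiv_quad hq]
      apply mem_of_vanish Y hY
      intro y hy
      exact congrFun (hcon y hy) i
    funext i
    show eval x (pderiv i q) = 0
    rw [pderiv_quad hq, h1, eval_lin, map_zero, LinearMap.zero_apply]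
  obtain ⟨y, hy, hξ⟩ := hex
  set ξ := grad q y with hξdef
  have hqy : eval y q = 0 := hYJ y hy q hqJ
  have hξy : dotB τ K ξ y = 0 := by rw [hξdef, quad_self hq, hqy, mul_zero]
  have hu : ∃ u, dotB τ K ξ u ≠ 0 := by
    by_contra hcon
    push Not at hcon
    apply hξ
    apply dotB_ext
    intro z
    rw [hcon z, map_zero, LinearMap.zero_apply]
  obtain ⟨u, hu⟩ := hu
  have hVg : ∀ v : V, grad q (v : τ → K) = 0 := fun v => LinearMap.mem_ker.1 v.2
  have hVξ : ∀ v : V, dotB τ K ξ (v : τ → K) = 0 := by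
    intro v
    rw [hξdef, quad_symm hq, hVg, map_zero, LinearMap.zero_apply]
  -- the span of the kernel, `y` and `u`
  let Ψ : (V × K × K) →ₗ[K] (τ → K) :=
    V.subtype.coprod ((LinearMap.toSpanSingleton K (τ → K) y).coprod
      (LinearMap.toSpanSingleton K (τ → K) u))
  have hΨ : ∀ p : V × K × K, Ψ p = (p.1 : τ → K) + (p.2.1 • y + p.2.2 • u) := fun p => rfl
  have hgΨ : ∀ p : V × K × K, grad q (Ψ p) = p.2.1 • ξ + p.2.2 • grad q u := by
    intro p
    rw [hΨ, ← polar_apply hq, map_add, map_add, map_smul, map_smul, polar_apply, polar_apply,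
      polar_apply, hVg, zero_add]
  have hξΨ : ∀ p : V × K × K, dotB τ K ξ (Ψ p) = p.2.2 * dotB τ K ξ u := by
    intro p
    rw [hΨ, map_add, map_add, map_smul, map_smul, hVξ, hξy, smul_zero, zero_add, zero_add,
      smul_eq_mul]
  have hinj : Function.Injective Ψ := by
    rw [injective_iff_map_eq_zero]
    intro p h
    have h1 := hξΨ p
    rw [h, map_zero] at h1
    have hb : p.2.2 = 0 := (mul_eq_zero.1 h1.symm).resolve_right hu
    have h2 := hgΨ p
    rw [h, hb, zero_smul, add_zero, ← polar_apply hq, map_zero] at h2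
    have ha : p.2.1 = 0 := (smul_eq_zero.1 h2.symm).resolve_right hξ
    rw [hΨ, ha, hb, zero_smul, zero_smul, add_zero, add_zero] at h
    exact Prod.ext (Subtype.ext h) (Prod.ext ha hb)
  set W := LinearMap.range Ψ with hW
  have hWd : Module.finrank K W = Module.finrank K V + 2 := by
    rw [hW, LinearMap.finrank_range_of_inj hinj, Module.finrank_prod, Module.finrank_prod,
      Module.finrank_self]
  set N := (dotB τ K).orthogonal W with hN
  have hNd : Module.finrank K N + Module.finrank K W = Fintype.card τ := by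
    have h1 := LinearMap.BilinForm.finrank_orthogonal dotB_nondegenerate W
    have h2 := Submodule.finrank_le W
    rw [Module.finrank_fintype_fun_eq_card] at h1 h2
    rw [← hN] at h1
    omega
  have hNmem : ∀ η : N, ∀ w ∈ W, dotB τ K (η : τ → K) w = 0 := by
    intro η w hw
    rw [dotB_comm]
    exact (LinearMap.BilinForm.mem_orthogonal_iff.1 η.2) w hw
  let b := Module.finBasisOfFinrankEq K N rfl
  have hyW : y ∈ W := ⟨(0, 1, 0), by rw [hΨ]; simp⟩
  obtain ⟨R, hR, hRM, hRmin, hle⟩ := exists_cut Y (mx y) hY (mx_prime y)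
    (fun g hg => (mem_mx y g).2 (hy g hg)) (fun i => lin ((b i : N) : τ → K)) (fun i => by
      rw [mem_mx, eval_lin]
      exact hNmem _ y hyW)
  have hYR : Y ≤ R := le_sup_left.trans hRmin.1.2
  have hRm : Hm R := by
    refine Hm.minimal (Hm.sup hYm (hm_span ?_)) hRmin
    rintro _ ⟨j, rfl⟩
    exact ⟨1, lin_homog _⟩
  have hRY : ∀ v ∈ cone R, v ∈ cone Y := fun v hv g hg => hv g (hYR hg)
  have hyR : y ∈ cone R := fun f hf => (mem_mx y f).1 (hRM hf)
  have hRW : ∀ z ∈ cone R, ∃ p, Ψ p = z := by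
    intro z hz
    have h1 : z ∈ W := by
      rw [mem_iff_orth]
      intro u' hu'
      have h2 : u' ∈ N := LinearMap.BilinForm.mem_orthogonal_iff.2 hu'
      have h3 := congrArg (fun z : N => (z : τ → K)) (b.sum_repr ⟨u', h2⟩)
      simp only [Submodule.coe_sum, Submodule.coe_smul] at h3
      rw [← h3, map_sum]
      refine Finset.sum_eq_zero (fun i _ => ?_)
      have h4 : dotB τ K ((b i : N) : τ → K) z = 0 := by
        rw [← eval_lin]
        exact hz _ (hRmin.1.2 (Ideal.mem_sup_right (Ideal.subset_span ⟨i, rfl⟩)))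
      rw [map_smul, dotB_comm, h4, smul_zero]
    exact h1
  -- the second linear form
  set κ := dotB τ K ξ u with hκ
  have hprod : lin ξ * (lin (grad q u) - C (eval u q * κ⁻¹) * lin ξ) ∈ R := by
    apply mem_of_vanish R hR
    intro z hz
    obtain ⟨p, rfl⟩ := hRW z hz
    have h1 : eval (Ψ p) q = 0 := hYJ _ (hRY _ hz) q hqJ
    have h2 := quad_self hq (Ψ p)
    rw [h1, mul_zero, hgΨ, map_add, LinearMap.add_apply, map_smul, map_smul,
      LinearMap.smul_apply, LinearMap.smul_apply, hξΨ, smul_eq_mul, smul_eq_mul] at h2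
    have h3 : dotB τ K (grad q u) (Ψ p) = p.2.1 * κ + p.2.2 * (2 * eval u q) := by
      rw [hΨ, map_add, map_add, map_smul, map_smul, quad_symm hq u p.1, hVg, map_zero,
        LinearMap.zero_apply, zero_add, quad_symm hq u y, quad_self hq u, smul_eq_mul, smul_eq_mul]
    rw [map_mul, map_sub, map_mul, eval_C, eval_lin, eval_lin, hξΨ, h3]
    rw [h3] at h2
    field_simp
    have h4 : (2 : K) ≠ 0 := two_ne_zero
    have h5 : p.2.2 * (p.2.1 * κ + p.2.2 * eval u q) = 0 := by
      have h6 : 2 * (p.2.2 * (p.2.1 * κ + p.2.2 * eval u q)) = 0 := by linear_combination h2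
      exact (mul_eq_zero.1 h6).resolve_left h4
    linear_combination κ * h5
  have hξR : lin ξ ∈ R := by
    rcases hR.mem_or_mem hprod with h1 | h1
    · exact h1
    · exfalso
      have h2 := hyR _ h1
      rw [map_sub, map_mul, eval_lin, eval_lin, hξy, mul_zero, sub_zero, quad_symm hq] at h2
      exact hu h2
  have hRg : ∀ z ∈ cone R, ∃ a : K, grad q z = a • ξ ∧ dotB τ K (grad q u) z = a * κ := by
    intro z hz
    obtain ⟨p, rfl⟩ := hRW z hz
    have h1 := hz _ hξR
    rw [eval_lin, hξΨ] at h1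
    have hb : p.2.2 = 0 := (mul_eq_zero.1 h1).resolve_right hu
    refine ⟨p.2.1, ?_, ?_⟩
    · rw [hgΨ, hb, zero_smul, add_zero]
    · rw [quad_symm hq, hgΨ, hb, zero_smul, add_zero, map_smul, LinearMap.smul_apply, smul_eq_mul]
  have hDR : lin (grad q u) ∉ R := by
    intro h
    have h1 := hyR _ h
    rw [eval_lin, quad_symm hq] at h1
    exact hu h1
  -- the hyperplane is tangent along the section
  have hcon : ∀ z ∈ cone R, z ≠ 0 → ξ ∈ conormal J z := by
    intro z1 hz1 hz10
    by_contra hno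
    have hGex := exists_basis_grads J z1
    rw [hrank z1 (hRY z1 hz1) hz10] at hGex
    obtain ⟨G, hG, hGind, hGspan⟩ := hGex
    set G' : Option (Fin r) → MvPolynomial τ K := fun o => o.elim (lin ξ) G with hG'
    have hGv : ∀ v, (fun o => grad (G' o) v) = fun o => Option.elim o ξ
        (fun i => grad (G i) v) := by
      intro v
      funext o
      rcases o with _ | i
      · exact grad_lin ξ v
      · rfl
    have h1 : LinearIndependent K (fun o => grad (G' o) z1) := by
      rw [hGv, li_option]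
      refine ⟨hGind, fun hmem => hno ?_⟩
      have h2 : Submodule.span K (Set.range fun i => grad (G i) z1) ≤ conormal J z1 := by
        rw [Submodule.span_le]
        rintro _ ⟨i, rfl⟩
        exact grad_mem J z1 (hG i)
      exact h2 hmem
    obtain ⟨W', hW'⟩ := exists_mdet G' z1 h1
    have h2 : mdet G' W' ∉ R := by
      intro hmem
      have := hz1 _ hmem
      rw [hW'] at this
      exact one_ne_zero this
    have h3 : mdet G' W' * lin (grad q u) ∉ R := by
      intro hmem
      rcases hR.mem_or_mem hmem with h | h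
      · exact h2 h
      · exact hDR h
    have h4 : ∃ z ∈ cone R, eval z (mdet G' W' * lin (grad q u)) ≠ 0 := by
      by_contra hcon'
      push Not at hcon'
      exact h3 (mem_of_vanish R hR _ hcon')
    obtain ⟨z, hz, hz'⟩ := h4
    rw [map_mul, eval_lin] at hz'
    have h5 := ind_of_mdet G' W' z (left_ne_zero_of_mul hz')
    have h6 := right_ne_zero_of_mul hz'
    have hz0 : z ≠ 0 := by
      rintro rfl
      exact h6 (map_zero _)
    obtain ⟨a, ha1, ha2⟩ := hRg z hz
    have ha : a ≠ 0 := by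
      rintro rfl
      rw [zero_mul] at ha2
      exact h6 ha2
    have h7 : ξ ∈ conormal J z := by
      have h8 := Submodule.smul_mem _ a⁻¹ (grad_mem J z hqJ)
      rwa [ha1, smul_smul, inv_mul_cancel₀ ha, one_smul] at h8
    have h8 : ∀ o, grad (G' o) z ∈ conormal J z := by
      intro o
      rcases o with _ | i
      · have : grad (G' none) z = ξ := grad_lin ξ z
        rw [this]
        exact h7
      · exact grad_mem J z (hG i)
    let γ : Option (Fin r) → conormal J z := fun o => ⟨grad (G' o) z, h8 o⟩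
    have h9 : LinearIndependent K γ :=
      LinearIndependent.of_comp (conormal J z).subtype h5
    have h10 := h9.fintype_card_le_finrank
    rw [hrank z (hRY z hz) hz0, Fintype.card_option, Fintype.card_fin] at h10
    omega
  apply hξ
  apply hnd
  apply mem_of_vanish Y hY
  intro w hw
  rw [eval_lin]
  by_cases hw0 : w = 0
  · rw [hw0, map_zero]
  have hEex := exists_basis_grads J w
  rw [hrank w hw hw0] at hEex
  obtain ⟨E, hE, hEind, hEspan⟩ := hEex
  have hloc := locgen (hYJ w hw) (hA w (hYJ w hw) hw0) E hE hEind hEspan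
  obtain ⟨y', hy', hy'0, h⟩ := join R hRm LinearMap.id J w (hYJ w hw) E hE (fun f hf => by
    obtain ⟨a, ha, haf⟩ := hloc f hf
    exact ⟨a, by rw [ha]; exact one_ne_zero, 1, by rwa [pow_one]⟩) (by omega)
  have h1 : w ∈ tangent J y' := by
    rw [mem_tangent]
    intro f hf
    rw [← sum_homogeneousComponent f, grad_sum, map_sum, LinearMap.sum_apply]
    exact Finset.sum_eq_zero (fun d _ => (h _ (hJ f hf d) d
      (homogeneousComponent_isHomogeneous d f)).2 (fun z hz => hYJ z (hRY z hz) _ (hJ f hf d)))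
  exact tangent_conormal J y' (hcon y' hy' hy'0) h1

end Pool.Agent.Run7.h399

/-!
# Second order arcs, homogeneous local equations, singular loci of quadrics
-/

namespace Pool.Agent.Run7.h399

open MvPolynomial Pool.Agent.Run7.h399.Hart Pool.Agent.R948

variable {τ : Type} [Fintype τ] [DecidableEq τ] {K : Type} [Field K]

/-- the second directional derivative -/
noncomputable def d2 (u : τ → K) (f : MvPolynomial τ K) : MvPolynomial τ K := dd u (dd u f)

lemma eval_d2 (u y : τ → K) (f : MvPolynomial τ K) : eval y (d2 u f) =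
    ∑ i, dotB τ K (grad (pderiv i f) y) u * u i := by
  rw [d2, eval_dd, dotB_apply]
  refine Finset.sum_congr rfl (fun i _ => ?_)
  rw [grad, pderiv_dd, eval_dd]

lemma d2_homog (u : τ → K) {f : MvPolynomial τ K} {d : ℕ} (hf : f.IsHomogeneous d) :
    (d2 u f).IsHomogeneous (d - 2) := by
  have h := dd_homog u (dd_homog u hf)
  rwa [Nat.sub_sub] at h

/-- the second order equations of an arc -/
lemma second_order [CharZero K] {J : Ideal (MvPolynomial τ K)} {y : τ → K} (hA : Arcs J y)
    (u : τ → K) (hu : u ∈ tangent J y) :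
    ∃ b : τ → K, ∀ f ∈ J, eval y (d2 u f) + dotB τ K (grad f y) b = 0 := by
  obtain ⟨w, hw0, hw⟩ := hA u hu 2
  set γ : τ → Polynomial K := cv y + (Polynomial.X : Polynomial K) • w with hγ
  have hγi : ∀ i, γ i = Polynomial.C (y i) + Polynomial.X * w i := fun i => rfl
  have hγ0 : at0 γ = y := by
    rw [hγ, at0_add, at0_cv, at0_smul, Polynomial.eval_X, zero_smul, add_zero]
  have hd1 : ∀ i, (Polynomial.derivative (γ i)).eval 0 = u i := by
    intro i
    rw [hγi]
    simp only [Polynomial.derivative_add, Polynomial.derivative_C, Polynomial.derivative_mul,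
      Polynomial.derivative_X, Polynomial.eval_add, Polynomial.eval_mul, Polynomial.eval_X,
      Polynomial.eval_zero, zero_add, one_mul, zero_mul, add_zero]
    rw [← hw0]
    rfl
  refine ⟨fun i => (Polynomial.derivative (Polynomial.derivative (γ i))).eval 0, ?_⟩
  intro f hf
  have h1 := hw f hf
  have h2 : (Polynomial.X : Polynomial K) ∣
      Polynomial.derivative (Polynomial.derivative (eval γ (io f))) := by
    have h3 := dvd_deriv _ 2 h1
    have h4 := dvd_deriv _ 1 (by simpa using h3)
    simpa using h4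
  rw [Polynomial.X_dvd_iff, Polynomial.coeff_zero_eq_eval_zero, deriv_eval_io, dotProduct,
    Polynomial.derivative_sum, Polynomial.eval_finsetSum] at h2
  rw [eval_d2, dotB_apply, ← Finset.sum_add_distrib]
  refine Eq.trans (Finset.sum_congr rfl (fun i _ => ?_)) h2
  rw [Polynomial.derivative_mul, Polynomial.eval_add, Polynomial.eval_mul, Polynomial.eval_mul,
    hd1, gT, pderiv_io, deriv_eval_io, dot_at0, gT_io_at0, hγ0, eval_io_zero, hγ0]
  have h5 : (at0 fun i => Polynomial.derivative (γ i)) = u := by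
    funext i
    exact hd1 i
  rw [h5]
  rfl

/-- homogeneous elements whose differentials form a basis of the conormal space -/
lemma exists_basis_homog {J : Ideal (MvPolynomial τ K)} (hJ : Hm J) (v : τ → K) {r : ℕ}
    (hr : Module.finrank K (conormal J v) = r) :
    ∃ (G : Fin r → MvPolynomial τ K) (dG : Fin r → ℕ), (∀ i, G i ∈ J) ∧
      (∀ i, (G i).IsHomogeneous (dG i)) ∧ LinearIndependent K (fun i => grad (G i) v) ∧
      Submodule.span K (Set.range fun i => grad (G i) v) = conormal J v := by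
  classical
  let S := {f : MvPolynomial τ K // f ∈ J ∧ ∃ d, f.IsHomogeneous d}
  obtain ⟨ι, sel, hsel, hspan, hind⟩ :=
    exists_linearIndependent' K (fun f : S => grad (f : MvPolynomial τ K) v)
  have hS : Submodule.span K (Set.range fun f : S => grad (f : MvPolynomial τ K) v) =
      conormal J v := by
    apply le_antisymm
    · rw [Submodule.span_le]
      rintro _ ⟨f, rfl⟩
      exact grad_mem J v f.2.1
    · rw [conormal, Submodule.span_le]
      rintro _ ⟨f, hf, rfl⟩
      rw [← sum_homogeneousComponent f, grad_sum]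
      exact Submodule.sum_mem _ (fun d _ => Submodule.subset_span
        ⟨⟨homogeneousComponent d f, hJ f hf d, d, homogeneousComponent_isHomogeneous d f⟩, rfl⟩)
  haveI : Finite ι := hind.finite
  haveI : Fintype ι := Fintype.ofFinite ι
  have hcard : Fintype.card ι = r := by
    have h1 := finrank_span_eq_card hind
    rw [← hr, ← hS, ← hspan]
    exact h1.symm
  let e : Fin r ≃ ι := Fintype.equivOfCardEq (by rw [Fintype.card_fin, hcard])
  refine ⟨fun i => ((sel (e i) : S) : MvPolynomial τ K), fun i => (sel (e i)).2.2.choose,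
    fun i => (sel (e i)).2.1, fun i => (sel (e i)).2.2.choose_spec, ?_, ?_⟩
  · exact hind.comp _ e.injective
  · rw [← hS, ← hspan]
    congr 1
    exact e.surjective.range_comp (fun i => grad ((sel i : S) : MvPolynomial τ K) v)

/-- the locus where a quadric is singular -/
theorem cut_sing [IsAlgClosed K] {J P : Ideal (MvPolynomial τ K)} [hPp : P.IsPrime] (hP : Hm P)
    {r : ℕ} (hrank : ∀ v ∈ cone P, v ≠ 0 → Module.finrank K (conormal J v) = r)
    (q : MvPolynomial τ K) (hq : q.IsHomogeneous 2) (hqJ : q ∈ J) (v0 : τ → K)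
    (hv0 : v0 ∈ cone P) (hv00 : v0 ≠ 0) (hg : grad q v0 = 0) :
    ∃ (R : Ideal (MvPolynomial τ K)) (_ : R.IsPrime), Hm R ∧ P ≤ R ∧ v0 ∈ cone R ∧
      tdP P ≤ tdP R + r ∧ ∀ z ∈ cone R, grad q z = 0 := by
  classical
  haveI := IsAlgClosed.instInfinite (K := K)
  have hGex := exists_basis_grads J v0
  rw [hrank v0 hv0 hv00] at hGex
  obtain ⟨G, hG, hGind, hGspan⟩ := hGex
  obtain ⟨W, hW⟩ := exists_dual' _ hGind
  have hD0 : eval v0 (mdet G W) ≠ 0 := by
    rw [eval_mdet]
    have h2 : (fun i j => dotB τ K (grad (G i) v0) (W j)) = (1 : Matrix (Fin r) (Fin r) K) := by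
      funext i j
      rw [hW, Matrix.one_apply]
    rw [h2, Matrix.det_one]
    exact one_ne_zero
  obtain ⟨R, hR, hRM, hRmin, hle⟩ := exists_cut P (mx v0) hPp (mx_prime v0)
    (fun f hf => (mem_mx v0 f).2 (hv0 f hf)) (fun l => dd (W l) q) (fun l => by
      rw [mem_mx, eval_dd, hg, map_zero, LinearMap.zero_apply])
  have hPR : P ≤ R := le_sup_left.trans hRmin.1.2
  have hER : ∀ l, dd (W l) q ∈ R := fun l =>
    hRmin.1.2 (Ideal.mem_sup_right (Ideal.subset_span ⟨l, rfl⟩))
  have hv0R : v0 ∈ cone R := fun f hf => (mem_mx v0 f).1 (hRM hf)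
  have hRP : ∀ v ∈ cone R, v ∈ cone P := fun v hv f hf => hv f (hPR hf)
  refine ⟨R, hR, ?_, hPR, hv0R, hle, ?_⟩
  · refine Hm.minimal (Hm.sup hP (hm_span ?_)) hRmin
    rintro _ ⟨l, rfl⟩
    exact ⟨_, dd_homog (W l) hq⟩
  · have h1 : ∀ i, pderiv i q ∈ R := by
      intro i
      have h2 : mdet G W * pderiv i q ∈ R := by
        apply mem_of_vanish R hR
        intro z hz
        rw [map_mul]
        by_cases hz0 : z = 0
        · have h3 : grad q z = 0 := by rw [hz0, ← polar_apply hq, map_zero]
          have h4 : eval z (pderiv i q) = 0 := congrFun h3 i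
          rw [h4, mul_zero]
        by_cases hDz : eval z (mdet G W) = 0
        · rw [hDz, zero_mul]
        have hind := ind_of_mdet G W z hDz
        have hspan : Submodule.span K (Set.range (fun i => grad (G i) z)) = conormal J z := by
          apply Submodule.eq_of_le_of_finrank_eq
          · rw [Submodule.span_le]
            rintro _ ⟨i, rfl⟩
            exact grad_mem J z (hG i)
          · rw [finrank_span_eq_card hind, hrank z (hRP z hz) hz0, Fintype.card_fin]
        have h3 := grad_mem J z hqJ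
        rw [← hspan, Submodule.mem_span_range_iff_exists_fun] at h3
        obtain ⟨a, ha⟩ := h3
        have h4 : a = 0 := by
          apply mdet_inj G W z hDz
          intro j
          rw [← dotB_sum_left, ha, ← eval_dd]
          exact hz _ (hER j)
        have h5 : grad q z = 0 := by
          rw [← ha, h4]
          simp
        have h6 : eval z (pderiv i q) = 0 := congrFun h5 i
        rw [h6, mul_zero]
      rcases hR.mem_or_mem h2 with h3 | h3
      · exact absurd (hv0R _ h3) hD0
      · exact h3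
    intro z hz
    funext i
    exact hz _ (h1 i)

/-- the determinant of a matrix of forms -/
lemma det_homog {κ : Type} [Fintype κ] [DecidableEq κ] (M : Matrix κ κ (MvPolynomial τ K))
    (a e : κ → ℕ) (hM : ∀ i k, (M i k).IsHomogeneous (a i + e k)) :
    M.det.IsHomogeneous (∑ i, a i + ∑ k, e k) := by
  rw [Matrix.det_apply]
  refine IsHomogeneous.sum _ _ _ (fun s _ => ?_)
  have h1 : (∏ i, M (s i) i).IsHomogeneous (∑ i, (a (s i) + e i)) :=
    IsHomogeneous.prod _ _ _ (fun i _ => hM (s i) i)
  have h2 : ∑ i, (a (s i) + e i) = ∑ i, a i + ∑ k, e k := by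
    rw [Finset.sum_add_distrib, Equiv.sum_comp s a]
  rw [h2] at h1
  rcases Int.units_eq_one_or (Equiv.Perm.sign s) with h | h
  · rw [h, one_smul]; exact h1
  · rw [h, Units.neg_smul, one_smul]; exact h1.neg

end Pool.Agent.Run7.h399

/-!
# Constant tangent spaces
-/

namespace Pool.Agent.Run7.h399

open MvPolynomial Pool.Agent.Run7.h399.Hart Pool.Agent.R948

variable {τ : Type} [Fintype τ] [DecidableEq τ] {K : Type} [Field K]

/-- a regular function of negative degree on a projective variety of positive dimension vanishes -/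
theorem ratio_zero [IsAlgClosed K] (R : Ideal (MvPolynomial τ K)) [hR : R.IsPrime] (hRh : Hm R)
    (h2 : 2 ≤ tdP R) (Δ N : MvPolynomial τ K) (n : ℕ) (hN : N.IsHomogeneous n)
    (hΔ : Δ.IsHomogeneous (n + 1)) (hΔR : Δ ∉ R)
    (hS : ∀ y ∈ cone R, y ≠ 0 → ∃ Δ' N' : MvPolynomial τ K, eval y Δ' ≠ 0 ∧
      N' * Δ - N * Δ' ∈ R) : N ∈ R := by
  classical
  haveI := IsAlgClosed.instInfinite (K := K)
  by_contra hNR
  set 𝔮 := R ⊔ Ideal.span {Δ} with h𝔮
  have hq : Hm 𝔮 := Hm.sup hRh (hm_span (by
    intro f hf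
    rw [Set.mem_singleton_iff] at hf
    rw [hf]
    exact ⟨_, hΔ⟩))
  set 𝔞 := quo 𝔮 N with h𝔞
  have hcone : ∀ y ∈ cone 𝔞, y = 0 := by
    intro y hy
    by_contra hy0
    have hyR : y ∈ cone R := by
      intro f hf
      apply hy f
      rw [h𝔞, mem_quo, mul_comm]
      exact 𝔮.mul_mem_left _ (Ideal.mem_sup_left hf)
    obtain ⟨Δ', N', hΔ', hN'⟩ := hS y hyR hy0
    apply hΔ'
    apply hy
    rw [h𝔞, mem_quo]
    have h3 : Δ' * N = -(N' * Δ - N * Δ') + N' * Δ := by ring
    rw [h3]
    exact 𝔮.add_mem (𝔮.neg_mem (Ideal.mem_sup_left hN'))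
      (𝔮.mul_mem_left _ (Ideal.mem_sup_right (Ideal.subset_span rfl)))
  have hrad : idealOfVars τ K ≤ 𝔞.radical := by
    rw [idealOfVars, Ideal.span_le]
    rintro _ ⟨i, rfl⟩
    rw [SetLike.mem_coe, Ideal.radical_eq_sInf, Submodule.mem_sInf]
    rintro P ⟨hle, hP⟩
    apply mem_of_vanish P hP
    intro y hy
    rw [hcone y (fun f hf => hy f (hle hf)), eval_X]
    rfl
  obtain ⟨m, hm⟩ := Ideal.exists_pow_le_of_le_radical_of_fg hrad
    (IsNoetherian.noetherian _)
  -- division by the denominator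
  have hkey : ∀ h : MvPolynomial τ K, h.IsHomogeneous (m + 1) →
      ∃ g : MvPolynomial τ K, g.IsHomogeneous m ∧ h * N - g * Δ ∈ R := by
    intro h hh
    have h3 : h ∈ 𝔞 := by
      apply hm
      rw [mem_pow_idealOfVars_iff]
      intro x hx
      have h3 := hh (mem_support_iff.1 hx)
      rw [Finsupp.weight_apply, Finsupp.sum_fintype _ _ (by simp)] at h3
      have h4 : x.degree = ∑ i, x i := Finsupp.degree_eq_sum x
      simp at h3
      omega
    rw [h𝔞, mem_quo, h𝔮] at h3
    obtain ⟨ρ, hρ, t, ht, hρt⟩ := Submodule.mem_sup.1 h3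
    obtain ⟨g, rfl⟩ := Ideal.mem_span_singleton'.1 ht
    refine ⟨homogeneousComponent m g, homogeneousComponent_isHomogeneous m g, ?_⟩
    have h4 := congrArg (homogeneousComponent (n + 1 + m)) hρt
    rw [map_add, mul_comm g Δ, TH144.MB.comp_mul hΔ] at h4
    have h5 : homogeneousComponent (n + 1 + m) (h * N) = h * N := by
      have h6 := hh.mul hN
      have h7 : m + 1 + n = n + 1 + m := by ring
      rw [h7] at h6
      rw [homogeneousComponent_of_mem h6, if_pos rfl]
    rw [h5] at h4
    have h6 : h * N - homogeneousComponent m g * Δ = homogeneousComponent (n + 1 + m) ρ := by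
      rw [← h4]
      ring
    rw [h6]
    exact hRh ρ hρ _
  -- the fraction field
  haveI : IsDomain (MvPolynomial τ K ⧸ R) := Ideal.Quotient.isDomain R
  let φ : MvPolynomial τ K →ₐ[K] FractionRing (MvPolynomial τ K ⧸ R) :=
    (IsScalarTower.toAlgHom K (MvPolynomial τ K ⧸ R) _).comp (Ideal.Quotient.mkₐ K R)
  have hφ0 : ∀ g, φ g = algebraMap (MvPolynomial τ K ⧸ R)
      (FractionRing (MvPolynomial τ K ⧸ R)) (Ideal.Quotient.mk R g) := fun g => rfl
  have hφ : ∀ g, φ g = 0 ↔ g ∈ R := by
    intro g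
    rw [hφ0, IsFractionRing.to_map_eq_zero_iff, Ideal.Quotient.eq_zero_iff_mem]
  have hφΔ : φ Δ ≠ 0 := fun h => hΔR ((hφ Δ).1 h)
  have hX : ∃ i, (X i : MvPolynomial τ K) ∉ R := by
    by_contra hcon
    push Not at hcon
    obtain ⟨v, hv, hv0⟩ := exists_ne_cone R (by omega)
    apply hv0
    funext i
    have := hv _ (hcon i)
    rwa [eval_X] at this
  set H : Submodule K (FractionRing (MvPolynomial τ K ⧸ R)) :=
    (homogeneousSubmodule τ K (m + 1)).map φ.toLinearMap with hH
  have hHfg : H.FG := (homogeneousSubmodule_fg τ K (m + 1)).map _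
  have hH0 : H ≠ ⊥ := by
    obtain ⟨i, hi⟩ := hX
    intro h3
    have h4 : φ (X i ^ (m + 1)) ∈ H := ⟨X i ^ (m + 1), (by
      rw [SetLike.mem_coe, mem_homogeneousSubmodule]
      exact isHomogeneous_X_pow i (m + 1)), rfl⟩
    rw [h3, Submodule.mem_bot, hφ] at h4
    exact hi (hR.mem_of_pow_mem _ h4)
  have hscal : ∀ i, ∃ l : K, X i * N - C l * Δ ∈ R := by
    intro i
    have h3 : IsIntegral K (φ (X i) * (φ N / φ Δ)) := by
      apply isIntegral_of_smul_mem_submodule H hH0 hHfg
      rintro _ ⟨h, hh, rfl⟩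
      rw [SetLike.mem_coe, mem_homogeneousSubmodule] at hh
      obtain ⟨g, hg, hgR⟩ := hkey h hh
      have h4 : φ h * φ N = φ g * φ Δ := by
        rw [← sub_eq_zero, ← map_mul, ← map_mul, ← map_sub, hφ]
        exact hgR
      refine ⟨X i * g, ?_, ?_⟩
      · rw [SetLike.mem_coe, mem_homogeneousSubmodule]
        have h5 := (isHomogeneous_X K i).mul hg
        rwa [add_comm] at h5
      · show φ (X i * g) = (φ (X i) * (φ N / φ Δ)) • φ h
        rw [map_mul, smul_eq_mul]
        field_simp
        rw [mul_assoc, mul_assoc, ← h4]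
        ring
    obtain ⟨l, hl⟩ := minpoly.mem_range_of_degree_eq_one K _
      (IsAlgClosed.degree_eq_one_of_irreducible K (minpoly.irreducible h3))
    refine ⟨l, ?_⟩
    rw [← hφ, map_sub, map_mul, map_mul]
    have h4 : φ (C l) = algebraMap K _ l := φ.commutes l
    rw [h4, hl]
    field_simp
    ring
  choose l hl using hscal
  have hrel : ∀ i k, C (l k) * X i - C (l i) * X k ∈ R := by
    intro i k
    have h3 : N * (C (l k) * X i - C (l i) * X k) =
        C (l k) * (X i * N - C (l i) * Δ) - C (l i) * (X k * N - C (l k) * Δ) := by ring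
    have h4 : N * (C (l k) * X i - C (l i) * X k) ∈ R := by
      rw [h3]
      exact R.sub_mem (R.mul_mem_left _ (hl i)) (R.mul_mem_left _ (hl k))
    exact (hR.mem_or_mem h4).resolve_left hNR
  have hl0 : ∃ i, l i ≠ 0 := by
    by_contra hcon
    push Not at hcon
    obtain ⟨i, hi⟩ := hX
    have h3 := hl i
    rw [hcon i, C_0, zero_mul, sub_zero] at h3
    exact (hR.mem_or_mem h3).elim hi hNR
  obtain ⟨i, hi⟩ := hl0
  obtain ⟨R', hR', hR'M, hR'min, hle⟩ := exists_cut R (mx 0) hR (mx_prime 0)
    (le_mx_zero hR.ne_top hRh) (fun _ : Fin 1 => (X i : MvPolynomial τ K)) (fun _ => by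
      rw [mem_mx, eval_X]
      rfl)
  obtain ⟨y, hy, hy0⟩ := exists_ne_cone R' (by omega)
  apply hy0
  funext k
  have hyi : y i = 0 := by
    have := hy _ (hR'min.1.2 (Ideal.mem_sup_right (Ideal.subset_span ⟨0, rfl⟩)))
    rwa [eval_X] at this
  have h3 := hy _ (hR'min.1.2 (Ideal.mem_sup_left (hrel i k)))
  rw [map_sub, map_mul, map_mul, eval_C, eval_C, eval_X, eval_X, hyi, mul_zero, zero_sub,
    neg_eq_zero] at h3
  exact (mul_eq_zero.1 h3).resolve_left hi

/-- Cramer's rule in a form suited to vectors of polynomials -/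
lemma cramer_mulVec {κ : Type} [Fintype κ] [DecidableEq κ] (M : Matrix κ κ K) (x : κ → K)
    (j : κ) : M.cramer (M.mulVec x) j = M.det * x j := by
  rw [Matrix.cramer_eq_adjugate_mulVec, Matrix.mulVec_mulVec, Matrix.adjugate_mul,
    Matrix.smul_mulVec, Matrix.one_mulVec, Pi.smul_apply, smul_eq_mul]

/-- **Constant tangent spaces:** the second fundamental form vanishes along a subvariety of positive
dimension along which the tangent space is constant. -/
theorem const_tangent [IsAlgClosed K] [CharZero K] {J R : Ideal (MvPolynomial τ K)}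
    [hR : R.IsPrime] (hRh : Hm R) (hJ : Hm J) {r : ℕ}
    (hrank : ∀ y ∈ cone R, y ≠ 0 → Module.finrank K (conormal J y) = r)
    (T : Submodule K (τ → K)) (hT : ∀ y ∈ cone R, y ≠ 0 → tangent J y = T)
    (hA : ∀ y ∈ cone R, y ≠ 0 → Arcs J y) (h2 : 2 ≤ tdP R)
    (hlin : ∀ f ∈ J, ∀ d, f.IsHomogeneous d → d ≤ 1 → f = 0)
    (v : τ → K) (hv : v ∈ cone R) (hv0 : v ≠ 0) (u : τ → K) (hu : u ∈ T) :
    ∀ f ∈ J, eval v (d2 u f) = 0 := by
  classical
  haveI := IsAlgClosed.instInfinite (K := K)
  obtain ⟨G, dG, hGJ, hGh, hGind, hGspan⟩ := exists_basis_homog hJ v (hrank v hv hv0)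
  obtain ⟨W, hW⟩ := exists_dual' _ hGind
  have hcon : ∀ y ∈ cone R, y ≠ 0 → conormal J y = conormal J v := by
    intro y hy hy0
    ext ξ
    rw [mem_conormal_iff, mem_conormal_iff, hT y hy hy0, hT v hv hv0]
  have hdec : ∀ ξ ∈ conormal J v, ∀ b, dotB τ K ξ b =
      ∑ j, dotB τ K (grad (G j) v) b * dotB τ K ξ (W j) := by
    intro ξ hξ b
    rw [← hGspan, Submodule.mem_span_range_iff_exists_fun] at hξ
    obtain ⟨c, rfl⟩ := hξ
    rw [dotB_sum_left]
    refine Finset.sum_congr rfl (fun j _ => ?_)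
    have h3 : dotB τ K (∑ k, c k • grad (G k) v) (W j) = c j := by
      rw [dotB_sum_left, Finset.sum_eq_single j]
      · rw [hW, if_pos rfl, mul_one]
      · intro k _ hk
        rw [hW, if_neg hk, mul_zero]
      · intro h
        exact absurd (Finset.mem_univ j) h
    rw [h3, mul_comm]
  have hdet0 : ∀ ξ ∈ conormal J v, (∀ j, dotB τ K ξ (W j) = 0) → ξ = 0 := by
    intro ξ hξ h
    apply dotB_ext
    intro b
    rw [hdec ξ hξ b, map_zero, LinearMap.zero_apply]
    exact Finset.sum_eq_zero (fun j _ => by rw [h j, mul_zero])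
  have hbex : ∀ y : τ → K, ∃ b : τ → K, y ∈ cone R → y ≠ 0 →
      ∀ f ∈ J, eval y (d2 u f) + dotB τ K (grad f y) b = 0 := by
    intro y
    by_cases hy : y ∈ cone R ∧ y ≠ 0
    · obtain ⟨b, hb⟩ := second_order (hA y hy.1 hy.2) u (by
        rw [hT y hy.1 hy.2]
        exact hu)
      exact ⟨b, fun _ _ => hb⟩
    · exact ⟨0, fun h3 h4 => absurd ⟨h3, h4⟩ hy⟩
  choose b hb using hbex
  set MM : (Fin r → MvPolynomial τ K) → Matrix (Fin r) (Fin r) (MvPolynomial τ K) :=
    fun H => Matrix.of fun i j => dd (W j) (H i) with hMM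
  set PP : (Fin r → MvPolynomial τ K) → Fin r → MvPolynomial τ K :=
    fun H i => d2 u (H i) with hPP
  have hMdet : ∀ H, (MM H).det = mdet H W := fun H => rfl
  have hev : ∀ H : Fin r → MvPolynomial τ K, (∀ i, H i ∈ J) → ∀ y ∈ cone R, y ≠ 0 → ∀ j,
      eval y ((MM H).cramer (PP H) j) =
        eval y (mdet H W) * (- dotB τ K (grad (G j) v) (b y)) := by
    intro H hH y hy hy0 j
    have h3 : eval y ((MM H).cramer (PP H) j) =
        ((MM H).map (eval y)).cramer (fun i => eval y (PP H i)) j := by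
      rw [Matrix.cramer_apply, Matrix.cramer_apply, RingHom.map_det]
      congr 1
      ext i k
      rw [RingHom.mapMatrix_apply, Matrix.map_apply, Matrix.updateCol_apply,
        Matrix.updateCol_apply]
      split_ifs <;> rfl
    have h4 : (fun i => eval y (PP H i)) = ((MM H).map (eval y)).mulVec
        (fun k => - dotB τ K (grad (G k) v) (b y)) := by
      funext i
      rw [Matrix.mulVec, dotProduct, hPP]
      have h5 := hb y hy hy0 (H i) (hH i)
      have h6 : eval y (d2 u (H i)) = - dotB τ K (grad (H i) y) (b y) :=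
        eq_neg_of_add_eq_zero_left h5
      show eval y (d2 u (H i)) = _
      rw [h6, hdec _ (by
        rw [← hcon y hy hy0]
        exact grad_mem J y (hH i)) (b y), ← Finset.sum_neg_distrib]
      refine Finset.sum_congr rfl (fun k _ => ?_)
      have h7 : eval y (MM H i k) = dotB τ K (grad (H i) y) (W k) := eval_dd _ _ _
      rw [Matrix.map_apply, h7]
      ring
    rw [h3, h4, cramer_mulVec, ← hMdet, RingHom.map_det]
    rfl
  have hdG : ∀ i, 2 ≤ dG i := by
    intro i
    by_contra h3
    have h4 := hlin (G i) (hGJ i) (dG i) (hGh i) (by omega)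
    apply hGind.ne_zero i
    show grad (G i) v = 0
    rw [h4, grad_zero]
  have hΔv : eval v (mdet G W) = 1 := by
    rw [eval_mdet]
    have h3 : (fun i j => dotB τ K (grad (G i) v) (W j)) = (1 : Matrix (Fin r) (Fin r) K) := by
      funext i j
      rw [hW, Matrix.one_apply]
    rw [h3, Matrix.det_one]
  have hβ : ∀ j, dotB τ K (grad (G j) v) (b v) = 0 := by
    intro j
    have h3 : (MM G).cramer (PP G) j ∈ R := by
      refine ratio_zero R hRh h2 (mdet G W) _
        (∑ i, (dG i - 2) + ∑ k, (if k = j then 0 else 1)) ?_ ?_ ?_ ?_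
      · rw [Matrix.cramer_apply]
        apply det_homog
        intro i k
        rw [Matrix.updateCol_apply]
        split_ifs with hk
        · exact d2_homog u (hGh i)
        · have h4 := dd_homog (W k) (hGh i)
          have h5 : dG i - 1 = dG i - 2 + 1 := by
            have := hdG i
            omega
          rwa [h5] at h4
      · have h4 : ∑ i, (dG i - 2) + ∑ k, (if k = j then 0 else 1) + 1 =
            ∑ i, (dG i - 2) + ∑ _k : Fin r, 1 := by
          rw [← Finset.add_sum_erase Finset.univ (fun k => if k = j then 0 else 1)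
            (Finset.mem_univ j), ← Finset.add_sum_erase Finset.univ (fun _ : Fin r => 1)
            (Finset.mem_univ j), if_pos rfl]
          have h5 : ∑ k ∈ Finset.univ.erase j, (if k = j then 0 else 1) =
              ∑ _k ∈ Finset.univ.erase j, 1 :=
            Finset.sum_congr rfl (fun k hk => if_neg (Finset.ne_of_mem_erase hk))
          rw [h5]
          ring
        rw [h4, ← hMdet]
        apply det_homog
        intro i k
        have h4 := dd_homog (W k) (hGh i)
        have h5 : dG i - 1 = dG i - 2 + 1 := by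
          have := hdG i
          omega
        rw [h5] at h4
        exact h4
      · intro h4
        have h5 := hv _ h4
        rw [hΔv] at h5
        exact one_ne_zero h5
      · intro y hy hy0
        have hHex := exists_basis_grads J y
        rw [hrank y hy hy0] at hHex
        obtain ⟨H, hH, hHind, hHspan⟩ := hHex
        refine ⟨mdet H W, (MM H).cramer (PP H) j, ?_, ?_⟩
        · intro h4
          obtain ⟨a, ha, h5⟩ := mdet_zero H W y h4
          apply ha
          have h6 : ∑ i, a i • grad (H i) y = 0 := by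
            apply hdet0
            · rw [← hcon y hy hy0]
              exact Submodule.sum_mem _ (fun i _ => Submodule.smul_mem _ _
                (grad_mem J y (hH i)))
            · intro k
              rw [dotB_sum_left]
              exact h5 k
          funext i
          exact Fintype.linearIndependent_iff.1 hHind a h6 i
        · apply mem_of_vanish_ne R hR ⟨v, hv, hv0⟩
          intro z hz hz0
          rw [map_sub, map_mul, map_mul, hev H hH z hz hz0, hev G hGJ z hz hz0]
          ring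
    have h4 := hev G hGJ v hv hv0 j
    rw [hv _ h3, hΔv, one_mul] at h4
    exact neg_eq_zero.1 h4.symm
  intro f hf
  have h3 := hb v hv hv0 f hf
  rw [hdec _ (grad_mem J v hf) (b v), Finset.sum_eq_zero (fun j _ => by rw [hβ j, zero_mul]),
    add_zero] at h3
  exact h3

end Pool.Agent.Run7.h399

/-!
# Second derivatives, frames, and linear sections
-/

namespace Pool.Agent.Run7.h399

open MvPolynomial Pool.Agent.Run7.h399.Hart Pool.Agent.R948

variable {σ τ : Type} [Fintype σ] [DecidableEq σ] [Fintype τ] [DecidableEq τ]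
  {K : Type} [Field K]

/-- the second derivative -/
noncomputable def hs (f : MvPolynomial σ K) (x a b : σ → K) : K :=
  ∑ i, dotB σ K (grad (pderiv i f) x) a * b i

lemma quad_hs [Infinite K] (x : σ → K) (A : (τ → K) →ₗ[K] (σ → K)) (f : MvPolynomial σ K)
    (u u' : τ → K) : dotB τ K (grad ((lexp x A f).coeff 2) u) u' = hs f x (A u) (A u') := by
  rw [grad_lexp x A f u u' 1, dl, dotProduct, Polynomial.finsetSum_coeff, hs]
  refine Finset.sum_congr rfl (fun i _ => ?_)
  rw [gT_line]
  show ((line (pderiv i f) x (A u)) * Polynomial.C (A u' i)).coeff 1 = _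
  rw [Polynomial.coeff_mul_C, line_coeff_one]

lemma hs_field {I : Ideal (MvPolynomial σ K)} {f : MvPolynomial σ K}
    (θ : σ → MvPolynomial σ K) (hθ : ∑ i, pderiv i f * θ i ∈ I) (x w : σ → K)
    (hw : w ∈ tangent I x) : hs f x w (fun i => eval x (θ i)) +
      ∑ i, eval x (pderiv i f) * dotB σ K (grad (θ i) x) w = 0 := by
  have h1 := (mem_tangent I x w).1 hw _ hθ
  rw [grad_sum, map_sum, LinearMap.sum_apply] at h1
  rw [hs, ← Finset.sum_add_distrib, ← h1]
  refine Finset.sum_congr rfl (fun i _ => ?_)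
  rw [grad_mul, map_add, map_smul, map_smul, LinearMap.add_apply, LinearMap.smul_apply,
    LinearMap.smul_apply, smul_eq_mul, smul_eq_mul]
  ring

/-- the polynomial `f(x + L v)` -/
noncomputable def sbx (x : σ → K) (L : (τ → K) →ₗ[K] (σ → K)) (f : MvPolynomial σ K) :
    MvPolynomial τ K := sb L (sh x f)

lemma eval_sbx (x : σ → K) (L : (τ → K) →ₗ[K] (σ → K)) (f : MvPolynomial σ K) (v : τ → K) :
    eval v (sbx x L f) = eval (x + L v) f := by
  rw [sbx, eval_sb, eval_sh, add_comm]

lemma grad_sbx [Infinite K] (x : σ → K) (L : (τ → K) →ₗ[K] (σ → K)) (f : MvPolynomial σ K)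
    (v a : τ → K) : dotB τ K (grad (sbx x L f) v) a = dotB σ K (grad f (x + L v)) (L a) := by
  have h2 : line (sbx x L f) v a = line f (x + L v) (L a) := by
    apply Polynomial.funext
    intro s
    rw [eval_line, eval_line, eval_sbx, map_add, map_smul, add_assoc]
  rw [← line_coeff_one, h2, line_coeff_one]

lemma self_tangent [Infinite K] {I : Ideal (MvPolynomial σ K)} (hI : Hm I) {x : σ → K}
    (hx : x ∈ cone I) : x ∈ tangent I x := by
  refine (cone_of_line I x x (fun t _ => ?_)).2
  have h1 : x + t • x = (1 + t) • x := by rw [add_smul, one_smul]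
  rw [h1]
  exact cone_smul I hI _ _ hx

/-- frames of the tangent space whose span contains a given subspace -/
lemma exists_frame_of [Infinite K] {I : Ideal (MvPolynomial σ K)} {c : ℕ} (hI : SCone I c)
    (hcard : Fintype.card σ = Fintype.card τ + c + 1) {x : σ → K} (hx : x ∈ cone I)
    (hfree : ∀ v, (∀ t : K, x + t • v ∈ cone I) → FreeAt I x v)
    (U : Submodule K (σ → K)) (hU : U ≤ tangent I x) (hxU : x ∉ U) :
    ∃ A : (τ → K) →ₗ[K] (σ → K), FreePt I c x A ∧ U ≤ LinearMap.range A := by
  have hx0 : x ≠ 0 := by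
    rintro rfl
    exact hxU U.zero_mem
  have hxT := self_tangent hI.homog hx
  have hdisj : Disjoint (Submodule.span K {x}) U := by
    rw [Submodule.disjoint_def]
    intro y hy hyU
    obtain ⟨a, rfl⟩ := Submodule.mem_span_singleton.1 hy
    by_cases ha : a = 0
    · rw [ha, zero_smul]
    · exfalso
      apply hxU
      have := U.smul_mem a⁻¹ hyU
      rwa [smul_smul, inv_mul_cancel₀ ha, one_smul] at this
  obtain ⟨H', hUH, hcompl'⟩ := hdisj.symm.exists_isCompl
  have hcompl := hcompl'.symm
  set T := tangent I x with hT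
  set H := H' ⊓ T with hH
  have hxT' : Submodule.span K {x} ≤ T := by
    rw [Submodule.span_singleton_le_iff_mem]
    exact hxT
  have hsup : Submodule.span K {x} ⊔ H = T := by
    rw [hH, ← sup_inf_assoc_of_le H' hxT', hcompl.sup_eq_top, top_inf_eq]
  have hinf : Submodule.span K {x} ⊓ H = ⊥ := by
    rw [eq_bot_iff, ← hcompl.inf_eq_bot]
    exact inf_le_inf_left _ inf_le_left
  have hd := Submodule.finrank_sup_add_finrank_inf_eq (Submodule.span K {x}) H
  rw [hsup, hinf, finrank_bot, finrank_span_singleton hx0, add_zero] at hd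
  have hTd := finrank_tangent I x
  rw [hI.rank x hx hx0, ← hT, hcard] at hTd
  have hHd : Module.finrank K H = Fintype.card τ := by omega
  let e : (τ → K) ≃ₗ[K] H := LinearEquiv.ofFinrankEq (τ → K) H (by
    rw [Module.finrank_fintype_fun_eq_card, hHd])
  let A : (τ → K) →ₗ[K] (σ → K) := H.subtype.comp e.toLinearMap
  have hA : ∀ w, A w ∈ H := fun w => (e w).2
  have hAr : ∀ y ∈ H, ∃ w, A w = y := by
    intro y hy
    refine ⟨e.symm ⟨y, hy⟩, ?_⟩
    show ((e (e.symm ⟨y, hy⟩) : H) : σ → K) = y
    rw [LinearEquiv.apply_symm_apply]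
  refine ⟨A, ?_, ?_⟩
  · exact {
      sc := hI
      mem := hx
      inj := by
        intro a b hab
        exact e.injective (Subtype.ext hab)
      notMem := by
        intro a u hau
        by_contra ha
        have h1 : x ∈ H := by
          have h2 := H.smul_mem a⁻¹ (hA u)
          rwa [← hau, smul_smul, inv_mul_cancel₀ ha, one_smul] at h2
        have h2 : x ∈ Submodule.span K {x} ⊓ H :=
          Submodule.mem_inf.2 ⟨Submodule.mem_span_singleton_self x, h1⟩
        rw [hinf, Submodule.mem_bot] at h2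
        exact hx0 h2
      tan := fun w => (Submodule.mem_inf.1 (hA w)).2
      tan' := by
        intro w hw
        rw [← hT, ← hsup] at hw
        obtain ⟨y, hy, z, hz, rfl⟩ := Submodule.mem_sup.1 hw
        obtain ⟨a, rfl⟩ := Submodule.mem_span_singleton.1 hy
        obtain ⟨b, rfl⟩ := hAr z hz
        exact ⟨a, b, rfl⟩
      free := hfree }
  · intro u hu
    exact hAr u (Submodule.mem_inf.2 ⟨hUH hu, hU hu⟩)

/-- a cone meets a linear space of complementary dimension -/
lemma meet_linear [IsAlgClosed K] (P : Ideal (MvPolynomial τ K)) [hP : P.IsPrime] (hPm : Hm P)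
    (N : Submodule K (τ → K)) (h : Fintype.card τ < tdP P + Module.finrank K N) :
    ∃ v ∈ cone P, v ≠ 0 ∧ v ∈ N := by
  set M := (dotB τ K).orthogonal N with hM
  have hMd : Module.finrank K M + Module.finrank K N = Fintype.card τ := by
    have h1 := LinearMap.BilinForm.finrank_orthogonal dotB_nondegenerate N
    have h2 := Submodule.finrank_le N
    rw [Module.finrank_fintype_fun_eq_card] at h1 h2
    rw [← hM] at h1
    omega
  let b := Module.finBasisOfFinrankEq K M rfl
  obtain ⟨R, hR, hRM, hRmin, hle⟩ := exists_cut P (mx 0) hP (mx_prime _)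
    (le_mx_zero hP.ne_top hPm) (fun i => lin ((b i : M) : τ → K)) (fun i => by
      rw [mem_mx, eval_lin, map_zero])
  obtain ⟨v, hv, hv0⟩ := exists_ne_cone R (by omega)
  refine ⟨v, fun f hf => hv f (hRmin.1.2 (Ideal.mem_sup_left hf)), hv0, ?_⟩
  rw [mem_iff_orth]
  intro u' hu'
  have h2 : u' ∈ M := LinearMap.BilinForm.mem_orthogonal_iff.2 hu'
  have h3 := congrArg (fun z : M => (z : τ → K)) (b.sum_repr ⟨u', h2⟩)
  simp only [Submodule.coe_sum, Submodule.coe_smul] at h3
  rw [← h3, map_sum]
  refine Finset.sum_eq_zero (fun i _ => ?_)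
  have h4 : dotB τ K ((b i : M) : τ → K) v = 0 := by
    rw [← eval_lin]
    exact hv _ (hRmin.1.2 (Ideal.mem_sup_right (Ideal.subset_span ⟨i, rfl⟩)))
  rw [map_smul, dotB_comm, h4, smul_zero]

end Pool.Agent.Run7.h399

/-!
# Degenerate directions of the second fundamental form propagate along lines
-/

namespace Pool.Agent.Run7.h399

open MvPolynomial Pool.Agent.Run7.h399.Hart Pool.Agent.R948

variable {σ τ : Type} [Fintype σ] [DecidableEq σ] [Fintype τ] [DecidableEq τ]
  {K : Type} [Field K]

/-- the kernel at a neighbouring point of a line -/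
theorem propagate [IsAlgClosed K] [CharZero K] {I : Ideal (MvPolynomial σ K)} {c r : ℕ}
    {x : σ → K} {A : (τ → K) →ₗ[K] (σ → K)} (h : FreePt I c x A)
    (Y : Ideal (MvPolynomial τ K)) [hY : Y.IsPrime] (hYmin : Y ∈ (linesI I x A).minimalPrimes)
    (hYdim : tdP Y + r = Fintype.card τ)
    (δ : MvPolynomial σ K) (θ : σ → σ → MvPolynomial σ K)
    (hθ : ∀ l, ∀ f ∈ I, ∑ i, pderiv i f * θ l i ∈ I)
    (hδ : ∀ x ∈ cone I, ∀ w ∈ tangent I x, ∀ i, eval x δ * w i = ∑ l, w l * eval x (θ l i))
    (f : MvPolynomial σ K) (hf : f ∈ I) (hq : (lexp x A f).coeff 2 = 0)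
    (v : τ → K) (hv : v ∈ cone Y) (hv0 : v ≠ 0) (t : K) (ht : t ≠ 0)
    (hδx : eval (x + t • A v) δ ≠ 0) :
    ∃ f' ∈ I, grad f' (x + t • A v) = grad f x ∧ ∀ a ∈ tangent (linesI I x A) v,
      A a ∈ tangent I (x + t • A v) ∧
        ∀ w ∈ tangent I (x + t • A v), hs f' (x + t • A v) (A a) w = 0 := by
  classical
  haveI := IsAlgClosed.instInfinite (K := K)
  set J := linesI I x A with hJ
  have hYJ : ∀ v ∈ cone Y, v ∈ cone J := fun v hv g hg => hv g (hYmin.1.2 hg)
  have hcone : ∀ u ∈ cone Y, x + (t • A) u ∈ cone I := by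
    intro u hu
    exact (mem_linesI_cone I x A u).1 (hYJ u hu) t
  have hlam : ∀ u ∈ cone Y, grad f x ∈ conormal I (x + (t • A) u) := by
    intro u hu
    by_cases hu0 : u = 0
    · rw [hu0, map_zero, add_zero]
      exact grad_mem I x hf
    · rw [mem_conormal_iff]
      intro w hw
      refine tangent_along h u (hYJ u hu) hu0 f hf ?_ 1 t (Or.inl one_ne_zero) w ?_
      · rw [hq]
        exact grad_zero u
      · rw [one_smul]
        exact hw
  set x' := x + t • A v with hx'
  have hx'I : x' ∈ cone I := hcone v hv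
  obtain ⟨f', hf', hgf'⟩ := exists_grad I x' _ (hlam v hv)
  -- tangent spaces of the component
  have htan : ∀ a ∈ tangent J v, a ∈ tangent Y v := by
    intro a ha
    have h1 : conormal J v ≤ conormal Y v := by
      apply Submodule.span_mono
      rintro ξ ⟨G, hG, rfl⟩
      exact ⟨G, hYmin.1.2 hG, rfl⟩
    have h2 := tdP_le_of_tangent Y v hv
    have h3 := rank_lines h Y hYmin hYdim v hv hv0
    have h4 : conormal J v = conormal Y v := by
      apply Submodule.eq_of_le_of_finrank_le h1
      rw [h3]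
      omega
    rw [mem_tangent'] at ha ⊢
    rw [← h4]
    exact ha
  have hAa : ∀ a ∈ tangent J v, A a ∈ tangent I x' := by
    intro a ha
    rw [mem_tangent]
    intro g hg
    have h1 : sbx x (t • A) g ∈ Y := by
      apply mem_of_vanish Y hY
      intro u hu
      rw [eval_sbx]
      exact hcone u hu g hg
    have h2 := (mem_tangent Y v a).1 (htan a ha) _ h1
    rw [grad_sbx, LinearMap.smul_apply, LinearMap.smul_apply, map_smul, smul_eq_mul] at h2
    exact (mul_eq_zero.1 h2).resolve_left ht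
  refine ⟨f', hf', hgf'.symm, fun a ha => ⟨hAa a ha, ?_⟩⟩
  have hfield : ∀ l, hs f' x' (A a) (fun i => eval x' (θ l i)) = 0 := by
    intro l
    have h1 := hs_field (θ l) (hθ l f' hf') x' (A a) (hAa a ha)
    have h2 : ∑ i, eval x' (pderiv i f') * dotB σ K (grad (θ l i) x') (A a) = 0 := by
      have h3 : sbx x (t • A) (∑ i, C (grad f x i) * θ l i) ∈ Y := by
        apply mem_of_vanish Y hY
        intro u hu
        rw [eval_sbx, map_sum]
        have h4 : (fun i => eval (x + (t • A) u) (θ l i)) ∈ tangent I (x + (t • A) u) := by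
          rw [mem_tangent]
          intro F hF
          have h5 := hcone u hu _ (hθ l F hF)
          rw [map_sum] at h5
          rw [dotB_apply, ← h5]
          exact Finset.sum_congr rfl (fun i _ => by rw [map_mul]; rfl)
        have h5 := tangent_conormal I _ (hlam u hu) h4
        rw [dotB_apply] at h5
        rw [← h5]
        exact Finset.sum_congr rfl (fun i _ => by rw [map_mul, eval_C])
      have h4 := (mem_tangent Y v a).1 (htan a ha) _ h3
      rw [grad_sbx, LinearMap.smul_apply, LinearMap.smul_apply, map_smul, smul_eq_mul] at h4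
      have h5 := (mul_eq_zero.1 h4).resolve_left ht
      rw [grad_sum, map_sum, LinearMap.sum_apply] at h5
      rw [← h5]
      refine Finset.sum_congr rfl (fun i _ => ?_)
      rw [grad_C_mul, map_smul, LinearMap.smul_apply, smul_eq_mul, hgf']
      rfl
    rw [h2, add_zero] at h1
    exact h1
  intro w hw
  have h1 : eval x' δ * hs f' x' (A a) w = ∑ l, w l * hs f' x' (A a) (fun i => eval x' (θ l i)) := by
    simp only [hs, Finset.mul_sum]
    rw [Finset.sum_comm]
    refine Finset.sum_congr rfl (fun i _ => ?_)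
    have h2 := hδ x' hx'I w hw i
    have h3 : eval x' δ * (dotB σ K (grad (pderiv i f') x') (A a) * w i) =
        dotB σ K (grad (pderiv i f') x') (A a) * (eval x' δ * w i) := by ring
    rw [h3, h2, Finset.mul_sum]
    exact Finset.sum_congr rfl (fun l _ => by ring)
  rw [Finset.sum_eq_zero (fun l _ => by rw [hfield l, mul_zero])] at h1
  exact (mul_eq_zero.1 h1).resolve_left hδx

end Pool.Agent.Run7.h399

/-!
# Moving degenerate directions of the second fundamental form
-/

namespace Pool.Agent.Run7.h399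

open MvPolynomial Pool.Agent.Run7.h399.Hart Pool.Agent.R948

variable {σ τ : Type} [Fintype σ] [DecidableEq σ] [Fintype τ] [DecidableEq τ]
  {K : Type} [Field K]

lemma finrank_map_inj {V W : Type} [AddCommGroup V] [Module K V] [AddCommGroup W] [Module K W]
    (f : V →ₗ[K] W) (hf : Function.Injective f) (p : Submodule K V) :
    Module.finrank K (p.map f) = Module.finrank K p :=
  (Submodule.equivMapOfInjective f hf p).finrank_eq.symm

lemma lexp_map [Infinite K] (x : σ → K) (A : (τ → K) →ₗ[K] (σ → K)) (f : MvPolynomial σ K)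
    (u : τ → K) (k : ℕ) : eval u ((lexp x A f).coeff k) = (line f x (A u)).coeff k := by
  have h : (lexp x A f).map (eval u) = line f x (A u) := by
    apply Polynomial.funext
    intro t
    rw [eval_line, ← lexp_evalC, Polynomial.eval_map, Polynomial.eval₂_eq_sum_range,
      Polynomial.eval_eq_sum_range, map_sum]
    refine Finset.sum_congr rfl (fun i _ => ?_)
    rw [map_mul, map_pow, eval_C]
  rw [← h, Polynomial.coeff_map]

lemma line_scale [Infinite K] (x v : σ → K) (f : MvPolynomial σ K) (s : K) (hs : s ≠ 0) :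
    line (C s * sbx 0 (s⁻¹ • LinearMap.id) f) (s • x) v =
      Polynomial.C s * (line f x v).comp (Polynomial.C s⁻¹ * Polynomial.X) := by
  apply Polynomial.funext
  intro t
  rw [eval_line, map_mul, eval_C, eval_sbx, Polynomial.eval_mul, Polynomial.eval_C,
    Polynomial.eval_comp, Polynomial.eval_mul, Polynomial.eval_C, Polynomial.eval_X, eval_line,
    zero_add, LinearMap.smul_apply, LinearMap.id_apply, smul_add, smul_smul, smul_smul,
    inv_mul_cancel₀ hs, one_smul]

lemma scale_elem [IsAlgClosed K] {I : Ideal (MvPolynomial σ K)} (hI : I.IsPrime) (hIm : Hm I)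
    (x : σ → K) (A : (τ → K) →ₗ[K] (σ → K)) (f : MvPolynomial σ K) (hf : f ∈ I)
    (hq : (lexp x A f).coeff 2 = 0) (s : K) (hs : s ≠ 0) :
    ∃ f' ∈ I, grad f' (s • x) = grad f x ∧ (lexp (s • x) A f').coeff 2 = 0 := by
  haveI := IsAlgClosed.instInfinite (K := K)
  refine ⟨C s * sbx 0 (s⁻¹ • LinearMap.id) f, ?_, ?_, ?_⟩
  · apply mem_of_vanish I hI
    intro z hz
    rw [map_mul, eval_sbx, zero_add, LinearMap.smul_apply, LinearMap.id_apply,
      cone_smul I hIm _ _ hz f hf, mul_zero]
  · apply dotB_ext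
    intro y
    rw [grad_C_mul, map_smul, LinearMap.smul_apply, grad_sbx, zero_add, LinearMap.smul_apply,
      LinearMap.id_apply, LinearMap.smul_apply, LinearMap.id_apply, smul_smul,
      inv_mul_cancel₀ hs, one_smul, map_smul, smul_eq_mul, smul_eq_mul, ← mul_assoc,
      mul_inv_cancel₀ hs, one_mul]
  · apply MvPolynomial.funext
    intro u
    rw [lexp_map, line_scale x (A u) f s hs, Polynomial.coeff_C_mul,
      Polynomial.comp_C_mul_X_coeff, ← lexp_map, hq, map_zero, zero_mul, mul_zero]

lemma FreePt.scale [Infinite K] {I : Ideal (MvPolynomial σ K)} {c : ℕ} {x : σ → K}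
    {A : (τ → K) →ₗ[K] (σ → K)} (h : FreePt I c x A) (s : K) (hs : s ≠ 0) :
    FreePt I c (s • x) A where
  sc := h.sc
  mem := cone_smul I h.sc.homog _ _ h.mem
  inj := h.inj
  notMem := by
    intro a u hau
    rw [smul_smul] at hau
    exact (mul_eq_zero.1 (h.notMem _ u hau)).resolve_right hs
  tan := by
    intro w
    rw [tangent_smul I h.sc.homog s hs]
    exact h.tan w
  tan' := by
    intro w hw
    rw [tangent_smul I h.sc.homog s hs] at hw
    obtain ⟨a, b, hab⟩ := h.tan' w hw
    refine ⟨a * s⁻¹, b, ?_⟩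
    rw [smul_smul, mul_assoc, inv_mul_cancel₀ hs, mul_one]
    exact hab
  free := by
    intro v hv
    have h1 : ∀ t : K, x + t • v ∈ cone I := by
      intro t
      have h2 : x + t • v = s⁻¹ • (s • x + (s * t) • v) := by
        rw [smul_add, smul_smul, smul_smul, ← mul_assoc, inv_mul_cancel₀ hs, one_smul, one_mul]
      rw [h2]
      exact cone_smul I h.sc.homog _ _ (hv _)
    intro w hw
    rw [tangent_smul I h.sc.homog s hs] at hw
    obtain ⟨w', hw'⟩ := h.free v h1 w hw
    refine ⟨s⁻¹ • w', fun t => ?_⟩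
    have h2 : s • x + t • v = s • (x + (s⁻¹ * t) • v) := by
      rw [smul_add, smul_smul, ← mul_assoc, mul_inv_cancel₀ hs, one_mul]
    rw [h2, tangent_smul I h.sc.homog s hs, smul_smul, mul_comm t]
    exact hw' _

/-- the variety of lines has a nondegenerate component of codimension `r` -/
def GoodAt (I : Ideal (MvPolynomial σ K)) (r : ℕ) (x : σ → K)
    (A : (τ → K) →ₗ[K] (σ → K)) : Prop :=
  ∃ Y : Ideal (MvPolynomial τ K), ∃ _ : Y.IsPrime, Y ∈ (linesI I x A).minimalPrimes ∧
    tdP Y + r = Fintype.card τ ∧ ∀ ξ : τ → K, lin ξ ∈ Y → ξ = 0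

/-- the standing data -/
structure Data (τ : Type) [Fintype τ] [DecidableEq τ] (I : Ideal (MvPolynomial σ K)) (c r : ℕ)
    (h0 : MvPolynomial σ K) : Prop where
  sc : SCone I c
  card : Fintype.card σ = Fintype.card τ + c + 1
  free : ∀ x ∈ cone I, eval x h0 ≠ 0 → ∀ v, (∀ t : K, x + t • v ∈ cone I) → FreeAt I x v
  fields : ∃ (δ : MvPolynomial σ K) (θ : σ → σ → MvPolynomial σ K),
    (∀ l, ∀ f ∈ I, ∑ i, pderiv i f * θ l i ∈ I) ∧
    (∀ x ∈ cone I, ∀ w ∈ tangent I x, ∀ i, eval x δ * w i = ∑ l, w l * eval x (θ l i)) ∧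
    ∀ x ∈ cone I, eval x h0 ≠ 0 → eval x δ ≠ 0
  good : ∀ x ∈ cone I, eval x h0 ≠ 0 → ∀ A : (τ → K) →ₗ[K] (σ → K), FreePt I c x A →
    GoodAt I r x A
  small : 4 * r ≤ Fintype.card τ + 1
  pos : 2 * r < Fintype.card τ

theorem move [IsAlgClosed K] [CharZero K] {I : Ideal (MvPolynomial σ K)} {c r : ℕ}
    {h0 : MvPolynomial σ K} (H : Data τ I c r h0)
    {x : σ → K} {A : (τ → K) →ₗ[K] (σ → K)} (h : FreePt I c x A)
    (Y : Ideal (MvPolynomial τ K)) [hY : Y.IsPrime] (hYmin : Y ∈ (linesI I x A).minimalPrimes)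
    (hYdim : tdP Y + r = Fintype.card τ)
    (f : MvPolynomial σ K) (hf : f ∈ I) (hq : (lexp x A f).coeff 2 = 0)
    (v : τ → K) (hv : v ∈ cone Y) (t : K) (hx' : eval (x + t • A v) h0 ≠ 0) :
    ∃ A' : (τ → K) →ₗ[K] (σ → K), FreePt I c (x + t • A v) A' ∧
      ∃ f' ∈ I, grad f' (x + t • A v) = grad f x ∧ (lexp (x + t • A v) A' f').coeff 2 = 0 := by
  classical
  haveI := IsAlgClosed.instInfinite (K := K)
  by_cases ht : t = 0
  · have h1 : x + t • A v = x := by rw [ht, zero_smul, add_zero]
    rw [h1]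
    exact ⟨A, h, f, hf, rfl, hq⟩
  by_cases hv0 : v = 0
  · have h1 : x + t • A v = x := by rw [hv0, map_zero, smul_zero, add_zero]
    rw [h1]
    exact ⟨A, h, f, hf, rfl, hq⟩
  obtain ⟨δ, θ, hθ, hδ, hδ0⟩ := H.fields
  set J := linesI I x A with hJ
  have hvJ : v ∈ cone J := fun g hg => hv g (hYmin.1.2 hg)
  set x' := x + t • A v with hx'def
  have hx'I : x' ∈ cone I := (mem_linesI_cone I x A v).1 hvJ t
  obtain ⟨f', hf', hgf', hprop⟩ := propagate h Y hYmin hYdim δ θ hθ hδ f hf hq v hv hv0 t ht
    (hδ0 x' hx'I hx')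
  have hU : (tangent J v).map A ≤ tangent I x' := by
    rintro _ ⟨a, ha, rfl⟩
    exact (hprop a ha).1
  have hxU : x' ∉ (tangent J v).map A := by
    rintro ⟨a, _, ha⟩
    have h1 : (1 : K) • x = A (a - t • v) := by
      rw [one_smul, map_sub, map_smul, ha, hx'def, add_sub_cancel_right]
    exact one_ne_zero (h.notMem 1 _ h1)
  obtain ⟨A', hA', hUA'⟩ := exists_frame_of H.sc H.card hx'I (H.free x' hx'I hx') _ hU hxU
  obtain ⟨Y', hY', hY'min, hY'dim, hY'nd⟩ := H.good x' hx'I hx' A' hA'
  refine ⟨A', hA', f', hf', hgf', ?_⟩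
  set N := ((tangent J v).map A).comap A' with hN
  have hNd : Module.finrank K N = Module.finrank K (tangent J v) := by
    rw [← finrank_map_inj A' hA'.inj N, hN, Submodule.map_comap_eq_of_le hUA',
      finrank_map_inj A h.inj]
  have hTd : Module.finrank K (tangent J v) + r = Fintype.card τ := by
    have h1 := finrank_tangent J v
    rw [rank_lines h Y hYmin hYdim v hv hv0] at h1
    omega
  have hpos := H.pos
  obtain ⟨v', hv', hv'0, hv'N⟩ := meet_linear Y' (Hm.minimal (linesI_homog I x' A') hY'min) N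
    (by omega)
  refine quad_zero (fun w hw hw0 => arcs_lines hA' w hw hw0) (linesI_homog I x' A') Y' hY'min
    hY'dim hY'nd H.small (Ideal.subset_span ⟨f', hf', 2, rfl⟩) (lexp_coeff_homog x' A' f' 2) v' hv'
    hv'0 ?_
  apply dotB_ext
  intro y
  rw [quad_hs, map_zero, LinearMap.zero_apply]
  obtain ⟨a, ha, ha'⟩ := hv'N
  rw [← ha']
  exact (hprop a ha).2 _ (hA'.tan y)

end Pool.Agent.Run7.h399

/-!
# Moving degenerate directions of the second fundamental form, II
-/

namespace Pool.Agent.Run7.h399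

open MvPolynomial Pool.Agent.Run7.h399.Hart Pool.Agent.R948

variable {σ τ : Type} [Fintype σ] [DecidableEq σ] [Fintype τ] [DecidableEq τ]
  {K : Type} [Field K]

/-- the standing data -/
structure DataW (τ : Type) [Fintype τ] [DecidableEq τ] (I : Ideal (MvPolynomial σ K)) (c r : ℕ)
    (h0 : MvPolynomial σ K) : Prop where
  sc : SCone I c
  card : Fintype.card σ = Fintype.card τ + c + 1
  free : ∀ x ∈ cone I, eval x h0 ≠ 0 → ∀ v, (∀ t : K, x + t • v ∈ cone I) → FreeAt I x v
  fields : ∃ (δ : MvPolynomial σ K) (θ : σ → σ → MvPolynomial σ K),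
    (∀ l, ∀ f ∈ I, ∑ i, pderiv i f * θ l i ∈ I) ∧
    (∀ x ∈ cone I, ∀ w ∈ tangent I x, ∀ i, eval x δ * w i = ∑ l, w l * eval x (θ l i)) ∧
    ∀ x ∈ cone I, eval x h0 ≠ 0 → eval x δ ≠ 0
  good : ∀ x ∈ cone I, eval x h0 ≠ 0 → ∀ A : (τ → K) →ₗ[K] (σ → K), FreePt I c x A →
    GoodAt I r x A
  small : 3 * r ≤ Fintype.card τ + 1
  pos : 2 * r < Fintype.card τ

theorem moveW [IsAlgClosed K] [CharZero K] {I : Ideal (MvPolynomial σ K)} {c r : ℕ}
    {h0 : MvPolynomial σ K} (H : DataW τ I c r h0)
    {x : σ → K} {A : (τ → K) →ₗ[K] (σ → K)} (h : FreePt I c x A)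
    (Y : Ideal (MvPolynomial τ K)) [hY : Y.IsPrime] (hYmin : Y ∈ (linesI I x A).minimalPrimes)
    (hYdim : tdP Y + r = Fintype.card τ)
    (f : MvPolynomial σ K) (hf : f ∈ I) (hq : (lexp x A f).coeff 2 = 0)
    (v : τ → K) (hv : v ∈ cone Y) (t : K) (hx' : eval (x + t • A v) h0 ≠ 0) :
    ∃ A' : (τ → K) →ₗ[K] (σ → K), FreePt I c (x + t • A v) A' ∧
      ∃ f' ∈ I, grad f' (x + t • A v) = grad f x ∧ (lexp (x + t • A v) A' f').coeff 2 = 0 := by
  classical
  haveI := IsAlgClosed.instInfinite (K := K)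
  by_cases ht : t = 0
  · have h1 : x + t • A v = x := by rw [ht, zero_smul, add_zero]
    rw [h1]
    exact ⟨A, h, f, hf, rfl, hq⟩
  by_cases hv0 : v = 0
  · have h1 : x + t • A v = x := by rw [hv0, map_zero, smul_zero, add_zero]
    rw [h1]
    exact ⟨A, h, f, hf, rfl, hq⟩
  obtain ⟨δ, θ, hθ, hδ, hδ0⟩ := H.fields
  set J := linesI I x A with hJ
  have hvJ : v ∈ cone J := fun g hg => hv g (hYmin.1.2 hg)
  set x' := x + t • A v with hx'def
  have hx'I : x' ∈ cone I := (mem_linesI_cone I x A v).1 hvJ t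
  obtain ⟨f', hf', hgf', hprop⟩ := propagate h Y hYmin hYdim δ θ hθ hδ f hf hq v hv hv0 t ht
    (hδ0 x' hx'I hx')
  have hU : (tangent J v).map A ≤ tangent I x' := by
    rintro _ ⟨a, ha, rfl⟩
    exact (hprop a ha).1
  have hxU : x' ∉ (tangent J v).map A := by
    rintro ⟨a, _, ha⟩
    have h1 : (1 : K) • x = A (a - t • v) := by
      rw [one_smul, map_sub, map_smul, ha, hx'def, add_sub_cancel_right]
    exact one_ne_zero (h.notMem 1 _ h1)
  obtain ⟨A', hA', hUA'⟩ := exists_frame_of H.sc H.card hx'I (H.free x' hx'I hx') _ hU hxU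
  obtain ⟨Y', hY', hY'min, hY'dim, hY'nd⟩ := H.good x' hx'I hx' A' hA'
  refine ⟨A', hA', f', hf', hgf', ?_⟩
  set N := ((tangent J v).map A).comap A' with hN
  have hNd : Module.finrank K N = Module.finrank K (tangent J v) := by
    rw [← finrank_map_inj A' hA'.inj N, hN, Submodule.map_comap_eq_of_le hUA',
      finrank_map_inj A h.inj]
  have hTd : Module.finrank K (tangent J v) + r = Fintype.card τ := by
    have h1 := finrank_tangent J v
    rw [rank_lines h Y hYmin hYdim v hv hv0] at h1
    omega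
  have hsm := H.small
  refine quad_rank (fun w hw hw0 => arcs_lines hA' w hw hw0) (linesI_homog I x' A') Y' hY'min
    hY'dim hY'nd (Ideal.subset_span ⟨f', hf', 2, rfl⟩) (lexp_coeff_homog x' A' f' 2) ?_
  have hNle : N ≤ LinearMap.ker (polar (lexp_coeff_homog x' A' f' 2)) := by
    intro v' hv'N
    rw [LinearMap.mem_ker, polar_apply]
    apply dotB_ext
    intro y
    rw [quad_hs, map_zero, LinearMap.zero_apply]
    obtain ⟨a, ha, ha'⟩ := hv'N
    rw [← ha']
    exact (hprop a ha).2 _ (hA'.tan y)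
  have h1 := Submodule.finrank_mono hNle
  omega

end Pool.Agent.Run7.h399

/-!
# The second fundamental form is injective at a general point
-/

namespace Pool.Agent.Run7.h399

open MvPolynomial Pool.Agent.Run7.h399.Hart Pool.Agent.R948

variable {σ τ : Type} [Fintype σ] [DecidableEq σ] [Fintype τ] [DecidableEq τ]
  {K : Type} [Field K]

/-- a function vanishing on the other components -/
lemma exists_sep (q P : Ideal (MvPolynomial σ K)) (hP : P ∈ q.minimalPrimes) :
    ∃ a, a ∉ P ∧ ∀ f ∈ P, a * f ∈ q.radical := by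
  classical
  haveI := hP.1.1
  have hfin := Ideal.finite_minimalPrimes_of_isNoetherianRing _ q
  set S := hfin.toFinset.erase P with hS
  have h1 : ∀ Q ∈ S, ∃ h, h ∈ Q ∧ h ∉ P := by
    intro Q hQ
    rw [hS, Finset.mem_erase, Set.Finite.mem_toFinset] at hQ
    by_contra hcon
    push Not at hcon
    have h2 : Q ≤ P := fun f hf => hcon f hf
    have h3 := hP.2 hQ.2.1 h2
    exact hQ.1 (le_antisymm h2 h3)
  choose! h h2 h3 using h1
  refine ⟨∏ Q ∈ S, h Q, ?_, fun f hf => ?_⟩
  · intro h4
    obtain ⟨Q, hQ, h5⟩ := (Ideal.IsPrime.prod_mem_iff).1 h4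
    exact h3 Q hQ h5
  · rw [← Ideal.sInf_minimalPrimes, Submodule.mem_sInf]
    intro Q hQ
    by_cases hQP : Q = P
    · rw [hQP]; exact P.mul_mem_left _ hf
    · have h5 : Q ∈ S := by
        rw [hS, Finset.mem_erase, Set.Finite.mem_toFinset]
        exact ⟨hQP, hQ⟩
      refine Ideal.mul_mem_right _ _ ?_
      rw [← Finset.prod_erase_mul _ _ h5]
      exact Ideal.mul_mem_left _ _ (h2 Q h5)

/-- the ideal of a set of points -/
def vi (S : Set (σ → K)) : Ideal (MvPolynomial σ K) where
  carrier := {g | ∀ z ∈ S, eval z g = 0}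
  add_mem' := by
    intro a b ha hb z hz
    rw [map_add, ha z hz, hb z hz, add_zero]
  zero_mem' := by
    intro z _
    rw [map_zero]
  smul_mem' := by
    intro a b hb z hz
    rw [smul_eq_mul, map_mul, hb z hz, mul_zero]

lemma mem_vi (S : Set (σ → K)) (g : MvPolynomial σ K) : g ∈ vi S ↔ ∀ z ∈ S, eval z g = 0 :=
  Iff.rfl

/-- a set of points of the variety along which all functions vanishing on the set have differential
vanishing on the tangent space is dense -/
theorem dense_of_conormal [IsAlgClosed K] [CharZero K] {I : Ideal (MvPolynomial σ K)} {c : ℕ}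
    (hI : SCone I c) (S : Set (σ → K)) (hne : S.Nonempty) (hS : ∀ z ∈ S, z ∈ cone I)
    (hS0 : ∀ z ∈ S, z ≠ 0) (hcon : ∀ z ∈ S, ∀ g ∈ vi S, grad g z ∈ conormal I z) :
    vi S ≤ I := by
  classical
  have hIS : I ≤ vi S := fun g hg z hz => hS z hz g hg
  have htop : vi S ≠ ⊤ := by
    intro h
    obtain ⟨z, hz⟩ := hne
    have h1 : (1 : MvPolynomial σ K) ∈ vi S := by rw [h]; trivial
    have h2 := h1 z hz
    rw [map_one] at h2
    exact one_ne_zero h2
  obtain ⟨M, hM, hSM⟩ := Ideal.exists_le_maximal _ htop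
  haveI := hM.isPrime
  obtain ⟨P, hP, _⟩ := Ideal.exists_minimalPrimes_le hSM
  haveI hPp : P.IsPrime := hP.1.1
  haveI hIp : I.IsPrime := hI.prime
  obtain ⟨a, haP, ha⟩ := exists_sep _ P hP
  have ha' : ∀ f ∈ P, a * f ∈ vi S := by
    intro f hf
    obtain ⟨n, hn⟩ := ha f hf
    intro z hz
    have h1 := hn z hz
    rw [map_pow] at h1
    exact eq_zero_of_pow_eq_zero h1
  obtain ⟨D, hD, hsm⟩ := generic_smooth P
  have haD : a * D ∉ P := fun h => (hPp.mem_or_mem h).elim haP hD
  have hex : ∃ z ∈ S, z ∈ cone P ∧ eval z (a * D) ≠ 0 := by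
    by_contra hcon'
    push Not at hcon'
    apply haD
    apply hP.1.2
    intro z hz
    by_cases hzP : z ∈ cone P
    · exact hcon' z hz hzP
    · have h1 : ∃ p ∈ P, eval z p ≠ 0 := by
        by_contra h2
        push Not at h2
        exact hzP h2
      obtain ⟨p, hp, hpz⟩ := h1
      have h2 := ha' p hp z hz
      rw [map_mul] at h2
      rw [map_mul, (mul_eq_zero.1 h2).resolve_right hpz, zero_mul]
  obtain ⟨z, hz, hzP, hzaD⟩ := hex
  rw [map_mul] at hzaD
  have hle : conormal P z ≤ conormal I z := by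
    rw [conormal, Submodule.span_le]
    rintro _ ⟨p, hp, rfl⟩
    have h1 := hcon z hz _ (ha' p hp)
    rw [grad_mul, hzP p hp, zero_smul, zero_add] at h1
    have h2 := Submodule.smul_mem _ (eval z a)⁻¹ h1
    rwa [smul_smul, inv_mul_cancel₀ (left_ne_zero_of_mul hzaD), one_smul] at h2
  have h1 := Submodule.finrank_mono hle
  rw [hI.rank z (hS z hz) (hS0 z hz)] at h1
  have h2 := hsm z (right_ne_zero_of_mul hzaD)
  have h3 := tdP_le_of_tangent I z (hS z hz)
  rw [hI.rank z (hS z hz) (hS0 z hz)] at h3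
  have h4 : P ≤ I := by
    by_contra hno
    have h5 : I < P := lt_of_le_of_ne (hIS.trans hP.1.2) (fun h => hno (le_of_eq h.symm))
    have h6 := tdP_strict h5
    omega
  exact hP.1.2.trans h4

/-- **The second fundamental form is injective at a general point.** -/
theorem dead_zero [IsAlgClosed K] [CharZero K] {I : Ideal (MvPolynomial σ K)} {c r : ℕ}
    {h0 : MvPolynomial σ K} (H : Data τ I c r h0) (hnd : Nondeg I)
    {x : σ → K} {A : (τ → K) →ₗ[K] (σ → K)} (h : FreePt I c x A) (hx : eval x h0 ≠ 0)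
    (f : MvPolynomial σ K) (hf : f ∈ I) (hq : (lexp x A f).coeff 2 = 0) : grad f x = 0 := by
  classical
  haveI := IsAlgClosed.instInfinite (K := K)
  by_contra hlam
  set lam := grad f x with hlamdef
  let S : Set (σ → K) := {z | z ∈ cone I ∧ eval z h0 ≠ 0 ∧ ∃ A : (τ → K) →ₗ[K] (σ → K),
    FreePt I c z A ∧ ∃ f ∈ I, grad f z = lam ∧ (lexp z A f).coeff 2 = 0}
  have hxS : x ∈ S := ⟨h.mem, hx, A, h, f, hf, rfl, hq⟩
  have hscale : ∀ z ∈ S, ∀ s : K, s ≠ 0 → eval (s • z) h0 ≠ 0 → s • z ∈ S := by
    rintro z ⟨_, _, A, hA, f, hf, hgf, hq⟩ s hs hsz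
    obtain ⟨f', hf', hgf', hq'⟩ := scale_elem H.sc.prime H.sc.homog z A f hf hq s hs
    exact ⟨(hA.scale s hs).mem, hsz, A, hA.scale s hs, f', hf', by rw [hgf', hgf], hq'⟩
  have hcon : ∀ z ∈ S, ∀ g ∈ vi S, grad g z ∈ conormal I z := by
    intro z hz g hg
    obtain ⟨hzI, hz0, A, hA, f, hf, hgf, hq⟩ := hz
    have hzS : z ∈ S := ⟨hzI, hz0, A, hA, f, hf, hgf, hq⟩
    obtain ⟨Y, hY, hYmin, hYdim, hYnd⟩ := H.good z hzI hz0 A hA
    have hline : ∀ v ∈ cone Y, dotB σ K (grad g z) (A v) = 0 := by
      intro v hv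
      have h1 : line g z (A v) * line h0 z (A v) = 0 := by
        apply poly_eq_zero
        intro t _
        rw [Polynomial.eval_mul, eval_line, eval_line]
        by_cases h2 : eval (z + t • A v) h0 = 0
        · rw [h2, mul_zero]
        · obtain ⟨A', hA', f', hf', hgf', hq'⟩ := move H hA Y hYmin hYdim f hf hq v hv t h2
          have h3 : z + t • A v ∈ S := ⟨hA'.mem, h2, A', hA', f', hf', by rw [hgf', hgf], hq'⟩
          rw [hg _ h3, zero_mul]
      have h2 : line h0 z (A v) ≠ 0 := by
        intro h3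
        have h4 := eval_line h0 z (A v) 0
        rw [h3, Polynomial.eval_zero, zero_smul, add_zero] at h4
        exact hz0 h4.symm
      have h3 := (mul_eq_zero.1 h1).resolve_right h2
      rw [← line_coeff_one, h3, Polynomial.coeff_zero]
    have hxi : (fun j => dotB σ K (grad g z) (A (Pi.single j 1))) = (0 : τ → K) := by
      apply hYnd
      apply mem_of_vanish Y hY
      intro v hv
      rw [eval_lin, dotB_apply, ← hline v hv]
      conv_rhs => rw [← Finset.univ_sum_single v, map_sum, map_sum]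
      refine Finset.sum_congr rfl (fun j _ => ?_)
      have h3 : (Pi.single j (v j) : τ → K) = v j • Pi.single j 1 := by
        rw [← Pi.single_smul, smul_eq_mul, mul_one]
      rw [h3, map_smul, map_smul, smul_eq_mul, mul_comm]
    have hA0 : ∀ w, dotB σ K (grad g z) (A w) = 0 := by
      intro w
      rw [← Finset.univ_sum_single w, map_sum, map_sum]
      refine Finset.sum_eq_zero (fun j _ => ?_)
      have h3 : (Pi.single j (w j) : τ → K) = w j • Pi.single j 1 := by
        rw [← Pi.single_smul, smul_eq_mul, mul_one]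
      have h4 : dotB σ K (grad g z) (A (Pi.single j 1)) = 0 := congrFun hxi j
      rw [h3, map_smul, map_smul, h4, smul_zero]
    have hz1 : dotB σ K (grad g z) z = 0 := by
      have h1 : line g z z * (line h0 z z * (Polynomial.X + Polynomial.C 1)) = 0 := by
        apply poly_eq_zero
        intro t _
        rw [Polynomial.eval_mul, Polynomial.eval_mul, eval_line, eval_line, Polynomial.eval_add,
          Polynomial.eval_X, Polynomial.eval_C]
        have h0' : z + t • z = (t + 1) • z := by rw [add_smul, one_smul, add_comm]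
        rw [h0']
        by_cases h1 : t + 1 = 0
        · rw [h1, mul_zero, mul_zero]
        by_cases h2 : eval ((t + 1) • z) h0 = 0
        · rw [h2, zero_mul, mul_zero]
        · rw [hg _ (hscale z hzS _ h1 h2), zero_mul]
      have h2 : line h0 z z ≠ 0 := by
        intro h3
        have h4 := eval_line h0 z z 0
        rw [h3, Polynomial.eval_zero, zero_smul, add_zero] at h4
        exact hz0 h4.symm
      have h3 : (Polynomial.X + Polynomial.C 1 : Polynomial K) ≠ 0 := Polynomial.X_add_C_ne_zero 1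
      have h4 := (mul_eq_zero.1 h1).resolve_right (mul_ne_zero h2 h3)
      rw [← line_coeff_one, h4, Polynomial.coeff_zero]
    rw [mem_conormal_iff]
    intro w hw
    obtain ⟨a, b, rfl⟩ := hA.tan' w hw
    rw [map_add, map_smul, hz1, hA0, smul_zero, add_zero]
  have hdense := dense_of_conormal H.sc S ⟨x, hxS⟩ (fun z hz => hz.1)
    (by rintro z ⟨_, _, A, hA, _⟩; exact hA.ne) hcon
  apply hnd lam hlam
  apply hdense
  rintro z ⟨hzI, _, A, hA, f, hf, hgf, hq⟩
  rw [eval_lin, ← hgf]
  exact (mem_tangent I z z).1 (self_tangent H.sc.homog hzI) f hf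

end Pool.Agent.Run7.h399

/-!
# The second fundamental form is injective at a general point, II
-/

namespace Pool.Agent.Run7.h399

open MvPolynomial Pool.Agent.Run7.h399.Hart Pool.Agent.R948

variable {σ τ : Type} [Fintype σ] [DecidableEq σ] [Fintype τ] [DecidableEq τ]
  {K : Type} [Field K]

/-- **The second fundamental form is injective at a general point.** -/
theorem dead_zeroW [IsAlgClosed K] [CharZero K] {I : Ideal (MvPolynomial σ K)} {c r : ℕ}
    {h0 : MvPolynomial σ K} (H : DataW τ I c r h0) (hnd : Nondeg I)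
    {x : σ → K} {A : (τ → K) →ₗ[K] (σ → K)} (h : FreePt I c x A) (hx : eval x h0 ≠ 0)
    (f : MvPolynomial σ K) (hf : f ∈ I) (hq : (lexp x A f).coeff 2 = 0) : grad f x = 0 := by
  classical
  haveI := IsAlgClosed.instInfinite (K := K)
  by_contra hlam
  set lam := grad f x with hlamdef
  let S : Set (σ → K) := {z | z ∈ cone I ∧ eval z h0 ≠ 0 ∧ ∃ A : (τ → K) →ₗ[K] (σ → K),
    FreePt I c z A ∧ ∃ f ∈ I, grad f z = lam ∧ (lexp z A f).coeff 2 = 0}
  have hxS : x ∈ S := ⟨h.mem, hx, A, h, f, hf, rfl, hq⟩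
  have hscale : ∀ z ∈ S, ∀ s : K, s ≠ 0 → eval (s • z) h0 ≠ 0 → s • z ∈ S := by
    rintro z ⟨_, _, A, hA, f, hf, hgf, hq⟩ s hs hsz
    obtain ⟨f', hf', hgf', hq'⟩ := scale_elem H.sc.prime H.sc.homog z A f hf hq s hs
    exact ⟨(hA.scale s hs).mem, hsz, A, hA.scale s hs, f', hf', by rw [hgf', hgf], hq'⟩
  have hcon : ∀ z ∈ S, ∀ g ∈ vi S, grad g z ∈ conormal I z := by
    intro z hz g hg
    obtain ⟨hzI, hz0, A, hA, f, hf, hgf, hq⟩ := hz
    have hzS : z ∈ S := ⟨hzI, hz0, A, hA, f, hf, hgf, hq⟩
    obtain ⟨Y, hY, hYmin, hYdim, hYnd⟩ := H.good z hzI hz0 A hA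
    have hline : ∀ v ∈ cone Y, dotB σ K (grad g z) (A v) = 0 := by
      intro v hv
      have h1 : line g z (A v) * line h0 z (A v) = 0 := by
        apply poly_eq_zero
        intro t _
        rw [Polynomial.eval_mul, eval_line, eval_line]
        by_cases h2 : eval (z + t • A v) h0 = 0
        · rw [h2, mul_zero]
        · obtain ⟨A', hA', f', hf', hgf', hq'⟩ := moveW H hA Y hYmin hYdim f hf hq v hv t h2
          have h3 : z + t • A v ∈ S := ⟨hA'.mem, h2, A', hA', f', hf', by rw [hgf', hgf], hq'⟩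
          rw [hg _ h3, zero_mul]
      have h2 : line h0 z (A v) ≠ 0 := by
        intro h3
        have h4 := eval_line h0 z (A v) 0
        rw [h3, Polynomial.eval_zero, zero_smul, add_zero] at h4
        exact hz0 h4.symm
      have h3 := (mul_eq_zero.1 h1).resolve_right h2
      rw [← line_coeff_one, h3, Polynomial.coeff_zero]
    have hxi : (fun j => dotB σ K (grad g z) (A (Pi.single j 1))) = (0 : τ → K) := by
      apply hYnd
      apply mem_of_vanish Y hY
      intro v hv
      rw [eval_lin, dotB_apply, ← hline v hv]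
      conv_rhs => rw [← Finset.univ_sum_single v, map_sum, map_sum]
      refine Finset.sum_congr rfl (fun j _ => ?_)
      have h3 : (Pi.single j (v j) : τ → K) = v j • Pi.single j 1 := by
        rw [← Pi.single_smul, smul_eq_mul, mul_one]
      rw [h3, map_smul, map_smul, smul_eq_mul, mul_comm]
    have hA0 : ∀ w, dotB σ K (grad g z) (A w) = 0 := by
      intro w
      rw [← Finset.univ_sum_single w, map_sum, map_sum]
      refine Finset.sum_eq_zero (fun j _ => ?_)
      have h3 : (Pi.single j (w j) : τ → K) = w j • Pi.single j 1 := by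
        rw [← Pi.single_smul, smul_eq_mul, mul_one]
      have h4 : dotB σ K (grad g z) (A (Pi.single j 1)) = 0 := congrFun hxi j
      rw [h3, map_smul, map_smul, h4, smul_zero]
    have hz1 : dotB σ K (grad g z) z = 0 := by
      have h1 : line g z z * (line h0 z z * (Polynomial.X + Polynomial.C 1)) = 0 := by
        apply poly_eq_zero
        intro t _
        rw [Polynomial.eval_mul, Polynomial.eval_mul, eval_line, eval_line, Polynomial.eval_add,
          Polynomial.eval_X, Polynomial.eval_C]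
        have h0' : z + t • z = (t + 1) • z := by rw [add_smul, one_smul, add_comm]
        rw [h0']
        by_cases h1 : t + 1 = 0
        · rw [h1, mul_zero, mul_zero]
        by_cases h2 : eval ((t + 1) • z) h0 = 0
        · rw [h2, zero_mul, mul_zero]
        · rw [hg _ (hscale z hzS _ h1 h2), zero_mul]
      have h2 : line h0 z z ≠ 0 := by
        intro h3
        have h4 := eval_line h0 z z 0
        rw [h3, Polynomial.eval_zero, zero_smul, add_zero] at h4
        exact hz0 h4.symm
      have h3 : (Polynomial.X + Polynomial.C 1 : Polynomial K) ≠ 0 := Polynomial.X_add_C_ne_zero 1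
      have h4 := (mul_eq_zero.1 h1).resolve_right (mul_ne_zero h2 h3)
      rw [← line_coeff_one, h4, Polynomial.coeff_zero]
    rw [mem_conormal_iff]
    intro w hw
    obtain ⟨a, b, rfl⟩ := hA.tan' w hw
    rw [map_add, map_smul, hz1, hA0, smul_zero, add_zero]
  have hdense := dense_of_conormal H.sc S ⟨x, hxS⟩ (fun z hz => hz.1)
    (by rintro z ⟨_, _, A, hA, _⟩; exact hA.ne) hcon
  apply hnd lam hlam
  apply hdense
  rintro z ⟨hzI, _, A, hA, f, hf, hgf, hq⟩
  rw [eval_lin, ← hgf]
  exact (mem_tangent I z z).1 (self_tangent H.sc.homog hzI) f hf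

end Pool.Agent.Run7.h399

/-!
# Quadrics singular at points of a smooth nondegenerate variety
-/

namespace Pool.Agent.Run7.h399

open MvPolynomial Pool.Agent.Run7.h399.Hart Pool.Agent.R948

variable {σ τ : Type} [Fintype σ] [DecidableEq σ] [Fintype τ] [DecidableEq τ]
  {K : Type} [Field K]

/-- if all directional derivatives of an ideal in one direction stay in the ideal, then the cone is
invariant under translations in this direction -/
lemma translate [CharZero K] [Infinite K] {Y : Ideal (MvPolynomial τ K)} (v0 : τ → K)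
    (h : ∀ f ∈ Y, dd v0 f ∈ Y) (v : τ → K) (hv : v ∈ cone Y) (s : K) : v + s • v0 ∈ cone Y := by
  have key : ∀ m : ℕ, ∀ f ∈ Y, (line f v v0).natDegree ≤ m → line f v v0 = 0 := by
    intro m
    induction m with
    | zero =>
      intro f hf hm
      rw [Polynomial.eq_C_of_natDegree_le_zero hm, line_coeff_zero, hv f hf, map_zero]
    | succ m ih =>
      intro f hf hm
      have h1 : Polynomial.derivative (line f v v0) = line (dd v0 f) v v0 := by
        apply Polynomial.funext
        intro t
        rw [eval_derivative_line, eval_line, eval_dd]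
      have h2 : (line (dd v0 f) v v0).natDegree ≤ m := by
        rw [← h1]
        exact (Polynomial.natDegree_derivative_le _).trans (by omega)
      have h3 := ih _ (h f hf) h2
      rw [← h1] at h3
      have h4 := Polynomial.natDegree_eq_zero_of_derivative_eq_zero h3
      rw [Polynomial.eq_C_of_natDegree_eq_zero h4, line_coeff_zero, hv f hf, map_zero]
  intro f hf
  rw [← eval_line, key _ f hf le_rfl, Polynomial.eval_zero]

/-- the bilinear form of a quadric -/
noncomputable def pb [Infinite K] {q : MvPolynomial τ K} (hq : q.IsHomogeneous 2) :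
    (τ → K) →ₗ[K] (τ → K) →ₗ[K] K :=
  LinearMap.comp (dotB τ K : (τ → K) →ₗ[K] (τ → K) →ₗ[K] K) (polar hq)

lemma pb_apply [Infinite K] {q : MvPolynomial τ K} (hq : q.IsHomogeneous 2) (a b : τ → K) :
    pb hq a b = dotB τ K (grad q a) b := rfl

lemma d2_quad [Infinite K] {q : MvPolynomial τ K} (hq : q.IsHomogeneous 2) (v u : τ → K) :
    eval v (d2 u q) = 2 * eval u q := by
  have h1 : dd u q = lin (grad q u) := by
    apply MvPolynomial.funext
    intro y
    rw [eval_dd, eval_lin, quad_symm hq]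
  rw [d2, eval_dd, h1, grad_lin, quad_self hq]

/-- **Smooth nondegenerate varieties on quadrics.** If all tangent spaces are isotropic for a
quadric of small corank which is singular at a point of the variety, the variety is degenerate. -/
theorem isotropic_all [IsAlgClosed K] [CharZero K] {J : Ideal (MvPolynomial τ K)} {r : ℕ}
    (hA : ∀ v ∈ cone J, v ≠ 0 → Arcs J v)
    (Y : Ideal (MvPolynomial τ K)) [hY : Y.IsPrime] (hYm : Hm Y) (hYmin : Y ∈ J.minimalPrimes)
    (hYdim : tdP Y + r = Fintype.card τ) (hnd : ∀ ξ : τ → K, lin ξ ∈ Y → ξ = 0) (hr : 0 < r)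
    {q : MvPolynomial τ K} (hq : q.IsHomogeneous 2)
    (hker : haveI := IsAlgClosed.instInfinite (K := K)
      Fintype.card τ + Module.finrank K (LinearMap.ker (polar hq)) < 2 * tdP Y + 2)
    (hiso : ∀ v ∈ cone Y, v ≠ 0 → ∀ a ∈ tangent J v, eval a q = 0)
    (v0 : τ → K) (hv0 : v0 ∈ cone Y) (hv00 : v0 ≠ 0) (hg : grad q v0 = 0) : False := by
  classical
  haveI := IsAlgClosed.instInfinite (K := K)
  have hYJ : ∀ v ∈ cone Y, v ∈ cone J := fun v hv g hg => hv g (hYmin.1.2 hg)
  have hrank : ∀ v ∈ cone Y, v ≠ 0 → Module.finrank K (conormal J v) = r := by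
    intro v hv hv0
    have h1 := tdP_eq_of_arcs (hYJ v hv) (hA v (hYJ v hv) hv0) Y hYmin hv
    omega
  set V := LinearMap.ker (polar hq) with hV
  have hv0V : v0 ∈ V := by
    rw [hV, LinearMap.mem_ker]
    exact hg
  have hbil : ∀ v ∈ cone Y, v ≠ 0 → ∀ a ∈ tangent J v, ∀ b ∈ tangent J v,
      dotB τ K (grad q a) b = 0 := by
    intro v hv hvne a ha b hb
    have h1 := quad_add hq a b
    rw [hiso v hv hvne _ (Submodule.add_mem _ ha hb), hiso v hv hvne a ha,
      hiso v hv hvne b hb, zero_add, add_zero] at h1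
    exact h1.symm
  -- all tangent spaces contain the vertex
  have hVT : ∀ v ∈ cone Y, v ≠ 0 → V ≤ tangent J v := by
    intro v hv hvne
    set T := tangent J v with hT
    have hTd : Module.finrank K T + r = Fintype.card τ := by
      have h1 := finrank_tangent J v
      rw [hrank v hv hvne, ← hT] at h1
      omega
    have hiso2 : ∀ a ∈ T ⊔ V, ∀ b ∈ T ⊔ V, dotB τ K (grad q a) b = 0 := by
      intro a ha b hb
      obtain ⟨a1, ha1, a2, ha2, rfl⟩ := Submodule.mem_sup.1 ha
      obtain ⟨b1, hb1, b2, hb2, rfl⟩ := Submodule.mem_sup.1 hb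
      have h1 : grad q (a1 + a2) = grad q a1 := by
        rw [← polar_apply hq, map_add, polar_apply, polar_apply]
        have h2 : grad q a2 = 0 := LinearMap.mem_ker.1 ha2
        rw [h2, add_zero]
      have h3 : grad q b2 = 0 := LinearMap.mem_ker.1 hb2
      rw [h1, map_add, hbil v hv hvne a1 ha1 b1 hb1, quad_symm hq a1 b2, h3, map_zero,
        LinearMap.zero_apply, add_zero]
    set S := T ⊔ V with hS
    let BS : S →ₗ[K] (τ → K) := (polar hq).domRestrict S
    have hrange : LinearMap.range BS ≤ (dotB τ K).orthogonal S := by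
      rintro _ ⟨a, rfl⟩
      rw [LinearMap.BilinForm.mem_orthogonal_iff]
      intro b hb
      show dotB τ K b (grad q (a : τ → K)) = 0
      rw [dotB_comm]
      exact hiso2 _ a.2 b hb
    have h1 := LinearMap.finrank_range_add_finrank_ker BS
    have h2 := Submodule.finrank_mono hrange
    have h3 : Module.finrank K (LinearMap.ker BS) ≤ Module.finrank K V := by
      let φ : LinearMap.ker BS →ₗ[K] V :=
        LinearMap.codRestrict _ (S.subtype.comp (LinearMap.ker BS).subtype) (by
          intro a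
          have := a.2
          rw [LinearMap.mem_ker] at this
          rw [hV, LinearMap.mem_ker]
          exact this)
      apply LinearMap.finrank_le_finrank_of_injective (f := φ)
      intro a b hab
      have h4 := congrArg (fun z : V => (z : τ → K)) hab
      exact Subtype.ext (Subtype.ext h4)
    have h4 := LinearMap.BilinForm.finrank_orthogonal dotB_nondegenerate S
    rw [Module.finrank_fintype_fun_eq_card] at h4
    have h5 := Submodule.finrank_le S
    rw [Module.finrank_fintype_fun_eq_card] at h5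
    have h6 : T ≤ S := le_sup_left
    have h7 : T = S := by
      have h8 : Module.finrank K S ≤ Module.finrank K T := by omega
      exact Submodule.eq_of_le_of_finrank_le h6 h8
    rw [h7]
    exact le_sup_right
  have htan : ∀ v ∈ cone Y, v ≠ 0 → ∀ a ∈ tangent J v, a ∈ tangent Y v := by
    intro v hv hvne a ha
    have h1 : conormal J v ≤ conormal Y v := by
      apply Submodule.span_mono
      rintro ξ ⟨G, hG, rfl⟩
      exact ⟨G, hYmin.1.2 hG, rfl⟩
    have h2 := tdP_le_of_tangent Y v hv
    have h3 := hrank v hv hvne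
    have h4 : conormal J v = conormal Y v := by
      apply Submodule.eq_of_le_of_finrank_le h1
      rw [h3]
      omega
    rw [mem_tangent'] at ha ⊢
    rw [← h4]
    exact ha
  have hder : ∀ f ∈ Y, dd v0 f ∈ Y := by
    intro f hf
    apply mem_of_vanish_ne Y hY ⟨v0, hv0, hv00⟩
    intro v hv hvne
    rw [eval_dd]
    exact (mem_tangent Y v v0).1 (htan v hv hvne v0 (hVT v hv hvne hv0V)) f hf
  have hall : ∀ w ∈ cone Y, w ∈ tangent J v0 := by
    intro w hw
    refine (cone_of_line J v0 w (fun t ht => ?_)).2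
    have h1 : v0 + t • w = t • (w + t⁻¹ • v0) := by
      rw [smul_add, smul_smul, mul_inv_cancel₀ ht, one_smul, add_comm]
    rw [h1]
    exact hYJ _ (cone_smul' hYm (translate v0 hder w hw _) t)
  have h1 : ∃ ξ ∈ conormal J v0, ξ ≠ 0 := by
    by_contra hcon
    push Not at hcon
    have h2 : conormal J v0 = ⊥ := by
      rw [eq_bot_iff]
      intro ξ hξ
      rw [Submodule.mem_bot]
      exact hcon ξ hξ
    have h3 := hrank v0 hv0 hv00
    rw [h2, finrank_bot] at h3
    omega
  obtain ⟨ξ, hξ, hξ0⟩ := h1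
  apply hξ0
  apply hnd
  apply mem_of_vanish Y hY
  intro w hw
  rw [eval_lin]
  exact tangent_conormal J v0 hξ (hall w hw)

/-- **The second fundamental form vanishes** at a point at which two quadrics are singular. -/
theorem second_zero [IsAlgClosed K] [CharZero K] {J : Ideal (MvPolynomial τ K)} {r : ℕ}
    (hA : ∀ v ∈ cone J, v ≠ 0 → Arcs J v) (hJ : Hm J)
    (Y : Ideal (MvPolynomial τ K)) [hY : Y.IsPrime] (hYm : Hm Y) (hYmin : Y ∈ J.minimalPrimes)
    (hYdim : tdP Y + r = Fintype.card τ) (hnd : ∀ ξ : τ → K, lin ξ ∈ Y → ξ = 0)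
    (h3r : 3 * r + 2 ≤ Fintype.card τ)
    (q q' : MvPolynomial τ K) (hq : q.IsHomogeneous 2) (hq' : q'.IsHomogeneous 2) (hqJ : q ∈ J)
    (hq'J : q' ∈ J)
    (hker : haveI := IsAlgClosed.instInfinite (K := K)
      ∀ s t : K, (s ≠ 0 ∨ t ≠ 0) → Fintype.card τ +
        Module.finrank K (LinearMap.ker (s • polar hq + t • polar hq')) < 2 * tdP Y + 2)
    (v : τ → K) (hv : v ∈ cone Y) (hv0 : v ≠ 0) (hg : grad q v = 0) (hg' : grad q' v = 0)
    (u : τ → K) (hu : u ∈ tangent J v) : ∀ f ∈ J, eval v (d2 u f) = 0 := by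
  classical
  haveI := IsAlgClosed.instInfinite (K := K)
  have hYJ : ∀ v ∈ cone Y, v ∈ cone J := fun v hv g hg => hv g (hYmin.1.2 hg)
  have hrank : ∀ v ∈ cone Y, v ≠ 0 → Module.finrank K (conormal J v) = r := by
    intro v hv hv0
    have h1 := tdP_eq_of_arcs (hYJ v hv) (hA v (hYJ v hv) hv0) Y hYmin hv
    omega
  have hTd : ∀ v ∈ cone Y, v ≠ 0 → Module.finrank K (tangent J v) = tdP Y := by
    intro v hv hv0
    have h1 := finrank_tangent J v
    rw [hrank v hv hv0] at h1
    omega
  obtain ⟨R1, hR1, hR1m, hYR1, hvR1, hd1, hs1⟩ := cut_sing (J := J) hYm hrank q hq hqJ v hv hv0 hg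
  have hR1Y : ∀ v ∈ cone R1, v ∈ cone Y := fun v hv g hg => hv g (hYR1 hg)
  obtain ⟨R2, hR2, hR2m, hR12, hvR2, hd2, hs2⟩ := cut_sing (J := J) hR1m
    (fun v hv hv0 => hrank v (hR1Y v hv) hv0) q' hq' hq'J v hvR1 hv0 hg'
  have hR21 : ∀ v ∈ cone R2, v ∈ cone R1 := fun v hv g hg => hv g (hR12 hg)
  refine const_tangent (J := J) (R := R2) hR2m hJ
    (fun y hy hy0 => hrank y (hR1Y y (hR21 y hy)) hy0) (tangent J v) ?_
    (fun y hy hy0 => hA y (hYJ y (hR1Y y (hR21 y hy))) hy0) (by omega) ?_ v hvR2 hv0 u hu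
  · intro y hy hy0
    have hyY := hR1Y y (hR21 y hy)
    have hiso : ∀ (z : τ → K), z ∈ cone Y → z ≠ 0 → grad q z = 0 → grad q' z = 0 →
        ∀ a ∈ tangent J z, ∀ b ∈ tangent J z,
          pb hq a b = 0 ∧ pb hq' a b = 0 := by
      intro z hz hz0 hgz hgz' a ha b hb
      constructor
      · show dotB τ K (grad q a) b = 0
        have h1 := quad_add hq a b
        rw [isotropic_tangent (hA z (hYJ z hz) hz0) hq hqJ (hYJ z hz q hqJ) hgz _
            (Submodule.add_mem _ ha hb),
          isotropic_tangent (hA z (hYJ z hz) hz0) hq hqJ (hYJ z hz q hqJ) hgz a ha,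
          isotropic_tangent (hA z (hYJ z hz) hz0) hq hqJ (hYJ z hz q hqJ) hgz b hb,
          zero_add, add_zero] at h1
        exact h1.symm
      · show dotB τ K (grad q' a) b = 0
        have h1 := quad_add hq' a b
        rw [isotropic_tangent (hA z (hYJ z hz) hz0) hq' hq'J (hYJ z hz q' hq'J) hgz' _
            (Submodule.add_mem _ ha hb),
          isotropic_tangent (hA z (hYJ z hz) hz0) hq' hq'J (hYJ z hz q' hq'J) hgz' a ha,
          isotropic_tangent (hA z (hYJ z hz) hz0) hq' hq'J (hYJ z hz q' hq'J) hgz' b hb,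
          zero_add, add_zero] at h1
        exact h1.symm
    apply pencil_eq (pb hq) (pb hq')
    · intro a b
      exact quad_symm hq a b
    · intro a b
      exact quad_symm hq' a b
    · rw [hTd y hyY hy0, hTd v hv hv0]
    · exact hiso y hyY hy0 (hs1 y (hR21 y hy)) (hs2 y hy)
    · exact hiso v hv hv0 hg hg'
    · intro s t hst
      rw [Module.finrank_fintype_fun_eq_card, hTd y hyY hy0]
      have h1 := hker s t hst
      have h2 : LinearMap.ker (s • pb hq + t • pb hq') ≤
          LinearMap.ker (s • polar hq + t • polar hq') := by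
        intro a ha
        rw [LinearMap.mem_ker] at ha ⊢
        apply dotB_ext
        intro b
        have h3 := congrArg (fun φ : (τ → K) →ₗ[K] K => φ b) ha
        have h4 : (s • pb hq + t • pb hq') a b =
            dotB τ K ((s • polar hq + t • polar hq') a) b := by
          rw [LinearMap.add_apply, LinearMap.add_apply, LinearMap.smul_apply,
            LinearMap.smul_apply, LinearMap.smul_apply, LinearMap.smul_apply, pb_apply, pb_apply,
            LinearMap.add_apply, map_add, LinearMap.add_apply, LinearMap.smul_apply,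
            LinearMap.smul_apply, map_smul, map_smul, LinearMap.smul_apply, LinearMap.smul_apply,
            polar_apply, polar_apply]
        rw [← h4, h3, map_zero]
      have h3 := Submodule.finrank_mono h2
      omega
  · intro f hf d hfd hd
    have hfY := hYmin.1.2 hf
    rcases Nat.lt_or_ge d 1 with h0 | h0
    · have h1 : d = 0 := by omega
      rw [h1] at hfd
      have h2 : f = C (coeff 0 f) := by
        rw [← homogeneousComponent_zero, homogeneousComponent_eq_self hfd]
      by_contra hf0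
      have h3 : coeff 0 f ≠ 0 := by
        intro h4
        rw [h4, C_0] at h2
        exact hf0 h2
      apply hY.ne_top
      rw [Ideal.eq_top_iff_one]
      have h4 := Y.mul_mem_left (C (coeff 0 f)⁻¹) hfY
      rwa [h2, ← map_mul, coeff_C, if_pos rfl, inv_mul_cancel₀ h3, map_one] at h4
    · have h1 : d = 1 := by omega
      rw [h1] at hfd
      have h2 : f = lin (fun i => eval (Pi.single i 1) f) := by
        apply MvPolynomial.funext
        intro y
        have h3 : ∀ a b : τ → K, eval (a + b) f = eval a f + eval b f := by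
          intro a b
          have h4 := eval_line f a b 1
          rw [one_smul] at h4
          rw [← h4, Polynomial.eval_eq_sum_range' (n := 2) (by
            have := line_natDegree hfd a b
            omega), Finset.sum_range_succ, Finset.sum_range_one, line_coeff_zero, line_top hfd]
          simp
        have h4 : ∀ (c : K) (a : τ → K), eval (c • a) f = c * eval a f := by
          intro c a
          rw [eval_hscale hfd, pow_one]
        let L : (τ → K) →ₗ[K] K :=
          { toFun := fun a => eval a f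
            map_add' := h3
            map_smul' := by
              intro c a
              rw [h4, RingHom.id_apply, smul_eq_mul] }
        have h5 : L y = ∑ i, y i * L (Pi.single i 1) := by
          conv_lhs => rw [← Finset.univ_sum_single y]
          rw [map_sum]
          refine Finset.sum_congr rfl (fun i _ => ?_)
          have h6 : (Pi.single i (y i) : τ → K) = y i • Pi.single i 1 := by
            rw [← Pi.single_smul, smul_eq_mul, mul_one]
          rw [h6, map_smul, smul_eq_mul]
        rw [eval_lin, dotB_apply]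
        show L y = _
        rw [h5]
        exact Finset.sum_congr rfl (fun i _ => mul_comm _ _)
      rw [h2] at hfY
      have h3 := hnd _ hfY
      rw [h2, h3, lin_zero]

end Pool.Agent.Run7.h399

/-!
# The codimension of a variety with nondegenerate variety of lines
-/

namespace Pool.Agent.Run7.h399

open MvPolynomial Pool.Agent.Run7.h399.Hart Pool.Agent.R948

variable {σ τ : Type} [Fintype σ] [DecidableEq σ] [Fintype τ] [DecidableEq τ]
  {K : Type} [Field K]

/-- **The codimension is at most the codimension of the variety of lines.** -/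
theorem codim_le3 [IsAlgClosed K] [CharZero K] {I : Ideal (MvPolynomial σ K)} {c r : ℕ}
    {h0 : MvPolynomial σ K} (H : Data τ I c r h0) (hnd : Nondeg I)
    {x : σ → K} {A : (τ → K) →ₗ[K] (σ → K)} (h : FreePt I c x A) (hx : eval x h0 ≠ 0) :
    c ≤ r := by
  classical
  haveI := IsAlgClosed.instInfinite (K := K)
  obtain ⟨Y, hY, hYmin, hYdim, hYnd⟩ := H.good x h.mem hx A h
  obtain ⟨F, hF, hind, -⟩ := exists_grads h.sc x h.mem h.ne
  have hpos := H.pos
  obtain ⟨v, hv, hv0⟩ := exists_ne_cone Y (by omega)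
  by_contra hcon
  push Not at hcon
  have hdep : ¬ LinearIndependent K (fun i => grad ((lexp x A (F i)).coeff 2) v) := by
    intro h1
    let γ : Fin c → conormal (linesI I x A) v := fun i =>
      ⟨grad ((lexp x A (F i)).coeff 2) v, grad_quad_mem x A (F i) (hF i) 2 v⟩
    have h3 : LinearIndependent K γ :=
      LinearIndependent.of_comp (conormal (linesI I x A) v).subtype h1
    have h4 := h3.fintype_card_le_finrank
    rw [Fintype.card_fin, rank_lines h Y hYmin hYdim v hv hv0] at h4
    omega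
  rw [Fintype.linearIndependent_iff] at hdep hind
  push Not at hdep
  obtain ⟨a, ha, i, hi⟩ := hdep
  have h1 : grad ((lexp x A (∑ i, C (a i) * F i)).coeff 2) v = 0 := by
    rw [grad_quad_sum]
    exact ha
  have hfI : (∑ i, C (a i) * F i) ∈ I := Ideal.sum_mem _ (fun i _ => I.mul_mem_left _ (hF i))
  have h2 := quad_zero (fun w hw hw0 => arcs_lines h w hw hw0) (linesI_homog I x A) Y hYmin
    hYdim hYnd H.small (Ideal.subset_span ⟨_, hfI, 2, rfl⟩) (lexp_coeff_homog x A _ 2) v hv hv0 h1
  have h3 := dead_zero H hnd h hx _ hfI h2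
  apply hi
  apply hind a
  rw [← h3, grad_sum]
  exact Finset.sum_congr rfl (fun i _ => by rw [grad_C_mul])

end Pool.Agent.Run7.h399

namespace Pool.Agent.Run7.h399

open MvPolynomial Pool.Agent.Run7.h399.Hart Pool.Agent.R948 LX

lemma isFrame_of {n c : ℕ} {I : Ideal (Pol (n + c + 1))} {x : Fin (n + c + 1) → ℂ}
    {A : (Fin n → ℂ) →ₗ[ℂ] (Fin (n + c + 1) → ℂ)} (hI : SCone I c) (h : FreePt I c x A) :
    LX.IsFrame I x A where
  injective := h.inj
  notMem := by
    rintro ⟨u, hu⟩
    exact one_ne_zero (h.notMem 1 u (by rw [one_smul, hu]))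
  span := by
    rw [tangentSpace_eq]
    apply le_antisymm
    · intro w hw
      obtain ⟨a, b, rfl⟩ := h.tan' w hw
      exact Submodule.mem_sup.2 ⟨a • x, Submodule.smul_mem _ _ (Submodule.mem_span_singleton_self x),
        A b, ⟨b, rfl⟩, rfl⟩
    · rw [sup_le_iff, Submodule.span_singleton_le_iff_mem]
      refine ⟨self_tangent hI.homog h.mem, ?_⟩
      rintro _ ⟨b, rfl⟩
      exact h.tan b

/-- the standing data at general points -/
theorem exists_data {n c r : ℕ} {I : Ideal (Pol (n + c + 1))} (hX : IsManifold n c I)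
    (hr : r < n) (h4 : 4 * r ≤ n + 1) (h1 : 0 < n)
    (hL : ∃ g, g ∉ I ∧ ∀ x ∈ zeros I, eval x g ≠ 0 →
      ∀ A : (Fin n → ℂ) →ₗ[ℂ] (Fin (n + c + 1) → ℂ), LX.IsFrame I x A →
        ∃ Y ∈ (linesIdeal I x A).minimalPrimes,
          ringKrullDim (Pol n ⧸ Y) = ((n - r : ℕ) : WithBot ℕ∞) ∧
            ∀ f ∈ Y, f.IsHomogeneous 1 → f = 0) :
    ∃ h0, h0 ∉ I ∧ Data (Fin n) I c r h0 ∧
      ∀ x ∈ zeros I, eval x h0 ≠ 0 → ∀ A : (Fin n → ℂ) →ₗ[ℂ] (Fin (n + c + 1) → ℂ),
        LX.IsFrame I x A → FreePt I c x A := by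
  have hsc := sc_of hX
  obtain ⟨g, hg, hLg⟩ := hL
  obtain ⟨δ, θ, hδI, hθ, hδ⟩ := exists_fields hsc (exists_ne_of hX)
  obtain ⟨h, hh, hfree⟩ := exists_free hsc (exists_ne_of hX)
  obtain ⟨k, hk, hgen⟩ := exists_general hX
  have hp := hX.prime
  refine ⟨g * δ * h * k, ?_, ?_, ?_⟩
  · intro hmem
    rcases hp.mem_or_mem hmem with h2 | h2
    · rcases hp.mem_or_mem h2 with h3 | h3
      · rcases hp.mem_or_mem h3 with h4 | h4
        · exact hg h4
        · exact hδI h4
      · exact hh h3
    · exact hk h2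
  · refine ⟨hsc, ?_, ?_, ⟨δ, θ, hθ, hδ, ?_⟩, ?_, ?_, ?_⟩
    · rw [Fintype.card_fin, Fintype.card_fin]
    · intro x hx hx0 v hv
      rw [map_mul, map_mul, map_mul] at hx0
      exact hfree x hx (right_ne_zero_of_mul (left_ne_zero_of_mul hx0)) v hv
    · intro x hx hx0
      rw [map_mul, map_mul, map_mul] at hx0
      exact right_ne_zero_of_mul (left_ne_zero_of_mul (left_ne_zero_of_mul hx0))
    · intro x hx hx0 A hA
      rw [map_mul, map_mul, map_mul] at hx0
      obtain ⟨Y, hYmin, hYd, hYnd⟩ := hLg x hx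
        (left_ne_zero_of_mul (left_ne_zero_of_mul (left_ne_zero_of_mul hx0))) A (isFrame_of hsc hA)
      have hYp : Y.IsPrime := hYmin.1.1
      refine ⟨Y, hYp, hYmin, ?_, ?_⟩
      · rw [dim_prime] at hYd
        have h2 : tdP Y = n - r := by exact_mod_cast hYd
        rw [Fintype.card_fin]
        omega
      · intro ξ hξ
        have h2 := hYnd _ hξ (lin_homog ξ)
        have h3 := grad_lin ξ (0 : Fin n → ℂ)
        rw [h2, grad_zero] at h3
        exact h3.symm
    · rw [Fintype.card_fin]
      exact h4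
    · rw [Fintype.card_fin]
      omega
  · intro x hx hx0 A hA
    rw [map_mul, map_mul, map_mul] at hx0
    exact hgen x hx (right_ne_zero_of_mul hx0) A hA

end Pool.Agent.Run7.h399

/-!
# The codimension of a variety with nondegenerate variety of lines, II
-/

namespace Pool.Agent.Run7.h399

open MvPolynomial Pool.Agent.Run7.h399.Hart Pool.Agent.R948

variable {σ τ : Type} [Fintype σ] [DecidableEq σ] [Fintype τ] [DecidableEq τ]
  {K : Type} [Field K]

/-- the quadric of the second fundamental form in a conormal direction -/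
noncomputable def qf {c : ℕ} (x : σ → K) (A : (τ → K) →ₗ[K] (σ → K))
    (F : Fin c → MvPolynomial σ K) (a : Fin c → K) : MvPolynomial τ K :=
  (lexp x A (∑ i, C (a i) * F i)).coeff 2

lemma qf_homog {c : ℕ} (x : σ → K) (A : (τ → K) →ₗ[K] (σ → K))
    (F : Fin c → MvPolynomial σ K) (a : Fin c → K) : (qf x A F a).IsHomogeneous 2 :=
  lexp_coeff_homog x A _ 2

lemma grad_qf {c : ℕ} (x : σ → K) (A : (τ → K) →ₗ[K] (σ → K))
    (F : Fin c → MvPolynomial σ K) (a : Fin c → K) (v : τ → K) :
    grad (qf x A F a) v = ∑ i, a i • grad ((lexp x A (F i)).coeff 2) v :=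
  grad_quad_sum x A 2 F a v

lemma qf_mem {I : Ideal (MvPolynomial σ K)} {c : ℕ} (x : σ → K) (A : (τ → K) →ₗ[K] (σ → K))
    (F : Fin c → MvPolynomial σ K) (hF : ∀ i, F i ∈ I) (a : Fin c → K) :
    qf x A F a ∈ linesI I x A :=
  Ideal.subset_span ⟨_, Ideal.sum_mem _ (fun i _ => I.mul_mem_left _ (hF i)), 2, rfl⟩

/-- **The codimension is at most the codimension of the variety of lines.** -/
theorem codim_le6 [IsAlgClosed K] [CharZero K] {I : Ideal (MvPolynomial σ K)} {c r : ℕ}
    {h0 : MvPolynomial σ K} (H : DataW τ I c r h0) (hnd : Nondeg I)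
    {x : σ → K} {A : (τ → K) →ₗ[K] (σ → K)} (h : FreePt I c x A) (hx : eval x h0 ≠ 0)
    (h4 : 4 * r ≤ Fintype.card τ + 3) (h3 : 3 * r + 2 ≤ Fintype.card τ) : c ≤ r := by
  classical
  haveI := IsAlgClosed.instInfinite (K := K)
  obtain ⟨Y, hY, hYmin, hYdim, hYnd⟩ := H.good x h.mem hx A h
  obtain ⟨F, hF, hind, -⟩ := exists_grads h.sc x h.mem h.ne
  have hpos := H.pos
  rcases Nat.lt_or_ge (Fintype.card τ) (c + 2 * r) with hc | hc
  swap
  · exact codim_le h hnd Y hYmin hYdim hc (by omega) F hF hind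
  by_contra hcon
  push Not at hcon
  set J := linesI I x A with hJ
  have hJh : Hm J := linesI_homog I x A
  have hYm : Hm Y := hJh.minimal hYmin
  have hA : ∀ v ∈ cone J, v ≠ 0 → Arcs J v := fun w hw hw0 => arcs_lines h w hw hw0
  have hYJ : ∀ v ∈ cone Y, v ∈ cone J := fun v hv g hg => hv g (hYmin.1.2 hg)
  -- injectivity of the second fundamental form and the corank bound
  have hV : ∀ a : Fin c → K, a ≠ 0 →
      Module.finrank K (LinearMap.ker (polar (qf_homog x A F a))) + 2 ≤ 2 * r := by
    intro a ha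
    by_contra hcon2
    apply ha
    have h1 : qf x A F a = 0 := quad_rank hA hJh Y hYmin hYdim hYnd (qf_mem x A F hF a)
      (qf_homog x A F a) (by omega)
    have h2 := dead_zeroW H hnd h hx _
      (Ideal.sum_mem _ (fun i _ => I.mul_mem_left _ (hF i)) : (∑ i, C (a i) * F i) ∈ I) h1
    rw [Fintype.linearIndependent_iff] at hind
    funext i
    refine hind a ?_ i
    rw [← h2, grad_sum]
    exact Finset.sum_congr rfl (fun i _ => by rw [grad_C_mul])
  have hr0 : 0 < r := by
    have hc0 : 0 < c := by omega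
    have h1 := hV (Pi.single ⟨0, hc0⟩ 1) (by
      intro h1
      have h2 := congrFun h1 ⟨0, hc0⟩
      rw [Pi.single_eq_same] at h2
      exact one_ne_zero h2)
    omega
  -- the quadrics singular at a point
  have hK : ∀ v ∈ cone Y, v ≠ 0 → ∃ a b : Fin c → K,
      (∀ s t : K, (s ≠ 0 ∨ t ≠ 0) → s • a + t • b ≠ 0) ∧
      grad (qf x A F a) v = 0 ∧ grad (qf x A F b) v = 0 := by
    intro v hv hv0
    let L : (Fin c → K) →ₗ[K] (τ → K) :=
      { toFun := fun a => grad (qf x A F a) v
        map_add' := by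
          intro a b
          rw [grad_qf, grad_qf, grad_qf, ← Finset.sum_add_distrib]
          exact Finset.sum_congr rfl (fun i _ => by rw [Pi.add_apply, add_smul])
        map_smul' := by
          intro s a
          rw [grad_qf, grad_qf, RingHom.id_apply, Finset.smul_sum]
          exact Finset.sum_congr rfl (fun i _ => by rw [Pi.smul_apply, smul_assoc]) }
    have h1 := LinearMap.finrank_range_add_finrank_ker L
    rw [Module.finrank_fintype_fun_eq_card, Fintype.card_fin] at h1
    have h2 : LinearMap.range L ≤ conormal J v := by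
      rintro _ ⟨a, rfl⟩
      exact grad_mem J v (qf_mem x A F hF a)
    have h5 := Submodule.finrank_mono h2
    rw [rank_lines h Y hYmin hYdim v hv hv0] at h5
    have h6 : 2 ≤ Module.finrank K (LinearMap.ker L) := by omega
    let e := Module.finBasis K (LinearMap.ker L)
    refine ⟨(e ⟨0, by omega⟩ : LinearMap.ker L), (e ⟨1, by omega⟩ : LinearMap.ker L), ?_, ?_, ?_⟩
    · intro s t hst h7
      have h8 : s • e ⟨0, by omega⟩ + t • e ⟨1, by omega⟩ = 0 := Subtype.ext h7
      have h9 := congrArg e.repr h8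
      rw [map_add, map_smul, map_smul, Module.Basis.repr_self, Module.Basis.repr_self,
        map_zero] at h9
      have h10 := DFunLike.congr_fun h9 ⟨0, by omega⟩
      have h11 := DFunLike.congr_fun h9 ⟨1, by omega⟩
      simp at h10 h11
      rcases hst with h12 | h12
      · exact h12 h10
      · exact h12 h11
    · exact LinearMap.mem_ker.1 (e ⟨0, by omega⟩).2
    · exact LinearMap.mem_ker.1 (e ⟨1, by omega⟩).2
  -- all tangent spaces are isotropic
  have hiso : ∀ q ∈ J, ∀ hq : q.IsHomogeneous 2, ∀ v ∈ cone Y, v ≠ 0 →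
      ∀ u ∈ tangent J v, eval u q = 0 := by
    intro q hqJ hq v hv hv0 u hu
    obtain ⟨a, b, hab, hga, hgb⟩ := hK v hv hv0
    have h1 := second_zero hA hJh Y hYm hYmin hYdim hYnd h3 (qf x A F a) (qf x A F b)
      (qf_homog x A F a) (qf_homog x A F b) (qf_mem x A F hF a) (qf_mem x A F hF b) (by
        intro s t hst
        have h1 : s • polar (qf_homog x A F a) + t • polar (qf_homog x A F b) =
            polar (qf_homog x A F (s • a + t • b)) := by
          apply LinearMap.ext
          intro w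
          rw [LinearMap.add_apply, LinearMap.smul_apply, LinearMap.smul_apply, polar_apply,
            polar_apply, polar_apply, grad_qf, grad_qf, grad_qf, Finset.smul_sum,
            Finset.smul_sum, ← Finset.sum_add_distrib]
          refine Finset.sum_congr rfl (fun i _ => ?_)
          rw [Pi.add_apply, Pi.smul_apply, Pi.smul_apply, add_smul, smul_assoc, smul_assoc]
        rw [h1]
        have h2 := hV _ (hab s t hst)
        omega) v hv hv0 hga hgb u hu q hqJ
    rw [d2_quad hq] at h1
    exact (mul_eq_zero.1 h1).resolve_left two_ne_zero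
  obtain ⟨v0, hv0, hv00⟩ := exists_ne_cone Y (by omega)
  obtain ⟨a, b, hab, hga, hgb⟩ := hK v0 hv0 hv00
  have ha : a ≠ 0 := by
    have := hab 1 0 (Or.inl one_ne_zero)
    rwa [one_smul, zero_smul, add_zero] at this
  exact isotropic_all hA Y hYm hYmin hYdim hYnd hr0 (qf_homog x A F a) (by
      have := hV a ha
      omega) (hiso _ (qf_mem x A F hF a) (qf_homog x A F a)) v0 hv0 hv00 hga

end Pool.Agent.Run7.h399

/-!
# Manifolds with nondegenerate varieties of lines: standing data
-/

namespace Pool.Agent.Run7.h399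

open MvPolynomial Pool.Agent.Run7.h399.Hart Pool.Agent.R948 LX

/-- the standing data at general points -/
theorem exists_dataW {n c r : ℕ} {I : Ideal (Pol (n + c + 1))} (hX : IsManifold n c I)
    (hr : r < n) (h4 : 3 * r ≤ n + 1) (h1 : 2 * r < n)
    (hL : LinesNondegenerate n c r I) :
    ∃ h0, h0 ∉ I ∧ DataW (Fin n) I c r h0 ∧
      ∀ x ∈ zeros I, eval x h0 ≠ 0 → ∀ A : (Fin n → ℂ) →ₗ[ℂ] (Fin (n + c + 1) → ℂ),
        LX.IsFrame I x A → FreePt I c x A := by
  have hsc := sc_of hX
  obtain ⟨g, hg, hLg⟩ := hL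
  obtain ⟨δ, θ, hδI, hθ, hδ⟩ := exists_fields hsc (exists_ne_of hX)
  obtain ⟨h, hh, hfree⟩ := exists_free hsc (exists_ne_of hX)
  obtain ⟨k, hk, hgen⟩ := exists_general hX
  have hp := hX.prime
  refine ⟨g * δ * h * k, ?_, ?_, ?_⟩
  · intro hmem
    rcases hp.mem_or_mem hmem with h2 | h2
    · rcases hp.mem_or_mem h2 with h3 | h3
      · rcases hp.mem_or_mem h3 with h4 | h4
        · exact hg h4
        · exact hδI h4
      · exact hh h3
    · exact hk h2
  · refine ⟨hsc, ?_, ?_, ⟨δ, θ, hθ, hδ, ?_⟩, ?_, ?_, ?_⟩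
    · rw [Fintype.card_fin, Fintype.card_fin]
    · intro x hx hx0 v hv
      rw [map_mul, map_mul, map_mul] at hx0
      exact hfree x hx (right_ne_zero_of_mul (left_ne_zero_of_mul hx0)) v hv
    · intro x hx hx0
      rw [map_mul, map_mul, map_mul] at hx0
      exact right_ne_zero_of_mul (left_ne_zero_of_mul (left_ne_zero_of_mul hx0))
    · intro x hx hx0 A hA
      rw [map_mul, map_mul, map_mul] at hx0
      obtain ⟨Y, hYmin, hYd, hYnd⟩ := hLg x hx
        (left_ne_zero_of_mul (left_ne_zero_of_mul (left_ne_zero_of_mul hx0))) A (isFrame_of hsc hA)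
      have hYp : Y.IsPrime := hYmin.1.1
      refine ⟨Y, hYp, hYmin, ?_, ?_⟩
      · rw [dim_prime] at hYd
        have h2 : tdP Y = n - r := by exact_mod_cast hYd
        rw [Fintype.card_fin]
        omega
      · intro ξ hξ
        have h2 := hYnd _ hξ (lin_homog ξ)
        have h3 := grad_lin ξ (0 : Fin n → ℂ)
        rw [h2, grad_zero] at h3
        exact h3.symm
    · rw [Fintype.card_fin]
      exact h4
    · rw [Fintype.card_fin]
      omega
  · intro x hx hx0 A hA
    rw [map_mul, map_mul, map_mul] at hx0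
    exact hgen x hx (right_ne_zero_of_mul hx0) A hA

/-- **The codimension is at most the codimension of the variety of lines**, with data at general
points. -/
theorem exists_setup {n c r : ℕ} {I : Ideal (Pol (n + c + 1))} (hX : IsManifold n c I)
    (hr : r < n) (hcase : 4 * r ≤ n + 1 ∨ (4 * r ≤ n + 3 ∧ 3 * r + 2 ≤ n))
    (hL : LinesNondegenerate n c r I) :
    c ≤ r ∧ ∃ h0, h0 ∉ I ∧ ∀ x ∈ zeros I, eval x h0 ≠ 0 →
      ∀ A : (Fin n → ℂ) →ₗ[ℂ] (Fin (n + c + 1) → ℂ), LX.IsFrame I x A →
        FreePt I c x A ∧ ∃ (Y : Ideal (Pol n)) (_ : Y.IsPrime),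
          Y ∈ (linesI I x A).minimalPrimes ∧ tdP Y + r = n := by
  have hnd := nondeg_of hX
  have hXp := hX.prime
  have hex : ∀ h0, h0 ∉ I → ∃ x ∈ cone I, x ≠ 0 ∧ eval x h0 ≠ 0 := by
    intro h0 hh0
    by_contra hcon
    push Not at hcon
    exact hh0 (mem_of_vanish_ne I hXp (exists_ne_of hX) h0 hcon)
  have hgoal : ∀ h0, h0 ∉ I → c ≤ r →
      (∀ x ∈ zeros I, eval x h0 ≠ 0 → ∀ A : (Fin n → ℂ) →ₗ[ℂ] (Fin (n + c + 1) → ℂ),
        LX.IsFrame I x A → FreePt I c x A) →
      (∀ x ∈ cone I, eval x h0 ≠ 0 → ∀ A : (Fin n → ℂ) →ₗ[ℂ] (Fin (n + c + 1) → ℂ),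
        FreePt I c x A → GoodAt I r x A) →
      c ≤ r ∧ ∃ h0, h0 ∉ I ∧ ∀ x ∈ zeros I, eval x h0 ≠ 0 →
        ∀ A : (Fin n → ℂ) →ₗ[ℂ] (Fin (n + c + 1) → ℂ), LX.IsFrame I x A →
          FreePt I c x A ∧ ∃ (Y : Ideal (Pol n)) (_ : Y.IsPrime),
            Y ∈ (linesI I x A).minimalPrimes ∧ tdP Y + r = n := by
    intro h0 hh0 hcr hgen hgood
    refine ⟨hcr, h0, hh0, fun x hx hx0 A hA => ?_⟩
    have hfp := hgen x hx hx0 A hA
    obtain ⟨Y, hYp, hYmin, hcard, -⟩ := hgood x hx hx0 A hfp
    rw [Fintype.card_fin] at hcard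
    exact ⟨hfp, Y, hYp, hYmin, hcard⟩
  rcases hcase with h4 | ⟨h4, h3⟩
  · obtain ⟨h0, hh0, H, hgen⟩ := exists_data hX hr h4 (by omega) hL
    refine hgoal h0 hh0 ?_ hgen H.good
    obtain ⟨x, hcone, hxne, hx0⟩ := hex h0 hh0
    have hfree := H.free x hcone hx0
    obtain ⟨A, hA, -⟩ := exists_frame_of H.sc H.card hcone hfree ⊥ bot_le (by
      rw [Submodule.mem_bot]; exact hxne)
    exact codim_le3 H hnd hA hx0
  · obtain ⟨h0, hh0, H, hgen⟩ := exists_dataW hX hr (by omega) (by omega) hL
    refine hgoal h0 hh0 ?_ hgen H.good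
    obtain ⟨x, hcone, hxne, hx0⟩ := hex h0 hh0
    have hfree := H.free x hcone hx0
    obtain ⟨A, hA, -⟩ := exists_frame_of H.sc H.card hcone hfree ⊥ bot_le (by
      rw [Submodule.mem_bot]; exact hxne)
    exact codim_le6 H hnd hA hx0 (by rw [Fintype.card_fin]; exact h4)
      (by rw [Fintype.card_fin]; exact h3)

end Pool.Agent.Run7.h399
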