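import Pool.Agent.Run7.h399.Defs

/-!
# Lines with high contact
-/

set_option autoImplicit false

namespace Pool.Agent.Run7.h399.LX

open MvPolynomial

/-- The ideal of the scheme of lines through `x` which have contact of order greater than `k` with
`X` at `x`: it is generated by the coefficients of order at most `k` of the `f(x + t A(u))`. -/
noncomputable def contactIdeal {n m : ℕ} (I : Ideal (Pol m)) (x : Fin m → ℂ)
    (A : (Fin n → ℂ) →ₗ[ℂ] (Fin m → ℂ)) (k : ℕ) : Ideal (Pol n) :=
  Ideal.span {g | ∃ f ∈ I, ∃ j ≤ k, g = (expand x A f).coeff j}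

/-- For every `k` the scheme of lines through `x` with contact of order greater than `k` has
tangent spaces of the same dimension at all lines through `x` contained in `X`. -/
def UniformContact {n m : ℕ} (I : Ideal (Pol m)) (x : Fin m → ℂ)
    (A : (Fin n → ℂ) →ₗ[ℂ] (Fin m → ℂ)) : Prop :=
  ∀ k, ∀ v ∈ zeros (linesIdeal I x A), ∀ w ∈ zeros (linesIdeal I x A), v ≠ 0 → w ≠ 0 →
    Module.finrank ℂ (tangentSpace (contactIdeal I x A k) v) =
      Module.finrank ℂ (tangentSpace (contactIdeal I x A k) w)

/-- `J` is saturated and generated by `r` homogeneous polynomials. When the closed subscheme of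
`P^(n-1)` defined by `J` has codimension `r`, this says that it is a complete intersection. -/
def IsCompleteIntersection {n : ℕ} (r : ℕ) (J : Ideal (Pol n)) : Prop :=
  IsSaturated J ∧ ∃ (d : Fin r → ℕ) (G : Fin r → Pol n),
    (∀ i, (G i).IsHomogeneous (d i)) ∧ J = Ideal.span (Set.range G)

end Pool.Agent.Run7.h399.LX
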