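import Pool.Agent.Run7.h399.Defs

/-!
# The type of a variety of lines
-/

set_option autoImplicit false

namespace Pool.Agent.Run7.h399.LX

open MvPolynomial

/-- `J` is saturated and generated by forms `G i k` of degree `k`, one for every `i` and every `k`
with `2 ≤ k ≤ d i`; their number `∑ (d i - 1)` is `r`. When the closed subscheme of `P^(n-1)`
defined by `J` has codimension `r`, this says that it is a complete intersection of hypersurfaces
of degrees `2, ..., d 0, 2, ..., d 1, ..., 2, ..., d (c - 1)`, like the variety of lines through a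
general point of a complete intersection of `c` hypersurfaces of degrees `d 0, ..., d (c - 1)`. -/
def IsOfType {n c : ℕ} (r : ℕ) (d : Fin c → ℕ) (J : Ideal (Pol n)) : Prop :=
  (∀ i, 2 ≤ d i) ∧ ∑ i, (d i - 1) = r ∧ IsSaturated J ∧
    ∃ G : Fin c → ℕ → Pol n, (∀ i k, (G i k).IsHomogeneous k) ∧
      J = Ideal.span {g | ∃ i k, 2 ≤ k ∧ k ≤ d i ∧ g = G i k}

end Pool.Agent.Run7.h399.LX
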