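import Pool.Agent.Run7.h399.G3

/-!
# Order of contact
-/

set_option autoImplicit false
set_option linter.unusedSectionVars false
set_option linter.style.haveILetI false

/-!
# Varieties of lines with constant order of contact; equations of degree two and three
-/

namespace Pool.Agent.Run7.h399

open MvPolynomial Pool.Agent.Run7.h399.Hart Pool.Agent.R948

variable {σ τ : Type} [Fintype σ] [DecidableEq σ] [Fintype τ] [DecidableEq τ]
  {K : Type} [Field K]

lemma conormal_low [IsAlgClosed K] {I : Ideal (MvPolynomial σ K)} {c : ℕ} {x : σ → K}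
    {A : (τ → K) →ₗ[K] (σ → K)} (h : FreePt I c x A) (v : τ → K)
    (hv : v ∈ cone (linesI I x A)) (k : ℕ) (hk : k ≤ 1) : conormal (ordI I x A k) v = ⊥ := by
  haveI := IsAlgClosed.instInfinite (K := K)
  rw [eq_bot_iff]
  apply conormal_span_le
  · intro g hg
    exact hv g (ordI_le I x A k hg)
  rintro g ⟨f, hf, j, hj, rfl⟩
  rw [Submodule.mem_bot]
  rcases Nat.lt_or_ge j 1 with h1 | h1
  · have h2 : j = 0 := by omega
    subst h2
    exact grad_coeff_zero A (h.mem _ hf) v
  · have h2 : j = 1 := by omega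
    subst h2
    exact grad_coeff_one A h.tan hf v

lemma rank_two [IsAlgClosed K] [CharZero K] {I : Ideal (MvPolynomial σ K)} {c r : ℕ} {x : σ → K}
    {A : (τ → K) →ₗ[K] (σ → K)} (h : FreePt I c x A) (hnd : Nondeg I)
    (Y : Ideal (MvPolynomial τ K)) [hY : Y.IsPrime] (hYmin : Y ∈ (linesI I x A).minimalPrimes)
    (hYdim : tdP Y + r = Fintype.card τ) (hn : c + 2 * r ≤ Fintype.card τ)
    (F : Fin c → MvPolynomial σ K) (hF : ∀ i, F i ∈ I)
    (hind : LinearIndependent K (fun i => grad (F i) x))
    (hFs : ∀ ξ ∈ conormal I x, ∃ a : Fin c → K, ξ = ∑ i, a i • grad (F i) x)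
    (v : τ → K) (hv : v ∈ cone Y) (hv0 : v ≠ 0) :
    Module.finrank K (conormal (ordI I x A 2) v) = c := by
  have hvJ : v ∈ cone (linesI I x A) := fun g hg => hv g (hYmin.1.2 hg)
  have h1 := quads_indep h hnd Y hYmin hYdim hn F hF hind v hv hv0
  have h2 : conormal (ordI I x A 2) v =
      Submodule.span K (Set.range fun i => grad ((lexp x A (F i)).coeff 2) v) := by
    apply le_antisymm
    · refine (level_span h F hF hFs v hvJ hv0 1).trans (sup_le ?_ le_rfl)
      rw [conormal_low h v hvJ 1 le_rfl]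
      exact bot_le
    · rw [Submodule.span_le]
      rintro _ ⟨i, rfl⟩
      exact grad_mem _ v (coeff_mem_ordI x A (hF i) le_rfl)
  rw [h2, finrank_span_eq_card h1, Fintype.card_fin]

/-- **Choice of the equations level by level.** -/
theorem uniform_levels [IsAlgClosed K] [CharZero K] {I : Ideal (MvPolynomial σ K)} {c r : ℕ}
    {x : σ → K} {A : (τ → K) →ₗ[K] (σ → K)} (h : FreePt I c x A) (hnd : Nondeg I)
    (Y : Ideal (MvPolynomial τ K)) [hY : Y.IsPrime] (hYmin : Y ∈ (linesI I x A).minimalPrimes)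
    (hYdim : tdP Y + r = Fintype.card τ) (hn : c + 2 * r < Fintype.card τ)
    (F : Fin c → MvPolynomial σ K) (hF : ∀ i, F i ∈ I)
    (hind : LinearIndependent K (fun i => grad (F i) x))
    (hFs : ∀ ξ ∈ conormal I x, ∃ a : Fin c → K, ξ = ∑ i, a i • grad (F i) x)
    (rk : ℕ → ℕ) (hrk : ∀ k, ∀ v ∈ cone Y, v ≠ 0 →
      Module.finrank K (conormal (ordI I x A k) v) = rk k) :
    ∀ k, ∃ (ι : Type) (_ : Fintype ι) (_ : DecidableEq ι) (G : ι → MvPolynomial τ K)
      (dG : ι → ℕ), (∀ i, (G i).IsHomogeneous (dG i)) ∧ (∀ i, 3 ≤ dG i ∧ dG i ≤ k + 2) ∧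
      (∀ i, G i ∈ ordI I x A (k + 2)) ∧
      (∀ v ∈ cone Y, v ≠ 0 → LinearIndependent K
        (Sum.elim (fun i => grad ((lexp x A (F i)).coeff 2) v) (fun i => grad (G i) v))) ∧
      c + Fintype.card ι = rk (k + 2) := by
  classical
  have hYh : Hm Y := Hm.minimal (linesI_homog I x A) hYmin
  obtain ⟨v0, hv0, hv00⟩ := exists_ne_cone Y (by omega)
  intro k
  induction k with
  | zero =>
    refine ⟨Fin 0, inferInstance, inferInstance, fun i => 0, fun i => 3, fun i => i.elim0,
      fun i => i.elim0, fun i => i.elim0, ?_, ?_⟩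
    · intro v hv hvne
      apply li_elim _ _ (quads_indep h hnd Y hYmin hYdim hn.le F hF hind v hv hvne)
      intro β _
      funext i
      exact i.elim0
    · rw [Fintype.card_fin, add_zero, zero_add, ← hrk 2 v0 hv0 hv00]
      exact (rank_two h hnd Y hYmin hYdim hn.le F hF hind hFs v0 hv0 hv00).symm
  | succ k ih =>
    obtain ⟨ι, hι1, hι2, G, dG, hG, hdG, hGJ, hGind, hcard⟩ := ih
    set Q : Fin c → MvPolynomial τ K := fun i => (lexp x A (F i)).coeff 2 with hQ
    set g : Fin c ⊕ ι → MvPolynomial τ K := Sum.elim Q G with hg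
    have hgv : ∀ v, (fun i => grad (g i) v) =
        Sum.elim (fun i => grad (Q i) v) (fun i => grad (G i) v) := by
      intro v
      funext i
      rcases i with i | i <;> rfl
    obtain ⟨e, a, hcard2, hli⟩ := const_flag (J := ordI I x A (k + 1 + 2)) hYh
      (hrk (k + 1 + 2)) g (Sum.elim (fun _ => 2) dG) (by
        rintro (i | i)
        · exact lexp_coeff_homog x A (F i) 2
        · exact hG i) (by
        rintro (i | i)
        · exact coeff_mem_ordI x A (hF i) (by omega)
        · have h1 : ordI I x A (k + 2) ≤ ordI I x A (k + 1 + 2) := by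
            apply Ideal.span_mono
            rintro g ⟨f, hf, j, hj, rfl⟩
            exact ⟨f, hf, j, by omega, rfl⟩
          exact h1 (hGJ i)) (by
        intro v hv hvne
        rw [hgv]
        exact hGind v hv hvne) (fun i => (lexp x A (F i)).coeff (k + 1 + 2)) (k + 1 + 2)
      (fun i => lexp_coeff_homog x A (F i) _) (fun i => coeff_mem_ordI x A (hF i) le_rfl) (by
        intro v hv hvne
        have hvJ : v ∈ cone (linesI I x A) := fun f hf => hv f (hYmin.1.2 hf)
        refine (level_span h F hF hFs v hvJ hvne (k + 2)).trans (sup_le_sup ?_ ?_)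
        · apply le_of_eq
          symm
          apply Submodule.eq_of_le_of_finrank_eq
          · rw [Submodule.span_le]
            rintro _ ⟨i | i, rfl⟩
            · exact grad_mem _ v (coeff_mem_ordI x A (hF i) (by omega))
            · exact grad_mem _ v (hGJ i)
          · have h1 : LinearIndependent K (fun i => grad (g i) v) := by
              rw [hgv]
              exact hGind v hv hvne
            rw [finrank_span_eq_card h1, Fintype.card_sum, Fintype.card_fin, hcard,
              hrk (k + 2) v hv hvne]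
        · exact le_rfl) (by omega) v0 hv0 hv00
    refine ⟨ι ⊕ Fin e, inferInstance, inferInstance,
      Sum.elim G (fun j => cmb (fun i => (lexp x A (F i)).coeff (k + 1 + 2)) (a j)),
      Sum.elim dG (fun _ => k + 1 + 2), ?_, ?_, ?_, ?_, ?_⟩
    · rintro (i | j)
      · exact hG i
      · exact cmb_homog _ _ (fun i => lexp_coeff_homog x A (F i) _) _
    · rintro (i | j)
      · have := hdG i
        simp only [Sum.elim_inl]
        omega
      · simp only [Sum.elim_inr]
        omega
    · rintro (i | j)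
      · have h1 : ordI I x A (k + 2) ≤ ordI I x A (k + 1 + 2) := by
          apply Ideal.span_mono
          rintro g ⟨f, hf, j, hj, rfl⟩
          exact ⟨f, hf, j, by omega, rfl⟩
        exact h1 (hGJ i)
      · exact cmb_mem _ (fun i => coeff_mem_ordI x A (hF i) le_rfl) _
    · intro v hv hvne
      have h1 := hli v hv hvne
      have h2 := h1.comp _ (Equiv.sumAssoc (Fin c) ι (Fin e)).symm.injective
      have h3 : (Sum.elim (fun i => grad (g i) v)
          (fun j => grad (cmb (fun i => (lexp x A (F i)).coeff (k + 1 + 2)) (a j)) v)) ∘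
          (Equiv.sumAssoc (Fin c) ι (Fin e)).symm =
          Sum.elim (fun i => grad ((lexp x A (F i)).coeff 2) v) (fun i => grad ((Sum.elim G
            (fun j => cmb (fun i => (lexp x A (F i)).coeff (k + 1 + 2)) (a j)) :
              ι ⊕ Fin e → MvPolynomial τ K) i) v) := by
        funext i
        rcases i with i | i | i <;> rfl
      rw [h3] at h2
      exact h2
    · rw [Fintype.card_sum, Fintype.card_fin, ← add_assoc]
      rw [Fintype.card_sum, Fintype.card_fin] at hcard2
      exact hcard2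

/-- closing with quadrics and further forms -/
theorem close_sum [IsAlgClosed K] [CharZero K] {I : Ideal (MvPolynomial σ K)} {c r : ℕ}
    {x : σ → K} {A : (τ → K) →ₗ[K] (σ → K)} (h : FreePt I c x A)
    (Y : Ideal (MvPolynomial τ K)) [hY : Y.IsPrime] (hYmin : Y ∈ (linesI I x A).minimalPrimes)
    (hYdim : tdP Y + r = Fintype.card τ) (hlt : r < tdP Y)
    (F : Fin c → MvPolynomial σ K) (hF : ∀ i, F i ∈ I)
    {ι : Type} [Fintype ι] [DecidableEq ι] (G : ι → MvPolynomial τ K) (dG : ι → ℕ)
    (hG : ∀ i, (G i).IsHomogeneous (dG i)) (hd : ∀ i, 0 < dG i) (hGJ : ∀ i, G i ∈ linesI I x A)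
    (hind : ∀ v ∈ cone Y, v ≠ 0 → LinearIndependent K
        (Sum.elim (fun i => grad ((lexp x A (F i)).coeff 2) v) (fun i => grad (G i) v)))
    (hcard : c + Fintype.card ι = r) :
    (linesI I x A = Ideal.span (Set.range (fun i => (lexp x A (F i)).coeff 2) ∪ Set.range G)) ∧
      ∀ g : MvPolynomial τ K, (∀ i, ∃ k : ℕ, X i ^ k * g ∈ linesI I x A) →
        g ∈ linesI I x A := by
  let e : Fin c ⊕ ι ≃ Fin r := Fintype.equivFinOfCardEq (by
    rw [Fintype.card_sum, Fintype.card_fin]; exact hcard)
  let g : Fin c ⊕ ι → MvPolynomial τ K := Sum.elim (fun i => (lexp x A (F i)).coeff 2) G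
  obtain ⟨h1, h2⟩ := lines_close h Y hYmin hYdim hlt (fun i => g (e.symm i))
    (fun i => Sum.elim (fun _ => 2) dG (e.symm i)) (by
      intro i
      rcases hi : e.symm i with j | j
      · exact lexp_coeff_homog x A (F j) 2
      · exact hG j) (by
      intro i
      rcases hi : e.symm i with j | j
      · exact two_pos
      · exact hd j) (by
      intro i
      rcases hi : e.symm i with j | j
      · exact Ideal.subset_span ⟨F j, hF j, 2, rfl⟩
      · exact hGJ j) (by
      intro v hv hvne
      have h1 := (hind v hv hvne).comp _ e.symm.injective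
      have h3 : (Sum.elim (fun i => grad ((lexp x A (F i)).coeff 2) v)
          (fun i => grad (G i) v)) ∘ e.symm = fun i => grad (g (e.symm i)) v := by
        funext i
        simp only [Function.comp_apply, g]
        rcases e.symm i with j | j <;> rfl
      rw [h3] at h1
      exact h1)
  refine ⟨?_, h2⟩
  rw [h1]
  congr 1
  ext f
  constructor
  · rintro ⟨i, rfl⟩
    rcases hi : e.symm i with j | j
    · left
      exact ⟨j, by simp only [hi, g, Sum.elim_inl]⟩
    · right
      exact ⟨j, by simp only [hi, g, Sum.elim_inr]⟩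
  · rintro (⟨j, rfl⟩ | ⟨j, rfl⟩)
    · exact ⟨e (Sum.inl j), by simp only [Equiv.symm_apply_apply, g, Sum.elim_inl]⟩
    · exact ⟨e (Sum.inr j), by simp only [Equiv.symm_apply_apply, g, Sum.elim_inr]⟩

/-- **Constant order of contact.** -/
theorem main4 [IsAlgClosed K] [CharZero K] {I : Ideal (MvPolynomial σ K)} {c r : ℕ}
    {x : σ → K} {A : (τ → K) →ₗ[K] (σ → K)} (h : FreePt I c x A) (hnd : Nondeg I)
    (Y : Ideal (MvPolynomial τ K)) [hY : Y.IsPrime] (hYmin : Y ∈ (linesI I x A).minimalPrimes)
    (hYdim : tdP Y + r = Fintype.card τ) (hn : c + 2 * r < Fintype.card τ)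
    (hrk : ∀ k, ∀ v ∈ cone Y, ∀ w ∈ cone Y, v ≠ 0 → w ≠ 0 →
      Module.finrank K (conormal (ordI I x A k) v) =
        Module.finrank K (conormal (ordI I x A k) w)) :
    ∃ (Q : Fin c → MvPolynomial τ K) (G : Fin (r - c) → MvPolynomial τ K),
      (∀ i, (Q i).IsHomogeneous 2) ∧ (∀ i, ∃ d, 3 ≤ d ∧ (G i).IsHomogeneous d) ∧
      linesI I x A = Ideal.span (Set.range Q ∪ Set.range G) ∧
      ∀ g : MvPolynomial τ K, (∀ i, ∃ k : ℕ, X i ^ k * g ∈ linesI I x A) → g ∈ linesI I x A := by
  classical
  haveI := IsAlgClosed.instInfinite (K := K)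
  obtain ⟨F, hF, hind, hFs⟩ := exists_grads h.sc x h.mem h.ne
  obtain ⟨v0, hv0, hv00⟩ := exists_ne_cone Y (by omega)
  have hv0J : v0 ∈ cone (linesI I x A) := fun g hg => hv0 g (hYmin.1.2 hg)
  obtain ⟨ι, hι1, hι2, G, dG, hG, hdG, hGJ, hGind, hcard⟩ := uniform_levels h hnd Y hYmin hYdim
    hn F hF hind hFs (fun k => Module.finrank K (conormal (ordI I x A k) v0))
    (fun k v hv hvne => hrk k v hv v0 hv0 hvne hv00) (∑ i, (F i).totalDegree)
  have hr : c + Fintype.card ι = r := by
    rw [hcard, ← level_stable h F hF hFs _ (fun i => ?_) v0 hv0J hv00,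
      rank_lines h Y hYmin hYdim v0 hv0 hv00]
    exact (Finset.single_le_sum (f := fun i => (F i).totalDegree) (fun _ _ => Nat.zero_le _)
      (Finset.mem_univ i)).trans (by omega)
  obtain ⟨h1, h2⟩ := close_sum h Y hYmin hYdim (by omega) F hF G dG hG
    (fun i => by have := (hdG i).1; omega) (fun i => ordI_le I x A _ (hGJ i)) hGind hr
  let e : ι ≃ Fin (r - c) := Fintype.equivFinOfCardEq (by omega)
  refine ⟨fun i => (lexp x A (F i)).coeff 2, fun i => G (e.symm i),
    fun i => lexp_coeff_homog x A (F i) 2, fun i => ⟨_, (hdG _).1, hG _⟩, ?_, h2⟩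
  have h3 : (Set.range fun i => G (e.symm i)) = Set.range G := e.symm.surjective.range_comp G
  rw [h3]
  exact h1

/-- **Equations of degree at most three.** -/
theorem main5 [IsAlgClosed K] [CharZero K] {I : Ideal (MvPolynomial σ K)} {c r : ℕ}
    {x : σ → K} {A : (τ → K) →ₗ[K] (σ → K)} (h : FreePt I c x A) (hnd : Nondeg I)
    (Y : Ideal (MvPolynomial τ K)) [hY : Y.IsPrime] (hYmin : Y ∈ (linesI I x A).minimalPrimes)
    (hYdim : tdP Y + r = Fintype.card τ) (hn : c + 2 * r < Fintype.card τ)
    (F : Fin c → MvPolynomial σ K) (hF : ∀ i, F i ∈ I)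
    (hind : LinearIndependent K (fun i => grad (F i) x))
    (hFs : ∀ ξ ∈ conormal I x, ∃ a : Fin c → K, ξ = ∑ i, a i • grad (F i) x)
    (hdeg : ∀ i, (F i).totalDegree ≤ 3) :
    c ≤ r ∧ r ≤ 2 * c ∧
    ∃ (Q : Fin c → MvPolynomial τ K) (G : Fin (r - c) → MvPolynomial τ K),
      (∀ i, (Q i).IsHomogeneous 2) ∧ (∀ i, (G i).IsHomogeneous 3) ∧
      linesI I x A = Ideal.span (Set.range Q ∪ Set.range G) ∧
      ∀ g : MvPolynomial τ K, (∀ i, ∃ k : ℕ, X i ^ k * g ∈ linesI I x A) → g ∈ linesI I x A := by
  classical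
  haveI := IsAlgClosed.instInfinite (K := K)
  obtain ⟨v0, hv0, hv00⟩ := exists_ne_cone Y (by omega)
  have hv0J : v0 ∈ cone (linesI I x A) := fun g hg => hv0 g (hYmin.1.2 hg)
  have hrk : ∀ k, ∀ v ∈ cone Y, v ≠ 0 → Module.finrank K (conormal (ordI I x A k) v) =
      if k ≤ 1 then 0 else if k = 2 then c else r := by
    intro k v hv hvne
    have hvJ : v ∈ cone (linesI I x A) := fun g hg => hv g (hYmin.1.2 hg)
    split_ifs with h1 h2
    · rw [conormal_low h v hvJ k h1, finrank_bot]
    · rw [h2]
      exact rank_two h hnd Y hYmin hYdim hn.le F hF hind hFs v hv hvne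
    · rw [← level_stable h F hF hFs k (fun i => (hdeg i).trans (by omega)) v hvJ hvne]
      exact rank_lines h Y hYmin hYdim v hv hvne
  obtain ⟨ι, hι1, hι2, G, dG, hG, hdG, hGJ, hGind, hcard⟩ := uniform_levels h hnd Y hYmin hYdim
    hn F hF hind hFs _ hrk 1
  have hr : c + Fintype.card ι = r := by
    rw [hcard]
    simp
  have hr2 : r ≤ 2 * c := by
    have h1 := level_span h F hF hFs v0 hv0J hv00 2
    have h2 := Submodule.finrank_mono h1
    have h3 := Submodule.finrank_add_le_finrank_add_finrank (conormal (ordI I x A 2) v0)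
      (Submodule.span K (Set.range fun i => grad ((lexp x A (F i)).coeff (2 + 1)) v0))
    have h4 := finrank_range_le_card (R := K)
      (fun i => grad ((lexp x A (F i)).coeff (2 + 1)) v0)
    rw [Set.finrank, Fintype.card_fin] at h4
    have h5 : (if 2 + 1 ≤ 1 then 0 else if 2 + 1 = 2 then c else r) = r := by simp
    have h6 : (if 2 ≤ 1 then 0 else if 2 = 2 then c else r) = c := by simp
    rw [hrk 2 v0 hv0 hv00, h6] at h3
    rw [hrk (2 + 1) v0 hv0 hv00, h5] at h2
    omega
  obtain ⟨h1, h2⟩ := close_sum h Y hYmin hYdim (by omega) F hF G dG hG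
    (fun i => by have := (hdG i).1; omega) (fun i => ordI_le I x A _ (hGJ i)) hGind hr
  let e : ι ≃ Fin (r - c) := Fintype.equivFinOfCardEq (by omega)
  refine ⟨by omega, hr2, fun i => (lexp x A (F i)).coeff 2, fun i => G (e.symm i),
    fun i => lexp_coeff_homog x A (F i) 2, fun i => ?_, ?_, h2⟩
  · have h3 := hdG (e.symm i)
    have h4 : dG (e.symm i) = 3 := by omega
    rw [← h4]
    exact hG _
  · have h3 : (Set.range fun i => G (e.symm i)) = Set.range G := e.symm.surjective.range_comp G
    rw [h3]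
    exact h1

end Pool.Agent.Run7.h399

/-!
# The part of low degree of an ideal generated by forms
-/

namespace Pool.Agent.Run7.h399

open MvPolynomial Pool.Agent.Run7.h399.Hart Pool.Agent.R948

variable {τ : Type} [Fintype τ] [DecidableEq τ] {K : Type} [Field K]

lemma hc_mul_ge {P : MvPolynomial τ K} {p : ℕ} (hP : P.IsHomogeneous p) (b : MvPolynomial τ K)
    (k : ℕ) : homogeneousComponent (p + k) (b * P) = homogeneousComponent k b * P := by
  rw [mul_comm, TH144.MB.comp_mul hP, mul_comm]

lemma hc_mul_lt {P : MvPolynomial τ K} {p : ℕ} (hP : P.IsHomogeneous p) (b : MvPolynomial τ K)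
    (j : ℕ) (hj : j < p) : homogeneousComponent j (b * P) = 0 := by
  conv_lhs => rw [← sum_homogeneousComponent b, Finset.sum_mul, map_sum]
  refine Finset.sum_eq_zero (fun k _ => ?_)
  have h1 : (homogeneousComponent k b * P).IsHomogeneous (k + p) :=
    (homogeneousComponent_isHomogeneous k b).mul hP
  rw [homogeneousComponent_of_mem h1, if_neg (by omega)]

/-- the differentials of the elements of low degree of an ideal generated by forms -/
theorem low_grad {ι : Type} [Fintype ι] (g : ι → MvPolynomial τ K) (p : ι → ℕ)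
    (hg : ∀ i, (g i).IsHomogeneous (p i)) (v : τ → K) (hv : ∀ i, eval v (g i) = 0)
    (f : MvPolynomial τ K) (hf : f ∈ Ideal.span (Set.range g)) (j : ℕ) :
    grad (homogeneousComponent j f) v ∈
      Submodule.span K ((fun i => grad (g i) v) '' {i | p i ≤ j}) := by
  classical
  obtain ⟨b, rfl⟩ := (Ideal.mem_span_range_iff_exists_fun).1 hf
  rw [map_sum, grad_sum]
  refine Submodule.sum_mem _ (fun i _ => ?_)
  rcases Nat.lt_or_ge j (p i) with h | h
  · rw [hc_mul_lt (hg i) _ _ h, grad_zero]
    exact Submodule.zero_mem _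
  · obtain ⟨k, rfl⟩ := Nat.exists_eq_add_of_le h
    rw [hc_mul_ge (hg i), grad_mul, hv i, zero_smul, zero_add]
    exact Submodule.smul_mem _ _ (Submodule.subset_span ⟨i, h, rfl⟩)

/-- If the differentials of the elements of degree at most `D` span, then the generators of a
complete intersection have degree at most `D`. -/
theorem degree_bound {ι : Type} [Fintype ι] [DecidableEq ι] (g : ι → MvPolynomial τ K)
    (p : ι → ℕ) (hg : ∀ i, (g i).IsHomogeneous (p i)) (v : τ → K) (hv : ∀ i, eval v (g i) = 0)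
    (D : ℕ) (hrank : Fintype.card ι ≤ Module.finrank K (conormal (Ideal.span (Set.range g)) v))
    (hspan : ∀ ξ ∈ conormal (Ideal.span (Set.range g)) v, ξ ∈ Submodule.span K
      {ζ | ∃ f ∈ Ideal.span (Set.range g), ∃ j ≤ D, ζ = grad (homogeneousComponent j f) v})
    (i : ι) : p i ≤ D := by
  classical
  by_contra hcon
  push Not at hcon
  have h1 : conormal (Ideal.span (Set.range g)) v ≤
      Submodule.span K (Set.range fun l : {l : ι // l ≠ i} => grad (g l) v) := by
    intro ξ hξ
    refine (Submodule.span_le.2 ?_) (hspan ξ hξ)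
    rintro _ ⟨f, hf, j, hj, rfl⟩
    refine Submodule.span_mono ?_ (low_grad g p hg v hv f hf j)
    rintro _ ⟨l, hl, rfl⟩
    have hl' : p l ≤ j := hl
    exact ⟨⟨l, by rintro rfl; omega⟩, rfl⟩
  have h2 := Submodule.finrank_mono h1
  have h3 := finrank_range_le_card (R := K) (fun l : {l : ι // l ≠ i} => grad (g l) v)
  rw [Set.finrank] at h3
  have h4 : Fintype.card {l : ι // l ≠ i} + 1 = Fintype.card ι := by
    have h5 := Fintype.card_congr (Equiv.optionSubtypeNe i)
    rw [Fintype.card_option] at h5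
    exact h5
  omega

end Pool.Agent.Run7.h399

/-!
# Constancy of the flags of dead directions along a subvariety
-/

namespace Pool.Agent.Run7.h399

open MvPolynomial Pool.Agent.Run7.h399.Hart Pool.Agent.R948

variable {τ : Type} [Fintype τ] [DecidableEq τ] {K : Type} [Field K]
  {κ : Type} [Fintype κ] [DecidableEq κ]

/-- **The dead directions are constant** along `P` when the ranks are constant along `P` and
on an open subset of `Y` meeting `P`. -/
theorem const_flag2 [IsAlgClosed K] [CharZero K] {J Y P : Ideal (MvPolynomial τ K)}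
    [hYp : Y.IsPrime] [hPp : P.IsPrime] (hY : Hm Y) (hP : Hm P) (hYP : Y ≤ P)
    (DZ : MvPolynomial τ K) {R : ℕ}
    (hrank : ∀ v ∈ cone P, v ≠ 0 → Module.finrank K (conormal J v) = R)
    (hrankY : ∀ v ∈ cone Y, v ≠ 0 → eval v DZ ≠ 0 → Module.finrank K (conormal J v) = R)
    (g : κ → MvPolynomial τ K) (dg : κ → ℕ) (hg : ∀ i, (g i).IsHomogeneous (dg i))
    (hgJ : ∀ i, g i ∈ J)
    (hind : ∀ v ∈ cone P, v ≠ 0 → LinearIndependent K (fun i => grad (g i) v))
    {m : ℕ} (h : Fin m → MvPolynomial τ K) (d : ℕ) (hh : ∀ i, (h i).IsHomogeneous d)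
    (hhJ : ∀ i, h i ∈ J)
    (hspan : ∀ v ∈ cone P, v ≠ 0 → conormal J v ≤
      Submodule.span K (Set.range fun i => grad (g i) v) ⊔
      Submodule.span K (Set.range fun i => grad (h i) v))
    (hdim : Fintype.card τ + m < tdP Y + tdP P) (v0 : τ → K) (hv0 : v0 ∈ cone P)
    (hv00 : v0 ≠ 0) (hDZ : eval v0 DZ ≠ 0) :
    ∃ (e : ℕ) (a : Fin e → Fin m → K), Fintype.card κ + e = R ∧
      ∀ v ∈ cone P, v ≠ 0 → LinearIndependent K
        (Sum.elim (fun i => grad (g i) v) (fun j => grad (cmb h (a j)) v)) := by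
  classical
  set Sg : (τ → K) → Submodule K (τ → K) := fun v =>
    Submodule.span K (Set.range fun i => grad (g i) v) with hSg
  let D0 : Submodule K (Fin m → K) := (Sg v0).comap (gl h v0)
  obtain ⟨C0, hC⟩ := Submodule.exists_isCompl D0
  let b := Module.finBasis K D0
  let a := Module.finBasis K C0
  set s := Module.finrank K D0 with hs
  set e := Module.finrank K C0 with he
  have hse : s + e = m := by
    have h1 := Submodule.finrank_add_eq_of_isCompl hC
    rwa [Module.finrank_fintype_fun_eq_card, Fintype.card_fin] at h1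
  let a' : Fin e → Fin m → K := fun j => ((a j : C0) : Fin m → K)
  let b' : Fin s → Fin m → K := fun l => ((b l : D0) : Fin m → K)
  have ha'ind : LinearIndependent K a' :=
    a.linearIndependent.map' C0.subtype (Submodule.ker_subtype _)
  have hrepC : ∀ z ∈ C0, ∃ β : Fin e → K, z = ∑ j, β j • a' j := by
    intro z hz
    refine ⟨fun j => a.repr ⟨z, hz⟩ j, ?_⟩
    have h1 := congrArg (fun w : C0 => (w : Fin m → K)) (a.sum_repr ⟨z, hz⟩)
    simp only [Submodule.coe_sum, Submodule.coe_smul] at h1
    exact h1.symm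
  have hrepD : ∀ z ∈ D0, ∃ β : Fin s → K, z = ∑ l, β l • b' l := by
    intro z hz
    refine ⟨fun j => b.repr ⟨z, hz⟩ j, ?_⟩
    have h1 := congrArg (fun w : D0 => (w : Fin m → K)) (b.sum_repr ⟨z, hz⟩)
    simp only [Submodule.coe_sum, Submodule.coe_smul] at h1
    exact h1.symm
  have hgl : ∀ (v : τ → K) {ι : Type} (t : Finset ι) (β : ι → K) (z : ι → Fin m → K),
      grad (cmb h (∑ j ∈ t, β j • z j)) v = ∑ j ∈ t, β j • grad (cmb h (z j)) v := by
    intro v ι t β z
    rw [← gl_apply, map_sum]
    exact Finset.sum_congr rfl (fun j _ => by rw [map_smul, gl_apply])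
  -- independence at the base point
  have hbase : LinearIndependent K
      (Sum.elim (fun i => grad (g i) v0) (fun j => grad (cmb h (a' j)) v0)) := by
    apply li_elim _ _ (hind v0 hv0 hv00)
    intro β hβ
    rw [← hgl] at hβ
    have h1 : ∑ j, β j • a' j ∈ D0 := by
      show gl h v0 _ ∈ Sg v0
      rw [gl_apply]
      exact hβ
    have h2 : ∑ j, β j • a' j ∈ C0 :=
      Submodule.sum_mem _ (fun j _ => Submodule.smul_mem _ _ (a j).2)
    have h3 : ∑ j, β j • a' j = 0 := by
      have h4 : ∑ j, β j • a' j ∈ D0 ⊓ C0 := ⟨h1, h2⟩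
      rwa [hC.inf_eq_bot, Submodule.mem_bot] at h4
    funext j
    exact Fintype.linearIndependent_iff.1 ha'ind β h3 j
  have hcard : Fintype.card κ + e = R := by
    have h1 : Submodule.span K (Set.range
        (Sum.elim (fun i => grad (g i) v0) (fun j => grad (cmb h (a' j)) v0))) =
        conormal J v0 := by
      apply le_antisymm
      · rw [Submodule.span_le]
        rintro _ ⟨i, rfl⟩
        rcases i with i | j
        · exact grad_mem J v0 (hgJ i)
        · exact grad_mem J v0 (cmb_mem h hhJ (a' j))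
      · refine (hspan v0 hv0 hv00).trans (sup_le ?_ ?_)
        · apply Submodule.span_mono
          rintro _ ⟨i, rfl⟩
          exact ⟨Sum.inl i, rfl⟩
        · rw [Submodule.span_le]
          rintro _ ⟨i, rfl⟩
          have h2 : (Pi.single i 1 : Fin m → K) ∈ D0 ⊔ C0 := by rw [hC.sup_eq_top]; trivial
          obtain ⟨x, hx, z, hz, hxz⟩ := Submodule.mem_sup.1 h2
          rw [SetLike.mem_coe]
          change grad (h i) v0 ∈ _
          rw [← gl_single, ← hxz, map_add]
          refine Submodule.add_mem _ ?_ ?_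
          · have h3 : gl h v0 x ∈ Sg v0 := hx
            refine Submodule.span_mono ?_ h3
            rintro _ ⟨i, rfl⟩
            exact ⟨Sum.inl i, rfl⟩
          · obtain ⟨β, rfl⟩ := hrepC z hz
            rw [gl_apply, hgl]
            exact Submodule.sum_mem _ (fun j _ => Submodule.smul_mem _ _
              (Submodule.subset_span ⟨Sum.inr j, rfl⟩))
    have h2 := finrank_span_eq_card hbase
    rw [h1, hrank v0 hv0 hv00, Fintype.card_sum, Fintype.card_fin] at h2
    exact h2.symm
  refine ⟨e, a', hcard, ?_⟩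
  intro v1 hv1 hv10
  apply li_elim _ _ (hind v1 hv1 hv10)
  intro β hβ
  by_contra hβ0
  obtain ⟨j0, hj0⟩ := Function.ne_iff.1 hβ0
  rw [Pi.zero_apply] at hj0
  rw [← hgl] at hβ
  set u := ∑ j, β j • a' j with hu
  -- the locus where `u` is dead
  obtain ⟨R2, hR2, hR2m, hPR2, -, hcost2, hR2sp⟩ := step_dead (J := J) hP hrank g dg hg hgJ hind
    (cmb h u) d (cmb_homog h d hh u) (cmb_mem h hhJ u) v1 hv1 hv10 hβ
  -- the family without the direction `a j0`
  set fam0 : κ ⊕ Fin e → MvPolynomial τ K := Sum.elim g (fun j => cmb h (a' j)) with hfam0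
  set T : {i : κ ⊕ Fin e // i ≠ Sum.inr j0} → MvPolynomial τ K := fun i => fam0 i.1 with hT
  have hbase' : LinearIndependent K (fun i => grad (fam0 i) v0) := by
    have h1 : (fun i => grad (fam0 i) v0) =
        Sum.elim (fun i => grad (g i) v0) (fun j => grad (cmb h (a' j)) v0) := by
      funext i
      rcases i with i | j <;> rfl
    rw [h1]
    exact hbase
  have hSgT : ∀ v, Sg v ≤ Submodule.span K (Set.range fun i => grad (T i) v) := by
    intro v
    apply Submodule.span_mono
    rintro _ ⟨i, rfl⟩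
    exact ⟨⟨Sum.inl i, by simp⟩, rfl⟩
  -- the excluded direction is recovered from `u`
  have hrec : ∀ v, ∀ N : Submodule K (τ → K),
      Submodule.span K (Set.range fun i => grad (T i) v) ≤ N → grad (cmb h u) v ∈ N →
      ∀ j, grad (cmb h (a' j)) v ∈ N := by
    intro v N hN huN j
    by_cases hj : j = j0
    · subst hj
      have h1 : β j • grad (cmb h (a' j)) v =
          grad (cmb h u) v - ∑ i ∈ Finset.univ.erase j, β i • grad (cmb h (a' i)) v := by
        rw [hu, hgl, ← Finset.add_sum_erase _ _ (Finset.mem_univ j)]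
        abel
      have h2 : β j • grad (cmb h (a' j)) v ∈ N := by
        rw [h1]
        refine Submodule.sub_mem _ huN (Submodule.sum_mem _ (fun i hi => ?_))
        refine Submodule.smul_mem _ _ (hN (Submodule.subset_span ⟨⟨Sum.inr i, ?_⟩, rfl⟩))
        intro h3
        exact (Finset.mem_erase.1 hi).1 (Sum.inr_injective h3)
      have h3 := Submodule.smul_mem N (β j)⁻¹ h2
      rwa [smul_smul, inv_mul_cancel₀ hj0, one_smul] at h3
    · apply hN
      exact Submodule.subset_span ⟨⟨Sum.inr j, fun h3 => hj (Sum.inr_injective h3)⟩, rfl⟩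
  have hcardT : Fintype.card {i : κ ⊕ Fin e // i ≠ Sum.inr j0} + 1 = R := by
    have h1 := Fintype.card_congr (Equiv.optionSubtypeNe (Sum.inr j0 : κ ⊕ Fin e))
    rw [Fintype.card_option, Fintype.card_sum, Fintype.card_fin] at h1
    omega
  set G : Option {i : κ ⊕ Fin e // i ≠ Sum.inr j0} → MvPolynomial τ K :=
    fun o => o.elim (cmb h u) T with hG
  have hGv : ∀ (f : MvPolynomial τ K) (v : τ → K),
      (fun o : Option {i : κ ⊕ Fin e // i ≠ Sum.inr j0} =>
        grad ((o.elim f T : MvPolynomial τ K)) v) =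
      fun o => Option.elim o (grad f v) (fun i => grad (T i) v) := by
    intro f v
    funext o
    rcases o with _ | i <;> rfl
  have hGind : LinearIndependent K (fun o => grad (G o) v0) := by
    rw [hG, hGv, li_option]
    refine ⟨hbase'.comp _ Subtype.val_injective, ?_⟩
    intro hmem
    have h1 := hrec v0 _ le_rfl hmem j0
    have h2 := hbase'.notMem_span_image (s := {i | i ≠ Sum.inr j0}) (x := Sum.inr j0) (by simp)
    apply h2
    have h3 : (fun i => grad (fam0 i) v0) '' {i | i ≠ Sum.inr j0} =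
        Set.range fun i => grad (T i) v0 := by
      ext ξ
      constructor
      · rintro ⟨i, hi, rfl⟩
        exact ⟨⟨i, hi⟩, rfl⟩
      · rintro ⟨i, rfl⟩
        exact ⟨i.1, i.2, rfl⟩
    rw [h3]
    exact h1
  obtain ⟨W, hW⟩ := exists_mdet G v0 hGind
  set E : Fin s → MvPolynomial τ K := fun l => mdet (fun o => o.elim (cmb h (b' l)) T) W with hE
  have hE0 : ∀ l, E l ∈ mx v0 := by
    intro l
    rw [mem_mx]
    by_contra h1
    have h2 := ind_of_mdet _ W v0 h1
    rw [hGv, li_option] at h2
    apply h2.2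
    apply hSgT
    have h3 : gl h v0 (b' l) ∈ Sg v0 := (b l).2
    rwa [gl_apply] at h3
  obtain ⟨R1, hR1, hR1M, hR1min, hcost1⟩ := exists_cut Y (mx v0) hYp (mx_prime v0)
    (fun f hf => (mem_mx v0 f).2 (hv0 f (hYP hf))) E hE0
  have hYR1 : Y ≤ R1 := le_sup_left.trans hR1min.1.2
  have hER : ∀ l, E l ∈ R1 := fun l =>
    hR1min.1.2 (Ideal.mem_sup_right (Ideal.subset_span ⟨l, rfl⟩))
  have hv0R : v0 ∈ cone R1 := fun f hf => (mem_mx v0 f).1 (hR1M hf)
  have hR1m : Hm R1 := by
    refine Hm.minimal (Hm.sup hY (hm_span ?_)) hR1min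
    rintro _ ⟨l, rfl⟩
    refine ⟨_, mdet_homog _ W (fun o => o.elim d (fun i => Sum.elim dg (fun _ => d) i.1)) ?_⟩
    intro o
    rcases o with _ | ⟨i | j, hi⟩
    · exact cmb_homog h d hh _
    · exact hg i
    · exact cmb_homog h d hh _
  have hkey : ∀ v ∈ cone R1, v ≠ 0 → eval v DZ ≠ 0 → eval v (mdet G W) ≠ 0 → ∀ l,
      grad (cmb h (b' l)) v ∈ Submodule.span K (Set.range fun i => grad (T i) v) := by
    intro v hv hvne hDZv hDv l
    have hvY : v ∈ cone Y := fun f hf => hv f (hYR1 hf)
    have hindG := ind_of_mdet G W v hDv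
    have hspanG : Submodule.span K (Set.range fun o => grad (G o) v) = conormal J v := by
      apply Submodule.eq_of_le_of_finrank_eq
      · rw [Submodule.span_le]
        rintro _ ⟨o, rfl⟩
        rcases o with _ | ⟨i | j, hi⟩
        · exact grad_mem J v (cmb_mem h hhJ u)
        · exact grad_mem J v (hgJ i)
        · exact grad_mem J v (cmb_mem h hhJ (a' j))
      · rw [finrank_span_eq_card hindG, Fintype.card_option, hcardT, hrankY v hvY hvne hDZv]
    obtain ⟨c, hc0, hc⟩ := mdet_zero _ W v (hv _ (hER l))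
    have hz : ∑ o, c o • grad ((o.elim (cmb h (b' l)) T : MvPolynomial τ K)) v = 0 := by
      have h1 : ∑ o, c o • grad ((o.elim (cmb h (b' l)) T : MvPolynomial τ K)) v ∈
          conormal J v := by
        refine Submodule.sum_mem _ (fun o _ => Submodule.smul_mem _ _ ?_)
        rcases o with _ | ⟨i | j, hi⟩
        · exact grad_mem J v (cmb_mem h hhJ (b' l))
        · exact grad_mem J v (hgJ i)
        · exact grad_mem J v (cmb_mem h hhJ (a' j))
      rw [← hspanG, Submodule.mem_span_range_iff_exists_fun] at h1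
      obtain ⟨p, hp⟩ := h1
      have h2 : p = 0 := by
        apply mdet_inj G W v hDv
        intro j
        rw [← dotB_sum_left, hp, dotB_sum_left]
        exact hc j
      rw [← hp, h2]
      simp
    rw [Fintype.sum_option] at hz
    simp only [Option.elim_none, Option.elim_some] at hz
    have hTind : LinearIndependent K (fun i => grad (T i) v) := by
      rw [hG, hGv, li_option] at hindG
      exact hindG.1
    have hcn : c none ≠ 0 := by
      intro h0
      apply hc0
      rw [h0, zero_smul, zero_add] at hz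
      funext o
      rcases o with _ | i
      · exact h0
      · exact Fintype.linearIndependent_iff.1 hTind (fun i => c (some i)) hz i
    have h1 : c none • grad (cmb h (b' l)) v ∈
        Submodule.span K (Set.range fun i => grad (T i) v) := by
      rw [eq_neg_of_add_eq_zero_left hz]
      exact Submodule.neg_mem _ (Submodule.sum_mem _ (fun i _ => Submodule.smul_mem _ _
        (Submodule.subset_span ⟨i, rfl⟩)))
    have h2 := Submodule.smul_mem _ (c none)⁻¹ h1
    rwa [smul_smul, inv_mul_cancel₀ hcn, one_smul] at h2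
  -- the two loci meet
  obtain ⟨y, hy1, hy0, hy2⟩ := meet_cones R1 R2 hR1m hR2m (by omega)
  have hyY : y ∈ cone P := fun f hf => hy2 f (hPR2 hf)
  set fam1 : {i : κ ⊕ Fin e // i ≠ Sum.inr j0} ⊕ Fin s → MvPolynomial τ K :=
    Sum.elim T (fun l => cmb h (b' l)) with hfam1
  have hTle : ∀ v, Submodule.span K (Set.range fun i => grad (T i) v) ≤
      Submodule.span K (Set.range fun i => grad (fam1 i) v) := by
    intro v
    apply Submodule.span_mono
    rintro _ ⟨i, rfl⟩
    exact ⟨Sum.inl i, rfl⟩
  have hspany : Submodule.span K (Set.range fun i => grad (fam1 i) y) = conormal J y := by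
    apply le_antisymm
    · rw [Submodule.span_le]
      rintro _ ⟨i, rfl⟩
      rcases i with ⟨i | j, hi⟩ | l
      · exact grad_mem J y (hgJ i)
      · exact grad_mem J y (cmb_mem h hhJ (a' j))
      · exact grad_mem J y (cmb_mem h hhJ (b' l))
    · refine (hspan y hyY hy0).trans (sup_le ((hSgT y).trans (hTle y)) ?_)
      rw [Submodule.span_le]
      rintro _ ⟨i, rfl⟩
      have h2 : (Pi.single i 1 : Fin m → K) ∈ D0 ⊔ C0 := by rw [hC.sup_eq_top]; trivial
      obtain ⟨x, hx, z, hz, hxz⟩ := Submodule.mem_sup.1 h2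
      rw [SetLike.mem_coe]
      change grad (h i) y ∈ _
      rw [← gl_single, ← hxz, map_add]
      refine Submodule.add_mem _ ?_ ?_
      · obtain ⟨β', rfl⟩ := hrepD x hx
        rw [gl_apply, hgl]
        exact Submodule.sum_mem _ (fun l _ => Submodule.smul_mem _ _
          (Submodule.subset_span ⟨Sum.inr l, rfl⟩))
      · obtain ⟨β', rfl⟩ := hrepC z hz
        rw [gl_apply, hgl]
        exact Submodule.sum_mem _ (fun j _ => Submodule.smul_mem _ _
          (hrec y _ (hTle y) (hTle y (hSgT y (hR2sp y hy2 hy0))) j))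
  obtain ⟨ι, sel, hsel, hselsp, hselind⟩ :=
    exists_linearIndependent' K (fun i => grad (fam1 i) y)
  haveI : Fintype ι := Fintype.ofInjective sel hsel
  have hcardι : Fintype.card ι = R := by
    have h1 := finrank_span_eq_card hselind
    rw [hselsp, hspany, hrank y hyY hy0] at h1
    exact h1.symm
  obtain ⟨W', hW'⟩ := exists_mdet (fun i => fam1 (sel i)) y hselind
  obtain ⟨i0, hi0⟩ := Function.ne_iff.1 hv00
  have h1 : mdet (fun i => fam1 (sel i)) W' ∉ R1 := by
    intro hmem
    have := hy1 _ hmem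
    rw [hW'] at this
    exact one_ne_zero this
  have h2 : mdet G W ∉ R1 := by
    intro hmem
    have := hv0R _ hmem
    rw [hW] at this
    exact one_ne_zero this
  have h3 : (X i0 : MvPolynomial τ K) ∉ R1 := by
    intro hmem
    have := hv0R _ hmem
    rw [eval_X] at this
    exact hi0 this
  have h3' : DZ ∉ R1 := fun hmem => hDZ (hv0R _ hmem)
  have hex : ∃ v ∈ cone R1,
      eval v (mdet (fun i => fam1 (sel i)) W' * mdet G W * X i0 * DZ) ≠ 0 := by
    by_contra hcon
    push Not at hcon
    rcases hR1.mem_or_mem (mem_of_vanish R1 hR1 _ hcon) with h5 | h5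
    · rcases hR1.mem_or_mem h5 with h5 | h5
      · rcases hR1.mem_or_mem h5 with h6 | h6
        · exact h1 h6
        · exact h2 h6
      · exact h3 h5
    · exact h3' h5
  obtain ⟨v, hv, hvne⟩ := hex
  rw [map_mul] at hvne
  have hDZv := right_ne_zero_of_mul hvne
  replace hvne := left_ne_zero_of_mul hvne
  rw [map_mul, map_mul, eval_X] at hvne
  have hv0' : v ≠ 0 := by
    rintro rfl
    exact right_ne_zero_of_mul hvne rfl
  have hli := ind_of_mdet _ W' v (left_ne_zero_of_mul (left_ne_zero_of_mul hvne))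
  have hk := hkey v hv hv0' hDZv (right_ne_zero_of_mul (left_ne_zero_of_mul hvne))
  let γ : ι → Submodule.span K (Set.range fun i => grad (T i) v) := fun i =>
    ⟨grad (fam1 (sel i)) v, by
      rcases hsi : sel i with t | l
      · exact Submodule.subset_span ⟨t, rfl⟩
      · exact hk l⟩
  have h4 : LinearIndependent K γ :=
    LinearIndependent.of_comp (Submodule.span K (Set.range fun i => grad (T i) v)).subtype hli
  have h5 := h4.fintype_card_le_finrank
  have h6 := finrank_range_le_card (R := K) (fun i => grad (T i) v)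
  rw [Set.finrank] at h6
  omega

end Pool.Agent.Run7.h399

/-!
# Varieties of lines whose order of contact jumps along a small subset only
-/

namespace Pool.Agent.Run7.h399

open MvPolynomial Pool.Agent.Run7.h399.Hart Pool.Agent.R948

variable {σ τ : Type} [Fintype σ] [DecidableEq σ] [Fintype τ] [DecidableEq τ]
  {K : Type} [Field K]

/-- a large subvariety that avoids a small one -/
theorem exists_avoid [IsAlgClosed K] (Y : Ideal (MvPolynomial τ K)) [hY : Y.IsPrime]
    (hYm : Hm Y) (s : ℕ) (Z : Ideal (MvPolynomial τ K)) (hZ : Hm Z)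
    (hZd : ∀ (P : Ideal (MvPolynomial τ K)) [P.IsPrime], P ∈ Z.minimalPrimes → tdP P ≤ s) :
    ∃ (P : Ideal (MvPolynomial τ K)) (_ : P.IsPrime), Hm P ∧ Y ≤ P ∧ tdP Y ≤ tdP P + s ∧
      ∀ v ∈ cone P, v ∈ cone Z → v = 0 := by
  classical
  haveI := IsAlgClosed.instInfinite (K := K)
  obtain ⟨ls, hls, hv⟩ := cut_down s Z hZ hZd
  subst hls
  have h0 : Y ≤ mx 0 := le_mx_zero hY.ne_top hYm
  obtain ⟨P, hP, -, hmin, hle⟩ := exists_cut Y (mx 0) hY (mx_prime 0) h0
    (fun i : Fin ls.length => lin (ls.get i)) (fun i => by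
      rw [mem_mx, eval_lin]
      exact map_zero _)
  refine ⟨P, hP, ?_, le_sup_left.trans hmin.1.2, hle, fun v hvP hvZ => ?_⟩
  · refine Hm.minimal (Hm.sup hYm (hm_span ?_)) hmin
    rintro _ ⟨i, rfl⟩
    exact ⟨1, lin_homog _⟩
  · apply hv v hvZ
    intro a ha
    obtain ⟨i, rfl⟩ := List.get_of_mem ha
    have h1 := hvP _ (hmin.1.2 (Ideal.mem_sup_right (Ideal.subset_span ⟨i, rfl⟩)))
    rwa [eval_lin] at h1

/-- **Choice of the equations level by level** along a subvariety. -/
theorem uniform_levels2 [IsAlgClosed K] [CharZero K] {I : Ideal (MvPolynomial σ K)} {c r : ℕ}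
    {x : σ → K} {A : (τ → K) →ₗ[K] (σ → K)} (h : FreePt I c x A) (hnd : Nondeg I)
    (Y : Ideal (MvPolynomial τ K)) [hY : Y.IsPrime] (hYmin : Y ∈ (linesI I x A).minimalPrimes)
    (hYdim : tdP Y + r = Fintype.card τ) (P : Ideal (MvPolynomial τ K)) [hP : P.IsPrime]
    (hPm : Hm P) (hYP : Y ≤ P) (DZ : MvPolynomial τ K) (v0 : τ → K) (hv0 : v0 ∈ cone P)
    (hv00 : v0 ≠ 0) (hDZ : eval v0 DZ ≠ 0) (hn : c + 2 * r ≤ Fintype.card τ)
    (hn2 : Fintype.card τ + c < tdP Y + tdP P)
    (F : Fin c → MvPolynomial σ K) (hF : ∀ i, F i ∈ I)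
    (hind : LinearIndependent K (fun i => grad (F i) x))
    (hFs : ∀ ξ ∈ conormal I x, ∃ a : Fin c → K, ξ = ∑ i, a i • grad (F i) x)
    (rk : ℕ → ℕ) (hrk : ∀ k, ∀ v ∈ cone P, v ≠ 0 →
      Module.finrank K (conormal (ordI I x A k) v) = rk k)
    (hrkY : ∀ k, ∀ v ∈ cone Y, v ≠ 0 → eval v DZ ≠ 0 →
      Module.finrank K (conormal (ordI I x A k) v) = rk k) :
    ∀ k, ∃ (ι : Type) (_ : Fintype ι) (_ : DecidableEq ι) (G : ι → MvPolynomial τ K)
      (dG : ι → ℕ), (∀ i, (G i).IsHomogeneous (dG i)) ∧ (∀ i, 3 ≤ dG i ∧ dG i ≤ k + 2) ∧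
      (∀ i, G i ∈ ordI I x A (k + 2)) ∧
      (∀ v ∈ cone P, v ≠ 0 → LinearIndependent K
        (Sum.elim (fun i => grad ((lexp x A (F i)).coeff 2) v) (fun i => grad (G i) v))) ∧
      c + Fintype.card ι = rk (k + 2) := by
  classical
  have hYh : Hm Y := Hm.minimal (linesI_homog I x A) hYmin
  have hPY : ∀ v ∈ cone P, v ∈ cone Y := fun v hv f hf => hv f (hYP hf)
  intro k
  induction k with
  | zero =>
    refine ⟨Fin 0, inferInstance, inferInstance, fun i => 0, fun i => 3, fun i => i.elim0,
      fun i => i.elim0, fun i => i.elim0, ?_, ?_⟩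
    · intro v hv hvne
      apply li_elim _ _ (quads_indep h hnd Y hYmin hYdim hn F hF hind v (hPY v hv) hvne)
      intro β _
      funext i
      exact i.elim0
    · rw [Fintype.card_fin, add_zero, zero_add, ← hrk 2 v0 hv0 hv00]
      exact (rank_two h hnd Y hYmin hYdim hn F hF hind hFs v0 (hPY v0 hv0) hv00).symm
  | succ k ih =>
    obtain ⟨ι, hι1, hι2, G, dG, hG, hdG, hGJ, hGind, hcard⟩ := ih
    set Q : Fin c → MvPolynomial τ K := fun i => (lexp x A (F i)).coeff 2 with hQ
    set g : Fin c ⊕ ι → MvPolynomial τ K := Sum.elim Q G with hg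
    have hgv : ∀ v, (fun i => grad (g i) v) =
        Sum.elim (fun i => grad (Q i) v) (fun i => grad (G i) v) := by
      intro v
      funext i
      rcases i with i | i <;> rfl
    obtain ⟨e, a, hcard2, hli⟩ := const_flag2 (J := ordI I x A (k + 1 + 2)) hYh hPm hYP DZ
      (hrk (k + 1 + 2)) (hrkY (k + 1 + 2)) g (Sum.elim (fun _ => 2) dG) (by
        rintro (i | i)
        · exact lexp_coeff_homog x A (F i) 2
        · exact hG i) (by
        rintro (i | i)
        · exact coeff_mem_ordI x A (hF i) (by omega)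
        · have h1 : ordI I x A (k + 2) ≤ ordI I x A (k + 1 + 2) := by
            apply Ideal.span_mono
            rintro g ⟨f, hf, j, hj, rfl⟩
            exact ⟨f, hf, j, by omega, rfl⟩
          exact h1 (hGJ i)) (by
        intro v hv hvne
        rw [hgv]
        exact hGind v hv hvne) (fun i => (lexp x A (F i)).coeff (k + 1 + 2)) (k + 1 + 2)
      (fun i => lexp_coeff_homog x A (F i) _) (fun i => coeff_mem_ordI x A (hF i) le_rfl) (by
        intro v hv hvne
        have hvJ : v ∈ cone (linesI I x A) := fun f hf => hPY v hv f (hYmin.1.2 hf)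
        refine (level_span h F hF hFs v hvJ hvne (k + 2)).trans (sup_le_sup ?_ ?_)
        · apply le_of_eq
          symm
          apply Submodule.eq_of_le_of_finrank_eq
          · rw [Submodule.span_le]
            rintro _ ⟨i | i, rfl⟩
            · exact grad_mem _ v (coeff_mem_ordI x A (hF i) (by omega))
            · exact grad_mem _ v (hGJ i)
          · have h1 : LinearIndependent K (fun i => grad (g i) v) := by
              rw [hgv]
              exact hGind v hv hvne
            rw [finrank_span_eq_card h1, Fintype.card_sum, Fintype.card_fin, hcard,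
              hrk (k + 2) v hv hvne]
        · exact le_rfl) hn2 v0 hv0 hv00 hDZ
    refine ⟨ι ⊕ Fin e, inferInstance, inferInstance,
      Sum.elim G (fun j => cmb (fun i => (lexp x A (F i)).coeff (k + 1 + 2)) (a j)),
      Sum.elim dG (fun _ => k + 1 + 2), ?_, ?_, ?_, ?_, ?_⟩
    · rintro (i | j)
      · exact hG i
      · exact cmb_homog _ _ (fun i => lexp_coeff_homog x A (F i) _) _
    · rintro (i | j)
      · have := hdG i
        simp only [Sum.elim_inl]
        omega
      · simp only [Sum.elim_inr]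
        omega
    · rintro (i | j)
      · have h1 : ordI I x A (k + 2) ≤ ordI I x A (k + 1 + 2) := by
          apply Ideal.span_mono
          rintro g ⟨f, hf, j, hj, rfl⟩
          exact ⟨f, hf, j, by omega, rfl⟩
        exact h1 (hGJ i)
      · exact cmb_mem _ (fun i => coeff_mem_ordI x A (hF i) le_rfl) _
    · intro v hv hvne
      have h1 := hli v hv hvne
      have h2 := h1.comp _ (Equiv.sumAssoc (Fin c) ι (Fin e)).symm.injective
      have h3 : (Sum.elim (fun i => grad (g i) v)
          (fun j => grad (cmb (fun i => (lexp x A (F i)).coeff (k + 1 + 2)) (a j)) v)) ∘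
          (Equiv.sumAssoc (Fin c) ι (Fin e)).symm =
          Sum.elim (fun i => grad ((lexp x A (F i)).coeff 2) v) (fun i => grad ((Sum.elim G
            (fun j => cmb (fun i => (lexp x A (F i)).coeff (k + 1 + 2)) (a j)) :
              ι ⊕ Fin e → MvPolynomial τ K) i) v) := by
        funext i
        rcases i with i | i | i <;> rfl
      rw [h3] at h2
      exact h2
    · rw [Fintype.card_sum, Fintype.card_fin, ← add_assoc]
      rw [Fintype.card_sum, Fintype.card_fin] at hcard2
      exact hcard2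

/-- closing with quadrics and further forms, independent along a subvariety -/
theorem close_sum2 [IsAlgClosed K] [CharZero K] {I : Ideal (MvPolynomial σ K)} {c r : ℕ}
    {x : σ → K} {A : (τ → K) →ₗ[K] (σ → K)} (h : FreePt I c x A)
    (Y : Ideal (MvPolynomial τ K)) [hY : Y.IsPrime] (hYmin : Y ∈ (linesI I x A).minimalPrimes)
    (hYdim : tdP Y + r = Fintype.card τ) (P : Ideal (MvPolynomial τ K)) [hP : P.IsPrime]
    (hPm : Hm P) (hYP : Y ≤ P) (hlt : r < tdP P)
    (F : Fin c → MvPolynomial σ K) (hF : ∀ i, F i ∈ I)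
    {ι : Type} [Fintype ι] [DecidableEq ι] (G : ι → MvPolynomial τ K) (dG : ι → ℕ)
    (hG : ∀ i, (G i).IsHomogeneous (dG i)) (hd : ∀ i, 0 < dG i) (hGJ : ∀ i, G i ∈ linesI I x A)
    (hind : ∀ v ∈ cone P, v ≠ 0 → LinearIndependent K
        (Sum.elim (fun i => grad ((lexp x A (F i)).coeff 2) v) (fun i => grad (G i) v)))
    (hcard : c + Fintype.card ι = r) :
    (linesI I x A = Ideal.span (Set.range (fun i => (lexp x A (F i)).coeff 2) ∪ Set.range G)) ∧
      ∀ g : MvPolynomial τ K, (∀ i, ∃ k : ℕ, X i ^ k * g ∈ linesI I x A) →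
        g ∈ linesI I x A := by
  let e : Fin c ⊕ ι ≃ Fin r := Fintype.equivFinOfCardEq (by
    rw [Fintype.card_sum, Fintype.card_fin]; exact hcard)
  let g : Fin c ⊕ ι → MvPolynomial τ K := Sum.elim (fun i => (lexp x A (F i)).coeff 2) G
  obtain ⟨h1, h2⟩ := lines_close' h Y hYmin hYdim P hPm hYP hlt (fun i => g (e.symm i))
    (fun i => Sum.elim (fun _ => 2) dG (e.symm i)) (by
      intro i
      rcases hi : e.symm i with j | j
      · exact lexp_coeff_homog x A (F j) 2
      · exact hG j) (by
      intro i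
      rcases hi : e.symm i with j | j
      · exact two_pos
      · exact hd j) (by
      intro i
      rcases hi : e.symm i with j | j
      · exact Ideal.subset_span ⟨F j, hF j, 2, rfl⟩
      · exact hGJ j) (by
      intro v hv hvne
      have h1 := (hind v hv hvne).comp _ e.symm.injective
      have h3 : (Sum.elim (fun i => grad ((lexp x A (F i)).coeff 2) v)
          (fun i => grad (G i) v)) ∘ e.symm = fun i => grad (g (e.symm i)) v := by
        funext i
        simp only [Function.comp_apply, g]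
        rcases e.symm i with j | j <;> rfl
      rw [h3] at h1
      exact h1)
  refine ⟨?_, h2⟩
  rw [h1]
  congr 1
  ext f
  constructor
  · rintro ⟨i, rfl⟩
    rcases hi : e.symm i with j | j
    · left
      exact ⟨j, by simp only [hi, g, Sum.elim_inl]⟩
    · right
      exact ⟨j, by simp only [hi, g, Sum.elim_inr]⟩
  · rintro (⟨j, rfl⟩ | ⟨j, rfl⟩)
    · exact ⟨e (Sum.inl j), by simp only [Equiv.symm_apply_apply, g, Sum.elim_inl]⟩
    · exact ⟨e (Sum.inr j), by simp only [Equiv.symm_apply_apply, g, Sum.elim_inr]⟩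

/-- **Order of contact constant outside a small subset.** -/
theorem main_jump [IsAlgClosed K] [CharZero K] {I : Ideal (MvPolynomial σ K)} {c r s : ℕ}
    {x : σ → K} {A : (τ → K) →ₗ[K] (σ → K)} (h : FreePt I c x A) (hnd : Nondeg I)
    (Y : Ideal (MvPolynomial τ K)) [hY : Y.IsPrime] (hYmin : Y ∈ (linesI I x A).minimalPrimes)
    (hYdim : tdP Y + r = Fintype.card τ) (hn : c + 2 * r + s < Fintype.card τ)
    (Z : Ideal (MvPolynomial τ K)) (hZ : Hm Z)
    (hZd : ∀ (P : Ideal (MvPolynomial τ K)) [P.IsPrime], P ∈ Z.minimalPrimes → tdP P ≤ s)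
    (hrk : ∀ k, ∀ v ∈ cone Y, ∀ w ∈ cone Y, v ≠ 0 → w ≠ 0 → v ∉ cone Z → w ∉ cone Z →
      Module.finrank K (conormal (ordI I x A k) v) =
        Module.finrank K (conormal (ordI I x A k) w)) :
    ∃ (Q : Fin c → MvPolynomial τ K) (G : Fin (r - c) → MvPolynomial τ K),
      (∀ i, (Q i).IsHomogeneous 2) ∧ (∀ i, ∃ d, 3 ≤ d ∧ (G i).IsHomogeneous d) ∧
      linesI I x A = Ideal.span (Set.range Q ∪ Set.range G) ∧
      ∀ g : MvPolynomial τ K, (∀ i, ∃ k : ℕ, X i ^ k * g ∈ linesI I x A) → g ∈ linesI I x A := by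
  classical
  haveI := IsAlgClosed.instInfinite (K := K)
  obtain ⟨F, hF, hind, hFs⟩ := exists_grads h.sc x h.mem h.ne
  have hYh : Hm Y := Hm.minimal (linesI_homog I x A) hYmin
  obtain ⟨P, hP, hPm, hYP, hPd, hPZ⟩ := exists_avoid Y hYh s Z hZ hZd
  have hPY : ∀ v ∈ cone P, v ∈ cone Y := fun v hv f hf => hv f (hYP hf)
  obtain ⟨v0, hv0, hv00⟩ := exists_ne_cone P (by omega)
  have hv0J : v0 ∈ cone (linesI I x A) := fun g hg => hPY v0 hv0 g (hYmin.1.2 hg)
  have hv0Z : v0 ∉ cone Z := fun hmem => hv00 (hPZ v0 hv0 hmem)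
  obtain ⟨DZ, hDZ, hDZ0⟩ : ∃ DZ ∈ Z, eval v0 DZ ≠ 0 := by
    by_contra hcon
    push Not at hcon
    exact hv0Z hcon
  obtain ⟨ι, hι1, hι2, G, dG, hG, hdG, hGJ, hGind, hcard⟩ := uniform_levels2 h hnd Y hYmin hYdim
    P hPm hYP DZ v0 hv0 hv00 hDZ0 (by omega) (by omega) F hF hind hFs
    (fun k => Module.finrank K (conormal (ordI I x A k) v0))
    (fun k v hv hvne => hrk k v (hPY v hv) v0 (hPY v0 hv0) hvne hv00
      (fun hmem => hvne (hPZ v hv hmem)) hv0Z)
    (fun k v hv hvne hDv => hrk k v hv v0 (hPY v0 hv0) hvne hv00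
      (fun hmem => hDv (hmem DZ hDZ)) hv0Z) (∑ i, (F i).totalDegree)
  have hr : c + Fintype.card ι = r := by
    rw [hcard, ← level_stable h F hF hFs _ (fun i => ?_) v0 hv0J hv00,
      rank_lines h Y hYmin hYdim v0 (hPY v0 hv0) hv00]
    exact (Finset.single_le_sum (f := fun i => (F i).totalDegree) (fun _ _ => Nat.zero_le _)
      (Finset.mem_univ i)).trans (by omega)
  obtain ⟨h1, h2⟩ := close_sum2 h Y hYmin hYdim P hPm hYP (by omega) F hF G dG hG
    (fun i => by have := (hdG i).1; omega) (fun i => ordI_le I x A _ (hGJ i)) hGind hr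
  let e : ι ≃ Fin (r - c) := Fintype.equivFinOfCardEq (by omega)
  refine ⟨fun i => (lexp x A (F i)).coeff 2, fun i => G (e.symm i),
    fun i => lexp_coeff_homog x A (F i) 2, fun i => ⟨_, (hdG _).1, hG _⟩, ?_, h2⟩
  have h3 : (Set.range fun i => G (e.symm i)) = Set.range G := e.symm.surjective.range_comp G
  rw [h3]
  exact h1

lemma ordI_mono (I : Ideal (MvPolynomial σ K)) (x : σ → K) (A : (τ → K) →ₗ[K] (σ → K))
    {j k : ℕ} (hjk : j ≤ k) : ordI I x A j ≤ ordI I x A k := by
  apply Ideal.span_mono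
  rintro g ⟨f, hf, l, hl, rfl⟩
  exact ⟨f, hf, l, hl.trans hjk, rfl⟩

/-- homogeneous components of low degree of the ideal of lines are in the ideals of lines of low
contact -/
lemma hc_mem_ordI (I : Ideal (MvPolynomial σ K)) (x : σ → K) (A : (τ → K) →ₗ[K] (σ → K))
    (f : MvPolynomial τ K) (hf : f ∈ linesI I x A) :
    ∀ d, homogeneousComponent d f ∈ ordI I x A d := by
  refine Submodule.span_induction ?_ ?_ ?_ ?_ hf
  · rintro _ ⟨f, hf, j, rfl⟩ d
    rw [homogeneousComponent_of_mem (lexp_coeff_homog x A f j)]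
    split_ifs with h1
    · exact coeff_mem_ordI x A hf (by omega)
    · exact Ideal.zero_mem _
  · intro d
    rw [map_zero]
    exact Ideal.zero_mem _
  · intro a b _ _ ha hb d
    rw [map_add]
    exact Ideal.add_mem _ (ha d) (hb d)
  · intro a b _ hb d
    rw [smul_eq_mul, ← sum_homogeneousComponent b, Finset.mul_sum, map_sum]
    refine Ideal.sum_mem _ (fun j _ => ?_)
    rcases Nat.lt_or_ge d j with h1 | h1
    · rw [hc_mul_lt (homogeneousComponent_isHomogeneous j b) a d h1]
      exact Ideal.zero_mem _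
    · obtain ⟨k, rfl⟩ := Nat.exists_eq_add_of_le h1
      rw [hc_mul_ge (homogeneousComponent_isHomogeneous j b)]
      exact Ideal.mul_mem_left _ _ (ordI_mono I x A h1 (hb j))

/-- **The order of contact is constant for complete intersections.** -/
theorem uniform_of_ci [IsAlgClosed K] [CharZero K] {I : Ideal (MvPolynomial σ K)} {c r : ℕ}
    {x : σ → K} {A : (τ → K) →ₗ[K] (σ → K)} (h : FreePt I c x A)
    (hdim : ∀ (Y : Ideal (MvPolynomial τ K)) [Y.IsPrime], Y ∈ (linesI I x A).minimalPrimes →
      tdP Y + r ≤ Fintype.card τ)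
    (G : Fin r → MvPolynomial τ K) (p : Fin r → ℕ) (hG : ∀ i, (G i).IsHomogeneous (p i))
    (hJ : linesI I x A = Ideal.span (Set.range G)) (k : ℕ) (v : τ → K)
    (hv : v ∈ cone (linesI I x A)) (hv0 : v ≠ 0) :
    Module.finrank K (conormal (ordI I x A k) v) = (Finset.univ.filter (fun i => p i ≤ k)).card := by
  classical
  haveI := IsAlgClosed.instInfinite (K := K)
  have hGv : ∀ i, eval v (G i) = 0 := by
    intro i
    apply hv
    rw [hJ]
    exact Ideal.subset_span ⟨i, rfl⟩
  have hGJ : ∀ i, G i ∈ linesI I x A := by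
    intro i
    rw [hJ]
    exact Ideal.subset_span ⟨i, rfl⟩
  -- the differentials of the generators are independent
  have hind : LinearIndependent K (fun i => grad (G i) v) := by
    have h1 : linesI I x A ≤ mx v := fun f hf => (mem_mx v f).2 (hv f hf)
    haveI := mx_prime v
    obtain ⟨Y, hY, hYv⟩ := Ideal.exists_minimalPrimes_le h1
    haveI := hY.1.1
    have hvY : v ∈ cone Y := fun f hf => (mem_mx v f).1 (hYv hf)
    have h2 := tdP_eq_of_arcs hv (arcs_lines h v hv hv0) Y hY hvY
    have h3 := hdim Y hY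
    have h4 : conormal (linesI I x A) v ≤
        Submodule.span K (Set.range fun i => grad (G i) v) := by
      rw [hJ]
      apply conormal_span_le
      · rw [← hJ]
        exact hv
      · rintro _ ⟨i, rfl⟩
        exact Submodule.subset_span ⟨i, rfl⟩
    have h5 := Submodule.finrank_mono h4
    rw [linearIndependent_iff_card_le_finrank_span, Fintype.card_fin, Set.finrank]
    omega
  have h1 : conormal (ordI I x A k) v =
      Submodule.span K (Set.range fun i : {i // p i ≤ k} => grad (G i) v) := by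
    apply le_antisymm
    · apply conormal_span_le
      · intro g hg
        exact hv g (ordI_le I x A k hg)
      rintro _ ⟨f, hf, j, hj, rfl⟩
      have h2 := low_grad G p hG v hGv ((lexp x A f).coeff j) (by
        rw [← hJ]
        exact Ideal.subset_span ⟨f, hf, j, rfl⟩) j
      rw [homogeneousComponent_of_mem (lexp_coeff_homog x A f j), if_pos rfl] at h2
      refine Submodule.span_mono ?_ h2
      rintro _ ⟨i, hi, rfl⟩
      have hi' : p i ≤ j := hi
      exact ⟨⟨i, hi'.trans hj⟩, rfl⟩
    · rw [Submodule.span_le]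
      rintro _ ⟨i, rfl⟩
      apply grad_mem
      have h2 := hc_mem_ordI I x A (G i) (hGJ i) (p i)
      rw [homogeneousComponent_of_mem (hG i), if_pos rfl] at h2
      exact ordI_mono I x A i.2 h2
  have h2 : LinearIndependent K (fun i : {i // p i ≤ k} => grad (G i) v) :=
    hind.comp _ Subtype.val_injective
  rw [h1, finrank_span_eq_card h2, Fintype.card_subtype]

end Pool.Agent.Run7.h399
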