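import Pool.Agent.Run7.h399.G4
import Pool.Agent.Run7.h399.G6
import Pool.Agent.Run7.h399.Defs4
import Pool.Agent.Run7.h399.Defs8

/-!
# The degrees of the generators of the ideal of a variety of lines
-/

set_option autoImplicit false
set_option linter.unusedSectionVars false
set_option linter.style.haveILetI false

namespace Pool.Agent.Run7.h399

open MvPolynomial Pool.Agent.Run7.h399.Hart Pool.Agent.R948

variable {σ τ : Type} [Fintype σ] [DecidableEq σ] [Fintype τ] [DecidableEq τ]
  {K : Type} [Field K]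

/-- dependence persists in the next degree -/
theorem dead_next [IsAlgClosed K] {I : Ideal (MvPolynomial σ K)} {c : ℕ} {x : σ → K}
    {A : (τ → K) →ₗ[K] (σ → K)} (h : FreePt I c x A) (v : τ → K)
    (hv : v ∈ cone (linesI I x A)) (hv0 : v ≠ 0) (k : ℕ) (f : MvPolynomial σ K) (hf : f ∈ I)
    (hd : grad ((lexp x A f).coeff (k + 2)) v ∈ conormal (ordI I x A (k + 1)) v) :
    grad ((lexp x A f).coeff (k + 3)) v ∈ conormal (ordI I x A (k + 2)) v := by
  haveI := IsAlgClosed.instInfinite (K := K)
  rw [mem_iff_orth] at hd ⊢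
  intro u' hu'
  have hfl := h.freeLine v hv hv0
  have hzero : ∀ (f : MvPolynomial σ K) (w : σ → K),
      (dl x (A v) f (cv w)).coeff 0 = dotB σ K (grad f x) w := by
    intro f w
    rw [Polynomial.coeff_zero_eq_eval_zero, dl_eval, zero_smul, add_zero]
    have h2 : (fun i => (cv w i).eval 0) = w := at0_cv w
    rw [h2]
  have hc1 : ∀ f' ∈ I, ∀ l, l < k + 2 → (dl x (A v) f' (cv (A u'))).coeff l = 0 := by
    intro f' hf' l hl
    rw [← grad_lexp]
    exact hu' _ (grad_mem _ v (coeff_mem_ordI x A hf' (by omega)))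
  obtain ⟨w2, hw2⟩ := hfl.free (A u') (h.tan u')
  have hdl : ∀ f ∈ I, ∀ l, (dl x (A v) f (cv (A u'))).coeff (l + 1) =
      - (dl x (A v) f (cv w2)).coeff l := by
    intro f hf l
    have h1 : dl x (A v) f (cv (A u') + (Polynomial.X : Polynomial K) • cv w2) = 0 := by
      apply Polynomial.funext
      intro t
      rw [dl_eval, Polynomial.eval_zero]
      have h6 : (fun i => ((cv (A u') + (Polynomial.X : Polynomial K) • cv w2) i).eval t) =
          A u' + t • w2 := by
        funext i
        simp [cv]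
        ring
      rw [h6]
      exact (mem_tangent I _ _).1 (hw2 t) f hf
    rw [dl_add, dl_smul] at h1
    rw [eq_neg_of_add_eq_zero_left h1, Polynomial.coeff_neg, Polynomial.coeff_X_mul]
  have hw2t : w2 ∈ tangent I x := by
    rw [mem_tangent]
    intro f' hf'
    rw [← hzero]
    have h1 := hdl f' hf' 0
    rw [hc1 f' hf' (0 + 1) (by omega)] at h1
    exact neg_eq_zero.1 h1.symm
  obtain ⟨α, u'', hu''⟩ := h.tan' w2 hw2t
  have hdu : ∀ f ∈ I, dl x (A v) f (cv (A u'')) = dl x (A v) f (cv w2) := by
    intro f hf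
    rw [hu'', cv_add, cv_smul, dl_add, dl_smul, dl_base hfl f hf, mul_zero, zero_add]
  have hkey := hd u'' (by
    have h1 : conormal (ordI I x A (k + 1)) v ≤
        (dotB τ K).orthogonal (Submodule.span K {u''}) := by
      apply conormal_span_le
      · intro g hg
        exact hv g (ordI_le I x A _ hg)
      rintro _ ⟨f', hf', j, hj, rfl⟩
      rw [LinearMap.BilinForm.mem_orthogonal_iff]
      intro z hz
      obtain ⟨a, rfl⟩ := Submodule.mem_span_singleton.1 hz
      show dotB τ K (a • u'') _ = 0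
      rw [map_smul, LinearMap.smul_apply, dotB_comm]
      rcases j with _ | j
      · rw [grad_coeff_zero A (h.mem _ hf'), map_zero, LinearMap.zero_apply, smul_zero]
      · rw [grad_lexp, hdu f' hf']
        have h2 := hdl f' hf' j
        rw [hc1 f' hf' (j + 1) (by omega)] at h2
        rw [neg_eq_zero.1 h2.symm, smul_zero]
    intro η hη
    have h2 := LinearMap.BilinForm.mem_orthogonal_iff.1 (h1 hη) u''
      (Submodule.mem_span_singleton_self u'')
    have h3 : dotB τ K u'' η = 0 := h2
    rwa [dotB_comm] at h3)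
  have h1 : k + 3 = (k + 2) + 1 := rfl
  rw [h1, grad_lexp, hdl f hf (k + 1)]
  rw [grad_lexp, hdu f hf] at hkey
  rw [hkey, neg_zero]

/-- the number of new equations in a level -/
lemma level_rank [IsAlgClosed K] {I : Ideal (MvPolynomial σ K)} {c : ℕ} {x : σ → K}
    {A : (τ → K) →ₗ[K] (σ → K)} (h : FreePt I c x A)
    (F : Fin c → MvPolynomial σ K) (hF : ∀ i, F i ∈ I)
    (hFs : ∀ ξ ∈ conormal I x, ∃ a : Fin c → K, ξ = ∑ i, a i • grad (F i) x)
    (v : τ → K) (hv : v ∈ cone (linesI I x A)) (hv0 : v ≠ 0) (k : ℕ) :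
    Module.finrank K (conormal (ordI I x A (k + 1)) v) +
      Module.finrank K ((conormal (ordI I x A k) v).comap
        (gl (fun i => (lexp x A (F i)).coeff (k + 1)) v)) =
      Module.finrank K (conormal (ordI I x A k) v) + c := by
  classical
  set N := conormal (ordI I x A k) v with hN
  set N' := conormal (ordI I x A (k + 1)) v with hN'
  have hNN' : N ≤ N' := conormal_mono (ordI_mono I x A (Nat.le_succ k)) v
  have hgl : ∀ a, gl (fun i => (lexp x A (F i)).coeff (k + 1)) v a ∈ N' := by
    intro a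
    rw [gl_apply]
    exact grad_mem _ v (cmb_mem _ (fun i => coeff_mem_ordI x A (hF i) le_rfl) a)
  let φ : (Fin c → K) →ₗ[K] (N' ⧸ N.comap N'.subtype) :=
    (N.comap N'.subtype).mkQ.comp (LinearMap.codRestrict N'
      (gl (fun i => (lexp x A (F i)).coeff (k + 1)) v) hgl)
  have hker : LinearMap.ker φ = N.comap (gl (fun i => (lexp x A (F i)).coeff (k + 1)) v) := by
    ext a
    rw [LinearMap.mem_ker, LinearMap.comp_apply, Submodule.mkQ_apply, Submodule.Quotient.mk_eq_zero,
      Submodule.mem_comap, Submodule.mem_comap]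
    rfl
  have hsurj : LinearMap.range φ = ⊤ := by
    rw [eq_top_iff]
    rintro z -
    obtain ⟨⟨ξ, hξ⟩, rfl⟩ := Submodule.mkQ_surjective _ z
    have h1 := level_span h F hF hFs v hv hv0 k hξ
    obtain ⟨y, hy, w, hw, hyw⟩ := Submodule.mem_sup.1 h1
    rw [Submodule.mem_span_range_iff_exists_fun] at hw
    obtain ⟨a, ha⟩ := hw
    refine ⟨a, ?_⟩
    show (N.comap N'.subtype).mkQ _ = (N.comap N'.subtype).mkQ _
    rw [Submodule.mkQ_apply, Submodule.mkQ_apply, Submodule.Quotient.eq, Submodule.mem_comap,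
      map_sub]
    show gl (fun i => (lexp x A (F i)).coeff (k + 1)) v a - ξ ∈ N
    rw [gl_apply, grad_cmb, ha, ← hyw]
    have h2 : w - (y + w) = - y := by abel
    rw [h2]
    exact N.neg_mem hy
  have h1 := LinearMap.finrank_range_add_finrank_ker φ
  rw [hsurj, finrank_top, hker, Module.finrank_fintype_fun_eq_card, Fintype.card_fin] at h1
  have h2 := Submodule.finrank_quotient_add_finrank (N.comap N'.subtype)
  have h3 : Module.finrank K (N.comap N'.subtype) = Module.finrank K N :=
    (Submodule.comapSubtypeEquivOfLe hNN').finrank_eq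
  omega

/-- the numbers of new equations do not increase -/
lemma rank_concave [IsAlgClosed K] {I : Ideal (MvPolynomial σ K)} {c : ℕ} {x : σ → K}
    {A : (τ → K) →ₗ[K] (σ → K)} (h : FreePt I c x A)
    (F : Fin c → MvPolynomial σ K) (hF : ∀ i, F i ∈ I)
    (hFs : ∀ ξ ∈ conormal I x, ∃ a : Fin c → K, ξ = ∑ i, a i • grad (F i) x)
    (v : τ → K) (hv : v ∈ cone (linesI I x A)) (hv0 : v ≠ 0) (k : ℕ) :
    Module.finrank K (conormal (ordI I x A (k + 3)) v) +
      Module.finrank K (conormal (ordI I x A (k + 1)) v) ≤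
      2 * Module.finrank K (conormal (ordI I x A (k + 2)) v) := by
  have h1 := level_rank h F hF hFs v hv hv0 (k + 1)
  have h2 := level_rank h F hF hFs v hv hv0 (k + 2)
  have h3 : (conormal (ordI I x A (k + 1)) v).comap
        (gl (fun i => (lexp x A (F i)).coeff (k + 1 + 1)) v) ≤
      (conormal (ordI I x A (k + 2)) v).comap
        (gl (fun i => (lexp x A (F i)).coeff (k + 2 + 1)) v) := by
    intro a ha
    rw [Submodule.mem_comap, gl_apply, grad_cmb] at ha ⊢
    have h4 : ∀ j, ∑ i, a i • grad ((lexp x A (F i)).coeff j) v =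
        grad ((lexp x A (∑ i, C (a i) * F i)).coeff j) v := fun j =>
      (grad_quad_sum x A j F a v).symm
    rw [h4] at ha ⊢
    exact dead_next h v hv hv0 k _ (Ideal.sum_mem _ (fun i _ => I.mul_mem_left _ (hF i))) ha
  have h5 := Submodule.finrank_mono h3
  have e1 : k + 1 + 1 = k + 2 := rfl
  have e2 : k + 2 + 1 = k + 3 := rfl
  rw [e1] at h1 h5
  rw [e2] at h2 h5
  omega

end Pool.Agent.Run7.h399

namespace Pool.Agent.Run7.h399

open MvPolynomial Pool.Agent.Run7.h399.Hart Pool.Agent.R948

section comb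

variable {τ : Type} {K : Type} [Field K]

/-- arrangement of forms whose numbers in the degrees `2, 3, ...` do not increase -/
lemma type_comb {ι : Type} [Fintype ι] (g : ι → MvPolynomial τ K) (p : ι → ℕ)
    (hg : ∀ i, (g i).IsHomogeneous (p i)) (c : ℕ) (h0 : ∀ i, 2 ≤ p i)
    (h2 : (Finset.univ.filter (fun i => p i = 2)).card = c)
    (hanti : ∀ k, 2 ≤ k → (Finset.univ.filter (fun i => p i = k + 1)).card ≤
      (Finset.univ.filter (fun i => p i = k)).card) :
    ∃ d : Fin c → ℕ, (∀ i, 2 ≤ d i) ∧ ∑ i, (d i - 1) = Fintype.card ι ∧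
      (∀ k, 2 ≤ k → (Finset.univ.filter (fun i => k ≤ d i)).card =
        (Finset.univ.filter (fun i => p i = k)).card) ∧
      ∃ G : Fin c → ℕ → MvPolynomial τ K, (∀ i k, (G i k).IsHomogeneous k) ∧
        Ideal.span (Set.range g) = Ideal.span {f | ∃ i k, 2 ≤ k ∧ k ≤ d i ∧ f = G i k} := by
  classical
  set N : ℕ → ℕ := fun k => (Finset.univ.filter (fun i => p i = k)).card with hN
  have hN2 : N 2 = c := h2
  have hmono : ∀ k l, 2 ≤ k → k ≤ l → N l ≤ N k := by
    intro k l hk hkl
    induction l, hkl using Nat.le_induction with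
    | base => exact le_rfl
    | succ l hkl ih => exact (hanti l (hk.trans hkl)).trans ih
  set M := ∑ i, p i with hMdef
  have hpM : ∀ i, p i ≤ M := fun i =>
    Finset.single_le_sum (f := p) (fun _ _ => Nat.zero_le _) (Finset.mem_univ i)
  have hM : ∀ k, M < k → N k = 0 := by
    intro k hk
    rw [hN, Finset.card_eq_zero, Finset.filter_eq_empty_iff]
    intro i _ hi
    have := hpM i
    omega
  let d : Fin c → ℕ := fun i => Nat.findGreatest (fun k => (i : ℕ) < N k) (M + 2)
  have hi2 : ∀ i : Fin c, (i : ℕ) < N 2 := by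
    intro i
    rw [hN2]
    exact i.2
  have hd : ∀ (i : Fin c) k, 2 ≤ k → (k ≤ d i ↔ (i : ℕ) < N k) := by
    intro i k hk
    constructor
    · intro h
      have h3 : (i : ℕ) < N (d i) :=
        Nat.findGreatest_spec (P := fun k => (i : ℕ) < N k) (m := 2) (by omega) (hi2 i)
      exact h3.trans_le (hmono k (d i) hk h)
    · intro h
      by_cases hkM : k ≤ M + 2
      · exact Nat.le_findGreatest hkM h
      · rw [hM k (by omega)] at h
        omega
  have hdM : ∀ i, d i ≤ M + 2 := fun i => Nat.findGreatest_le _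
  have hcount : ∀ k, 2 ≤ k → (Finset.univ.filter (fun i => k ≤ d i)).card = N k := by
    intro k hk
    have h1 : (Finset.univ.filter (fun i => k ≤ d i)) =
        (Finset.univ.filter (fun i : Fin c => (i : ℕ) < N k)) := by
      apply Finset.filter_congr
      intro i _
      exact hd i k hk
    rw [h1, Fin.card_filter_val_lt]
    have := hmono 2 k le_rfl hk
    omega
  have hsub : ∀ k, Fintype.card {i // p i = k} = N k := fun k => Fintype.card_subtype _
  let e : ∀ k, {i // p i = k} ≃ Fin (N k) := fun k => Fintype.equivFinOfCardEq (hsub k)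
  refine ⟨d, fun i => (hd i 2 le_rfl).2 (hi2 i), ?_, hcount,
    fun i k => if h : (i : ℕ) < N k then g ((e k).symm ⟨i, h⟩) else 0, ?_, ?_⟩
  · have h3 : ∀ i, d i - 1 = ∑ k ∈ Finset.Icc 2 (M + 2), if k ≤ d i then 1 else 0 := by
      intro i
      rw [← Finset.sum_filter, Finset.sum_const, smul_eq_mul, mul_one]
      have h4 : (Finset.Icc 2 (M + 2)).filter (fun k => k ≤ d i) = Finset.Icc 2 (d i) := by
        ext k
        have := hdM i
        simp only [Finset.mem_filter, Finset.mem_Icc]
        omega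
      rw [h4, Nat.card_Icc]
      omega
    rw [Finset.sum_congr rfl (fun i _ => h3 i), Finset.sum_comm]
    have h4 : ∀ k ∈ Finset.Icc 2 (M + 2), (∑ i : Fin c, if k ≤ d i then 1 else 0) = N k := by
      intro k hk
      rw [← hcount k (Finset.mem_Icc.1 hk).1, Finset.card_filter]
    rw [Finset.sum_congr rfl h4, ← Finset.card_univ]
    symm
    apply Finset.card_eq_sum_card_fiberwise
    intro i _
    rw [Finset.mem_coe, Finset.mem_Icc]
    have := hpM i
    have := h0 i
    omega
  · intro i k
    by_cases h : (i : ℕ) < N k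
    · dsimp only
      rw [dif_pos h]
      have h3 := hg ((e k).symm ⟨i, h⟩)
      rwa [((e k).symm ⟨i, h⟩).2] at h3
    · dsimp only
      rw [dif_neg h]
      exact isHomogeneous_zero _ _ _
  · congr 1
    ext f
    constructor
    · rintro ⟨j, rfl⟩
      have h3 : ((e (p j) ⟨j, rfl⟩ : Fin (N (p j))) : ℕ) < c :=
        (e (p j) ⟨j, rfl⟩).2.trans_le ((hmono 2 (p j) le_rfl (h0 j)).trans hN2.le)
      refine ⟨⟨(e (p j) ⟨j, rfl⟩ : Fin (N (p j))), h3⟩, p j, h0 j, ?_, ?_⟩
      · rw [hd _ _ (h0 j)]
        exact (e (p j) ⟨j, rfl⟩).2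
      · dsimp only
        rw [dif_pos (e (p j) ⟨j, rfl⟩).2]
        simp
    · rintro ⟨i, k, hk2, hk, rfl⟩
      rw [hd i k hk2] at hk
      dsimp only
      rw [dif_pos hk]
      exact ⟨_, rfl⟩

/-- two sequences with comparable counting functions can be matched -/
lemma match_seq {c : ℕ} (d δ : Fin c → ℕ)
    (h : ∀ k, (Finset.univ.filter (fun i => k ≤ d i)).card ≤
      (Finset.univ.filter (fun i => k ≤ δ i)).card) :
    ∃ s : Equiv.Perm (Fin c), ∀ i, d (s i) ≤ δ i := by
  classical
  refine ⟨(Tuple.sort δ)⁻¹.trans (Tuple.sort d), ?_⟩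
  have hd := Tuple.monotone_sort d
  have hδ := Tuple.monotone_sort δ
  have key : ∀ j : Fin c, d (Tuple.sort d j) ≤ δ (Tuple.sort δ j) := by
    intro j
    by_contra hcon
    push Not at hcon
    have h1 := h (d (Tuple.sort d j))
    have h2 : (Finset.univ.filter (fun i : Fin c => j ≤ i)).card ≤
        (Finset.univ.filter (fun i => d (Tuple.sort d j) ≤ d i)).card := by
      apply Finset.card_le_card_of_injOn (Tuple.sort d)
      · intro i hi
        rw [Finset.mem_coe, Finset.mem_filter] at hi ⊢
        exact ⟨Finset.mem_univ _, hd hi.2⟩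
      · exact (Tuple.sort d).injective.injOn
    have h3 : (Finset.univ.filter (fun i => d (Tuple.sort d j) ≤ δ i)).card ≤
        (Finset.univ.filter (fun i : Fin c => j < i)).card := by
      apply Finset.card_le_card_of_injOn (Tuple.sort δ).symm
      · intro i hi
        rw [Finset.mem_coe, Finset.mem_filter] at hi ⊢
        refine ⟨Finset.mem_univ _, ?_⟩
        by_contra hle
        push Not at hle
        have h4 := hδ hle
        simp only [Function.comp_apply, Equiv.apply_symm_apply] at h4
        have h5 := hi.2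
        omega
      · exact (Tuple.sort δ).symm.injective.injOn
    have h4 : (Finset.univ.filter (fun i : Fin c => j < i)).card <
        (Finset.univ.filter (fun i : Fin c => j ≤ i)).card := by
      apply Finset.card_lt_card
      refine ⟨fun i hi => ?_, fun hsub => ?_⟩
      · rw [Finset.mem_filter] at hi ⊢
        exact ⟨hi.1, hi.2.le⟩
      · have h5 := hsub (Finset.mem_filter.2 ⟨Finset.mem_univ j, le_rfl⟩)
        exact lt_irrefl _ (Finset.mem_filter.1 h5).2
    omega
  intro i
  have h1 := key ((Tuple.sort δ).symm i)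
  rw [Equiv.apply_symm_apply] at h1
  exact h1

end comb

end Pool.Agent.Run7.h399

namespace Pool.Agent.Run7.h399

open MvPolynomial Pool.Agent.Run7.h399.Hart Pool.Agent.R948

variable {σ τ : Type} [Fintype σ] [DecidableEq σ] [Fintype τ] [DecidableEq τ]
  {K : Type} [Field K]

/-- the ranks of the levels when the ideal of lines is generated by forms -/
theorem rank_of_ci {I : Ideal (MvPolynomial σ K)} {x : σ → K}
    {A : (τ → K) →ₗ[K] (σ → K)} {ι : Type} [Fintype ι]
    (G : ι → MvPolynomial τ K) (p : ι → ℕ) (hG : ∀ i, (G i).IsHomogeneous (p i))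
    (hJ : linesI I x A = Ideal.span (Set.range G)) (v : τ → K)
    (hv : v ∈ cone (linesI I x A))
    (hr : Fintype.card ι ≤ Module.finrank K (conormal (linesI I x A) v)) (k : ℕ) :
    Module.finrank K (conormal (ordI I x A k) v) =
      (Finset.univ.filter (fun i => p i ≤ k)).card := by
  classical
  have hGv : ∀ i, eval v (G i) = 0 := by
    intro i
    apply hv
    rw [hJ]
    exact Ideal.subset_span ⟨i, rfl⟩
  have hGJ : ∀ i, G i ∈ linesI I x A := by
    intro i
    rw [hJ]
    exact Ideal.subset_span ⟨i, rfl⟩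
  -- the differentials of the generators are independent
  have hind : LinearIndependent K (fun i => grad (G i) v) := by
    have h4 : conormal (linesI I x A) v ≤
        Submodule.span K (Set.range fun i => grad (G i) v) := by
      rw [hJ]
      apply conormal_span_le
      · rw [← hJ]
        exact hv
      · rintro _ ⟨i, rfl⟩
        exact Submodule.subset_span ⟨i, rfl⟩
    have h5 := Submodule.finrank_mono h4
    rw [linearIndependent_iff_card_le_finrank_span, Set.finrank]
    omega
  have h1 : conormal (ordI I x A k) v =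
      Submodule.span K (Set.range fun i : {i // p i ≤ k} => grad (G i) v) := by
    apply le_antisymm
    · apply conormal_span_le
      · intro g hg
        exact hv g (ordI_le I x A k hg)
      rintro _ ⟨f, hf, j, hj, rfl⟩
      have h2 := low_grad G p hG v hGv ((lexp x A f).coeff j) (by
        rw [← hJ]
        exact Ideal.subset_span ⟨f, hf, j, rfl⟩) j
      rw [homogeneousComponent_of_mem (lexp_coeff_homog x A f j), if_pos rfl] at h2
      refine Submodule.span_mono ?_ h2
      rintro _ ⟨i, hi, rfl⟩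
      have hi' : p i ≤ j := hi
      exact ⟨⟨i, hi'.trans hj⟩, rfl⟩
    · rw [Submodule.span_le]
      rintro _ ⟨i, rfl⟩
      apply grad_mem
      have h2 := hc_mem_ordI I x A (G i) (hGJ i) (p i)
      rw [homogeneousComponent_of_mem (hG i), if_pos rfl] at h2
      exact ordI_mono I x A i.2 h2
  have h2 : LinearIndependent K (fun i : {i // p i ≤ k} => grad (G i) v) :=
    hind.comp _ Subtype.val_injective
  rw [h1, finrank_span_eq_card h2, Fintype.card_subtype]

/-- the equations of low degree give dead directions -/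
lemma dead_low {c : ℕ} (x : σ → K) (A : (τ → K) →ₗ[K] (σ → K))
    (F : Fin c → MvPolynomial σ K) (v : τ → K) (k : ℕ) (W : Submodule K (τ → K)) :
    (Finset.univ.filter (fun i => (F i).totalDegree < k)).card ≤
      Module.finrank K (W.comap (gl (fun i => (lexp x A (F i)).coeff k) v)) := by
  classical
  have h1 : ∀ i : {i // (F i).totalDegree < k}, (Pi.single (i : Fin c) (1 : K) : Fin c → K) ∈
      W.comap (gl (fun i => (lexp x A (F i)).coeff k) v) := by
    rintro ⟨i, hi⟩
    rw [Submodule.mem_comap, gl_single,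
      Polynomial.coeff_eq_zero_of_natDegree_lt (lt_of_le_of_lt (lexp_natDegree x A le_rfl) hi),
      grad_zero]
    exact W.zero_mem
  have h2 : LinearIndependent K (fun i : {i // (F i).totalDegree < k} =>
      (Pi.single (i : Fin c) (1 : K) : Fin c → K)) := by
    have h3 := (Pi.basisFun K (Fin c)).linearIndependent.comp
      (Subtype.val : {i // (F i).totalDegree < k} → Fin c) Subtype.val_injective
    have h4 : (⇑(Pi.basisFun K (Fin c)) ∘ (Subtype.val : {i // (F i).totalDegree < k} → Fin c)) =
        fun i : {i // (F i).totalDegree < k} => (Pi.single (i : Fin c) (1 : K) : Fin c → K) := by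
      funext i
      rw [Function.comp_apply, Pi.basisFun_apply]
    rwa [h4] at h3
  rw [← Fintype.card_subtype, ← finrank_span_eq_card h2]
  apply Submodule.finrank_mono
  rw [Submodule.span_le]
  rintro _ ⟨i, rfl⟩
  exact h1 i

/-- **The type of a variety of lines which is a complete intersection.** -/
theorem type_of_ci [IsAlgClosed K] [CharZero K] {I : Ideal (MvPolynomial σ K)} {c r : ℕ}
    {x : σ → K} {A : (τ → K) →ₗ[K] (σ → K)} (h : FreePt I c x A) (hnd : Nondeg I)
    (Y : Ideal (MvPolynomial τ K)) [hY : Y.IsPrime] (hYmin : Y ∈ (linesI I x A).minimalPrimes)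
    (hYdim : tdP Y + r = Fintype.card τ) (hn : c + 2 * r ≤ Fintype.card τ)
    (hr : r < Fintype.card τ)
    (F : Fin c → MvPolynomial σ K) (hF : ∀ i, F i ∈ I)
    (hind : LinearIndependent K (fun i => grad (F i) x))
    (hFs : ∀ ξ ∈ conormal I x, ∃ a : Fin c → K, ξ = ∑ i, a i • grad (F i) x)
    {ι : Type} [Fintype ι] (G : ι → MvPolynomial τ K) (p : ι → ℕ)
    (hG : ∀ i, (G i).IsHomogeneous (p i)) (hcard : Fintype.card ι = r)
    (hJ : linesI I x A = Ideal.span (Set.range G)) :
    ∃ d : Fin c → ℕ, (∀ i, 2 ≤ d i) ∧ ∑ i, (d i - 1) = r ∧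
      (∀ k, (Finset.univ.filter (fun i => k ≤ d i)).card ≤
        (Finset.univ.filter (fun i => k ≤ (F i).totalDegree)).card) ∧
      ∃ G' : Fin c → ℕ → MvPolynomial τ K, (∀ i k, (G' i k).IsHomogeneous k) ∧
        linesI I x A = Ideal.span {f | ∃ i k, 2 ≤ k ∧ k ≤ d i ∧ f = G' i k} := by
  classical
  haveI := IsAlgClosed.instInfinite (K := K)
  obtain ⟨v, hvY, hv0⟩ := exists_ne_cone Y (by omega)
  have hv : v ∈ cone (linesI I x A) := fun g hg => hvY g (hYmin.1.2 hg)
  have hR0 := rank_of_ci G p hG hJ v hv (by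
    rw [rank_lines h Y hYmin hYdim v hvY hv0, hcard])
  obtain ⟨S, hS⟩ : ∃ S : ℕ → ℕ, ∀ k, S k = (Finset.univ.filter (fun i => p i ≤ k)).card :=
    ⟨_, fun _ => rfl⟩
  obtain ⟨E, hE⟩ : ∃ E : ℕ → ℕ, ∀ k, E k = (Finset.univ.filter (fun i => p i = k)).card :=
    ⟨_, fun _ => rfl⟩
  have hR : ∀ k, Module.finrank K (conormal (ordI I x A k) v) = S k := by
    intro k
    rw [hS]
    convert hR0 k
  -- the ranks and the numbers of generators
  have hstep : ∀ k, S (k + 1) = S k + E (k + 1) := by
    intro k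
    rw [hS, hS, hE, ← Finset.card_union_of_disjoint]
    · congr 1
      ext i
      simp only [Finset.mem_filter, Finset.mem_univ, true_and, Finset.mem_union]
      omega
    · rw [Finset.disjoint_filter]
      intro i _ h1 h2
      omega
  have h1 : S 1 = 0 := by
    rw [← hR 1, conormal_low h v hv 1 le_rfl, finrank_bot]
  have h2 : S 2 = c := by
    rw [← hR 2]
    exact rank_two h hnd Y hYmin hYdim hn F hF hind hFs v hvY hv0
  have hp2 : ∀ i, 2 ≤ p i := by
    intro i
    by_contra hcon
    rw [hS, Finset.card_eq_zero, Finset.filter_eq_empty_iff] at h1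
    exact h1 (Finset.mem_univ i) (by omega)
  have hN2 : E 2 = c := by
    have h3 := hstep 1
    have e1 : 1 + 1 = 2 := rfl
    rw [e1] at h3
    omega
  have hanti : ∀ k, 2 ≤ k → E (k + 1) ≤ E k := by
    intro k hk
    obtain ⟨l, rfl⟩ := Nat.exists_eq_add_of_le' hk
    have h3 := rank_concave h F hF hFs v hv hv0 l
    rw [hR, hR, hR] at h3
    have h4 := hstep (l + 2)
    have h5 := hstep (l + 1)
    have e1 : l + 2 + 1 = l + 3 := rfl
    have e2 : l + 1 + 1 = l + 2 := rfl
    rw [e1] at h4 ⊢
    rw [e2] at h5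
    omega
  obtain ⟨d, hd2, hdsum, hdN, G', hG', hspan⟩ := type_comb G p hG c hp2
    (by rw [← hE]; exact hN2) (by
      intro k hk
      have h3 := hanti k hk
      rw [hE, hE] at h3
      exact h3)
  have hdF : ∀ k, 2 ≤ k → (Finset.univ.filter (fun i => k ≤ d i)).card ≤
        (Finset.univ.filter (fun i => k ≤ (F i).totalDegree)).card := by
    intro k hk
    obtain ⟨l, rfl⟩ := Nat.exists_eq_add_of_le' hk
    rw [hdN (l + 2) hk, ← hE]
    have h3 := level_rank h F hF hFs v hv hv0 (l + 1)
    have h4 := dead_low x A F v (l + 1 + 1) (conormal (ordI I x A (l + 1)) v)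
    rw [hR, hR] at h3
    have h5 := hstep (l + 1)
    have h6 := Finset.card_filter_add_card_filter_not (s := (Finset.univ : Finset (Fin c)))
      (fun i => l + 2 ≤ (F i).totalDegree)
    rw [Finset.card_univ, Fintype.card_fin] at h6
    have h7 : (Finset.univ.filter (fun i => ¬ (l + 2 ≤ (F i).totalDegree))) =
        (Finset.univ.filter (fun i => (F i).totalDegree < l + 1 + 1)) := by
      apply Finset.filter_congr
      intro i _
      omega
    rw [h7] at h6
    have e2 : l + 1 + 1 = l + 2 := rfl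
    rw [e2] at h3 h4 h5 h6
    omega
  refine ⟨d, hd2, by rw [hdsum, hcard], ?_, G', hG', ?_⟩
  · intro k
    rcases Nat.lt_or_ge k 2 with hk | hk
    · have h3 := hdF 2 le_rfl
      have h4 : (Finset.univ.filter (fun i => 2 ≤ d i)) = Finset.univ :=
        Finset.filter_true_of_mem (fun i _ => hd2 i)
      rw [h4] at h3
      refine (Finset.card_le_univ _).trans (h3.trans (Finset.card_le_card ?_))
      intro i hi
      rw [Finset.mem_filter] at hi ⊢
      exact ⟨hi.1, by omega⟩
    · exact hdF k hk
  · rw [hJ]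
    exact hspan

end Pool.Agent.Run7.h399

namespace Pool.Agent.Run7.h399

open MvPolynomial Pool.Agent.Run7.h399.Hart Pool.Agent.R948 LX

/-- a permutation of the degrees -/
lemma isOfType_perm {n c r : ℕ} {J : Ideal (Pol n)} (d : Fin c → ℕ) (s : Equiv.Perm (Fin c))
    (h : IsOfType r d J) : IsOfType r (fun i => d (s i)) J := by
  obtain ⟨h1, h2, h3, G, hG, hJ⟩ := h
  refine ⟨fun i => h1 (s i), ?_, h3, fun i k => G (s i) k, fun i k => hG (s i) k, ?_⟩
  · rw [← h2]
    exact Equiv.sum_comp s (fun i => d i - 1)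
  · rw [hJ]
    congr 1
    ext g
    constructor
    · rintro ⟨i, k, hk2, hk, rfl⟩
      refine ⟨s.symm i, k, hk2, ?_, ?_⟩
      · show k ≤ d (s (s.symm i))
        rw [Equiv.apply_symm_apply]
        exact hk
      · show G i k = G (s (s.symm i)) k
        rw [Equiv.apply_symm_apply]
    · rintro ⟨i, k, hk2, hk, rfl⟩
      exact ⟨s i, k, hk2, hk, rfl⟩

/-- the type of a variety of lines which is a complete intersection -/
theorem isOfType_of_ci {n c r : ℕ} {I : Ideal (Pol (n + c + 1))} (hnd : Nondeg I)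
    {x : Fin (n + c + 1) → ℂ} {A : (Fin n → ℂ) →ₗ[ℂ] (Fin (n + c + 1) → ℂ)}
    (h : FreePt I c x A) (Y : Ideal (Pol n)) [hY : Y.IsPrime]
    (hYmin : Y ∈ (linesI I x A).minimalPrimes) (hYdim : tdP Y + r = Fintype.card (Fin n))
    (hn : c + 2 * r ≤ n) (hr : r < n)
    (F : Fin c → Pol (n + c + 1)) (hF : ∀ i, F i ∈ I)
    (hind : LinearIndependent ℂ (fun i => grad (F i) x))
    (hFs : ∀ ξ ∈ conormal I x, ∃ a : Fin c → ℂ, ξ = ∑ i, a i • grad (F i) x)
    (δ : Fin c → ℕ) (hδ : ∀ i, (F i).totalDegree ≤ δ i)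
    (hJ : IsCompleteIntersection r (linesIdeal I x A)) :
    ∃ d : Fin c → ℕ, (∀ i, d i ≤ δ i) ∧ IsOfType r d (linesIdeal I x A) := by
  classical
  obtain ⟨hsat, p, G, hG, hJ⟩ := hJ
  obtain ⟨d, hd2, hds, hdF, G', hG', hspan⟩ := type_of_ci h hnd Y hYmin hYdim
    (by rw [Fintype.card_fin]; exact hn) (by rw [Fintype.card_fin]; exact hr) F hF hind hFs G p hG
    (Fintype.card_fin r) hJ
  have h0 : IsOfType r d (linesIdeal I x A) := ⟨hd2, hds, hsat, G', hG', hspan⟩
  obtain ⟨s, hs⟩ := match_seq d δ (fun k => (hdF k).trans (Finset.card_le_card (by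
    intro i hi
    rw [Finset.mem_filter] at hi ⊢
    exact ⟨hi.1, hi.2.trans (hδ i)⟩)))
  exact ⟨fun i => d (s i), hs, isOfType_perm d s h0⟩

/-- the conclusions in terms of quadrics and forms of higher degree -/
lemma isCI_of_generatedBy {n c r : ℕ} (hcr : c ≤ r) {J : Ideal (Pol n)}
    (h : GeneratedBy c (r - c) J) : IsCompleteIntersection r J := by
  obtain ⟨hsat, Q, G, hQ, hG, hJ⟩ := h
  choose d hd3 hd using hG
  let e : Fin c ⊕ Fin (r - c) ≃ Fin r := Fintype.equivFinOfCardEq (by
    rw [Fintype.card_sum, Fintype.card_fin, Fintype.card_fin]; omega)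
  refine ⟨hsat, fun i => Sum.elim (fun _ => 2) d (e.symm i),
    fun i => Sum.elim Q G (e.symm i), ?_, ?_⟩
  · intro i
    show (Sum.elim Q G (e.symm i)).IsHomogeneous (Sum.elim (fun _ => 2) d (e.symm i))
    rcases e.symm i with j | j
    · exact hQ j
    · exact hd j
  · rw [hJ]
    congr 1
    have h2 : (Set.range fun i => Sum.elim Q G (e.symm i)) = Set.range (Sum.elim Q G) :=
      e.symm.surjective.range_comp (Sum.elim Q G)
    rw [h2, Set.Sum.elim_range]

/-- a variety of lines with a type is a complete intersection -/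
lemma isCI_of_isOfType {n c r : ℕ} {J : Ideal (Pol n)} {d : Fin c → ℕ} (h : IsOfType r d J) :
    IsCompleteIntersection r J := by
  classical
  obtain ⟨h1, h2, h3, G, hG, hJ⟩ := h
  let e : (Σ i : Fin c, Fin (d i - 1)) ≃ Fin r := Fintype.equivFinOfCardEq (by
    rw [Fintype.card_sigma, ← h2]
    exact Finset.sum_congr rfl (fun i _ => Fintype.card_fin _))
  refine ⟨h3, fun j => ((e.symm j).2 : ℕ) + 2, fun j => G (e.symm j).1 ((e.symm j).2 + 2),
    fun j => hG _ _, ?_⟩
  rw [hJ]
  congr 1
  ext g
  constructor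
  · rintro ⟨i, k, hk2, hk, rfl⟩
    refine ⟨e ⟨i, ⟨k - 2, by omega⟩⟩, ?_⟩
    have key : ∀ z : (Σ i : Fin c, Fin (d i - 1)),
        G (e.symm (e z)).1 ((e.symm (e z)).2 + 2) = G z.1 (z.2 + 2) := fun z => by
      rw [Equiv.symm_apply_apply]
    refine (key _).trans ?_
    show G i (k - 2 + 2) = G i k
    rw [Nat.sub_add_cancel hk2]
  · rintro ⟨j, rfl⟩
    have := (e.symm j).2.2
    exact ⟨(e.symm j).1, (e.symm j).2 + 2, by omega, by omega, rfl⟩

end Pool.Agent.Run7.h399

namespace Pool.Agent.Run7.h399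

open MvPolynomial Pool.Agent.Run7.h399.Hart Pool.Agent.R948 LX

/-- the type when the manifold is contained in `m` independent quadrics -/
theorem quads_type {n c r m : ℕ} {I : Ideal (Pol (n + c + 1))} (hX : IsManifold n c I)
    {x : Fin (n + c + 1) → ℂ} {A : (Fin n → ℂ) →ₗ[ℂ] (Fin (n + c + 1) → ℂ)}
    (h : FreePt I c x A) (Y : Ideal (Pol n)) [hY : Y.IsPrime]
    (hYmin : Y ∈ (linesI I x A).minimalPrimes) (hYdim : tdP Y + r = n) (hr : r < n)
    (hn : c + 2 * r ≤ n) (hcr : c ≤ r) (q : Fin m → Pol (n + c + 1)) (hq : ∀ i, q i ∈ I)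
    (hq2 : ∀ i, (q i).IsHomogeneous 2) (hlin : LinearIndependent ℂ q)
    (hci : IsCompleteIntersection r (linesIdeal I x A)) :
    ∃ d : Fin c → ℕ, (∀ i : Fin c, (i : ℕ) < m → d i = 2) ∧
      IsOfType r d (linesIdeal I x A) := by
  classical
  have hnd := nondeg_of hX
  have hcard : tdP Y + r = Fintype.card (Fin n) := by rw [Fintype.card_fin]; exact hYdim
  obtain ⟨F, D, hF, hind, hFs, hDc, hDm, hDq⟩ := exists_grads_quads h.sc hnd
    (by rw [Fintype.card_fin]; omega) q hq hq2 hlin x h.mem h.ne
  obtain ⟨d, hd, hdt⟩ := isOfType_of_ci hnd h Y hYmin hcard hn hr F hF hind hFs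
    (fun i => (F i).totalDegree) (fun i => le_rfl) hci
  set M := 2 + ∑ i, d i with hM
  have hdM : ∀ i, d i ≤ M := fun i => by
    have := Finset.single_le_sum (f := d) (fun _ _ => Nat.zero_le _) (Finset.mem_univ i)
    omega
  obtain ⟨s, hs⟩ := match_seq d (fun i => if (i : ℕ) < m then 2 else M) (by
    intro k
    rcases Nat.lt_or_ge k 3 with hk | hk
    · have h1 : (Finset.univ.filter (fun i : Fin c => k ≤ if (i : ℕ) < m then 2 else M)) =
          Finset.univ := Finset.filter_true_of_mem (fun i _ => by split_ifs <;> omega)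
      rw [h1]
      exact Finset.card_le_card (Finset.subset_univ _)
    rcases Nat.lt_or_ge M k with hkM | hkM
    · have h1 : (Finset.univ.filter (fun i => k ≤ d i)) = ∅ :=
        Finset.filter_false_of_mem (fun i _ => by have := hdM i; omega)
      rw [h1, Finset.card_empty]
      exact Nat.zero_le _
    have h1 : (Finset.univ.filter (fun i => k ≤ d i)).card ≤
        (Finset.range c \ D).card := by
      refine Finset.card_le_card_of_injOn (fun i : Fin c => (i : ℕ)) ?_ Fin.val_injective.injOn
      intro i hi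
      rw [Finset.mem_coe, Finset.mem_filter] at hi
      rw [Finset.mem_coe, Finset.mem_sdiff, Finset.mem_range]
      refine ⟨i.2, fun hiD => ?_⟩
      have h2 := hDq i hiD
      have h3 := hd i
      have h4 := hi.2
      omega
    have h2 : (Finset.univ.filter (fun i : Fin c => k ≤ if (i : ℕ) < m then 2 else M)) =
        (Finset.univ.filter (fun i : Fin c => ¬ (i : ℕ) < m)) := by
      apply Finset.filter_congr
      intro i _
      split_ifs with h3
      · simp only [h3, not_true_eq_false, iff_false]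
        omega
      · simp only [h3, not_false_eq_true, iff_true]
        exact hkM
    have h3 := Finset.card_filter_add_card_filter_not (s := (Finset.univ : Finset (Fin c)))
      (fun i => (i : ℕ) < m)
    rw [Finset.card_univ, Fintype.card_fin, Fin.card_filter_val_lt] at h3
    have h4 : D ⊆ Finset.range c := fun i hi => Finset.mem_range.2 (hDc i hi)
    have h5 := Finset.card_sdiff_of_subset h4
    have h6 := Finset.card_le_card h4
    rw [Finset.card_range, hDm] at h5 h6
    rw [h2]
    omega)
  refine ⟨fun i => d (s i), fun i hi => ?_, isOfType_perm d s hdt⟩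
  have h1 := hs i
  rw [if_pos hi] at h1
  exact le_antisymm h1 (hdt.1 (s i))

end Pool.Agent.Run7.h399
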