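import Pool.Agent.Run7.h399.Defs

/-!
# Subschemes of pure codimension
-/

set_option autoImplicit false

namespace Pool.Agent.Run7.h399.LX

open MvPolynomial

/-- Every irreducible component of the closed subscheme of `P^(n-1)` defined by `J` has
codimension `r`. -/
def HasPureCodim {n : ℕ} (r : ℕ) (J : Ideal (Pol n)) : Prop :=
  ∀ P ∈ J.minimalPrimes, ringKrullDim (Pol n ⧸ P) = ((n - r : ℕ) : WithBot ℕ∞)

end Pool.Agent.Run7.h399.LX
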