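import Pool.Agent.Run7.h399.G2
import Pool.Agent.Run7.h399.Defs4
import Pool.Agent.Run7.h399.Defs9

/-!
# Varieties of lines generated by the expected number of forms have pure codimension
-/

set_option autoImplicit false
set_option linter.unusedSectionVars false
set_option linter.style.haveILetI false

namespace Pool.Agent.Run7.h399

open MvPolynomial Pool.Agent.Run7.h399.Hart Pool.Agent.R948

section
variable {σ τ : Type} [Fintype σ] [DecidableEq σ] [Fintype τ] [DecidableEq τ]
  {K : Type} [Field K]

/-- All components of the variety of lines have the same dimension: by the number of equations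
they meet the component `Y`, and all components through a line have the dimension of the tangent
space there. -/
theorem pure_of_span [IsAlgClosed K] [CharZero K] {I : Ideal (MvPolynomial σ K)} {c r : ℕ}
    {x : σ → K} {A : (τ → K) →ₗ[K] (σ → K)} (h : FreePt I c x A)
    (Y : Ideal (MvPolynomial τ K)) [hY : Y.IsPrime] (hYmin : Y ∈ (linesI I x A).minimalPrimes)
    (hlt : r < tdP Y) (G : Fin r → MvPolynomial τ K) (dg : Fin r → ℕ)
    (hG : ∀ i, (G i).IsHomogeneous (dg i)) (hJ : linesI I x A = Ideal.span (Set.range G))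
    (P : Ideal (MvPolynomial τ K)) [hPp : P.IsPrime] (hP : P ∈ (linesI I x A).minimalPrimes) :
    tdP P = tdP Y := by
  haveI := IsAlgClosed.instInfinite (K := K)
  obtain ⟨y, hyY, hy0, hyP⟩ := close_meet Y (Hm.minimal (linesI_homog I x A) hYmin) hlt G dg hG P
    (by rw [← hJ]; exact hP)
  have hyJ : y ∈ cone (linesI I x A) := fun g hg => hyY g (hYmin.1.2 hg)
  have h1 := tdP_eq_of_arcs hyJ (arcs_lines h y hyJ hy0) P hP hyP
  have h2 := tdP_eq_of_arcs hyJ (arcs_lines h y hyJ hy0) Y hYmin hyY
  omega

end

open LX in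
/-- pure codimension of varieties of lines which are complete intersections -/
theorem pure_of_ci {n c r : ℕ} {I : Ideal (Pol (n + c + 1))} {x : Fin (n + c + 1) → ℂ}
    {A : (Fin n → ℂ) →ₗ[ℂ] (Fin (n + c + 1) → ℂ)} (h : FreePt I c x A) (Y : Ideal (Pol n))
    [hY : Y.IsPrime] (hYmin : Y ∈ (linesI I x A).minimalPrimes) (hYdim : tdP Y + r = n)
    (hlt : 2 * r < n) (hci : IsCompleteIntersection r (linesIdeal I x A)) :
    HasPureCodim r (linesIdeal I x A) := by
  obtain ⟨-, p, G, hG, hJ⟩ := hci
  intro P hP
  haveI hPp : P.IsPrime := hP.1.1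
  rw [dim_prime, pure_of_span h Y hYmin (by omega) G p hG hJ P hP]
  have h1 : tdP Y = n - r := by omega
  rw [h1]

end Pool.Agent.Run7.h399
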