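import Pool.Agent.Run7.h399.Defs4

/-!
# Lines with high contact outside a small subset
-/

set_option autoImplicit false

namespace Pool.Agent.Run7.h399.LX

open MvPolynomial

/-- There is a closed subset of `P^(n-1)` of dimension less than `s` (the zeros of a homogeneous
ideal `Z` such that `ℂ[X_1, ..., X_n]/Z` has dimension at most `s`) outside of which, for every `k`,
the scheme of lines through `x` with contact of order greater than `k` has tangent spaces of the
same dimension at all lines through `x` contained in `X`. -/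
def UniformOutside {n m : ℕ} (s : ℕ) (I : Ideal (Pol m)) (x : Fin m → ℂ)
    (A : (Fin n → ℂ) →ₗ[ℂ] (Fin m → ℂ)) : Prop :=
  ∃ Z : Ideal (Pol n), (∀ f ∈ Z, ∀ d, homogeneousComponent d f ∈ Z) ∧
    ringKrullDim (Pol n ⧸ Z) ≤ ((s : ℕ) : WithBot ℕ∞) ∧
    ∀ k, ∀ v ∈ zeros (linesIdeal I x A), ∀ w ∈ zeros (linesIdeal I x A), v ≠ 0 → w ≠ 0 →
      v ∉ zeros Z → w ∉ zeros Z →
      Module.finrank ℂ (tangentSpace (contactIdeal I x A k) v) =
        Module.finrank ℂ (tangentSpace (contactIdeal I x A k) w)

end Pool.Agent.Run7.h399.LX
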