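import Pool.Agent.Run7.h399.Defs

/-!
# Equations of degree at most three
-/

set_option autoImplicit false

namespace Pool.Agent.Run7.h399.LX

open MvPolynomial

/-- For a general point `x` the variety of lines `L_x ⊂ P^(n-1)` has an irreducible component of
codimension `r`. -/
def LinesComponent (n c r : ℕ) (I : Ideal (Pol (n + c + 1))) : Prop :=
  ∃ g, g ∉ I ∧ ∀ x ∈ zeros I, eval x g ≠ 0 →
    ∀ A : (Fin n → ℂ) →ₗ[ℂ] (Fin (n + c + 1) → ℂ), IsFrame I x A →
      ∃ Y ∈ (linesIdeal I x A).minimalPrimes,
        ringKrullDim (Pol n ⧸ Y) = ((n - r : ℕ) : WithBot ℕ∞)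

/-- At some point `x` of `X` the tangent space of `X` is cut out by the differentials of the
equations of `X` of degree at most `d`; this holds at every point if `X` is cut out
scheme-theoretically by hypersurfaces of degree at most `d`. -/
def CutOutInDegree {m : ℕ} (d : ℕ) (I : Ideal (Pol m)) : Prop :=
  ∃ x ∈ zeros I, x ≠ 0 ∧ ∀ w : Fin m → ℂ,
    (∀ f ∈ I, f.totalDegree ≤ d → ∑ i, eval x (pderiv i f) * w i = 0) → w ∈ tangentSpace I x

/-- `J` is saturated and generated by `p` quadrics and `q` cubics. When the closed subscheme of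
`P^(n-1)` defined by `J` has codimension `p + q`, this says that it is a complete intersection of
`p` quadrics and `q` cubics. -/
def GeneratedByQuadricsCubics {n : ℕ} (p q : ℕ) (J : Ideal (Pol n)) : Prop :=
  IsSaturated J ∧ ∃ (Q : Fin p → Pol n) (G : Fin q → Pol n),
    (∀ i, (Q i).IsHomogeneous 2) ∧ (∀ i, (G i).IsHomogeneous 3) ∧
      J = Ideal.span (Set.range Q ∪ Set.range G)

end Pool.Agent.Run7.h399.LX
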