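import Pool.Agent.Run7.h399.Defs

/-!
# Local equations of given degrees
-/

set_option autoImplicit false

namespace Pool.Agent.Run7.h399.LX

open MvPolynomial

/-- There are `c` equations of `X` of degrees at most `δ 0, ..., δ (c - 1)` whose differentials are
linearly independent at some point of `X` (so that `X`, when of codimension `c`, is defined by
these equations near this point). -/
def HasEquations {m c : ℕ} (δ : Fin c → ℕ) (I : Ideal (Pol m)) : Prop :=
  ∃ x ∈ zeros I, x ≠ 0 ∧ ∃ f : Fin c → Pol m, (∀ i, f i ∈ I ∧ (f i).totalDegree ≤ δ i) ∧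
    LinearIndependent ℂ (fun (i : Fin c) (j : Fin m) => eval x (pderiv j (f i)))

end Pool.Agent.Run7.h399.LX
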