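import Pool.Agent.Run7.h399.G2

/-!
# The greedy choice of equations, pairs of points, levels of contact
-/

set_option autoImplicit false
set_option linter.unusedSectionVars false
set_option linter.style.haveILetI false

/-!
# The greedy choice of generators
-/

namespace Pool.Agent.Run7.h399

open MvPolynomial Pool.Agent.Run7.h399.Hart Pool.Agent.R948

variable {τ : Type} [Fintype τ] [DecidableEq τ] {K : Type} [Field K]

/-- the span of the gradients of the candidates in a set of positions -/
noncomputable def US (h : ℕ → MvPolynomial τ K) (v : τ → K) (S : Set ℕ) : Submodule K (τ → K) :=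
  Submodule.span K ((fun t => grad (h t) v) '' S)

lemma US_mono (h : ℕ → MvPolynomial τ K) (v : τ → K) {S S' : Set ℕ} (hS : S ⊆ S') :
    US h v S ≤ US h v S' := Submodule.span_mono (Set.image_mono hS)

lemma mem_US (h : ℕ → MvPolynomial τ K) (v : τ → K) {S : Set ℕ} {t : ℕ} (ht : t ∈ S) :
    grad (h t) v ∈ US h v S := Submodule.subset_span ⟨t, ht, rfl⟩

lemma US_le (h : ℕ → MvPolynomial τ K) (v : τ → K) {S : Set ℕ} {N : Submodule K (τ → K)}
    (hS : ∀ t ∈ S, grad (h t) v ∈ N) : US h v S ≤ N := by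
  rw [US, Submodule.span_le]
  rintro _ ⟨t, ht, rfl⟩
  exact hS t ht

/-- the data of the equations of the variety of lines -/
structure Eqs (h : ℕ → MvPolynomial τ K) (J Y : Ideal (MvPolynomial τ K)) (c r : ℕ) : Prop where
  pos : 0 < c
  homog : ∀ s, (h s).IsHomogeneous (s / c)
  mem : ∀ s, h s ∈ J
  rank : ∀ v ∈ cone Y, v ≠ 0 → Module.finrank K (conormal J v) = r
  step : ∀ v ∈ cone Y, v ≠ 0 → ∀ s, 2 * c ≤ s → grad (h s) v ∈ US h v (Set.Iio s) →
    grad (h (s + c)) v ∈ US h v (Set.Iio (s + c))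
  all : ∀ v ∈ cone Y, v ≠ 0 → ∀ s, (∀ t, s ≤ t → grad (h t) v ∈ US h v (Set.Iio t)) →
    conormal J v ≤ US h v (Set.Iio s)

/-- the state of the greedy choice -/
structure GS (h : ℕ → MvPolynomial τ K) (c r : ℕ) (Y : Ideal (MvPolynomial τ K)) [Y.IsPrime]
    (s : ℕ) (T Dd : Finset ℕ) (P : Ideal (MvPolynomial τ K)) [P.IsPrime] : Prop where
  hm : Hm P
  le : Y ≤ P
  ne : ∃ v ∈ cone P, v ≠ 0
  low : ∀ t ∈ T, 2 * c ≤ t ∧ t < s
  base : ∀ i < c, 2 * c + i ∈ T
  big : 3 * c ≤ s
  ind : ∀ v ∈ cone P, v ≠ 0 → LinearIndepOn K (fun t => grad (h t) v) (T : Set ℕ)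
  span : ∀ v ∈ cone P, v ≠ 0 → ∀ t < s, grad (h t) v ∈ US h v T
  dead : ∀ i ∈ Dd, i < c ∧ ∃ s0 < s, 2 * c ≤ s0 ∧ s0 % c = i ∧
    ∀ v ∈ cone P, v ≠ 0 → grad (h s0) v ∈ US h v (Set.Iio s0)
  cost : tdP Y ≤ tdP P + (r - c) * Dd.card

lemma dead_iter {h : ℕ → MvPolynomial τ K} {J Y : Ideal (MvPolynomial τ K)} {c r : ℕ}
    (hE : Eqs h J Y c r) {v : τ → K} (hv : v ∈ cone Y) (hv0 : v ≠ 0) {s0 : ℕ} (hs0 : 2 * c ≤ s0)
    (hd : grad (h s0) v ∈ US h v (Set.Iio s0)) :
    ∀ k, grad (h (s0 + k * c)) v ∈ US h v (Set.Iio (s0 + k * c)) := by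
  intro k
  induction k with
  | zero => simpa using hd
  | succ k ih =>
    have h1 := hE.step v hv hv0 (s0 + k * c) (by
      have := Nat.zero_le (k * c)
      omega) ih
    have h2 : s0 + (k + 1) * c = s0 + k * c + c := by ring
    rw [h2]
    exact h1

lemma GS.auto {h : ℕ → MvPolynomial τ K} {J Y : Ideal (MvPolynomial τ K)} {c r : ℕ}
    [Y.IsPrime] {s : ℕ} {T Dd : Finset ℕ} {P : Ideal (MvPolynomial τ K)} [P.IsPrime]
    (hE : Eqs h J Y c r) (hG : GS h c r Y s T Dd P) {v : τ → K} (hv : v ∈ cone P) (hv0 : v ≠ 0)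
    {t : ℕ} (ht : s ≤ t) (htD : t % c ∈ Dd) : grad (h t) v ∈ US h v (Set.Iio t) := by
  obtain ⟨_, s0, hs0, h2, h3, h4⟩ := hG.dead _ htD
  have hvY : v ∈ cone Y := fun f hf => hv f (hG.le hf)
  have h5 := dead_iter hE hvY hv0 h2 (h4 v hv hv0) (t / c - s0 / c)
  have h6 : s0 + (t / c - s0 / c) * c = t := by
    have h7 : s0 / c ≤ t / c := Nat.div_le_div_right (by omega)
    have h8 := Nat.div_add_mod' s0 c
    have h9 := Nat.div_add_mod' t c
    have h10 : (t / c - s0 / c) * c + s0 / c * c = t / c * c := by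
      rw [← add_mul, Nat.sub_add_cancel h7]
    omega
  rwa [h6] at h5

lemma GS.card_le {h : ℕ → MvPolynomial τ K} {J Y : Ideal (MvPolynomial τ K)} {c r : ℕ}
    [Y.IsPrime] {s : ℕ} {T Dd : Finset ℕ} {P : Ideal (MvPolynomial τ K)} [P.IsPrime]
    (hE : Eqs h J Y c r) (hG : GS h c r Y s T Dd P) : T.card ≤ r := by
  obtain ⟨v, hv, hv0⟩ := hG.ne
  have hvY : v ∈ cone Y := fun f hf => hv f (hG.le hf)
  rw [← hE.rank v hvY hv0]
  let γ : T → conormal J v := fun t => ⟨grad (h t) v, grad_mem J v (hE.mem t)⟩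
  have h3 : LinearIndependent K γ :=
    LinearIndependent.of_comp (conormal J v).subtype (hG.ind v hv hv0)
  have h4 := h3.fintype_card_le_finrank
  rwa [Fintype.card_coe] at h4

lemma GS.full {h : ℕ → MvPolynomial τ K} {J Y : Ideal (MvPolynomial τ K)} {c r : ℕ}
    [Y.IsPrime] {s : ℕ} {T Dd : Finset ℕ} {P : Ideal (MvPolynomial τ K)} [P.IsPrime]
    (hE : Eqs h J Y c r) (hG : GS h c r Y s T Dd P) (hD : c ≤ Dd.card) : r ≤ T.card := by
  classical
  obtain ⟨v, hv, hv0⟩ := hG.ne
  have hvY : v ∈ cone Y := fun f hf => hv f (hG.le hf)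
  have hDd : Dd = Finset.range c := by
    apply Finset.eq_of_subset_of_card_le
    · intro i hi
      exact Finset.mem_range.2 (hG.dead i hi).1
    · rw [Finset.card_range]; exact hD
  have h1 := hE.all v hvY hv0 s (fun t ht => hG.auto hE hv hv0 ht (by
    rw [hDd, Finset.mem_range]
    exact Nat.mod_lt t hE.pos))
  have h2 : US h v (Set.Iio s) ≤ US h v T := US_le h v (fun t ht => hG.span v hv hv0 t ht)
  have h3 := Submodule.finrank_mono (h1.trans h2)
  rw [hE.rank v hvY hv0] at h3
  refine h3.trans ?_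
  have h4 : US h v T = Submodule.span K ((T.image (fun t => grad (h t) v) : Finset (τ → K)) :
      Set (τ → K)) := by
    rw [US, Finset.coe_image]
  rw [h4]
  exact (finrank_span_finset_le_card _).trans Finset.card_image_le

lemma GS.base_card {h : ℕ → MvPolynomial τ K} {Y : Ideal (MvPolynomial τ K)} {c r : ℕ}
    [Y.IsPrime] {s : ℕ} {T Dd : Finset ℕ} {P : Ideal (MvPolynomial τ K)} [P.IsPrime]
    (hG : GS h c r Y s T Dd P) : c ≤ T.card := by
  have h1 : (Finset.range c).image (fun i => 2 * c + i) ⊆ T := by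
    intro t ht
    rw [Finset.mem_image] at ht
    obtain ⟨i, hi, rfl⟩ := ht
    exact hG.base i (Finset.mem_range.1 hi)
  have h2 := Finset.card_le_card h1
  rw [Finset.card_image_of_injective _ (fun a b hab => by simpa using hab),
    Finset.card_range] at h2
  exact h2

theorem greedy [IsAlgClosed K] {h : ℕ → MvPolynomial τ K} {J Y : Ideal (MvPolynomial τ K)}
    {c r : ℕ} [Y.IsPrime] (hE : Eqs h J Y c r) : ∀ (N s : ℕ) (T Dd : Finset ℕ)
    (P : Ideal (MvPolynomial τ K)) [P.IsPrime], GS h c r Y s T Dd P → Dd.card < c →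
    (r - T.card) + (c - Dd.card) ≤ N →
    ∃ (T' : Finset ℕ) (P' : Ideal (MvPolynomial τ K)) (_ : P'.IsPrime), Hm P' ∧ Y ≤ P' ∧
      T'.card = r ∧ (∀ i < c, 2 * c + i ∈ T') ∧ (∀ t ∈ T', 2 * c ≤ t) ∧
      (∀ v ∈ cone P', v ≠ 0 → LinearIndepOn K (fun t => grad (h t) v) (T' : Set ℕ)) ∧
      tdP Y ≤ tdP P' + (r - c) * (c - 1) := by
  classical
  intro N
  induction N with
  | zero =>
    intro s T Dd P _ hG hD hN
    omega
  | succ N ih =>
    intro s T Dd P hPp hG hD hN
    have hTr := hG.card_le hE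
    rcases Nat.eq_or_lt_of_le hTr with heq | hlt
    · refine ⟨T, P, hPp, hG.hm, hG.le, heq, hG.base, fun t ht => (hG.low t ht).1, hG.ind, ?_⟩
      refine hG.cost.trans ?_
      gcongr
      omega
    -- the next event
    have hex : ∃ t, s ≤ t ∧ t % c ∉ Dd := by
      have h1 : ∃ i, i < c ∧ i ∉ Dd := by
        by_contra hcon
        push Not at hcon
        have h2 : Finset.range c ⊆ Dd := fun i hi => hcon i (Finset.mem_range.1 hi)
        have h3 := Finset.card_le_card h2
        rw [Finset.card_range] at h3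
        omega
      obtain ⟨i, hi, hiD⟩ := h1
      refine ⟨s * c + i, ?_, ?_⟩
      · have := Nat.le_mul_of_pos_right s hE.pos
        omega
      · rw [mul_comm, Nat.mul_add_mod, Nat.mod_eq_of_lt hi]
        exact hiD
    obtain ⟨hst, htD⟩ := Nat.find_spec hex
    set t0 := Nat.find hex with ht0
    have hmin : ∀ t, s ≤ t → t < t0 → t % c ∈ Dd := by
      intro t h1 h2
      have h3 := Nat.find_min hex h2
      by_contra h4
      exact h3 ⟨h1, h4⟩
    have hspan : ∀ v ∈ cone P, v ≠ 0 → ∀ t < t0, grad (h t) v ∈ US h v T := by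
      intro v hv hv0 t
      induction t using Nat.strong_induction_on with
      | _ t iht =>
        intro ht
        rcases Nat.lt_or_ge t s with h1 | h1
        · exact hG.span v hv hv0 t h1
        · have h2 := hG.auto hE hv hv0 h1 (hmin t h1 ht)
          exact US_le h v (fun t' ht' => iht t' ht' (lt_trans ht' ht)) h2
    have hTle : ∀ t ∈ T, t < t0 := fun t ht => lt_of_lt_of_le (hG.low t ht).2 hst
    by_cases hev : ∃ v0 ∈ cone P, v0 ≠ 0 ∧ grad (h t0) v0 ∈ US h v0 T
    · obtain ⟨v0, hv0, hv00, hmem⟩ := hev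
      have hUS : ∀ v, US h v T = Submodule.span K (Set.range fun i : T => grad (h i) v) := by
        intro v
        rw [US, Set.image_eq_range]
        rfl
      rw [hUS] at hmem
      obtain ⟨R, hR, hRm, hPR, hRne, hcost, hRsp⟩ := step_dead (J := J) hG.hm
        (fun v hv hvne => hE.rank v (fun f hf => hv f (hG.le hf)) hvne)
        (fun i : T => h i) (fun i : T => (i : ℕ) / c) (fun i => hE.homog i) (fun i => hE.mem i)
        (fun v hv hvne => hG.ind v hv hvne) (h t0) (t0 / c) (hE.homog t0) (hE.mem t0) v0 hv0 hv00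
        hmem
      rw [Fintype.card_coe] at hcost
      have hRP : ∀ v ∈ cone R, v ∈ cone P := fun v hv f hf => hv f (hPR hf)
      have hG' : GS h c r Y (t0 + 1) T (insert (t0 % c) Dd) R := by
        refine ⟨hRm, hG.le.trans hPR, hRne, fun t ht => ⟨(hG.low t ht).1, ?_⟩, hG.base, ?_,
          fun v hv hvne => hG.ind v (hRP v hv) hvne, ?_, ?_, ?_⟩
        · have := hTle t ht
          omega
        · have := hG.big
          omega
        · intro v hv hvne t ht
          rcases Nat.lt_succ_iff_lt_or_eq.1 ht with h1 | h1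
          · exact hspan v (hRP v hv) hvne t h1
          · rw [h1, hUS]
            exact hRsp v hv hvne
        · intro i hi
          rw [Finset.mem_insert] at hi
          rcases hi with rfl | hi
          · refine ⟨Nat.mod_lt _ hE.pos, t0, Nat.lt_succ_self _, ?_, rfl, ?_⟩
            · have := hG.big
              omega
            · intro v hv hvne
              have h1 := hRsp v hv hvne
              rw [← hUS] at h1
              exact US_mono h v (fun t ht => hTle t ht) h1
          · obtain ⟨h1, s0, h2, h3, h4, h5⟩ := hG.dead i hi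
            exact ⟨h1, s0, by omega, h3, h4, fun v hv hvne => h5 v (hRP v hv) hvne⟩
        · rw [Finset.card_insert_of_notMem htD]
          have h1 := hG.cost
          have h2 := hG.base_card
          have h3 : (r - c) * (Dd.card + 1) = (r - c) * Dd.card + (r - c) := by ring
          omega
      have hcard : (insert (t0 % c) Dd).card = Dd.card + 1 := Finset.card_insert_of_notMem htD
      refine ih (t0 + 1) T (insert (t0 % c) Dd) R hG' ?_ ?_
      · by_contra hcon
        have := hG'.full hE (by omega)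
        omega
      · rw [hcard]
        omega
    · push Not at hev
      have ht0T : t0 ∉ T := fun hmem => absurd (hTle t0 hmem) (lt_irrefl _)
      have hG' : GS h c r Y (t0 + 1) (insert t0 T) Dd P := by
        refine ⟨hG.hm, hG.le, hG.ne, ?_, ?_, ?_, ?_, ?_, ?_, hG.cost⟩
        · intro t ht
          rw [Finset.mem_insert] at ht
          have := hG.big
          rcases ht with rfl | ht
          · exact ⟨by omega, by omega⟩
          · have := hTle t ht
            exact ⟨(hG.low t ht).1, by omega⟩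
        · intro i hi
          exact Finset.mem_insert_of_mem (hG.base i hi)
        · have := hG.big
          omega
        · intro v hv hvne
          rw [Finset.coe_insert]
          exact LinearIndepOn.insert (hG.ind v hv hvne) (hev v hv hvne)
        · intro v hv hvne t ht
          rcases Nat.lt_succ_iff_lt_or_eq.1 ht with h1 | h1
          · refine US_mono h v ?_ (hspan v hv hvne t h1)
            rw [Finset.coe_insert]
            exact Set.subset_insert _ _
          · rw [h1]
            exact mem_US h v (by rw [Finset.coe_insert]; exact Set.mem_insert _ _)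
        · intro i hi
          obtain ⟨h1, s0, h2, h3, h4, h5⟩ := hG.dead i hi
          exact ⟨h1, s0, by omega, h3, h4, h5⟩
      refine ih (t0 + 1) (insert t0 T) Dd P hG' hD ?_
      rw [Finset.card_insert_of_notMem ht0T]
      omega

end Pool.Agent.Run7.h399

/-!
# Varieties of lines are complete intersections in large dimension
-/

namespace Pool.Agent.Run7.h399

open MvPolynomial Pool.Agent.Run7.h399.Hart Pool.Agent.R948

variable {σ τ : Type} [Fintype σ] [DecidableEq σ] [Fintype τ] [DecidableEq τ]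
  {K : Type} [Field K]

lemma grad_coeff_one [Infinite K] {I : Ideal (MvPolynomial σ K)} {x : σ → K}
    (A : (τ → K) →ₗ[K] (σ → K)) (hA : ∀ w, A w ∈ tangent I x)
    {f : MvPolynomial σ K} (hf : f ∈ I) (v : τ → K) :
    grad ((lexp x A f).coeff 1) v = 0 := by
  have h1 : ∀ u', dotB τ K (grad ((lexp x A f).coeff 1) v) u' = 0 := by
    intro u'
    have h2 := grad_lexp x A f v u' 0
    rw [zero_add] at h2
    rw [h2, Polynomial.coeff_zero_eq_eval_zero, dl_eval, zero_smul, add_zero]
    have h6 : (fun i => (cv (A u') i).eval 0) = A u' := at0_cv _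
    rw [h6]
    exact (mem_tangent I x _).1 (hA u') f hf
  funext i
  have h2 := h1 (Pi.single i 1)
  rw [dotB_apply] at h2
  simpa [Pi.single_apply] using h2

theorem main2 [IsAlgClosed K] [CharZero K] {I : Ideal (MvPolynomial σ K)} {c r : ℕ}
    {x : σ → K} {A : (τ → K) →ₗ[K] (σ → K)} (h : FreePt I c x A) (hnd : Nondeg I)
    (Y : Ideal (MvPolynomial τ K)) [hY : Y.IsPrime] (hYmin : Y ∈ (linesI I x A).minimalPrimes)
    (hYdim : tdP Y + r = Fintype.card τ) (hn : c + 2 * r ≤ Fintype.card τ)
    (hpos : r < Fintype.card τ) (hc : 0 < c)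
    (hb : 2 * r + 2 + (r - c) * (c - 1) ≤ Fintype.card τ) :
    ∃ (Q : Fin c → MvPolynomial τ K) (G : Fin (r - c) → MvPolynomial τ K),
      (∀ i, (Q i).IsHomogeneous 2) ∧ (∀ i, ∃ d, 3 ≤ d ∧ (G i).IsHomogeneous d) ∧
      linesI I x A = Ideal.span (Set.range Q ∪ Set.range G) ∧
      ∀ g : MvPolynomial τ K, (∀ i, ∃ k : ℕ, X i ^ k * g ∈ linesI I x A) → g ∈ linesI I x A := by
  classical
  haveI := IsAlgClosed.instInfinite (K := K)
  obtain ⟨F, hF, hind, hFs⟩ := exists_grads h.sc x h.mem h.ne
  have hcr := codim_le h hnd Y hYmin hYdim hn hpos F hF hind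
  set J := linesI I x A with hJ
  set f := cand hc x A F with hf
  have hYJ : ∀ v ∈ cone Y, v ∈ cone J := fun v hv g hg => hv g (hYmin.1.2 hg)
  have hE : Eqs f J Y c r := by
    refine ⟨hc, cand_homog hc x A F, cand_mem hc x A F hF,
      fun v hv hv0 => rank_lines h Y hYmin hYdim v hv hv0, ?_, ?_⟩
    · intro v hv hv0 s hs hd
      exact cand_dead h hc F hF hFs v (hYJ v hv) hv0 s hs hd
    · intro v hv hv0 s hs
      exact cand_span h hc F hF hind v (hYJ v hv) s hs
  have hYh : Hm Y := Hm.minimal (linesI_homog I x A) hYmin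
  have hdiv : ∀ t ∈ Finset.Ico (2 * c) (3 * c), t / c = 2 := by
    intro t ht
    rw [Finset.mem_Ico] at ht
    rw [Nat.div_eq_iff hc]
    omega
  have hGS : GS f c r Y (3 * c) (Finset.Ico (2 * c) (3 * c)) ∅ Y := by
    refine ⟨hYh, le_rfl, exists_ne_cone Y (by omega), ?_, ?_, le_rfl, ?_, ?_, ?_, by simp⟩
    · intro t ht
      exact Finset.mem_Ico.1 ht
    · intro i hi
      rw [Finset.mem_Ico]
      omega
    · intro v hv hv0
      have h1 := quads_indep h hnd Y hYmin hYdim hn F hF hind v hv hv0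
      have h2 : Function.Injective (fun t : ((Finset.Ico (2 * c) (3 * c) : Finset ℕ) : Set ℕ) =>
          (⟨(t : ℕ) % c, Nat.mod_lt _ hc⟩ : Fin c)) := by
        intro a b hab
        have ha := hdiv a a.2
        have hb := hdiv b b.2
        have h3 : (a : ℕ) % c = (b : ℕ) % c := by simpa using hab
        apply Subtype.ext
        rw [← Nat.div_add_mod (a : ℕ) c, ← Nat.div_add_mod (b : ℕ) c, ha, hb, h3]
      have h3 := h1.comp _ h2
      have h4 : ((fun i => grad ((lexp x A (F i)).coeff 2) v) ∘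
          fun t : ((Finset.Ico (2 * c) (3 * c) : Finset ℕ) : Set ℕ) =>
          (⟨(t : ℕ) % c, Nat.mod_lt _ hc⟩ : Fin c)) =
          fun t : ((Finset.Ico (2 * c) (3 * c) : Finset ℕ) : Set ℕ) => grad (f (t : ℕ)) v := by
        funext t
        simp only [Function.comp_apply, hf, cand]
        rw [hdiv t t.2]
      rw [h4] at h3
      exact h3
    · intro v hv hv0 t ht
      rcases Nat.lt_or_ge t (2 * c) with h1 | h1
      · have h2 : t / c < 2 := (Nat.div_lt_iff_lt_mul hc).2 h1
        have h3 : grad (f t) v = 0 := by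
          rw [hf, cand]
          rcases Nat.lt_or_ge (t / c) 1 with h4 | h4
          · have h5 : t / c = 0 := Nat.lt_one_iff.1 h4
            rw [h5]
            exact grad_coeff_zero A (h.mem _ (hF _)) v
          · have h5 : t / c = 1 := le_antisymm (Nat.lt_succ_iff.1 h2) h4
            rw [h5]
            exact grad_coeff_one A h.tan (hF _) v
        rw [h3]
        exact Submodule.zero_mem _
      · exact mem_US f v (by
          rw [Finset.coe_Ico]
          exact ⟨h1, ht⟩)
    · intro i hi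
      simp at hi
  obtain ⟨T, P, hPp, hPm, hYP, hTr, hbase, hlow, hTind, hcost⟩ := greedy hE
    ((r - (Finset.Ico (2 * c) (3 * c)).card) + (c - (∅ : Finset ℕ).card)) (3 * c)
    (Finset.Ico (2 * c) (3 * c)) ∅ Y hGS (by simpa using hc) le_rfl
  let e : T ≃ Fin r := Finset.equivFinOfCardEq hTr
  let GA : Fin r → MvPolynomial τ K := fun i => f (e.symm i)
  have hGAP : ∀ v ∈ cone P, v ≠ 0 → LinearIndependent K (fun i => grad (GA i) v) := by
    intro v hv hv0
    have h1 : LinearIndependent K (fun t : T => grad (f t) v) := hTind v hv hv0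
    exact h1.comp _ e.symm.injective
  have hGAY := spread (fun v hv hv0 => arcs_lines h v hv hv0) Y hYmin hYdim P hPm (by omega) GA
    (fun i => (e.symm i : ℕ) / c) (fun i => hE.homog _) (fun i => hE.mem _) hGAP
  obtain ⟨h1, h2⟩ := lines_close h Y hYmin hYdim (by omega) GA (fun i => (e.symm i : ℕ) / c)
    (fun i => hE.homog _) (fun i => Nat.div_pos (by
      have := hlow (e.symm i) (e.symm i).2
      omega) hc) (fun i => hE.mem _) hGAY
  have hIco : Finset.Ico (2 * c) (3 * c) ⊆ T := by
    intro t ht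
    rw [Finset.mem_Ico] at ht
    have := hbase (t - 2 * c) (by omega)
    rwa [Nat.add_sub_cancel' ht.1] at this
  have hcard : (T \ Finset.Ico (2 * c) (3 * c)).card = r - c := by
    rw [Finset.card_sdiff_of_subset hIco, hTr, Nat.card_Ico]
    omega
  let e' : (T \ Finset.Ico (2 * c) (3 * c) : Finset ℕ) ≃ Fin (r - c) :=
    Finset.equivFinOfCardEq hcard
  refine ⟨fun i => f (2 * c + i), fun i => f (e'.symm i), ?_, ?_, ?_, h2⟩
  · intro i
    have h3 := hE.homog (2 * c + i)
    have h4 := hdiv (2 * c + i) (by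
      rw [Finset.mem_Ico]
      have := i.2
      omega)
    rwa [h4] at h3
  · intro i
    refine ⟨_, ?_, hE.homog _⟩
    have h3 := (e'.symm i).2
    rw [Finset.mem_sdiff, Finset.mem_Ico] at h3
    have h4 := hlow _ h3.1
    rw [Nat.le_div_iff_mul_le hc]
    by_contra h5
    exact h3.2 ⟨h4, by omega⟩
  · rw [hJ, h1]
    congr 1
    ext g
    constructor
    · rintro ⟨i, rfl⟩
      by_cases hi : ((e.symm i : T) : ℕ) ∈ Finset.Ico (2 * c) (3 * c)
      · left
        rw [Finset.mem_Ico] at hi
        refine ⟨⟨(e.symm i : ℕ) - 2 * c, by omega⟩, ?_⟩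
        simp only [GA]
        rw [Nat.add_sub_cancel' hi.1]
      · right
        refine ⟨e' ⟨(e.symm i : ℕ), Finset.mem_sdiff.2 ⟨(e.symm i).2, hi⟩⟩, ?_⟩
        simp only [Equiv.symm_apply_apply, GA]
    · rintro (⟨i, rfl⟩ | ⟨i, rfl⟩)
      · refine ⟨e ⟨2 * c + i, hbase i i.2⟩, ?_⟩
        simp only [GA, Equiv.symm_apply_apply]
      · refine ⟨e ⟨(e'.symm i : ℕ), (Finset.mem_sdiff.1 (e'.symm i).2).1⟩, ?_⟩
        simp only [GA, Equiv.symm_apply_apply]

end Pool.Agent.Run7.h399

/-!
# Varieties of lines are complete intersections in large dimension: a slightly better bound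
-/

namespace Pool.Agent.Run7.h399

open MvPolynomial Pool.Agent.Run7.h399.Hart Pool.Agent.R948

variable {σ τ : Type} [Fintype σ] [DecidableEq σ] [Fintype τ] [DecidableEq τ]
  {K : Type} [Field K]

/-- the closing argument, with independence along a subvariety only -/
theorem lines_close' [IsAlgClosed K] [CharZero K] {I : Ideal (MvPolynomial σ K)} {c r : ℕ}
    {x : σ → K} {A : (τ → K) →ₗ[K] (σ → K)} (h : FreePt I c x A)
    (Y : Ideal (MvPolynomial τ K)) [hY : Y.IsPrime] (hYmin : Y ∈ (linesI I x A).minimalPrimes)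
    (hYdim : tdP Y + r = Fintype.card τ) (P : Ideal (MvPolynomial τ K)) [hP : P.IsPrime]
    (hPm : Hm P) (hYP : Y ≤ P) (hlt : r < tdP P)
    (G : Fin r → MvPolynomial τ K) (dg : Fin r → ℕ) (hG : ∀ i, (G i).IsHomogeneous (dg i))
    (hd : ∀ i, 0 < dg i) (hGJ : ∀ i, G i ∈ linesI I x A)
    (hind : ∀ v ∈ cone P, v ≠ 0 → LinearIndependent K (fun i => grad (G i) v)) :
    linesI I x A = Ideal.span (Set.range G) ∧
      ∀ g : MvPolynomial τ K, (∀ i, ∃ k : ℕ, X i ^ k * g ∈ linesI I x A) → g ∈ linesI I x A := by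
  haveI := IsAlgClosed.instInfinite (K := K)
  have key : linesI I x A = Ideal.span (Set.range G) → linesI I x A = Ideal.span (Set.range G) ∧
      ∀ g : MvPolynomial τ K, (∀ i, ∃ k : ℕ, X i ^ k * g ∈ linesI I x A) →
        g ∈ linesI I x A := by
    intro h1
    refine ⟨h1, ?_⟩
    rw [h1]
    exact close_sat P hPm hlt G dg hG hd hind
  apply key
  refine close (linesI I x A) P (linesI_homog I x A) hPm hlt G dg hG hd hGJ hind ?_
  intro v hvP hv0 f hf
  have hv : v ∈ cone Y := fun g hg => hvP g (hYP hg)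
  have hvJ : v ∈ cone (linesI I x A) := fun g hg => hv g (hYmin.1.2 hg)
  have hsp : Submodule.span K (Set.range (fun i => grad (G i) v)) =
      conormal (linesI I x A) v := by
    apply Submodule.eq_of_le_of_finrank_eq
    · rw [Submodule.span_le]
      rintro _ ⟨i, rfl⟩
      exact Submodule.subset_span ⟨G i, hGJ i, rfl⟩
    · rw [finrank_span_eq_card (hind v hvP hv0), Fintype.card_fin,
        rank_lines h Y hYmin hYdim v hv hv0]
  obtain ⟨a, ha, haf⟩ := locgen hvJ (arcs_lines h v hvJ hv0) G hGJ (hind v hvP hv0) (by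
    intro ξ hξ
    rw [← hsp, Submodule.mem_span_range_iff_exists_fun] at hξ
    obtain ⟨c, hc⟩ := hξ
    exact ⟨c, hc.symm⟩) f hf
  exact ⟨a, by rw [ha]; exact one_ne_zero, haf⟩

theorem main2b [IsAlgClosed K] [CharZero K] {I : Ideal (MvPolynomial σ K)} {c r : ℕ}
    {x : σ → K} {A : (τ → K) →ₗ[K] (σ → K)} (h : FreePt I c x A) (hnd : Nondeg I)
    (Y : Ideal (MvPolynomial τ K)) [hY : Y.IsPrime] (hYmin : Y ∈ (linesI I x A).minimalPrimes)
    (hYdim : tdP Y + r = Fintype.card τ) (hn : c + 2 * r ≤ Fintype.card τ)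
    (hpos : r < Fintype.card τ) (hc : 0 < c)
    (hb : 2 * r + 1 + (r - c) * (c - 1) ≤ Fintype.card τ) :
    ∃ (Q : Fin c → MvPolynomial τ K) (G : Fin (r - c) → MvPolynomial τ K),
      (∀ i, (Q i).IsHomogeneous 2) ∧ (∀ i, ∃ d, 3 ≤ d ∧ (G i).IsHomogeneous d) ∧
      linesI I x A = Ideal.span (Set.range Q ∪ Set.range G) ∧
      ∀ g : MvPolynomial τ K, (∀ i, ∃ k : ℕ, X i ^ k * g ∈ linesI I x A) → g ∈ linesI I x A := by
  classical
  haveI := IsAlgClosed.instInfinite (K := K)
  obtain ⟨F, hF, hind, hFs⟩ := exists_grads h.sc x h.mem h.ne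
  have hcr := codim_le h hnd Y hYmin hYdim hn hpos F hF hind
  set J := linesI I x A with hJ
  set f := cand hc x A F with hf
  have hYJ : ∀ v ∈ cone Y, v ∈ cone J := fun v hv g hg => hv g (hYmin.1.2 hg)
  have hE : Eqs f J Y c r := by
    refine ⟨hc, cand_homog hc x A F, cand_mem hc x A F hF,
      fun v hv hv0 => rank_lines h Y hYmin hYdim v hv hv0, ?_, ?_⟩
    · intro v hv hv0 s hs hd
      exact cand_dead h hc F hF hFs v (hYJ v hv) hv0 s hs hd
    · intro v hv hv0 s hs
      exact cand_span h hc F hF hind v (hYJ v hv) s hs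
  have hYh : Hm Y := Hm.minimal (linesI_homog I x A) hYmin
  have hdiv : ∀ t ∈ Finset.Ico (2 * c) (3 * c), t / c = 2 := by
    intro t ht
    rw [Finset.mem_Ico] at ht
    rw [Nat.div_eq_iff hc]
    omega
  have hGS : GS f c r Y (3 * c) (Finset.Ico (2 * c) (3 * c)) ∅ Y := by
    refine ⟨hYh, le_rfl, exists_ne_cone Y (by omega), ?_, ?_, le_rfl, ?_, ?_, ?_, by simp⟩
    · intro t ht
      exact Finset.mem_Ico.1 ht
    · intro i hi
      rw [Finset.mem_Ico]
      omega
    · intro v hv hv0
      have h1 := quads_indep h hnd Y hYmin hYdim hn F hF hind v hv hv0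
      have h2 : Function.Injective (fun t : ((Finset.Ico (2 * c) (3 * c) : Finset ℕ) : Set ℕ) =>
          (⟨(t : ℕ) % c, Nat.mod_lt _ hc⟩ : Fin c)) := by
        intro a b hab
        have ha := hdiv a a.2
        have hb := hdiv b b.2
        have h3 : (a : ℕ) % c = (b : ℕ) % c := by simpa using hab
        apply Subtype.ext
        rw [← Nat.div_add_mod (a : ℕ) c, ← Nat.div_add_mod (b : ℕ) c, ha, hb, h3]
      have h3 := h1.comp _ h2
      have h4 : ((fun i => grad ((lexp x A (F i)).coeff 2) v) ∘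
          fun t : ((Finset.Ico (2 * c) (3 * c) : Finset ℕ) : Set ℕ) =>
          (⟨(t : ℕ) % c, Nat.mod_lt _ hc⟩ : Fin c)) =
          fun t : ((Finset.Ico (2 * c) (3 * c) : Finset ℕ) : Set ℕ) => grad (f (t : ℕ)) v := by
        funext t
        simp only [Function.comp_apply, hf, cand]
        rw [hdiv t t.2]
      rw [h4] at h3
      exact h3
    · intro v hv hv0 t ht
      rcases Nat.lt_or_ge t (2 * c) with h1 | h1
      · have h2 : t / c < 2 := (Nat.div_lt_iff_lt_mul hc).2 h1
        have h3 : grad (f t) v = 0 := by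
          rw [hf, cand]
          rcases Nat.lt_or_ge (t / c) 1 with h4 | h4
          · have h5 : t / c = 0 := Nat.lt_one_iff.1 h4
            rw [h5]
            exact grad_coeff_zero A (h.mem _ (hF _)) v
          · have h5 : t / c = 1 := le_antisymm (Nat.lt_succ_iff.1 h2) h4
            rw [h5]
            exact grad_coeff_one A h.tan (hF _) v
        rw [h3]
        exact Submodule.zero_mem _
      · exact mem_US f v (by
          rw [Finset.coe_Ico]
          exact ⟨h1, ht⟩)
    · intro i hi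
      simp at hi
  obtain ⟨T, P, hPp, hPm, hYP, hTr, hbase, hlow, hTind, hcost⟩ := greedy hE
    ((r - (Finset.Ico (2 * c) (3 * c)).card) + (c - (∅ : Finset ℕ).card)) (3 * c)
    (Finset.Ico (2 * c) (3 * c)) ∅ Y hGS (by simpa using hc) le_rfl
  let e : T ≃ Fin r := Finset.equivFinOfCardEq hTr
  let GA : Fin r → MvPolynomial τ K := fun i => f (e.symm i)
  have hGAP : ∀ v ∈ cone P, v ≠ 0 → LinearIndependent K (fun i => grad (GA i) v) := by
    intro v hv hv0
    have h1 : LinearIndependent K (fun t : T => grad (f t) v) := hTind v hv hv0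
    exact h1.comp _ e.symm.injective
  obtain ⟨h1, h2⟩ := lines_close' h Y hYmin hYdim P hPm hYP (by omega) GA
    (fun i => (e.symm i : ℕ) / c)
    (fun i => hE.homog _) (fun i => Nat.div_pos (by
      have := hlow (e.symm i) (e.symm i).2
      omega) hc) (fun i => hE.mem _) hGAP
  have hIco : Finset.Ico (2 * c) (3 * c) ⊆ T := by
    intro t ht
    rw [Finset.mem_Ico] at ht
    have := hbase (t - 2 * c) (by omega)
    rwa [Nat.add_sub_cancel' ht.1] at this
  have hcard : (T \ Finset.Ico (2 * c) (3 * c)).card = r - c := by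
    rw [Finset.card_sdiff_of_subset hIco, hTr, Nat.card_Ico]
    omega
  let e' : (T \ Finset.Ico (2 * c) (3 * c) : Finset ℕ) ≃ Fin (r - c) :=
    Finset.equivFinOfCardEq hcard
  refine ⟨fun i => f (2 * c + i), fun i => f (e'.symm i), ?_, ?_, ?_, h2⟩
  · intro i
    have h3 := hE.homog (2 * c + i)
    have h4 := hdiv (2 * c + i) (by
      rw [Finset.mem_Ico]
      have := i.2
      omega)
    rwa [h4] at h3
  · intro i
    refine ⟨_, ?_, hE.homog _⟩
    have h3 := (e'.symm i).2
    rw [Finset.mem_sdiff, Finset.mem_Ico] at h3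
    have h4 := hlow _ h3.1
    rw [Nat.le_div_iff_mul_le hc]
    by_contra h5
    exact h3.2 ⟨h4, by omega⟩
  · rw [hJ, h1]
    congr 1
    ext g
    constructor
    · rintro ⟨i, rfl⟩
      by_cases hi : ((e.symm i : T) : ℕ) ∈ Finset.Ico (2 * c) (3 * c)
      · left
        rw [Finset.mem_Ico] at hi
        refine ⟨⟨(e.symm i : ℕ) - 2 * c, by omega⟩, ?_⟩
        simp only [GA]
        rw [Nat.add_sub_cancel' hi.1]
      · right
        refine ⟨e' ⟨(e.symm i : ℕ), Finset.mem_sdiff.2 ⟨(e.symm i).2, hi⟩⟩, ?_⟩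
        simp only [Equiv.symm_apply_apply, GA]
    · rintro (⟨i, rfl⟩ | ⟨i, rfl⟩)
      · refine ⟨e ⟨2 * c + i, hbase i i.2⟩, ?_⟩
        simp only [GA, Equiv.symm_apply_apply]
      · refine ⟨e ⟨(e'.symm i : ℕ), (Finset.mem_sdiff.1 (e'.symm i).2).1⟩, ?_⟩
        simp only [GA, Equiv.symm_apply_apply]

end Pool.Agent.Run7.h399

/-!
# The greedy choice of generators when some directions are dead from the start
-/

namespace Pool.Agent.Run7.h399

open MvPolynomial Pool.Agent.Run7.h399.Hart Pool.Agent.R948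

variable {τ : Type} [Fintype τ] [DecidableEq τ] {K : Type} [Field K]

/-- the state of the greedy choice -/
structure GS2 (h : ℕ → MvPolynomial τ K) (c r m : ℕ) (Y : Ideal (MvPolynomial τ K)) [Y.IsPrime]
    (s : ℕ) (T Dd : Finset ℕ) (P : Ideal (MvPolynomial τ K)) [P.IsPrime] : Prop where
  hm : Hm P
  le : Y ≤ P
  ne : ∃ v ∈ cone P, v ≠ 0
  low : ∀ t ∈ T, 2 * c ≤ t ∧ t < s
  base : ∀ i < c, 2 * c + i ∈ T
  big : 3 * c ≤ s
  ind : ∀ v ∈ cone P, v ≠ 0 → LinearIndepOn K (fun t => grad (h t) v) (T : Set ℕ)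
  span : ∀ v ∈ cone P, v ≠ 0 → ∀ t < s, grad (h t) v ∈ US h v T
  dead : ∀ i ∈ Dd, i < c ∧ ∃ s0, 2 * c ≤ s0 ∧ s0 % c = i ∧ (∀ t, s ≤ t → t % c = i → s0 ≤ t) ∧
    ∀ v ∈ cone P, v ≠ 0 → grad (h s0) v ∈ US h v (Set.Iio s0)
  cost : tdP Y + (r - c) * m ≤ tdP P + (r - c) * Dd.card

lemma GS2.auto {h : ℕ → MvPolynomial τ K} {J Y : Ideal (MvPolynomial τ K)} {c r m : ℕ}
    [Y.IsPrime] {s : ℕ} {T Dd : Finset ℕ} {P : Ideal (MvPolynomial τ K)} [P.IsPrime]
    (hE : Eqs h J Y c r) (hG : GS2 h c r m Y s T Dd P) {v : τ → K} (hv : v ∈ cone P) (hv0 : v ≠ 0)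
    {t : ℕ} (ht : s ≤ t) (htD : t % c ∈ Dd) : grad (h t) v ∈ US h v (Set.Iio t) := by
  obtain ⟨_, s0, h2, h3, hle, h4⟩ := hG.dead _ htD
  have hs0 : s0 ≤ t := hle t ht rfl
  have hvY : v ∈ cone Y := fun f hf => hv f (hG.le hf)
  have h5 := dead_iter hE hvY hv0 h2 (h4 v hv hv0) (t / c - s0 / c)
  have h6 : s0 + (t / c - s0 / c) * c = t := by
    have h7 : s0 / c ≤ t / c := Nat.div_le_div_right (by omega)
    have h8 := Nat.div_add_mod' s0 c
    have h9 := Nat.div_add_mod' t c
    have h10 : (t / c - s0 / c) * c + s0 / c * c = t / c * c := by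
      rw [← add_mul, Nat.sub_add_cancel h7]
    omega
  rwa [h6] at h5

lemma GS2.card_le {h : ℕ → MvPolynomial τ K} {J Y : Ideal (MvPolynomial τ K)} {c r m : ℕ}
    [Y.IsPrime] {s : ℕ} {T Dd : Finset ℕ} {P : Ideal (MvPolynomial τ K)} [P.IsPrime]
    (hE : Eqs h J Y c r) (hG : GS2 h c r m Y s T Dd P) : T.card ≤ r := by
  obtain ⟨v, hv, hv0⟩ := hG.ne
  have hvY : v ∈ cone Y := fun f hf => hv f (hG.le hf)
  rw [← hE.rank v hvY hv0]
  let γ : T → conormal J v := fun t => ⟨grad (h t) v, grad_mem J v (hE.mem t)⟩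
  have h3 : LinearIndependent K γ :=
    LinearIndependent.of_comp (conormal J v).subtype (hG.ind v hv hv0)
  have h4 := h3.fintype_card_le_finrank
  rwa [Fintype.card_coe] at h4

lemma GS2.full {h : ℕ → MvPolynomial τ K} {J Y : Ideal (MvPolynomial τ K)} {c r m : ℕ}
    [Y.IsPrime] {s : ℕ} {T Dd : Finset ℕ} {P : Ideal (MvPolynomial τ K)} [P.IsPrime]
    (hE : Eqs h J Y c r) (hG : GS2 h c r m Y s T Dd P) (hD : c ≤ Dd.card) : r ≤ T.card := by
  classical
  obtain ⟨v, hv, hv0⟩ := hG.ne
  have hvY : v ∈ cone Y := fun f hf => hv f (hG.le hf)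
  have hDd : Dd = Finset.range c := by
    apply Finset.eq_of_subset_of_card_le
    · intro i hi
      exact Finset.mem_range.2 (hG.dead i hi).1
    · rw [Finset.card_range]; exact hD
  have h1 := hE.all v hvY hv0 s (fun t ht => hG.auto hE hv hv0 ht (by
    rw [hDd, Finset.mem_range]
    exact Nat.mod_lt t hE.pos))
  have h2 : US h v (Set.Iio s) ≤ US h v T := US_le h v (fun t ht => hG.span v hv hv0 t ht)
  have h3 := Submodule.finrank_mono (h1.trans h2)
  rw [hE.rank v hvY hv0] at h3
  refine h3.trans ?_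
  have h4 : US h v T = Submodule.span K ((T.image (fun t => grad (h t) v) : Finset (τ → K)) :
      Set (τ → K)) := by
    rw [US, Finset.coe_image]
  rw [h4]
  exact (finrank_span_finset_le_card _).trans Finset.card_image_le

lemma GS2.base_card {h : ℕ → MvPolynomial τ K} {Y : Ideal (MvPolynomial τ K)} {c r m : ℕ}
    [Y.IsPrime] {s : ℕ} {T Dd : Finset ℕ} {P : Ideal (MvPolynomial τ K)} [P.IsPrime]
    (hG : GS2 h c r m Y s T Dd P) : c ≤ T.card := by
  have h1 : (Finset.range c).image (fun i => 2 * c + i) ⊆ T := by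
    intro t ht
    rw [Finset.mem_image] at ht
    obtain ⟨i, hi, rfl⟩ := ht
    exact hG.base i (Finset.mem_range.1 hi)
  have h2 := Finset.card_le_card h1
  rw [Finset.card_image_of_injective _ (fun a b hab => by simpa using hab),
    Finset.card_range] at h2
  exact h2

theorem greedy2 [IsAlgClosed K] {h : ℕ → MvPolynomial τ K} {J Y : Ideal (MvPolynomial τ K)}
    {c r m : ℕ} [Y.IsPrime] (hE : Eqs h J Y c r) : ∀ (N s : ℕ) (T Dd : Finset ℕ)
    (P : Ideal (MvPolynomial τ K)) [P.IsPrime], GS2 h c r m Y s T Dd P → Dd.card < c →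
    (r - T.card) + (c - Dd.card) ≤ N →
    ∃ (T' : Finset ℕ) (P' : Ideal (MvPolynomial τ K)) (_ : P'.IsPrime), Hm P' ∧ Y ≤ P' ∧
      T'.card = r ∧ (∀ i < c, 2 * c + i ∈ T') ∧ (∀ t ∈ T', 2 * c ≤ t) ∧
      (∀ v ∈ cone P', v ≠ 0 → LinearIndepOn K (fun t => grad (h t) v) (T' : Set ℕ)) ∧
      tdP Y + (r - c) * m ≤ tdP P' + (r - c) * (c - 1) := by
  classical
  intro N
  induction N with
  | zero =>
    intro s T Dd P _ hG hD hN
    omega
  | succ N ih =>
    intro s T Dd P hPp hG hD hN
    have hTr := hG.card_le hE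
    rcases Nat.eq_or_lt_of_le hTr with heq | hlt
    · refine ⟨T, P, hPp, hG.hm, hG.le, heq, hG.base, fun t ht => (hG.low t ht).1, hG.ind, ?_⟩
      refine hG.cost.trans ?_
      gcongr
      omega
    -- the next event
    have hex : ∃ t, s ≤ t ∧ t % c ∉ Dd := by
      have h1 : ∃ i, i < c ∧ i ∉ Dd := by
        by_contra hcon
        push Not at hcon
        have h2 : Finset.range c ⊆ Dd := fun i hi => hcon i (Finset.mem_range.1 hi)
        have h3 := Finset.card_le_card h2
        rw [Finset.card_range] at h3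
        omega
      obtain ⟨i, hi, hiD⟩ := h1
      refine ⟨s * c + i, ?_, ?_⟩
      · have := Nat.le_mul_of_pos_right s hE.pos
        omega
      · rw [mul_comm, Nat.mul_add_mod, Nat.mod_eq_of_lt hi]
        exact hiD
    obtain ⟨hst, htD⟩ := Nat.find_spec hex
    set t0 := Nat.find hex with ht0
    have hmin : ∀ t, s ≤ t → t < t0 → t % c ∈ Dd := by
      intro t h1 h2
      have h3 := Nat.find_min hex h2
      by_contra h4
      exact h3 ⟨h1, h4⟩
    have hspan : ∀ v ∈ cone P, v ≠ 0 → ∀ t < t0, grad (h t) v ∈ US h v T := by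
      intro v hv hv0 t
      induction t using Nat.strong_induction_on with
      | _ t iht =>
        intro ht
        rcases Nat.lt_or_ge t s with h1 | h1
        · exact hG.span v hv hv0 t h1
        · have h2 := hG.auto hE hv hv0 h1 (hmin t h1 ht)
          exact US_le h v (fun t' ht' => iht t' ht' (lt_trans ht' ht)) h2
    have hTle : ∀ t ∈ T, t < t0 := fun t ht => lt_of_lt_of_le (hG.low t ht).2 hst
    by_cases hev : ∃ v0 ∈ cone P, v0 ≠ 0 ∧ grad (h t0) v0 ∈ US h v0 T
    · obtain ⟨v0, hv0, hv00, hmem⟩ := hev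
      have hUS : ∀ v, US h v T = Submodule.span K (Set.range fun i : T => grad (h i) v) := by
        intro v
        rw [US, Set.image_eq_range]
        rfl
      rw [hUS] at hmem
      obtain ⟨R, hR, hRm, hPR, hRne, hcost, hRsp⟩ := step_dead (J := J) hG.hm
        (fun v hv hvne => hE.rank v (fun f hf => hv f (hG.le hf)) hvne)
        (fun i : T => h i) (fun i : T => (i : ℕ) / c) (fun i => hE.homog i) (fun i => hE.mem i)
        (fun v hv hvne => hG.ind v hv hvne) (h t0) (t0 / c) (hE.homog t0) (hE.mem t0) v0 hv0 hv00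
        hmem
      rw [Fintype.card_coe] at hcost
      have hRP : ∀ v ∈ cone R, v ∈ cone P := fun v hv f hf => hv f (hPR hf)
      have hG' : GS2 h c r m Y (t0 + 1) T (insert (t0 % c) Dd) R := by
        refine ⟨hRm, hG.le.trans hPR, hRne, fun t ht => ⟨(hG.low t ht).1, ?_⟩, hG.base, ?_,
          fun v hv hvne => hG.ind v (hRP v hv) hvne, ?_, ?_, ?_⟩
        · have := hTle t ht
          omega
        · have := hG.big
          omega
        · intro v hv hvne t ht
          rcases Nat.lt_succ_iff_lt_or_eq.1 ht with h1 | h1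
          · exact hspan v (hRP v hv) hvne t h1
          · rw [h1, hUS]
            exact hRsp v hv hvne
        · intro i hi
          rw [Finset.mem_insert] at hi
          rcases hi with rfl | hi
          · refine ⟨Nat.mod_lt _ hE.pos, t0, ?_, rfl, fun t ht _ => by omega, ?_⟩
            · have := hG.big
              omega
            · intro v hv hvne
              have h1 := hRsp v hv hvne
              rw [← hUS] at h1
              exact US_mono h v (fun t ht => hTle t ht) h1
          · obtain ⟨h1, s0, h3, h4, hle, h5⟩ := hG.dead i hi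
            exact ⟨h1, s0, h3, h4, fun t ht hti => hle t (by omega) hti,
              fun v hv hvne => h5 v (hRP v hv) hvne⟩
        · rw [Finset.card_insert_of_notMem htD]
          have h1 := hG.cost
          have h2 := hG.base_card
          have h3 : (r - c) * (Dd.card + 1) = (r - c) * Dd.card + (r - c) := by ring
          omega
      have hcard : (insert (t0 % c) Dd).card = Dd.card + 1 := Finset.card_insert_of_notMem htD
      refine ih (t0 + 1) T (insert (t0 % c) Dd) R hG' ?_ ?_
      · by_contra hcon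
        have := hG'.full hE (by omega)
        omega
      · rw [hcard]
        omega
    · push Not at hev
      have ht0T : t0 ∉ T := fun hmem => absurd (hTle t0 hmem) (lt_irrefl _)
      have hG' : GS2 h c r m Y (t0 + 1) (insert t0 T) Dd P := by
        refine ⟨hG.hm, hG.le, hG.ne, ?_, ?_, ?_, ?_, ?_, ?_, hG.cost⟩
        · intro t ht
          rw [Finset.mem_insert] at ht
          have := hG.big
          rcases ht with rfl | ht
          · exact ⟨by omega, by omega⟩
          · have := hTle t ht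
            exact ⟨(hG.low t ht).1, by omega⟩
        · intro i hi
          exact Finset.mem_insert_of_mem (hG.base i hi)
        · have := hG.big
          omega
        · intro v hv hvne
          rw [Finset.coe_insert]
          exact LinearIndepOn.insert (hG.ind v hv hvne) (hev v hv hvne)
        · intro v hv hvne t ht
          rcases Nat.lt_succ_iff_lt_or_eq.1 ht with h1 | h1
          · refine US_mono h v ?_ (hspan v hv hvne t h1)
            rw [Finset.coe_insert]
            exact Set.subset_insert _ _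
          · rw [h1]
            exact mem_US h v (by rw [Finset.coe_insert]; exact Set.mem_insert _ _)
        · intro i hi
          obtain ⟨h1, s0, h3, h4, hle, h5⟩ := hG.dead i hi
          exact ⟨h1, s0, h3, h4, fun t ht hti => hle t (by omega) hti, h5⟩
      refine ih (t0 + 1) (insert t0 T) Dd P hG' hD ?_
      rw [Finset.card_insert_of_notMem ht0T]
      omega

end Pool.Agent.Run7.h399

/-!
# Generic smoothness
-/

namespace Pool.Agent.Run7.h399

open MvPolynomial Pool.Agent.Run7.h399.Hart Pool.Agent.R948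

variable {τ : Type} [Fintype τ] [DecidableEq τ] {K : Type} [Field K]

lemma totalDegree_pderiv_lt {ι : Type} (P : MvPolynomial ι K) (i : ι) (h : pderiv i P ≠ 0) :
    (pderiv i P).totalDegree < P.totalDegree := by
  classical
  obtain ⟨m, hm, hmax⟩ := Finset.exists_mem_eq_sup _ (support_nonempty.2 h)
    (fun s : ι →₀ ℕ => s.sum fun _ e => e)
  have h1 : (pderiv i P).totalDegree = m.sum fun _ e => e := hmax
  have h2 : coeff m (pderiv i P) ≠ 0 := mem_support_iff.1 hm
  rw [coeff_pderiv] at h2
  have h3 : coeff (m + Finsupp.single i 1) P ≠ 0 := fun h0 => h2 (by rw [h0]; simp)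
  have h4 := le_totalDegree (mem_support_iff.2 h3)
  rw [Finsupp.sum_add_index' (by simp) (by simp)] at h4
  simp at h4
  rw [h1]
  simpa [Finsupp.sum] using Nat.lt_of_succ_le h4

lemma notMem_vars_of_pderiv [CharZero K] {ι : Type} (f : MvPolynomial ι K) (j : ι)
    (h : pderiv j f = 0) : j ∉ f.vars := by
  classical
  intro hj
  rw [mem_vars] at hj
  obtain ⟨m, hm, hj⟩ := hj
  have h1 : m j ≠ 0 := Finsupp.mem_support_iff.1 hj
  have h2 : (m - Finsupp.single j 1) + Finsupp.single j 1 = m := by
    apply tsub_add_cancel_of_le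
    rw [Finsupp.single_le_iff]
    omega
  have h3 := congrArg (coeff (m - Finsupp.single j 1)) h
  rw [coeff_pderiv, h2, coeff_zero] at h3
  rcases mul_eq_zero.1 h3 with h4 | h4
  · exact (mem_support_iff.1 hm) h4
  · have h5 : ((((m - Finsupp.single j 1 : ι →₀ ℕ) j) + 1 : ℕ) : K) = 0 := by
      push_cast
      exact h4
    exact (Nat.cast_ne_zero.2 (Nat.succ_ne_zero _)) h5

theorem exists_rel [CharZero K] (P : Ideal (MvPolynomial τ K)) [hP : P.IsPrime] (S : Finset τ)
    (hS : S.card = tdP P) (hind : AlgebraicIndependent K (fun i : S => cp P i)) (j : τ)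
    (hj : j ∉ S) : ∃ f ∈ P, pderiv j f ∉ P ∧ ∀ k, k ∉ S → k ≠ j → pderiv k f = 0 := by
  classical
  set T : Finset τ := insert j S with hT
  have hjT : j ∈ T := Finset.mem_insert_self j S
  let ι : T → τ := Subtype.val
  have hex : ∃ g : MvPolynomial T K, g ≠ 0 ∧ rename ι g ∈ P := by
    by_contra hcon
    push Not at hcon
    have h1 : AlgebraicIndependent K (fun i : T => cp P i) := by
      rw [algebraicIndependent_iff]
      intro p hp
      by_contra hne
      apply hcon p hne
      rw [← aeval_cp_eq_zero, aeval_rename]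
      exact hp
    have h2 := le_td K h1
    have h3 : T.card = S.card + 1 := Finset.card_insert_of_notMem hj
    have h4 : td K (cp P) = S.card := hS.symm
    omega
  have hex2 : ∃ d : ℕ, ∃ g : MvPolynomial T K, g ≠ 0 ∧ rename ι g ∈ P ∧ g.totalDegree = d := by
    obtain ⟨g, h1, h2⟩ := hex
    exact ⟨_, g, h1, h2, rfl⟩
  obtain ⟨g, hg0, hgP, hgd⟩ := Nat.find_spec hex2
  have hmin : ∀ g' : MvPolynomial T K, g' ≠ 0 → rename ι g' ∈ P →
      g.totalDegree ≤ g'.totalDegree := by
    intro g' h1 h2
    rw [hgd]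
    exact Nat.find_min' hex2 ⟨g', h1, h2, rfl⟩
  refine ⟨rename ι g, hgP, ?_, ?_⟩
  · intro hmem
    have h1 : pderiv j (rename ι g) = rename ι (pderiv (⟨j, hjT⟩ : T) g) :=
      pderiv_rename Subtype.val_injective (⟨j, hjT⟩ : T) g
    rw [h1] at hmem
    have h2 : pderiv (⟨j, hjT⟩ : T) g = 0 := by
      by_contra hne
      have h3 := totalDegree_pderiv_lt g (⟨j, hjT⟩ : T) hne
      have h4 := hmin _ hne hmem
      omega
    have h3 := notMem_vars_of_pderiv g _ h2
    let κ : S → T := fun i => ⟨i, Finset.mem_insert_of_mem i.2⟩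
    have hκ : Function.Injective κ := by
      intro a b hab
      apply Subtype.ext
      exact congrArg (fun t : T => (t : τ)) hab
    obtain ⟨g', hg'⟩ := exists_rename_eq_of_vars_subset_range g κ hκ (by
      intro t ht
      have h4 : t ≠ ⟨j, hjT⟩ := by
        rintro rfl
        exact h3 ht
      have h5 : (t : τ) ≠ j := fun h => h4 (Subtype.ext h)
      have h6 := Finset.mem_insert.1 t.2
      exact ⟨⟨t, h6.resolve_left h5⟩, rfl⟩)
    have h4 : g' = 0 := by
      apply algebraicIndependent_iff.1 hind g'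
      have h5 := (aeval_cp_eq_zero P _).2 hgP
      rw [← hg', rename_rename, aeval_rename] at h5
      exact h5
    apply hg0
    rw [← hg', h4, map_zero]
  · intro k hk hkj
    apply pderiv_eq_zero_of_notMem_vars
    intro h1
    have h2 := vars_rename ι g h1
    rw [Finset.mem_image] at h2
    obtain ⟨t, _, ht⟩ := h2
    have h3 := Finset.mem_insert.1 t.2
    rcases h3 with h3 | h3
    · apply hkj
      rw [← ht]
      exact h3
    · apply hk
      rw [← ht]
      exact h3

/-- **Generic smoothness.** -/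
theorem generic_smooth [CharZero K] (P : Ideal (MvPolynomial τ K)) [hP : P.IsPrime] :
    ∃ D, D ∉ P ∧ ∀ z, eval z D ≠ 0 →
      Fintype.card τ ≤ tdP P + Module.finrank K (conormal P z) := by
  classical
  obtain ⟨S, hS, hind, -⟩ := exists_td K (cp P)
  choose F hFP hFd hF0 using fun j : {j // j ∉ S} => exists_rel P S hS hind j.1 j.2
  refine ⟨∏ j : {j // j ∉ S}, pderiv j.1 (F j), ?_, ?_⟩
  · intro h
    rw [hP.prod_mem_iff] at h
    obtain ⟨j, -, hj⟩ := h
    exact hFd j hj
  · intro z hz
    rw [map_prod, Finset.prod_ne_zero_iff] at hz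
    have hli : LinearIndependent K (fun j : {j // j ∉ S} => grad (F j) z) := by
      rw [Fintype.linearIndependent_iff]
      intro a ha k
      have h1 := congrFun ha k.1
      rw [Finset.sum_apply, Finset.sum_eq_single k] at h1
      · rw [Pi.smul_apply, smul_eq_mul, Pi.zero_apply] at h1
        exact (mul_eq_zero.1 h1).resolve_right (hz k (Finset.mem_univ k))
      · intro j _ hjk
        rw [Pi.smul_apply, smul_eq_mul]
        have h2 : grad (F j) z k.1 = 0 := by
          show eval z (pderiv k.1 (F j)) = 0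
          rw [hF0 j k.1 k.2 (fun h => hjk (Subtype.ext h.symm)), map_zero]
        rw [h2, mul_zero]
      · intro h
        exact absurd (Finset.mem_univ k) h
    let γ : {j // j ∉ S} → conormal P z := fun j =>
      ⟨grad (F j) z, Submodule.subset_span ⟨F j, hFP j, rfl⟩⟩
    have h3 : LinearIndependent K γ :=
      LinearIndependent.of_comp (conormal P z).subtype hli
    have h4 := h3.fintype_card_le_finrank
    have h5 : Fintype.card {j // j ∉ S} = Fintype.card τ - S.card := by
      rw [Fintype.card_subtype_compl, Fintype.card_coe]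
    have h6 : tdP P = S.card := hS.symm
    omega

end Pool.Agent.Run7.h399

/-!
# Two cones of large dimension meet
-/

namespace Pool.Agent.Run7.h399

open MvPolynomial Pool.Agent.Run7.h399.Hart Pool.Agent.R948

variable {τ : Type} [Fintype τ] [DecidableEq τ] {K : Type} [Field K]

/-- at a general point an irreducible variety is cut out by as many equations as its codimension -/
theorem smooth_point_local [IsAlgClosed K] [CharZero K] (Q : Ideal (MvPolynomial τ K))
    [hQ : Q.IsPrime] : ∃ w ∈ cone Q, ∃ (e : ℕ) (E : Fin e → MvPolynomial τ K),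
      (∀ i, E i ∈ Q) ∧ e + tdP Q = Fintype.card τ ∧
      ∀ f ∈ Q, ∃ a, eval w a ≠ 0 ∧ ∃ N : ℕ, a * f ^ N ∈ Ideal.span (Set.range E) := by
  classical
  obtain ⟨D, hD, hsm⟩ := generic_smooth Q
  have hex : ∃ w0 ∈ cone Q, eval w0 D ≠ 0 := by
    by_contra hcon
    push Not at hcon
    exact hD (mem_of_vanish Q hQ D hcon)
  obtain ⟨w0, hw0, hDw⟩ := hex
  have h1 := hsm w0 hDw
  have h2 := tdP_le_of_tangent Q w0 hw0
  obtain ⟨E, hE, hind, -⟩ := exists_basis_grads Q w0
  have hbot : (⊥ : Ideal (MvPolynomial τ K)).IsPrime := Ideal.isPrime_bot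
  obtain ⟨R, hR, hRQ, hmin, hle⟩ := exists_cut (⊥ : Ideal (MvPolynomial τ K)) Q hbot hQ bot_le E hE
  rw [bot_sup_eq] at hmin
  have hER : ∀ i, E i ∈ R := fun i => hmin.1.2 (Ideal.subset_span ⟨i, rfl⟩)
  have hw0R : w0 ∈ cone R := fun f hf => hw0 f (hRQ hf)
  have h3 := tdP_le_of_tangent R w0 hw0R
  have h4 : Module.finrank K (conormal Q w0) ≤ Module.finrank K (conormal R w0) := by
    let γ : Fin (Module.finrank K (conormal Q w0)) → conormal R w0 := fun i =>
      ⟨grad (E i) w0, grad_mem R w0 (hER i)⟩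
    have h5 : LinearIndependent K γ :=
      LinearIndependent.of_comp (conormal R w0).subtype hind
    have h6 := h5.fintype_card_le_finrank
    rwa [Fintype.card_fin] at h6
  have hRe : R = Q := by
    by_contra hne
    have h5 := tdP_strict (lt_of_le_of_ne hRQ hne)
    omega
  subst hRe
  obtain ⟨w, hw, hrad⟩ := general_radical _ R hmin
  exact ⟨w, hw, _, E, hE, by omega, hrad⟩

/-- two cones of large dimension have a common nonzero point -/
theorem meet_cones [IsAlgClosed K] [CharZero K] (P Q : Ideal (MvPolynomial τ K))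
    [hPp : P.IsPrime] [hQp : Q.IsPrime] (hP : Hm P) (hQ : Hm Q)
    (hdim : Fintype.card τ < tdP P + tdP Q) : ∃ y ∈ cone P, y ≠ 0 ∧ y ∈ cone Q := by
  obtain ⟨w, hw, e, E, hE, he, hloc⟩ := smooth_point_local Q
  obtain ⟨y, hy, hy0, hyq⟩ := join (e := e) P hP LinearMap.id Q w hw E hE hloc (by omega)
  refine ⟨y, hy, hy0, fun f hf => ?_⟩
  rw [← sum_homogeneousComponent f, map_sum]
  refine Finset.sum_eq_zero (fun d _ => ?_)
  exact (hyq _ (hQ f hf d) d (homogeneousComponent_isHomogeneous d f)).1

end Pool.Agent.Run7.h399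

/-!
# Constancy of the flags of dead directions
-/

namespace Pool.Agent.Run7.h399

open MvPolynomial Pool.Agent.Run7.h399.Hart Pool.Agent.R948

variable {τ : Type} [Fintype τ] [DecidableEq τ] {K : Type} [Field K]
  {κ : Type} [Fintype κ] [DecidableEq κ]

/-- a linear combination of forms -/
noncomputable def cmb {m : ℕ} (h : Fin m → MvPolynomial τ K) (u : Fin m → K) :
    MvPolynomial τ K := ∑ i, C (u i) * h i

lemma grad_cmb {m : ℕ} (h : Fin m → MvPolynomial τ K) (u : Fin m → K) (v : τ → K) :
    grad (cmb h u) v = ∑ i, u i • grad (h i) v := by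
  rw [cmb, grad_sum]
  exact Finset.sum_congr rfl (fun i _ => by rw [grad_C_mul])

lemma cmb_homog {m : ℕ} (h : Fin m → MvPolynomial τ K) (d : ℕ) (hh : ∀ i, (h i).IsHomogeneous d)
    (u : Fin m → K) : (cmb h u).IsHomogeneous d := by
  refine IsHomogeneous.sum _ _ _ (fun i _ => ?_)
  have := (isHomogeneous_C τ (u i)).mul (hh i)
  rwa [zero_add] at this

lemma cmb_mem {m : ℕ} {J : Ideal (MvPolynomial τ K)} (h : Fin m → MvPolynomial τ K)
    (hJ : ∀ i, h i ∈ J) (u : Fin m → K) : cmb h u ∈ J :=
  Ideal.sum_mem _ (fun i _ => J.mul_mem_left _ (hJ i))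

/-- the differential of a combination at a point, as a linear map -/
noncomputable def gl {m : ℕ} (h : Fin m → MvPolynomial τ K) (v : τ → K) :
    (Fin m → K) →ₗ[K] (τ → K) :=
  ∑ i, (LinearMap.proj i : (Fin m → K) →ₗ[K] K).smulRight (grad (h i) v)

lemma gl_apply {m : ℕ} (h : Fin m → MvPolynomial τ K) (v : τ → K) (u : Fin m → K) :
    gl h v u = grad (cmb h u) v := by
  rw [grad_cmb]
  simp [gl, LinearMap.sum_apply]

lemma gl_single {m : ℕ} (h : Fin m → MvPolynomial τ K) (v : τ → K) (i : Fin m) :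
    gl h v (Pi.single i 1) = grad (h i) v := by
  rw [gl_apply, grad_cmb, Finset.sum_eq_single i]
  · rw [Pi.single_eq_same, one_smul]
  · intro j _ hj
    rw [Pi.single_eq_of_ne hj, zero_smul]
  · intro hi
    exact absurd (Finset.mem_univ i) hi

lemma li_elim {ι : Type} [Fintype ι] {V : Type} [AddCommGroup V] [Module K V] (x : κ → V)
    (y : ι → V) (hx : LinearIndependent K x)
    (hy : ∀ β : ι → K, ∑ j, β j • y j ∈ Submodule.span K (Set.range x) → β = 0) :
    LinearIndependent K (Sum.elim x y) := by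
  rw [Fintype.linearIndependent_iff] at hx ⊢
  intro c hc
  rw [Fintype.sum_sum_type] at hc
  simp only [Sum.elim_inl, Sum.elim_inr] at hc
  have h1 : (fun j => c (Sum.inr j)) = 0 := by
    apply hy
    have h2 : ∑ j, c (Sum.inr j) • y j = - ∑ i, c (Sum.inl i) • x i :=
      eq_neg_of_add_eq_zero_right hc
    rw [h2]
    exact Submodule.neg_mem _ (Submodule.sum_mem _ (fun i _ =>
      Submodule.smul_mem _ _ (Submodule.subset_span ⟨i, rfl⟩)))
  have h2 : ∀ j, c (Sum.inr j) = 0 := fun j => congrFun h1 j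
  have h3 : ∑ i, c (Sum.inl i) • x i = 0 := by
    simpa [h2] using hc
  have h4 := hx _ h3
  intro i
  rcases i with i | j
  · exact h4 i
  · exact h2 j

/-- **The dead directions are constant** when all ranks are constant. -/
theorem const_flag [IsAlgClosed K] [CharZero K] {J Y : Ideal (MvPolynomial τ K)}
    [hYp : Y.IsPrime] (hY : Hm Y) {R : ℕ}
    (hrank : ∀ v ∈ cone Y, v ≠ 0 → Module.finrank K (conormal J v) = R)
    (g : κ → MvPolynomial τ K) (dg : κ → ℕ) (hg : ∀ i, (g i).IsHomogeneous (dg i))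
    (hgJ : ∀ i, g i ∈ J)
    (hind : ∀ v ∈ cone Y, v ≠ 0 → LinearIndependent K (fun i => grad (g i) v))
    {m : ℕ} (h : Fin m → MvPolynomial τ K) (d : ℕ) (hh : ∀ i, (h i).IsHomogeneous d)
    (hhJ : ∀ i, h i ∈ J)
    (hspan : ∀ v ∈ cone Y, v ≠ 0 → conormal J v ≤
      Submodule.span K (Set.range fun i => grad (g i) v) ⊔
      Submodule.span K (Set.range fun i => grad (h i) v))
    (hdim : Fintype.card τ + m < 2 * tdP Y) (v0 : τ → K) (hv0 : v0 ∈ cone Y) (hv00 : v0 ≠ 0) :
    ∃ (e : ℕ) (a : Fin e → Fin m → K), Fintype.card κ + e = R ∧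
      ∀ v ∈ cone Y, v ≠ 0 → LinearIndependent K
        (Sum.elim (fun i => grad (g i) v) (fun j => grad (cmb h (a j)) v)) := by
  classical
  set Sg : (τ → K) → Submodule K (τ → K) := fun v =>
    Submodule.span K (Set.range fun i => grad (g i) v) with hSg
  let D0 : Submodule K (Fin m → K) := (Sg v0).comap (gl h v0)
  obtain ⟨C0, hC⟩ := Submodule.exists_isCompl D0
  let b := Module.finBasis K D0
  let a := Module.finBasis K C0
  set s := Module.finrank K D0 with hs
  set e := Module.finrank K C0 with he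
  have hse : s + e = m := by
    have h1 := Submodule.finrank_add_eq_of_isCompl hC
    rwa [Module.finrank_fintype_fun_eq_card, Fintype.card_fin] at h1
  let a' : Fin e → Fin m → K := fun j => ((a j : C0) : Fin m → K)
  let b' : Fin s → Fin m → K := fun l => ((b l : D0) : Fin m → K)
  have ha'ind : LinearIndependent K a' :=
    a.linearIndependent.map' C0.subtype (Submodule.ker_subtype _)
  have hrepC : ∀ z ∈ C0, ∃ β : Fin e → K, z = ∑ j, β j • a' j := by
    intro z hz
    refine ⟨fun j => a.repr ⟨z, hz⟩ j, ?_⟩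
    have h1 := congrArg (fun w : C0 => (w : Fin m → K)) (a.sum_repr ⟨z, hz⟩)
    simp only [Submodule.coe_sum, Submodule.coe_smul] at h1
    exact h1.symm
  have hrepD : ∀ z ∈ D0, ∃ β : Fin s → K, z = ∑ l, β l • b' l := by
    intro z hz
    refine ⟨fun j => b.repr ⟨z, hz⟩ j, ?_⟩
    have h1 := congrArg (fun w : D0 => (w : Fin m → K)) (b.sum_repr ⟨z, hz⟩)
    simp only [Submodule.coe_sum, Submodule.coe_smul] at h1
    exact h1.symm
  have hgl : ∀ (v : τ → K) {ι : Type} (t : Finset ι) (β : ι → K) (z : ι → Fin m → K),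
      grad (cmb h (∑ j ∈ t, β j • z j)) v = ∑ j ∈ t, β j • grad (cmb h (z j)) v := by
    intro v ι t β z
    rw [← gl_apply, map_sum]
    exact Finset.sum_congr rfl (fun j _ => by rw [map_smul, gl_apply])
  -- independence at the base point
  have hbase : LinearIndependent K
      (Sum.elim (fun i => grad (g i) v0) (fun j => grad (cmb h (a' j)) v0)) := by
    apply li_elim _ _ (hind v0 hv0 hv00)
    intro β hβ
    rw [← hgl] at hβ
    have h1 : ∑ j, β j • a' j ∈ D0 := by
      show gl h v0 _ ∈ Sg v0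
      rw [gl_apply]
      exact hβ
    have h2 : ∑ j, β j • a' j ∈ C0 :=
      Submodule.sum_mem _ (fun j _ => Submodule.smul_mem _ _ (a j).2)
    have h3 : ∑ j, β j • a' j = 0 := by
      have h4 : ∑ j, β j • a' j ∈ D0 ⊓ C0 := ⟨h1, h2⟩
      rwa [hC.inf_eq_bot, Submodule.mem_bot] at h4
    funext j
    exact Fintype.linearIndependent_iff.1 ha'ind β h3 j
  have hcard : Fintype.card κ + e = R := by
    have h1 : Submodule.span K (Set.range
        (Sum.elim (fun i => grad (g i) v0) (fun j => grad (cmb h (a' j)) v0))) =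
        conormal J v0 := by
      apply le_antisymm
      · rw [Submodule.span_le]
        rintro _ ⟨i, rfl⟩
        rcases i with i | j
        · exact grad_mem J v0 (hgJ i)
        · exact grad_mem J v0 (cmb_mem h hhJ (a' j))
      · refine (hspan v0 hv0 hv00).trans (sup_le ?_ ?_)
        · apply Submodule.span_mono
          rintro _ ⟨i, rfl⟩
          exact ⟨Sum.inl i, rfl⟩
        · rw [Submodule.span_le]
          rintro _ ⟨i, rfl⟩
          have h2 : (Pi.single i 1 : Fin m → K) ∈ D0 ⊔ C0 := by rw [hC.sup_eq_top]; trivial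
          obtain ⟨x, hx, z, hz, hxz⟩ := Submodule.mem_sup.1 h2
          rw [SetLike.mem_coe]
          change grad (h i) v0 ∈ _
          rw [← gl_single, ← hxz, map_add]
          refine Submodule.add_mem _ ?_ ?_
          · have h3 : gl h v0 x ∈ Sg v0 := hx
            refine Submodule.span_mono ?_ h3
            rintro _ ⟨i, rfl⟩
            exact ⟨Sum.inl i, rfl⟩
          · obtain ⟨β, rfl⟩ := hrepC z hz
            rw [gl_apply, hgl]
            exact Submodule.sum_mem _ (fun j _ => Submodule.smul_mem _ _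
              (Submodule.subset_span ⟨Sum.inr j, rfl⟩))
    have h2 := finrank_span_eq_card hbase
    rw [h1, hrank v0 hv0 hv00, Fintype.card_sum, Fintype.card_fin] at h2
    exact h2.symm
  refine ⟨e, a', hcard, ?_⟩
  intro v1 hv1 hv10
  apply li_elim _ _ (hind v1 hv1 hv10)
  intro β hβ
  by_contra hβ0
  obtain ⟨j0, hj0⟩ := Function.ne_iff.1 hβ0
  rw [Pi.zero_apply] at hj0
  rw [← hgl] at hβ
  set u := ∑ j, β j • a' j with hu
  -- the locus where `u` is dead
  obtain ⟨R2, hR2, hR2m, hYR2, -, hcost2, hR2sp⟩ := step_dead (J := J) hY hrank g dg hg hgJ hind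
    (cmb h u) d (cmb_homog h d hh u) (cmb_mem h hhJ u) v1 hv1 hv10 hβ
  -- the family without the direction `a j0`
  set fam0 : κ ⊕ Fin e → MvPolynomial τ K := Sum.elim g (fun j => cmb h (a' j)) with hfam0
  set T : {i : κ ⊕ Fin e // i ≠ Sum.inr j0} → MvPolynomial τ K := fun i => fam0 i.1 with hT
  have hbase' : LinearIndependent K (fun i => grad (fam0 i) v0) := by
    have h1 : (fun i => grad (fam0 i) v0) =
        Sum.elim (fun i => grad (g i) v0) (fun j => grad (cmb h (a' j)) v0) := by
      funext i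
      rcases i with i | j <;> rfl
    rw [h1]
    exact hbase
  have hSgT : ∀ v, Sg v ≤ Submodule.span K (Set.range fun i => grad (T i) v) := by
    intro v
    apply Submodule.span_mono
    rintro _ ⟨i, rfl⟩
    exact ⟨⟨Sum.inl i, by simp⟩, rfl⟩
  -- the excluded direction is recovered from `u`
  have hrec : ∀ v, ∀ N : Submodule K (τ → K),
      Submodule.span K (Set.range fun i => grad (T i) v) ≤ N → grad (cmb h u) v ∈ N →
      ∀ j, grad (cmb h (a' j)) v ∈ N := by
    intro v N hN huN j
    by_cases hj : j = j0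
    · subst hj
      have h1 : β j • grad (cmb h (a' j)) v =
          grad (cmb h u) v - ∑ i ∈ Finset.univ.erase j, β i • grad (cmb h (a' i)) v := by
        rw [hu, hgl, ← Finset.add_sum_erase _ _ (Finset.mem_univ j)]
        abel
      have h2 : β j • grad (cmb h (a' j)) v ∈ N := by
        rw [h1]
        refine Submodule.sub_mem _ huN (Submodule.sum_mem _ (fun i hi => ?_))
        refine Submodule.smul_mem _ _ (hN (Submodule.subset_span ⟨⟨Sum.inr i, ?_⟩, rfl⟩))
        intro h3
        exact (Finset.mem_erase.1 hi).1 (Sum.inr_injective h3)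
      have h3 := Submodule.smul_mem N (β j)⁻¹ h2
      rwa [smul_smul, inv_mul_cancel₀ hj0, one_smul] at h3
    · apply hN
      exact Submodule.subset_span ⟨⟨Sum.inr j, fun h3 => hj (Sum.inr_injective h3)⟩, rfl⟩
  have hcardT : Fintype.card {i : κ ⊕ Fin e // i ≠ Sum.inr j0} + 1 = R := by
    have h1 := Fintype.card_congr (Equiv.optionSubtypeNe (Sum.inr j0 : κ ⊕ Fin e))
    rw [Fintype.card_option, Fintype.card_sum, Fintype.card_fin] at h1
    omega
  set G : Option {i : κ ⊕ Fin e // i ≠ Sum.inr j0} → MvPolynomial τ K :=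
    fun o => o.elim (cmb h u) T with hG
  have hGv : ∀ (f : MvPolynomial τ K) (v : τ → K),
      (fun o : Option {i : κ ⊕ Fin e // i ≠ Sum.inr j0} =>
        grad ((o.elim f T : MvPolynomial τ K)) v) =
      fun o => Option.elim o (grad f v) (fun i => grad (T i) v) := by
    intro f v
    funext o
    rcases o with _ | i <;> rfl
  have hGind : LinearIndependent K (fun o => grad (G o) v0) := by
    rw [hG, hGv, li_option]
    refine ⟨hbase'.comp _ Subtype.val_injective, ?_⟩
    intro hmem
    have h1 := hrec v0 _ le_rfl hmem j0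
    have h2 := hbase'.notMem_span_image (s := {i | i ≠ Sum.inr j0}) (x := Sum.inr j0) (by simp)
    apply h2
    have h3 : (fun i => grad (fam0 i) v0) '' {i | i ≠ Sum.inr j0} =
        Set.range fun i => grad (T i) v0 := by
      ext ξ
      constructor
      · rintro ⟨i, hi, rfl⟩
        exact ⟨⟨i, hi⟩, rfl⟩
      · rintro ⟨i, rfl⟩
        exact ⟨i.1, i.2, rfl⟩
    rw [h3]
    exact h1
  obtain ⟨W, hW⟩ := exists_mdet G v0 hGind
  set E : Fin s → MvPolynomial τ K := fun l => mdet (fun o => o.elim (cmb h (b' l)) T) W with hE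
  have hE0 : ∀ l, E l ∈ mx v0 := by
    intro l
    rw [mem_mx]
    by_contra h1
    have h2 := ind_of_mdet _ W v0 h1
    rw [hGv, li_option] at h2
    apply h2.2
    apply hSgT
    have h3 : gl h v0 (b' l) ∈ Sg v0 := (b l).2
    rwa [gl_apply] at h3
  obtain ⟨R1, hR1, hR1M, hR1min, hcost1⟩ := exists_cut Y (mx v0) hYp (mx_prime v0)
    (fun f hf => (mem_mx v0 f).2 (hv0 f hf)) E hE0
  have hYR1 : Y ≤ R1 := le_sup_left.trans hR1min.1.2
  have hER : ∀ l, E l ∈ R1 := fun l =>
    hR1min.1.2 (Ideal.mem_sup_right (Ideal.subset_span ⟨l, rfl⟩))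
  have hv0R : v0 ∈ cone R1 := fun f hf => (mem_mx v0 f).1 (hR1M hf)
  have hR1m : Hm R1 := by
    refine Hm.minimal (Hm.sup hY (hm_span ?_)) hR1min
    rintro _ ⟨l, rfl⟩
    refine ⟨_, mdet_homog _ W (fun o => o.elim d (fun i => Sum.elim dg (fun _ => d) i.1)) ?_⟩
    intro o
    rcases o with _ | ⟨i | j, hi⟩
    · exact cmb_homog h d hh _
    · exact hg i
    · exact cmb_homog h d hh _
  have hkey : ∀ v ∈ cone R1, v ≠ 0 → eval v (mdet G W) ≠ 0 → ∀ l,
      grad (cmb h (b' l)) v ∈ Submodule.span K (Set.range fun i => grad (T i) v) := by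
    intro v hv hvne hDv l
    have hvY : v ∈ cone Y := fun f hf => hv f (hYR1 hf)
    have hindG := ind_of_mdet G W v hDv
    have hspanG : Submodule.span K (Set.range fun o => grad (G o) v) = conormal J v := by
      apply Submodule.eq_of_le_of_finrank_eq
      · rw [Submodule.span_le]
        rintro _ ⟨o, rfl⟩
        rcases o with _ | ⟨i | j, hi⟩
        · exact grad_mem J v (cmb_mem h hhJ u)
        · exact grad_mem J v (hgJ i)
        · exact grad_mem J v (cmb_mem h hhJ (a' j))
      · rw [finrank_span_eq_card hindG, Fintype.card_option, hcardT, hrank v hvY hvne]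
    obtain ⟨c, hc0, hc⟩ := mdet_zero _ W v (hv _ (hER l))
    have hz : ∑ o, c o • grad ((o.elim (cmb h (b' l)) T : MvPolynomial τ K)) v = 0 := by
      have h1 : ∑ o, c o • grad ((o.elim (cmb h (b' l)) T : MvPolynomial τ K)) v ∈
          conormal J v := by
        refine Submodule.sum_mem _ (fun o _ => Submodule.smul_mem _ _ ?_)
        rcases o with _ | ⟨i | j, hi⟩
        · exact grad_mem J v (cmb_mem h hhJ (b' l))
        · exact grad_mem J v (hgJ i)
        · exact grad_mem J v (cmb_mem h hhJ (a' j))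
      rw [← hspanG, Submodule.mem_span_range_iff_exists_fun] at h1
      obtain ⟨p, hp⟩ := h1
      have h2 : p = 0 := by
        apply mdet_inj G W v hDv
        intro j
        rw [← dotB_sum_left, hp, dotB_sum_left]
        exact hc j
      rw [← hp, h2]
      simp
    rw [Fintype.sum_option] at hz
    simp only [Option.elim_none, Option.elim_some] at hz
    have hTind : LinearIndependent K (fun i => grad (T i) v) := by
      rw [hG, hGv, li_option] at hindG
      exact hindG.1
    have hcn : c none ≠ 0 := by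
      intro h0
      apply hc0
      rw [h0, zero_smul, zero_add] at hz
      funext o
      rcases o with _ | i
      · exact h0
      · exact Fintype.linearIndependent_iff.1 hTind (fun i => c (some i)) hz i
    have h1 : c none • grad (cmb h (b' l)) v ∈
        Submodule.span K (Set.range fun i => grad (T i) v) := by
      rw [eq_neg_of_add_eq_zero_left hz]
      exact Submodule.neg_mem _ (Submodule.sum_mem _ (fun i _ => Submodule.smul_mem _ _
        (Submodule.subset_span ⟨i, rfl⟩)))
    have h2 := Submodule.smul_mem _ (c none)⁻¹ h1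
    rwa [smul_smul, inv_mul_cancel₀ hcn, one_smul] at h2
  -- the two loci meet
  obtain ⟨y, hy1, hy0, hy2⟩ := meet_cones R1 R2 hR1m hR2m (by omega)
  have hyY : y ∈ cone Y := fun f hf => hy1 f (hYR1 hf)
  set fam1 : {i : κ ⊕ Fin e // i ≠ Sum.inr j0} ⊕ Fin s → MvPolynomial τ K :=
    Sum.elim T (fun l => cmb h (b' l)) with hfam1
  have hTle : ∀ v, Submodule.span K (Set.range fun i => grad (T i) v) ≤
      Submodule.span K (Set.range fun i => grad (fam1 i) v) := by
    intro v
    apply Submodule.span_mono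
    rintro _ ⟨i, rfl⟩
    exact ⟨Sum.inl i, rfl⟩
  have hspany : Submodule.span K (Set.range fun i => grad (fam1 i) y) = conormal J y := by
    apply le_antisymm
    · rw [Submodule.span_le]
      rintro _ ⟨i, rfl⟩
      rcases i with ⟨i | j, hi⟩ | l
      · exact grad_mem J y (hgJ i)
      · exact grad_mem J y (cmb_mem h hhJ (a' j))
      · exact grad_mem J y (cmb_mem h hhJ (b' l))
    · refine (hspan y hyY hy0).trans (sup_le ((hSgT y).trans (hTle y)) ?_)
      rw [Submodule.span_le]
      rintro _ ⟨i, rfl⟩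
      have h2 : (Pi.single i 1 : Fin m → K) ∈ D0 ⊔ C0 := by rw [hC.sup_eq_top]; trivial
      obtain ⟨x, hx, z, hz, hxz⟩ := Submodule.mem_sup.1 h2
      rw [SetLike.mem_coe]
      change grad (h i) y ∈ _
      rw [← gl_single, ← hxz, map_add]
      refine Submodule.add_mem _ ?_ ?_
      · obtain ⟨β', rfl⟩ := hrepD x hx
        rw [gl_apply, hgl]
        exact Submodule.sum_mem _ (fun l _ => Submodule.smul_mem _ _
          (Submodule.subset_span ⟨Sum.inr l, rfl⟩))
      · obtain ⟨β', rfl⟩ := hrepC z hz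
        rw [gl_apply, hgl]
        exact Submodule.sum_mem _ (fun j _ => Submodule.smul_mem _ _
          (hrec y _ (hTle y) (hTle y (hSgT y (hR2sp y hy2 hy0))) j))
  obtain ⟨ι, sel, hsel, hselsp, hselind⟩ :=
    exists_linearIndependent' K (fun i => grad (fam1 i) y)
  haveI : Fintype ι := Fintype.ofInjective sel hsel
  have hcardι : Fintype.card ι = R := by
    have h1 := finrank_span_eq_card hselind
    rw [hselsp, hspany, hrank y hyY hy0] at h1
    exact h1.symm
  obtain ⟨W', hW'⟩ := exists_mdet (fun i => fam1 (sel i)) y hselind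
  obtain ⟨i0, hi0⟩ := Function.ne_iff.1 hv00
  have h1 : mdet (fun i => fam1 (sel i)) W' ∉ R1 := by
    intro hmem
    have := hy1 _ hmem
    rw [hW'] at this
    exact one_ne_zero this
  have h2 : mdet G W ∉ R1 := by
    intro hmem
    have := hv0R _ hmem
    rw [hW] at this
    exact one_ne_zero this
  have h3 : (X i0 : MvPolynomial τ K) ∉ R1 := by
    intro hmem
    have := hv0R _ hmem
    rw [eval_X] at this
    exact hi0 this
  have hex : ∃ v ∈ cone R1, eval v (mdet (fun i => fam1 (sel i)) W' * mdet G W * X i0) ≠ 0 := by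
    by_contra hcon
    push Not at hcon
    rcases hR1.mem_or_mem (mem_of_vanish R1 hR1 _ hcon) with h5 | h5
    · rcases hR1.mem_or_mem h5 with h6 | h6
      · exact h1 h6
      · exact h2 h6
    · exact h3 h5
  obtain ⟨v, hv, hvne⟩ := hex
  rw [map_mul, map_mul, eval_X] at hvne
  have hv0' : v ≠ 0 := by
    rintro rfl
    exact right_ne_zero_of_mul hvne rfl
  have hli := ind_of_mdet _ W' v (left_ne_zero_of_mul (left_ne_zero_of_mul hvne))
  have hk := hkey v hv hv0' (right_ne_zero_of_mul (left_ne_zero_of_mul hvne))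
  let γ : ι → Submodule.span K (Set.range fun i => grad (T i) v) := fun i =>
    ⟨grad (fam1 (sel i)) v, by
      rcases hsi : sel i with t | l
      · exact Submodule.subset_span ⟨t, rfl⟩
      · exact hk l⟩
  have h4 : LinearIndependent K γ :=
    LinearIndependent.of_comp (Submodule.span K (Set.range fun i => grad (T i) v)).subtype hli
  have h5 := h4.fintype_card_le_finrank
  have h6 := finrank_range_le_card (R := K) (fun i => grad (T i) v)
  rw [Set.finrank] at h6
  omega

end Pool.Agent.Run7.h399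

/-!
# The schemes of lines of given order of contact
-/

namespace Pool.Agent.Run7.h399

open MvPolynomial Pool.Agent.Run7.h399.Hart Pool.Agent.R948

variable {σ τ : Type} [Fintype σ] [DecidableEq σ] [Fintype τ] [DecidableEq τ]
  {K : Type} [Field K]

/-- the ideal of the lines through `x` with contact of order more than `k` -/
noncomputable def ordI (I : Ideal (MvPolynomial σ K)) (x : σ → K)
    (A : (τ → K) →ₗ[K] (σ → K)) (k : ℕ) : Ideal (MvPolynomial τ K) :=
  Ideal.span {g | ∃ f ∈ I, ∃ j ≤ k, g = (lexp x A f).coeff j}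

lemma ordI_le (I : Ideal (MvPolynomial σ K)) (x : σ → K) (A : (τ → K) →ₗ[K] (σ → K)) (k : ℕ) :
    ordI I x A k ≤ linesI I x A := by
  apply Ideal.span_mono
  rintro g ⟨f, hf, j, -, rfl⟩
  exact ⟨f, hf, j, rfl⟩

lemma coeff_mem_ordI {I : Ideal (MvPolynomial σ K)} (x : σ → K) (A : (τ → K) →ₗ[K] (σ → K))
    {f : MvPolynomial σ K} (hf : f ∈ I) {j k : ℕ} (hj : j ≤ k) :
    (lexp x A f).coeff j ∈ ordI I x A k := Ideal.subset_span ⟨f, hf, j, hj, rfl⟩

lemma conormal_mono {J J' : Ideal (MvPolynomial τ K)} (h : J ≤ J') (v : τ → K) :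
    conormal J v ≤ conormal J' v := by
  apply Submodule.span_mono
  rintro ξ ⟨G, hG, rfl⟩
  exact ⟨G, h hG, rfl⟩

lemma conormal_span_le (S : Set (MvPolynomial τ K)) (v : τ → K)
    (hv : v ∈ cone (Ideal.span S)) (N : Submodule K (τ → K)) (hN : ∀ g ∈ S, grad g v ∈ N) :
    conormal (Ideal.span S) v ≤ N := by
  rw [conormal, Submodule.span_le]
  rintro _ ⟨g, hg, rfl⟩
  have h0 : g ∈ Ideal.span S ∧ grad g v ∈ N := by
    refine Submodule.span_induction ?_ ?_ ?_ ?_ hg
    · intro g hg
      exact ⟨Ideal.subset_span hg, hN g hg⟩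
    · refine ⟨Ideal.zero_mem _, ?_⟩
      rw [grad_zero]
      exact N.zero_mem
    · intro a b _ _ ha hb
      refine ⟨Ideal.add_mem _ ha.1 hb.1, ?_⟩
      rw [grad_add]
      exact N.add_mem ha.2 hb.2
    · intro a b _ hb
      refine ⟨Ideal.mul_mem_left _ _ hb.1, ?_⟩
      rw [smul_eq_mul, grad_mul, hv b hb.1, zero_smul, zero_add]
      exact N.smul_mem _ hb.2
  exact h0.2

/-- the first nonvanishing coefficient of the differentials along a line -/
lemma top_coeff [IsAlgClosed K] {I : Ideal (MvPolynomial σ K)} {c : ℕ} {x : σ → K}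
    {A : (τ → K) →ₗ[K] (σ → K)} (h : FreePt I c x A) (v : τ → K)
    (hv : v ∈ cone (linesI I x A)) (hv0 : v ≠ 0) :
    ∀ (k : ℕ) (u' : τ → K),
      (∀ f ∈ I, ∀ l < k, (dl x (A v) f (cv (A u'))).coeff l = 0) →
      ∃ w : σ → K, ∀ f ∈ I, (dl x (A v) f (cv (A u'))).coeff k = dotB σ K (grad f x) w := by
  haveI := IsAlgClosed.instInfinite (K := K)
  have hfl := h.freeLine v hv hv0
  have hzero : ∀ (f : MvPolynomial σ K) (w : σ → K),
      (dl x (A v) f (cv w)).coeff 0 = dotB σ K (grad f x) w := by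
    intro f w
    rw [Polynomial.coeff_zero_eq_eval_zero, dl_eval, zero_smul, add_zero]
    have h2 : (fun i => (cv w i).eval 0) = w := at0_cv w
    rw [h2]
  have hmove : ∀ u' : τ → K, ∃ w2 : σ → K, ∀ f ∈ I, ∀ l,
      (dl x (A v) f (cv (A u'))).coeff (l + 1) = - (dl x (A v) f (cv w2)).coeff l := by
    intro u'
    obtain ⟨w2, hw2⟩ := hfl.free (A u') (h.tan u')
    refine ⟨w2, fun f hf l => ?_⟩
    have h1 : dl x (A v) f (cv (A u') + (Polynomial.X : Polynomial K) • cv w2) = 0 := by
      apply Polynomial.funext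
      intro t
      rw [dl_eval, Polynomial.eval_zero]
      have h6 : (fun i => ((cv (A u') + (Polynomial.X : Polynomial K) • cv w2) i).eval t) =
          A u' + t • w2 := by
        funext i
        simp [cv]
        ring
      rw [h6]
      exact (mem_tangent I _ _).1 (hw2 t) f hf
    rw [dl_add, dl_smul] at h1
    rw [eq_neg_of_add_eq_zero_left h1, Polynomial.coeff_neg, Polynomial.coeff_X_mul]
  intro k
  induction k with
  | zero =>
    intro u' _
    exact ⟨A u', fun f _ => hzero f _⟩
  | succ k ih =>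
    intro u' hu'
    obtain ⟨w2, hw2⟩ := hmove u'
    rcases k with _ | k
    · refine ⟨-w2, fun f hf => ?_⟩
      rw [hw2 f hf, hzero, map_neg]
    · have hw2t : w2 ∈ tangent I x := by
        rw [mem_tangent]
        intro f hf
        rw [← hzero]
        have h1 := hw2 f hf 0
        rw [hu' f hf (0 + 1) (by omega)] at h1
        exact neg_eq_zero.1 h1.symm
      obtain ⟨α, u'', hu''⟩ := h.tan' w2 hw2t
      have hdu : ∀ f ∈ I, dl x (A v) f (cv (A u'')) = dl x (A v) f (cv w2) := by
        intro f hf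
        rw [hu'', cv_add, cv_smul, dl_add, dl_smul, dl_base hfl f hf, mul_zero, zero_add]
      obtain ⟨w, hw⟩ := ih u'' (by
        intro f hf l hl
        rw [hdu f hf]
        have h1 := hw2 f hf l
        rw [hu' f hf (l + 1) (by omega)] at h1
        exact neg_eq_zero.1 h1.symm)
      refine ⟨-w, fun f hf => ?_⟩
      rw [hw2 f hf, ← hdu f hf, hw f hf, map_neg]

/-- **The next level** is spanned by the coefficients of a basis of the conormal space. -/
theorem level_span [IsAlgClosed K] {I : Ideal (MvPolynomial σ K)} {c : ℕ} {x : σ → K}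
    {A : (τ → K) →ₗ[K] (σ → K)} (h : FreePt I c x A)
    (F : Fin c → MvPolynomial σ K) (hF : ∀ i, F i ∈ I)
    (hFs : ∀ ξ ∈ conormal I x, ∃ a : Fin c → K, ξ = ∑ i, a i • grad (F i) x)
    (v : τ → K) (hv : v ∈ cone (linesI I x A)) (hv0 : v ≠ 0) (k : ℕ) :
    conormal (ordI I x A (k + 1)) v ≤ conormal (ordI I x A k) v ⊔
      Submodule.span K (Set.range fun i => grad ((lexp x A (F i)).coeff (k + 1)) v) := by
  haveI := IsAlgClosed.instInfinite (K := K)
  apply conormal_span_le
  · intro g hg
    exact hv g (ordI_le I x A (k + 1) hg)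
  rintro g ⟨f, hf, j, hj, rfl⟩
  rcases Nat.lt_or_ge j (k + 1) with hjk | hjk
  · exact Submodule.mem_sup_left (grad_mem _ v (coeff_mem_ordI x A hf (by omega)))
  have hjk' : j = k + 1 := le_antisymm hj hjk
  subst hjk'
  rw [mem_iff_orth]
  intro u' hu'
  obtain ⟨w, hw⟩ := top_coeff h v hv hv0 k u' (by
    intro f' hf' l hl
    rw [← grad_lexp]
    exact hu' _ (Submodule.mem_sup_left (grad_mem _ v (coeff_mem_ordI x A hf' (by omega)))))
  rw [grad_lexp, hw f hf]
  obtain ⟨a, ha⟩ := hFs _ (grad_mem I x hf)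
  rw [ha, dotB_sum_left]
  refine Finset.sum_eq_zero (fun m _ => ?_)
  rw [← hw (F m) (hF m), ← grad_lexp,
    hu' _ (Submodule.mem_sup_right (Submodule.subset_span ⟨m, rfl⟩)), mul_zero]

/-- coefficients beyond the degree do not contribute -/
lemma level_stable [IsAlgClosed K] {I : Ideal (MvPolynomial σ K)} {c : ℕ} {x : σ → K}
    {A : (τ → K) →ₗ[K] (σ → K)} (h : FreePt I c x A)
    (F : Fin c → MvPolynomial σ K) (hF : ∀ i, F i ∈ I)
    (hFs : ∀ ξ ∈ conormal I x, ∃ a : Fin c → K, ξ = ∑ i, a i • grad (F i) x)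
    (d : ℕ) (hd : ∀ i, (F i).totalDegree ≤ d)
    (v : τ → K) (hv : v ∈ cone (linesI I x A)) (hv0 : v ≠ 0) :
    conormal (linesI I x A) v = conormal (ordI I x A d) v := by
  haveI := IsAlgClosed.instInfinite (K := K)
  have hstep : ∀ k, conormal (ordI I x A (d + k)) v ≤ conormal (ordI I x A d) v := by
    intro k
    induction k with
    | zero => exact le_rfl
    | succ k ih =>
      refine (level_span h F hF hFs v hv hv0 (d + k)).trans (sup_le ih ?_)
      rw [Submodule.span_le]
      rintro _ ⟨i, rfl⟩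
      have h0 : (lexp x A (F i)).coeff (d + k + 1) = 0 :=
        Polynomial.coeff_eq_zero_of_natDegree_lt
          (lt_of_le_of_lt (lexp_natDegree x A (hd i)) (by omega))
      have h1 : grad ((lexp x A (F i)).coeff (d + k + 1)) v = 0 := by
        rw [h0, grad_zero]
      show grad ((lexp x A (F i)).coeff (d + k + 1)) v ∈ _
      rw [h1]
      exact Submodule.zero_mem _
  apply le_antisymm
  · refine conormal_span_le _ v hv _ ?_
    rintro g ⟨f, hf, j, rfl⟩
    refine hstep j (grad_mem _ v (coeff_mem_ordI x A hf (by omega)))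
  · exact conormal_mono (ordI_le I x A d) v

end Pool.Agent.Run7.h399
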