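import Pool.Agent.Run7.h399.G6
import Pool.Agent.Run7.h399.Defs7

/-!
# Local equations of given degrees
-/

set_option autoImplicit false
set_option linter.unusedSectionVars false
set_option linter.style.haveILetI false

/-!
# Spanning forms of several degrees
-/

namespace Pool.Agent.Run7.h399

open MvPolynomial Pool.Agent.Run7.h399.Hart Pool.Agent.R948

variable {τ : Type} [Fintype τ] [DecidableEq τ] {K : Type} [Field K]
  {κ : Type} [Fintype κ] [DecidableEq κ]

/-- A degeneracy locus of small codimension does not meet a cone of large dimension along which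
the given forms span. -/
theorem no_meet [IsAlgClosed K] [CharZero K] {J Y : Ideal (MvPolynomial τ K)}
    [hYp : Y.IsPrime] (hY : Hm Y) {R : ℕ}
    (hrank : ∀ v ∈ cone Y, v ≠ 0 → Module.finrank K (conormal J v) = R)
    (T : κ → MvPolynomial τ K) (dT : κ → ℕ) (hT : ∀ i, (T i).IsHomogeneous (dT i))
    (hTJ : ∀ i, T i ∈ J) (hcardT : Fintype.card κ + 1 = R)
    (u : MvPolynomial τ K) (huJ : u ∈ J)
    {s : ℕ} (O : Fin s → MvPolynomial τ K) (dO : Fin s → ℕ) (hO : ∀ l, (O l).IsHomogeneous (dO l))
    (hOJ : ∀ l, O l ∈ J) (v0 : τ → K) (hv0 : v0 ∈ cone Y) (hv00 : v0 ≠ 0)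
    (hTind0 : LinearIndependent K (fun i => grad (T i) v0))
    (hu : grad u v0 ∉ Submodule.span K (Set.range fun i => grad (T i) v0))
    (hO0 : ∀ l, grad (O l) v0 ∈ Submodule.span K (Set.range fun i => grad (T i) v0))
    (Q : Ideal (MvPolynomial τ K)) [hQp : Q.IsPrime] (hQ : Hm Q)
    (hspan : ∀ v ∈ cone Y, v ≠ 0 → v ∈ cone Q → conormal J v ≤
      Submodule.span K (Set.range fun i => grad (T i) v) ⊔
      Submodule.span K (Set.range fun l => grad (O l) v)) :
    tdP Y + tdP Q ≤ Fintype.card τ + s := by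
  classical
  by_contra hdim
  push Not at hdim
  set G : Option κ → MvPolynomial τ K := fun o => o.elim u T with hG
  have hGv : ∀ (f : MvPolynomial τ K) (v : τ → K),
      (fun o : Option κ => grad ((o.elim f T : MvPolynomial τ K)) v) =
      fun o => Option.elim o (grad f v) (fun i => grad (T i) v) := by
    intro f v
    funext o
    rcases o with _ | i <;> rfl
  have hGind : LinearIndependent K (fun o => grad (G o) v0) := by
    rw [hG, hGv, li_option]
    exact ⟨hTind0, hu⟩
  obtain ⟨W, hW⟩ := exists_mdet G v0 hGind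
  set E : Fin s → MvPolynomial τ K := fun l => mdet (fun o => o.elim (O l) T) W with hE
  have hE0 : ∀ l, E l ∈ mx v0 := by
    intro l
    rw [mem_mx]
    by_contra h1
    have h2 := ind_of_mdet _ W v0 h1
    rw [hGv, li_option] at h2
    exact h2.2 (hO0 l)
  obtain ⟨R1, hR1, hR1M, hR1min, hcost1⟩ := exists_cut Y (mx v0) hYp (mx_prime v0)
    (fun f hf => (mem_mx v0 f).2 (hv0 f hf)) E hE0
  have hYR1 : Y ≤ R1 := le_sup_left.trans hR1min.1.2
  have hER : ∀ l, E l ∈ R1 := fun l =>
    hR1min.1.2 (Ideal.mem_sup_right (Ideal.subset_span ⟨l, rfl⟩))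
  have hv0R : v0 ∈ cone R1 := fun f hf => (mem_mx v0 f).1 (hR1M hf)
  have hR1m : Hm R1 := by
    refine Hm.minimal (Hm.sup hY (hm_span ?_)) hR1min
    rintro _ ⟨l, rfl⟩
    refine ⟨_, mdet_homog _ W (fun o => o.elim (dO l) dT) ?_⟩
    intro o
    rcases o with _ | i
    · exact hO l
    · exact hT i
  have hkey : ∀ v ∈ cone R1, v ≠ 0 → eval v (mdet G W) ≠ 0 → ∀ l,
      grad (O l) v ∈ Submodule.span K (Set.range fun i => grad (T i) v) := by
    intro v hv hvne hDv l
    have hvY : v ∈ cone Y := fun f hf => hv f (hYR1 hf)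
    have hindG := ind_of_mdet G W v hDv
    have hspanG : Submodule.span K (Set.range fun o => grad (G o) v) = conormal J v := by
      apply Submodule.eq_of_le_of_finrank_eq
      · rw [Submodule.span_le]
        rintro _ ⟨o, rfl⟩
        rcases o with _ | i
        · exact grad_mem J v huJ
        · exact grad_mem J v (hTJ i)
      · rw [finrank_span_eq_card hindG, Fintype.card_option, hcardT, hrank v hvY hvne]
    obtain ⟨c, hc0, hc⟩ := mdet_zero _ W v (hv _ (hER l))
    have hz : ∑ o, c o • grad ((o.elim (O l) T : MvPolynomial τ K)) v = 0 := by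
      have h1 : ∑ o, c o • grad ((o.elim (O l) T : MvPolynomial τ K)) v ∈
          conormal J v := by
        refine Submodule.sum_mem _ (fun o _ => Submodule.smul_mem _ _ ?_)
        rcases o with _ | i
        · exact grad_mem J v (hOJ l)
        · exact grad_mem J v (hTJ i)
      rw [← hspanG, Submodule.mem_span_range_iff_exists_fun] at h1
      obtain ⟨p, hp⟩ := h1
      have h2 : p = 0 := by
        apply mdet_inj G W v hDv
        intro j
        rw [← dotB_sum_left, hp, dotB_sum_left]
        exact hc j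
      rw [← hp, h2]
      simp
    rw [Fintype.sum_option] at hz
    simp only [Option.elim_none, Option.elim_some] at hz
    have hTind : LinearIndependent K (fun i => grad (T i) v) := by
      rw [hG, hGv, li_option] at hindG
      exact hindG.1
    have hcn : c none ≠ 0 := by
      intro h0
      apply hc0
      rw [h0, zero_smul, zero_add] at hz
      funext o
      rcases o with _ | i
      · exact h0
      · exact Fintype.linearIndependent_iff.1 hTind (fun i => c (some i)) hz i
    have h1 : c none • grad (O l) v ∈ Submodule.span K (Set.range fun i => grad (T i) v) := by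
      rw [eq_neg_of_add_eq_zero_left hz]
      exact Submodule.neg_mem _ (Submodule.sum_mem _ (fun i _ => Submodule.smul_mem _ _
        (Submodule.subset_span ⟨i, rfl⟩)))
    have h2 := Submodule.smul_mem _ (c none)⁻¹ h1
    rwa [smul_smul, inv_mul_cancel₀ hcn, one_smul] at h2
  -- the two loci meet
  obtain ⟨y, hy1, hy0, hy2⟩ := meet_cones R1 Q hR1m hQ (by omega)
  have hyY : y ∈ cone Y := fun f hf => hy1 f (hYR1 hf)
  set fam1 : κ ⊕ Fin s → MvPolynomial τ K := Sum.elim T O with hfam1
  have hspany : Submodule.span K (Set.range fun i => grad (fam1 i) y) = conormal J y := by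
    apply le_antisymm
    · rw [Submodule.span_le]
      rintro _ ⟨i, rfl⟩
      rcases i with i | l
      · exact grad_mem J y (hTJ i)
      · exact grad_mem J y (hOJ l)
    · refine (hspan y hyY hy0 hy2).trans (sup_le ?_ ?_)
      · apply Submodule.span_mono
        rintro _ ⟨i, rfl⟩
        exact ⟨Sum.inl i, rfl⟩
      · apply Submodule.span_mono
        rintro _ ⟨i, rfl⟩
        exact ⟨Sum.inr i, rfl⟩
  obtain ⟨ι, sel, hsel, hselsp, hselind⟩ :=
    exists_linearIndependent' K (fun i => grad (fam1 i) y)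
  haveI : Fintype ι := Fintype.ofInjective sel hsel
  have hcardι : Fintype.card ι = R := by
    have h1 := finrank_span_eq_card hselind
    rw [hselsp, hspany, hrank y hyY hy0] at h1
    exact h1.symm
  obtain ⟨W', hW'⟩ := exists_mdet (fun i => fam1 (sel i)) y hselind
  obtain ⟨i0, hi0⟩ := Function.ne_iff.1 hv00
  have h1 : mdet (fun i => fam1 (sel i)) W' ∉ R1 := by
    intro hmem
    have := hy1 _ hmem
    rw [hW'] at this
    exact one_ne_zero this
  have h2 : mdet G W ∉ R1 := by
    intro hmem
    have := hv0R _ hmem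
    rw [hW] at this
    exact one_ne_zero this
  have h3 : (X i0 : MvPolynomial τ K) ∉ R1 := by
    intro hmem
    have := hv0R _ hmem
    rw [eval_X] at this
    exact hi0 this
  have hex : ∃ v ∈ cone R1, eval v (mdet (fun i => fam1 (sel i)) W' * mdet G W * X i0) ≠ 0 := by
    by_contra hcon
    push Not at hcon
    rcases hR1.mem_or_mem (mem_of_vanish R1 hR1 _ hcon) with h5 | h5
    · rcases hR1.mem_or_mem h5 with h6 | h6
      · exact h1 h6
      · exact h2 h6
    · exact h3 h5
  obtain ⟨v, hv, hvne⟩ := hex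
  rw [map_mul, map_mul, eval_X] at hvne
  have hv0' : v ≠ 0 := by
    rintro rfl
    exact right_ne_zero_of_mul hvne rfl
  have hli := ind_of_mdet _ W' v (left_ne_zero_of_mul (left_ne_zero_of_mul hvne))
  have hk := hkey v hv hv0' (right_ne_zero_of_mul (left_ne_zero_of_mul hvne))
  let γ : ι → Submodule.span K (Set.range fun i => grad (T i) v) := fun i =>
    ⟨grad (fam1 (sel i)) v, by
      rcases hsi : sel i with t | l
      · exact Submodule.subset_span ⟨t, rfl⟩
      · exact hk l⟩
  have h4 : LinearIndependent K γ :=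
    LinearIndependent.of_comp (Submodule.span K (Set.range fun i => grad (T i) v)).subtype hli
  have h5 := h4.fintype_card_le_finrank
  have h6 := finrank_range_le_card (R := K) (fun i => grad (T i) v)
  rw [Set.finrank] at h6
  omega

end Pool.Agent.Run7.h399

/-!
# Independence everywhere from independence at one point
-/

namespace Pool.Agent.Run7.h399

open MvPolynomial Pool.Agent.Run7.h399.Hart Pool.Agent.R948

section vectors

variable {K V : Type} [Field K] [AddCommGroup V] [Module K V]

/-- independence modulo a subspace -/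
def RI (N : Submodule K V) (η : ℕ → V) (T : Finset ℕ) : Prop :=
  ∀ β : ℕ → K, ∑ t ∈ T, β t • η t ∈ N → ∀ t ∈ T, β t = 0

lemma mem_sup_image (N : Submodule K V) (η : ℕ → V) (S : Finset ℕ) (ξ : V) :
    ξ ∈ N ⊔ Submodule.span K (η '' (S : Set ℕ)) ↔ ∃ c : ℕ → K, ξ - ∑ t ∈ S, c t • η t ∈ N := by
  rw [Submodule.mem_sup]
  constructor
  · rintro ⟨y, hy, z, hz, rfl⟩
    rw [Submodule.mem_span_image_finset_iff_exists_fun] at hz
    obtain ⟨c, rfl⟩ := hz
    refine ⟨fun n => if hn : n ∈ S then c ⟨n, hn⟩ else 0, ?_⟩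
    rw [← Finset.sum_coe_sort S]
    simp only [Finset.coe_mem, dite_true, Subtype.coe_eta]
    rwa [add_sub_cancel_right]
  · rintro ⟨c, hc⟩
    refine ⟨_, hc, ∑ t ∈ S, c t • η t, ?_, by rw [sub_add_cancel]⟩
    exact Submodule.sum_mem _ (fun t ht => Submodule.smul_mem _ _
      (Submodule.subset_span ⟨t, ht, rfl⟩))

lemma RI.notMem {N : Submodule K V} {η : ℕ → V} {T : Finset ℕ} (h : RI N η T) {t0 : ℕ}
    (ht0 : t0 ∈ T) (c : ℕ → K) (hc : c t0 ≠ 0) (ξ : V) (hξ : ξ = ∑ t ∈ T, c t • η t) :
    ξ ∉ N ⊔ Submodule.span K (η '' ((T.erase t0 : Finset ℕ) : Set ℕ)) := by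
  intro hmem
  rw [mem_sup_image] at hmem
  obtain ⟨c', hc'⟩ := hmem
  have h1 : ∑ t ∈ T, (c t - if t = t0 then 0 else c' t) • η t ∈ N := by
    have h2 : ∑ t ∈ T, (c t - if t = t0 then 0 else c' t) • η t =
        ξ - ∑ t ∈ T.erase t0, c' t • η t := by
      rw [hξ]
      simp only [sub_smul]
      rw [Finset.sum_sub_distrib]
      congr 1
      rw [← Finset.add_sum_erase _ _ ht0, if_pos rfl, zero_smul, zero_add]
      refine Finset.sum_congr rfl (fun t ht => ?_)
      rw [if_neg (Finset.ne_of_mem_erase ht)]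
    rw [h2]
    exact hc'
  have h2 := h _ h1 t0 ht0
  rw [if_pos rfl, sub_zero] at h2
  exact hc h2

/-- greedy selection -/
lemma select (N : Submodule K V) (η : ℕ → V) (a : ℕ) : ∀ k : ℕ, ∃ T : Finset ℕ,
    T ⊆ Finset.Ico a (a + k) ∧ RI N η T ∧ ∀ o ∈ Finset.Ico a (a + k),
      η o ∈ N ⊔ Submodule.span K (η '' ((T.filter (fun t => t ≤ o) : Finset ℕ) : Set ℕ)) := by
  classical
  intro k
  induction k with
  | zero =>
    refine ⟨∅, by simp, ?_, by simp⟩
    intro β _ t ht
    simp at ht
  | succ k ih =>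
    obtain ⟨T, hT, hRI, hsp⟩ := ih
    have hTlt : ∀ t ∈ T, t < a + k := fun t ht => (Finset.mem_Ico.1 (hT ht)).2
    by_cases hb : η (a + k) ∈ N ⊔ Submodule.span K (η '' (T : Set ℕ))
    · refine ⟨T, hT.trans (Finset.Ico_subset_Ico_right (by omega)), hRI, ?_⟩
      intro o ho
      rw [Finset.mem_Ico] at ho
      rcases Nat.lt_or_ge o (a + k) with h1 | h1
      · exact hsp o (Finset.mem_Ico.2 ⟨ho.1, h1⟩)
      · have h2 : o = a + k := by omega
        subst h2
        have h3 : T.filter (fun t => t ≤ a + k) = T :=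
          Finset.filter_true_of_mem (fun t ht => (hTlt t ht).le)
        rw [h3]
        exact hb
    · refine ⟨insert (a + k) T, ?_, ?_, ?_⟩
      · intro t ht
        rw [Finset.mem_insert] at ht
        rw [Finset.mem_Ico]
        rcases ht with rfl | ht
        · omega
        · have := Finset.mem_Ico.1 (hT ht)
          omega
      · have hnot : a + k ∉ T := fun h => absurd (hTlt _ h) (lt_irrefl _)
        intro β hβ
        rw [Finset.sum_insert hnot] at hβ
        have h0 : β (a + k) = 0 := by
          by_contra hne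
          apply hb
          rw [mem_sup_image]
          refine ⟨fun t => - ((β (a + k))⁻¹ * β t), ?_⟩
          have h1 := N.smul_mem (β (a + k))⁻¹ hβ
          rw [smul_add, smul_smul, inv_mul_cancel₀ hne, one_smul, Finset.smul_sum] at h1
          have h2 : ∑ t ∈ T, (-((β (a + k))⁻¹ * β t)) • η t =
              - ∑ t ∈ T, (β (a + k))⁻¹ • β t • η t := by
            rw [← Finset.sum_neg_distrib]
            exact Finset.sum_congr rfl (fun t _ => by rw [neg_smul, mul_smul])
          rw [h2, sub_neg_eq_add]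
          exact h1
        rw [h0, zero_smul, zero_add] at hβ
        intro t ht
        rw [Finset.mem_insert] at ht
        rcases ht with rfl | ht
        · exact h0
        · exact hRI β hβ t ht
      · intro o ho
        rw [Finset.mem_Ico] at ho
        rcases Nat.lt_or_ge o (a + k) with h1 | h1
        · refine (sup_le_sup le_rfl (Submodule.span_mono (Set.image_mono ?_)) :
            N ⊔ Submodule.span K (η '' ((T.filter (fun t => t ≤ o) : Finset ℕ) : Set ℕ)) ≤ _)
            (hsp o (Finset.mem_Ico.2 ⟨ho.1, h1⟩))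
          intro t ht
          rw [Finset.mem_coe, Finset.mem_filter] at ht ⊢
          exact ⟨Finset.mem_insert_of_mem ht.1, ht.2⟩
        · have h2 : o = a + k := by omega
          subst h2
          refine Submodule.mem_sup_right (Submodule.subset_span ⟨a + k, ?_, rfl⟩)
          rw [Finset.mem_coe, Finset.mem_filter]
          exact ⟨Finset.mem_insert_self _ _, le_rfl⟩

end vectors

variable {τ : Type} [Fintype τ] [DecidableEq τ] {K : Type} [Field K]
  {κ : Type} [Fintype κ] [DecidableEq κ]

lemma grad_mul_zero (a b : MvPolynomial τ K) (v : τ → K) (h : eval v b = 0) :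
    grad (a * b) v = eval v a • grad b v := by
  rw [grad_mul, h, zero_smul, zero_add]

/-- a multiple by a power of a coordinate, normalized at a point -/
noncomputable def pw (β z : K) (i : τ) (k : ℕ) : MvPolynomial τ K :=
  C (β * z⁻¹ ^ k) * X i ^ k

lemma pw_homog (β z : K) (i : τ) (k : ℕ) : (pw β z i k).IsHomogeneous k := by
  have h := (isHomogeneous_C τ (β * z⁻¹ ^ k)).mul (isHomogeneous_X_pow (R := K) i k)
  rwa [zero_add] at h

lemma eval_pw (β z : K) (i : τ) (k : ℕ) (v : τ → K) :
    eval v (pw β z i k) = β * z⁻¹ ^ k * v i ^ k := by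
  rw [pw, map_mul, eval_C, map_pow, eval_X]

lemma eval_pw_self (β z : K) (i : τ) (k : ℕ) (v : τ → K) (hz : v i = z) (hz0 : z ≠ 0) :
    eval v (pw β z i k) = β := by
  rw [eval_pw, hz, mul_assoc, ← mul_pow, inv_mul_cancel₀ hz0, one_pow, mul_one]

theorem const_mixed [IsAlgClosed K] [CharZero K] {J Y : Ideal (MvPolynomial τ K)}
    [hYp : Y.IsPrime] (hY : Hm Y) (hJY : ∀ v ∈ cone Y, v ∈ cone J) {R : ℕ}
    (hrank : ∀ v ∈ cone Y, v ≠ 0 → Module.finrank K (conormal J v) = R)
    (g : κ → MvPolynomial τ K) (dg : κ → ℕ) (hg : ∀ i, (g i).IsHomogeneous (dg i))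
    (hgJ : ∀ i, g i ∈ J)
    (hind : ∀ v ∈ cone Y, v ≠ 0 → LinearIndependent K (fun i => grad (g i) v))
    (h : ℕ → MvPolynomial τ K) (d : ℕ → ℕ) (hd : Monotone d)
    (hh : ∀ i, (h i).IsHomogeneous (d i)) (hhJ : ∀ i, h i ∈ J) (a k : ℕ)
    (hspan : ∀ v ∈ cone Y, v ≠ 0 → conormal J v ≤
      Submodule.span K (Set.range fun i => grad (g i) v) ⊔
      Submodule.span K ((fun t => grad (h t) v) '' ((Finset.Ico a (a + k) : Finset ℕ) : Set ℕ)))
    (hdim : Fintype.card τ + k < 2 * tdP Y) (v0 : τ → K) (hv0 : v0 ∈ cone Y) (hv00 : v0 ≠ 0) :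
    ∃ T : Finset ℕ, T ⊆ Finset.Ico a (a + k) ∧ Fintype.card κ + T.card = R ∧
      ∀ v ∈ cone Y, v ≠ 0 → RI (Submodule.span K (Set.range fun i => grad (g i) v))
        (fun t => grad (h t) v) T := by
  classical
  obtain ⟨T, hT, hRI, hsel⟩ := select (Submodule.span K (Set.range fun i => grad (g i) v0))
    (fun t => grad (h t) v0) a k
  have hz : ∀ v ∈ cone Y, ∀ t, eval v (h t) = 0 := fun v hv t => hJY v hv _ (hhJ t)
  have hcard : Fintype.card κ + T.card = R := by
    have hLI : LinearIndependent K
        (Sum.elim (fun i => grad (g i) v0) (fun t : T => grad (h t) v0)) := by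
      apply li_elim _ _ (hind v0 hv0 hv00)
      intro β hβ
      have h1 := hRI (fun n => if hn : n ∈ T then β ⟨n, hn⟩ else 0) (by
        rw [← Finset.sum_coe_sort T]
        convert hβ using 2 with t ht
        simp)
      funext t
      have h2 := h1 t t.2
      simpa using h2
    have h1 : Submodule.span K (Set.range
        (Sum.elim (fun i => grad (g i) v0) (fun t : T => grad (h t) v0))) = conormal J v0 := by
      apply le_antisymm
      · rw [Submodule.span_le]
        rintro _ ⟨i, rfl⟩
        rcases i with i | t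
        · exact grad_mem J v0 (hgJ i)
        · exact grad_mem J v0 (hhJ t)
      · refine (hspan v0 hv0 hv00).trans (sup_le ?_ ?_)
        · apply Submodule.span_mono
          rintro _ ⟨i, rfl⟩
          exact ⟨Sum.inl i, rfl⟩
        · rw [Submodule.span_le]
          rintro _ ⟨o, ho, rfl⟩
          refine (sup_le ?_ ?_ : _ ≤ Submodule.span K (Set.range (Sum.elim
            (fun i => grad (g i) v0) (fun t : T => grad (h t) v0)))) (hsel o ho)
          · apply Submodule.span_mono
            rintro _ ⟨i, rfl⟩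
            exact ⟨Sum.inl i, rfl⟩
          · apply Submodule.span_mono
            rintro _ ⟨t, ht, rfl⟩
            rw [Finset.mem_coe, Finset.mem_filter] at ht
            exact ⟨Sum.inr ⟨t, ht.1⟩, rfl⟩
    have h2 := finrank_span_eq_card hLI
    rw [h1, hrank v0 hv0 hv00, Fintype.card_sum, Fintype.card_coe] at h2
    exact h2.symm
  refine ⟨T, hT, hcard, ?_⟩
  intro v1 hv1 hv10 β hβ
  by_contra hcon
  push Not at hcon
  obtain ⟨tt, htt, hβtt⟩ := hcon
  -- the largest index in the relation
  have hSne : (T.filter (fun t => β t ≠ 0)).Nonempty := ⟨tt, Finset.mem_filter.2 ⟨htt, hβtt⟩⟩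
  set t0 := (T.filter (fun t => β t ≠ 0)).max' hSne with ht0def
  have ht0mem := Finset.mem_filter.1 ((T.filter (fun t => β t ≠ 0)).max'_mem hSne)
  rw [← ht0def] at ht0mem
  obtain ⟨ht0T, hβ0⟩ := ht0mem
  have hmax : ∀ t ∈ T, β t ≠ 0 → t ≤ t0 := fun t ht hne =>
    (T.filter (fun t => β t ≠ 0)).le_max' t (Finset.mem_filter.2 ⟨ht, hne⟩)
  set m := d t0 with hm
  obtain ⟨i0, hi0⟩ := Function.ne_iff.1 hv10
  rw [Pi.zero_apply] at hi0
  obtain ⟨i1, hi1⟩ := Function.ne_iff.1 hv00
  rw [Pi.zero_apply] at hi1
  set γ : ℕ → MvPolynomial τ K := fun t => pw (β t) (v1 i0) i0 (m - d t) with hγ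
  have hγ0 : ∀ v, eval v (γ t0) = β t0 := by
    intro v
    simp only [hγ, eval_pw, hm, Nat.sub_self, pow_zero, mul_one]
  set u : MvPolynomial τ K := ∑ t ∈ T, γ t * h t with hu
  have huh : u.IsHomogeneous m := by
    refine IsHomogeneous.sum _ _ _ (fun t ht => ?_)
    by_cases hbt : β t = 0
    · have h1 : γ t = 0 := by
        simp only [hγ, pw, hbt, zero_mul, map_zero]
      rw [h1, zero_mul]
      exact isHomogeneous_zero _ _ _
    · have h1 := (pw_homog (β t) (v1 i0) i0 (m - d t)).mul (hh t)
      have h2 : d t ≤ m := hd (hmax t ht hbt)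
      rwa [Nat.sub_add_cancel h2] at h1
  have huJ : u ∈ J := Ideal.sum_mem _ (fun t _ => J.mul_mem_left _ (hhJ t))
  have hgu : ∀ v ∈ cone Y, grad u v = ∑ t ∈ T, eval v (γ t) • grad (h t) v := by
    intro v hv
    rw [hu, grad_sum]
    exact Finset.sum_congr rfl (fun t _ => grad_mul_zero _ _ _ (hz v hv t))
  have hgu1 : grad u v1 ∈ Submodule.span K (Set.range fun i => grad (g i) v1) := by
    rw [hgu v1 hv1]
    have h1 : ∑ t ∈ T, eval v1 (γ t) • grad (h t) v1 = ∑ t ∈ T, β t • grad (h t) v1 := by
      refine Finset.sum_congr rfl (fun t _ => ?_)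
      simp only [hγ]
      rw [eval_pw_self _ _ _ _ _ rfl hi0]
    rw [h1]
    exact hβ
  obtain ⟨R2, hR2, hR2m, hYR2, -, hcost2, hR2sp⟩ := step_dead (J := J) hY hrank g dg hg hgJ hind
    u m huh huJ v1 hv1 hv10 hgu1
  -- the family without `t0`
  set fam : κ ⊕ (T.erase t0 : Finset ℕ) → MvPolynomial τ K :=
    Sum.elim g (fun t => h t) with hfam
  have hfamspan : ∀ v, Submodule.span K (Set.range fun i => grad (fam i) v) =
      Submodule.span K (Set.range fun i => grad (g i) v) ⊔
      Submodule.span K ((fun t => grad (h t) v) '' ((T.erase t0 : Finset ℕ) : Set ℕ)) := by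
    intro v
    apply le_antisymm
    · rw [Submodule.span_le]
      rintro _ ⟨i | t, rfl⟩
      · exact Submodule.mem_sup_left (Submodule.subset_span ⟨i, rfl⟩)
      · exact Submodule.mem_sup_right (Submodule.subset_span ⟨t, t.2, rfl⟩)
    · refine sup_le ?_ ?_
      · apply Submodule.span_mono
        rintro _ ⟨i, rfl⟩
        exact ⟨Sum.inl i, rfl⟩
      · apply Submodule.span_mono
        rintro _ ⟨t, ht, rfl⟩
        exact ⟨Sum.inr ⟨t, ht⟩, rfl⟩
  have hTpos : 0 < T.card := Finset.card_pos.2 ⟨t0, ht0T⟩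
  have hcardT : Fintype.card (κ ⊕ (T.erase t0 : Finset ℕ)) + 1 = R := by
    rw [Fintype.card_sum, Fintype.card_coe, Finset.card_erase_of_mem ht0T]
    omega
  have hfamind : LinearIndependent K (fun i => grad (fam i) v0) := by
    have h1 : (fun i => grad (fam i) v0) =
        Sum.elim (fun i => grad (g i) v0) (fun t : (T.erase t0 : Finset ℕ) => grad (h t) v0) := by
      funext i
      rcases i with i | t <;> rfl
    rw [h1]
    apply li_elim _ _ (hind v0 hv0 hv00)
    intro β' hβ'
    have h2 := hRI (fun n => if hn : n ∈ T.erase t0 then β' ⟨n, hn⟩ else 0) (by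
      rw [← Finset.add_sum_erase _ _ ht0T]
      simp only [Finset.mem_erase, ne_eq, not_true_eq_false, false_and, dite_false, zero_smul,
        zero_add]
      rw [← Finset.sum_coe_sort (T.erase t0)]
      convert hβ' using 2 with t ht
      have h3 := Finset.mem_erase.1 t.2
      rw [dif_pos h3])
    funext t
    have h3 := h2 t (Finset.mem_of_mem_erase t.2)
    simpa using h3
  -- the other candidates, corrected
  have hex : ∀ o, ∃ α : K, (α ≠ 0 → t0 ≤ o) ∧ (o ∈ Finset.Ico a (a + k) →
      grad (h o) v0 - α • grad (h t0) v0 ∈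
        Submodule.span K (Set.range fun i => grad (fam i) v0)) := by
    intro o
    by_cases ho : o ∈ Finset.Ico a (a + k)
    · have h1 := hsel o ho
      rw [mem_sup_image] at h1
      obtain ⟨c, hc⟩ := h1
      refine ⟨if t0 ≤ o then c t0 else 0, ?_, fun _ => ?_⟩
      · intro h2
        by_contra h3
        rw [if_neg h3] at h2
        exact h2 rfl
      · rw [hfamspan, mem_sup_image]
        refine ⟨fun t => if t ≤ o then c t else 0, ?_⟩
        have h2 : grad (h o) v0 - (if t0 ≤ o then c t0 else 0) • grad (h t0) v0 -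
            ∑ t ∈ T.erase t0, (if t ≤ o then c t else 0) • grad (h t) v0 =
            grad (h o) v0 - ∑ t ∈ T.filter (fun t => t ≤ o), c t • grad (h t) v0 := by
          rw [sub_sub]
          congr 1
          rw [Finset.add_sum_erase T (fun t => (if t ≤ o then c t else 0) • grad (h t) v0) ht0T,
            Finset.sum_filter]
          refine Finset.sum_congr rfl (fun t _ => ?_)
          split_ifs
          · rfl
          · rw [zero_smul]
        rw [h2]
        exact hc
    · exact ⟨0, fun h => absurd rfl h, fun h => absurd h ho⟩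
  choose α hα1 hα2 using hex
  set Oset := Finset.Ico a (a + k) \ T with hOset
  let e : Fin Oset.card ≃ Oset := Oset.equivFin.symm
  set O : ℕ → MvPolynomial τ K := fun o => h o - pw (α o) (v0 i1) i1 (d o - m) * h t0 with hO
  have hOh : ∀ o, (O o).IsHomogeneous (d o) := by
    intro o
    refine (hh o).sub ?_
    by_cases hbt : α o = 0
    · have h1 : pw (α o) (v0 i1) i1 (d o - m) = 0 := by
        simp only [pw, hbt, zero_mul, map_zero]
      rw [h1, zero_mul]
      exact isHomogeneous_zero _ _ _
    · have h1 := (pw_homog (α o) (v0 i1) i1 (d o - m)).mul (hh t0)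
      have h2 : m ≤ d o := hd (hα1 o hbt)
      rw [← hm, Nat.sub_add_cancel h2] at h1
      exact h1
  have hOJ : ∀ o, O o ∈ J := fun o => J.sub_mem (hhJ o) (J.mul_mem_left _ (hhJ t0))
  have hgO : ∀ v ∈ cone Y, ∀ o, grad (O o) v = grad (h o) v -
      eval v (pw (α o) (v0 i1) i1 (d o - m)) • grad (h t0) v := by
    intro v hv o
    rw [hO]
    simp only
    rw [sub_eq_add_neg, grad_add, ← neg_one_mul (pw _ _ _ _ * h t0),
      ← mul_assoc, grad_mul_zero _ _ _ (hz v hv t0), map_mul, map_neg, map_one, neg_one_mul,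
      neg_smul, ← sub_eq_add_neg]
  have hfin := no_meet (J := J) hY hrank fam (Sum.elim dg (fun t => d t)) (by
      rintro (i | t)
      · exact hg i
      · exact hh t) (by
      rintro (i | t)
      · exact hgJ i
      · exact hhJ t) hcardT u huJ (fun l => O (e l)) (fun l => d (e l)) (fun l => hOh _)
    (fun l => hOJ _) v0 hv0 hv00 hfamind (by
      rw [hfamspan]
      exact hRI.notMem ht0T (fun t => eval v0 (γ t)) (by rw [hγ0]; exact hβ0) _ (hgu v0 hv0)) (by
      intro l
      rw [hgO v0 hv0, eval_pw_self _ _ _ _ _ rfl hi1]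
      exact hα2 _ (Finset.mem_sdiff.1 (e l).2).1) R2 hR2m (by
      intro v hvY hvne hvR2
      have ht0in : grad (h t0) v ∈ Submodule.span K (Set.range fun i => grad (fam i) v) := by
        have h1 := hR2sp v hvR2 hvne
        rw [hgu v hvY, ← Finset.add_sum_erase _ _ ht0T, hγ0] at h1
        have h2 : β t0 • grad (h t0) v ∈ Submodule.span K (Set.range fun i => grad (fam i) v) := by
          rw [hfamspan, mem_sup_image]
          exact ⟨fun t => - eval v (γ t), by
            have h3 : β t0 • grad (h t0) v - ∑ t ∈ T.erase t0, (-eval v (γ t)) • grad (h t) v =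
                β t0 • grad (h t0) v + ∑ t ∈ T.erase t0, eval v (γ t) • grad (h t) v := by
              rw [sub_eq_add_neg, ← Finset.sum_neg_distrib]
              congr 1
              exact Finset.sum_congr rfl (fun t _ => by rw [neg_smul, neg_neg])
            rw [h3]
            exact h1⟩
        have h3 := Submodule.smul_mem _ (β t0)⁻¹ h2
        rwa [smul_smul, inv_mul_cancel₀ hβ0, one_smul] at h3
      refine (hspan v hvY hvne).trans (sup_le ?_ ?_)
      · rw [hfamspan]
        exact le_sup_left.trans le_sup_left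
      · rw [Submodule.span_le]
        rintro _ ⟨o, ho, rfl⟩
        by_cases hoT : o ∈ T
        · by_cases ho0 : o = t0
          · rw [ho0]
            exact Submodule.mem_sup_left ht0in
          · apply Submodule.mem_sup_left
            exact Submodule.subset_span ⟨Sum.inr ⟨o, Finset.mem_erase.2 ⟨ho0, hoT⟩⟩, rfl⟩
        · have h1 : grad (h o) v = grad (O o) v +
              eval v (pw (α o) (v0 i1) i1 (d o - m)) • grad (h t0) v := by
            rw [hgO v hvY, sub_add_cancel]
          rw [SetLike.mem_coe]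
          simp only
          rw [h1]
          refine Submodule.add_mem _ (Submodule.mem_sup_right (Submodule.subset_span
            ⟨e.symm ⟨o, Finset.mem_sdiff.2 ⟨ho, hoT⟩⟩, ?_⟩))
            (Submodule.mem_sup_left (Submodule.smul_mem _ _ ht0in))
          simp only [Equiv.apply_symm_apply])
  have hOcard : Oset.card + T.card = k := by
    rw [hOset, Finset.card_sdiff_add_card_eq_card hT, Nat.card_Ico]
    omega
  omega

end Pool.Agent.Run7.h399

/-!
# Independence everywhere from independence at one point: candidates in a finite set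
-/

namespace Pool.Agent.Run7.h399

open MvPolynomial Pool.Agent.Run7.h399.Hart Pool.Agent.R948

/-- greedy selection in a finite set -/
lemma select_finset {K V : Type} [Field K] [AddCommGroup V] [Module K V] (N : Submodule K V)
    (η : ℕ → V) (S : Finset ℕ) : ∃ T : Finset ℕ,
    T ⊆ S ∧ RI N η T ∧ ∀ o ∈ S,
      η o ∈ N ⊔ Submodule.span K (η '' ((T.filter (fun t => t ≤ o) : Finset ℕ) : Set ℕ)) := by
  classical
  obtain ⟨T, hT, hRI, hsp⟩ := select N (fun t => if t ∈ S then η t else 0) 0 (S.sup id + 1)
  have hTS : T ⊆ S := by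
    intro t ht
    by_contra htS
    have h1 := hRI (Pi.single t 1) (by
      rw [Finset.sum_eq_single t]
      · simp only [if_neg htS, smul_zero]
        exact N.zero_mem
      · intro j _ hj
        rw [Pi.single_eq_of_ne hj, zero_smul]
      · intro h
        exact absurd ht h) t ht
    rw [Pi.single_eq_same] at h1
    exact one_ne_zero h1
  refine ⟨T, hTS, ?_, ?_⟩
  · intro β hβ
    apply hRI β
    convert hβ using 1
    refine Finset.sum_congr rfl (fun t ht => ?_)
    simp only [if_pos (hTS ht)]
  · intro o ho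
    have h1 := hsp o (by
      rw [Finset.mem_Ico]
      refine ⟨Nat.zero_le _, ?_⟩
      have : o ≤ S.sup id := Finset.le_sup (f := id) ho
      omega)
    simp only [if_pos ho] at h1
    refine (sup_le le_sup_left ?_ : _ ≤ N ⊔ Submodule.span K
      (η '' ((T.filter (fun t => t ≤ o) : Finset ℕ) : Set ℕ))) h1
    rw [Submodule.span_le]
    rintro _ ⟨t, ht, rfl⟩
    have ht' : t ∈ T := (Finset.mem_filter.1 ht).1
    simp only [if_pos (hTS ht')]
    exact Submodule.mem_sup_right (Submodule.subset_span ⟨t, ht, rfl⟩)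

variable {τ : Type} [Fintype τ] [DecidableEq τ] {K : Type} [Field K]
  {κ : Type} [Fintype κ] [DecidableEq κ]

theorem const_mixedS [IsAlgClosed K] [CharZero K] {J Y : Ideal (MvPolynomial τ K)}
    [hYp : Y.IsPrime] (hY : Hm Y) (hJY : ∀ v ∈ cone Y, v ∈ cone J) {R : ℕ}
    (hrank : ∀ v ∈ cone Y, v ≠ 0 → Module.finrank K (conormal J v) = R)
    (g : κ → MvPolynomial τ K) (dg : κ → ℕ) (hg : ∀ i, (g i).IsHomogeneous (dg i))
    (hgJ : ∀ i, g i ∈ J)
    (hind : ∀ v ∈ cone Y, v ≠ 0 → LinearIndependent K (fun i => grad (g i) v))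
    (h : ℕ → MvPolynomial τ K) (d : ℕ → ℕ) (hd : Monotone d)
    (hh : ∀ i, (h i).IsHomogeneous (d i)) (hhJ : ∀ i, h i ∈ J) (S : Finset ℕ)
    (hspan : ∀ v ∈ cone Y, v ≠ 0 → conormal J v ≤
      Submodule.span K (Set.range fun i => grad (g i) v) ⊔
      Submodule.span K ((fun t => grad (h t) v) '' (S : Set ℕ)))
    (hdim : Fintype.card τ + S.card < 2 * tdP Y) (v0 : τ → K) (hv0 : v0 ∈ cone Y) (hv00 : v0 ≠ 0) :
    ∃ T : Finset ℕ, T ⊆ S ∧ Fintype.card κ + T.card = R ∧
      ∀ v ∈ cone Y, v ≠ 0 → RI (Submodule.span K (Set.range fun i => grad (g i) v))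
        (fun t => grad (h t) v) T := by
  classical
  obtain ⟨T, hT, hRI, hsel⟩ := select_finset
    (Submodule.span K (Set.range fun i => grad (g i) v0)) (fun t => grad (h t) v0) S
  have hz : ∀ v ∈ cone Y, ∀ t, eval v (h t) = 0 := fun v hv t => hJY v hv _ (hhJ t)
  have hcard : Fintype.card κ + T.card = R := by
    have hLI : LinearIndependent K
        (Sum.elim (fun i => grad (g i) v0) (fun t : T => grad (h t) v0)) := by
      apply li_elim _ _ (hind v0 hv0 hv00)
      intro β hβ
      have h1 := hRI (fun n => if hn : n ∈ T then β ⟨n, hn⟩ else 0) (by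
        rw [← Finset.sum_coe_sort T]
        convert hβ using 2 with t ht
        simp)
      funext t
      have h2 := h1 t t.2
      simpa using h2
    have h1 : Submodule.span K (Set.range
        (Sum.elim (fun i => grad (g i) v0) (fun t : T => grad (h t) v0))) = conormal J v0 := by
      apply le_antisymm
      · rw [Submodule.span_le]
        rintro _ ⟨i, rfl⟩
        rcases i with i | t
        · exact grad_mem J v0 (hgJ i)
        · exact grad_mem J v0 (hhJ t)
      · refine (hspan v0 hv0 hv00).trans (sup_le ?_ ?_)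
        · apply Submodule.span_mono
          rintro _ ⟨i, rfl⟩
          exact ⟨Sum.inl i, rfl⟩
        · rw [Submodule.span_le]
          rintro _ ⟨o, ho, rfl⟩
          refine (sup_le ?_ ?_ : _ ≤ Submodule.span K (Set.range (Sum.elim
            (fun i => grad (g i) v0) (fun t : T => grad (h t) v0)))) (hsel o ho)
          · apply Submodule.span_mono
            rintro _ ⟨i, rfl⟩
            exact ⟨Sum.inl i, rfl⟩
          · apply Submodule.span_mono
            rintro _ ⟨t, ht, rfl⟩
            rw [Finset.mem_coe, Finset.mem_filter] at ht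
            exact ⟨Sum.inr ⟨t, ht.1⟩, rfl⟩
    have h2 := finrank_span_eq_card hLI
    rw [h1, hrank v0 hv0 hv00, Fintype.card_sum, Fintype.card_coe] at h2
    exact h2.symm
  refine ⟨T, hT, hcard, ?_⟩
  intro v1 hv1 hv10 β hβ
  by_contra hcon
  push Not at hcon
  obtain ⟨tt, htt, hβtt⟩ := hcon
  -- the largest index in the relation
  have hSne : (T.filter (fun t => β t ≠ 0)).Nonempty := ⟨tt, Finset.mem_filter.2 ⟨htt, hβtt⟩⟩
  set t0 := (T.filter (fun t => β t ≠ 0)).max' hSne with ht0def
  have ht0mem := Finset.mem_filter.1 ((T.filter (fun t => β t ≠ 0)).max'_mem hSne)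
  rw [← ht0def] at ht0mem
  obtain ⟨ht0T, hβ0⟩ := ht0mem
  have hmax : ∀ t ∈ T, β t ≠ 0 → t ≤ t0 := fun t ht hne =>
    (T.filter (fun t => β t ≠ 0)).le_max' t (Finset.mem_filter.2 ⟨ht, hne⟩)
  set m := d t0 with hm
  obtain ⟨i0, hi0⟩ := Function.ne_iff.1 hv10
  rw [Pi.zero_apply] at hi0
  obtain ⟨i1, hi1⟩ := Function.ne_iff.1 hv00
  rw [Pi.zero_apply] at hi1
  set γ : ℕ → MvPolynomial τ K := fun t => pw (β t) (v1 i0) i0 (m - d t) with hγ
  have hγ0 : ∀ v, eval v (γ t0) = β t0 := by
    intro v
    simp only [hγ, eval_pw, hm, Nat.sub_self, pow_zero, mul_one]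
  set u : MvPolynomial τ K := ∑ t ∈ T, γ t * h t with hu
  have huh : u.IsHomogeneous m := by
    refine IsHomogeneous.sum _ _ _ (fun t ht => ?_)
    by_cases hbt : β t = 0
    · have h1 : γ t = 0 := by
        simp only [hγ, pw, hbt, zero_mul, map_zero]
      rw [h1, zero_mul]
      exact isHomogeneous_zero _ _ _
    · have h1 := (pw_homog (β t) (v1 i0) i0 (m - d t)).mul (hh t)
      have h2 : d t ≤ m := hd (hmax t ht hbt)
      rwa [Nat.sub_add_cancel h2] at h1
  have huJ : u ∈ J := Ideal.sum_mem _ (fun t _ => J.mul_mem_left _ (hhJ t))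
  have hgu : ∀ v ∈ cone Y, grad u v = ∑ t ∈ T, eval v (γ t) • grad (h t) v := by
    intro v hv
    rw [hu, grad_sum]
    exact Finset.sum_congr rfl (fun t _ => grad_mul_zero _ _ _ (hz v hv t))
  have hgu1 : grad u v1 ∈ Submodule.span K (Set.range fun i => grad (g i) v1) := by
    rw [hgu v1 hv1]
    have h1 : ∑ t ∈ T, eval v1 (γ t) • grad (h t) v1 = ∑ t ∈ T, β t • grad (h t) v1 := by
      refine Finset.sum_congr rfl (fun t _ => ?_)
      simp only [hγ]
      rw [eval_pw_self _ _ _ _ _ rfl hi0]
    rw [h1]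
    exact hβ
  obtain ⟨R2, hR2, hR2m, hYR2, -, hcost2, hR2sp⟩ := step_dead (J := J) hY hrank g dg hg hgJ hind
    u m huh huJ v1 hv1 hv10 hgu1
  -- the family without `t0`
  set fam : κ ⊕ (T.erase t0 : Finset ℕ) → MvPolynomial τ K :=
    Sum.elim g (fun t => h t) with hfam
  have hfamspan : ∀ v, Submodule.span K (Set.range fun i => grad (fam i) v) =
      Submodule.span K (Set.range fun i => grad (g i) v) ⊔
      Submodule.span K ((fun t => grad (h t) v) '' ((T.erase t0 : Finset ℕ) : Set ℕ)) := by
    intro v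
    apply le_antisymm
    · rw [Submodule.span_le]
      rintro _ ⟨i | t, rfl⟩
      · exact Submodule.mem_sup_left (Submodule.subset_span ⟨i, rfl⟩)
      · exact Submodule.mem_sup_right (Submodule.subset_span ⟨t, t.2, rfl⟩)
    · refine sup_le ?_ ?_
      · apply Submodule.span_mono
        rintro _ ⟨i, rfl⟩
        exact ⟨Sum.inl i, rfl⟩
      · apply Submodule.span_mono
        rintro _ ⟨t, ht, rfl⟩
        exact ⟨Sum.inr ⟨t, ht⟩, rfl⟩
  have hTpos : 0 < T.card := Finset.card_pos.2 ⟨t0, ht0T⟩
  have hcardT : Fintype.card (κ ⊕ (T.erase t0 : Finset ℕ)) + 1 = R := by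
    rw [Fintype.card_sum, Fintype.card_coe, Finset.card_erase_of_mem ht0T]
    omega
  have hfamind : LinearIndependent K (fun i => grad (fam i) v0) := by
    have h1 : (fun i => grad (fam i) v0) =
        Sum.elim (fun i => grad (g i) v0) (fun t : (T.erase t0 : Finset ℕ) => grad (h t) v0) := by
      funext i
      rcases i with i | t <;> rfl
    rw [h1]
    apply li_elim _ _ (hind v0 hv0 hv00)
    intro β' hβ'
    have h2 := hRI (fun n => if hn : n ∈ T.erase t0 then β' ⟨n, hn⟩ else 0) (by
      rw [← Finset.add_sum_erase _ _ ht0T]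
      simp only [Finset.mem_erase, ne_eq, not_true_eq_false, false_and, dite_false, zero_smul,
        zero_add]
      rw [← Finset.sum_coe_sort (T.erase t0)]
      convert hβ' using 2 with t ht
      have h3 := Finset.mem_erase.1 t.2
      rw [dif_pos h3])
    funext t
    have h3 := h2 t (Finset.mem_of_mem_erase t.2)
    simpa using h3
  -- the other candidates, corrected
  have hex : ∀ o, ∃ α : K, (α ≠ 0 → t0 ≤ o) ∧ (o ∈ S →
      grad (h o) v0 - α • grad (h t0) v0 ∈
        Submodule.span K (Set.range fun i => grad (fam i) v0)) := by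
    intro o
    by_cases ho : o ∈ S
    · have h1 := hsel o ho
      rw [mem_sup_image] at h1
      obtain ⟨c, hc⟩ := h1
      refine ⟨if t0 ≤ o then c t0 else 0, ?_, fun _ => ?_⟩
      · intro h2
        by_contra h3
        rw [if_neg h3] at h2
        exact h2 rfl
      · rw [hfamspan, mem_sup_image]
        refine ⟨fun t => if t ≤ o then c t else 0, ?_⟩
        have h2 : grad (h o) v0 - (if t0 ≤ o then c t0 else 0) • grad (h t0) v0 -
            ∑ t ∈ T.erase t0, (if t ≤ o then c t else 0) • grad (h t) v0 =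
            grad (h o) v0 - ∑ t ∈ T.filter (fun t => t ≤ o), c t • grad (h t) v0 := by
          rw [sub_sub]
          congr 1
          rw [Finset.add_sum_erase T (fun t => (if t ≤ o then c t else 0) • grad (h t) v0) ht0T,
            Finset.sum_filter]
          refine Finset.sum_congr rfl (fun t _ => ?_)
          split_ifs
          · rfl
          · rw [zero_smul]
        rw [h2]
        exact hc
    · exact ⟨0, fun h => absurd rfl h, fun h => absurd h ho⟩
  choose α hα1 hα2 using hex
  set Oset := S \ T with hOset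
  let e : Fin Oset.card ≃ Oset := Oset.equivFin.symm
  set O : ℕ → MvPolynomial τ K := fun o => h o - pw (α o) (v0 i1) i1 (d o - m) * h t0 with hO
  have hOh : ∀ o, (O o).IsHomogeneous (d o) := by
    intro o
    refine (hh o).sub ?_
    by_cases hbt : α o = 0
    · have h1 : pw (α o) (v0 i1) i1 (d o - m) = 0 := by
        simp only [pw, hbt, zero_mul, map_zero]
      rw [h1, zero_mul]
      exact isHomogeneous_zero _ _ _
    · have h1 := (pw_homog (α o) (v0 i1) i1 (d o - m)).mul (hh t0)
      have h2 : m ≤ d o := hd (hα1 o hbt)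
      rw [← hm, Nat.sub_add_cancel h2] at h1
      exact h1
  have hOJ : ∀ o, O o ∈ J := fun o => J.sub_mem (hhJ o) (J.mul_mem_left _ (hhJ t0))
  have hgO : ∀ v ∈ cone Y, ∀ o, grad (O o) v = grad (h o) v -
      eval v (pw (α o) (v0 i1) i1 (d o - m)) • grad (h t0) v := by
    intro v hv o
    rw [hO]
    simp only
    rw [sub_eq_add_neg, grad_add, ← neg_one_mul (pw _ _ _ _ * h t0),
      ← mul_assoc, grad_mul_zero _ _ _ (hz v hv t0), map_mul, map_neg, map_one, neg_one_mul,
      neg_smul, ← sub_eq_add_neg]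
  have hfin := no_meet (J := J) hY hrank fam (Sum.elim dg (fun t => d t)) (by
      rintro (i | t)
      · exact hg i
      · exact hh t) (by
      rintro (i | t)
      · exact hgJ i
      · exact hhJ t) hcardT u huJ (fun l => O (e l)) (fun l => d (e l)) (fun l => hOh _)
    (fun l => hOJ _) v0 hv0 hv00 hfamind (by
      rw [hfamspan]
      exact hRI.notMem ht0T (fun t => eval v0 (γ t)) (by rw [hγ0]; exact hβ0) _ (hgu v0 hv0)) (by
      intro l
      rw [hgO v0 hv0, eval_pw_self _ _ _ _ _ rfl hi1]
      exact hα2 _ (Finset.mem_sdiff.1 (e l).2).1) R2 hR2m (by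
      intro v hvY hvne hvR2
      have ht0in : grad (h t0) v ∈ Submodule.span K (Set.range fun i => grad (fam i) v) := by
        have h1 := hR2sp v hvR2 hvne
        rw [hgu v hvY, ← Finset.add_sum_erase _ _ ht0T, hγ0] at h1
        have h2 : β t0 • grad (h t0) v ∈ Submodule.span K (Set.range fun i => grad (fam i) v) := by
          rw [hfamspan, mem_sup_image]
          exact ⟨fun t => - eval v (γ t), by
            have h3 : β t0 • grad (h t0) v - ∑ t ∈ T.erase t0, (-eval v (γ t)) • grad (h t) v =
                β t0 • grad (h t0) v + ∑ t ∈ T.erase t0, eval v (γ t) • grad (h t) v := by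
              rw [sub_eq_add_neg, ← Finset.sum_neg_distrib]
              congr 1
              exact Finset.sum_congr rfl (fun t _ => by rw [neg_smul, neg_neg])
            rw [h3]
            exact h1⟩
        have h3 := Submodule.smul_mem _ (β t0)⁻¹ h2
        rwa [smul_smul, inv_mul_cancel₀ hβ0, one_smul] at h3
      refine (hspan v hvY hvne).trans (sup_le ?_ ?_)
      · rw [hfamspan]
        exact le_sup_left.trans le_sup_left
      · rw [Submodule.span_le]
        rintro _ ⟨o, ho, rfl⟩
        by_cases hoT : o ∈ T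
        · by_cases ho0 : o = t0
          · rw [ho0]
            exact Submodule.mem_sup_left ht0in
          · apply Submodule.mem_sup_left
            exact Submodule.subset_span ⟨Sum.inr ⟨o, Finset.mem_erase.2 ⟨ho0, hoT⟩⟩, rfl⟩
        · have h1 : grad (h o) v = grad (O o) v +
              eval v (pw (α o) (v0 i1) i1 (d o - m)) • grad (h t0) v := by
            rw [hgO v hvY, sub_add_cancel]
          rw [SetLike.mem_coe]
          simp only
          rw [h1]
          refine Submodule.add_mem _ (Submodule.mem_sup_right (Submodule.subset_span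
            ⟨e.symm ⟨o, Finset.mem_sdiff.2 ⟨ho, hoT⟩⟩, ?_⟩))
            (Submodule.mem_sup_left (Submodule.smul_mem _ _ ht0in))
          simp only [Equiv.apply_symm_apply])
  have hOcard : Oset.card + T.card = S.card := by
    rw [hOset, Finset.card_sdiff_add_card_eq_card hT]
  omega

end Pool.Agent.Run7.h399

/-!
# Varieties of lines of manifolds cut out by equations of bounded degree
-/

namespace Pool.Agent.Run7.h399

open MvPolynomial Pool.Agent.Run7.h399.Hart Pool.Agent.R948

variable {σ τ : Type} [Fintype σ] [DecidableEq σ] [Fintype τ] [DecidableEq τ]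
  {K : Type} [Field K]

/-- the conormal spaces of the schemes of lines of given contact are spanned by the candidates -/
lemma cand_levels [IsAlgClosed K] {I : Ideal (MvPolynomial σ K)} {c : ℕ} {x : σ → K}
    {A : (τ → K) →ₗ[K] (σ → K)} (h : FreePt I c x A) (hc : 0 < c)
    (F : Fin c → MvPolynomial σ K) (hF : ∀ i, F i ∈ I)
    (hFs : ∀ ξ ∈ conormal I x, ∃ a : Fin c → K, ξ = ∑ i, a i • grad (F i) x)
    (v : τ → K) (hv : v ∈ cone (linesI I x A)) (hv0 : v ≠ 0) (k : ℕ) :
    conormal (ordI I x A (k + 2)) v ≤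
      Submodule.span K (Set.range fun i => grad ((lexp x A (F i)).coeff 2) v) ⊔
      Submodule.span K ((fun t => grad (cand hc x A F t) v) ''
        ((Finset.Ico (3 * c) (3 * c + k * c) : Finset ℕ) : Set ℕ)) := by
  induction k with
  | zero =>
    refine (level_span h F hF hFs v hv hv0 1).trans (sup_le ?_ le_sup_left)
    rw [conormal_low h v hv 1 le_rfl]
    exact bot_le
  | succ k ih =>
    refine (level_span h F hF hFs v hv hv0 (k + 2)).trans (sup_le ?_ ?_)
    · refine ih.trans (sup_le_sup le_rfl (Submodule.span_mono (Set.image_mono ?_)))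
      rw [Finset.coe_subset]
      apply Finset.Ico_subset_Ico_right
      have h1 : (k + 1) * c = k * c + c := by ring
      omega
    · rw [Submodule.span_le]
      rintro _ ⟨i, rfl⟩
      refine Submodule.mem_sup_right (Submodule.subset_span ⟨(k + 2 + 1) * c + i, ?_, ?_⟩)
      · rw [Finset.mem_coe, Finset.mem_Ico]
        have h1 : (k + 2 + 1) * c = k * c + 3 * c := by ring
        have h2 : (k + 1) * c = k * c + c := by ring
        have h3 := i.2
        omega
      · simp only
        rw [cand_eq]

/-- **Equations of bounded degree.** -/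
theorem main_mixed [IsAlgClosed K] [CharZero K] {I : Ideal (MvPolynomial σ K)} {c r : ℕ}
    {x : σ → K} {A : (τ → K) →ₗ[K] (σ → K)} (h : FreePt I c x A) (hnd : Nondeg I)
    (Y : Ideal (MvPolynomial τ K)) [hY : Y.IsPrime] (hYmin : Y ∈ (linesI I x A).minimalPrimes)
    (hYdim : tdP Y + r = Fintype.card τ) (hc : 0 < c) (k : ℕ) (hk : 0 < k)
    (hn : 2 * r + k * c < Fintype.card τ)
    (F : Fin c → MvPolynomial σ K) (hF : ∀ i, F i ∈ I)
    (hind : LinearIndependent K (fun i => grad (F i) x))
    (hFs : ∀ ξ ∈ conormal I x, ∃ a : Fin c → K, ξ = ∑ i, a i • grad (F i) x)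
    (hdeg : ∀ i, (F i).totalDegree ≤ k + 2) :
    c ≤ r ∧ r ≤ (k + 1) * c ∧
    ∃ (Q : Fin c → MvPolynomial τ K) (G : Fin (r - c) → MvPolynomial τ K),
      (∀ i, (Q i).IsHomogeneous 2) ∧
      (∀ i, ∃ d, 3 ≤ d ∧ d ≤ k + 2 ∧ (G i).IsHomogeneous d) ∧
      linesI I x A = Ideal.span (Set.range Q ∪ Set.range G) ∧
      ∀ g : MvPolynomial τ K, (∀ i, ∃ k : ℕ, X i ^ k * g ∈ linesI I x A) → g ∈ linesI I x A := by
  classical
  haveI := IsAlgClosed.instInfinite (K := K)
  have hkc : c ≤ k * c := Nat.le_mul_of_pos_left c hk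
  have hYh : Hm Y := Hm.minimal (linesI_homog I x A) hYmin
  obtain ⟨v0, hv0, hv00⟩ := exists_ne_cone Y (by omega)
  have hYJ : ∀ v ∈ cone Y, v ∈ cone (linesI I x A) := fun v hv g hg => hv g (hYmin.1.2 hg)
  obtain ⟨T, hT, hcard, hRI⟩ := const_mixed (J := linesI I x A) hYh hYJ
    (fun v hv hvne => rank_lines h Y hYmin hYdim v hv hvne)
    (fun i => (lexp x A (F i)).coeff 2) (fun _ => 2) (fun i => lexp_coeff_homog x A (F i) 2)
    (fun i => Ideal.subset_span ⟨F i, hF i, 2, rfl⟩)
    (fun v hv hvne => quads_indep h hnd Y hYmin hYdim (by omega) F hF hind v hv hvne)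
    (cand hc x A F) (fun t => t / c) (fun a b hab => Nat.div_le_div_right hab)
    (cand_homog hc x A F) (cand_mem hc x A F hF) (3 * c) (k * c) (by
      intro v hv hvne
      rw [level_stable h F hF hFs (k + 2) hdeg v (hYJ v hv) hvne]
      exact cand_levels h hc F hF hFs v (hYJ v hv) hvne k) (by omega) v0 hv0 hv00
  rw [Fintype.card_fin] at hcard
  have hTc : T.card ≤ k * c := by
    have h1 := Finset.card_le_card hT
    rw [Nat.card_Ico] at h1
    omega
  have hTd : ∀ t ∈ T, 3 ≤ t / c ∧ t / c ≤ k + 2 := by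
    intro t ht
    have h1 := Finset.mem_Ico.1 (hT ht)
    constructor
    · rw [Nat.le_div_iff_mul_le hc]
      exact h1.1
    · rw [← Nat.lt_succ_iff, Nat.div_lt_iff_lt_mul hc]
      have h2 : (k + 2).succ * c = 3 * c + k * c := by
        rw [Nat.succ_eq_add_one]
        ring
      omega
  obtain ⟨h1, h2⟩ := close_sum h Y hYmin hYdim (by omega) F hF
    (fun t : T => cand hc x A F t) (fun t => (t : ℕ) / c) (fun t => cand_homog hc x A F t)
    (fun t => by have := (hTd t t.2).1; omega) (fun t => cand_mem hc x A F hF t) (by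
      intro v hv hvne
      apply li_elim _ _ (quads_indep h hnd Y hYmin hYdim (by omega) F hF hind v hv hvne)
      intro β hβ
      have h3 := hRI v hv hvne (fun n => if hn : n ∈ T then β ⟨n, hn⟩ else 0) (by
        rw [← Finset.sum_coe_sort T]
        convert hβ using 2 with t ht
        simp)
      funext t
      have h4 := h3 t t.2
      simpa using h4) (by rw [Fintype.card_coe]; exact hcard)
  let e : T ≃ Fin (r - c) := Fintype.equivFinOfCardEq (by rw [Fintype.card_coe]; omega)
  refine ⟨by omega, by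
    have h3 : (k + 1) * c = k * c + c := by ring
    omega, fun i => (lexp x A (F i)).coeff 2, fun i => cand hc x A F (e.symm i),
    fun i => lexp_coeff_homog x A (F i) 2, fun i => ?_, ?_, h2⟩
  · exact ⟨_, (hTd _ (e.symm i).2).1, (hTd _ (e.symm i).2).2, cand_homog hc x A F _⟩
  · have h3 : (Set.range fun i => cand hc x A F (e.symm i)) =
        Set.range (fun t : T => cand hc x A F t) :=
      e.symm.surjective.range_comp (fun t : T => cand hc x A F t)
    rw [h3]
    exact h1

/-- the degrees of the generators are bounded by those of the equations -/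
theorem mixed_degrees [IsAlgClosed K] [CharZero K] {I : Ideal (MvPolynomial σ K)} {c r : ℕ}
    {x : σ → K} {A : (τ → K) →ₗ[K] (σ → K)} (h : FreePt I c x A)
    (Y : Ideal (MvPolynomial τ K)) [hY : Y.IsPrime] (hYmin : Y ∈ (linesI I x A).minimalPrimes)
    (hYdim : tdP Y + r = Fintype.card τ) (hpos : r < Fintype.card τ) (hcr : c ≤ r)
    (F : Fin c → MvPolynomial σ K) (hF : ∀ i, F i ∈ I)
    (hFs : ∀ ξ ∈ conormal I x, ∃ a : Fin c → K, ξ = ∑ i, a i • grad (F i) x)
    (D : ℕ) (hdeg : ∀ i, (F i).totalDegree ≤ D)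
    (Q : Fin c → MvPolynomial τ K) (G : Fin (r - c) → MvPolynomial τ K)
    (hQ : ∀ i, (Q i).IsHomogeneous 2) (hG : ∀ i, ∃ d, 3 ≤ d ∧ (G i).IsHomogeneous d)
    (hJ : linesI I x A = Ideal.span (Set.range Q ∪ Set.range G)) :
    ∀ i, ∃ d, 3 ≤ d ∧ d ≤ D ∧ (G i).IsHomogeneous d := by
  classical
  haveI := IsAlgClosed.instInfinite (K := K)
  obtain ⟨v0, hv0, hv00⟩ := exists_ne_cone Y (by omega)
  have hv0J : v0 ∈ cone (linesI I x A) := fun g hg => hv0 g (hYmin.1.2 hg)
  choose d hd3 hd using hG
  set g : Fin c ⊕ Fin (r - c) → MvPolynomial τ K := Sum.elim Q G with hg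
  have hJg : linesI I x A = Ideal.span (Set.range g) := by
    rw [hJ, hg, Set.Sum.elim_range]
  have hgh : ∀ i, (g i).IsHomogeneous (Sum.elim (fun _ => 2) d i) := by
    rintro (i | i)
    · exact hQ i
    · exact hd i
  have hb := degree_bound g (Sum.elim (fun _ => 2) d) hgh v0 (by
      intro i
      apply hv0J
      rw [hJg]
      exact Ideal.subset_span ⟨i, rfl⟩) D (by
      rw [← hJg, rank_lines h Y hYmin hYdim v0 hv0 hv00, Fintype.card_sum, Fintype.card_fin,
        Fintype.card_fin]
      omega) (by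
      rw [← hJg]
      intro ξ hξ
      rw [level_stable h F hF hFs D hdeg v0 hv0J hv00] at hξ
      refine (conormal_span_le _ v0 ?_ _ ?_) hξ
      · intro f hf
        exact hv0J f (ordI_le I x A D hf)
      · rintro _ ⟨f, hf, j, hj, rfl⟩
        refine Submodule.subset_span ⟨(lexp x A f).coeff j, Ideal.subset_span ⟨f, hf, j, rfl⟩, j,
          hj, ?_⟩
        rw [homogeneousComponent_of_mem (lexp_coeff_homog x A f j), if_pos rfl])
  intro i
  exact ⟨d i, hd3 i, hb (Sum.inr i), hd i⟩

end Pool.Agent.Run7.h399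

/-!
# Stabilization of the conormal spaces of the schemes of lines of given contact
-/

namespace Pool.Agent.Run7.h399

open MvPolynomial Pool.Agent.Run7.h399.Hart Pool.Agent.R948

variable {σ τ : Type} [Fintype σ] [DecidableEq σ] [Fintype τ] [DecidableEq τ]
  {K : Type} [Field K]

/-- the conormal space of a level is spanned by the candidates -/
lemma ord_cand [IsAlgClosed K] {I : Ideal (MvPolynomial σ K)} {c : ℕ} {x : σ → K}
    {A : (τ → K) →ₗ[K] (σ → K)} (h : FreePt I c x A) (hc : 0 < c)
    (F : Fin c → MvPolynomial σ K) (hF : ∀ i, F i ∈ I)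
    (hFs : ∀ ξ ∈ conormal I x, ∃ a : Fin c → K, ξ = ∑ i, a i • grad (F i) x)
    (v : τ → K) (hv : v ∈ cone (linesI I x A)) (hv0 : v ≠ 0) (k : ℕ) :
    conormal (ordI I x A k) v =
      Submodule.span K ((fun t => grad (cand hc x A F t) v) '' Set.Iio ((k + 1) * c)) := by
  apply le_antisymm
  · induction k with
    | zero =>
      rw [conormal_low h v hv 0 (by omega)]
      exact bot_le
    | succ k ih =>
      refine (level_span h F hF hFs v hv hv0 k).trans (sup_le (ih.trans ?_) ?_)
      · refine Submodule.span_mono (Set.image_mono ?_)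
        intro t ht
        have h1 : (k + 1) * c ≤ (k + 1 + 1) * c := Nat.mul_le_mul_right c (by omega)
        exact lt_of_lt_of_le ht h1
      · rw [Submodule.span_le]
        rintro _ ⟨i, rfl⟩
        refine Submodule.subset_span ⟨(k + 1) * c + i, ?_, ?_⟩
        · have h1 : (k + 1 + 1) * c = (k + 1) * c + c := by ring
          have h2 := i.2
          simp only [Set.mem_Iio]
          omega
        · simp only
          rw [cand_eq]
  · rw [Submodule.span_le]
    rintro _ ⟨t, ht, rfl⟩
    apply grad_mem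
    apply coeff_mem_ordI x A (hF _)
    have h1 : t / c < k + 1 := (Nat.div_lt_iff_lt_mul hc).2 ht
    omega

/-- a level without new equations is followed by levels without new equations -/
lemma stab_step [IsAlgClosed K] {I : Ideal (MvPolynomial σ K)} {c : ℕ} {x : σ → K}
    {A : (τ → K) →ₗ[K] (σ → K)} (h : FreePt I c x A) (hc : 0 < c)
    (F : Fin c → MvPolynomial σ K) (hF : ∀ i, F i ∈ I)
    (hFs : ∀ ξ ∈ conormal I x, ∃ a : Fin c → K, ξ = ∑ i, a i • grad (F i) x)
    (v : τ → K) (hv : v ∈ cone (linesI I x A)) (hv0 : v ≠ 0) (k : ℕ) (hk : 1 ≤ k)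
    (hle : conormal (ordI I x A (k + 1)) v ≤ conormal (ordI I x A k) v) :
    conormal (ordI I x A (k + 1 + 1)) v ≤ conormal (ordI I x A (k + 1)) v := by
  have hall : ∀ i : ℕ, i < c → grad (cand hc x A F ((k + 2) * c + i)) v ∈
      Submodule.span K ((fun t => grad (cand hc x A F t) v) '' Set.Iio ((k + 2) * c)) := by
    intro i
    induction i using Nat.strong_induction_on with
    | _ i ih =>
      intro hi
      have h1 : grad (cand hc x A F ((k + 1) * c + i)) v ∈
          Submodule.span K ((fun t => grad (cand hc x A F t) v) '' Set.Iio ((k + 1) * c + i)) := by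
        have h2 : grad (cand hc x A F ((k + 1) * c + i)) v ∈ conormal (ordI I x A (k + 1)) v := by
          apply grad_mem
          apply coeff_mem_ordI x A (hF _)
          have h3 : ((k + 1) * c + i) / c < k + 2 := by
            rw [Nat.div_lt_iff_lt_mul hc]
            have h4 : (k + 2) * c = (k + 1) * c + c := by ring
            omega
          omega
        have h5 := hle h2
        rw [ord_cand h hc F hF hFs v hv hv0] at h5
        refine Submodule.span_mono (Set.image_mono ?_) h5
        intro t ht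
        simp only [Set.mem_Iio] at ht ⊢
        omega
      have h6 := cand_dead h hc F hF hFs v hv hv0 ((k + 1) * c + i) (by
        have h7 : 2 * c ≤ (k + 1) * c := Nat.mul_le_mul_right c (by omega)
        omega) h1
      have h8 : (k + 1) * c + i + c = (k + 2) * c + i := by ring
      rw [h8] at h6
      refine (Submodule.span_le.2 ?_) h6
      rintro _ ⟨t, ht, rfl⟩
      simp only [Set.mem_Iio] at ht
      rcases Nat.lt_or_ge t ((k + 2) * c) with h9 | h9
      · exact Submodule.subset_span ⟨t, h9, rfl⟩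
      · have h10 := ih (t - (k + 2) * c) (by omega) (by omega)
        rw [Nat.add_sub_cancel' h9] at h10
        exact h10
  refine (level_span h F hF hFs v hv hv0 (k + 1)).trans (sup_le le_rfl ?_)
  rw [Submodule.span_le]
  rintro _ ⟨i, rfl⟩
  have h1 := hall i i.2
  rw [cand_eq, show (k + 2) * c = (k + 1 + 1) * c by ring, ← ord_cand h hc F hF hFs v hv hv0] at h1
  exact h1

/-- **Stabilization.** -/
theorem stab_rank [IsAlgClosed K] [CharZero K] {I : Ideal (MvPolynomial σ K)} {c r : ℕ}
    {x : σ → K} {A : (τ → K) →ₗ[K] (σ → K)} (h : FreePt I c x A) (hnd : Nondeg I)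
    (Y : Ideal (MvPolynomial τ K)) [hY : Y.IsPrime] (hYmin : Y ∈ (linesI I x A).minimalPrimes)
    (hYdim : tdP Y + r = Fintype.card τ) (hn : c + 2 * r ≤ Fintype.card τ) (hcr : c ≤ r)
    (hc : 0 < c) (F : Fin c → MvPolynomial σ K) (hF : ∀ i, F i ∈ I)
    (hind : LinearIndependent K (fun i => grad (F i) x))
    (hFs : ∀ ξ ∈ conormal I x, ∃ a : Fin c → K, ξ = ∑ i, a i • grad (F i) x)
    (v : τ → K) (hv : v ∈ cone Y) (hv0 : v ≠ 0) :
    conormal (linesI I x A) v = conormal (ordI I x A (r - c + 2)) v := by
  classical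
  haveI := IsAlgClosed.instInfinite (K := K)
  have hvJ : v ∈ cone (linesI I x A) := fun g hg => hv g (hYmin.1.2 hg)
  have hle : ∀ k, conormal (ordI I x A k) v ≤ conormal (linesI I x A) v := fun k =>
    conormal_mono (ordI_le I x A k) v
  have hmono : ∀ k, conormal (ordI I x A k) v ≤ conormal (ordI I x A (k + 1)) v := by
    intro k
    apply conormal_mono
    apply Ideal.span_mono
    rintro g ⟨f, hf, j, hj, rfl⟩
    exact ⟨f, hf, j, by omega, rfl⟩
  -- once stable, always stable
  have hstab : ∀ k, 1 ≤ k → conormal (ordI I x A (k + 1)) v ≤ conormal (ordI I x A k) v →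
      conormal (linesI I x A) v ≤ conormal (ordI I x A k) v := by
    intro k hk h1
    have h2 : ∀ j, conormal (ordI I x A (k + j + 1)) v ≤ conormal (ordI I x A (k + j)) v := by
      intro j
      induction j with
      | zero => exact h1
      | succ j ih => exact stab_step h hc F hF hFs v hvJ hv0 (k + j) (by omega) ih
    have h3 : ∀ j, conormal (ordI I x A (k + j)) v ≤ conormal (ordI I x A k) v := by
      intro j
      induction j with
      | zero => exact le_rfl
      | succ j ih => exact (h2 j).trans ih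
    rw [level_stable h F hF hFs (k + ∑ i, (F i).totalDegree) (fun i =>
      (Finset.single_le_sum (f := fun i => (F i).totalDegree) (fun _ _ => Nat.zero_le _)
      (Finset.mem_univ i)).trans (by omega)) v hvJ hv0]
    exact h3 _
  have key : ∀ j, conormal (linesI I x A) v ≤ conormal (ordI I x A (j + 2)) v ∨
      c + j ≤ Module.finrank K (conormal (ordI I x A (j + 2)) v) := by
    intro j
    induction j with
    | zero =>
      right
      have h1 := rank_two h hnd Y hYmin hYdim hn F hF hind hFs v hv hv0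
      rw [zero_add, h1, add_zero]
    | succ j ih =>
      rcases ih with h1 | h1
      · left
        exact h1.trans (hmono _)
      · by_cases h2 : conormal (ordI I x A (j + 2 + 1)) v ≤ conormal (ordI I x A (j + 2)) v
        · left
          exact (hstab (j + 2) (by omega) h2).trans (hmono _)
        · right
          have h3 : conormal (ordI I x A (j + 2)) v < conormal (ordI I x A (j + 2 + 1)) v :=
            lt_of_le_not_ge (hmono _) h2
          have h4 := Submodule.finrank_lt_finrank_of_lt h3
          have h5 : j + 1 + 2 = j + 2 + 1 := by ring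
          rw [h5]
          omega
  apply le_antisymm _ (hle _)
  rcases key (r - c) with h1 | h1
  · exact h1
  · apply le_of_eq
    symm
    apply Submodule.eq_of_le_of_finrank_le (hle _)
    rw [rank_lines h Y hYmin hYdim v hv hv0]
    omega

end Pool.Agent.Run7.h399

/-!
# Varieties of lines of manifolds with local equations of given degrees
-/

namespace Pool.Agent.Run7.h399

open MvPolynomial Pool.Agent.Run7.h399.Hart Pool.Agent.R948

variable {σ τ : Type} [Fintype σ] [DecidableEq σ] [Fintype τ] [DecidableEq τ]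
  {K : Type} [Field K]

/-- the positions of the candidates -/
def posS {c : ℕ} (hc : 0 < c) (q : ℕ) (δ : Fin c → ℕ) : Finset ℕ :=
  (Finset.Ico (3 * c) (3 * c + q * c)).filter (fun t => t / c ≤ δ ⟨t % c, Nat.mod_lt t hc⟩)

lemma card_posS {c : ℕ} (hc : 0 < c) (q : ℕ) (δ : Fin c → ℕ) :
    (posS hc q δ).card ≤ ∑ i, min (δ i - 2) q := by
  classical
  have h1 : (posS hc q δ).card ≤
      (Finset.univ.sigma (fun i : Fin c => Finset.Ico 3 (min (δ i) (q + 2) + 1))).card := by
    apply Finset.card_le_card_of_injOn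
      (fun t => (⟨⟨t % c, Nat.mod_lt t hc⟩, t / c⟩ : Σ _ : Fin c, ℕ))
    · intro t ht
      rw [Finset.mem_coe, posS, Finset.mem_filter, Finset.mem_Ico] at ht
      obtain ⟨⟨h2, h3⟩, h4⟩ := ht
      rw [Finset.mem_coe, Finset.mem_sigma]
      refine ⟨Finset.mem_univ _, ?_⟩
      rw [Finset.mem_Ico]
      have h5 : 3 ≤ t / c := (Nat.le_div_iff_mul_le hc).2 h2
      have h6 : t / c < q + 3 := by
        rw [Nat.div_lt_iff_lt_mul hc]
        have : (q + 3) * c = 3 * c + q * c := by ring
        omega
      refine ⟨h5, ?_⟩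
      simp only
      omega
    · intro a _ b _ hab
      simp only [Sigma.mk.injEq, Fin.mk.injEq, heq_eq_eq] at hab
      rw [← Nat.div_add_mod a c, ← Nat.div_add_mod b c, hab.1, hab.2]
  refine h1.trans (le_of_eq ?_)
  rw [Finset.card_sigma]
  refine Finset.sum_congr rfl (fun i _ => ?_)
  rw [Nat.card_Ico]
  omega

/-- **Local equations of given degrees.** -/
theorem main_mixedS [IsAlgClosed K] [CharZero K] {I : Ideal (MvPolynomial σ K)} {c r : ℕ}
    {x : σ → K} {A : (τ → K) →ₗ[K] (σ → K)} (h : FreePt I c x A) (hnd : Nondeg I)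
    (Y : Ideal (MvPolynomial τ K)) [hY : Y.IsPrime] (hYmin : Y ∈ (linesI I x A).minimalPrimes)
    (hYdim : tdP Y + r = Fintype.card τ) (hpos : r < Fintype.card τ) (hc : 0 < c)
    (hn0 : c + 2 * r ≤ Fintype.card τ)
    (F : Fin c → MvPolynomial σ K) (hF : ∀ i, F i ∈ I)
    (hind : LinearIndependent K (fun i => grad (F i) x))
    (hFs : ∀ ξ ∈ conormal I x, ∃ a : Fin c → K, ξ = ∑ i, a i • grad (F i) x)
    (δ : Fin c → ℕ) (hdeg : ∀ i, (F i).totalDegree ≤ δ i)
    (hn : 2 * r + ∑ i, min (δ i - 2) (r - c) < Fintype.card τ) :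
    c ≤ r ∧ r ≤ c + ∑ i, min (δ i - 2) (r - c) ∧
    ∃ (Q : Fin c → MvPolynomial τ K) (G : Fin (r - c) → MvPolynomial τ K),
      (∀ i, (Q i).IsHomogeneous 2) ∧
      (∀ i, ∃ d, 3 ≤ d ∧ d ≤ r - c + 2 ∧ (G i).IsHomogeneous d) ∧
      linesI I x A = Ideal.span (Set.range Q ∪ Set.range G) ∧
      ∀ g : MvPolynomial τ K, (∀ i, ∃ k : ℕ, X i ^ k * g ∈ linesI I x A) → g ∈ linesI I x A := by
  classical
  haveI := IsAlgClosed.instInfinite (K := K)
  have hYh : Hm Y := Hm.minimal (linesI_homog I x A) hYmin
  have hcr : c ≤ r := codim_le h hnd Y hYmin hYdim hn0 hpos F hF hind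
  obtain ⟨v0, hv0, hv00⟩ := exists_ne_cone Y (by omega)
  have hYJ : ∀ v ∈ cone Y, v ∈ cone (linesI I x A) := fun v hv g hg => hv g (hYmin.1.2 hg)
  set S := posS hc (r - c) δ with hS
  have hScard := card_posS hc (r - c) δ
  rw [← hS] at hScard
  obtain ⟨T, hT, hcard, hRI⟩ := const_mixedS (J := linesI I x A) hYh hYJ
    (fun v hv hvne => rank_lines h Y hYmin hYdim v hv hvne)
    (fun i => (lexp x A (F i)).coeff 2) (fun _ => 2) (fun i => lexp_coeff_homog x A (F i) 2)
    (fun i => Ideal.subset_span ⟨F i, hF i, 2, rfl⟩)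
    (fun v hv hvne => quads_indep h hnd Y hYmin hYdim hn0 F hF hind v hv hvne)
    (cand hc x A F) (fun t => t / c) (fun a b hab => Nat.div_le_div_right hab)
    (cand_homog hc x A F) (cand_mem hc x A F hF) S (by
      intro v hv hvne
      rw [stab_rank h hnd Y hYmin hYdim hn0 hcr hc F hF hind hFs v hv hvne]
      refine (cand_levels h hc F hF hFs v (hYJ v hv) hvne (r - c)).trans
        (sup_le_sup le_rfl ?_)
      rw [Submodule.span_le]
      rintro _ ⟨t, ht, rfl⟩
      by_cases htd : t / c ≤ δ ⟨t % c, Nat.mod_lt t hc⟩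
      · refine Submodule.subset_span ⟨t, ?_, rfl⟩
        rw [hS, Finset.mem_coe, posS, Finset.mem_filter]
        exact ⟨ht, htd⟩
      · have h0 : cand hc x A F t = 0 :=
          Polynomial.coeff_eq_zero_of_natDegree_lt
            (lt_of_le_of_lt (lexp_natDegree x A (hdeg _)) (by omega))
        have h1 : grad (cand hc x A F t) v = 0 := by rw [h0, grad_zero]
        rw [SetLike.mem_coe]
        simp only
        rw [h1]
        exact Submodule.zero_mem _) (by omega) v0 hv0 hv00
  rw [Fintype.card_fin] at hcard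
  have hTc := Finset.card_le_card hT
  have hTd : ∀ t ∈ T, 3 ≤ t / c ∧ t / c ≤ r - c + 2 := by
    intro t ht
    have h1 := hT ht
    rw [hS, posS, Finset.mem_filter, Finset.mem_Ico] at h1
    constructor
    · rw [Nat.le_div_iff_mul_le hc]
      exact h1.1.1
    · rw [← Nat.lt_succ_iff, Nat.div_lt_iff_lt_mul hc]
      have h2 : (r - c + 2).succ * c = 3 * c + (r - c) * c := by
        rw [Nat.succ_eq_add_one]
        ring
      omega
  obtain ⟨h1, h2⟩ := close_sum h Y hYmin hYdim (by omega) F hF
    (fun t : T => cand hc x A F t) (fun t => (t : ℕ) / c) (fun t => cand_homog hc x A F t)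
    (fun t => by have := (hTd t t.2).1; omega) (fun t => cand_mem hc x A F hF t) (by
      intro v hv hvne
      apply li_elim _ _ (quads_indep h hnd Y hYmin hYdim hn0 F hF hind v hv hvne)
      intro β hβ
      have h3 := hRI v hv hvne (fun n => if hn : n ∈ T then β ⟨n, hn⟩ else 0) (by
        rw [← Finset.sum_coe_sort T]
        convert hβ using 2 with t ht
        simp)
      funext t
      have h4 := h3 t t.2
      simpa using h4) (by rw [Fintype.card_coe]; exact hcard)
  let e : T ≃ Fin (r - c) := Fintype.equivFinOfCardEq (by rw [Fintype.card_coe]; omega)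
  refine ⟨hcr, by omega, fun i => (lexp x A (F i)).coeff 2, fun i => cand hc x A F (e.symm i),
    fun i => lexp_coeff_homog x A (F i) 2, fun i => ?_, ?_, h2⟩
  · exact ⟨_, (hTd _ (e.symm i).2).1, (hTd _ (e.symm i).2).2, cand_homog hc x A F _⟩
  · have h3 : (Set.range fun i => cand hc x A F (e.symm i)) =
        Set.range (fun t : T => cand hc x A F t) :=
      e.symm.surjective.range_comp (fun t : T => cand hc x A F t)
    rw [h3]
    exact h1

end Pool.Agent.Run7.h399

/-!
# Equations of given degrees at a general point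
-/

namespace Pool.Agent.Run7.h399

open MvPolynomial Pool.Agent.Run7.h399.Hart Pool.Agent.R948 LX

/-- equations of given degrees whose differentials are a basis of the conormal space at a general
point -/
theorem exists_lowS {n c : ℕ} {I : Ideal (Pol (n + c + 1))} (hX : IsManifold n c I)
    (δ : Fin c → ℕ) (hδ : HasEquations δ I) :
    ∃ (F : Fin c → Pol (n + c + 1)) (D : Pol (n + c + 1)),
      D ∉ I ∧ (∀ i, F i ∈ I) ∧ (∀ i, (F i).totalDegree ≤ δ i) ∧
      ∀ x ∈ zeros I, x ≠ 0 → eval x D ≠ 0 →
        LinearIndependent ℂ (fun i => grad (F i) x) ∧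
        ∀ ξ ∈ conormal I x, ∃ a : Fin c → ℂ, ξ = ∑ i, a i • grad (F i) x := by
  classical
  have hsc := sc_of hX
  obtain ⟨x0, hx0, hx00, F, hF, hind⟩ := hδ
  have hind0 : LinearIndependent ℂ (fun i => grad (F i) x0) := hind
  obtain ⟨W, hW⟩ := exists_mdet F x0 hind0
  refine ⟨F, mdet F W, ?_, fun i => (hF i).1, fun i => (hF i).2, ?_⟩
  · intro hmem
    have h1 := hx0 _ hmem
    rw [hW] at h1
    exact one_ne_zero h1
  · intro x hx hxne hDx
    have hind := ind_of_mdet F W x hDx
    refine ⟨hind, ?_⟩
    have hspan : Submodule.span ℂ (Set.range fun i => grad (F i) x) = conormal I x := by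
      apply Submodule.eq_of_le_of_finrank_eq
      · rw [Submodule.span_le]
        rintro _ ⟨i, rfl⟩
        exact grad_mem I x (hF i).1
      · rw [finrank_span_eq_card hind, Fintype.card_fin, hsc.rank x hx hxne]
    intro ξ hξ
    rw [← hspan, Submodule.mem_span_range_iff_exists_fun] at hξ
    obtain ⟨a, ha⟩ := hξ
    exact ⟨a, ha.symm⟩

/-- the degrees of the generators are bounded when the levels stabilize -/
theorem mixed_degrees' {n c r : ℕ} {I : Ideal (Pol (n + c + 1))}
    {x : Fin (n + c + 1) → ℂ} {A : (Fin n → ℂ) →ₗ[ℂ] (Fin (n + c + 1) → ℂ)} (h : FreePt I c x A)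
    (Y : Ideal (Pol n)) [hY : Y.IsPrime] (hYmin : Y ∈ (linesI I x A).minimalPrimes)
    (hYdim : tdP Y + r = Fintype.card (Fin n)) (hcr : c ≤ r) (D : ℕ)
    (v0 : Fin n → ℂ) (hv0 : v0 ∈ cone Y) (hv00 : v0 ≠ 0)
    (hstab : conormal (linesI I x A) v0 = conormal (ordI I x A D) v0)
    (Q : Fin c → Pol n) (G : Fin (r - c) → Pol n)
    (hQ : ∀ i, (Q i).IsHomogeneous 2) (hG : ∀ i, ∃ d, 3 ≤ d ∧ (G i).IsHomogeneous d)
    (hJ : linesI I x A = Ideal.span (Set.range Q ∪ Set.range G)) :
    ∀ i, ∃ d, 3 ≤ d ∧ d ≤ D ∧ (G i).IsHomogeneous d := by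
  classical
  have hv0J : v0 ∈ cone (linesI I x A) := fun g hg => hv0 g (hYmin.1.2 hg)
  choose d hd3 hd using hG
  set g : Fin c ⊕ Fin (r - c) → Pol n := Sum.elim Q G with hg
  have hJg : linesI I x A = Ideal.span (Set.range g) := by
    rw [hJ, hg, Set.Sum.elim_range]
  have hgh : ∀ i, (g i).IsHomogeneous (Sum.elim (fun _ => 2) d i) := by
    rintro (i | i)
    · exact hQ i
    · exact hd i
  have hb := degree_bound g (Sum.elim (fun _ => 2) d) hgh v0 (by
      intro i
      apply hv0J
      rw [hJg]
      exact Ideal.subset_span ⟨i, rfl⟩) D (by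
      rw [← hJg, rank_lines h Y hYmin hYdim v0 hv0 hv00, Fintype.card_sum, Fintype.card_fin,
        Fintype.card_fin]
      omega) (by
      rw [← hJg]
      intro ξ hξ
      rw [hstab] at hξ
      refine (conormal_span_le _ v0 ?_ _ ?_) hξ
      · intro f hf
        exact hv0J f (ordI_le I x A D hf)
      · rintro _ ⟨f, hf, j, hj, rfl⟩
        refine Submodule.subset_span ⟨(lexp x A f).coeff j, Ideal.subset_span ⟨f, hf, j, rfl⟩, j,
          hj, ?_⟩
        rw [homogeneousComponent_of_mem (lexp_coeff_homog x A f j), if_pos rfl])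
  intro i
  exact ⟨d i, hd3 i, hb (Sum.inr i), hd i⟩

end Pool.Agent.Run7.h399
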