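import Mathlib

/-!
# Smooth projective varieties and the scheme of lines through a point

A closed subscheme of `P^(m-1)` is given by a homogeneous ideal of `ℂ[X_0, ..., X_(m-1)]`.
-/

set_option autoImplicit false

namespace Pool.Agent.Run7.h399.LX

open MvPolynomial

/-- complex polynomials in `m` variables -/
abbrev Pol (m : ℕ) : Type := MvPolynomial (Fin m) ℂ

/-- the common zeros in `ℂ^m` -/
def zeros {m : ℕ} (I : Ideal (Pol m)) : Set (Fin m → ℂ) := {x | ∀ f ∈ I, eval x f = 0}

/-- the tangent space at `x` of the affine cone: the kernel of all differentials at `x` -/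
noncomputable def tangentSpace {m : ℕ} (I : Ideal (Pol m)) (x : Fin m → ℂ) :
    Submodule ℂ (Fin m → ℂ) where
  carrier := {w | ∀ f ∈ I, ∑ i, eval x (pderiv i f) * w i = 0}
  zero_mem' := by
    intro f _
    simp
  add_mem' := by
    intro a b ha hb f hf
    have h : ∑ i, eval x (pderiv i f) * (a + b) i =
        ∑ i, eval x (pderiv i f) * a i + ∑ i, eval x (pderiv i f) * b i := by
      rw [← Finset.sum_add_distrib]
      exact Finset.sum_congr rfl (fun i _ => by rw [Pi.add_apply, mul_add])
    rw [h, ha f hf, hb f hf, add_zero]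
  smul_mem' := by
    intro t a ha f hf
    have h : ∑ i, eval x (pderiv i f) * (t • a) i =
        t * ∑ i, eval x (pderiv i f) * a i := by
      rw [Finset.mul_sum]
      exact Finset.sum_congr rfl (fun i _ => by rw [Pi.smul_apply, smul_eq_mul]; ring)
    rw [h, ha f hf, mul_zero]

/-- `I` is the homogeneous ideal of a smooth irreducible nondegenerate projective variety
`X ⊂ P^(n+c)` of dimension `n` (and codimension `c`). -/
structure IsManifold (n c : ℕ) (I : Ideal (Pol (n + c + 1))) : Prop where
  prime : I.IsPrime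
  homogeneous : ∀ f ∈ I, ∀ d, homogeneousComponent d f ∈ I
  dimension : ringKrullDim (Pol (n + c + 1) ⧸ I) = ((n + 1 : ℕ) : WithBot ℕ∞)
  smooth : ∀ x ∈ zeros I, x ≠ 0 → Module.finrank ℂ (tangentSpace I x) = n + 1
  nondegenerate : ∀ f ∈ I, f.IsHomogeneous 1 → f = 0

/-- `A` identifies `ℂ^n` with a complement of the line `ℂ x` in the tangent space of the affine
cone at `x`, and so `P^(n-1)` with the projectivized tangent space of `X` at the point `x`. -/
structure IsFrame {n m : ℕ} (I : Ideal (Pol m)) (x : Fin m → ℂ)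
    (A : (Fin n → ℂ) →ₗ[ℂ] (Fin m → ℂ)) : Prop where
  injective : Function.Injective A
  notMem : x ∉ LinearMap.range A
  span : tangentSpace I x = Submodule.span ℂ {x} ⊔ LinearMap.range A

/-- The expansion of `f(x + t A(u))` in powers of `t`: a polynomial in `t` whose coefficients are
polynomials in the coordinates of `u`. -/
noncomputable def expand {n m : ℕ} (x : Fin m → ℂ) (A : (Fin n → ℂ) →ₗ[ℂ] (Fin m → ℂ)) :
    Pol m →ₐ[ℂ] Polynomial (Pol n) :=
  aeval fun i => Polynomial.C (C (x i)) +
    Polynomial.X * Polynomial.C (∑ j, C (A (Pi.single j 1) i) * X j)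

/-- The ideal defining the scheme `L_x ⊂ P^(n-1)` of lines in `X` through `x`: the line through
`x` with direction `A(u)` lies in `X` when all coefficients of all `f(x + t A(u))` vanish. -/
noncomputable def linesIdeal {n m : ℕ} (I : Ideal (Pol m)) (x : Fin m → ℂ)
    (A : (Fin n → ℂ) →ₗ[ℂ] (Fin m → ℂ)) : Ideal (Pol n) :=
  Ideal.span {g | ∃ f ∈ I, ∃ k, g = (expand x A f).coeff k}

/-- the ideal is saturated with respect to the ideal of all variables -/
def IsSaturated {n : ℕ} (J : Ideal (Pol n)) : Prop :=
  ∀ g : Pol n, (∀ i, ∃ k : ℕ, X i ^ k * g ∈ J) → g ∈ J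

/-- `J` is saturated and generated by `p` quadrics and `q` forms of degree at least `3`. When the
closed subscheme of `P^(n-1)` defined by `J` has codimension `p + q`, this says that it is a
complete intersection of these hypersurfaces. -/
def GeneratedBy {n : ℕ} (p q : ℕ) (J : Ideal (Pol n)) : Prop :=
  IsSaturated J ∧ ∃ (Q : Fin p → Pol n) (G : Fin q → Pol n),
    (∀ i, (Q i).IsHomogeneous 2) ∧ (∀ i, ∃ d, 3 ≤ d ∧ (G i).IsHomogeneous d) ∧
      J = Ideal.span (Set.range Q ∪ Set.range G)

end Pool.Agent.Run7.h399.LX
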