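import Pool.Agent.Run7.h399.Defs

/-!
# Generators of bounded degree
-/

set_option autoImplicit false

namespace Pool.Agent.Run7.h399.LX

open MvPolynomial

/-- `J` is saturated and generated by `p` quadrics and `q` forms of degrees between `3` and `D`.
When the closed subscheme of `P^(n-1)` defined by `J` has codimension `p + q`, this says that it
is a complete intersection of these hypersurfaces. -/
def GeneratedUpToDegree {n : ℕ} (D p q : ℕ) (J : Ideal (Pol n)) : Prop :=
  IsSaturated J ∧ ∃ (Q : Fin p → Pol n) (G : Fin q → Pol n),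
    (∀ i, (Q i).IsHomogeneous 2) ∧ (∀ i, ∃ d, 3 ≤ d ∧ d ≤ D ∧ (G i).IsHomogeneous d) ∧
      J = Ideal.span (Set.range Q ∪ Set.range G)

end Pool.Agent.Run7.h399.LX
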