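import Pool.Agent.Run7.h399.Hart
import Pool.Agent.R948.Ht

/-!
# Cones, free lines, arcs and the ideal of the lines through a point
-/

set_option autoImplicit false
set_option linter.unusedSectionVars false
set_option linter.style.haveILetI false

/-!
# Dimension theory used below
-/

namespace Pool.Agent.Run7.h399

open MvPolynomial Pool.Agent.Run7.h399.Hart Pool.Agent.R948

variable {σ : Type} [Fintype σ] [DecidableEq σ] {K : Type} [Field K]

/-- the ideal of a point -/
noncomputable def mx (v : σ → K) : Ideal (MvPolynomial σ K) := RingHom.ker (eval v)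

lemma mem_mx (v : σ → K) (f : MvPolynomial σ K) : f ∈ mx v ↔ eval v f = 0 := RingHom.mem_ker

instance mx_prime (v : σ → K) : (mx v).IsPrime := RingHom.ker_isPrime _

/-- components through a point of the intersection of an irreducible variety with hypersurfaces -/
theorem exists_cut {e : ℕ} (P₀ M : Ideal (MvPolynomial σ K)) (hP : P₀.IsPrime) (hM : M.IsPrime)
    (hPM : P₀ ≤ M) (g : Fin e → MvPolynomial σ K) (hg : ∀ i, g i ∈ M) :
    ∃ R : Ideal (MvPolynomial σ K), ∃ hR : R.IsPrime, R ≤ M ∧
      R ∈ (P₀ ⊔ Ideal.span (Set.range g)).minimalPrimes ∧ tdP P₀ ≤ tdP R + e := by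
  have h1 : P₀ ⊔ Ideal.span (Set.range g) ≤ M := by
    refine sup_le hPM ?_
    rw [Ideal.span_le]
    rintro _ ⟨i, rfl⟩
    exact hg i
  obtain ⟨R, hR, hRM⟩ := Ideal.exists_minimalPrimes_le h1
  have hRp : R.IsPrime := hR.1.1
  refine ⟨R, hRp, hRM, hR, ?_⟩
  have h2 : {f | f ∈ List.ofFn g} = Set.range g := by
    ext f
    simp [List.mem_ofFn]
  have h3 := tdP_le_of_minimal (List.ofFn g) P₀ R (by rw [h2]; exact hR)
  rwa [List.length_ofFn] at h3

lemma td_point (v : σ → K) : td K v = 0 := by
  have h := td_eq_trdeg K v (fun a => by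
    have : a = algebraMap (Algebra.adjoin K (Set.range v)) K (algebraMap K _ a) := rfl
    rw [this]
    exact isAlgebraic_algebraMap _)
  have h2 : Algebra.trdeg K K = 0 := trdeg_eq_zero
  rw [h2] at h
  exact_mod_cast h

lemma tdP_mx (v : σ → K) : tdP (mx v) = 0 := by
  have h := tdP_le_td (mx v) v (fun f hf => by
    rw [mem_mx]
    rw [← hf]
    simp [aeval_eq_eval])
  rw [td_point] at h
  omega

/-- the dimension at a point is at most the dimension of the tangent space -/
theorem tdP_le_of_tangent (P : Ideal (MvPolynomial σ K)) [hP : P.IsPrime] (v : σ → K)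
    (hv : v ∈ cone P) : tdP P + Module.finrank K (conormal P v) ≤ Fintype.card σ := by
  classical
  obtain ⟨C, hC⟩ := Submodule.exists_isCompl (conormal P v)
  have hfr := Submodule.finrank_add_eq_of_isCompl hC
  rw [Module.finrank_fintype_fun_eq_card] at hfr
  set a := Module.finrank K C with ha
  let b := Module.finBasisOfFinrankEq K C rfl
  let g : Fin a → MvPolynomial σ K := fun j =>
    lin ((b j : C) : σ → K) - MvPolynomial.C (dotB σ K ((b j : C) : σ → K) v)
  have hg : ∀ j, g j ∈ mx v := by
    intro j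
    rw [mem_mx]
    simp only [g]
    rw [map_sub, eval_lin, eval_C, sub_self]
  have hPM : P ≤ mx v := fun f hf => (mem_mx v f).2 (hv f hf)
  obtain ⟨R, hR, hRM, hmin, hle⟩ := exists_cut P (mx v) hP (mx_prime v) hPM g hg
  have hPR : P ≤ R := le_sup_left.trans hmin.1.2
  have hgR : ∀ j, g j ∈ R := fun j => hmin.1.2 (Ideal.mem_sup_right (Ideal.subset_span ⟨j, rfl⟩))
  -- shifted expansion
  have hexp : ∀ f : MvPolynomial σ K, f - MvPolynomial.C (eval v f) -
      (lin (grad f v) - MvPolynomial.C (dotB σ K (grad f v) v)) ∈ mx v * mx v := by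
    intro f
    have h1 := Ideal.mem_map_of_mem (sh (-v)) (sh_expand v f)
    rw [Ideal.map_pow, pow_two] at h1
    have h2 : Ideal.map (sh (-v)) (idealOfVars σ K) ≤ mx v := by
      rw [Ideal.map_le_iff_le_comap]
      intro q hq
      rw [Ideal.mem_comap, mem_mx, eval_sh, add_neg_cancel]
      exact (mem_idealOfVars q).1 hq
    have h3 := Ideal.mul_mono h2 h2 h1
    have h4 : sh (-v) (sh v f) = f := by
      have := sh_sh (-v) f
      rwa [neg_neg] at this
    have h5 : sh (-v) (lin (grad f v)) = lin (grad f v) -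
        MvPolynomial.C (dotB σ K (grad f v) v) := by
      rw [dotB_apply, lin, map_sum, map_sum, ← Finset.sum_sub_distrib]
      refine Finset.sum_congr rfl (fun i _ => ?_)
      simp [sh]
      ring
    rw [map_sub, map_sub, h4, h5] at h3
    have h6 : sh (-v) (MvPolynomial.C (eval v f)) = MvPolynomial.C (eval v f) := by simp [sh]
    rwa [h6] at h3
  have hkey : mx v ≤ R ⊔ mx v * mx v := by
    intro f hf
    have hfv : eval v f = 0 := (mem_mx v f).1 hf
    have h1 := hexp f
    rw [hfv, map_zero, sub_zero] at h1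
    have h2 : ∀ ξ : σ → K, lin ξ - MvPolynomial.C (dotB σ K ξ v) ∈ R ⊔ mx v * mx v := by
      intro ξ
      have h3 : ξ ∈ conormal P v ⊔ C := by rw [hC.sup_eq_top]; trivial
      obtain ⟨ξ1, h4, ξ2, h5, rfl⟩ := Submodule.mem_sup.1 h3
      have h6 : lin (ξ1 + ξ2) - MvPolynomial.C (dotB σ K (ξ1 + ξ2) v) =
          (lin ξ1 - MvPolynomial.C (dotB σ K ξ1 v)) + (lin ξ2 - MvPolynomial.C (dotB σ K ξ2 v)) := by
        rw [lin_add, map_add, LinearMap.add_apply, map_add]
        ring
      rw [h6]
      refine Ideal.add_mem _ ?_ (Ideal.mem_sup_left ?_)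
      · obtain ⟨F, hF, rfl⟩ := exists_grad P v ξ1 h4
        have h7 := hexp F
        rw [hv F hF, map_zero, sub_zero] at h7
        have h8 := Ideal.sub_mem _ (Ideal.mem_sup_left (hPR hF) : F ∈ R ⊔ mx v * mx v)
          (Ideal.mem_sup_right h7)
        rwa [sub_sub_cancel] at h8
      · have h7 : ∃ c : Fin a → K, ξ2 = ∑ j, c j • ((b j : C) : σ → K) := by
          refine ⟨fun j => b.repr ⟨ξ2, h5⟩ j, ?_⟩
          have h8 := congrArg (fun z : C => (z : σ → K)) (b.sum_repr ⟨ξ2, h5⟩)
          simp only [Submodule.coe_sum, Submodule.coe_smul] at h8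
          exact h8.symm
        obtain ⟨c, rfl⟩ := h7
        have h8 : lin (∑ j, c j • ((b j : C) : σ → K)) -
            MvPolynomial.C (dotB σ K (∑ j, c j • ((b j : C) : σ → K)) v) =
            ∑ j, MvPolynomial.C (c j) * g j := by
          rw [lin_sum, map_sum, LinearMap.sum_apply, map_sum, ← Finset.sum_sub_distrib]
          refine Finset.sum_congr rfl (fun j _ => ?_)
          simp only [g]
          rw [lin_smul, map_smul, LinearMap.smul_apply, smul_eq_mul, map_mul]
          ring
        rw [h8]
        exact Ideal.sum_mem _ (fun j _ => Ideal.mul_mem_left _ _ (hgR j))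
    have h3 := Ideal.add_mem _ (Ideal.mem_sup_right h1 : _ ∈ R ⊔ mx v * mx v) (h2 (grad f v))
    rwa [sub_add_cancel] at h3
  have hRmx : R = mx v := by
    refine le_antisymm hRM ?_
    have hidem : IsIdempotentElem ((mx v).map (Ideal.Quotient.mk R)) := by
      refine le_antisymm Ideal.mul_le_right ?_
      rw [← Ideal.map_mul]
      have h1 := Ideal.map_mono (f := Ideal.Quotient.mk R) hkey
      rw [Ideal.map_sup, Ideal.map_quotient_self, bot_sup_eq] at h1
      exact h1
    have hfg : ((mx v).map (Ideal.Quotient.mk R)).FG := IsNoetherian.noetherian _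
    rcases (Ideal.isIdempotentElem_iff_eq_bot_or_top _ hfg).1 hidem with h | h
    · rw [Ideal.map_eq_bot_iff_le_ker, Ideal.mk_ker] at h
      exact h
    · exfalso
      have h1 : Ideal.comap (Ideal.Quotient.mk R) ((mx v).map (Ideal.Quotient.mk R)) = mx v := by
        rw [Ideal.comap_map_of_surjective _ Ideal.Quotient.mk_surjective]
        have h2 : Ideal.comap (Ideal.Quotient.mk R) ⊥ = R := Ideal.mk_ker
        rw [h2, sup_eq_left.2 hRM]
      rw [h, Ideal.comap_top] at h1
      exact (mx_prime v).ne_top h1.symm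
  subst hRmx
  rw [tdP_mx] at hle
  omega

end Pool.Agent.Run7.h399

/-!
# Local generation of ideals from arcs
-/

namespace Pool.Agent.Run7.h399

open MvPolynomial Pool.Agent.Run7.h399.Hart Pool.Agent.R948

variable {σ : Type} [Fintype σ] [DecidableEq σ] {K : Type} [Field K]

/-- from generation modulo all powers of the ideal of a point to local generation -/
theorem locgen_of_LG {r : ℕ} (J : Ideal (MvPolynomial σ K)) (v : σ → K)
    (G : Fin r → MvPolynomial σ K)
    (h : ∀ k, ∀ g ∈ J, sh v g ∈ (Ideal.span (Set.range G)).map (sh v) ⊔ idealOfVars σ K ^ k) :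
    ∀ g ∈ J, ∃ a, eval v a = 1 ∧ a * g ∈ Ideal.span (Set.range G) := by
  intro g hg
  set G' := (Ideal.span (Set.range G)).map (sh v) with hG'
  have h1 : (Ideal.Quotient.mk G' (sh v g)) ∈
      (⨅ i : ℕ, (idealOfVars σ K) ^ i • (⊤ : Submodule (MvPolynomial σ K)
        (MvPolynomial σ K ⧸ G'))) := by
    rw [Submodule.mem_iInf]
    intro i
    obtain ⟨a, ha, b, hb, hab⟩ := Submodule.mem_sup.1 (h i g hg)
    rw [← hab, map_add, Ideal.Quotient.eq_zero_iff_mem.2 ha, zero_add]
    have h2 : Ideal.Quotient.mk G' b = b • (Ideal.Quotient.mk G' 1) := by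
      have h3 : b • (Ideal.Quotient.mk G' 1) = Ideal.Quotient.mk G' (b • 1) := rfl
      rw [h3, smul_eq_mul, mul_one]
    rw [h2]
    exact Submodule.smul_mem_smul hb Submodule.mem_top
  rw [Ideal.mem_iInf_smul_pow_eq_bot_iff] at h1
  obtain ⟨⟨c, hc⟩, hcx⟩ := h1
  have h2 : (1 - c) * sh v g ∈ G' := by
    rw [← Ideal.Quotient.eq_zero_iff_mem, map_mul, map_sub, map_one, sub_mul, one_mul]
    have h3 : Ideal.Quotient.mk G' c * Ideal.Quotient.mk G' (sh v g) =
        Ideal.Quotient.mk G' (sh v g) := hcx
    rw [h3, sub_self]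
  have h4 : sh (-v) (sh v g) = g := by
    have := sh_sh (-v) g
    rwa [neg_neg] at this
  refine ⟨sh (-v) (1 - c), ?_, ?_⟩
  · rw [eval_sh, add_neg_cancel, map_sub, map_one, (mem_idealOfVars c).1 hc, sub_zero]
  · have h3 := Ideal.mem_map_of_mem (sh (-v)) h2
    rw [map_mul, h4] at h3
    have h5 : Ideal.map (sh (-v)) G' ≤ Ideal.span (Set.range G) := by
      rw [hG', Ideal.map_span, Ideal.map_span, Ideal.span_le]
      rintro _ ⟨_, ⟨_, ⟨i, rfl⟩, rfl⟩, rfl⟩
      have h6 : sh (-v) (sh v (G i)) = G i := by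
        have := sh_sh (-v) (G i)
        rwa [neg_neg] at this
      rw [h6]
      exact Ideal.subset_span ⟨i, rfl⟩
    exact h5 h3

/-- every tangent vector at `v` is the velocity of an arc, to any order -/
def Arcs (J : Ideal (MvPolynomial σ K)) (v : σ → K) : Prop :=
  ∀ u ∈ tangent J v, ∀ k : ℕ, ∃ w : σ → Polynomial K, at0 w = u ∧
    ∀ g ∈ J, (Polynomial.X : Polynomial K) ^ (k + 1) ∣
      eval (cv v + (Polynomial.X : Polynomial K) • w) (io g)

/-- the form of lowest degree of an element of the ideal vanishes on the tangent space -/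
lemma hc_tangent' {J : Ideal (MvPolynomial σ K)} {v : σ → K} (hA : Arcs J v)
    (k : ℕ) (G : MvPolynomial σ K) (hG : G ∈ J) (hE : sh v G ∈ idealOfVars σ K ^ k)
    (u : σ → K) (hu : u ∈ tangent J v) :
    eval u (homogeneousComponent k (sh v G)) = 0 := by
  obtain ⟨w, hw0, hw⟩ := hA u hu k
  have h1 := hw G hG
  have h2 : cv v + (Polynomial.X : Polynomial K) • w = (Polynomial.X : Polynomial K) • w + cv v :=
    add_comm _ _
  rw [h2, ← aeval_sh] at h1
  set E := sh v G with hEdef
  have h3 : eval ((Polynomial.X : Polynomial K) • w) (io E) =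
      (Polynomial.X : Polynomial K) ^ k * eval w (io (homogeneousComponent k E)) +
      eval ((Polynomial.X : Polynomial K) • w) (io (E - homogeneousComponent k E)) := by
    rw [← eval_homog_smul (io (homogeneousComponent k E)) k
      ((homogeneousComponent_isHomogeneous k E).map _)]
    have h4 : io E = io (homogeneousComponent k E) + io (E - homogeneousComponent k E) := by
      rw [io, io, io, ← map_add]; congr 1; ring
    conv_lhs => rw [h4]
    rw [map_add]
  have h5 := dvd_aeval w (k + 1) _ (sub_hc_mem k E hE)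
  rw [h3] at h1
  have h6 := (dvd_add_left h5).1 h1
  rw [pow_succ] at h6
  have h7 := (mul_dvd_mul_iff_left (pow_ne_zero k Polynomial.X_ne_zero)).1 h6
  rw [Polynomial.X_dvd_iff, Polynomial.coeff_zero_eq_eval_zero, eval_io_zero, hw0] at h7
  exact h7

lemma LG_step' [Infinite K] {r : ℕ} {J : Ideal (MvPolynomial σ K)} {v : σ → K}
    (hv : v ∈ cone J) (hA : Arcs J v) (F : Fin r → MvPolynomial σ K) (hF : ∀ i, F i ∈ J)
    (hind : LinearIndependent K (fun i => grad (F i) v))
    (hspan : ∀ ξ ∈ conormal J v, ∃ c : Fin r → K, ξ = ∑ i, c i • grad (F i) v)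
    (k : ℕ) (G : MvPolynomial σ K) (hG : G ∈ J) (hE : sh v G ∈ idealOfVars σ K ^ k) :
    sh v G ∈ (Ideal.span (Set.range F)).map (sh v) ⊔ idealOfVars σ K ^ (k + 1) := by
  have hT := hc_tangent' hA k G hG hE
  set E := sh v G with hEdef
  have hsub := sub_hc_mem k E hE
  rcases k with _ | k
  · -- constant term
    have h1 : homogeneousComponent 0 E = 0 := by
      have h2 := hT 0 (Submodule.zero_mem _)
      rw [homogeneousComponent_zero, eval_C] at h2
      rw [homogeneousComponent_zero, h2, map_zero]
    rw [h1, sub_zero] at hsub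
    exact Ideal.mem_sup_right hsub
  obtain ⟨W, hW⟩ := exists_dual_vectors _ hind
  set lam : Fin r → MvPolynomial σ K := fun i => lin (grad (F i) v) with hlam
  let prj : MvPolynomial σ K →ₐ[K] MvPolynomial σ K :=
    aeval (fun j => X j - ∑ i, lam i * C (W i j))
  have hpr1 : ∀ f, f - prj f ∈ Ideal.span (Set.range lam) := by
    intro f
    rw [← Ideal.Quotient.eq]
    have h1 : Ideal.Quotient.mkₐ K (Ideal.span (Set.range lam)) =
        (Ideal.Quotient.mkₐ K (Ideal.span (Set.range lam))).comp prj := by
      apply MvPolynomial.algHom_ext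
      intro j
      rw [AlgHom.comp_apply, aeval_X]
      refine (Ideal.Quotient.eq).2 ?_
      have h2 : X j - (X j - ∑ i, lam i * C (W i j)) = ∑ i, lam i * C (W i j) := by ring
      rw [h2]
      exact Ideal.sum_mem _ (fun i _ => Ideal.mul_mem_right _ _ (Ideal.subset_span ⟨i, rfl⟩))
    exact AlgHom.congr_fun h1 f
  have hpr2 : prj (homogeneousComponent (k + 1) E) = 0 := by
    apply MvPolynomial.funext
    intro y
    rw [map_zero]
    have h1 : eval y (prj (homogeneousComponent (k + 1) E)) =
        eval (y - ∑ i, dotB σ K (grad (F i) v) y • W i) (homogeneousComponent (k + 1) E) := by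
      have h2 : (eval y).comp prj.toRingHom = eval (y - ∑ i, dotB σ K (grad (F i) v) y • W i) := by
        apply MvPolynomial.ringHom_ext
        · intro c; simp [prj]
        · intro j
          simp [prj, hlam, eval_lin, Finset.sum_apply]
      exact RingHom.congr_fun h2 _
    rw [h1]
    apply hT
    rw [mem_tangent]
    intro F' hF'
    obtain ⟨c, hc⟩ := hspan _ (grad_mem J v hF')
    rw [hc, map_sum, LinearMap.sum_apply]
    refine Finset.sum_eq_zero (fun i _ => ?_)
    rw [map_smul, LinearMap.smul_apply, map_sub, map_sum, Finset.sum_eq_single i]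
    · rw [map_smul, hW, if_pos rfl]
      simp
    · intro j _ hj
      rw [map_smul, hW, if_neg (fun h => hj h.symm), smul_zero]
    · intro h; exact absurd (Finset.mem_univ _) h
  have h1 := hpr1 (homogeneousComponent (k + 1) E)
  rw [hpr2, sub_zero] at h1
  obtain ⟨B, hB⟩ := Ideal.mem_span_range_iff_exists_fun.1 h1
  have h2 : homogeneousComponent (k + 1) E = ∑ i, homogeneousComponent k (B i) * lam i := by
    have h3 := congrArg (homogeneousComponent (k + 1)) hB
    rw [homogeneousComponent_of_mem (homogeneousComponent_isHomogeneous _ E), if_pos rfl,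
      map_sum] at h3
    rw [← h3]
    exact Finset.sum_congr rfl (fun i _ => hc_mul _ _ k 1 (lin_homog _))
  have h3 : E = ∑ i, homogeneousComponent k (B i) * sh v (F i) +
      (∑ i, -(homogeneousComponent k (B i) * (sh v (F i) - C (eval v (F i)) - lam i)) +
        (E - homogeneousComponent (k + 1) E)) := by
    have h4 : ∑ i, homogeneousComponent k (B i) * sh v (F i) +
      ∑ i, -(homogeneousComponent k (B i) * (sh v (F i) - C (eval v (F i)) - lam i)) =
        homogeneousComponent (k + 1) E := by
      rw [h2, ← Finset.sum_add_distrib]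
      refine Finset.sum_congr rfl (fun i _ => ?_)
      rw [hv _ (hF i), map_zero]
      ring
    rw [← add_assoc, h4]
    ring
  rw [h3]
  refine Ideal.add_mem _ (Ideal.mem_sup_left ?_) (Ideal.mem_sup_right (Ideal.add_mem _ ?_ hsub))
  · exact Ideal.sum_mem _ (fun i _ => Ideal.mul_mem_left _ _
      (Ideal.mem_map_of_mem _ (Ideal.subset_span ⟨i, rfl⟩)))
  · refine Ideal.sum_mem _ (fun i _ => neg_mem ?_)
    have h5 : homogeneousComponent k (B i) ∈ idealOfVars σ K ^ k := by
      rw [mem_pow_idealOfVars_iff]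
      intro x hx
      rw [support_homogeneousComponent, Finset.mem_filter] at hx
      omega
    have h6 := Ideal.mul_mem_mul h5 (sh_expand v (F i))
    rw [← pow_add] at h6
    exact h6

/-- Local generation by elements whose gradients are a basis of the conormal space. -/
theorem locgen [Infinite K] {r : ℕ} {J : Ideal (MvPolynomial σ K)} {v : σ → K}
    (hv : v ∈ cone J) (hA : Arcs J v) (F : Fin r → MvPolynomial σ K) (hF : ∀ i, F i ∈ J)
    (hind : LinearIndependent K (fun i => grad (F i) v))
    (hspan : ∀ ξ ∈ conormal J v, ∃ c : Fin r → K, ξ = ∑ i, c i • grad (F i) v) :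
    ∀ g ∈ J, ∃ a, eval v a = 1 ∧ a * g ∈ Ideal.span (Set.range F) := by
  apply locgen_of_LG
  intro k
  induction k with
  | zero =>
    intro G hG
    apply Ideal.mem_sup_right
    rw [pow_zero, Ideal.one_eq_top]; exact Submodule.mem_top
  | succ k ih =>
    intro G hG
    obtain ⟨j, hj, E, hE, hsum⟩ := Submodule.mem_sup.1 (ih G hG)
    have hsurj : Function.Surjective (sh v) := fun f => ⟨_, sh_sh v f⟩
    obtain ⟨j', hj', hj2⟩ := (Ideal.mem_map_iff_of_surjective (sh v) hsurj).1 hj
    have hj'I : j' ∈ J := by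
      have : Ideal.span (Set.range F) ≤ J := by
        rw [Ideal.span_le]; rintro _ ⟨i, rfl⟩; exact hF i
      exact this hj'
    have hEe : sh v (G - j') = E := by
      rw [map_sub, hj2, ← hsum]; ring
    have h1 := LG_step' hv hA F hF hind hspan k (G - j') (J.sub_mem hG hj'I)
      (by rw [hEe]; exact hE)
    rw [hEe] at h1
    rw [← hsum]
    exact Ideal.add_mem _ (Ideal.mem_sup_left hj) h1

/-- Elements of an ideal whose gradients are a basis of the conormal space. -/
lemma exists_basis_grads (J : Ideal (MvPolynomial σ K)) (v : σ → K) :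
    ∃ F : Fin (Module.finrank K (conormal J v)) → MvPolynomial σ K, (∀ i, F i ∈ J) ∧
      LinearIndependent K (fun i => grad (F i) v) ∧
      ∀ ξ ∈ conormal J v, ∃ c : Fin (Module.finrank K (conormal J v)) → K,
        ξ = ∑ i, c i • grad (F i) v := by
  let b := Module.finBasisOfFinrankEq K (conormal J v) rfl
  choose F hF hbF using fun i => exists_grad J v (b i : σ → K) (b i).2
  refine ⟨F, hF, ?_, ?_⟩
  · have h1 : (fun i => grad (F i) v) = fun i => ((b i : conormal J v) : σ → K) := by
      funext i; exact (hbF i).symm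
    rw [h1]
    exact b.linearIndependent.map' (conormal J v).subtype (Submodule.ker_subtype _)
  · intro ξ hξ
    refine ⟨fun i => b.repr ⟨ξ, hξ⟩ i, ?_⟩
    have h1 := congrArg (fun v : conormal J v => (v : σ → K)) (b.sum_repr ⟨ξ, hξ⟩)
    simp only [Submodule.coe_sum, Submodule.coe_smul] at h1
    refine h1.symm.trans ?_
    exact Finset.sum_congr rfl (fun i _ => by rw [hbF i])

/-- the dimension of a component through a point where all tangent vectors are velocities -/
theorem tdP_eq_of_arcs [Infinite K] {J : Ideal (MvPolynomial σ K)} {v : σ → K}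
    (hv : v ∈ cone J) (hA : Arcs J v) (P : Ideal (MvPolynomial σ K)) [hP : P.IsPrime]
    (hmin : P ∈ J.minimalPrimes) (hPv : v ∈ cone P) :
    tdP P + Module.finrank K (conormal J v) = Fintype.card σ := by
  obtain ⟨F, hF, hind, hspan⟩ := exists_basis_grads J v
  have hloc := locgen hv hA F hF hind hspan
  refine le_antisymm ?_ ?_
  · have h1 := tdP_le_of_tangent P v hPv
    have h2 : conormal J v ≤ conormal P v := by
      apply Submodule.span_mono
      rintro ξ ⟨G, hG, rfl⟩
      exact ⟨G, hmin.1.2 hG, rfl⟩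
    have h3 := Submodule.finrank_mono h2
    omega
  · have h1 : (⊥ : Ideal (MvPolynomial σ K)).IsPrime := Ideal.isPrime_bot
    obtain ⟨R, hR, hRM, hmin', hle⟩ := exists_cut (⊥ : Ideal (MvPolynomial σ K)) P h1 hP bot_le F
      (fun i => hmin.1.2 (hF i))
    rw [tdP_bot] at hle
    have hFR : ∀ i, F i ∈ R := fun i => hmin'.1.2 (Ideal.mem_sup_right (Ideal.subset_span ⟨i, rfl⟩))
    have hJR : J ≤ R := by
      intro g hg
      obtain ⟨a, ha, hag⟩ := hloc g hg
      have h2 : a * g ∈ R := by
        have : Ideal.span (Set.range F) ≤ R := by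
          rw [Ideal.span_le]; rintro _ ⟨i, rfl⟩; exact hFR i
        exact this hag
      rcases hR.mem_or_mem h2 with h3 | h3
      · exfalso
        have h4 := hPv a (hRM h3)
        rw [ha] at h4
        exact one_ne_zero h4
      · exact h3
    have hPR : P ≤ R := hmin.2 ⟨hR, hJR⟩ hRM
    have : P = R := le_antisymm hPR hRM
    subst this
    exact hle

end Pool.Agent.Run7.h399

/-!
# Polynomial tangent fields
-/

namespace Pool.Agent.Run7.h399

open MvPolynomial Pool.Agent.Run7.h399.Hart Pool.Agent.R948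

variable {σ : Type} [Fintype σ] [DecidableEq σ] {K : Type} [Field K]

/-- Polynomial vector fields tangent to the variety, which span the tangent space at a general
point. -/
theorem exists_fields [IsAlgClosed K] {I : Ideal (MvPolynomial σ K)} {c : ℕ} (hI : SCone I c)
    (hne : ∃ x ∈ cone I, x ≠ 0) :
    ∃ (δ : MvPolynomial σ K) (θ : σ → σ → MvPolynomial σ K), δ ∉ I ∧
      (∀ l, ∀ f ∈ I, ∑ i, pderiv i f * θ l i ∈ I) ∧
      ∀ x ∈ cone I, ∀ w ∈ tangent I x, ∀ i, eval x δ * w i = ∑ l, w l * eval x (θ l i) := by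
  classical
  obtain ⟨x0, hx0, hx00⟩ := hne
  obtain ⟨F, hF, hind, hspan⟩ := exists_grads hI x0 hx0 hx00
  obtain ⟨W, hW⟩ := exists_dual_vectors _ hind
  let M : Matrix (Fin c) (Fin c) (MvPolynomial σ K) := fun i j => dd (W j) (F i)
  let δ : MvPolynomial σ K := M.det
  let θ : σ → σ → MvPolynomial σ K := fun l i =>
    δ * (if i = l then 1 else 0) -
      ∑ j, (M.adjugate.mulVec (fun k => pderiv l (F k))) j * C (W j i)
  have hev : ∀ (x : σ → K) (g : σ → MvPolynomial σ K) (f : MvPolynomial σ K),
      eval x (∑ i, pderiv i f * g i) = dotB σ K (grad f x) (fun i => eval x (g i)) := by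
    intro x g f
    rw [map_sum, dotB_apply]
    exact Finset.sum_congr rfl (fun i _ => by rw [map_mul]; rfl)
  have hsum : ∀ (l : σ) (g : MvPolynomial σ K), ∑ i, pderiv i g * θ l i =
      δ * pderiv l g - ∑ j, (M.adjugate.mulVec (fun k => pderiv l (F k))) j * dd (W j) g := by
    intro l g
    simp only [θ, mul_sub, Finset.sum_sub_distrib]
    congr 1
    · simp only [mul_ite, mul_one, mul_zero, Finset.sum_ite_eq', Finset.mem_univ, if_true]
      exact mul_comm _ _
    · simp only [Finset.mul_sum]
      rw [Finset.sum_comm]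
      refine Finset.sum_congr rfl (fun j _ => ?_)
      rw [dd, Finset.mul_sum]
      exact Finset.sum_congr rfl (fun i _ => by ring)
  have hFθ : ∀ (l : σ) (k : Fin c), ∑ i, pderiv i (F k) * θ l i = 0 := by
    intro l k
    rw [hsum]
    have h1 : ∑ j, (M.adjugate.mulVec (fun k => pderiv l (F k))) j * dd (W j) (F k) =
        (M.mulVec (M.adjugate.mulVec (fun k => pderiv l (F k)))) k := by
      rw [Matrix.mulVec, dotProduct]
      exact Finset.sum_congr rfl (fun j _ => mul_comm _ _)
    rw [h1, Matrix.mulVec_mulVec, Matrix.mul_adjugate, Matrix.smul_mulVec, Matrix.one_mulVec,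
      Pi.smul_apply, smul_eq_mul, sub_self]
  have hMx : ∀ x : σ → K, eval x δ = Matrix.det (fun i j => dotB σ K (grad (F i) x) (W j)) := by
    intro x
    rw [RingHom.map_det]
    congr 1
    ext i j
    rw [RingHom.mapMatrix_apply, Matrix.map_apply, eval_dd]
  have hδ : δ ∉ I := by
    intro h
    have h1 := hx0 δ h
    rw [hMx] at h1
    have h2 : (fun i j => dotB σ K (grad (F i) x0) (W j)) = (1 : Matrix (Fin c) (Fin c) K) := by
      funext i j
      rw [hW, Matrix.one_apply]
    rw [h2, Matrix.det_one] at h1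
    exact one_ne_zero h1
  have hindx : ∀ x : σ → K, eval x δ ≠ 0 → LinearIndependent K (fun i => grad (F i) x) := by
    intro x hx
    rw [Fintype.linearIndependent_iff]
    intro a ha
    by_contra hcon
    push Not at hcon
    obtain ⟨i, hi⟩ := hcon
    apply hx
    rw [hMx, ← Matrix.exists_vecMul_eq_zero_iff]
    refine ⟨a, fun h0 => hi (congrFun h0 i), ?_⟩
    ext j
    have := congrArg (fun φ => dotB σ K φ (W j)) ha
    simpa [Matrix.vecMul, dotProduct, map_sum, LinearMap.sum_apply] using this
  refine ⟨δ, θ, hδ, ?_, ?_⟩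
  · intro l f hf
    have h1 : δ * ∑ i, pderiv i f * θ l i ∈ I := by
      apply mem_of_vanish_ne I hI.prime ⟨x0, hx0, hx00⟩
      intro x hx hxne
      rw [map_mul]
      by_cases hδx : eval x δ = 0
      · rw [hδx, zero_mul]
      · rw [hev]
        obtain ⟨a, ha⟩ := grads_span hI x hx hxne F hF (hindx x hδx) _ (grad_mem I x hf)
        rw [← ha, uu_apply, map_sum, LinearMap.sum_apply, Finset.sum_eq_zero, mul_zero]
        intro k _
        rw [map_smul, LinearMap.smul_apply, ← hev, hFθ, map_zero, smul_zero]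
    exact (hI.prime.mem_or_mem h1).resolve_left hδ
  · intro x hx w hw i
    have h1 : ∀ k, ∑ l, w l * eval x (pderiv l (F k)) = 0 := by
      intro k
      have h2 := (mem_tangent I x w).1 hw (F k) (hF k)
      rw [dotB_apply] at h2
      rw [← h2]
      exact Finset.sum_congr rfl (fun l _ => mul_comm _ _)
    have h3 : ∀ l, eval x (θ l i) = eval x δ * (if i = l then 1 else 0) -
        ∑ j, (∑ k, eval x (M.adjugate j k) * eval x (pderiv l (F k))) * W j i := by
      intro l
      simp only [θ, map_sub, map_mul, map_sum, eval_C, Matrix.mulVec, dotProduct]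
      congr 2
      split_ifs <;> simp
    simp only [h3, mul_sub, Finset.sum_sub_distrib]
    have h4 : ∑ l, w l * (eval x δ * (if i = l then 1 else 0)) = eval x δ * w i := by
      simp only [mul_ite, mul_one, mul_zero, Finset.sum_ite_eq, Finset.mem_univ, if_true]
      exact mul_comm _ _
    have h5 : ∑ l, w l * ∑ j, (∑ k, eval x (M.adjugate j k) * eval x (pderiv l (F k))) * W j i =
        0 := by
      have h6 : ∀ l, w l * ∑ j, (∑ k, eval x (M.adjugate j k) * eval x (pderiv l (F k))) * W j i =
          ∑ j, ∑ k, (eval x (M.adjugate j k) * W j i) * (w l * eval x (pderiv l (F k))) := by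
        intro l
        rw [Finset.mul_sum]
        refine Finset.sum_congr rfl (fun j _ => ?_)
        rw [Finset.sum_mul, Finset.mul_sum]
        exact Finset.sum_congr rfl (fun k _ => by ring)
      rw [Finset.sum_congr rfl (fun l _ => h6 l), Finset.sum_comm]
      refine Finset.sum_eq_zero (fun j _ => ?_)
      rw [Finset.sum_comm]
      refine Finset.sum_eq_zero (fun k _ => ?_)
      rw [← Finset.mul_sum, h1 k, mul_zero]
    rw [h4, h5, sub_zero]

end Pool.Agent.Run7.h399

/-!
# Extension of derivations, in the form of lifts to dual numbers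
-/

namespace Pool.Agent.Run7.h399

open MvPolynomial TrivSqZeroExt

theorem formallySmooth_frac {K A L : Type} [Field K] [CharZero K] [CommRing A] [IsDomain A]
    [Field L] [Algebra K A] [Algebra K L] [Algebra A L] [IsScalarTower K A L] [FaithfulSMul A L]
    [Algebra.EssFiniteType K L] : Algebra.FormallySmooth A L := by
  letI : Algebra (FractionRing A) L := FractionRing.liftAlgebra A L
  haveI : IsScalarTower A (FractionRing A) L := FractionRing.isScalarTower_liftAlgebra A L
  haveI : CharZero (FractionRing A) :=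
    charZero_of_injective_algebraMap (R := K) (algebraMap K (FractionRing A)).injective
  haveI : IsScalarTower K (FractionRing A) L := by
    refine IsScalarTower.of_algebraMap_eq fun x => ?_
    rw [IsScalarTower.algebraMap_apply K A (FractionRing A),
      ← IsScalarTower.algebraMap_apply A (FractionRing A) L, ← IsScalarTower.algebraMap_apply]
  haveI : Algebra.EssFiniteType (FractionRing A) L :=
    Algebra.EssFiniteType.of_comp K (FractionRing A) L
  haveI : Algebra.FormallySmooth (FractionRing A) L := Algebra.FormallySmooth.of_perfectField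
  haveI : Algebra.FormallySmooth A (FractionRing A) :=
    Algebra.FormallySmooth.of_isLocalization (nonZeroDivisors A)
  exact Algebra.FormallySmooth.comp A (FractionRing A) L

theorem lift_ring {A L B : Type} [CommRing A] [Field L] [Algebra A L] [Algebra.FormallySmooth A L]
    [CommRing B] (φ : A →+* B) (p : B →+* L) (hp : Function.Surjective p)
    (hker : ∀ a b, p a = 0 → p b = 0 → a * b = 0) (hcomp : ∀ a, p (φ a) = algebraMap A L a) :
    ∃ ψ : L →+* B, (∀ x, p (ψ x) = x) ∧ ∀ a, ψ (algebraMap A L a) = φ a := by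
  letI : Algebra A B := φ.toAlgebra
  let p' : B →ₐ[A] L := { p with commutes' := hcomp }
  have hnil : IsNilpotent (RingHom.ker (p' : B →+* L)) := by
    refine ⟨2, ?_⟩
    rw [pow_two, Ideal.zero_eq_bot, eq_bot_iff, Ideal.mul_le]
    intro a ha b hb
    rw [Ideal.mem_bot]
    exact hker a b ha hb
  let ψ := Algebra.FormallySmooth.liftOfSurjective (AlgHom.id A L) p' hp hnil
  refine ⟨ψ.toRingHom, fun x => ?_, fun a => ?_⟩
  · exact Algebra.FormallySmooth.liftOfSurjective_apply (AlgHom.id A L) p' hp hnil x
  · exact ψ.commutes a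

lemma aeval_dual {σ : Type} [Fintype σ] {K L : Type} [Field K] [Field L] [Algebra K L]
    (x θ : σ → L) (f : MvPolynomial σ K) :
    aeval (fun i => (inl (x i) + inr (θ i) : TrivSqZeroExt L L)) f =
      inl (aeval x f) + inr (∑ i, aeval x (pderiv i f) * θ i) := by
  classical
  induction f using MvPolynomial.induction_on with
  | C a => simp [TrivSqZeroExt.algebraMap_eq_inl']
  | add p q hp hq =>
    rw [map_add, hp, hq, map_add, inl_add]
    have h1 : ∑ i, aeval x (pderiv i (p + q)) * θ i =
        ∑ i, aeval x (pderiv i p) * θ i + ∑ i, aeval x (pderiv i q) * θ i := by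
      rw [← Finset.sum_add_distrib]
      exact Finset.sum_congr rfl (fun i _ => by rw [map_add, map_add, add_mul])
    rw [h1, inr_add]
    abel
  | mul_X p j hp =>
    rw [map_mul, hp, aeval_X]
    have h1 : ∑ i, aeval x (pderiv i (p * X j)) * θ i =
        aeval x p * θ j + x j * ∑ i, aeval x (pderiv i p) * θ i := by
      have h2 : ∀ i, aeval x (pderiv i (p * X j)) * θ i =
          (if i = j then aeval x p * θ j else 0) + x j * (aeval x (pderiv i p) * θ i) := by
        intro i
        rw [Derivation.leibniz, smul_eq_mul, smul_eq_mul, map_add, map_mul, map_mul, aeval_X]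
        by_cases h : i = j
        · subst h
          rw [pderiv_X_self, map_one, if_pos rfl]
          ring
        · rw [pderiv_X_of_ne (fun h' => h h'.symm), map_zero, if_neg h]
          ring
      rw [Finset.sum_congr rfl (fun i _ => h2 i), Finset.sum_add_distrib, Finset.sum_ite_eq']
      simp only [Finset.mem_univ, if_true]
      rw [Finset.mul_sum]
    rw [h1, map_mul, aeval_X]
    ext
    · simp
    · simp
      ring

end Pool.Agent.Run7.h399

/-!
# Tangent vectors at a general point move along the lines through the point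
-/

namespace Pool.Agent.Run7.h399

open MvPolynomial Pool.Agent.Run7.h399.Hart Pool.Agent.R948

variable {σ : Type} [Fintype σ] [DecidableEq σ] {K : Type} [Field K]

/-- the polynomial `f(x + t v)` -/
noncomputable def ln (t : K) : MvPolynomial σ K →ₐ[K] MvPolynomial (σ ⊕ σ) K :=
  aeval (fun i => X (Sum.inl i) + C t * X (Sum.inr i))

lemma eval_ln (t : K) (x v : σ → K) (f : MvPolynomial σ K) :
    eval (Sum.elim x v) (ln t f) = eval (x + t • v) f := by
  have : (eval (Sum.elim x v)).comp (ln t).toRingHom = eval (x + t • v) := by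
    apply MvPolynomial.ringHom_ext
    · intro c; simp [ln]
    · intro i; simp [ln]
  exact RingHom.congr_fun this f

lemma eval_inl (x v : σ → K) (f : MvPolynomial σ K) :
    eval (Sum.elim x v) (rename Sum.inl f) = eval x f := by
  rw [eval_rename]
  rfl

lemma ln_zero (f : MvPolynomial σ K) : ln 0 f = rename Sum.inl f := by
  have : (ln 0 : MvPolynomial σ K →ₐ[K] MvPolynomial (σ ⊕ σ) K) = rename Sum.inl := by
    apply MvPolynomial.algHom_ext
    intro i
    simp [ln]
  rw [this]

theorem lift_aux {L : Type} [Field L] [Algebra K L] [Algebra.EssFiniteType K L] [CharZero K]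
    {I : Ideal (MvPolynomial σ K)} (hI : I.IsPrime)
    (κ : MvPolynomial (σ ⊕ σ) K →ₐ[K] L) (hln : ∀ f ∈ I, ∀ t, κ (ln t f) = 0)
    (hcomap : ∀ f, κ (rename Sum.inl f) = 0 → f ∈ I) (θ : σ → MvPolynomial σ K)
    (hθ : ∀ f ∈ I, ∑ i, pderiv i f * θ i ∈ I) :
    ∃ η : σ → L, ∀ f ∈ I, ∀ t : K, ∑ i, κ (ln t (pderiv i f)) *
      (κ (rename Sum.inl (θ i)) + algebraMap K L t * η i) = 0 := by
  classical
  let A := MvPolynomial σ K ⧸ I
  haveI : IsDomain A := Ideal.Quotient.isDomain I
  have hIP : ∀ f ∈ I, κ (rename Sum.inl f) = 0 := fun f hf => by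
    rw [← ln_zero]
    exact hln f hf 0
  let ι : A →ₐ[K] L := Ideal.Quotient.liftₐ I (κ.comp (rename Sum.inl)) (fun a ha => hIP a ha)
  have hι : ∀ f : MvPolynomial σ K, ι (Ideal.Quotient.mk I f) = κ (rename Sum.inl f) :=
    fun f => rfl
  letI : Algebra A L := ι.toRingHom.toAlgebra
  have hAL : ∀ a : A, algebraMap A L a = ι a := fun a => rfl
  haveI : IsScalarTower K A L := IsScalarTower.of_algebraMap_eq (R := K) (S := A) (A := L)
    (fun c => (ι.commutes c).symm)
  have hinj : Function.Injective (algebraMap A L) := by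
    rw [injective_iff_map_eq_zero]
    intro a ha
    obtain ⟨a, rfl⟩ := Ideal.Quotient.mk_surjective a
    rw [hAL, hι] at ha
    exact Ideal.Quotient.eq_zero_iff_mem.2 (hcomap a ha)
  haveI : FaithfulSMul A L := (faithfulSMul_iff_algebraMap_injective A L).2 hinj
  haveI : Algebra.FormallySmooth A L := formallySmooth_frac (K := K)
  set x : σ → L := fun i => κ (X (Sum.inl i)) with hxdef
  set v : σ → L := fun i => κ (X (Sum.inr i)) with hvdef
  set th : σ → L := fun i => κ (rename Sum.inl (θ i)) with hthdef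
  have hx : ∀ f : MvPolynomial σ K, aeval x f = κ (rename Sum.inl f) := by
    intro f
    have : (aeval x : MvPolynomial σ K →ₐ[K] L) = κ.comp (rename Sum.inl) := by
      apply MvPolynomial.algHom_ext
      intro i
      rw [aeval_X, AlgHom.comp_apply, rename_X]
    rw [this]
    rfl
  have hxt : ∀ (t : K) (f : MvPolynomial σ K),
      aeval (fun i => x i + algebraMap K L t * v i) f = κ (ln t f) := by
    intro t f
    have : (aeval (fun i => x i + algebraMap K L t * v i) : MvPolynomial σ K →ₐ[K] L) =
        κ.comp (ln t) := by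
      apply MvPolynomial.algHom_ext
      intro i
      rw [aeval_X, AlgHom.comp_apply, ln, aeval_X, map_add, map_mul]
      congr 2
      exact (κ.commutes t).symm
    rw [this]
    rfl
  let φ : A →ₐ[K] TrivSqZeroExt L L := Ideal.Quotient.liftₐ I
    (aeval (fun i => (TrivSqZeroExt.inl (x i) + TrivSqZeroExt.inr (th i) : TrivSqZeroExt L L)))
    (fun f hf => by
      rw [aeval_dual, hx, hIP f hf]
      have h1 : ∑ i, aeval x (pderiv i f) * th i =
          κ (rename Sum.inl (∑ i, pderiv i f * θ i)) := by
        rw [map_sum, map_sum]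
        refine Finset.sum_congr rfl (fun i _ => ?_)
        rw [map_mul, map_mul, hx]
      rw [h1, hIP _ (hθ f hf), TrivSqZeroExt.inl_zero, TrivSqZeroExt.inr_zero, add_zero])
  have hφ : ∀ f : MvPolynomial σ K, φ (Ideal.Quotient.mk I f) =
      TrivSqZeroExt.inl (aeval x f) + TrivSqZeroExt.inr (∑ i, aeval x (pderiv i f) * th i) :=
    fun f => aeval_dual x th f
  obtain ⟨ψ, hψ1, hψ2⟩ := lift_ring (A := A) (L := L) (B := TrivSqZeroExt L L) φ.toRingHom
    (TrivSqZeroExt.fstHom L L L).toRingHom (fun y => ⟨TrivSqZeroExt.inl y, rfl⟩)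
    (fun a b ha hb => by
      have ha' : a.fst = 0 := ha
      have hb' : b.fst = 0 := hb
      ext
      · simp [ha']
      · simp [ha', hb'])
    (fun a => by
      obtain ⟨f, rfl⟩ := Ideal.Quotient.mk_surjective a
      rw [hAL, hι, ← hx]
      have h1 : φ.toRingHom (Ideal.Quotient.mk I f) = φ (Ideal.Quotient.mk I f) := rfl
      rw [h1, hφ]
      show (TrivSqZeroExt.inl (aeval x f) +
        TrivSqZeroExt.inr (∑ i, aeval x (pderiv i f) * th i) : TrivSqZeroExt L L).fst = _
      simp)
  let ψK : L →ₐ[K] TrivSqZeroExt L L :=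
    { ψ with
      commutes' := fun c => by
        have h1 : algebraMap K L c = algebraMap A L (algebraMap K A c) :=
          IsScalarTower.algebraMap_apply K A L c
        show ψ (algebraMap K L c) = _
        rw [h1, hψ2]
        exact φ.commutes c }
  have hψK : ∀ y, ψK y = ψ y := fun y => rfl
  have hψx : ∀ i, ψK (x i) = TrivSqZeroExt.inl (x i) + TrivSqZeroExt.inr (th i) := by
    intro i
    have h1 : x i = algebraMap A L (Ideal.Quotient.mk I (X i)) := by
      rw [hAL, hι, rename_X]
    rw [hψK]
    conv_lhs => rw [h1]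
    rw [hψ2]
    have h2 : φ.toRingHom (Ideal.Quotient.mk I (X i)) =
        aeval (fun i => (TrivSqZeroExt.inl (x i) + TrivSqZeroExt.inr (th i) :
          TrivSqZeroExt L L)) (X i) := rfl
    rw [h2, aeval_X]
  let η : σ → L := fun i => (ψK (v i)).snd
  have hψv : ∀ i, ψK (v i) = TrivSqZeroExt.inl (v i) + TrivSqZeroExt.inr (η i) := by
    intro i
    ext
    · have h1 := hψ1 (v i)
      have h2 : (ψK (v i)).fst = v i := h1
      rw [h2]
      simp
    · simp [η]
  have hψt : ∀ (t : K) (i : σ), ψK (x i + algebraMap K L t * v i) =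
      TrivSqZeroExt.inl (x i + algebraMap K L t * v i) +
        TrivSqZeroExt.inr (th i + algebraMap K L t * η i) := by
    intro t i
    rw [map_add, map_mul, hψx, hψv, AlgHom.commutes]
    ext
    · simp [TrivSqZeroExt.algebraMap_eq_inl']
    · simp [TrivSqZeroExt.algebraMap_eq_inl']
  refine ⟨η, fun f hf t => ?_⟩
  have h1 : aeval (fun i => x i + algebraMap K L t * v i) f = (0 : L) := by
    rw [hxt]
    exact hln f hf t
  have h2 := congrArg ψK h1
  rw [map_zero] at h2
  have h3 : ψK (aeval (fun i => x i + algebraMap K L t * v i) f) =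
      aeval (fun i => ψK (x i + algebraMap K L t * v i)) f := by
    have : ψK.comp (aeval (fun i => x i + algebraMap K L t * v i) : MvPolynomial σ K →ₐ[K] L) =
        aeval (fun i => ψK (x i + algebraMap K L t * v i)) := by
      apply MvPolynomial.algHom_ext
      intro i
      rw [AlgHom.comp_apply, aeval_X, aeval_X]
    exact AlgHom.congr_fun this f
  rw [h3] at h2
  simp only [hψt] at h2
  rw [aeval_dual] at h2
  have h4 := congrArg TrivSqZeroExt.snd h2
  simp only [TrivSqZeroExt.snd_add, TrivSqZeroExt.snd_inl, TrivSqZeroExt.snd_inr, zero_add,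
    TrivSqZeroExt.snd_zero] at h4
  rw [← h4]
  exact Finset.sum_congr rfl (fun i _ => by rw [hxt])

theorem exists_lift_field [CharZero K] {I : Ideal (MvPolynomial σ K)} (hI : I.IsPrime)
    (P : Ideal (MvPolynomial (σ ⊕ σ) K)) (hP : P.IsPrime) (hln : ∀ f ∈ I, ∀ t, ln t f ∈ P)
    (hcomap : ∀ f, rename Sum.inl f ∈ P → f ∈ I) (θ : σ → MvPolynomial σ K)
    (hθ : ∀ f ∈ I, ∑ i, pderiv i f * θ i ∈ I) :
    ∃ H, H ∉ P ∧ ∃ N : σ → MvPolynomial (σ ⊕ σ) K, ∀ f ∈ I, ∀ t : K,
      ∑ i, ln t (pderiv i f) * (H * rename Sum.inl (θ i) + C t * N i) ∈ P := by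
  classical
  haveI : IsDomain (MvPolynomial (σ ⊕ σ) K ⧸ P) := Ideal.Quotient.isDomain P
  haveI : Algebra.EssFiniteType K (FractionRing (MvPolynomial (σ ⊕ σ) K ⧸ P)) :=
    haveI : Algebra.EssFiniteType (MvPolynomial (σ ⊕ σ) K ⧸ P)
      (FractionRing (MvPolynomial (σ ⊕ σ) K ⧸ P)) :=
      Algebra.EssFiniteType.of_isLocalization _ (nonZeroDivisors (MvPolynomial (σ ⊕ σ) K ⧸ P))
    Algebra.EssFiniteType.comp K (MvPolynomial (σ ⊕ σ) K ⧸ P) _
  let κ : MvPolynomial (σ ⊕ σ) K →ₐ[K] FractionRing (MvPolynomial (σ ⊕ σ) K ⧸ P) :=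
    (IsScalarTower.toAlgHom K (MvPolynomial (σ ⊕ σ) K ⧸ P) _).comp (Ideal.Quotient.mkₐ K P)
  have hκ0 : ∀ g, κ g = algebraMap (MvPolynomial (σ ⊕ σ) K ⧸ P)
      (FractionRing (MvPolynomial (σ ⊕ σ) K ⧸ P)) (Ideal.Quotient.mk P g) := fun g => rfl
  have hκ : ∀ g, κ g = 0 ↔ g ∈ P := by
    intro g
    rw [hκ0, IsFractionRing.to_map_eq_zero_iff, Ideal.Quotient.eq_zero_iff_mem]
  obtain ⟨η, hη⟩ := lift_aux hI κ (fun f hf t => (hκ _).2 (hln f hf t))
    (fun f hf => hcomap f ((hκ _).1 hf)) θ hθ
  obtain ⟨b, hb⟩ := IsLocalization.exist_integer_multiples_of_finite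
    (nonZeroDivisors (MvPolynomial (σ ⊕ σ) K ⧸ P)) η
  choose n hn using hb
  obtain ⟨H, hH⟩ := Ideal.Quotient.mk_surjective (b : MvPolynomial (σ ⊕ σ) K ⧸ P)
  choose N hN using fun i => Ideal.Quotient.mk_surjective (n i)
  refine ⟨H, ?_, N, ?_⟩
  · intro h
    have h1 : (b : MvPolynomial (σ ⊕ σ) K ⧸ P) = 0 := by
      rw [← hH]; exact Ideal.Quotient.eq_zero_iff_mem.2 h
    exact nonZeroDivisors.ne_zero b.2 h1
  · intro f hf t
    rw [← hκ, map_sum]
    have hNκ : ∀ i, κ (N i) = κ H * η i := by
      intro i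
      rw [hκ0, hκ0, hN, hn i, hH, Algebra.smul_def]
    have h1 : ∀ i, κ (ln t (pderiv i f) * (H * rename Sum.inl (θ i) + C t * N i)) =
        κ H * (κ (ln t (pderiv i f)) * (κ (rename Sum.inl (θ i)) +
          algebraMap K (FractionRing (MvPolynomial (σ ⊕ σ) K ⧸ P)) t * η i)) := by
      intro i
      have h2 : κ (C t) = algebraMap K _ t := κ.commutes t
      rw [map_mul, map_add, map_mul, map_mul, hNκ, h2]
      ring
    rw [Finset.sum_congr rfl (fun i _ => h1 i), ← Finset.mul_sum, hη f hf t, mul_zero]

end Pool.Agent.Run7.h399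

/-!
# Tangent vectors at a general point move along the lines through the point, II
-/

namespace Pool.Agent.Run7.h399

open MvPolynomial Pool.Agent.Run7.h399.Hart Pool.Agent.R948

variable {σ : Type} [Fintype σ] [DecidableEq σ] {K : Type} [Field K]

/-- tangent vectors at `x` move along the line `x + t v` -/
def FreeAt (I : Ideal (MvPolynomial σ K)) (x v : σ → K) : Prop :=
  ∀ w ∈ tangent I x, ∃ w' : σ → K, ∀ t : K, w + t • w' ∈ tangent I (x + t • v)

theorem free_prime [CharZero K] {I : Ideal (MvPolynomial σ K)} (hI : I.IsPrime)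
    (δ : MvPolynomial σ K) (θ : σ → σ → MvPolynomial σ K)
    (hθ : ∀ l, ∀ f ∈ I, ∑ i, pderiv i f * θ l i ∈ I)
    (hδ : ∀ x ∈ cone I, ∀ w ∈ tangent I x, ∀ i, eval x δ * w i = ∑ l, w l * eval x (θ l i))
    (P : Ideal (MvPolynomial (σ ⊕ σ) K)) (hP : P.IsPrime) (hln : ∀ f ∈ I, ∀ t, ln t f ∈ P)
    (hcomap : ∀ f, rename Sum.inl f ∈ P → f ∈ I) :
    ∃ H, H ∉ P ∧ ∀ x ∈ cone I, eval x δ ≠ 0 → ∀ v, Sum.elim x v ∈ cone P →
      eval (Sum.elim x v) H ≠ 0 → FreeAt I x v := by
  classical
  choose H hH N hN using fun l => exists_lift_field hI P hP hln hcomap (θ l) (hθ l)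
  refine ⟨∏ l, H l, ?_, ?_⟩
  · intro h
    rw [hP.prod_mem_iff] at h
    obtain ⟨l, -, hl⟩ := h
    exact hH l hl
  · intro x hx hδx v hv hHv w hw
    have hHl : ∀ l, eval (Sum.elim x v) (H l) ≠ 0 := by
      intro l h0
      apply hHv
      rw [map_prod]
      exact Finset.prod_eq_zero (Finset.mem_univ l) h0
    let w' : σ → K := (eval x δ)⁻¹ • ∑ l, (w l * (eval (Sum.elim x v) (H l))⁻¹) •
      (fun i => eval (Sum.elim x v) (N l i) : σ → K)
    refine ⟨w', fun t => ?_⟩
    rw [mem_tangent]
    intro f hf
    have h1 : w = (eval x δ)⁻¹ • ∑ l, (w l) • (fun i => eval x (θ l i) : σ → K) := by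
      funext i
      rw [Pi.smul_apply, Finset.sum_apply, smul_eq_mul, eq_inv_mul_iff_mul_eq₀ hδx, hδ x hx w hw i]
      rfl
    have h2 : w + t • w' = (eval x δ)⁻¹ • ∑ l, (w l * (eval (Sum.elim x v) (H l))⁻¹) •
        (fun i => eval (Sum.elim x v) (H l) * eval x (θ l i) +
          t * eval (Sum.elim x v) (N l i) : σ → K) := by
      conv_lhs => rw [h1]
      simp only [w']
      rw [smul_comm t, ← smul_add, Finset.smul_sum, ← Finset.sum_add_distrib]
      congr 1
      refine Finset.sum_congr rfl (fun l _ => ?_)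
      funext i
      simp only [Pi.add_apply, Pi.smul_apply, smul_eq_mul]
      have := hHl l
      field_simp
    rw [h2, map_smul, map_sum, Finset.sum_eq_zero, smul_zero]
    intro l _
    rw [map_smul]
    have h3 := hv _ (hN l f hf t)
    rw [map_sum] at h3
    have h4 : dotB σ K (grad f (x + t • v)) (fun i => eval (Sum.elim x v) (H l) * eval x (θ l i) +
        t * eval (Sum.elim x v) (N l i) : σ → K) = 0 := by
      rw [dotB_apply, ← h3]
      refine Finset.sum_congr rfl (fun i _ => ?_)
      rw [map_mul, eval_ln, map_add, map_mul, map_mul, eval_inl, eval_C]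
      rfl
    rw [h4, smul_zero]

/-- **Freeness.** -/
theorem exists_free [IsAlgClosed K] [CharZero K] {I : Ideal (MvPolynomial σ K)} {c : ℕ}
    (hI : SCone I c) (hne : ∃ x ∈ cone I, x ≠ 0) :
    ∃ h, h ∉ I ∧ ∀ x ∈ cone I, eval x h ≠ 0 → ∀ v, (∀ t : K, x + t • v ∈ cone I) →
      FreeAt I x v := by
  classical
  obtain ⟨δ, θ, hδI, hθ, hδ⟩ := exists_fields hI hne
  have hIp := hI.prime
  have key : ∀ a : Ideal (MvPolynomial (σ ⊕ σ) K), (∀ f ∈ I, ∀ t, ln t f ∈ a) →
      ∃ h, h ∉ I ∧ ∀ x ∈ cone I, eval x h ≠ 0 → ∀ v, Sum.elim x v ∈ cone a → FreeAt I x v := by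
    intro a
    induction a using WellFoundedGT.induction with
    | ind a ih =>
    intro ha
    have hlt : ∀ g, g ∉ a → a < a ⊔ Ideal.span {g} := by
      intro g hg
      refine lt_of_le_of_ne le_sup_left (fun h => hg ?_)
      rw [h]
      exact Ideal.mem_sup_right (Ideal.mem_span_singleton_self g)
    have hcone : ∀ g y, y ∈ cone a → eval y g = 0 → y ∈ cone (a ⊔ Ideal.span {g}) := by
      intro g y hy hg f hf
      obtain ⟨f1, hf1, f2, hf2, rfl⟩ := Submodule.mem_sup.1 hf
      obtain ⟨q, rfl⟩ := Ideal.mem_span_singleton.1 hf2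
      rw [map_add, hy f1 hf1, map_mul, hg, zero_mul, add_zero]
    by_cases hprime : a.IsPrime
    · by_cases hc : ∃ f, rename Sum.inl f ∈ a ∧ f ∉ I
      · obtain ⟨f, hfa, hfI⟩ := hc
        refine ⟨f, hfI, fun x hx hfx v hv => ?_⟩
        exfalso
        apply hfx
        have := hv _ hfa
        rwa [eval_inl] at this
      · push Not at hc
        obtain ⟨H, hH, hfree⟩ := free_prime hIp δ θ hθ hδ a hprime ha (fun f hf => hc f hf)
        obtain ⟨h', hh', hfree'⟩ := ih _ (hlt H hH) (fun f hf t => Ideal.mem_sup_left (ha f hf t))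
        refine ⟨δ * h', fun h => (hIp.mem_or_mem h).elim hδI hh', fun x hx hxh v hv => ?_⟩
        rw [map_mul] at hxh
        by_cases hHx : eval (Sum.elim x v) H = 0
        · exact hfree' x hx (right_ne_zero_of_mul hxh) v (hcone H _ hv hHx)
        · exact hfree x hx (left_ne_zero_of_mul hxh) v hv hHx
    · rw [Ideal.not_isPrime_iff] at hprime
      rcases hprime with htop | ⟨p, hp, q, hq, hpq⟩
      · refine ⟨1, fun h => hIp.ne_top ((Ideal.eq_top_iff_one _).2 h), fun x hx _ v hv => ?_⟩
        exfalso
        have := hv 1 (by rw [htop]; trivial)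
        rw [map_one] at this
        exact one_ne_zero this
      · obtain ⟨h1, hh1, hf1⟩ := ih _ (hlt p hp) (fun f hf t => Ideal.mem_sup_left (ha f hf t))
        obtain ⟨h2, hh2, hf2⟩ := ih _ (hlt q hq) (fun f hf t => Ideal.mem_sup_left (ha f hf t))
        refine ⟨h1 * h2, fun h => (hIp.mem_or_mem h).elim hh1 hh2, fun x hx hxh v hv => ?_⟩
        rw [map_mul] at hxh
        have h3 := hv _ hpq
        rw [map_mul] at h3
        rcases mul_eq_zero.1 h3 with h4 | h4
        · exact hf1 x hx (left_ne_zero_of_mul hxh) v (hcone p _ hv h4)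
        · exact hf2 x hx (right_ne_zero_of_mul hxh) v (hcone q _ hv h4)
  obtain ⟨h, hh, hfree⟩ := key (Ideal.span {g | ∃ f ∈ I, ∃ t, g = ln t f})
    (fun f hf t => Ideal.subset_span ⟨f, hf, t, rfl⟩)
  refine ⟨h, hh, fun x hx hxh v hv => hfree x hx hxh v ?_⟩
  intro g hg
  have h2 : Ideal.span {g | ∃ f ∈ I, ∃ t, g = ln t f} ≤ mx (Sum.elim x v) := by
    rw [Ideal.span_le]
    rintro _ ⟨f, hf, t, rfl⟩
    rw [SetLike.mem_coe, mem_mx, eval_ln]
    exact hv t f hf
  exact (mem_mx _ _).1 (h2 hg)

end Pool.Agent.Run7.h399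

/-!
# Linear tangent fields along a line
-/

namespace Pool.Agent.Run7.h399

open MvPolynomial Pool.Agent.Run7.h399.Hart Pool.Agent.R948

variable {σ : Type} [Fintype σ] [DecidableEq σ] {K : Type} [Field K]

lemma tangent_smul (I : Ideal (MvPolynomial σ K))
    (hom : ∀ F ∈ I, ∀ d, homogeneousComponent d F ∈ I) (c : K) (hc : c ≠ 0) (x : σ → K) :
    tangent I (c • x) = tangent I x := by
  rw [tangent, tangent, conormal_smul I hom c hc]

/-- limits of tangent vectors along a line -/
lemma tangent_closed [Infinite K] (I : Ideal (MvPolynomial σ K)) (a b y z : σ → K)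
    (h : ∀ s : K, s ≠ 0 → a + s • b ∈ tangent I (y + s • z)) : a ∈ tangent I y := by
  rw [mem_tangent]
  intro f hf
  have h1 : (∑ i, line (pderiv i f) y z * (Polynomial.C (a i) + Polynomial.X *
      Polynomial.C (b i))) = 0 := by
    apply poly_eq_zero
    intro s hs
    have h2 := (mem_tangent I _ _).1 (h s hs) f hf
    rw [dotB_apply] at h2
    rw [Polynomial.eval_finsetSum, ← h2]
    refine Finset.sum_congr rfl (fun i _ => ?_)
    rw [Polynomial.eval_mul, eval_line, Polynomial.eval_add, Polynomial.eval_mul,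
      Polynomial.eval_C, Polynomial.eval_C, Polynomial.eval_X]
    rfl
  have h3 := congrArg (Polynomial.eval 0) h1
  rw [Polynomial.eval_finsetSum, Polynomial.eval_zero] at h3
  rw [dotB_apply, ← h3]
  refine Finset.sum_congr rfl (fun i _ => ?_)
  rw [Polynomial.eval_mul, eval_line, zero_smul, add_zero]
  simp [grad]

/-- limits of points of the cone along a line -/
lemma cone_closed [Infinite K] (I : Ideal (MvPolynomial σ K)) (y z : σ → K)
    (h : ∀ s : K, s ≠ 0 → y + s • z ∈ cone I) : y ∈ cone I := by
  intro f hf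
  have h1 : line f y z = 0 := by
    apply poly_eq_zero
    intro s hs
    rw [eval_line]
    exact h s hs f hf
  have h2 := eval_line f y z 0
  rw [h1, zero_smul, add_zero, Polynomial.eval_zero] at h2
  exact h2.symm

/-- the linear tangent fields along the line through `x` and `v` -/
def EE (I : Ideal (MvPolynomial σ K)) (x v : σ → K) : Submodule K ((σ → K) × (σ → K)) where
  carrier := {p | ∀ a b : K, (a ≠ 0 ∨ b ≠ 0) → a • p.1 + b • p.2 ∈ tangent I (a • x + b • v)}
  zero_mem' := by
    intro a b _
    simp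
  add_mem' := by
    intro p q hp hq a b hab
    have h := Submodule.add_mem _ (hp a b hab) (hq a b hab)
    have h1 : a • (p + q).1 + b • (p + q).2 = a • p.1 + b • p.2 + (a • q.1 + b • q.2) := by
      simp only [Prod.fst_add, Prod.snd_add, smul_add]
      abel
    rw [h1]
    exact h
  smul_mem' := by
    intro c p hp a b hab
    have h := Submodule.smul_mem _ c (hp a b hab)
    have h1 : a • (c • p).1 + b • (c • p).2 = c • (a • p.1 + b • p.2) := by
      rw [Prod.smul_fst, Prod.smul_snd, smul_add, smul_comm a c, smul_comm b c]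
    rw [h1]
    exact h

/-- the vectors tangent at all points of the line -/
def BB (I : Ideal (MvPolynomial σ K)) (x v : σ → K) : Submodule K (σ → K) where
  carrier := {p | ∀ a b : K, (a ≠ 0 ∨ b ≠ 0) → p ∈ tangent I (a • x + b • v)}
  zero_mem' := fun a b _ => Submodule.zero_mem _
  add_mem' := fun hp hq a b hab => Submodule.add_mem _ (hp a b hab) (hq a b hab)
  smul_mem' := fun c p hp a b hab => Submodule.smul_mem _ c (hp a b hab)

lemma mem_EE_of (I : Ideal (MvPolynomial σ K)) [Infinite K]
    (hom : ∀ F ∈ I, ∀ d, homogeneousComponent d F ∈ I) (x v w w' : σ → K)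
    (h : ∀ t : K, w + t • w' ∈ tangent I (x + t • v)) : (w, w') ∈ EE I x v := by
  intro a b hab
  by_cases ha : a = 0
  · subst ha
    have hb : b ≠ 0 := by
      rcases hab with h | h
      · exact absurd rfl h
      · exact h
    simp only [zero_smul, zero_add]
    rw [tangent_smul I hom b hb]
    refine Submodule.smul_mem _ b (tangent_closed I w' w v x ?_)
    intro s hs
    have h1 := Submodule.smul_mem _ s (h s⁻¹)
    have h2 : v + s • x = s • (x + s⁻¹ • v) := by
      rw [smul_add, smul_smul, mul_inv_cancel₀ hs, one_smul, add_comm]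
    rw [h2, tangent_smul I hom s hs]
    rwa [smul_add, smul_smul, mul_inv_cancel₀ hs, one_smul, add_comm (s • w)] at h1
  · have h1 := Submodule.smul_mem _ a (h (a⁻¹ * b))
    have h2 : a • x + b • v = a • (x + (a⁻¹ * b) • v) := by
      rw [smul_add, smul_smul, ← mul_assoc, mul_inv_cancel₀ ha, one_mul]
    rw [h2, tangent_smul I hom a ha]
    rwa [smul_add, smul_smul, ← mul_assoc, mul_inv_cancel₀ ha, one_mul] at h1

lemma mem_BB_of (I : Ideal (MvPolynomial σ K)) [Infinite K]
    (hom : ∀ F ∈ I, ∀ d, homogeneousComponent d F ∈ I) (x v w : σ → K)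
    (h : ∀ t : K, t ≠ 0 → w ∈ tangent I (x + t • v)) : w ∈ BB I x v := by
  have h0 : ∀ t : K, w + t • (0 : σ → K) ∈ tangent I (x + t • v) := by
    intro t
    rw [smul_zero, add_zero]
    by_cases ht : t = 0
    · subst ht
      rw [zero_smul, add_zero]
      refine tangent_closed I w 0 x v (fun s hs => ?_)
      rw [smul_zero, add_zero]
      exact h s hs
    · exact h t ht
  intro a b hab
  by_cases ha : a = 0
  · subst ha
    have hb : b ≠ 0 := by
      rcases hab with h | h
      · exact absurd rfl h
      · exact h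
    rw [zero_smul, zero_add, tangent_smul I hom b hb]
    refine tangent_closed I w 0 v x (fun s hs => ?_)
    have h2 : v + s • x = s • (x + s⁻¹ • v) := by
      rw [smul_add, smul_smul, mul_inv_cancel₀ hs, one_smul, add_comm]
    rw [smul_zero, add_zero, h2, tangent_smul I hom s hs]
    exact h _ (inv_ne_zero hs)
  · have h2 : a • x + b • v = a • (x + (a⁻¹ * b) • v) := by
      rw [smul_add, smul_smul, ← mul_assoc, mul_inv_cancel₀ ha, one_mul]
    rw [h2, tangent_smul I hom a ha]
    have := h0 (a⁻¹ * b)
    rwa [smul_zero, add_zero] at this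

/-- evaluation of the linear tangent fields -/
noncomputable def evE (I : Ideal (MvPolynomial σ K)) (x v : σ → K) (a b : K) :
    EE I x v →ₗ[K] (σ → K) :=
  (a • LinearMap.fst K (σ → K) (σ → K) + b • LinearMap.snd K (σ → K) (σ → K)).comp
    (EE I x v).subtype

lemma evE_apply (I : Ideal (MvPolynomial σ K)) (x v : σ → K) (a b : K) (p : EE I x v) :
    evE I x v a b p = a • (p : (σ → K) × (σ → K)).1 + b • (p : (σ → K) × (σ → K)).2 := rfl

lemma finrank_ker [Infinite K] (I : Ideal (MvPolynomial σ K))
    (x v : σ → K) (a b : K)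
    (hab : a ≠ 0 ∨ b ≠ 0) :
    Module.finrank K (LinearMap.ker (evE I x v a b)) = Module.finrank K (BB I x v) := by
  -- the map `u ↦ (-b u, a u)`
  let ψ : BB I x v →ₗ[K] EE I x v :=
    { toFun := fun u => ⟨(-(b • (u : σ → K)), a • (u : σ → K)), by
        intro a' b' hab'
        have h1 : a' • (-(b • (u : σ → K))) + b' • (a • (u : σ → K)) =
            (a * b' - a' * b) • (u : σ → K) := by
          rw [smul_neg, smul_smul, smul_smul, sub_smul, mul_comm b' a, ← sub_eq_neg_add]
        rw [h1]
        exact Submodule.smul_mem _ _ (u.2 a' b' hab')⟩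
      map_add' := by
        intro u u'
        apply Subtype.ext
        simp only [Submodule.coe_add, smul_add, neg_add, Prod.mk_add_mk]
      map_smul' := by
        intro c u
        apply Subtype.ext
        simp only [Submodule.coe_smul, RingHom.id_apply, Prod.smul_mk, smul_neg]
        rw [smul_comm b c, smul_comm a c] }
  have hψ : ∀ u : BB I x v, ((ψ u : EE I x v) : (σ → K) × (σ → K)) =
      (-(b • (u : σ → K)), a • (u : σ → K)) := fun u => rfl
  have hinj : Function.Injective ψ := by
    rw [injective_iff_map_eq_zero]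
    intro u hu
    have h1 := congrArg (fun p : EE I x v => (p : (σ → K) × (σ → K))) hu
    simp only [hψ, Submodule.coe_zero, Prod.mk_eq_zero, neg_eq_zero, smul_eq_zero] at h1
    rcases hab with h | h
    · exact Subtype.ext (h1.2.resolve_left h)
    · exact Subtype.ext (h1.1.resolve_left h)
  have hrange : LinearMap.range ψ = LinearMap.ker (evE I x v a b) := by
    ext p
    rw [LinearMap.mem_ker, evE_apply]
    constructor
    · rintro ⟨u, rfl⟩
      rw [hψ]
      simp only [smul_neg, smul_smul]
      rw [mul_comm b a, neg_add_cancel]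
    · intro hp
      obtain ⟨⟨w, w'⟩, hE⟩ := p
      simp only at hp
      have hdet : ∃ u : σ → K, w = -(b • u) ∧ w' = a • u := by
        rcases hab with h | h
        · refine ⟨a⁻¹ • w', ?_, ?_⟩
          · have h1 : a • w = -(b • w') := eq_neg_of_add_eq_zero_left hp
            have h2 : w = a⁻¹ • (a • w) := by rw [smul_smul, inv_mul_cancel₀ h, one_smul]
            rw [h2, h1, smul_neg, smul_smul, smul_smul, mul_comm]
          · rw [smul_smul, mul_inv_cancel₀ h, one_smul]
        · refine ⟨-(b⁻¹ • w), ?_, ?_⟩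
          · rw [smul_neg, neg_neg, smul_smul, mul_inv_cancel₀ h, one_smul]
          · have h1 : b • w' = -(a • w) := eq_neg_of_add_eq_zero_right hp
            have h2 : w' = b⁻¹ • (b • w') := by rw [smul_smul, inv_mul_cancel₀ h, one_smul]
            rw [h2, h1, smul_neg, smul_neg, smul_smul, smul_smul, mul_comm]
      obtain ⟨u, rfl, rfl⟩ := hdet
      -- `u` is tangent at the points of the line other than `[a : b]`
      have hne : ∀ a' b' : K, (a' ≠ 0 ∨ b' ≠ 0) → a * b' - a' * b ≠ 0 →
          u ∈ tangent I (a' • x + b' • v) := by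
        intro a' b' hab' hd
        have h1 := hE a' b' hab'
        simp only at h1
        have h2 : a' • (-(b • u)) + b' • (a • u) = (a * b' - a' * b) • u := by
          rw [smul_neg, smul_smul, smul_smul, sub_smul, mul_comm b' a, ← sub_eq_neg_add]
        rw [h2] at h1
        have h3 := Submodule.smul_mem _ (a * b' - a' * b)⁻¹ h1
        rwa [smul_smul, inv_mul_cancel₀ hd, one_smul] at h3
      have hu : u ∈ BB I x v := by
        intro a' b' hab'
        by_cases hd : a * b' - a' * b = 0
        · -- move away from the point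
          have hex : ∃ a'' b'' : K, a * b'' - a'' * b ≠ 0 := by
            rcases hab with h | h
            · exact ⟨0, 1, by simpa using h⟩
            · exact ⟨-1, 0, by simpa using h⟩
          obtain ⟨a'', b'', hd'⟩ := hex
          refine tangent_closed I u 0 (a' • x + b' • v) (a'' • x + b'' • v) (fun s hs => ?_)
          have h1 : a' • x + b' • v + s • (a'' • x + b'' • v) =
              (a' + s * a'') • x + (b' + s * b'') • v := by
            rw [smul_add, smul_smul, smul_smul, add_smul, add_smul]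
            abel
          rw [h1, smul_zero, add_zero]
          have h2 : a * (b' + s * b'') - (a' + s * a'') * b ≠ 0 := by
            have h3 : a * (b' + s * b'') - (a' + s * a'') * b =
                (a * b' - a' * b) + s * (a * b'' - a'' * b) := by ring
            rw [h3, hd, zero_add]
            exact mul_ne_zero hs hd'
          refine hne _ _ ?_ h2
          by_contra hcon
          push Not at hcon
          apply h2
          rw [hcon.1, hcon.2]
          ring
        · exact hne a' b' hab' hd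
      exact ⟨⟨u, hu⟩, Subtype.ext (hψ _)⟩
  rw [← hrange]
  exact LinearMap.finrank_range_of_inj hinj

/-- **Spanning.**  At every point of the line the tangent space is spanned by the linear tangent
fields. -/
theorem span_line [Infinite K] {I : Ideal (MvPolynomial σ K)} {c : ℕ} (hI : SCone I c)
    (x v : σ → K) (hx : x ∈ cone I) (hind : ∀ a b : K, (a ≠ 0 ∨ b ≠ 0) → a • x + b • v ≠ 0)
    (hline : ∀ t : K, x + t • v ∈ cone I) (hfree : FreeAt I x v) (a b : K)
    (hab : a ≠ 0 ∨ b ≠ 0) (τ : σ → K) (hτ : τ ∈ tangent I (a • x + b • v)) :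
    ∃ w w' : σ → K, (w, w') ∈ EE I x v ∧ a • w + b • w' = τ := by
  have hcone : ∀ a b : K, a • x + b • v ∈ cone I := by
    have h1 : ∀ a b : K, a ≠ 0 → a • x + b • v ∈ cone I := by
      intro a b ha
      have h2 : a • x + b • v = a • (x + (a⁻¹ * b) • v) := by
        rw [smul_add, smul_smul, ← mul_assoc, mul_inv_cancel₀ ha, one_mul]
      rw [h2]
      exact cone_smul I hI.homog a _ (hline _)
    intro a b
    by_cases ha : a = 0
    · subst ha
      rw [zero_smul, zero_add]
      apply cone_smul I hI.homog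
      apply cone_closed I v x
      intro s hs
      have := h1 s 1 hs
      rwa [one_smul, add_comm] at this
    · exact h1 a b ha
  have hdim : ∀ a b : K, (a ≠ 0 ∨ b ≠ 0) →
      Module.finrank K (tangent I (a • x + b • v)) = Fintype.card σ - c := by
    intro a b hab
    have h1 := finrank_tangent I (a • x + b • v)
    rw [hI.rank _ (hcone a b) (hind a b hab)] at h1
    omega
  have hle : ∀ a b : K, (a ≠ 0 ∨ b ≠ 0) →
      LinearMap.range (evE I x v a b) ≤ tangent I (a • x + b • v) := by
    intro a b hab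
    rintro _ ⟨p, rfl⟩
    exact p.2 a b hab
  have hE : Module.finrank K (EE I x v) = Fintype.card σ - c + Module.finrank K (BB I x v) := by
    have h1 := LinearMap.finrank_range_add_finrank_ker (evE I x v 1 0)
    rw [finrank_ker I x v 1 0 (Or.inl one_ne_zero)] at h1
    have h2 : LinearMap.range (evE I x v 1 0) = tangent I ((1 : K) • x + (0 : K) • v) := by
      refine le_antisymm (hle 1 0 (Or.inl one_ne_zero)) ?_
      intro w hw
      rw [one_smul, zero_smul, add_zero] at hw
      obtain ⟨w', hw'⟩ := hfree w hw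
      refine ⟨⟨(w, w'), mem_EE_of I hI.homog x v w w' hw'⟩, ?_⟩
      rw [evE_apply]
      simp
    rw [h2, hdim 1 0 (Or.inl one_ne_zero)] at h1
    omega
  have h1 := LinearMap.finrank_range_add_finrank_ker (evE I x v a b)
  rw [finrank_ker I x v a b hab, hE] at h1
  have h2 : LinearMap.range (evE I x v a b) = tangent I (a • x + b • v) := by
    apply Submodule.eq_of_le_of_finrank_eq (hle a b hab)
    rw [hdim a b hab]
    omega
  rw [← h2] at hτ
  obtain ⟨p, hp⟩ := hτ
  exact ⟨(p : (σ → K) × (σ → K)).1, (p : (σ → K) × (σ → K)).2, p.2, hp⟩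

end Pool.Agent.Run7.h399

/-!
# Global sections of the normal bundle along a line
-/

namespace Pool.Agent.Run7.h399

open MvPolynomial Pool.Agent.Run7.h399.Hart Pool.Agent.R948

variable {σ : Type} [Fintype σ] [DecidableEq σ] {K : Type} [Field K]

/-- the line as a polynomial vector -/
noncomputable def pl (x v : σ → K) : σ → Polynomial K := cv x + (Polynomial.X : Polynomial K) • cv v

lemma pl_eval (x v : σ → K) (t : K) : (fun i => (pl x v i).eval t) = x + t • v := by
  funext i
  simp only [pl, cv, Pi.add_apply, Pi.smul_apply, smul_eq_mul, Polynomial.eval_add,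
    Polynomial.eval_mul, Polynomial.eval_C, Polynomial.eval_X]

/-- the derivative of `f` along the line in the direction of a polynomial vector -/
noncomputable def dl (x v : σ → K) (f : MvPolynomial σ K) (ν : σ → Polynomial K) : Polynomial K :=
  gT (io f) (pl x v) ⬝ᵥ ν

lemma dl_eval (x v : σ → K) (f : MvPolynomial σ K) (ν : σ → Polynomial K) (t : K) :
    (dl x v f ν).eval t = dotB σ K (grad f (x + t • v)) (fun i => (ν i).eval t) := by
  rw [dl, dotProduct, Polynomial.eval_finsetSum, dotB_apply]
  refine Finset.sum_congr rfl (fun i _ => ?_)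
  rw [Polynomial.eval_mul, gT, pderiv_io, eval_io_eval, pl_eval]
  rfl

lemma dl_add (x v : σ → K) (f : MvPolynomial σ K) (ν μ : σ → Polynomial K) :
    dl x v f (ν + μ) = dl x v f ν + dl x v f μ := dotProduct_add _ _ _

lemma dl_smul (x v : σ → K) (f : MvPolynomial σ K) (g : Polynomial K) (ν : σ → Polynomial K) :
    dl x v f (g • ν) = g * dl x v f ν := by
  rw [dl, dotProduct_smul, smul_eq_mul]; rfl

lemma dl_field [Infinite K] {I : Ideal (MvPolynomial σ K)} {x v w w' : σ → K}
    (h : (w, w') ∈ EE I x v) (f : MvPolynomial σ K) (hf : f ∈ I) : dl x v f (pl w w') = 0 := by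
  apply Polynomial.funext
  intro t
  rw [dl_eval, pl_eval, Polynomial.eval_zero]
  have h1 := h 1 t (Or.inl one_ne_zero)
  rw [one_smul, one_smul] at h1
  exact (mem_tangent I _ _).1 h1 f hf

/-- the data of a free line through a point -/
structure FreeLine (I : Ideal (MvPolynomial σ K)) (c : ℕ) (x v : σ → K) : Prop where
  sc : SCone I c
  mem : x ∈ cone I
  ind : ∀ a b : K, (a ≠ 0 ∨ b ≠ 0) → a • x + b • v ≠ 0
  line : ∀ t : K, x + t • v ∈ cone I
  free : FreeAt I x v

lemma remove_roots [IsAlgClosed K] {I : Ideal (MvPolynomial σ K)} {c : ℕ} {x v : σ → K}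
    (h : FreeLine I c x v) (R : MvPolynomial σ K → Polynomial K) :
    ∀ (n : ℕ) (g : Polynomial K), g ≠ 0 → g.natDegree = n → ∀ ν : σ → Polynomial K,
      (∀ f ∈ I, g * R f = dl x v f ν) → ∃ ν' : σ → Polynomial K, ∀ f ∈ I, R f = dl x v f ν' := by
  have := IsAlgClosed.instInfinite (K := K)
  intro n
  induction n with
  | zero =>
    intro g hg hn ν hν
    obtain ⟨a, ha⟩ := Polynomial.natDegree_eq_zero.1 hn
    have ha0 : a ≠ 0 := by
      rintro rfl
      rw [map_zero] at ha
      exact hg ha.symm
    refine ⟨Polynomial.C a⁻¹ • ν, fun f hf => ?_⟩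
    rw [dl_smul, ← hν f hf, ← ha, ← mul_assoc, ← map_mul, inv_mul_cancel₀ ha0, map_one, one_mul]
  | succ n ih =>
    intro g hg hn ν hν
    obtain ⟨t0, ht0⟩ := IsAlgClosed.exists_root g (by
      rw [Polynomial.degree_eq_natDegree hg, hn]
      exact_mod_cast Nat.succ_ne_zero n)
    have hνt : (fun i => (ν i).eval t0) ∈ tangent I ((1 : K) • x + t0 • v) := by
      rw [one_smul, mem_tangent]
      intro f hf
      have h1 := congrArg (Polynomial.eval t0) (hν f hf)
      rw [Polynomial.eval_mul, ht0, zero_mul, dl_eval] at h1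
      exact h1.symm
    obtain ⟨w, w', hE, hw⟩ := span_line h.sc x v h.mem h.ind h.line h.free 1 t0
      (Or.inl one_ne_zero) _ hνt
    have hdvd : ∀ i, (Polynomial.X - Polynomial.C t0) ∣ (ν - pl w w') i := by
      intro i
      rw [Polynomial.dvd_iff_isRoot, Polynomial.IsRoot, Pi.sub_apply, Polynomial.eval_sub]
      have h1 := congrFun (pl_eval w w' t0) i
      have h2 := congrFun hw i
      simp only [one_smul] at h2
      rw [h1, h2, sub_self]
    choose ν1 hν1 using hdvd
    obtain ⟨g1, hg1⟩ := Polynomial.dvd_iff_isRoot.2 ht0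
    have hX : (Polynomial.X - Polynomial.C t0 : Polynomial K) ≠ 0 := Polynomial.X_sub_C_ne_zero t0
    have hg10 : g1 ≠ 0 := by
      rintro rfl
      rw [mul_zero] at hg1
      exact hg hg1
    refine ih g1 hg10 ?_ ν1 (fun f hf => ?_)
    · rw [hg1, Polynomial.natDegree_mul hX hg10, Polynomial.natDegree_X_sub_C] at hn
      omega
    · apply mul_left_cancel₀ hX
      rw [← mul_assoc, ← hg1, hν f hf, ← dl_smul]
      have h1 : ν = pl w w' + (Polynomial.X - Polynomial.C t0) • ν1 := by
        funext i
        have := hν1 i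
        rw [Pi.sub_apply] at this
        rw [Pi.add_apply, Pi.smul_apply, smul_eq_mul, ← this]
        ring
      conv_lhs => rw [h1]
      rw [dl_add, dl_field hE f hf, zero_add]

lemma gT_line (x v : σ → K) (f : MvPolynomial σ K) (i : σ) :
    gT (io f) (pl x v) i = line (pderiv i f) x v := by
  rw [gT, pderiv_io, eval_io, line]
  rfl

lemma line_natDegree {f : MvPolynomial σ K} {d : ℕ} (hd : f.IsHomogeneous d) (x v : σ → K) :
    (line f x v).natDegree ≤ d := by
  have h := MvPolynomial.aeval_natDegree_le (n := 1) f hd.totalDegree_le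
    (fun i => Polynomial.C (x i) + Polynomial.X * Polynomial.C (v i)) (fun i => by
      refine (Polynomial.natDegree_add_le _ _).trans ?_
      rw [Polynomial.natDegree_C]
      refine max_le (by omega) ?_
      refine Polynomial.natDegree_mul_le.trans ?_
      rw [Polynomial.natDegree_C]
      exact Polynomial.natDegree_X_le)
  rwa [mul_one] at h

lemma line_top [Infinite K] {f : MvPolynomial σ K} {d : ℕ} (hd : f.IsHomogeneous d)
    (x v : σ → K) : (line f x v).coeff d = eval v f := by
  have h := (line_coeff f d hd x v).2 0 (Nat.zero_le _)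
  rw [Nat.sub_zero] at h
  rw [← h, homogeneousComponent_zero, eval_C, ← constantCoeff_eq, ← eval_zero, eval_sh, zero_add]

lemma reduce_deg [Infinite K] {I : Ideal (MvPolynomial σ K)} {c : ℕ} {x v : σ → K}
    (h : FreeLine I c x v) (R : MvPolynomial σ K → Polynomial K)
    (hdeg : ∀ f ∈ I, ∀ D, f.IsHomogeneous D → (R f).natDegree ≤ D) :
    ∀ (d : ℕ) (ν : σ → Polynomial K), (∀ i, (ν i).natDegree ≤ d + 1) →
      (∀ i, (ν i).eval 0 = 0) → (∀ f ∈ I, R f = dl x v f ν) →
      ∃ ν0 : σ → K, ∀ f ∈ I, R f = Polynomial.X * dl x v f (cv ν0) := by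
  intro d
  induction d with
  | zero =>
    intro ν hνd hν0 hν
    refine ⟨fun i => (ν i).coeff 1, fun f hf => ?_⟩
    rw [hν f hf, ← dl_smul]
    congr 1
    funext i
    rw [Pi.smul_apply, smul_eq_mul, cv]
    have h1 := Polynomial.eq_X_add_C_of_natDegree_le_one (hνd i)
    have h2 := hν0 i
    rw [← Polynomial.coeff_zero_eq_eval_zero] at h2
    rw [h2, map_zero, add_zero] at h1
    conv_lhs => rw [h1]
    rw [mul_comm]
  | succ d ih =>
    intro ν hνd hν0 hν
    set τ : σ → K := fun i => (ν i).coeff (d + 2) with hτdef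
    have hτ : τ ∈ tangent I ((0 : K) • x + (1 : K) • v) := by
      rw [zero_smul, one_smul, zero_add, mem_tangent]
      intro F hF
      rw [← sum_homogeneousComponent F, grad_sum, map_sum, LinearMap.sum_apply]
      refine Finset.sum_eq_zero (fun D _ => ?_)
      set f := homogeneousComponent D F with hfdef
      have hfI : f ∈ I := h.sc.homog F hF D
      have hfD : f.IsHomogeneous D := homogeneousComponent_isHomogeneous D F
      rcases Nat.eq_zero_or_pos D with hD | hD
      · have h1 : grad f v = 0 := by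
          rw [hD] at hfD
          have h2 : f = C (coeff 0 f) := by
            rw [← homogeneousComponent_zero, homogeneousComponent_eq_self hfD]
          rw [h2]
          funext i; simp [grad]
        rw [h1, map_zero, LinearMap.zero_apply]
      · have h1 : (R f).coeff (D - 1 + (d + 2)) = 0 :=
          Polynomial.coeff_eq_zero_of_natDegree_lt (by
            have := hdeg f hfI D hfD
            omega)
        rw [hν f hfI, dl, dotProduct, Polynomial.finsetSum_coeff] at h1
        rw [dotB_apply, ← h1]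
        refine Finset.sum_congr rfl (fun i _ => ?_)
        rw [gT_line, Polynomial.coeff_mul_add_eq_of_natDegree_le (line_natDegree hfD.pderiv x v) (hνd i),
          line_top hfD.pderiv]
        rfl
    obtain ⟨w, w', hE, hw⟩ := span_line h.sc x v h.mem h.ind h.line h.free 0 1
      (Or.inr one_ne_zero) _ hτ
    rw [zero_smul, one_smul, zero_add] at hw
    refine ih (ν - (Polynomial.X ^ (d + 1) : Polynomial K) • pl w w') (fun i => ?_) (fun i => ?_)
      (fun f hf => ?_)
    · rw [Pi.sub_apply, Pi.smul_apply, smul_eq_mul]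
      rw [Polynomial.natDegree_le_iff_coeff_eq_zero]
      intro N hN
      have hp : pl w w' i = Polynomial.C (w i) + Polynomial.C (w' i) * Polynomial.X := by
        rw [mul_comm]
        rfl
      rw [Polynomial.coeff_sub, hp, mul_comm]
      rcases Nat.lt_or_ge (d + 2) N with h1 | h1
      · rw [Polynomial.coeff_eq_zero_of_natDegree_lt (lt_of_le_of_lt (hνd i) h1), zero_sub,
          neg_eq_zero]
        obtain ⟨k, rfl⟩ : ∃ k, N = k + (d + 1) := ⟨N - (d + 1), by omega⟩
        rw [Polynomial.coeff_mul_X_pow, Polynomial.coeff_add, Polynomial.coeff_C,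
          Polynomial.coeff_C_mul, Polynomial.coeff_X, if_neg (by omega), if_neg (by omega)]
        simp
      · have hN2 : N = 1 + (d + 1) := by omega
        rw [hN2, Polynomial.coeff_mul_X_pow, Polynomial.coeff_add, Polynomial.coeff_C,
          Polynomial.coeff_C_mul, Polynomial.coeff_X, if_neg (by omega), if_pos rfl]
        have h3 := congrFun hw i
        have h4 : (ν i).coeff (1 + (d + 1)) = τ i := by
          rw [hτdef]
          congr 1
          omega
        rw [h4, ← h3]
        ring
    · rw [Pi.sub_apply, Pi.smul_apply, smul_eq_mul, Polynomial.eval_sub, hν0 i,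
        Polynomial.eval_mul, Polynomial.eval_pow, Polynomial.eval_X, zero_pow (by omega), zero_mul,
        sub_self]
    · rw [sub_eq_add_neg, ← neg_smul, dl_add, dl_smul, dl_field hE f hf, mul_zero, add_zero]
      exact hν f hf

/-- **Lifting.** -/
theorem const_lift [IsAlgClosed K] {I : Ideal (MvPolynomial σ K)} {c : ℕ} {x v : σ → K}
    (h : FreeLine I c x v) (R : MvPolynomial σ K → Polynomial K)
    (hdeg : ∀ f ∈ I, ∀ D, f.IsHomogeneous D → (R f).natDegree ≤ D)
    (h0 : ∀ f ∈ I, (R f).eval 0 = 0) (g : Polynomial K) (hg : g ≠ 0) (ν : σ → Polynomial K)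
    (hν : ∀ f ∈ I, g * R f = dl x v f ν) :
    ∃ ν0 : σ → K, ∀ f ∈ I, R f = Polynomial.X * dl x v f (cv ν0) := by
  have := IsAlgClosed.instInfinite (K := K)
  obtain ⟨ν', hν'⟩ := remove_roots h R _ g hg rfl ν hν
  have h1 : (fun i => (ν' i).eval 0) ∈ tangent I ((1 : K) • x + (0 : K) • v) := by
    rw [one_smul, mem_tangent]
    intro f hf
    have h2 := h0 f hf
    rw [hν' f hf, dl_eval] at h2
    exact h2
  obtain ⟨w, w', hE, hw⟩ := span_line h.sc x v h.mem h.ind h.line h.free 1 0
    (Or.inl one_ne_zero) _ h1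
  rw [one_smul, zero_smul, add_zero] at hw
  set ν2 := ν' - pl w w' with hν2
  refine reduce_deg h R hdeg (Finset.univ.sup fun i => (ν2 i).natDegree) ν2 (fun i => ?_)
    (fun i => ?_) (fun f hf => ?_)
  · exact (Finset.le_sup (f := fun i => (ν2 i).natDegree) (Finset.mem_univ i)).trans
      (Nat.le_succ _)
  · rw [hν2, Pi.sub_apply, Polynomial.eval_sub]
    have h3 := congrFun (pl_eval w w' 0) i
    rw [zero_smul, add_zero] at h3
    have h4 := congrFun hw i
    rw [h3, h4, sub_self]
  · have h5 : ν2 = ν' + (-1 : Polynomial K) • pl w w' := by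
      rw [hν2, sub_eq_add_neg, neg_smul, one_smul]
    rw [h5, dl_add, dl_smul, dl_field hE f hf, mul_zero, add_zero]
    exact hν' f hf

end Pool.Agent.Run7.h399

/-!
# The tangency theorem
-/

namespace Pool.Agent.Run7.h399

open MvPolynomial Pool.Agent.Run7.h399.Hart Pool.Agent.R948

variable {σ τ : Type} [Fintype σ] [DecidableEq σ] [Fintype τ] [DecidableEq τ]
  {K : Type} [Field K]

/-- substitution of a linear map -/
noncomputable def sb (L : (τ → K) →ₗ[K] (σ → K)) : MvPolynomial σ K →ₐ[K] MvPolynomial τ K :=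
  aeval (fun i => lin (fun j => L (Pi.single j 1) i))

lemma lin_apply (L : (τ → K) →ₗ[K] (σ → K)) (y : τ → K) (i : σ) :
    ∑ j, L (Pi.single j 1) i * y j = L y i := by
  conv_rhs => rw [← Finset.univ_sum_single y]
  rw [map_sum, Finset.sum_apply]
  refine Finset.sum_congr rfl (fun j _ => ?_)
  have : (Pi.single j (y j) : τ → K) = y j • Pi.single j 1 := by
    rw [← Pi.single_smul, smul_eq_mul, mul_one]
  rw [this, map_smul, Pi.smul_apply, smul_eq_mul, mul_comm]

lemma eval_sb (L : (τ → K) →ₗ[K] (σ → K)) (y : τ → K) (f : MvPolynomial σ K) :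
    eval y (sb L f) = eval (L y) f := by
  have : (eval y).comp (sb L).toRingHom = eval (L y) := by
    apply MvPolynomial.ringHom_ext
    · intro c; simp [sb]
    · intro i
      simp only [RingHom.comp_apply, AlgHom.toRingHom_eq_coe, RingHom.coe_coe, sb, aeval_X, eval_X]
      rw [eval_lin, dotB_apply, lin_apply]
  exact RingHom.congr_fun this f

lemma sb_homog (L : (τ → K) →ₗ[K] (σ → K)) {f : MvPolynomial σ K} {d : ℕ}
    (hf : f.IsHomogeneous d) : (sb L f).IsHomogeneous d := by
  have h := hf.aeval (fun i => lin (fun j => L (Pi.single j 1) i)) (fun i => lin_homog _)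
  rwa [one_mul] at h

lemma hc_sb (L : (τ → K) →ₗ[K] (σ → K)) (f : MvPolynomial σ K) (e : ℕ) :
    homogeneousComponent e (sb L f) = sb L (homogeneousComponent e f) := by
  conv_lhs => rw [← sum_homogeneousComponent f, map_sum, map_sum]
  have h0 : ∀ i, homogeneousComponent e (sb L (homogeneousComponent i f)) =
      if i = e then sb L (homogeneousComponent e f) else 0 := by
    intro i
    rw [homogeneousComponent_of_mem (sb_homog L (homogeneousComponent_isHomogeneous i f))]
    by_cases h : i = e
    · rw [if_pos h.symm, if_pos h, h]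
    · rw [if_neg (fun h' => h h'.symm), if_neg h]
  rw [Finset.sum_congr rfl (fun i _ => h0 i), Finset.sum_ite_eq']
  split_ifs with h
  · rfl
  · rw [Finset.mem_range] at h
    rw [homogeneousComponent_eq_zero e f (by omega), map_zero]

/-- a proper homogeneous ideal is contained in the ideal of the origin -/
lemma le_mx_zero {P : Ideal (MvPolynomial σ K)} (hP : P ≠ ⊤)
    (hom : ∀ f ∈ P, ∀ d, homogeneousComponent d f ∈ P) : P ≤ mx 0 := by
  intro f hf
  rw [mem_mx]
  by_contra h
  apply hP
  have h1 := hom f hf 0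
  rw [homogeneousComponent_zero, ← constantCoeff_eq, ← eval_zero] at h1
  rw [Ideal.eq_top_iff_one]
  have h2 := P.mul_mem_left (C (eval 0 f)⁻¹) h1
  rwa [← map_mul, inv_mul_cancel₀ h, map_one] at h2

/-- a point at infinity of the intersection of a cone with a translate of another cone -/
theorem join [IsAlgClosed K] {e : ℕ} (P : Ideal (MvPolynomial τ K)) [hP : P.IsPrime]
    (hom : ∀ f ∈ P, ∀ d, homogeneousComponent d f ∈ P)
    (L : (τ → K) →ₗ[K] (σ → K)) (q : Ideal (MvPolynomial σ K))
    (w : σ → K) (hw : w ∈ cone q) (E : Fin e → MvPolynomial σ K) (hE : ∀ i, E i ∈ q)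
    (hloc : ∀ f ∈ q, ∃ a, eval w a ≠ 0 ∧ ∃ N : ℕ, a * f ^ N ∈ Ideal.span (Set.range E))
    (hdim : e < tdP P) :
    ∃ y ∈ cone P, y ≠ 0 ∧ ∀ f ∈ q, ∀ d, f.IsHomogeneous d → eval (L y) f = 0 ∧
      ((∀ z ∈ cone P, eval (L z) f = 0) → dotB σ K (grad f (L y)) w = 0) := by
  classical
  obtain ⟨R, hR, hRM, hmin, hle⟩ := exists_cut P (mx 0) hP (mx_prime _)
    (le_mx_zero hP.ne_top hom) (fun i => sb L (sh w (E i))) (fun i => by
      rw [mem_mx, eval_sb, map_zero, eval_sh, zero_add]
      exact hw _ (hE i))
  have hPR : P ≤ R := le_sup_left.trans hmin.1.2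
  have hER : ∀ i, sb L (sh w (E i)) ∈ R := fun i =>
    hmin.1.2 (Ideal.mem_sup_right (Ideal.subset_span ⟨i, rfl⟩))
  have hmax : ¬ R.IsMaximal := by
    intro h
    have h1 : R = mx 0 := h.eq_of_le (mx_prime _).ne_top hRM
    subst h1
    rw [tdP_mx] at hle
    omega
  have hqR : ∀ f ∈ q, sb L (sh w f) ∈ R := by
    intro f hf
    obtain ⟨a, ha, N, haf⟩ := hloc f hf
    have h1 : sb L (sh w (a * f ^ N)) ∈ R := by
      have h2 : Ideal.span (Set.range E) ≤
          Ideal.comap ((sb L).comp (sh w)) R := by
        rw [Ideal.span_le]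
        rintro _ ⟨i, rfl⟩
        exact hER i
      exact h2 haf
    rw [map_mul, map_mul, map_pow, map_pow] at h1
    rcases hR.mem_or_mem h1 with h2 | h2
    · exfalso
      have h3 := hRM h2
      rw [mem_mx, eval_sb, map_zero, eval_sh, zero_add] at h3
      exact ha h3
    · exact hR.mem_of_pow_mem _ h2
  obtain ⟨y, hy0, hy⟩ := exists_infinity R hR hmax
  have hz : ∀ (f : MvPolynomial σ K) (e : ℕ),
      (∀ x, eval x (homogeneousComponent e f) = 0) → homogeneousComponent e f = 0 := by
    intro f e h
    apply MvPolynomial.funext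
    intro x
    rw [h x, map_zero]
  have hyP : y ∈ cone P := by
    intro f hf
    rw [← sum_homogeneousComponent f, map_sum]
    refine Finset.sum_eq_zero (fun d _ => ?_)
    have h1 := hy _ (hPR (hom f hf d)) d (fun e he => by
      rw [homogeneousComponent_of_mem (homogeneousComponent_isHomogeneous d f), if_neg (by omega)])
    rwa [homogeneousComponent_of_mem (homogeneousComponent_isHomogeneous d f), if_pos rfl] at h1
  refine ⟨y, hyP, hy0, fun f hf d hd => ⟨?_, fun hfP => ?_⟩⟩
  · have h1 := hy _ (hqR f hf) d (fun e he => by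
      rw [hc_sb, hz _ _ (fun x => (line_coeff f d hd x w).1 e he), map_zero])
    rw [hc_sb, eval_sb, (line_coeff f d hd (L y) w).2 d le_rfl, Nat.sub_self,
      line_coeff_zero] at h1
    exact h1
  · rcases Nat.eq_zero_or_pos d with hd0 | hd0
    · have h1 : grad f (L y) = 0 := by
        rw [hd0] at hd
        have h2 : f = C (coeff 0 f) := by
          rw [← homogeneousComponent_zero, homogeneousComponent_eq_self hd]
        rw [h2]
        funext i; simp [grad]
      rw [h1, map_zero, LinearMap.zero_apply]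
    · have h0 : sb L f ∈ P := by
        apply mem_of_vanish P hP
        intro z hz
        rw [eval_sb]
        exact hfP z hz
      have h1 := hy _ (R.sub_mem (hqR f hf) (hPR h0)) (d - 1) (fun e he => by
        rw [← map_sub, hc_sb]
        have h2 : homogeneousComponent e (sh w f - f) = 0 := by
          apply hz
          intro x
          rw [map_sub, map_sub]
          have h3 : eval x (homogeneousComponent e f) = if e = d then eval x f else 0 := by
            rw [homogeneousComponent_of_mem hd]
            split_ifs <;> simp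
          rw [h3]
          by_cases hed : d < e
          · rw [(line_coeff f d hd x w).1 e hed, if_neg (by omega), sub_self]
          · have : e = d := by omega
            rw [this, (line_coeff f d hd x w).2 d le_rfl, Nat.sub_self, line_coeff_zero,
              if_pos rfl, sub_self]
        rw [h2, map_zero])
      rw [← map_sub, hc_sb, eval_sb, map_sub, map_sub, (line_coeff f d hd (L y) w).2 (d - 1)
        (by omega), show d - (d - 1) = 1 by omega, line_coeff_one,
        homogeneousComponent_of_mem hd, if_neg (by omega), map_zero, sub_zero] at h1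
      exact h1

/-- Tangency: a cone of dimension greater than the codimension contains, for each point of the
variety, a point at which the tangent space contains the given point. -/
theorem tangency [IsAlgClosed K] [CharZero K] {I : Ideal (MvPolynomial σ K)} {c : ℕ}
    (hI : SCone I c) (P : Ideal (MvPolynomial τ K)) [hP : P.IsPrime]
    (hom : ∀ f ∈ P, ∀ d, homogeneousComponent d f ∈ P)
    (L : (τ → K) →ₗ[K] (σ → K)) (hPI : ∀ z ∈ cone P, L z ∈ cone I)
    (hdim : c < tdP P) (w : σ → K) (hw : w ∈ cone I) (hw0 : w ≠ 0) :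
    ∃ y ∈ cone P, y ≠ 0 ∧ w ∈ tangent I (L y) := by
  obtain ⟨F, hF, hind, -⟩ := exists_grads hI w hw hw0
  have hloc := locgen_of_LG I w F (fun k => LG hI w hw hw0 F hF hind k)
  obtain ⟨y, hy, hy0, h⟩ := join P hom L I w hw F hF (fun f hf => by
    obtain ⟨a, ha, haf⟩ := hloc f hf
    exact ⟨a, by rw [ha]; exact one_ne_zero, 1, by rwa [pow_one]⟩) hdim
  refine ⟨y, hy, hy0, ?_⟩
  rw [mem_tangent]
  intro f hf
  rw [← sum_homogeneousComponent f, grad_sum, map_sum, LinearMap.sum_apply]
  exact Finset.sum_eq_zero (fun d _ => (h _ (hI.homog f hf d) d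
    (homogeneousComponent_isHomogeneous d f)).2 (fun z hz => hPI z hz _ (hI.homog f hf d)))

end Pool.Agent.Run7.h399

/-!
# The ideal of the lines through a point
-/

namespace Pool.Agent.Run7.h399

open MvPolynomial Pool.Agent.Run7.h399.Hart Pool.Agent.R948

variable {σ τ : Type} [Fintype σ] [DecidableEq σ] [Fintype τ] [DecidableEq τ]
  {K : Type} [Field K]

/-- the expansion of `f(x + t A(u))` in powers of `t` -/
noncomputable def lexp (x : σ → K) (A : (τ → K) →ₗ[K] (σ → K)) :
    MvPolynomial σ K →ₐ[K] Polynomial (MvPolynomial τ K) :=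
  aeval (fun i => Polynomial.C (C (x i)) +
    Polynomial.X * Polynomial.C (lin (fun j => A (Pi.single j 1) i)))

/-- the ideal of the lines through `x` -/
noncomputable def linesI (I : Ideal (MvPolynomial σ K)) (x : σ → K)
    (A : (τ → K) →ₗ[K] (σ → K)) : Ideal (MvPolynomial τ K) :=
  Ideal.span {g | ∃ f ∈ I, ∃ k, g = (lexp x A f).coeff k}

/-- the image of a polynomial arc -/
noncomputable def Ap (A : (τ → K) →ₗ[K] (σ → K)) (u : τ → Polynomial K) : σ → Polynomial K :=
  fun i => ∑ j, Polynomial.C (A (Pi.single j 1) i) * u j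

lemma Ap_add (A : (τ → K) →ₗ[K] (σ → K)) (u u' : τ → Polynomial K) :
    Ap A (u + u') = Ap A u + Ap A u' := by
  funext i
  simp only [Ap, Pi.add_apply, mul_add, Finset.sum_add_distrib]

lemma Ap_smul (A : (τ → K) →ₗ[K] (σ → K)) (p : Polynomial K) (u : τ → Polynomial K) :
    Ap A (p • u) = p • Ap A u := by
  funext i
  simp only [Ap, Pi.smul_apply, smul_eq_mul, Finset.mul_sum]
  exact Finset.sum_congr rfl (fun j _ => by ring)

lemma Ap_cv (A : (τ → K) →ₗ[K] (σ → K)) (u : τ → K) : Ap A (cv u) = cv (A u) := by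
  funext i
  simp only [Ap, cv]
  rw [← lin_apply, map_sum]
  exact Finset.sum_congr rfl (fun j _ => by rw [map_mul])

lemma at0_Ap (A : (τ → K) →ₗ[K] (σ → K)) (u : τ → Polynomial K) : at0 (Ap A u) = A (at0 u) := by
  funext i
  simp only [Ap, at0]
  rw [← lin_apply, Polynomial.eval_finsetSum]
  exact Finset.sum_congr rfl (fun j _ => by rw [Polynomial.eval_mul, Polynomial.eval_C]; rfl)

/-- the point at parameter `t` of the moving line -/
noncomputable def mv (x : σ → K) (A : (τ → K) →ₗ[K] (σ → K)) (u : τ → Polynomial K) (t : K) :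
    σ → Polynomial K := cv x + Polynomial.C t • Ap A u

lemma at0_mv (x : σ → K) (A : (τ → K) →ₗ[K] (σ → K)) (u : τ → Polynomial K) (t : K) :
    at0 (mv x A u t) = x + t • A (at0 u) := by
  rw [mv, at0_add, at0_cv, at0_smul, at0_Ap, Polynomial.eval_C]

lemma lexp_eval (x : σ → K) (A : (τ → K) →ₗ[K] (σ → K)) (f : MvPolynomial σ K)
    (u : τ → Polynomial K) (t : K) :
    ((lexp x A f).map (aeval u : MvPolynomial τ K →ₐ[K] Polynomial K).toRingHom).eval
      (Polynomial.C t) = eval (mv x A u t) (io f) := by
  have : ((Polynomial.evalRingHom (Polynomial.C t)).comp (Polynomial.mapRingHom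
      (aeval u : MvPolynomial τ K →ₐ[K] Polynomial K).toRingHom)).comp
      (lexp x A : MvPolynomial σ K →ₐ[K] Polynomial (MvPolynomial τ K)).toRingHom =
      (eval (mv x A u t)).comp (MvPolynomial.map Polynomial.C) := by
    apply MvPolynomial.ringHom_ext
    · intro c
      simp [lexp]
    · intro i
      simp only [RingHom.comp_apply, AlgHom.toRingHom_eq_coe, RingHom.coe_coe, lexp, aeval_X,
        map_add, map_mul, Polynomial.coe_mapRingHom, Polynomial.map_C, Polynomial.map_X,
        Polynomial.coe_evalRingHom, Polynomial.eval_C, Polynomial.eval_X, map_X, eval_X, aeval_C]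
      simp only [mv, Pi.add_apply, Pi.smul_apply, smul_eq_mul, cv, Ap]
      congr 2
      rw [lin, map_sum]
      refine Finset.sum_congr rfl (fun j _ => ?_)
      rw [map_mul, aeval_C, aeval_X]
      rfl
  exact RingHom.congr_fun this f

lemma lexp_natDegree (x : σ → K) (A : (τ → K) →ₗ[K] (σ → K)) {f : MvPolynomial σ K} {d : ℕ}
    (hd : f.totalDegree ≤ d) : (lexp x A f).natDegree ≤ d := by
  have h1 : lexp x A f = aeval (fun i => Polynomial.C (C (x i)) +
    Polynomial.X * Polynomial.C (lin (fun j => A (Pi.single j 1) i)))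
      (MvPolynomial.map (C : K →+* MvPolynomial τ K) f) := by
    rw [lexp, aeval_def, aeval_def, eval₂_map]
    rfl
  rw [h1]
  have h := MvPolynomial.aeval_natDegree_le (n := 1) (MvPolynomial.map (C : K →+* MvPolynomial τ K) f)
    ((Finset.sup_mono (support_map_subset _ _)).trans hd)
    (fun i => Polynomial.C (C (x i)) +
      Polynomial.X * Polynomial.C (lin (fun j => A (Pi.single j 1) i))) (fun i => by
      refine (Polynomial.natDegree_add_le _ _).trans ?_
      rw [Polynomial.natDegree_C]
      refine max_le (by omega) ?_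
      refine Polynomial.natDegree_mul_le.trans ?_
      rw [Polynomial.natDegree_C]
      exact Polynomial.natDegree_X_le)
  rwa [mul_one] at h

/-- the coefficient of order `m` along the arc, as a polynomial on the line -/
noncomputable def Rp (x : σ → K) (A : (τ → K) →ₗ[K] (σ → K)) (u : τ → Polynomial K) (m : ℕ)
    (f : MvPolynomial σ K) : Polynomial K :=
  ∑ j ∈ Finset.range ((lexp x A f).natDegree + 1),
    Polynomial.C ((aeval u ((lexp x A f).coeff j)).coeff m) * Polynomial.X ^ j

lemma Rp_coeff (x : σ → K) (A : (τ → K) →ₗ[K] (σ → K)) (u : τ → Polynomial K) (m : ℕ)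
    (f : MvPolynomial σ K) (j : ℕ) :
    (Rp x A u m f).coeff j = (aeval u ((lexp x A f).coeff j)).coeff m := by
  rw [Rp, Polynomial.finsetSum_coeff]
  simp only [Polynomial.coeff_C_mul, Polynomial.coeff_X_pow, mul_ite, mul_one, mul_zero]
  by_cases hj : j < (lexp x A f).natDegree + 1
  · rw [Finset.sum_eq_single j]
    · rw [if_pos rfl]
    · intro i _ hi
      rw [if_neg (fun h => hi h.symm)]
    · intro h
      exact absurd (Finset.mem_range.2 hj) h
  · have h0 : (lexp x A f).coeff j = 0 := Polynomial.coeff_eq_zero_of_natDegree_lt (by omega)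
    rw [Finset.sum_eq_zero]
    · rw [h0, map_zero, Polynomial.coeff_zero]
    · intro i hi
      rw [Finset.mem_range] at hi
      rw [if_neg (by omega)]

lemma Rp_eval (x : σ → K) (A : (τ → K) →ₗ[K] (σ → K)) (u : τ → Polynomial K) (m : ℕ)
    (f : MvPolynomial σ K) (t : K) :
    (Rp x A u m f).eval t = (eval (mv x A u t) (io f)).coeff m := by
  rw [← lexp_eval, Polynomial.eval_map, Polynomial.eval₂_eq_sum_range, Polynomial.finsetSum_coeff,
    Rp, Polynomial.eval_finsetSum]
  refine Finset.sum_congr rfl (fun j _ => ?_)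
  rw [Polynomial.eval_mul, Polynomial.eval_C, Polynomial.eval_pow, Polynomial.eval_X,
    ← map_pow, mul_comm _ (Polynomial.C (t ^ j)), Polynomial.coeff_C_mul, mul_comm]
  rfl

lemma Rp_natDegree (x : σ → K) (A : (τ → K) →ₗ[K] (σ → K)) (u : τ → Polynomial K) (m : ℕ)
    {f : MvPolynomial σ K} {d : ℕ} (hd : f.totalDegree ≤ d) : (Rp x A u m f).natDegree ≤ d := by
  rw [Polynomial.natDegree_le_iff_coeff_eq_zero]
  intro N hN
  have h0 : (lexp x A f).coeff N = 0 :=
    Polynomial.coeff_eq_zero_of_natDegree_lt (lt_of_le_of_lt (lexp_natDegree x A hd) hN)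
  rw [Rp_coeff, h0, map_zero, Polynomial.coeff_zero]

/-- divisibility along an arc of lines -/
lemma linesI_iff [Infinite K] (I : Ideal (MvPolynomial σ K)) (x : σ → K)
    (A : (τ → K) →ₗ[K] (σ → K)) (u : τ → Polynomial K) (k : ℕ) :
    (∀ g ∈ linesI I x A, (Polynomial.X : Polynomial K) ^ k ∣ eval u (io g)) ↔
      ∀ f ∈ I, ∀ t : K, (Polynomial.X : Polynomial K) ^ k ∣ eval (mv x A u t) (io f) := by
  constructor
  · intro h f hf t
    rw [← lexp_eval, Polynomial.eval_map, Polynomial.eval₂_eq_sum_range]
    refine Finset.dvd_sum (fun j _ => Dvd.dvd.mul_right ?_ _)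
    have h1 := h _ (Ideal.subset_span ⟨f, hf, j, rfl⟩)
    rw [eval_io] at h1
    exact h1
  · intro h g hg
    refine Submodule.span_induction ?_ ?_ ?_ ?_ hg
    · rintro _ ⟨f, hf, j, rfl⟩
      rw [eval_io, Polynomial.X_pow_dvd_iff]
      intro d hd
      rw [← Rp_coeff]
      have h1 : Rp x A u d f = 0 := by
        apply Polynomial.funext
        intro t
        rw [Rp_eval, Polynomial.eval_zero]
        exact Polynomial.X_pow_dvd_iff.1 (h f hf t) d hd
      rw [h1, Polynomial.coeff_zero]
    · rw [io, map_zero, map_zero]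
      exact dvd_zero _
    · intro a b _ _ ha hb
      rw [io, map_add, map_add]
      exact dvd_add ha hb
    · intro a b _ hb
      rw [io, smul_eq_mul, map_mul, map_mul]
      exact Dvd.dvd.mul_left hb _

/-- zeros of the ideal of lines -/
lemma mem_linesI_cone [Infinite K] (I : Ideal (MvPolynomial σ K)) (x : σ → K)
    (A : (τ → K) →ₗ[K] (σ → K)) (u : τ → K) :
    u ∈ cone (linesI I x A) ↔ ∀ t : K, x + t • A u ∈ cone I := by
  have h := linesI_iff I x A (cv u) 1
  have h1 : ∀ (t : K), mv x A (cv u) t = cv (x + t • A u) := by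
    intro t
    rw [mv, Ap_cv, cv_add, cv_smul]
  constructor
  · intro hu t f hf
    have h2 := h.1 (fun g hg => by rw [eval_io_cv, hu g hg, map_zero]; exact dvd_zero _) f hf t
    rw [h1, eval_io_cv, pow_one, Polynomial.X_dvd_iff, Polynomial.coeff_C_zero] at h2
    exact h2
  · intro hu g hg
    have h2 := h.2 (fun f hf t => by rw [h1, eval_io_cv, hu t f hf, map_zero]; exact dvd_zero _) g hg
    rw [eval_io_cv, pow_one, Polynomial.X_dvd_iff, Polynomial.coeff_C_zero] at h2
    exact h2

end Pool.Agent.Run7.h399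

/-!
# Deformations of lines through a point are unobstructed
-/

namespace Pool.Agent.Run7.h399

open MvPolynomial Pool.Agent.Run7.h399.Hart Pool.Agent.R948

variable {σ τ : Type} [Fintype σ] [DecidableEq σ] [Fintype τ] [DecidableEq τ]
  {K : Type} [Field K]

lemma coeff_mul_of_dvd {m : ℕ} (p q : Polynomial K) (h : (Polynomial.X : Polynomial K) ^ m ∣ q) :
    (p * q).coeff m = p.coeff 0 * q.coeff m := by
  obtain ⟨r, rfl⟩ := h
  have h1 : p * (Polynomial.X ^ m * r) = p * r * Polynomial.X ^ m := by ring
  have h2 : Polynomial.X ^ m * r = r * Polynomial.X ^ m := by ring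
  rw [h1, h2]
  have h3 := Polynomial.coeff_mul_X_pow (p * r) m 0
  have h4 := Polynomial.coeff_mul_X_pow r m 0
  rw [zero_add] at h3 h4
  rw [h3, h4, Polynomial.mul_coeff_zero]

/-- the obstruction at a point of the line -/
lemma point_rep [IsAlgClosed K] [CharZero K] {I : Ideal (MvPolynomial σ K)} {c : ℕ}
    (hI : SCone I c) (m : ℕ) (hm : 1 ≤ m) (P : σ → Polynomial K) (hP0 : at0 P ≠ 0)
    (hP : ∀ f ∈ I, (Polynomial.X : Polynomial K) ^ m ∣ eval P (io f)) :
    ∃ ν : σ → K, ∀ f ∈ I, (eval P (io f)).coeff m = dotB σ K (grad f (at0 P)) ν := by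
  have hy : at0 P ∈ cone I := by
    intro f hf
    rw [← eval_io_zero, ← Polynomial.coeff_zero_eq_eval_zero]
    exact Polynomial.X_pow_dvd_iff.1 (hP f hf) 0 (by omega)
  obtain ⟨G, hG, hind, -⟩ := exists_grads hI _ hy hP0
  have hloc := locgen_of_LG I _ G (fun k => LG hI _ hy hP0 G hG hind k)
  obtain ⟨W, hW⟩ := exists_dual_vectors _ hind
  refine ⟨∑ i, (eval P (io (G i))).coeff m • W i, fun f hf => ?_⟩
  obtain ⟨a, ha, haf⟩ := hloc f hf
  obtain ⟨B, hB⟩ := Ideal.mem_span_range_iff_exists_fun.1 haf
  have h1 : (eval P (io f)).coeff m = ∑ i, eval (at0 P) (B i) * (eval P (io (G i))).coeff m := by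
    have h2 := congrArg (fun q => (eval P (io q)).coeff m) hB
    simp only [io, map_sum, map_mul] at h2
    rw [Polynomial.finsetSum_coeff] at h2
    have h3 := coeff_mul_of_dvd (eval P (io a)) (eval P (io f)) (hP f hf)
    have h4 : (eval P (io a)).coeff 0 = 1 := by
      rw [Polynomial.coeff_zero_eq_eval_zero, eval_io_zero, ha]
    rw [h4, one_mul] at h3
    rw [← h3]
    refine h2.symm.trans (Finset.sum_congr rfl (fun i _ => ?_))
    have h5 := coeff_mul_of_dvd (eval P (io (B i))) (eval P (io (G i))) (hP _ (hG i))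
    rw [Polynomial.coeff_zero_eq_eval_zero, eval_io_zero] at h5
    exact h5
  have h2 : grad f (at0 P) = ∑ i, eval (at0 P) (B i) • grad (G i) (at0 P) := by
    have h3 := congrArg (fun q => grad q (at0 P)) hB
    simp only [grad_sum, grad_mul] at h3
    rw [hy f hf, ha, zero_smul, zero_add, one_smul] at h3
    rw [← h3]
    refine Finset.sum_congr rfl (fun i _ => ?_)
    rw [hy _ (hG i), zero_smul, zero_add]
  have h5 : ∀ ν : σ → K, dotB σ K (∑ i, eval (at0 P) (B i) • grad (G i) (at0 P)) ν =
      ∑ i, eval (at0 P) (B i) * dotB σ K (grad (G i) (at0 P)) ν := by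
    intro ν
    rw [map_sum, LinearMap.sum_apply]
    exact Finset.sum_congr rfl (fun i _ => by
      rw [map_smul, LinearMap.smul_apply, smul_eq_mul])
  rw [h1, h2, h5]
  refine Finset.sum_congr rfl (fun i _ => ?_)
  congr 1
  rw [map_sum, Finset.sum_eq_single i]
  · rw [map_smul, hW, if_pos rfl, smul_eq_mul, mul_one]
  · intro j _ hj
    rw [map_smul, hW, if_neg (fun h => hj h.symm), smul_zero]
  · intro h; exact absurd (Finset.mem_univ _) h

/-- a rational solution of the obstruction equation -/
lemma exists_rational [IsAlgClosed K] [CharZero K] {I : Ideal (MvPolynomial σ K)} {c : ℕ}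
    {x : σ → K} (A : (τ → K) →ₗ[K] (σ → K)) (u : τ → Polynomial K)
    (h : FreeLine I c x (A (at0 u))) (m : ℕ) (hm : 1 ≤ m)
    (hu : ∀ f ∈ I, ∀ t : K, (Polynomial.X : Polynomial K) ^ m ∣ eval (mv x A u t) (io f)) :
    ∃ (g : Polynomial K) (ν : σ → Polynomial K), g ≠ 0 ∧
      ∀ f ∈ I, g * Rp x A u m f = dl x (A (at0 u)) f ν := by
  classical
  have hinf := IsAlgClosed.instInfinite (K := K)
  set v := A (at0 u) with hv
  have hx0 : x ≠ 0 := by
    have := h.ind 1 0 (Or.inl one_ne_zero)
    rwa [one_smul, zero_smul, add_zero] at this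
  have hy0 : ∀ t : K, x + t • v ≠ 0 := by
    intro t
    have := h.ind 1 t (Or.inl one_ne_zero)
    rwa [one_smul] at this
  obtain ⟨F, hF, hind, hspan⟩ := exists_grads h.sc x h.mem hx0
  obtain ⟨W, hW⟩ := exists_dual_vectors _ hind
  let M : Matrix (Fin c) (Fin c) (Polynomial K) := fun i j => dl x v (F i) (cv (W j))
  let g := M.det
  let R := Rp x A u m
  let ν : σ → Polynomial K := ∑ j, (M.adjugate.mulVec (fun k => R (F k))) j • cv (W j)
  have hcv : ∀ (w : σ → K) (t : K), (fun i => (cv w i).eval t) = w := by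
    intro w t
    funext i
    simp [cv]
  have hgt : ∀ t : K, g.eval t = Matrix.det (fun i j => dotB σ K (grad (F i) (x + t • v)) (W j)) := by
    intro t
    have h1 : g.eval t = (Polynomial.evalRingHom t) M.det := rfl
    rw [h1, RingHom.map_det]
    congr 1
    ext i j
    rw [RingHom.mapMatrix_apply, Matrix.map_apply, Polynomial.coe_evalRingHom, dl_eval, hcv]
  have hg : g ≠ 0 := by
    intro h0
    have h1 := hgt 0
    rw [h0, Polynomial.eval_zero, zero_smul, add_zero] at h1
    have h2 : (fun i j => dotB σ K (grad (F i) x) (W j)) = (1 : Matrix (Fin c) (Fin c) K) := by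
      funext i j
      rw [hW, Matrix.one_apply]
    rw [h2, Matrix.det_one] at h1
    exact zero_ne_one h1
  have hdl : ∀ f : MvPolynomial σ K, dl x v f ν =
      ∑ j, (M.adjugate.mulVec (fun k => R (F k))) j * dl x v f (cv (W j)) := by
    intro f
    have h1 : ∀ (s : Finset (Fin c)) (p : Fin c → Polynomial K), dl x v f (∑ j ∈ s, p j • cv (W j)) =
        ∑ j ∈ s, p j * dl x v f (cv (W j)) := by
      intro s p
      induction s using Finset.induction_on with
      | empty => simp [dl]
      | insert a s ha ih => rw [Finset.sum_insert ha, Finset.sum_insert ha, dl_add, dl_smul, ih]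
    exact h1 _ _
  have hFν : ∀ i, dl x v (F i) ν = g * R (F i) := by
    intro i
    rw [hdl]
    have h1 : ∑ j, (M.adjugate.mulVec (fun k => R (F k))) j * dl x v (F i) (cv (W j)) =
        (M.mulVec (M.adjugate.mulVec (fun k => R (F k)))) i := by
      rw [Matrix.mulVec, dotProduct]
      exact Finset.sum_congr rfl (fun j _ => mul_comm _ _)
    rw [h1, Matrix.mulVec_mulVec, Matrix.mul_adjugate, Matrix.smul_mulVec, Matrix.one_mulVec,
      Pi.smul_apply, smul_eq_mul]
  refine ⟨g, ν, hg, fun f hf => ?_⟩
  have key : g * (g * R f - dl x v f ν) = 0 := by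
    apply Polynomial.funext
    intro t
    rw [Polynomial.eval_mul, Polynomial.eval_zero]
    by_cases hgt0 : g.eval t = 0
    · rw [hgt0, zero_mul]
    have hat : at0 (mv x A u t) = x + t • v := by rw [at0_mv]
    obtain ⟨νt, hνt⟩ := point_rep h.sc m hm (mv x A u t) (by rw [hat]; exact hy0 t)
      (fun f hf => hu f hf t)
    rw [hat] at hνt
    have hindt : LinearIndependent K (fun i => grad (F i) (x + t • v)) := by
      rw [Fintype.linearIndependent_iff]
      intro a ha
      by_contra hcon
      push Not at hcon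
      obtain ⟨i, hi⟩ := hcon
      apply hgt0
      rw [hgt, ← Matrix.exists_vecMul_eq_zero_iff]
      refine ⟨a, fun h0 => hi (congrFun h0 i), ?_⟩
      ext j
      have := congrArg (fun φ => dotB σ K φ (W j)) ha
      simpa [Matrix.vecMul, dotProduct, map_sum, LinearMap.sum_apply] using this
    have hz : ∀ i, dotB σ K (grad (F i) (x + t • v))
        ((fun i => (ν i).eval t) - g.eval t • νt) = 0 := by
      intro i
      rw [map_sub, map_smul, ← dl_eval, hFν, Polynomial.eval_mul, smul_eq_mul]
      have h1 := hνt (F i) (hF i)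
      rw [← h1]
      have h2 := Rp_eval x A u m (F i) t
      rw [← h2, sub_self]
    have hz' : dotB σ K (grad f (x + t • v)) ((fun i => (ν i).eval t) - g.eval t • νt) = 0 := by
      obtain ⟨a, ha⟩ := grads_span h.sc _ (h.line t) (hy0 t) F hF hindt _ (grad_mem I _ hf)
      rw [← ha, uu_apply, map_sum, LinearMap.sum_apply, Finset.sum_eq_zero]
      intro k _
      rw [map_smul, LinearMap.smul_apply, hz, smul_zero]
    rw [map_sub, map_smul, ← dl_eval, smul_eq_mul] at hz'
    have h1 := hνt f hf
    rw [← h1, ← Rp_eval] at hz'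
    rw [Polynomial.eval_sub, Polynomial.eval_mul]
    have h2 : g.eval t * (R f).eval t - (dl x v f ν).eval t = 0 := by
      rw [← neg_sub, hz', neg_zero]
    rw [h2, mul_zero]
  exact sub_eq_zero.1 ((mul_eq_zero.1 key).resolve_left hg)

lemma lexp_coeff_one (x : σ → K) (A : (τ → K) →ₗ[K] (σ → K)) (f : MvPolynomial σ K)
    (u : τ → K) : eval u ((lexp x A f).coeff 1) = dotB σ K (grad f x) (A u) := by
  have h : (lexp x A f).map (eval u) = line f x (A u) := by
    have : ((Polynomial.mapRingHom (eval u))).comp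
        (lexp x A : MvPolynomial σ K →ₐ[K] Polynomial (MvPolynomial τ K)).toRingHom =
        (aeval (fun i => Polynomial.C (x i) + Polynomial.X * Polynomial.C (A u i)) :
          MvPolynomial σ K →ₐ[K] Polynomial K).toRingHom := by
      apply MvPolynomial.ringHom_ext
      · intro c
        simp [lexp]
      · intro i
        simp only [RingHom.comp_apply, AlgHom.toRingHom_eq_coe, RingHom.coe_coe, lexp, aeval_X,
          map_add, map_mul, Polynomial.coe_mapRingHom, Polynomial.map_C, Polynomial.map_X,
          eval_C]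
        rw [eval_lin, dotB_apply, lin_apply]
    exact RingHom.congr_fun this f
  have h1 := congrArg (fun p => Polynomial.coeff p 1) h
  simp only [Polynomial.coeff_map] at h1
  rw [h1, line_coeff_one]

/-- **Unobstructedness**, one step. -/
theorem arc_step [IsAlgClosed K] [CharZero K] {I : Ideal (MvPolynomial σ K)} {c : ℕ}
    {x : σ → K} (A : (τ → K) →ₗ[K] (σ → K)) (hT : ∀ w, A w ∈ tangent I x)
    (hT' : ∀ w ∈ tangent I x, ∃ a : K, ∃ b, w = a • x + A b) (u : τ → Polynomial K)
    (h : FreeLine I c x (A (at0 u))) (m : ℕ) (hm : 1 ≤ m)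
    (hu : ∀ f ∈ I, ∀ t : K, (Polynomial.X : Polynomial K) ^ m ∣ eval (mv x A u t) (io f)) :
    ∃ b : τ → K, ∀ f ∈ I, ∀ t : K, (Polynomial.X : Polynomial K) ^ (m + 1) ∣
      eval (mv x A (u + (Polynomial.X ^ m : Polynomial K) • cv b) t) (io f) := by
  have hinf := IsAlgClosed.instInfinite (K := K)
  obtain ⟨g, ν, hg, hν⟩ := exists_rational A u h m hm hu
  have hx0 : x ≠ 0 := by
    have := h.ind 1 0 (Or.inl one_ne_zero)
    rwa [one_smul, zero_smul, add_zero] at this
  obtain ⟨ν0, hν0⟩ := const_lift h (Rp x A u m)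
    (fun f _ D hD => Rp_natDegree x A u m hD.totalDegree_le)
    (fun f hf => by
      rw [Rp_eval]
      have h1 : mv x A u 0 = cv x := by
        rw [mv, map_zero, zero_smul, add_zero]
      rw [h1, eval_io_cv, h.mem f hf, map_zero, Polynomial.coeff_zero]) g hg ν hν
  -- the vector is tangent at `x`
  have hν0T : ν0 ∈ tangent I x := by
    rw [mem_tangent]
    intro f hf
    have h1 := congrArg (fun p => Polynomial.coeff p 1) (hν0 f hf)
    simp only [Polynomial.coeff_X_mul] at h1
    rw [Rp_coeff, Polynomial.coeff_zero_eq_eval_zero, dl_eval] at h1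
    have h2 : (fun i => (cv ν0 i).eval 0) = ν0 := at0_cv ν0
    rw [h2, zero_smul, add_zero] at h1
    rw [← h1]
    have h3 : (lexp x A f).coeff 1 = 0 := by
      apply MvPolynomial.funext
      intro w
      rw [lexp_coeff_one, map_zero]
      exact (mem_tangent I x _).1 (hT w) f hf
    rw [h3, map_zero, Polynomial.coeff_zero]
  obtain ⟨a, b, hab⟩ := hT' ν0 hν0T
  refine ⟨-b, fun f hf t => ?_⟩
  have hmv : mv x A (u + (Polynomial.X ^ m : Polynomial K) • cv (-b)) t =
      mv x A u t + (Polynomial.X : Polynomial K) ^ m • (Polynomial.C t • cv (-(A b))) := by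
    rw [mv, mv, Ap_add, Ap_smul, Ap_cv, map_neg, smul_add, add_assoc, smul_comm]
  obtain ⟨r, hr⟩ := taylor1 (io f) (mv x A u t) (Polynomial.C t • cv (-(A b)))
    ((Polynomial.X : Polynomial K) ^ m)
  rw [hmv, hr]
  rw [Polynomial.X_pow_dvd_iff]
  intro d hd
  have hfu := hu f hf t
  rw [← pow_mul] at *
  have hlast : ((Polynomial.X : Polynomial K) ^ (m * 2) * r).coeff d = 0 := by
    apply Polynomial.X_pow_dvd_iff.1 (Dvd.intro _ rfl) d
    omega
  rcases Nat.lt_or_ge d m with h1 | h1
  · rw [Polynomial.coeff_add, Polynomial.coeff_add, Polynomial.X_pow_dvd_iff.1 hfu d h1, hlast,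
      add_zero, zero_add]
    exact Polynomial.X_pow_dvd_iff.1 (Dvd.intro _ rfl) d h1
  · have hdm : d = m := by omega
    subst hdm
    rw [Polynomial.coeff_add, Polynomial.coeff_add, hlast, add_zero, mul_comm]
    have h2 := Polynomial.coeff_mul_X_pow (gT (io f) (mv x A u t) ⬝ᵥ Polynomial.C t • cv (-(A b))) d 0
    rw [zero_add] at h2
    rw [h2, ← Rp_eval, hν0 f hf, Polynomial.eval_mul, Polynomial.eval_X, dl_eval,
      Polynomial.coeff_zero_eq_eval_zero, dotProduct_smul, smul_eq_mul, Polynomial.eval_mul,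
      Polynomial.eval_C, dot_at0, gT_io_at0, at0_mv, at0_cv]
    have h3 : (fun i => (cv ν0 i).eval t) = ν0 := by
      funext i; simp [cv]
    rw [h3, hab, map_add, map_smul, map_neg]
    have h4 : dotB σ K (grad f (x + t • A (at0 u))) x = 0 := by
      have h5 := (cone_of_line I (x + t • A (at0 u)) x (fun s _ => ?_)).2
      · exact (mem_tangent I _ _).1 h5 f hf
      · by_cases hs : 1 + s = 0
        · have h6 : x + t • A (at0 u) + s • x = t • A (at0 u) := by
            have : s = -1 := by linear_combination hs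
            rw [this, neg_one_smul]
            abel
          rw [h6]
          apply cone_smul I h.sc.homog
          apply cone_closed I _ x
          intro q hq
          have h7 : A (at0 u) + q • x = q • (x + q⁻¹ • A (at0 u)) := by
            rw [smul_add, smul_smul, mul_inv_cancel₀ hq, one_smul, add_comm]
          rw [h7]
          exact cone_smul I h.sc.homog q _ (h.line _)
        · have h6 : x + t • A (at0 u) + s • x = (1 + s) • (x + ((1 + s)⁻¹ * t) • A (at0 u)) := by
            rw [smul_add, smul_smul, ← mul_assoc, mul_inv_cancel₀ hs, one_mul, add_smul, one_smul]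
            abel
          rw [h6]
          exact cone_smul I h.sc.homog _ _ (h.line _)
    rw [h4, smul_zero, zero_add]
    ring

end Pool.Agent.Run7.h399

/-!
# Every tangent vector of the variety of lines is the velocity of an arc
-/

namespace Pool.Agent.Run7.h399

open MvPolynomial Pool.Agent.Run7.h399.Hart Pool.Agent.R948

variable {σ τ : Type} [Fintype σ] [DecidableEq σ] [Fintype τ] [DecidableEq τ]
  {K : Type} [Field K]

/-- the data of a general point together with a frame of its tangent space -/
structure FreePt (I : Ideal (MvPolynomial σ K)) (c : ℕ) (x : σ → K)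
    (A : (τ → K) →ₗ[K] (σ → K)) : Prop where
  sc : SCone I c
  mem : x ∈ cone I
  inj : Function.Injective A
  notMem : ∀ (a : K) (u : τ → K), a • x = A u → a = 0
  tan : ∀ w, A w ∈ tangent I x
  tan' : ∀ w ∈ tangent I x, ∃ (a : K) (b : τ → K), w = a • x + A b
  free : ∀ v, (∀ t : K, x + t • v ∈ cone I) → FreeAt I x v

lemma FreePt.ne {I : Ideal (MvPolynomial σ K)} {c : ℕ} {x : σ → K}
    {A : (τ → K) →ₗ[K] (σ → K)} (h : FreePt I c x A) : x ≠ 0 := by
  rintro rfl
  have := h.notMem 1 0 (by rw [smul_zero, map_zero])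
  exact one_ne_zero this

lemma FreePt.freeLine [Infinite K] {I : Ideal (MvPolynomial σ K)} {c : ℕ} {x : σ → K}
    {A : (τ → K) →ₗ[K] (σ → K)} (h : FreePt I c x A) (u : τ → K) (hu : u ∈ cone (linesI I x A))
    (hu0 : u ≠ 0) : FreeLine I c x (A u) where
  sc := h.sc
  mem := h.mem
  ind := by
    intro a b hab h0
    have h1 : a • x = A (-(b • u)) := by
      rw [map_neg, map_smul]
      exact eq_neg_of_add_eq_zero_left h0
    have ha := h.notMem a _ h1
    rw [ha, zero_smul] at h1
    have h2 : -(b • u) = 0 := h.inj (by rw [← h1, map_zero])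
    rw [neg_eq_zero, smul_eq_zero] at h2
    rcases hab with h3 | h3
    · exact h3 ha
    · exact h2.elim h3 hu0
  line := (mem_linesI_cone I x A u).1 hu
  free := h.free _ ((mem_linesI_cone I x A u).1 hu)

/-- **Unobstructedness.** -/
theorem arcs_lines [IsAlgClosed K] [CharZero K] {I : Ideal (MvPolynomial σ K)} {c : ℕ}
    {x : σ → K} {A : (τ → K) →ₗ[K] (σ → K)} (h : FreePt I c x A) (u0 : τ → K)
    (hu0 : u0 ∈ cone (linesI I x A)) (hne : u0 ≠ 0) : Arcs (linesI I x A) u0 := by
  have hinf := IsAlgClosed.instInfinite (K := K)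
  intro a ha
  have key : ∀ k : ℕ, ∃ w : τ → Polynomial K, at0 w = a ∧
      ∀ g ∈ linesI I x A, (Polynomial.X : Polynomial K) ^ (k + 2) ∣
        eval (cv u0 + (Polynomial.X : Polynomial K) • w) (io g) := by
    intro k
    induction k with
    | zero =>
      refine ⟨cv a, at0_cv a, fun g hg => ?_⟩
      obtain ⟨r, hr⟩ := taylor1 (io g) (cv u0) (cv a) (Polynomial.X : Polynomial K)
      rw [hr, eval_io_cv, hu0 g hg, map_zero, gT_io_cv]
      have h1 : cv (grad g u0) ⬝ᵥ cv a = 0 := by
        have h2 := (mem_tangent _ _ _).1 ha g hg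
        rw [dotB_apply] at h2
        have h3 : cv (grad g u0) ⬝ᵥ cv a = Polynomial.C (∑ k, grad g u0 k * a k) := by
          rw [map_sum]
          exact Finset.sum_congr rfl (fun k _ => by simp [cv])
        rw [h3, h2, map_zero]
      simp only [h1, mul_zero, zero_add]
      exact Dvd.intro _ rfl
    | succ k ih =>
      obtain ⟨w, hw0, hw⟩ := ih
      set u := cv u0 + (Polynomial.X : Polynomial K) • w with hu
      have hat : at0 u = u0 := by
        rw [hu, at0_add, at0_cv, at0_smul, Polynomial.eval_X, zero_smul, add_zero]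
      have hfl : FreeLine I c x (A (at0 u)) := by
        rw [hat]
        exact h.freeLine u0 hu0 hne
      obtain ⟨b, hb⟩ := arc_step A h.tan h.tan' u hfl (k + 2) (by omega)
        ((linesI_iff I x A u (k + 2)).1 hw)
      refine ⟨w + (Polynomial.X ^ (k + 1) : Polynomial K) • cv b, ?_, ?_⟩
      · rw [at0_add, hw0, at0_smul, Polynomial.eval_pow, Polynomial.eval_X,
          zero_pow (by omega), zero_smul, add_zero]
      · have h1 : cv u0 + (Polynomial.X : Polynomial K) •
            (w + (Polynomial.X ^ (k + 1) : Polynomial K) • cv b) =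
            u + (Polynomial.X ^ (k + 2) : Polynomial K) • cv b := by
          rw [hu, smul_add, smul_smul, ← pow_succ', ← add_assoc]
        rw [h1]
        exact (linesI_iff I x A _ (k + 1 + 2)).2 hb
  intro k
  obtain ⟨w, hw0, hw⟩ := key k
  exact ⟨w, hw0, fun g hg => (pow_dvd_pow _ (by omega)).trans (hw g hg)⟩

end Pool.Agent.Run7.h399
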