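import Pool.Agent.Run7.h399.G1
import Pool.Agent.TH144.MB.Reg
import Pool.Agent.Helper834.EC.Dim1
import Pool.Agent.Run7.h399.Defs

/-!
# Quadrics, unmixedness, the closing argument and the candidates
-/

set_option autoImplicit false
set_option linter.unusedSectionVars false
set_option linter.style.haveILetI false

/-!
# The quadrics of the second fundamental form
-/

namespace Pool.Agent.Run7.h399

open MvPolynomial Pool.Agent.Run7.h399.Hart Pool.Agent.R948

variable {σ τ : Type} [Fintype σ] [DecidableEq σ] [Fintype τ] [DecidableEq τ]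
  {K : Type} [Field K]

lemma lexp_coeff_homog (x : σ → K) (A : (τ → K) →ₗ[K] (σ → K)) (f : MvPolynomial σ K) :
    ∀ k, ((lexp x A f).coeff k).IsHomogeneous k := by
  induction f using MvPolynomial.induction_on with
  | C a =>
    intro k
    have h1 : lexp x A (C a) = Polynomial.C (C a) := by
      rw [lexp, aeval_C]
      rfl
    rw [h1, Polynomial.coeff_C]
    split_ifs with h
    · subst h; exact isHomogeneous_C τ a
    · exact isHomogeneous_zero τ K k
  | add p q hp hq =>
    intro k
    rw [map_add, Polynomial.coeff_add]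
    exact (hp k).add (hq k)
  | mul_X p i hp =>
    intro k
    have h1 : lexp x A (p * X i) = lexp x A p * Polynomial.C (C (x i)) +
        lexp x A p * Polynomial.C (lin (fun j => A (Pi.single j 1) i)) * Polynomial.X := by
      rw [map_mul]
      have h2 : lexp x A (X i) = Polynomial.C (C (x i)) +
          Polynomial.X * Polynomial.C (lin (fun j => A (Pi.single j 1) i)) := by
        rw [lexp, aeval_X]
      rw [h2]
      ring
    rw [h1, Polynomial.coeff_add, Polynomial.coeff_mul_C]
    refine IsHomogeneous.add ?_ ?_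
    · have := (hp k).mul (isHomogeneous_C τ (x i))
      rwa [add_zero] at this
    · rcases k with _ | k
      · rw [Polynomial.mul_coeff_zero, Polynomial.coeff_X_zero, mul_zero]
        exact isHomogeneous_zero τ K 0
      · rw [Polynomial.coeff_mul_X, Polynomial.coeff_mul_C]
        exact (hp k).mul (lin_homog _)

lemma linesI_homog (I : Ideal (MvPolynomial σ K)) (x : σ → K) (A : (τ → K) →ₗ[K] (σ → K)) :
    ∀ g ∈ linesI I x A, ∀ d, homogeneousComponent d g ∈ linesI I x A := by
  intro g hg
  refine Submodule.span_induction ?_ ?_ ?_ ?_ hg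
  · rintro _ ⟨f, hf, k, rfl⟩ d
    rw [homogeneousComponent_of_mem (lexp_coeff_homog x A f k)]
    split_ifs
    · exact Ideal.subset_span ⟨f, hf, k, rfl⟩
    · exact Ideal.zero_mem _
  · intro d
    rw [map_zero]
    exact Ideal.zero_mem _
  · intro a b _ _ ha hb d
    rw [map_add]
    exact Ideal.add_mem _ (ha d) (hb d)
  · intro a b _ hb d
    rw [smul_eq_mul]
    induction a using MvPolynomial.induction_on generalizing d with
    | C c =>
      rw [homogeneousComponent_C_mul]
      exact Ideal.mul_mem_left _ _ (hb d)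
    | add p q hp hq =>
      rw [add_mul, map_add]
      exact Ideal.add_mem _ (hp d) (hq d)
    | mul_X p i hp =>
      have h0 : p * X i * b = (p * b) * X i := by ring
      rw [h0]
      rcases d with _ | d
      · rw [hc_X_mul_zero]
        exact Ideal.zero_mem _
      · rw [hc_X_mul]
        exact Ideal.mul_mem_right _ _ (hp d)

/-- the polynomial `f(x + t A(u))` for a fixed value of `t` -/
lemma lexp_evalC (x : σ → K) (A : (τ → K) →ₗ[K] (σ → K)) (f : MvPolynomial σ K) (t : K)
    (u : τ → K) : eval u ((lexp x A f).eval (C t)) = eval (x + t • A u) f := by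
  have : ((eval u).comp (Polynomial.evalRingHom (C t))).comp
      (lexp x A : MvPolynomial σ K →ₐ[K] Polynomial (MvPolynomial τ K)).toRingHom =
      eval (x + t • A u) := by
    apply MvPolynomial.ringHom_ext
    · intro c
      simp [lexp]
    · intro i
      simp only [RingHom.comp_apply, AlgHom.toRingHom_eq_coe, RingHom.coe_coe, lexp, aeval_X,
        map_add, map_mul, Polynomial.coe_evalRingHom, Polynomial.eval_C, Polynomial.eval_X,
        Polynomial.eval_add, Polynomial.eval_mul, eval_C, eval_X]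
      rw [eval_lin, dotB_apply, lin_apply]
      rfl
  exact RingHom.congr_fun this f

lemma grad_lexp [Infinite K] (x : σ → K) (A : (τ → K) →ₗ[K] (σ → K)) (f : MvPolynomial σ K)
    (u u' : τ → K) (k : ℕ) : dotB τ K (grad ((lexp x A f).coeff (k + 1)) u) u' =
      (dl x (A u) f (cv (A u'))).coeff k := by
  have h1 : ∀ t : K, dotB τ K (grad ((lexp x A f).eval (C t)) u) u' =
      t * (dl x (A u) f (cv (A u'))).eval t := by
    intro t
    have h2 : line ((lexp x A f).eval (C t)) u u' = line f (x + t • A u) (t • A u') := by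
      apply Polynomial.funext
      intro s
      rw [eval_line, eval_line, lexp_evalC, map_add, map_smul, smul_add, smul_comm t s, add_assoc]
    rw [← line_coeff_one, h2, line_coeff_one, map_smul, smul_eq_mul, dl_eval]
    congr 2
    funext i
    simp [cv]
  have h2 : ∀ t : K, dotB τ K (grad ((lexp x A f).eval (C t)) u) u' =
      (∑ j ∈ Finset.range ((lexp x A f).natDegree + 1),
        Polynomial.C (dotB τ K (grad ((lexp x A f).coeff j) u) u') * Polynomial.X ^ j).eval t := by
    intro t
    have h3 : (lexp x A f).eval (C t) = ∑ j ∈ Finset.range ((lexp x A f).natDegree + 1),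
        C (t ^ j) * (lexp x A f).coeff j := by
      rw [Polynomial.eval_eq_sum_range]
      exact Finset.sum_congr rfl (fun j _ => by rw [map_pow, mul_comm])
    rw [h3, grad_sum, map_sum, LinearMap.sum_apply, Polynomial.eval_finsetSum]
    refine Finset.sum_congr rfl (fun j _ => ?_)
    rw [grad_C_mul, map_smul, LinearMap.smul_apply, Polynomial.eval_mul, Polynomial.eval_C,
      Polynomial.eval_pow, Polynomial.eval_X, smul_eq_mul, mul_comm]
  have h3 : (∑ j ∈ Finset.range ((lexp x A f).natDegree + 1),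
        Polynomial.C (dotB τ K (grad ((lexp x A f).coeff j) u) u') * Polynomial.X ^ j) =
      Polynomial.X * dl x (A u) f (cv (A u')) := by
    apply Polynomial.funext
    intro t
    rw [← h2, h1, Polynomial.eval_mul, Polynomial.eval_X]
  have h4 := congrArg (fun p => Polynomial.coeff p (k + 1)) h3
  simp only [Polynomial.coeff_X_mul] at h4
  rw [← h4, Polynomial.finsetSum_coeff]
  simp only [Polynomial.coeff_C_mul, Polynomial.coeff_X_pow, mul_ite, mul_one, mul_zero]
  by_cases hk : k + 1 < (lexp x A f).natDegree + 1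
  · rw [Finset.sum_eq_single (k + 1)]
    · rw [if_pos rfl]
    · intro i _ hi
      rw [if_neg (fun h => hi h.symm)]
    · intro h
      exact absurd (Finset.mem_range.2 hk) h
  · have h0 : (lexp x A f).coeff (k + 1) = 0 :=
      Polynomial.coeff_eq_zero_of_natDegree_lt (by omega)
    rw [Finset.sum_eq_zero]
    · rw [h0]
      have : grad (0 : MvPolynomial τ K) u = 0 := by funext i; simp [grad]
      rw [this, map_zero, LinearMap.zero_apply]
    · intro i hi
      rw [Finset.mem_range] at hi
      rw [if_neg (by omega)]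

/-- `x` is tangent at all points of a line through `x` -/
lemma base_tangent [Infinite K] {I : Ideal (MvPolynomial σ K)} {c : ℕ} {x v : σ → K}
    (h : FreeLine I c x v) (t : K) : x ∈ tangent I (x + t • v) := by
  refine (cone_of_line I (x + t • v) x (fun s _ => ?_)).2
  by_cases hs : 1 + s = 0
  · have h6 : x + t • v + s • x = t • v := by
      have : s = -1 := by linear_combination hs
      rw [this, neg_one_smul]
      abel
    rw [h6]
    apply cone_smul I h.sc.homog
    apply cone_closed I _ x
    intro q hq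
    have h7 : v + q • x = q • (x + q⁻¹ • v) := by
      rw [smul_add, smul_smul, mul_inv_cancel₀ hq, one_smul, add_comm]
    rw [h7]
    exact cone_smul I h.sc.homog q _ (h.line _)
  · have h6 : x + t • v + s • x = (1 + s) • (x + ((1 + s)⁻¹ * t) • v) := by
      rw [smul_add, smul_smul, ← mul_assoc, mul_inv_cancel₀ hs, one_mul, add_smul, one_smul]
      abel
    rw [h6]
    exact cone_smul I h.sc.homog _ _ (h.line _)

/-- If the quadric of `f` is singular at the point `u` of the variety of lines, then the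
differential of `f` at `x` vanishes on all tangent spaces along the line. -/
theorem tangent_along [Infinite K] {I : Ideal (MvPolynomial σ K)} {c : ℕ} {x : σ → K}
    {A : (τ → K) →ₗ[K] (σ → K)} (h : FreePt I c x A) (u : τ → K)
    (hu : u ∈ cone (linesI I x A)) (hu0 : u ≠ 0) (f : MvPolynomial σ K) (hf : f ∈ I)
    (hq : grad ((lexp x A f).coeff 2) u = 0) (a b : K) (hab : a ≠ 0 ∨ b ≠ 0) (w : σ → K)
    (hw : w ∈ tangent I (a • x + b • A u)) : dotB σ K (grad f x) w = 0 := by
  have hfl := h.freeLine u hu hu0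
  obtain ⟨w1, w2, hE, rfl⟩ := span_line hfl.sc x (A u) hfl.mem hfl.ind hfl.line hfl.free a b hab w hw
  have hw1 : w1 ∈ tangent I x := by
    have := hE 1 0 (Or.inl one_ne_zero)
    simpa using this
  have h1 : dotB σ K (grad f x) w1 = 0 := (mem_tangent I x _).1 hw1 f hf
  have h2 : dotB σ K (grad f x) w2 = 0 := by
    obtain ⟨α, β, hαβ⟩ := h.tan' w1 hw1
    have h3 := dl_field hE f hf
    have h4 : pl w1 w2 = Polynomial.C α • cv x + cv (A β) + (Polynomial.X : Polynomial K) • cv w2 := by
      rw [pl, hαβ, cv_add, cv_smul]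
    rw [h4, dl_add, dl_add, dl_smul, dl_smul] at h3
    have h5 : dl x (A u) f (cv x) = 0 := by
      apply Polynomial.funext
      intro t
      rw [dl_eval, Polynomial.eval_zero]
      have h6 : (fun i => (cv x i).eval t) = x := by funext i; simp [cv]
      rw [h6]
      exact (mem_tangent I _ _).1 (base_tangent hfl t) f hf
    rw [h5, mul_zero, zero_add] at h3
    have h6 := congrArg (fun p => Polynomial.coeff p 1) h3
    simp only [Polynomial.coeff_add, Polynomial.coeff_X_mul, Polynomial.coeff_zero] at h6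
    rw [← grad_lexp x A f u β 1, hq, map_zero, LinearMap.zero_apply, zero_add,
      Polynomial.coeff_zero_eq_eval_zero, dl_eval, zero_smul, add_zero] at h6
    have h7 : (fun i => (cv w2 i).eval 0) = w2 := at0_cv w2
    rwa [h7] at h6
  rw [map_add, map_smul, map_smul, h1, h2, smul_zero, smul_zero, add_zero]

end Pool.Agent.Run7.h399

/-!
# Homogeneous primes, and adding a variable
-/

namespace Pool.Agent.Run7.h399

open MvPolynomial Pool.Agent.Run7.h399.Hart Pool.Agent.R948

variable {σ τ : Type} [Fintype σ] [DecidableEq σ] [Fintype τ] [DecidableEq τ]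
  {K : Type} [Field K]

/-- homogeneous ideals -/
def Hm (I : Ideal (MvPolynomial τ K)) : Prop := ∀ f ∈ I, ∀ d, homogeneousComponent d f ∈ I

section

attribute [local instance] MvPolynomial.gradedAlgebra

theorem decompose_coe (f : MvPolynomial τ K) (m : ℕ) :
    (DirectSum.decompose (homogeneousSubmodule τ K) f m : MvPolynomial τ K) =
      homogeneousComponent m f := decomposition.decompose'_apply f m

theorem hm_iff (I : Ideal (MvPolynomial τ K)) :
    Hm I ↔ I.IsHomogeneous (homogeneousSubmodule τ K) := by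
  constructor
  · intro h m f hf
    rw [decompose_coe]
    exact h f hf m
  · intro h f hf m
    have := h m hf
    rwa [decompose_coe] at this

theorem Hm.sup {I J : Ideal (MvPolynomial τ K)} (h : Hm I) (h' : Hm J) : Hm (I ⊔ J) := by
  rw [hm_iff] at *
  exact Ideal.IsHomogeneous.sup h h'

theorem hm_span {S : Set (MvPolynomial τ K)} (h : ∀ f ∈ S, ∃ e : ℕ, f.IsHomogeneous e) :
    Hm (Ideal.span S) := by
  rw [hm_iff]
  refine Ideal.homogeneous_span _ _ ?_
  rintro g hg
  obtain ⟨e, he⟩ := h g hg
  exact ⟨e, (mem_homogeneousSubmodule e g).2 he⟩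

theorem Hm.minimal {I : Ideal (MvPolynomial τ K)} (h : Hm I)
    {Q : Ideal (MvPolynomial τ K)} (hQ : Q ∈ I.minimalPrimes) : Hm Q := by
  rw [hm_iff] at h ⊢
  set 𝒜 := homogeneousSubmodule τ K
  have h1 : (Q.homogeneousCore 𝒜).toIdeal.IsPrime := Ideal.IsPrime.homogeneousCore hQ.1.1
  have h2 : I ≤ (Q.homogeneousCore 𝒜).toIdeal :=
    h.toIdeal_homogeneousCore_eq_self.symm.trans_le (Ideal.homogeneousCore_mono _ hQ.1.2)
  have h3 := hQ.2 ⟨h1, h2⟩ (Ideal.toIdeal_homogeneousCore_le 𝒜 Q)
  have h4 : (Q.homogeneousCore 𝒜).toIdeal = Q :=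
    le_antisymm (Ideal.toIdeal_homogeneousCore_le 𝒜 Q) h3
  rw [← h4]
  exact (Ideal.homogeneousCore 𝒜 Q).isHomogeneous

end

/-- the cone times a line -/
noncomputable def xt (P : Ideal (MvPolynomial τ K)) : Ideal (MvPolynomial (Option τ) K) :=
  (P.map (Polynomial.C : MvPolynomial τ K →+* Polynomial (MvPolynomial τ K))).comap
    (optionEquivLeft K τ)

lemma mem_xt (P : Ideal (MvPolynomial τ K)) (f : MvPolynomial (Option τ) K) :
    f ∈ xt P ↔ ∀ n, (optionEquivLeft K τ f).coeff n ∈ P := by
  rw [xt, Ideal.mem_comap]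
  exact Ideal.mem_map_C_iff

lemma xt_prime (P : Ideal (MvPolynomial τ K)) [hP : P.IsPrime] : (xt P).IsPrime := by
  have : (P.map (Polynomial.C : MvPolynomial τ K →+* Polynomial (MvPolynomial τ K))).IsPrime :=
    Ideal.isPrime_map_C_of_isPrime
  exact Ideal.comap_isPrime _ _

lemma eval_oel (z : Option τ → K) (f : MvPolynomial (Option τ) K) :
    eval z f = ((optionEquivLeft K τ f).map (eval (fun i => z (some i)))).eval (z none) := by
  have : eval z = ((Polynomial.evalRingHom (z none)).comp (Polynomial.mapRingHom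
      (eval (fun i => z (some i))))).comp (optionEquivLeft K τ : MvPolynomial (Option τ) K ≃ₐ[K]
        Polynomial (MvPolynomial τ K)).toAlgHom.toRingHom := by
    apply MvPolynomial.ringHom_ext
    · intro c
      simp [optionEquivLeft_C]
    · intro i
      rcases i with _ | i
      · simp [optionEquivLeft_X_none]
      · simp [optionEquivLeft_X_some]
  exact RingHom.congr_fun this f

lemma mem_cone_xt (P : Ideal (MvPolynomial τ K)) (z : Option τ → K) :
    z ∈ cone (xt P) ↔ (fun i => z (some i)) ∈ cone P := by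
  constructor
  · intro h g hg
    have h1 := h (rename some g) (by
      rw [mem_xt]
      intro n
      have h2 : optionEquivLeft K τ (rename some g) = Polynomial.C g := by
        have : ((optionEquivLeft K τ : MvPolynomial (Option τ) K ≃ₐ[K]
            Polynomial (MvPolynomial τ K)).toAlgHom.comp (rename some)) =
            (Algebra.ofId _ _ : MvPolynomial τ K →ₐ[MvPolynomial τ K]
              Polynomial (MvPolynomial τ K)).restrictScalars K := by
          apply MvPolynomial.algHom_ext
          intro i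
          simp [optionEquivLeft_X_some, Algebra.ofId_apply]
        exact AlgHom.congr_fun this g
      rw [h2, Polynomial.coeff_C]
      split_ifs
      · exact hg
      · exact P.zero_mem)
    rw [eval_rename] at h1
    exact h1
  · intro h f hf
    rw [eval_oel]
    have h1 : (optionEquivLeft K τ f).map (eval (fun i => z (some i))) = 0 := by
      ext n
      rw [Polynomial.coeff_map, Polynomial.coeff_zero]
      exact h _ ((mem_xt P f).1 hf n)
    rw [h1, Polynomial.eval_zero]

lemma hm_of_cone [IsAlgClosed K] (I : Ideal (MvPolynomial τ K)) (hI : I.IsPrime)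
    (hst : ∀ t : K, ∀ x ∈ cone I, t • x ∈ cone I) : Hm I := by
  intro f hf d
  exact wcomp_mem I hI 1 (fun t _ x hx => by
    have h1 : (fun i => t ^ (1 : τ → ℕ) i * x i) = t • x := by
      ext i; simp
    rw [h1]
    exact hst t x hx) f hf d

lemma xt_hm [IsAlgClosed K] (P : Ideal (MvPolynomial τ K)) [hP : P.IsPrime] (hom : Hm P) :
    Hm (xt P) := by
  apply hm_of_cone _ (xt_prime P)
  intro t z hz
  rw [mem_cone_xt] at hz ⊢
  exact cone_smul P hom t _ hz

/-- adding a variable increases the dimension -/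
lemma tdP_xt (P : Ideal (MvPolynomial τ K)) [hP : P.IsPrime] :
    haveI := xt_prime P
    tdP P + 1 ≤ tdP (xt P) := by
  haveI := xt_prime P
  let φ : MvPolynomial (Option τ) K →ₐ[K] MvPolynomial τ K :=
    aeval (fun i => Option.elim i 0 X)
  have hφ : ∀ f, φ f = (optionEquivLeft K τ f).coeff 0 := by
    intro f
    have : φ.toRingHom = ((Polynomial.constantCoeff (R := MvPolynomial τ K))).comp
        (optionEquivLeft K τ : MvPolynomial (Option τ) K ≃ₐ[K]
        Polynomial (MvPolynomial τ K)).toAlgHom.toRingHom := by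
      apply MvPolynomial.ringHom_ext
      · intro c
        simp [φ, optionEquivLeft_C]
      · intro i
        rcases i with _ | i
        · simp [φ, optionEquivLeft_X_none]
        · simp [φ, optionEquivLeft_X_some]
    exact RingHom.congr_fun this f
  haveI hP2 : (P.comap φ).IsPrime := Ideal.comap_isPrime _ _
  have hle : xt P < P.comap φ := by
    refine lt_of_le_of_ne (fun f hf => ?_) (fun h => ?_)
    · rw [Ideal.mem_comap, hφ]
      exact (mem_xt P f).1 hf 0
    · have h1 : (X none : MvPolynomial (Option τ) K) ∈ P.comap φ := by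
        rw [Ideal.mem_comap]
        simp [φ]
      rw [← h, mem_xt] at h1
      have h2 := h1 1
      rw [optionEquivLeft_X_none, Polynomial.coeff_X_one] at h2
      exact hP.ne_top ((Ideal.eq_top_iff_one _).2 h2)
  have h1 := tdP_strict hle
  have h2 : tdP P ≤ tdP (P.comap φ) := by
    let z : Option τ → MvPolynomial τ K ⧸ P := fun i => Option.elim i 0 (cp P)
    have h3 : td K z ≤ tdP (P.comap φ) := by
      apply td_le_tdP
      intro f hf
      rw [Ideal.mem_comap] at hf
      have h4 : aeval z f = aeval (cp P) (φ f) := by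
        have : (aeval z : MvPolynomial (Option τ) K →ₐ[K] _) = (aeval (cp P)).comp φ := by
          apply MvPolynomial.algHom_ext
          intro i
          rcases i with _ | i
          · simp [z, φ]
          · simp [z, φ]
        rw [this]
        rfl
      rw [h4, aeval_cp_eq_zero]
      exact hf
    refine le_trans ?_ h3
    refine td_le_of_alg K (fun i => ?_)
    have h5 : cp P i = algebraMap (Algebra.adjoin K (Set.range z)) (MvPolynomial τ K ⧸ P)
        ⟨z (some i), Algebra.subset_adjoin ⟨some i, rfl⟩⟩ := rfl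
    rw [h5]
    exact isAlgebraic_algebraMap _
  omega

end Pool.Agent.Run7.h399

/-!
# Avoiding primes, and unmixedness of homogeneous complete intersections
-/

namespace Pool.Agent.Run7.h399

open MvPolynomial Pool.Agent.Run7.h399.Hart Pool.Agent.R948

variable {τ : Type} [Fintype τ] [DecidableEq τ] {K : Type} [Field K]

lemma lin_single' (i : τ) : lin (Pi.single i 1 : τ → K) = X i := by
  rw [lin, Finset.sum_eq_single i]
  · simp
  · intro j _ hj
    rw [Pi.single_eq_of_ne hj, map_zero, zero_mul]
  · intro h; exact absurd (Finset.mem_univ i) h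

lemma mx_zero_le {P : Ideal (MvPolynomial τ K)} (h : ∀ ξ : τ → K, lin ξ ∈ P) : mx 0 ≤ P := by
  intro f hf
  rw [mem_mx] at hf
  have h1 : f ∈ idealOfVars τ K := (mem_idealOfVars f).2 hf
  have h2 : idealOfVars τ K ≤ P := by
    rw [idealOfVars, Ideal.span_le]
    rintro _ ⟨i, rfl⟩
    have := h (Pi.single i 1)
    rwa [lin_single'] at this
  exact h2 h1

theorem avoid_lin [Infinite K] (s : Set (Ideal (MvPolynomial τ K))) (hs : s.Finite)
    (h : ∀ P ∈ s, ∃ ξ : τ → K, lin ξ ∉ P) : ∃ ξ : τ → K, ∀ P ∈ s, lin ξ ∉ P := by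
  haveI := hs.to_subtype
  by_contra hcon
  push Not at hcon
  obtain ⟨P, hP⟩ := Subspace.exists_eq_top_of_iUnion_eq_univ
    (p := fun P : s => linsub P.1) (by
      rw [Set.eq_univ_iff_forall]
      intro ξ
      obtain ⟨P, hP, h1⟩ := hcon ξ
      exact Set.mem_iUnion.2 ⟨⟨P, hP⟩, h1⟩)
  obtain ⟨ξ, hξ⟩ := h P.1 P.2
  apply hξ
  have h1 : ξ ∈ linsub P.1 := by
    have h2 : linsub P.1 = ⊤ := hP
    rw [h2]; trivial
  exact h1

/-- restriction of polynomials to the line through a point -/
noncomputable def lineHom (v : τ → K) : MvPolynomial τ K →ₐ[K] Polynomial K :=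
  aeval (fun i => Polynomial.C (v i) * Polynomial.X)

lemma eval_lineHom (v : τ → K) (t : K) (f : MvPolynomial τ K) :
    (lineHom v f).eval t = eval (t • v) f := by
  have : (Polynomial.evalRingHom t).comp (lineHom v).toRingHom = eval (t • v) := by
    apply MvPolynomial.ringHom_ext
    · intro c; simp [lineHom]
    · intro i
      simp [lineHom]
      ring
  exact RingHom.congr_fun this f

/-- the ideal of the line through a point -/
noncomputable def lineP (v : τ → K) : Ideal (MvPolynomial τ K) := RingHom.ker (lineHom v)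

instance lineP_prime (v : τ → K) : (lineP v).IsPrime := RingHom.ker_isPrime _

lemma cone_smul' {I : Ideal (MvPolynomial τ K)} (hI : Hm I) {v : τ → K} (hv : v ∈ cone I) (t : K) :
    t • v ∈ cone I := by
  intro f hf
  rw [← sum_homogeneousComponent f, map_sum]
  refine Finset.sum_eq_zero (fun d _ => ?_)
  have h1 : eval (t • v) (homogeneousComponent d f) =
      t ^ d * eval v (homogeneousComponent d f) := by
    have h3 := (homogeneousComponent_isHomogeneous d f)
    rw [eval_eq', eval_eq', Finset.mul_sum]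
    refine Finset.sum_congr rfl (fun m hm => ?_)
    have h4 : ∑ i, m i = d := by
      have h5 := h3 (mem_support_iff.1 hm)
      rw [Finsupp.weight_apply, Finsupp.sum_fintype _ _ (by simp)] at h5
      simpa using h5
    simp only [Pi.smul_apply, smul_eq_mul, mul_pow]
    rw [Finset.prod_mul_distrib, Finset.prod_pow_eq_pow_sum, h4]
    ring
  rw [h1, hv _ (hI f hf d), mul_zero]

lemma le_lineP [Infinite K] {I : Ideal (MvPolynomial τ K)} (hI : Hm I) {v : τ → K}
    (hv : v ∈ cone I) : I ≤ lineP v := by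
  intro f hf
  rw [lineP, RingHom.mem_ker]
  apply Polynomial.funext
  intro t
  change (lineHom v f).eval t = _
  rw [eval_lineHom, Polynomial.eval_zero]
  exact cone_smul' hI hv t f hf

lemma tdP_lineP {v : τ → K} (hv : v ≠ 0) : 0 < tdP (lineP v) := by
  have h1 : lineP v < mx 0 := by
    refine lt_of_le_of_ne ?_ ?_
    · intro f hf
      rw [mem_mx]
      rw [lineP, RingHom.mem_ker] at hf
      have h2 := eval_lineHom v 0 f
      rw [zero_smul] at h2
      rw [← h2]
      change Polynomial.eval 0 ((lineHom v) f) = 0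
      have h3 : (lineHom v) f = 0 := hf
      rw [h3, Polynomial.eval_zero]
    · intro h
      apply hv
      funext i
      have h2 : (X i : MvPolynomial τ K) ∈ lineP v := by
        rw [h, mem_mx]; simp
      rw [lineP, RingHom.mem_ker] at h2
      have h3 : (lineHom v) (X i) = 0 := h2
      rw [lineHom, aeval_X] at h3
      rcases mul_eq_zero.1 h3 with h4 | h4
      · exact Polynomial.C_eq_zero.1 h4
      · exact absurd h4 Polynomial.X_ne_zero
  have h2 := tdP_strict h1
  omega

theorem cut_down [Infinite K] : ∀ (d : ℕ) (𝔠 : Ideal (MvPolynomial τ K)), Hm 𝔠 →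
    (∀ (P : Ideal (MvPolynomial τ K)) [P.IsPrime], P ∈ 𝔠.minimalPrimes → tdP P ≤ d) →
    ∃ ls : List (τ → K), ls.length = d ∧ ∀ v ∈ cone 𝔠, (∀ a ∈ ls, dotB τ K a v = 0) → v = 0 := by
  intro d
  induction d with
  | zero =>
    intro 𝔠 h𝔠 hd
    refine ⟨[], rfl, fun v hv _ => ?_⟩
    by_contra hne
    obtain ⟨P, hP, hPv⟩ := Ideal.exists_minimalPrimes_le (le_lineP h𝔠 hv)
    haveI := hP.1.1
    have h1 := hd P hP
    have h2 := tdP_mono hPv
    have h3 := tdP_lineP hne
    omega
  | succ d ih =>
    intro 𝔠 h𝔠 hd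
    obtain ⟨ξ, hξ⟩ := avoid_lin (K := K) {P | P ∈ 𝔠.minimalPrimes ∧ ∃ ξ : τ → K, lin ξ ∉ P}
      ((Ideal.finite_minimalPrimes_of_isNoetherianRing _ 𝔠).subset (fun P hP => hP.1))
      (fun P hP => hP.2)
    have hspan : Hm (Ideal.span {lin ξ} : Ideal (MvPolynomial τ K)) := hm_span (by
      rintro f rfl
      exact ⟨1, lin_homog ξ⟩)
    obtain ⟨ls, hls, hv⟩ := ih (𝔠 ⊔ Ideal.span {lin ξ}) (h𝔠.sup hspan) (by
      intro P' _ hP'
      have h1 : 𝔠 ≤ P' := le_sup_left.trans hP'.1.2
      obtain ⟨P, hP, hPP'⟩ := Ideal.exists_minimalPrimes_le h1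
      haveI := hP.1.1
      have h2 := hd P hP
      by_cases hex : ∃ ξ : τ → K, lin ξ ∉ P
      · have h3 := hξ P ⟨hP, hex⟩
        have h4 : P < P' := by
          refine lt_of_le_of_ne hPP' ?_
          rintro rfl
          exact h3 (hP'.1.2 (Ideal.mem_sup_right (Ideal.mem_span_singleton_self _)))
        have h5 := tdP_strict h4
        omega
      · push Not at hex
        have h3 := tdP_mono (mx_zero_le hex)
        have h4 : tdP P' ≤ tdP P := tdP_mono hPP'
        have h5 : P ≤ mx 0 := le_mx_zero hP.1.1.ne_top (h𝔠.minimal hP)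
        have h6 : P = mx 0 := le_antisymm h5 (mx_zero_le hex)
        subst h6
        rw [tdP_mx] at h4
        omega)
    refine ⟨ξ :: ls, by simp [hls], fun v hvc hall => ?_⟩
    apply hv v
    · intro f hf
      obtain ⟨a, ha, b, hb, rfl⟩ := Submodule.mem_sup.1 hf
      rw [map_add, hvc a ha, zero_add]
      obtain ⟨q, rfl⟩ := Ideal.mem_span_singleton.1 hb
      rw [map_mul, eval_lin, hall ξ (by simp), zero_mul]
    · intro a ha
      exact hall a (by simp [ha])

theorem homog_avoid [Infinite K] (𝔟 : Ideal (MvPolynomial τ K)) (hb : Hm 𝔟)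
    (s : Set (Ideal (MvPolynomial τ K))) (hs : s.Finite)
    (hP : ∀ P ∈ s, P.IsPrime ∧ (∃ ξ : τ → K, lin ξ ∉ P) ∧ ¬ 𝔟 ≤ P) :
    ∃ (D : ℕ) (b : MvPolynomial τ K), 0 < D ∧ b.IsHomogeneous D ∧ b ∈ 𝔟 ∧ ∀ P ∈ s, b ∉ P := by
  classical
  haveI := hs.fintype
  obtain ⟨ξ, hξ⟩ := avoid_lin s hs (fun P h => (hP P h).2.1)
  have h1 : ∀ P : s, ∃ (d : ℕ) (b : MvPolynomial τ K), b.IsHomogeneous d ∧ b ∈ 𝔟 ∧ b ∉ P.1 := by
    intro P
    obtain ⟨f, hf, hfP⟩ := Set.not_subset.1 (hP P.1 P.2).2.2
    by_contra hcon
    push Not at hcon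
    apply hfP
    change f ∈ P.1
    rw [← sum_homogeneousComponent f]
    exact Ideal.sum_mem _ (fun d _ => hcon d _ (homogeneousComponent_isHomogeneous d f) (hb f hf d))
  choose dd bb h2 h3 h4 using h1
  set D := 1 + ∑ P, dd P with hD
  have hdD : ∀ P, dd P ≤ D := fun P => by
    have := Finset.single_le_sum (f := dd) (fun _ _ => Nat.zero_le _) (Finset.mem_univ P)
    omega
  set cc : s → MvPolynomial τ K := fun P => lin ξ ^ (D - dd P) * bb P with hcc
  have hch : ∀ P, (cc P).IsHomogeneous D := by
    intro P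
    have h5 := ((lin_homog ξ).pow (D - dd P)).mul (h2 P)
    have h6 : 1 * (D - dd P) + dd P = D := by have := hdD P; omega
    rwa [h6] at h5
  have hcb : ∀ P, cc P ∈ 𝔟 := fun P => 𝔟.mul_mem_left _ (h3 P)
  have hcP : ∀ P : s, cc P ∉ P.1 := by
    intro P h5
    haveI := (hP P.1 P.2).1
    rcases (hP P.1 P.2).1.mem_or_mem h5 with h6 | h6
    · exact hξ P.1 P.2 ((hP P.1 P.2).1.mem_of_pow_mem _ h6)
    · exact h4 P h6
  have h5 : ∃ a : s → K, ∀ P : s, ∑ Q, a Q • cc Q ∉ P.1 := by
    by_contra hcon
    push Not at hcon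
    obtain ⟨P, hPt⟩ := Subspace.exists_eq_top_of_iUnion_eq_univ
      (p := fun P : s => (P.1.restrictScalars K).comap (Fintype.linearCombination K cc)) (by
        rw [Set.eq_univ_iff_forall]
        intro a
        obtain ⟨P, hP⟩ := hcon a
        refine Set.mem_iUnion.2 ⟨P, ?_⟩
        change Fintype.linearCombination K cc a ∈ P.1
        rw [Fintype.linearCombination_apply]
        exact hP)
    apply hcP P
    have h6 : (Pi.single P 1 : s → K) ∈
        (P.1.restrictScalars K).comap (Fintype.linearCombination K cc) := by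
      have h7 : (P.1.restrictScalars K).comap (Fintype.linearCombination K cc) = ⊤ := hPt
      rw [h7]; trivial
    have h7 : Fintype.linearCombination K cc (Pi.single P 1) ∈ P.1 := h6
    rwa [Fintype.linearCombination_apply_single, one_smul] at h7
  obtain ⟨a, ha⟩ := h5
  refine ⟨D, ∑ Q, a Q • cc Q, by omega, ?_, ?_, fun P hP => ha ⟨P, hP⟩⟩
  · refine IsHomogeneous.sum _ _ _ (fun Q _ => ?_)
    rw [smul_eq_C_mul]
    have := (isHomogeneous_C τ (a Q)).mul (hch Q)
    rwa [zero_add] at this
  · refine Ideal.sum_mem _ (fun Q _ => ?_)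
    rw [smul_eq_C_mul]
    exact 𝔟.mul_mem_left _ (hcb Q)

end Pool.Agent.Run7.h399

/-!
# Homogeneous complete intersections have no embedded components; the closing argument
-/

namespace Pool.Agent.Run7.h399

open MvPolynomial Pool.Agent.Run7.h399.Hart Pool.Agent.R948

variable {τ : Type} [Fintype τ] [DecidableEq τ] {K : Type} [Field K]

lemma ext_eq' (fs : List (MvPolynomial τ K)) : ∀ I : Ideal (MvPolynomial τ K),
    TH144.MB.ext I fs = I ⊔ Ideal.span {g | g ∈ fs} := by
  induction fs with
  | nil => intro I; simp [TH144.MB.ext]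
  | cons f fs ih =>
    intro I
    rw [TH144.MB.ext_cons, ih, sup_assoc, ← Ideal.span_union]
    congr 2
    ext g
    simp [Or.comm]

lemma drop_lin (fs : List (MvPolynomial τ K)) (hfs : ∀ f ∈ fs, ∃ d, f.IsHomogeneous d) :
    ∀ ls : List (τ → K),
    TH144.MB.Reg (⊥ : Ideal (MvPolynomial τ K)) (ls.map TH144.MB.lin ++ fs) →
    TH144.MB.Reg (⊥ : Ideal (MvPolynomial τ K)) fs := by
  intro ls
  induction ls with
  | nil => intro h; exact h
  | cons a ls ih =>
    intro h
    apply ih
    refine (TH144.MB.reg_rotate (TH144.MB.lin_hom a) (ls.map TH144.MB.lin ++ fs) ⊥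
      TH144.MB.hom_bot ?_ h).1
    intro f hf
    rw [List.mem_append, List.mem_map] at hf
    rcases hf with ⟨b, _, rfl⟩ | hf
    · exact ⟨1, TH144.MB.lin_hom b⟩
    · exact hfs f hf

/-- the ideal of all `b` with `b * g ∈ q` -/
def quo (q : Ideal (MvPolynomial τ K)) (g : MvPolynomial τ K) : Ideal (MvPolynomial τ K) where
  carrier := {b | b * g ∈ q}
  add_mem' := by
    intro a b ha hb
    change (a + b) * g ∈ q
    rw [add_mul]
    exact q.add_mem ha hb
  zero_mem' := by
    change 0 * g ∈ q
    rw [zero_mul]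
    exact q.zero_mem
  smul_mem' := by
    intro a b hb
    change (a * b) * g ∈ q
    rw [mul_assoc]
    exact q.mul_mem_left _ hb

lemma mem_quo (q : Ideal (MvPolynomial τ K)) (g b : MvPolynomial τ K) :
    b ∈ quo q g ↔ b * g ∈ q := Iff.rfl

lemma quo_hm {q : Ideal (MvPolynomial τ K)} (hq : Hm q) {g : MvPolynomial τ K} {m : ℕ}
    (hg : g.IsHomogeneous m) : Hm (quo q g) := by
  intro b hb n
  rw [mem_quo] at hb ⊢
  have h1 := hq _ hb (m + n)
  rw [mul_comm, TH144.MB.comp_mul hg] at h1
  rwa [mul_comm]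

theorem unmixed [IsAlgClosed K] {e : ℕ} (G : Fin e → MvPolynomial τ K) (dg : Fin e → ℕ)
    (hG : ∀ i, (G i).IsHomogeneous (dg i)) (hd : ∀ i, 0 < dg i)
    (hdim : ∀ (P : Ideal (MvPolynomial τ K)) [P.IsPrime],
      P ∈ (Ideal.span (Set.range G)).minimalPrimes → tdP P + e ≤ Fintype.card τ)
    (g : MvPolynomial τ K) {m : ℕ} (hg : g.IsHomogeneous m)
    (hb : ∀ P ∈ (Ideal.span (Set.range G)).minimalPrimes,
      ∃ b, b ∉ P ∧ b * g ∈ Ideal.span (Set.range G)) :
    g ∈ Ideal.span (Set.range G) := by
  classical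
  haveI := IsAlgClosed.instInfinite (K := K)
  set q : Ideal (MvPolynomial τ K) := Ideal.span (Set.range G) with hq
  have hqh : Hm q := hm_span (by rintro _ ⟨i, rfl⟩; exact ⟨dg i, hG i⟩)
  have hGz : ∀ i, eval 0 (G i) = 0 := by
    intro i
    rw [eval_zero, constantCoeff_eq]
    by_contra h
    have h1 := hG i h
    rw [map_zero] at h1
    have := hd i
    omega
  have hq0 : q ≤ mx 0 := by
    rw [hq, Ideal.span_le]
    rintro _ ⟨i, rfl⟩
    exact (mem_mx 0 (G i)).2 (hGz i)
  by_cases hcase : ∃ P ∈ q.minimalPrimes, ∀ ξ : τ → K, lin ξ ∈ P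
  · obtain ⟨P, hP, hξ⟩ := hcase
    obtain ⟨b, hbP, hbg⟩ := hb P hP
    have h1 : eval 0 b ≠ 0 := fun h => hbP (mx_zero_le hξ ((mem_mx 0 b).2 h))
    have h2 := quo_hm hqh hg b hbg 0
    rw [homogeneousComponent_zero, ← constantCoeff_eq, ← eval_zero, mem_quo] at h2
    have h3 := q.mul_mem_left (C (eval 0 b)⁻¹) h2
    rwa [← mul_assoc, ← map_mul, inv_mul_cancel₀ h1, map_one, one_mul] at h3
  push Not at hcase
  have hmin : ∀ P ∈ q.minimalPrimes, ¬ quo q g ≤ P := by
    intro P hP hle
    obtain ⟨b, hbP, hbg⟩ := hb P hP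
    exact hbP (hle hbg)
  obtain ⟨D, b, hD, hbD, hbq, hbP⟩ := homog_avoid (quo q g) (quo_hm hqh hg) q.minimalPrimes
    (Ideal.finite_minimalPrimes_of_isNoetherianRing _ q)
    (fun P hP => ⟨hP.1.1, hcase P hP, hmin P hP⟩)
  have hstrict : ∀ (P : Ideal (MvPolynomial τ K)) [P.IsPrime], P ∈ q.minimalPrimes → 1 ≤ tdP P := by
    intro P _ hP
    have h1 : P ≤ mx 0 := le_mx_zero hP.1.1.ne_top (hqh.minimal hP)
    have h2 : P < mx 0 := by
      refine lt_of_le_of_ne h1 ?_
      intro h
      obtain ⟨ξ, hξ⟩ := hcase P hP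
      apply hξ
      rw [h, mem_mx, eval_lin, map_zero]
    have h3 := tdP_strict h2
    omega
  have hen : e + 1 ≤ Fintype.card τ := by
    obtain ⟨P, hP, _⟩ := Ideal.exists_minimalPrimes_le hq0
    haveI := hP.1.1
    have h1 := hstrict P hP
    have h2 := hdim P hP
    omega
  have hbh : Hm (Ideal.span {b} : Ideal (MvPolynomial τ K)) := hm_span (by
    rintro f rfl
    exact ⟨D, hbD⟩)
  obtain ⟨ls, hls, hv⟩ := cut_down (K := K) (Fintype.card τ - e - 1) (q ⊔ Ideal.span {b})
    (hqh.sup hbh) (by
      intro P' _ hP'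
      have h1 : q ≤ P' := le_sup_left.trans hP'.1.2
      obtain ⟨P, hP, hPP'⟩ := Ideal.exists_minimalPrimes_le h1
      haveI := hP.1.1
      have h2 := hdim P hP
      have h3 : P < P' := by
        refine lt_of_le_of_ne hPP' ?_
        rintro rfl
        exact hbP P hP (hP'.1.2 (Ideal.mem_sup_right (Ideal.mem_span_singleton_self _)))
      have h4 := tdP_strict h3
      omega)
  set fs : List (MvPolynomial τ K × ℕ) :=
    List.ofFn (fun i => (G i, dg i)) ++ [(b, D)] with hfs
  have hlen : ls.length + fs.length = Fintype.card τ := by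
    rw [hls, hfs, List.length_append, List.length_ofFn, List.length_singleton]
    omega
  have hmapfs : fs.map Prod.fst = List.ofFn G ++ [b] := by
    rw [hfs, List.map_append, List.map_ofFn]
    rfl
  have hsq := TH144.MB.square fs ls (by
    intro x hx
    rw [hfs, List.mem_append, List.mem_ofFn, List.mem_singleton] at hx
    rcases hx with ⟨i, rfl⟩ | rfl
    · exact ⟨hG i, hd i⟩
    · exact ⟨hbD, hD⟩) hlen (by
      intro v hvl hvf
      apply hv v
      · intro f hf
        obtain ⟨a, ha, c, hc, rfl⟩ := Submodule.mem_sup.1 hf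
        have h1 : eval v a = 0 := by
          have h2 : q ≤ mx v := by
            rw [hq, Ideal.span_le]
            rintro _ ⟨i, rfl⟩
            refine (mem_mx v (G i)).2 (hvf (G i, dg i) ?_)
            rw [hfs, List.mem_append, List.mem_ofFn]
            exact Or.inl ⟨i, rfl⟩
          exact (mem_mx v a).1 (h2 ha)
        obtain ⟨r, rfl⟩ := Ideal.mem_span_singleton.1 hc
        have h2 : eval v b = 0 := hvf (b, D) (by simp [hfs])
        rw [map_add, h1, map_mul, h2, zero_mul, add_zero]
      · intro a ha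
        have h1 := hvl a ha
        rw [← eval_lin]
        exact h1)
  rw [hmapfs] at hsq
  have hreg := drop_lin (List.ofFn G ++ [b]) (by
    intro f hf
    rw [List.mem_append, List.mem_ofFn, List.mem_singleton] at hf
    rcases hf with ⟨i, rfl⟩ | rfl
    · exact ⟨_, hG i⟩
    · exact ⟨_, hbD⟩) ls hsq.1
  rw [TH144.MB.reg_append] at hreg
  have h1 : TH144.MB.ext (⊥ : Ideal (MvPolynomial τ K)) (List.ofFn G) = q := by
    rw [ext_eq', bot_sup_eq, hq]
    congr 1
    ext f
    simp [List.mem_ofFn]
  rw [h1] at hreg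
  exact hreg.2.1 g hbq

/-- at a general point of a component, the ideal of the component is locally the radical -/
lemma general_radical [IsAlgClosed K] (q P : Ideal (MvPolynomial τ K)) (hP : P ∈ q.minimalPrimes) :
    ∃ w ∈ cone P, ∀ f ∈ P, ∃ a, eval w a ≠ 0 ∧ ∃ N : ℕ, a * f ^ N ∈ q := by
  classical
  haveI := hP.1.1
  have hfin := Ideal.finite_minimalPrimes_of_isNoetherianRing _ q
  set S := hfin.toFinset.erase P with hS
  have h1 : ∀ Q ∈ S, ∃ h, h ∈ Q ∧ h ∉ P := by
    intro Q hQ
    rw [hS, Finset.mem_erase, Set.Finite.mem_toFinset] at hQ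
    by_contra hcon
    push Not at hcon
    have h2 : Q ≤ P := fun f hf => hcon f hf
    have h3 := hP.2 hQ.2.1 h2
    exact hQ.1 (le_antisymm h2 h3)
  choose! h h2 h3 using h1
  set a : MvPolynomial τ K := ∏ Q ∈ S, h Q with ha
  have haP : a ∉ P := by
    rw [ha]
    intro h4
    obtain ⟨Q, hQ, h5⟩ := (Ideal.IsPrime.prod_mem_iff).1 h4
    exact h3 Q hQ h5
  have hex : ∃ w ∈ cone P, eval w a ≠ 0 := by
    by_contra hcon
    push Not at hcon
    exact haP (mem_of_vanish P hP.1.1 a hcon)
  obtain ⟨w, hw, hwa⟩ := hex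
  refine ⟨w, hw, fun f hf => ?_⟩
  have h4 : a * f ∈ q.radical := by
    rw [← Ideal.sInf_minimalPrimes, Submodule.mem_sInf]
    intro Q hQ
    by_cases hQP : Q = P
    · rw [hQP]; exact P.mul_mem_left _ hf
    · have h5 : Q ∈ S := by
        rw [hS, Finset.mem_erase, Set.Finite.mem_toFinset]
        exact ⟨hQP, hQ⟩
      refine Ideal.mul_mem_right _ _ ?_
      rw [ha, ← Finset.prod_erase_mul _ _ h5]
      exact Ideal.mul_mem_left _ _ (h2 Q h5)
  obtain ⟨N, hN⟩ := h4
  refine ⟨a ^ N, ?_, N, ?_⟩
  · rw [map_pow]; exact pow_ne_zero _ hwa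
  · rwa [← mul_pow]

lemma close_meet [IsAlgClosed K] {e : ℕ} (Y : Ideal (MvPolynomial τ K))
    [hYp : Y.IsPrime] (hYm : Hm Y) (he : e < tdP Y)
    (G : Fin e → MvPolynomial τ K) (dg : Fin e → ℕ) (hG : ∀ i, (G i).IsHomogeneous (dg i))
    (P : Ideal (MvPolynomial τ K)) (hP : P ∈ (Ideal.span (Set.range G)).minimalPrimes) :
    ∃ y ∈ cone Y, y ≠ 0 ∧ y ∈ cone P := by
  have hqh : Hm (Ideal.span (Set.range G)) := hm_span (by rintro _ ⟨i, rfl⟩; exact ⟨dg i, hG i⟩)
  obtain ⟨w, hw, hrad⟩ := general_radical _ P hP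
  have hPh := hqh.minimal hP
  obtain ⟨y, hy, hy0, hyq⟩ := join (e := e) Y hYm LinearMap.id P w hw G
    (fun i => hP.1.2 (Ideal.subset_span ⟨i, rfl⟩)) hrad he
  refine ⟨y, hy, hy0, fun f hf => ?_⟩
  rw [← sum_homogeneousComponent f, map_sum]
  refine Finset.sum_eq_zero (fun d _ => ?_)
  exact (hyq _ (hPh f hf d) d (homogeneousComponent_isHomogeneous d f)).1

lemma close_dim [IsAlgClosed K] {e : ℕ} (Y : Ideal (MvPolynomial τ K))
    [hYp : Y.IsPrime] (hYm : Hm Y) (he : e < tdP Y)
    (G : Fin e → MvPolynomial τ K) (dg : Fin e → ℕ) (hG : ∀ i, (G i).IsHomogeneous (dg i))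
    (hind : ∀ v ∈ cone Y, v ≠ 0 → LinearIndependent K (fun i => grad (G i) v))
    (P : Ideal (MvPolynomial τ K)) [P.IsPrime]
    (hP : P ∈ (Ideal.span (Set.range G)).minimalPrimes) : tdP P + e ≤ Fintype.card τ := by
  obtain ⟨y, hy, hy0, hyP⟩ := close_meet Y hYm he G dg hG P hP
  have h1 := tdP_le_of_tangent P y hyP
  have h2 : e ≤ Module.finrank K (conormal P y) := by
    let γ : Fin e → conormal P y := fun i =>
      ⟨grad (G i) y, Submodule.subset_span ⟨G i, hP.1.2 (Ideal.subset_span ⟨i, rfl⟩), rfl⟩⟩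
    have h3 : LinearIndependent K γ :=
      LinearIndependent.of_comp (conormal P y).subtype (hind y hy hy0)
    have h4 := h3.fintype_card_le_finrank
    rwa [Fintype.card_fin] at h4
  omega

theorem close [IsAlgClosed K] {e : ℕ} (J Y : Ideal (MvPolynomial τ K)) (hJ : Hm J)
    [hYp : Y.IsPrime] (hYm : Hm Y) (he : e < tdP Y)
    (G : Fin e → MvPolynomial τ K) (dg : Fin e → ℕ) (hG : ∀ i, (G i).IsHomogeneous (dg i))
    (hd : ∀ i, 0 < dg i) (hGJ : ∀ i, G i ∈ J)
    (hind : ∀ v ∈ cone Y, v ≠ 0 → LinearIndependent K (fun i => grad (G i) v))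
    (hloc : ∀ v ∈ cone Y, v ≠ 0 → ∀ f ∈ J, ∃ a, eval v a ≠ 0 ∧
      a * f ∈ Ideal.span (Set.range G)) :
    J = Ideal.span (Set.range G) := by
  classical
  set q : Ideal (MvPolynomial τ K) := Ideal.span (Set.range G) with hq
  have hqJ : q ≤ J := by
    rw [hq, Ideal.span_le]
    rintro _ ⟨i, rfl⟩
    exact hGJ i
  refine le_antisymm ?_ hqJ
  intro f hf
  rw [← sum_homogeneousComponent f]
  refine Ideal.sum_mem _ (fun d _ => ?_)
  refine unmixed G dg hG hd (fun P _ hP => close_dim Y hYm he G dg hG hind P hP) _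
    (homogeneousComponent_isHomogeneous d f) ?_
  intro P hP
  obtain ⟨y, hy, hy0, hyP⟩ := close_meet Y hYm he G dg hG P hP
  obtain ⟨b, hb, hbf⟩ := hloc y hy hy0 _ (hJ f hf d)
  exact ⟨b, fun h => hb (hyP b h), hbf⟩

/-- the ideal is saturated -/
theorem close_sat [IsAlgClosed K] {e : ℕ} (Y : Ideal (MvPolynomial τ K))
    [hYp : Y.IsPrime] (hYm : Hm Y) (he : e < tdP Y)
    (G : Fin e → MvPolynomial τ K) (dg : Fin e → ℕ) (hG : ∀ i, (G i).IsHomogeneous (dg i))
    (hd : ∀ i, 0 < dg i)
    (hind : ∀ v ∈ cone Y, v ≠ 0 → LinearIndependent K (fun i => grad (G i) v))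
    (g : MvPolynomial τ K) (hg : ∀ i, ∃ k : ℕ, X i ^ k * g ∈ Ideal.span (Set.range G)) :
    g ∈ Ideal.span (Set.range G) := by
  classical
  have hqh : Hm (Ideal.span (Set.range G)) := hm_span (by rintro _ ⟨i, rfl⟩; exact ⟨dg i, hG i⟩)
  rw [← sum_homogeneousComponent g]
  refine Ideal.sum_mem _ (fun d _ => ?_)
  refine unmixed G dg hG hd (fun P _ hP => close_dim Y hYm he G dg hG hind P hP) _
    (homogeneousComponent_isHomogeneous d g) ?_
  intro P hP
  have := hP.1.1
  obtain ⟨y, hy, hy0, hyP⟩ := close_meet Y hYm he G dg hG P hP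
  obtain ⟨i, hi⟩ := Function.ne_iff.1 hy0
  obtain ⟨k, hk⟩ := hg i
  refine ⟨X i ^ k, ?_, ?_⟩
  · intro h
    have h1 := hyP _ h
    rw [map_pow, eval_X] at h1
    exact hi (eq_zero_of_pow_eq_zero h1)
  · have h1 := hqh _ hk (k + d)
    have h2 : (X i ^ k : MvPolynomial τ K).IsHomogeneous k := isHomogeneous_X_pow i k
    rwa [TH144.MB.comp_mul h2] at h1

end Pool.Agent.Run7.h399

/-!
# The quadrics of the second fundamental form are smooth along the variety of lines
-/

namespace Pool.Agent.Run7.h399

open MvPolynomial Pool.Agent.Run7.h399.Hart Pool.Agent.R948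

variable {σ τ : Type} [Fintype σ] [DecidableEq σ] [Fintype τ] [DecidableEq τ]
  {K : Type} [Field K]

lemma cone_plane [Infinite K] {I : Ideal (MvPolynomial σ K)}
    (hom : ∀ F ∈ I, ∀ d, homogeneousComponent d F ∈ I) {x v : σ → K}
    (hline : ∀ t : K, x + t • v ∈ cone I) (a b : K) : a • x + b • v ∈ cone I := by
  have h1 : ∀ a b : K, a ≠ 0 → a • x + b • v ∈ cone I := by
    intro a b ha
    have h2 : a • x + b • v = a • (x + (a⁻¹ * b) • v) := by
      rw [smul_add, smul_smul, ← mul_assoc, mul_inv_cancel₀ ha, one_mul]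
    rw [h2]
    exact cone_smul I hom a _ (hline _)
  by_cases ha : a = 0
  · subst ha
    rw [zero_smul, zero_add]
    apply cone_smul I hom
    apply cone_closed I v x
    intro s hs
    have := h1 s 1 hs
    rwa [one_smul, add_comm] at this
  · exact h1 a b ha

/-- the variety is not contained in a hyperplane -/
def Nondeg (I : Ideal (MvPolynomial σ K)) : Prop := ∀ l : σ → K, l ≠ 0 → lin l ∉ I

/-- the parametrization of the tangent space -/
noncomputable def tanL (x : σ → K) (A : (τ → K) →ₗ[K] (σ → K)) :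
    (Option τ → K) →ₗ[K] (σ → K) where
  toFun z := z none • x + A (fun i => z (some i))
  map_add' z z' := by
    have h1 : (fun i => (z + z') (some i)) = (fun i => z (some i)) + fun i => z' (some i) := rfl
    rw [h1, map_add, Pi.add_apply, add_smul]
    abel
  map_smul' c z := by
    have h1 : (fun i => (c • z) (some i)) = c • fun i => z (some i) := rfl
    rw [h1, map_smul, Pi.smul_apply, smul_eq_mul, mul_smul, RingHom.id_apply, smul_add]

lemma tanL_apply (x : σ → K) (A : (τ → K) →ₗ[K] (σ → K)) (z : Option τ → K) :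
    tanL x A z = z none • x + A (fun i => z (some i)) := rfl

/-- The locus in the variety of lines where the quadric of `f` is singular is small. -/
theorem sing_bound [IsAlgClosed K] [CharZero K] {I : Ideal (MvPolynomial σ K)} {c : ℕ}
    {x : σ → K} {A : (τ → K) →ₗ[K] (σ → K)} (h : FreePt I c x A) (hnd : Nondeg I)
    (f : MvPolynomial σ K) (hf : f ∈ I) (hfx : grad f x ≠ 0)
    (R : Ideal (MvPolynomial τ K)) [hR : R.IsPrime] (hRh : Hm R)
    (hRJ : ∀ u ∈ cone R, u ∈ cone (linesI I x A))
    (hRq : ∀ u ∈ cone R, grad ((lexp x A f).coeff 2) u = 0) : tdP R + 1 ≤ c := by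
  have hinf := IsAlgClosed.instInfinite (K := K)
  by_contra hcon
  have := xt_prime R
  have hdim := tdP_xt R
  have hw : ∃ w ∈ cone I, dotB σ K (grad f x) w ≠ 0 := by
    by_contra hall
    push Not at hall
    apply hnd _ hfx
    apply mem_of_vanish I h.sc.prime
    intro w hw
    rw [eval_lin]
    exact hall w hw
  obtain ⟨w, hwI, hw⟩ := hw
  have hw0 : w ≠ 0 := by
    rintro rfl
    exact hw (map_zero _)
  have hline : ∀ u ∈ cone R, ∀ t : K, x + t • A u ∈ cone I := fun u hu =>
    (mem_linesI_cone I x A u).1 (hRJ u hu)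
  obtain ⟨y, hy, hy0, hwy⟩ := tangency h.sc (xt R) (xt_hm R hRh) (tanL x A) (fun z hz => by
    rw [tanL_apply]
    have h1 := cone_plane h.sc.homog (hline _ ((mem_cone_xt R z).1 hz)) (z none) 1
    rwa [one_smul] at h1) (by omega) w hwI hw0
  apply hw
  rw [tanL_apply] at hwy
  have hyR := (mem_cone_xt R y).1 hy
  by_cases hu : (fun i => y (some i)) = 0
  · have ha : y none ≠ 0 := by
      intro ha
      apply hy0
      funext i
      rcases i with _ | i
      · exact ha
      · exact congrFun hu i
    rw [hu, map_zero, add_zero, tangent_smul I h.sc.homog _ ha] at hwy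
    exact (mem_tangent I x w).1 hwy f hf
  · have h1 : y none • x + A (fun i => y (some i)) =
        y none • x + (1 : K) • A (fun i => y (some i)) := by rw [one_smul]
    rw [h1] at hwy
    exact tangent_along h _ (hRJ _ hyR) hu f hf (hRq _ hyR) (y none) 1 (Or.inr one_ne_zero) w hwy

/-- **The quadrics are smooth along the components of large dimension.** -/
theorem quad_smooth [IsAlgClosed K] [CharZero K] {I : Ideal (MvPolynomial σ K)} {c r : ℕ}
    {x : σ → K} {A : (τ → K) →ₗ[K] (σ → K)} (h : FreePt I c x A) (hnd : Nondeg I)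
    (Y : Ideal (MvPolynomial τ K)) [hY : Y.IsPrime] (hYmin : Y ∈ (linesI I x A).minimalPrimes)
    (hYdim : tdP Y + r = Fintype.card τ) (hn : c + 2 * r ≤ Fintype.card τ)
    (f : MvPolynomial σ K) (hf : f ∈ I) (hfx : grad f x ≠ 0) (v0 : τ → K) (hv0 : v0 ∈ cone Y)
    (hv00 : v0 ≠ 0) : grad ((lexp x A f).coeff 2) v0 ≠ 0 := by
  classical
  have hinf := IsAlgClosed.instInfinite (K := K)
  intro hq0
  set J := linesI I x A with hJ
  set q := (lexp x A f).coeff 2 with hq
  have hqJ : q ∈ J := Ideal.subset_span ⟨f, hf, 2, rfl⟩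
  have hYJ : ∀ v ∈ cone Y, v ∈ cone J := fun v hv g hg => hv g (hYmin.1.2 hg)
  have hrank : ∀ v ∈ cone Y, v ≠ 0 → Module.finrank K (conormal J v) = r := by
    intro v hv hv0
    have h1 := tdP_eq_of_arcs (hYJ v hv) (arcs_lines h v (hYJ v hv) hv0) Y hYmin hv
    omega
  have hYh : Hm Y := Hm.minimal (linesI_homog I x A) hYmin
  have hGex := exists_basis_grads J v0
  rw [hrank v0 hv0 hv00] at hGex
  obtain ⟨G, hG, hGind, hGspan⟩ := hGex
  obtain ⟨W, hW⟩ := exists_dual_vectors _ hGind
  let M : Matrix (Fin r) (Fin r) (MvPolynomial τ K) := fun i j => dd (W j) (G i)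
  have hMx : ∀ v : τ → K, eval v M.det =
      Matrix.det (fun i j => dotB τ K (grad (G i) v) (W j)) := by
    intro v
    rw [RingHom.map_det]
    congr 1
    ext i j
    rw [RingHom.mapMatrix_apply, Matrix.map_apply, eval_dd]
  have hM0 : eval v0 M.det = 1 := by
    rw [hMx]
    have h2 : (fun i j => dotB τ K (grad (G i) v0) (W j)) = (1 : Matrix (Fin r) (Fin r) K) := by
      funext i j
      rw [hW, Matrix.one_apply]
    rw [h2, Matrix.det_one]
  obtain ⟨R, hR, hRM, hRmin, hle⟩ := exists_cut Y (mx v0) hY (mx_prime v0)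
    (fun g hg => (mem_mx v0 g).2 (hv0 g hg)) (fun j : Fin r => dd (W j) q) (fun j => by
      rw [mem_mx, eval_dd, hq0, map_zero, LinearMap.zero_apply])
  have hYR : Y ≤ R := le_sup_left.trans hRmin.1.2
  have hdR : ∀ j, dd (W j) q ∈ R := fun j =>
    hRmin.1.2 (Ideal.mem_sup_right (Ideal.subset_span ⟨j, rfl⟩))
  have hRY : ∀ v ∈ cone R, v ∈ cone Y := fun v hv g hg => hv g (hYR hg)
  have hqhom : q.IsHomogeneous 2 := lexp_coeff_homog x A f 2
  have hRh : Hm R := by
    refine Hm.minimal (Hm.sup hYh (hm_span ?_)) hRmin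
    rintro _ ⟨j, rfl⟩
    refine ⟨1, ?_⟩
    show (∑ i, MvPolynomial.C (W j i) * pderiv i q).IsHomogeneous 1
    refine IsHomogeneous.sum _ _ _ (fun i _ => ?_)
    have := (isHomogeneous_C τ (W j i)).mul (hqhom.pderiv (i := i))
    rwa [zero_add] at this
  have hdet : M.det ∉ R := by
    intro hmem
    have := hRM hmem
    rw [mem_mx, hM0] at this
    exact one_ne_zero this
  have hpd : ∀ i, pderiv i q ∈ R := by
    intro i
    have h1 : M.det * pderiv i q ∈ R := by
      apply mem_of_vanish R hR
      intro v hv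
      rw [map_mul]
      by_cases hv0 : v = 0
      · subst hv0
        have h2 : eval (0 : τ → K) (pderiv i q) = 0 := by
          have h3 := hqhom.pderiv (i := i)
          rw [eval_zero, constantCoeff_eq]
          exact h3.coeff_eq_zero (by simp)
        rw [h2, mul_zero]
      · by_cases hd : eval v M.det = 0
        · rw [hd, zero_mul]
        · have hind : LinearIndependent K (fun i => grad (G i) v) := by
            rw [Fintype.linearIndependent_iff]
            intro a ha
            by_contra hcon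
            push Not at hcon
            obtain ⟨i, hi⟩ := hcon
            apply hd
            rw [hMx, ← Matrix.exists_vecMul_eq_zero_iff]
            refine ⟨a, fun h0 => hi (congrFun h0 i), ?_⟩
            ext j
            have := congrArg (fun φ => dotB τ K φ (W j)) ha
            simpa [Matrix.vecMul, dotProduct, map_sum, LinearMap.sum_apply] using this
          have hvY := hRY v hv
          -- the gradients span the conormal space
          have hspan : Submodule.span K (Set.range (fun i => grad (G i) v)) = conormal J v := by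
            apply Submodule.eq_of_le_of_finrank_eq
            · rw [Submodule.span_le]
              rintro _ ⟨i, rfl⟩
              exact grad_mem J v (hG i)
            · rw [finrank_span_eq_card hind, Fintype.card_fin, hrank v hvY hv0]
          have hqv : grad q v ∈ Submodule.span K (Set.range (fun i => grad (G i) v)) := by
            rw [hspan]
            exact grad_mem J v hqJ
          rw [Submodule.mem_span_range_iff_exists_fun] at hqv
          obtain ⟨a, ha⟩ := hqv
          have ha0 : a = 0 := by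
            by_contra hne
            apply hd
            rw [hMx, ← Matrix.exists_vecMul_eq_zero_iff]
            refine ⟨a, hne, ?_⟩
            ext j
            have h2 := congrArg (fun φ => dotB τ K φ (W j)) ha
            have h3 := hv _ (hdR j)
            rw [eval_dd] at h3
            have h6 : dotB τ K (∑ i, a i • grad (G i) v) (W j) = 0 := by
              rw [← h3]
              exact h2
            rw [map_sum, LinearMap.sum_apply] at h6
            rw [Pi.zero_apply, ← h6]
            show ∑ i, a i * dotB τ K (grad (G i) v) (W j) = _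
            exact Finset.sum_congr rfl (fun i _ => by
              rw [map_smul, LinearMap.smul_apply, smul_eq_mul])
          have h4 : eval v (pderiv i q) = 0 := by
            have h5 := congrFun ha i
            rw [ha0] at h5
            simp only [Pi.zero_apply, zero_smul, Finset.sum_const_zero] at h5
            exact h5.symm
          rw [h4, mul_zero]
    exact (hR.mem_or_mem h1).resolve_left hdet
  have h1 := sing_bound h hnd f hf hfx R hRh (fun u hu => hYJ u (hRY u hu)) (fun u hu => by
    funext i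
    exact hu _ (hpd i))
  omega

end Pool.Agent.Run7.h399

/-!
# The case of small codimension
-/

namespace Pool.Agent.Run7.h399

open MvPolynomial Pool.Agent.Run7.h399.Hart Pool.Agent.R948

variable {σ τ : Type} [Fintype σ] [DecidableEq σ] [Fintype τ] [DecidableEq τ]
  {K : Type} [Field K]

lemma exists_ne_cone [IsAlgClosed K] (P : Ideal (MvPolynomial τ K)) [hP : P.IsPrime]
    (h : 0 < tdP P) : ∃ v ∈ cone P, v ≠ 0 := by
  by_contra hcon
  push Not at hcon
  have h1 : mx 0 ≤ P := by
    intro f hf
    apply mem_of_vanish P hP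
    intro v hv
    rw [hcon v hv]
    exact (mem_mx 0 f).1 hf
  have h2 := tdP_mono h1
  rw [tdP_mx] at h2
  omega

/-- the quadric of a linear combination -/
lemma grad_quad_sum {r : ℕ} (x : σ → K) (A : (τ → K) →ₗ[K] (σ → K)) (k : ℕ)
    (F : Fin r → MvPolynomial σ K) (a : Fin r → K) (v : τ → K) :
    grad ((lexp x A (∑ i, C (a i) * F i)).coeff k) v =
      ∑ i, a i • grad ((lexp x A (F i)).coeff k) v := by
  have h1 : (lexp x A (∑ i, C (a i) * F i)).coeff k =
      ∑ i, C (a i) * (lexp x A (F i)).coeff k := by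
    rw [map_sum, Polynomial.finsetSum_coeff]
    refine Finset.sum_congr rfl (fun i _ => ?_)
    have h2 : lexp x A (C (a i)) = Polynomial.C (C (a i)) := by
      rw [lexp, aeval_C]
      rfl
    rw [map_mul, h2, Polynomial.coeff_C_mul]
  rw [h1, grad_sum]
  exact Finset.sum_congr rfl (fun i _ => by rw [grad_C_mul])

theorem quads_indep [IsAlgClosed K] [CharZero K] {I : Ideal (MvPolynomial σ K)} {c r e : ℕ}
    {x : σ → K} {A : (τ → K) →ₗ[K] (σ → K)} (h : FreePt I c x A) (hnd : Nondeg I)
    (Y : Ideal (MvPolynomial τ K)) [hY : Y.IsPrime] (hYmin : Y ∈ (linesI I x A).minimalPrimes)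
    (hYdim : tdP Y + r = Fintype.card τ) (hn : c + 2 * r ≤ Fintype.card τ)
    (F : Fin e → MvPolynomial σ K) (hF : ∀ i, F i ∈ I)
    (hind : LinearIndependent K (fun i => grad (F i) x)) (v : τ → K) (hv : v ∈ cone Y)
    (hv0 : v ≠ 0) : LinearIndependent K (fun i => grad ((lexp x A (F i)).coeff 2) v) := by
  rw [Fintype.linearIndependent_iff] at hind ⊢
  intro a ha
  by_contra hcon
  have h1 : grad (∑ i, C (a i) * F i) x ≠ 0 := by
    intro h2
    apply hcon
    apply hind a
    rw [← h2, grad_sum]
    exact Finset.sum_congr rfl (fun i _ => by rw [grad_C_mul])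
  have h2 := quad_smooth h hnd Y hYmin hYdim hn (∑ i, C (a i) * F i)
    (Ideal.sum_mem _ (fun i _ => I.mul_mem_left _ (hF i))) h1 v hv hv0
  apply h2
  rw [grad_quad_sum]
  exact ha

theorem rank_lines [IsAlgClosed K] [CharZero K] {I : Ideal (MvPolynomial σ K)} {c r : ℕ}
    {x : σ → K} {A : (τ → K) →ₗ[K] (σ → K)} (h : FreePt I c x A)
    (Y : Ideal (MvPolynomial τ K)) [hY : Y.IsPrime] (hYmin : Y ∈ (linesI I x A).minimalPrimes)
    (hYdim : tdP Y + r = Fintype.card τ) (v : τ → K) (hv : v ∈ cone Y) (hv0 : v ≠ 0) :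
    Module.finrank K (conormal (linesI I x A) v) = r := by
  have hvJ : v ∈ cone (linesI I x A) := fun g hg => hv g (hYmin.1.2 hg)
  have h1 := tdP_eq_of_arcs hvJ (arcs_lines h v hvJ hv0) Y hYmin hv
  omega

lemma grad_quad_mem {I : Ideal (MvPolynomial σ K)} (x : σ → K) (A : (τ → K) →ₗ[K] (σ → K))
    (f : MvPolynomial σ K) (hf : f ∈ I) (k : ℕ) (v : τ → K) :
    grad ((lexp x A f).coeff k) v ∈ conormal (linesI I x A) v :=
  Submodule.subset_span ⟨_, Ideal.subset_span ⟨f, hf, k, rfl⟩, rfl⟩

theorem codim_le [IsAlgClosed K] [CharZero K] {I : Ideal (MvPolynomial σ K)} {c r e : ℕ}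
    {x : σ → K} {A : (τ → K) →ₗ[K] (σ → K)} (h : FreePt I c x A) (hnd : Nondeg I)
    (Y : Ideal (MvPolynomial τ K)) [hY : Y.IsPrime] (hYmin : Y ∈ (linesI I x A).minimalPrimes)
    (hYdim : tdP Y + r = Fintype.card τ) (hn : c + 2 * r ≤ Fintype.card τ)
    (hpos : r < Fintype.card τ)
    (F : Fin e → MvPolynomial σ K) (hF : ∀ i, F i ∈ I)
    (hind : LinearIndependent K (fun i => grad (F i) x)) : e ≤ r := by
  obtain ⟨v, hv, hv0⟩ := exists_ne_cone Y (by omega)
  have h1 := quads_indep h hnd Y hYmin hYdim hn F hF hind v hv hv0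
  rw [← rank_lines h Y hYmin hYdim v hv hv0]
  let γ : Fin e → conormal (linesI I x A) v := fun i =>
    ⟨grad ((lexp x A (F i)).coeff 2) v, grad_quad_mem x A (F i) (hF i) 2 v⟩
  have h3 : LinearIndependent K γ :=
    LinearIndependent.of_comp (conormal (linesI I x A) v).subtype h1
  have h4 := h3.fintype_card_le_finrank
  rwa [Fintype.card_fin] at h4

/-- the closing argument for the ideal of the variety of lines -/
theorem lines_close [IsAlgClosed K] [CharZero K] {I : Ideal (MvPolynomial σ K)} {c r : ℕ}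
    {x : σ → K} {A : (τ → K) →ₗ[K] (σ → K)} (h : FreePt I c x A)
    (Y : Ideal (MvPolynomial τ K)) [hY : Y.IsPrime] (hYmin : Y ∈ (linesI I x A).minimalPrimes)
    (hYdim : tdP Y + r = Fintype.card τ) (hlt : r < tdP Y)
    (G : Fin r → MvPolynomial τ K) (dg : Fin r → ℕ) (hG : ∀ i, (G i).IsHomogeneous (dg i))
    (hd : ∀ i, 0 < dg i) (hGJ : ∀ i, G i ∈ linesI I x A)
    (hind : ∀ v ∈ cone Y, v ≠ 0 → LinearIndependent K (fun i => grad (G i) v)) :
    linesI I x A = Ideal.span (Set.range G) ∧
      ∀ g : MvPolynomial τ K, (∀ i, ∃ k : ℕ, X i ^ k * g ∈ linesI I x A) → g ∈ linesI I x A := by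
  haveI := IsAlgClosed.instInfinite (K := K)
  have key : linesI I x A = Ideal.span (Set.range G) → linesI I x A = Ideal.span (Set.range G) ∧
      ∀ g : MvPolynomial τ K, (∀ i, ∃ k : ℕ, X i ^ k * g ∈ linesI I x A) →
        g ∈ linesI I x A := by
    intro h1
    refine ⟨h1, ?_⟩
    rw [h1]
    exact close_sat Y (Hm.minimal (linesI_homog I x A) hYmin) hlt G dg hG hd hind
  apply key
  refine close (linesI I x A) Y (linesI_homog I x A) (Hm.minimal (linesI_homog I x A) hYmin)
    hlt G dg hG hd hGJ hind ?_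
  intro v hv hv0 f hf
  have hvJ : v ∈ cone (linesI I x A) := fun g hg => hv g (hYmin.1.2 hg)
  have hsp : Submodule.span K (Set.range (fun i => grad (G i) v)) =
      conormal (linesI I x A) v := by
    apply Submodule.eq_of_le_of_finrank_eq
    · rw [Submodule.span_le]
      rintro _ ⟨i, rfl⟩
      exact Submodule.subset_span ⟨G i, hGJ i, rfl⟩
    · rw [finrank_span_eq_card (hind v hv hv0), Fintype.card_fin,
        rank_lines h Y hYmin hYdim v hv hv0]
  obtain ⟨a, ha, haf⟩ := locgen hvJ (arcs_lines h v hvJ hv0) G hGJ (hind v hv hv0) (by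
    intro ξ hξ
    rw [← hsp, Submodule.mem_span_range_iff_exists_fun] at hξ
    obtain ⟨c, hc⟩ := hξ
    exact ⟨c, hc.symm⟩) f hf
  exact ⟨a, by rw [ha]; exact one_ne_zero, haf⟩

theorem main1 [IsAlgClosed K] [CharZero K] {I : Ideal (MvPolynomial σ K)} {c r : ℕ}
    {x : σ → K} {A : (τ → K) →ₗ[K] (σ → K)} (h : FreePt I c x A) (hnd : Nondeg I)
    (Y : Ideal (MvPolynomial τ K)) [hY : Y.IsPrime] (hYmin : Y ∈ (linesI I x A).minimalPrimes)
    (hYdim : tdP Y + r = Fintype.card τ) (hn : c + 2 * r ≤ Fintype.card τ)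
    (hpos : r < Fintype.card τ) (hrc : r ≤ c) :
    r = c ∧ ∃ F : Fin c → MvPolynomial σ K, (∀ i, F i ∈ I) ∧
      LinearIndependent K (fun i => grad (F i) x) ∧
      linesI I x A = Ideal.span (Set.range fun i => (lexp x A (F i)).coeff 2) ∧
      ∀ g : MvPolynomial τ K, (∀ i, ∃ k : ℕ, X i ^ k * g ∈ linesI I x A) → g ∈ linesI I x A := by
  obtain ⟨F, hF, hind, -⟩ := exists_grads h.sc x h.mem h.ne
  have h1 := codim_le h hnd Y hYmin hYdim hn hpos F hF hind
  have h2 : r = c := le_antisymm hrc h1
  subst h2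
  refine ⟨rfl, F, hF, hind, ?_⟩
  exact lines_close h Y hYmin hYdim (by omega) (fun i => (lexp x A (F i)).coeff 2) (fun _ => 2)
    (fun i => lexp_coeff_homog x A (F i) 2) (fun _ => two_pos)
    (fun i => Ideal.subset_span ⟨F i, hF i, 2, rfl⟩)
    (fun v hv hv0 => quads_indep h hnd Y hYmin hYdim hn F hF hind v hv hv0)

end Pool.Agent.Run7.h399

/-!
# Krull dimension of quotients of polynomial rings
-/

namespace Pool.Agent.Run7.h399

open MvPolynomial Pool.Agent.Run7.h399.Hart Pool.Agent.R948

variable {τ : Type} [Fintype τ] [DecidableEq τ] {K : Type} [Field K]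

theorem dim_prime (P : Ideal (MvPolynomial τ K)) [hP : P.IsPrime] :
    ringKrullDim (MvPolynomial τ K ⧸ P) = ((tdP P : ℕ) : WithBot ℕ∞) := by
  obtain ⟨s, hs1, hs2⟩ := Pool.Agent.Helper834.EC.exists_ringKrullDim_eq_trdeg K
    (MvPolynomial τ K ⧸ P)
  rw [← tdP_eq] at hs2
  have h3 : tdP P = s := by exact_mod_cast hs2
  rw [hs1, h3]

theorem dim_quot_le {R : Type} [CommRing R] (J : Ideal R)
    (n : WithBot ℕ∞) (h : ∀ p ∈ J.minimalPrimes, ringKrullDim (R ⧸ p) ≤ n) :
    ringKrullDim (R ⧸ J) ≤ n := by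
  rw [ringKrullDim_quotient]
  refine iSup_le fun p => ?_
  set p0 : PrimeSpectrum R := (p.toFun 0).1 with hp0
  have hJ : J ≤ p0.asIdeal := (p.toFun 0).2
  have := p0.2
  obtain ⟨Q, hQ, hQp⟩ := Ideal.exists_minimalPrimes_le hJ
  have h1 := h Q hQ
  rw [ringKrullDim_quotient] at h1
  let q : LTSeries (PrimeSpectrum.zeroLocus (R := R) (Q : Set R)) :=
    { length := p.length
      toFun := fun i => ⟨(p.toFun i).1, by
        have h2 : p.toFun 0 ≤ p.toFun i := p.strictMono.monotone (Fin.zero_le i)
        exact fun x hx => h2 (hQp hx)⟩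
      step := fun i => p.step i }
  have h2 : ((q.length : ℕ) : WithBot ℕ∞) ≤ _ := Order.LTSeries.length_le_krullDim q
  exact h2.trans h1

/-- a component of the dimension of the quotient -/
theorem exists_component (J : Ideal (MvPolynomial τ K)) (d : ℕ)
    (h : ringKrullDim (MvPolynomial τ K ⧸ J) = (d : WithBot ℕ∞)) :
    ∃ Y : Ideal (MvPolynomial τ K), ∃ _ : Y.IsPrime, Y ∈ J.minimalPrimes ∧ tdP Y = d := by
  by_contra hcon
  push Not at hcon
  have h1 : ∀ Y ∈ J.minimalPrimes, ∃ _ : Y.IsPrime, tdP Y + 1 ≤ d := by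
    intro Y hY
    have hYp := hY.1.1
    refine ⟨hYp, ?_⟩
    have h2 := hcon Y hYp hY
    have h3 : ringKrullDim (MvPolynomial τ K ⧸ Y) ≤ ringKrullDim (MvPolynomial τ K ⧸ J) :=
      ringKrullDim_le_of_surjective (Ideal.Quotient.factor hY.1.2)
        (Ideal.Quotient.factor_surjective hY.1.2)
    rw [dim_prime, h] at h3
    have h4 : tdP Y ≤ d := by exact_mod_cast h3
    omega
  by_cases hd : d = 0
  · have h2 : J = ⊤ := by
      by_contra hne
      obtain ⟨M, hM, hJM⟩ := Ideal.exists_le_maximal J hne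
      have := hM.isPrime
      obtain ⟨Y, hY, _⟩ := Ideal.exists_minimalPrimes_le hJM
      obtain ⟨_, h3⟩ := h1 Y hY
      omega
    have h3 : Subsingleton (MvPolynomial τ K ⧸ J) := Ideal.Quotient.subsingleton_iff.2 h2
    rw [ringKrullDim_eq_bot_of_subsingleton] at h
    exact absurd h.symm (by simp)
  · have h2 : ringKrullDim (MvPolynomial τ K ⧸ J) ≤ ((d - 1 : ℕ) : WithBot ℕ∞) := by
      apply dim_quot_le
      intro Y hY
      obtain ⟨hYp, h3⟩ := h1 Y hY
      rw [dim_prime]
      have : tdP Y ≤ d - 1 := by omega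
      exact_mod_cast this
    rw [h] at h2
    have h3 : d ≤ d - 1 := by exact_mod_cast h2
    omega

end Pool.Agent.Run7.h399

/-!
# From the definitions of the statement to the internal ones
-/

namespace Pool.Agent.Run7.h399

open MvPolynomial Pool.Agent.Run7.h399.Hart Pool.Agent.R948 LX

lemma tangentSpace_eq {m : ℕ} (I : Ideal (Pol m)) (x : Fin m → ℂ) :
    tangentSpace I x = tangent I x := by
  ext w
  rw [mem_tangent]
  change (∀ f ∈ I, ∑ i, eval x (pderiv i f) * w i = 0) ↔ _
  simp only [dotB_apply, grad]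

lemma linesIdeal_eq {n m : ℕ} (I : Ideal (Pol m)) (x : Fin m → ℂ)
    (A : (Fin n → ℂ) →ₗ[ℂ] (Fin m → ℂ)) : linesIdeal I x A = linesI I x A := rfl

lemma sc_of {n c : ℕ} {I : Ideal (Pol (n + c + 1))} (h : IsManifold n c I) : SCone I c where
  prime := h.prime
  homog := h.homogeneous
  rank := by
    intro x hx hx0
    have h1 := h.smooth x hx hx0
    rw [tangentSpace_eq] at h1
    have h2 := finrank_tangent I x
    rw [h1, Fintype.card_fin] at h2
    omega

lemma nondeg_of {n c : ℕ} {I : Ideal (Pol (n + c + 1))} (h : IsManifold n c I) : Nondeg I := by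
  intro l hl hmem
  apply hl
  have h1 := h.nondegenerate _ hmem (lin_homog l)
  funext i
  have h2 := congrArg (eval (Pi.single i 1)) h1
  rw [eval_lin, dotB_apply, map_zero] at h2
  simpa [Pi.single_apply] using h2

lemma exists_ne_of {n c : ℕ} {I : Ideal (Pol (n + c + 1))} (h : IsManifold n c I) :
    ∃ x ∈ cone I, x ≠ 0 := by
  have := h.prime
  apply exists_ne_cone I
  have h1 := h.dimension
  rw [dim_prime] at h1
  have h2 : tdP I = n + 1 := by exact_mod_cast h1
  omega

/-- general points with a frame of the tangent space -/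
theorem exists_general {n c : ℕ} {I : Ideal (Pol (n + c + 1))} (h : IsManifold n c I) :
    ∃ g, g ∉ I ∧ ∀ x ∈ zeros I, eval x g ≠ 0 →
      ∀ A : (Fin n → ℂ) →ₗ[ℂ] (Fin (n + c + 1) → ℂ), IsFrame I x A → FreePt I c x A := by
  obtain ⟨g, hg, hfree⟩ := exists_free (sc_of h) (exists_ne_of h)
  refine ⟨g, hg, fun x hx hgx A hA => ?_⟩
  exact {
    sc := sc_of h
    mem := hx
    inj := hA.injective
    notMem := by
      intro a u hau
      by_contra ha
      apply hA.notMem
      refine ⟨a⁻¹ • u, ?_⟩
      rw [map_smul, ← hau, smul_smul, inv_mul_cancel₀ ha, one_smul]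
    tan := by
      intro w
      rw [← tangentSpace_eq, hA.span]
      exact Submodule.mem_sup_right ⟨w, rfl⟩
    tan' := by
      intro w hw
      rw [← tangentSpace_eq, hA.span] at hw
      obtain ⟨y, hy, z, ⟨b, rfl⟩, rfl⟩ := Submodule.mem_sup.1 hw
      obtain ⟨a, rfl⟩ := Submodule.mem_span_singleton.1 hy
      exact ⟨a, b, rfl⟩
    free := hfree x hx hgx }

end Pool.Agent.Run7.h399

/-!
# Minors of the Jacobian matrix
-/

namespace Pool.Agent.Run7.h399

open MvPolynomial Pool.Agent.Run7.h399.Hart Pool.Agent.R948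

variable {τ : Type} [Fintype τ] [DecidableEq τ] {K : Type} [Field K]
  {κ : Type} [Fintype κ] [DecidableEq κ]

/-- the minors of the Jacobian matrix in given directions -/
noncomputable def mdet (G : κ → MvPolynomial τ K) (W : κ → τ → K) : MvPolynomial τ K :=
  Matrix.det (fun i j => dd (W j) (G i))

lemma eval_mdet (G : κ → MvPolynomial τ K) (W : κ → τ → K) (v : τ → K) : eval v (mdet G W) =
    Matrix.det (fun i j => dotB τ K (grad (G i) v) (W j)) := by
  rw [mdet, RingHom.map_det]
  congr 1
  ext i j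
  rw [RingHom.mapMatrix_apply, Matrix.map_apply, eval_dd]

lemma dd_homog (w : τ → K) {f : MvPolynomial τ K} {d : ℕ} (hf : f.IsHomogeneous d) :
    (dd w f).IsHomogeneous (d - 1) := by
  show (∑ i, MvPolynomial.C (w i) * pderiv i f).IsHomogeneous (d - 1)
  refine IsHomogeneous.sum _ _ _ (fun i _ => ?_)
  have := (isHomogeneous_C τ (w i)).mul (hf.pderiv (i := i))
  rwa [zero_add] at this

lemma mdet_homog (G : κ → MvPolynomial τ K) (W : κ → τ → K) (dg : κ → ℕ)
    (hG : ∀ i, (G i).IsHomogeneous (dg i)) : (mdet G W).IsHomogeneous (∑ i, (dg i - 1)) := by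
  rw [mdet, Matrix.det_apply]
  refine IsHomogeneous.sum _ _ _ (fun s _ => ?_)
  have h1 : (∏ i, dd (W i) (G (s i))).IsHomogeneous (∑ i, (dg (s i) - 1)) :=
    IsHomogeneous.prod _ _ _ (fun i _ => dd_homog (W i) (hG (s i)))
  have h2 : ∑ i, (dg (s i) - 1) = ∑ i, (dg i - 1) := Equiv.sum_comp s (fun i => dg i - 1)
  rw [h2] at h1
  rcases Int.units_eq_one_or (Equiv.Perm.sign s) with h | h
  · rw [h, one_smul]; exact h1
  · rw [h, Units.neg_smul, one_smul]; exact h1.neg

lemma exists_dual' (b : κ → (τ → K)) (hb : LinearIndependent K b) :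
    ∃ W : κ → τ → K, ∀ i j, dotB τ K (b i) (W j) = if i = j then 1 else 0 := by
  let e := Fintype.equivFin κ
  obtain ⟨W, hW⟩ := exists_dual_vectors (fun i => b (e.symm i)) (hb.comp _ e.symm.injective)
  refine ⟨fun j => W (e j), fun i j => ?_⟩
  have := hW (e i) (e j)
  rw [Equiv.symm_apply_apply] at this
  rw [this]
  simp

lemma ind_of_mdet (G : κ → MvPolynomial τ K) (W : κ → τ → K) (v : τ → K)
    (h : eval v (mdet G W) ≠ 0) : LinearIndependent K (fun i => grad (G i) v) := by
  rw [Fintype.linearIndependent_iff]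
  intro a ha
  by_contra hcon
  push Not at hcon
  obtain ⟨i, hi⟩ := hcon
  apply h
  rw [eval_mdet, ← Matrix.exists_vecMul_eq_zero_iff]
  refine ⟨a, fun h0 => hi (congrFun h0 i), ?_⟩
  ext j
  have := congrArg (fun φ => dotB τ K φ (W j)) ha
  simpa [Matrix.vecMul, dotProduct, map_sum, LinearMap.sum_apply] using this

lemma exists_mdet (G : κ → MvPolynomial τ K) (v : τ → K)
    (h : LinearIndependent K (fun i => grad (G i) v)) : ∃ W, eval v (mdet G W) = 1 := by
  obtain ⟨W, hW⟩ := exists_dual' _ h
  refine ⟨W, ?_⟩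
  rw [eval_mdet]
  have h2 : (fun i j => dotB τ K (grad (G i) v) (W j)) = (1 : Matrix κ κ K) := by
    funext i j
    rw [hW, Matrix.one_apply]
  rw [h2, Matrix.det_one]

/-- if the determinant is nonzero, a combination orthogonal to all directions is zero -/
lemma mdet_inj (G : κ → MvPolynomial τ K) (W : κ → τ → K) (v : τ → K)
    (h : eval v (mdet G W) ≠ 0) (a : κ → K)
    (ha : ∀ j, ∑ i, a i * dotB τ K (grad (G i) v) (W j) = 0) : a = 0 := by
  by_contra hne
  apply h
  rw [eval_mdet, ← Matrix.exists_vecMul_eq_zero_iff]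
  refine ⟨a, hne, ?_⟩
  ext j
  simpa [Matrix.vecMul, dotProduct] using ha j

lemma mdet_surj (G : κ → MvPolynomial τ K) (W : κ → τ → K) (v : τ → K)
    (h : eval v (mdet G W) ≠ 0) (b : κ → K) :
    ∃ a : κ → K, ∀ j, ∑ i, a i * dotB τ K (grad (G i) v) (W j) = b j := by
  let Φ : (κ → K) →ₗ[K] (κ → K) :=
    LinearMap.pi (fun j => ∑ i, (LinearMap.proj i : (κ → K) →ₗ[K] K).smulRight
      (dotB τ K (grad (G i) v) (W j)))
  have hΦ : ∀ a j, Φ a j = ∑ i, a i * dotB τ K (grad (G i) v) (W j) := by
    intro a j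
    simp [Φ, LinearMap.sum_apply]
  have hinj : Function.Injective Φ := by
    rw [← LinearMap.ker_eq_bot, LinearMap.ker_eq_bot']
    intro a ha
    apply mdet_inj G W v h
    intro j
    rw [← hΦ, ha]
    rfl
  obtain ⟨a, ha⟩ := LinearMap.injective_iff_surjective.1 hinj b
  exact ⟨a, fun j => by rw [← hΦ, ha]⟩

lemma mdet_zero (G : κ → MvPolynomial τ K) (W : κ → τ → K) (v : τ → K)
    (h : eval v (mdet G W) = 0) :
    ∃ a : κ → K, a ≠ 0 ∧ ∀ j, ∑ i, a i * dotB τ K (grad (G i) v) (W j) = 0 := by
  rw [eval_mdet, ← Matrix.exists_vecMul_eq_zero_iff] at h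
  obtain ⟨a, ha, h1⟩ := h
  refine ⟨a, ha, fun j => ?_⟩
  have := congrFun h1 j
  simpa [Matrix.vecMul, dotProduct] using this

omit [Fintype τ] [DecidableEq τ] [Fintype κ] [DecidableEq κ] in
lemma li_option (b : κ → τ → K) (x : τ → K) :
    LinearIndependent K (fun o : Option κ => Option.elim o x b) ↔
      LinearIndependent K b ∧ x ∉ Submodule.span K (Set.range b) := by
  have h1 : (fun o : Option κ => Option.elim o x b) = fun o => Option.casesOn' o x b := by
    funext o
    rcases o with _ | i <;> rfl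
  rw [h1]
  exact linearIndependent_option'

/-- being in the span of independent gradients is a closed condition -/
theorem closed_span [IsAlgClosed K] (R : Ideal (MvPolynomial τ K)) [hR : R.IsPrime]
    (g : κ → MvPolynomial τ K) (h D : MvPolynomial τ K) (hD : D ∉ R)
    (hind : ∀ v ∈ cone R, v ≠ 0 → LinearIndependent K (fun i => grad (g i) v))
    (hgen : ∀ v ∈ cone R, v ≠ 0 → eval v D ≠ 0 →
      grad h v ∈ Submodule.span K (Set.range fun i => grad (g i) v)) :
    ∀ v ∈ cone R, v ≠ 0 → grad h v ∈ Submodule.span K (Set.range fun i => grad (g i) v) := by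
  intro v1 hv1 hv10
  by_contra hcon
  obtain ⟨i0, hi0⟩ := Function.ne_iff.1 hv10
  set G : Option κ → MvPolynomial τ K := fun o => o.elim h g with hG
  have hGv : ∀ v, (fun o => grad (G o) v) = fun o => Option.elim o (grad h v)
      (fun i => grad (g i) v) := by
    intro v
    funext o
    rcases o with _ | i <;> rfl
  have h1 : LinearIndependent K (fun o => grad (G o) v1) := by
    rw [hGv, li_option]
    exact ⟨hind v1 hv1 hv10, hcon⟩
  obtain ⟨W, hW⟩ := exists_mdet G v1 h1
  have h2 : mdet G W ∉ R := by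
    intro hmem
    have := hv1 _ hmem
    rw [hW] at this
    exact one_ne_zero this
  have h3 : (X i0 : MvPolynomial τ K) ∉ R := by
    intro hmem
    have := hv1 _ hmem
    rw [eval_X] at this
    exact hi0 this
  have h4 : D * mdet G W * X i0 ∉ R := by
    intro hmem
    rcases hR.mem_or_mem hmem with h5 | h5
    · rcases hR.mem_or_mem h5 with h6 | h6
      · exact hD h6
      · exact h2 h6
    · exact h3 h5
  apply h4
  apply mem_of_vanish R hR
  intro v hv
  rw [map_mul, map_mul, eval_X]
  by_cases hv0 : v i0 = 0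
  · rw [hv0, mul_zero]
  · have hvne : v ≠ 0 := fun h0 => hv0 (congrFun h0 i0)
    by_cases hDv : eval v D = 0
    · rw [hDv, zero_mul, zero_mul]
    · have h5 := hgen v hv hvne hDv
      have h6 : eval v (mdet G W) = 0 := by
        by_contra h7
        have h8 := ind_of_mdet G W v h7
        rw [hGv, li_option] at h8
        exact h8.2 h5
      rw [h6, mul_zero, zero_mul]

end Pool.Agent.Run7.h399

/-!
# The locus where a form becomes dependent on given ones
-/

namespace Pool.Agent.Run7.h399

open MvPolynomial Pool.Agent.Run7.h399.Hart Pool.Agent.R948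

variable {τ : Type} [Fintype τ] [DecidableEq τ] {K : Type} [Field K]
  {κ : Type} [Fintype κ] [DecidableEq κ]

lemma dotB_sum_left {ι : Type} (s : Finset ι) (a : ι → K) (b : ι → τ → K) (w : τ → K) :
    dotB τ K (∑ i ∈ s, a i • b i) w = ∑ i ∈ s, a i * dotB τ K (b i) w := by
  rw [map_sum, LinearMap.sum_apply]
  exact Finset.sum_congr rfl (fun i _ => by rw [map_smul, LinearMap.smul_apply, smul_eq_mul])

/-- completing a dual family to one that detects the whole space -/
lemma complete_dual (N : Submodule K (τ → K)) (b : κ → τ → K) (hb : ∀ i, b i ∈ N)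
    (W : κ → τ → K) (hW : ∀ i j, dotB τ K (b i) (W j) = if i = j then 1 else 0) :
    ∃ (s : ℕ) (W' : Fin s → τ → K), Fintype.card κ + s ≤ Module.finrank K N ∧
      ∀ ξ ∈ N, (∀ i, dotB τ K ξ (W i) = 0) → (∀ l, dotB τ K ξ (W' l) = 0) → ξ = 0 := by
  classical
  let Ψ : (τ → K) →ₗ[K] (κ → K) := LinearMap.pi (fun i => (dotB τ K).flip (W i))
  have hΨ : ∀ ξ i, Ψ ξ i = dotB τ K ξ (W i) := fun ξ i => rfl
  let S : Submodule K (τ → K) := N ⊓ LinearMap.ker Ψ
  let B := Module.finBasis K S
  set s := Module.finrank K S with hs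
  have hBi : LinearIndependent K (fun l => ((B l : S) : τ → K)) :=
    B.linearIndependent.map' S.subtype (Submodule.ker_subtype _)
  obtain ⟨W', hW'⟩ := exists_dual_vectors _ hBi
  refine ⟨s, W', ?_, ?_⟩
  · let γ : κ ⊕ Fin s → N := Sum.elim (fun i => ⟨b i, hb i⟩) (fun l => ⟨B l, (B l).2.1⟩)
    have hγ : LinearIndependent K γ := by
      rw [Fintype.linearIndependent_iff]
      intro a ha
      have h1 := congrArg (fun z : N => (z : τ → K)) ha
      simp only [Fintype.sum_sum_type, γ, Sum.elim_inl, Sum.elim_inr, Submodule.coe_add,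
        Submodule.coe_sum, Submodule.coe_smul, Submodule.coe_zero] at h1
      have h2 : ∀ j, a (Sum.inl j) = 0 := by
        intro j
        have h3 := congrArg (fun z => dotB τ K z (W j)) h1
        simp only [map_add, LinearMap.add_apply, dotB_sum_left, hW, map_zero,
          LinearMap.zero_apply] at h3
        have h4 : ∀ l, dotB τ K ((B l : S) : τ → K) (W j) = 0 := by
          intro l
          have h5 : Ψ (B l) = 0 := (B l).2.2
          rw [← hΨ, h5]
          rfl
        simpa [h4] using h3
      have h3 : ∑ l, a (Sum.inr l) • ((B l : S) : τ → K) = 0 := by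
        simpa [h2] using h1
      have h4 := Fintype.linearIndependent_iff.1 hBi _ h3
      intro i
      rcases i with i | l
      · exact h2 i
      · exact h4 l
    have h5 := hγ.fintype_card_le_finrank
    rwa [Fintype.card_sum, Fintype.card_fin] at h5
  · intro ξ hξ h1 h2
    have hξS : ξ ∈ S := ⟨hξ, by
      show Ψ ξ = 0
      funext i
      rw [hΨ, h1]
      rfl⟩
    have h3 := congrArg (fun z : S => (z : τ → K)) (B.sum_repr ⟨ξ, hξS⟩)
    simp only [Submodule.coe_sum, Submodule.coe_smul] at h3
    have h4 : ∀ l, B.repr ⟨ξ, hξS⟩ l = 0 := by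
      intro l
      have h5 := h2 l
      rw [← h3, dotB_sum_left] at h5
      simpa [hW'] using h5
    rw [← h3]
    simp [h4]

/-- a determinant that detects the injectivity of the pairing near a point -/
lemma detect {r : ℕ} (J : Ideal (MvPolynomial τ K)) (v0 : τ → K)
    (hr : Module.finrank K (conormal J v0) = r) (W : κ → τ → K) (hcard : Fintype.card κ ≤ r)
    (hinj : ∀ ξ ∈ conormal J v0, (∀ i, dotB τ K ξ (W i) = 0) → ξ = 0) :
    ∃ D : MvPolynomial τ K, eval v0 D ≠ 0 ∧ ∀ v, Module.finrank K (conormal J v) = r →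
      eval v D ≠ 0 → ∀ ξ ∈ conormal J v, (∀ i, dotB τ K ξ (W i) = 0) → ξ = 0 := by
  classical
  have hGex := exists_basis_grads J v0
  rw [hr] at hGex
  obtain ⟨G, hG, hGind, hGspan⟩ := hGex
  have hcard2 : r ≤ Fintype.card κ := by
    let Ψ : conormal J v0 →ₗ[K] (κ → K) :=
      (LinearMap.pi (fun i => (dotB τ K).flip (W i))).comp (conormal J v0).subtype
    have hΨ : Function.Injective Ψ := by
      rw [← LinearMap.ker_eq_bot, LinearMap.ker_eq_bot']
      intro ξ hξ
      apply Subtype.ext
      exact hinj ξ.1 ξ.2 (fun i => congrFun hξ i)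
    have h1 := LinearMap.finrank_le_finrank_of_injective hΨ
    rwa [hr, Module.finrank_fintype_fun_eq_card] at h1
  let e : Fin r ≃ κ := Fintype.equivOfCardEq (by rw [Fintype.card_fin]; omega)
  let G' : κ → MvPolynomial τ K := fun i => G (e.symm i)
  have hG'ind : LinearIndependent K (fun i => grad (G' i) v0) := hGind.comp _ e.symm.injective
  refine ⟨mdet G' W, ?_, ?_⟩
  · intro h0
    obtain ⟨a, ha, h1⟩ := mdet_zero G' W v0 h0
    apply ha
    have h2 : ∑ i, a i • grad (G' i) v0 = 0 := by
      apply hinj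
      · exact Submodule.sum_mem _ (fun i _ => Submodule.smul_mem _ _
          (grad_mem J v0 (hG (e.symm i))))
      · intro j
        rw [dotB_sum_left]
        exact h1 j
    funext i
    exact Fintype.linearIndependent_iff.1 hG'ind a h2 i
  · intro v hv hD ξ hξ hξW
    have hind := ind_of_mdet G' W v hD
    have hspan : Submodule.span K (Set.range (fun i => grad (G' i) v)) = conormal J v := by
      apply Submodule.eq_of_le_of_finrank_eq
      · rw [Submodule.span_le]
        rintro _ ⟨i, rfl⟩
        exact grad_mem J v (hG (e.symm i))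
      · rw [finrank_span_eq_card hind, hv]
        omega
    rw [← hspan, Submodule.mem_span_range_iff_exists_fun] at hξ
    obtain ⟨a, rfl⟩ := hξ
    have h1 : a = 0 := by
      apply mdet_inj G' W v hD
      intro j
      rw [← dotB_sum_left]
      exact hξW j
    rw [h1]
    simp

theorem step_dead [IsAlgClosed K] {J P : Ideal (MvPolynomial τ K)} [hPp : P.IsPrime] (hP : Hm P)
    {r : ℕ} (hrank : ∀ v ∈ cone P, v ≠ 0 → Module.finrank K (conormal J v) = r)
    (g : κ → MvPolynomial τ K) (dg : κ → ℕ) (hg : ∀ i, (g i).IsHomogeneous (dg i))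
    (hgJ : ∀ i, g i ∈ J)
    (hind : ∀ v ∈ cone P, v ≠ 0 → LinearIndependent K (fun i => grad (g i) v))
    (h : MvPolynomial τ K) (dh : ℕ) (hh : h.IsHomogeneous dh) (hhJ : h ∈ J) (v0 : τ → K)
    (hv0 : v0 ∈ cone P) (hv00 : v0 ≠ 0)
    (hsp : grad h v0 ∈ Submodule.span K (Set.range fun i => grad (g i) v0)) :
    ∃ (R : Ideal (MvPolynomial τ K)) (_ : R.IsPrime), Hm R ∧ P ≤ R ∧ (∃ v ∈ cone R, v ≠ 0) ∧
      tdP P + Fintype.card κ ≤ tdP R + r ∧
      ∀ v ∈ cone R, v ≠ 0 → grad h v ∈ Submodule.span K (Set.range fun i => grad (g i) v) := by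
  classical
  have hind0 := hind v0 hv0 hv00
  obtain ⟨W, hW⟩ := exists_dual' _ hind0
  obtain ⟨s, W', hs, hW'⟩ := complete_dual (conormal J v0) (fun i => grad (g i) v0)
    (fun i => grad_mem J v0 (hgJ i)) W hW
  have hr0 := hrank v0 hv0 hv00
  rw [hr0] at hs
  obtain ⟨D', hD'0, hD'⟩ := detect J v0 hr0 (Sum.elim W W') (by
      rw [Fintype.card_sum, Fintype.card_fin]; exact hs) (by
      intro ξ hξ hall
      exact hW' ξ hξ (fun i => hall (Sum.inl i)) (fun l => hall (Sum.inr l)))
  have hDg : eval v0 (mdet g W) ≠ 0 := by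
    rw [eval_mdet]
    have h2 : (fun i j => dotB τ K (grad (g i) v0) (W j)) = (1 : Matrix κ κ K) := by
      funext i j
      rw [hW, Matrix.one_apply]
    rw [h2, Matrix.det_one]
    exact one_ne_zero
  set G : Option κ → MvPolynomial τ K := fun o => o.elim h g with hG
  have hGv : ∀ v, (fun o => grad (G o) v) = fun o => Option.elim o (grad h v)
      (fun i => grad (g i) v) := by
    intro v
    funext o
    rcases o with _ | i <;> rfl
  set V : Fin s → Option κ → τ → K := fun l o => o.elim (W' l) W with hV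
  have hE0 : ∀ l, mdet G (V l) ∈ mx v0 := by
    intro l
    rw [mem_mx]
    by_contra h1
    have h2 := ind_of_mdet G (V l) v0 h1
    rw [hGv, li_option] at h2
    exact h2.2 hsp
  obtain ⟨R, hR, hRM, hRmin, hle⟩ := exists_cut P (mx v0) hPp (mx_prime v0)
    (fun f hf => (mem_mx v0 f).2 (hv0 f hf)) (fun l => mdet G (V l)) hE0
  have hPR : P ≤ R := le_sup_left.trans hRmin.1.2
  have hER : ∀ l, mdet G (V l) ∈ R := fun l =>
    hRmin.1.2 (Ideal.mem_sup_right (Ideal.subset_span ⟨l, rfl⟩))
  have hv0R : v0 ∈ cone R := fun f hf => (mem_mx v0 f).1 (hRM hf)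
  have hRP : ∀ v ∈ cone R, v ∈ cone P := fun v hv f hf => hv f (hPR hf)
  refine ⟨R, hR, ?_, hPR, ⟨v0, hv0R, hv00⟩, by omega, ?_⟩
  · refine Hm.minimal (Hm.sup hP (hm_span ?_)) hRmin
    rintro _ ⟨l, rfl⟩
    refine ⟨_, mdet_homog G (V l) (fun o => o.elim dh dg) ?_⟩
    intro o
    rcases o with _ | i
    · exact hh
    · exact hg i
  · apply closed_span R g h (mdet g W * D')
    · intro hmem
      have h1 := hv0R _ hmem
      rw [map_mul] at h1
      exact mul_ne_zero hDg hD'0 h1
    · intro v hv hvne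
      exact hind v (hRP v hv) hvne
    · intro v hv hvne hDv
      rw [map_mul] at hDv
      have hDv1 : eval v (mdet g W) ≠ 0 := left_ne_zero_of_mul hDv
      have hDv2 : eval v D' ≠ 0 := right_ne_zero_of_mul hDv
      obtain ⟨a, ha⟩ := mdet_surj g W v hDv1 (fun j => dotB τ K (grad h v) (W j))
      have hξ : grad h v - ∑ i, a i • grad (g i) v = 0 := by
        apply hD' v (hrank v (hRP v hv) hvne) hDv2
        · exact Submodule.sub_mem _ (grad_mem J v hhJ) (Submodule.sum_mem _ (fun i _ =>
            Submodule.smul_mem _ _ (grad_mem J v (hgJ i))))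
        · have hWj : ∀ j, dotB τ K (grad h v - ∑ i, a i • grad (g i) v) (W j) = 0 := by
            intro j
            rw [map_sub, LinearMap.sub_apply, dotB_sum_left, ha j, sub_self]
          intro j
          rcases j with j | l
          · exact hWj j
          · obtain ⟨b, hb, h1⟩ := mdet_zero G (V l) v (hv _ (hER l))
            have h2 : ∀ w : τ → K, ∀ o : Option κ, V l o = w →
                b none * dotB τ K (grad h v) w +
                  ∑ i, b (some i) * dotB τ K (grad (g i) v) w = 0 := by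
              intro w o ho
              have h3 := h1 o
              rw [Fintype.sum_option, ho] at h3
              exact h3
            have h3 : ∀ i, b none * a i + b (some i) = 0 := by
              have h4 := mdet_inj g W v hDv1 (fun i => b none * a i + b (some i)) (by
                intro j
                have h5 := h2 (W j) (some j) rfl
                rw [← ha j, Finset.mul_sum, ← Finset.sum_add_distrib] at h5
                rw [← h5]
                exact Finset.sum_congr rfl (fun i _ => by ring))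
              exact fun i => congrFun h4 i
            have hbn : b none ≠ 0 := by
              intro h0
              apply hb
              funext o
              rcases o with _ | i
              · exact h0
              · have := h3 i
                rw [h0, zero_mul, zero_add] at this
                exact this
            have h4 := h2 (W' l) none rfl
            have h5 : b none * dotB τ K (grad h v - ∑ i, a i • grad (g i) v) (W' l) = 0 := by
              rw [map_sub, LinearMap.sub_apply, dotB_sum_left, mul_sub, ← h4, Finset.mul_sum]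
              have h6 : ∑ i, b (some i) * dotB τ K (grad (g i) v) (W' l) =
                  - ∑ i, b none * (a i * dotB τ K (grad (g i) v) (W' l)) := by
                rw [← Finset.sum_neg_distrib]
                refine Finset.sum_congr rfl (fun i _ => ?_)
                have h7 : b (some i) = - (b none * a i) := by
                  linear_combination h3 i
                rw [h7]
                ring
              rw [h6]
              ring
            exact (mul_eq_zero.1 h5).resolve_left hbn
      rw [sub_eq_zero.1 hξ]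
      exact Submodule.sum_mem _ (fun i _ => Submodule.smul_mem _ _
        (Submodule.subset_span ⟨i, rfl⟩))

end Pool.Agent.Run7.h399

/-!
# Independence spreads from a large subvariety to the whole component
-/

namespace Pool.Agent.Run7.h399

open MvPolynomial Pool.Agent.Run7.h399.Hart Pool.Agent.R948

variable {τ : Type} [Fintype τ] [DecidableEq τ] {K : Type} [Field K]

/-- at a general point of a component, the ideal of the component is locally the radical -/
lemma general_radical' [IsAlgClosed K] (q P : Ideal (MvPolynomial τ K)) (hP : P ∈ q.minimalPrimes)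
    (D : MvPolynomial τ K) (hD : D ∉ P) :
    ∃ w ∈ cone P, eval w D ≠ 0 ∧ ∀ f ∈ P, ∃ a, eval w a ≠ 0 ∧ ∃ N : ℕ, a * f ^ N ∈ q := by
  classical
  haveI := hP.1.1
  have hfin := Ideal.finite_minimalPrimes_of_isNoetherianRing _ q
  set S := hfin.toFinset.erase P with hS
  have h1 : ∀ Q ∈ S, ∃ h, h ∈ Q ∧ h ∉ P := by
    intro Q hQ
    rw [hS, Finset.mem_erase, Set.Finite.mem_toFinset] at hQ
    by_contra hcon
    push Not at hcon
    have h2 : Q ≤ P := fun f hf => hcon f hf
    have h3 := hP.2 hQ.2.1 h2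
    exact hQ.1 (le_antisymm h2 h3)
  choose! h h2 h3 using h1
  set a : MvPolynomial τ K := ∏ Q ∈ S, h Q with ha
  have haP : a ∉ P := by
    rw [ha]
    intro h4
    obtain ⟨Q, hQ, h5⟩ := (Ideal.IsPrime.prod_mem_iff).1 h4
    exact h3 Q hQ h5
  have hex : ∃ w ∈ cone P, eval w (a * D) ≠ 0 := by
    by_contra hcon
    push Not at hcon
    rcases hP.1.1.mem_or_mem (mem_of_vanish P hP.1.1 _ hcon) with h4 | h4
    · exact haP h4
    · exact hD h4
  obtain ⟨w, hw, hwa⟩ := hex
  rw [map_mul] at hwa
  refine ⟨w, hw, right_ne_zero_of_mul hwa, fun f hf => ?_⟩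
  have h4 : a * f ∈ q.radical := by
    rw [← Ideal.sInf_minimalPrimes, Submodule.mem_sInf]
    intro Q hQ
    by_cases hQP : Q = P
    · rw [hQP]; exact P.mul_mem_left _ hf
    · have h5 : Q ∈ S := by
        rw [hS, Finset.mem_erase, Set.Finite.mem_toFinset]
        exact ⟨hQP, hQ⟩
      refine Ideal.mul_mem_right _ _ ?_
      rw [ha, ← Finset.prod_erase_mul _ _ h5]
      exact Ideal.mul_mem_left _ _ (h2 Q h5)
  obtain ⟨N, hN⟩ := h4
  refine ⟨a ^ N, ?_, N, ?_⟩
  · rw [map_pow]; exact pow_ne_zero _ (left_ne_zero_of_mul hwa)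
  · rwa [← mul_pow]

theorem spread [IsAlgClosed K] {J : Ideal (MvPolynomial τ K)}
    (harcs : ∀ v ∈ cone J, v ≠ 0 → Arcs J v) (Y : Ideal (MvPolynomial τ K)) [hY : Y.IsPrime]
    (hYmin : Y ∈ J.minimalPrimes) {r : ℕ} (hYdim : tdP Y + r = Fintype.card τ)
    (P : Ideal (MvPolynomial τ K)) [hPp : P.IsPrime] (hP : Hm P) (hlt : r + 1 < tdP P)
    (G : Fin r → MvPolynomial τ K) (dg : Fin r → ℕ) (hG : ∀ i, (G i).IsHomogeneous (dg i))
    (hGJ : ∀ i, G i ∈ J)
    (hind : ∀ v ∈ cone P, v ≠ 0 → LinearIndependent K (fun i => grad (G i) v)) :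
    ∀ v ∈ cone Y, v ≠ 0 → LinearIndependent K (fun i => grad (G i) v) := by
  classical
  haveI := IsAlgClosed.instInfinite (K := K)
  intro v1 hv1 hv10
  by_contra hdep
  obtain ⟨i0, hi0⟩ := Function.ne_iff.1 hv10
  have hv1J : v1 ∈ cone J := fun g hg => hv1 g (hYmin.1.2 hg)
  have hr1 : Module.finrank K (conormal J v1) = r := by
    have := tdP_eq_of_arcs hv1J (harcs v1 hv1J hv10) Y hYmin hv1
    omega
  have hGex := exists_basis_grads J v1
  rw [hr1] at hGex
  obtain ⟨G0, hG0, hG0ind, -⟩ := hGex
  obtain ⟨W, hW⟩ := exists_mdet G0 v1 hG0ind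
  set E := mdet G W with hE
  have hE1 : eval v1 E = 0 := by
    by_contra h
    exact hdep (ind_of_mdet G W v1 h)
  have hle : J ⊔ Ideal.span {E} ≤ mx v1 := by
    refine sup_le (fun f hf => (mem_mx v1 f).2 (hv1J f hf)) ?_
    rw [Ideal.span_singleton_le_iff_mem]
    exact (mem_mx v1 E).2 hE1
  obtain ⟨q, hq, hqM⟩ := Ideal.exists_minimalPrimes_le hle
  have hqp : q.IsPrime := hq.1.1
  have hv1q : v1 ∈ cone q := fun f hf => (mem_mx v1 f).1 (hqM hf)
  have hJq : J ≤ q := le_sup_left.trans hq.1.2
  have hEq : E ∈ q := hq.1.2 (Ideal.mem_sup_right (Ideal.mem_span_singleton_self E))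
  obtain ⟨Y', hY', hY'q⟩ := Ideal.exists_minimalPrimes_le hJq
  have hY'p : Y'.IsPrime := hY'.1.1
  have hY'dim : tdP Y' + r = Fintype.card τ := by
    have := tdP_eq_of_arcs hv1J (harcs v1 hv1J hv10) Y' hY' (fun f hf => hv1q f (hY'q hf))
    omega
  have hqJ : ∀ v ∈ cone q, v ∈ cone J := fun v hv f hf => hv f (hJq hf)
  have hrank : ∀ v ∈ cone q, v ≠ 0 → Module.finrank K (conormal J v) = r := by
    intro v hv hv0
    have := tdP_eq_of_arcs (hqJ v hv) (harcs v (hqJ v hv) hv0) Y' hY' (fun f hf => hv f (hY'q hf))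
    omega
  have hXq : (X i0 : MvPolynomial τ K) ∉ q := by
    intro hmem
    have := hv1q _ hmem
    rw [eval_X] at this
    exact hi0 this
  have hDq : mdet G0 W ∉ q := by
    intro hmem
    have := hv1q _ hmem
    rw [hW] at this
    exact one_ne_zero this
  have hall : ∀ W', mdet G W' ∈ q := by
    intro W'
    have h1 : mdet G0 W * X i0 * mdet G W' ∈ q := by
      apply mem_of_vanish q hqp
      intro v hv
      rw [map_mul, map_mul, eval_X]
      by_cases hv0 : v i0 = 0
      · rw [hv0, mul_zero, zero_mul]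
      · have hvne : v ≠ 0 := fun h0 => hv0 (congrFun h0 i0)
        by_cases hDv : eval v (mdet G0 W) = 0
        · rw [hDv, zero_mul, zero_mul]
        · have h2 : eval v (mdet G W') = 0 := by
            by_contra h3
            have h4 := ind_of_mdet G W' v h3
            obtain ⟨a, ha, h5⟩ := mdet_zero G W v (hv E hEq)
            apply ha
            have h6 : ∑ i, a i • grad (G i) v = 0 := by
              have h7 : ∑ i, a i • grad (G i) v ∈ conormal J v :=
                Submodule.sum_mem _ (fun i _ => Submodule.smul_mem _ _ (grad_mem J v (hGJ i)))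
              have hspan : Submodule.span K (Set.range (fun i => grad (G0 i) v)) =
                  conormal J v := by
                apply Submodule.eq_of_le_of_finrank_eq
                · rw [Submodule.span_le]
                  rintro _ ⟨i, rfl⟩
                  exact grad_mem J v (hG0 i)
                · rw [finrank_span_eq_card (ind_of_mdet G0 W v hDv), Fintype.card_fin,
                    hrank v hv hvne]
              rw [← hspan, Submodule.mem_span_range_iff_exists_fun] at h7
              obtain ⟨b, hb⟩ := h7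
              have h8 : b = 0 := by
                apply mdet_inj G0 W v hDv
                intro j
                rw [← dotB_sum_left, hb, dotB_sum_left]
                exact h5 j
              rw [← hb, h8]
              simp
            funext i
            exact Fintype.linearIndependent_iff.1 h4 a h6 i
          rw [h2, mul_zero]
    rcases hqp.mem_or_mem h1 with h2 | h2
    · rcases hqp.mem_or_mem h2 with h3 | h3
      · exact absurd h3 hDq
      · exact absurd h3 hXq
    · exact h2
  obtain ⟨w, hw, hwX, hrad⟩ := general_radical' _ q hq (X i0) hXq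
  have hw0 : w ≠ 0 := by
    rintro rfl
    apply hwX
    rw [eval_X]
    rfl
  have hwex := exists_basis_grads J w
  rw [hrank w hw hw0] at hwex
  obtain ⟨Gw, hGw, hGwind, hGwspan⟩ := hwex
  have hloc := locgen (hqJ w hw) (harcs w (hqJ w hw) hw0) Gw hGw hGwind hGwspan
  have hle2 : Ideal.span (Set.range Gw) ≤
      Ideal.span (Set.range (Fin.snoc Gw E : Fin (r + 1) → MvPolynomial τ K)) := by
    apply Ideal.span_mono
    rintro _ ⟨i, rfl⟩
    exact ⟨i.castSucc, by rw [Fin.snoc_castSucc]⟩
  obtain ⟨y, hy, hy0, hyq⟩ := join (e := r + 1) P hP LinearMap.id q w hw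
    (Fin.snoc Gw E : Fin (r + 1) → MvPolynomial τ K) (by
      intro i
      induction i using Fin.lastCases with
      | last => rw [Fin.snoc_last]; exact hEq
      | cast i => rw [Fin.snoc_castSucc]; exact hJq (hGw i)) (by
      intro f hf
      obtain ⟨a, ha, N, haf⟩ := hrad f hf
      obtain ⟨j, hj, b, hb, hjb⟩ := Submodule.mem_sup.1 haf
      obtain ⟨a', ha', ha'j⟩ := hloc j hj
      refine ⟨a' * a, ?_, N, ?_⟩
      · rw [map_mul, ha', one_mul]; exact ha
      · rw [mul_assoc, ← hjb, mul_add]
        refine Ideal.add_mem _ (hle2 ha'j) ?_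
        obtain ⟨b', rfl⟩ := Ideal.mem_span_singleton.1 hb
        have h1 : E ∈ Ideal.span (Set.range (Fin.snoc Gw E : Fin (r + 1) → MvPolynomial τ K)) :=
          Ideal.subset_span ⟨Fin.last r, by rw [Fin.snoc_last]⟩
        exact Ideal.mul_mem_left _ _ (Ideal.mul_mem_right _ _ h1)) hlt
  obtain ⟨W', hW'⟩ := exists_mdet G y (hind y hy hy0)
  have h1 := (hyq _ (hall W') _ (mdet_homog G W' dg hG)).1
  rw [LinearMap.id_apply, hW'] at h1
  exact one_ne_zero h1

end Pool.Agent.Run7.h399

/-!
# The equations of the variety of lines, ordered by degree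
-/

namespace Pool.Agent.Run7.h399

open MvPolynomial Pool.Agent.Run7.h399.Hart Pool.Agent.R948

variable {σ τ : Type} [Fintype σ] [DecidableEq σ] [Fintype τ] [DecidableEq τ]
  {K : Type} [Field K]

/-- double orthogonality -/
lemma mem_iff_orth (N : Submodule K (τ → K)) (ξ : τ → K) :
    ξ ∈ N ↔ ∀ u, (∀ η ∈ N, dotB τ K η u = 0) → dotB τ K ξ u = 0 := by
  constructor
  · intro h u hu
    exact hu ξ h
  · intro h
    have h1 : (dotB τ K).orthogonal ((dotB τ K).orthogonal N) = N :=
      LinearMap.BilinForm.orthogonal_orthogonal dotB_nondegenerate dotB_refl _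
    rw [← h1, LinearMap.BilinForm.mem_orthogonal_iff]
    intro u hu
    change dotB τ K u ξ = 0
    rw [dotB_comm]
    apply h
    intro η hη
    exact (LinearMap.BilinForm.mem_orthogonal_iff.1 hu) η hη

lemma mem_span_orth {ι : Type} (S : Set ι) (b : ι → τ → K) (ξ : τ → K) :
    ξ ∈ Submodule.span K (b '' S) ↔
      ∀ u, (∀ i ∈ S, dotB τ K (b i) u = 0) → dotB τ K ξ u = 0 := by
  rw [mem_iff_orth]
  constructor
  · intro h u hu
    apply h
    intro η hη
    induction hη using Submodule.span_induction with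
    | mem η hη => obtain ⟨i, hi, rfl⟩ := hη; exact hu i hi
    | zero => simp
    | add a b _ _ ha hb => rw [map_add, LinearMap.add_apply, ha, hb, add_zero]
    | smul c a _ ha => rw [map_smul, LinearMap.smul_apply, ha, smul_zero]
  · intro h u hu
    apply h
    intro i hi
    exact hu _ (Submodule.subset_span ⟨i, hi, rfl⟩)

/-- the candidates: the coefficients of the expansions, ordered by degree -/
noncomputable def cand {c : ℕ} (hc : 0 < c) (x : σ → K) (A : (τ → K) →ₗ[K] (σ → K))
    (F : Fin c → MvPolynomial σ K) (s : ℕ) : MvPolynomial τ K :=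
  (lexp x A (F ⟨s % c, Nat.mod_lt s hc⟩)).coeff (s / c)

lemma cand_eq {c : ℕ} (hc : 0 < c) (x : σ → K) (A : (τ → K) →ₗ[K] (σ → K))
    (F : Fin c → MvPolynomial σ K) (l : ℕ) (m : Fin c) :
    cand hc x A F (l * c + m) = (lexp x A (F m)).coeff l := by
  have h1 : (l * c + m) / c = l := by
    rw [mul_comm, Nat.mul_add_div hc, Nat.div_eq_of_lt m.2, add_zero]
  have h2 : (l * c + m) % c = m := by
    rw [mul_comm, Nat.mul_add_mod, Nat.mod_eq_of_lt m.2]
  have h3 : (⟨(l * c + m) % c, Nat.mod_lt _ hc⟩ : Fin c) = m := Fin.ext h2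
  rw [cand, h1, h3]

lemma cand_homog {c : ℕ} (hc : 0 < c) (x : σ → K) (A : (τ → K) →ₗ[K] (σ → K))
    (F : Fin c → MvPolynomial σ K) (s : ℕ) : (cand hc x A F s).IsHomogeneous (s / c) :=
  lexp_coeff_homog x A _ _

lemma cand_mem {I : Ideal (MvPolynomial σ K)} {c : ℕ} (hc : 0 < c) (x : σ → K)
    (A : (τ → K) →ₗ[K] (σ → K)) (F : Fin c → MvPolynomial σ K) (hF : ∀ i, F i ∈ I) (s : ℕ) :
    cand hc x A F s ∈ linesI I x A := Ideal.subset_span ⟨_, hF _, _, rfl⟩

lemma lexp_coeff_zero [Infinite K] {x : σ → K} (A : (τ → K) →ₗ[K] (σ → K))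
    {f : MvPolynomial σ K} (hf : eval x f = 0) : (lexp x A f).coeff 0 = 0 := by
  apply MvPolynomial.funext
  intro u
  have h1 := lexp_evalC x A f 0 u
  rw [zero_smul, add_zero, hf, map_zero, ← Polynomial.coeff_zero_eq_eval_zero] at h1
  rw [h1, map_zero]

lemma grad_zero (v : τ → K) : grad (0 : MvPolynomial τ K) v = 0 := by
  funext i
  simp [grad]

/-- the pairing of the gradient of a coefficient -/
lemma grad_coeff_zero [Infinite K] {x : σ → K} (A : (τ → K) →ₗ[K] (σ → K))
    {f : MvPolynomial σ K} (hf : eval x f = 0) (v : τ → K) :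
    grad ((lexp x A f).coeff 0) v = 0 := by
  rw [lexp_coeff_zero A hf, grad_zero]

lemma dl_base [Infinite K] {I : Ideal (MvPolynomial σ K)} {c : ℕ} {x v : σ → K}
    (hfl : FreeLine I c x v) (f : MvPolynomial σ K) (hf : f ∈ I) : dl x v f (cv x) = 0 := by
  apply Polynomial.funext
  intro t
  rw [dl_eval, Polynomial.eval_zero]
  have h6 : (fun i => (cv x i).eval t) = x := by funext i; simp [cv]
  rw [h6]
  exact (mem_tangent I _ _).1 (base_tangent hfl t) f hf

/-- **Dependence persists in the next degree.** -/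
theorem cand_dead [IsAlgClosed K] {I : Ideal (MvPolynomial σ K)} {c : ℕ} {x : σ → K}
    {A : (τ → K) →ₗ[K] (σ → K)} (h : FreePt I c x A) (hc : 0 < c)
    (F : Fin c → MvPolynomial σ K) (hF : ∀ i, F i ∈ I)
    (hFs : ∀ ξ ∈ conormal I x, ∃ a : Fin c → K, ξ = ∑ i, a i • grad (F i) x)
    (v : τ → K) (hv : v ∈ cone (linesI I x A)) (hv0 : v ≠ 0) (s : ℕ) (hs : 2 * c ≤ s)
    (hd : grad (cand hc x A F s) v ∈
      Submodule.span K ((fun t => grad (cand hc x A F t) v) '' Set.Iio s)) :
    grad (cand hc x A F (s + c)) v ∈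
      Submodule.span K ((fun t => grad (cand hc x A F t) v) '' Set.Iio (s + c)) := by
  haveI := IsAlgClosed.instInfinite (K := K)
  rw [mem_span_orth] at hd ⊢
  intro u' hu'
  have hfl := h.freeLine v hv hv0
  obtain ⟨j, i, hi, rfl⟩ : ∃ j i : ℕ, i < c ∧ s = j * c + i :=
    ⟨s / c, s % c, Nat.mod_lt s hc, (Nat.div_add_mod' s c).symm⟩
  have hj : 2 ≤ j := by
    by_contra hj
    have h1 : j ≤ 1 := by omega
    have h2 : j * c ≤ 1 * c := Nat.mul_le_mul_right c h1
    omega
  have hc1 : ∀ l, l < j → ∀ m : Fin c, (dl x (A v) (F m) (cv (A u'))).coeff l = 0 := by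
    intro l hl m
    have h1 := hu' ((l + 1) * c + m) (by
      have h2 : (l + 1) * c ≤ j * c := Nat.mul_le_mul_right c hl
      have := m.2
      simp only [Set.mem_Iio]
      omega)
    rw [cand_eq, grad_lexp] at h1
    exact h1
  have hc2 : ∀ m : Fin c, (m : ℕ) < i → (dl x (A v) (F m) (cv (A u'))).coeff j = 0 := by
    intro m hm
    have h1 := hu' ((j + 1) * c + m) (by
      simp only [Set.mem_Iio]
      rw [add_mul, one_mul]
      omega)
    rw [cand_eq, grad_lexp] at h1
    exact h1
  obtain ⟨w2, hw2⟩ := hfl.free (A u') (h.tan u')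
  have hdl : ∀ f ∈ I, dl x (A v) f (cv (A u')) =
      - (Polynomial.X * dl x (A v) f (cv w2)) := by
    intro f hf
    have h1 : dl x (A v) f (cv (A u') + (Polynomial.X : Polynomial K) • cv w2) = 0 := by
      apply Polynomial.funext
      intro t
      rw [dl_eval, Polynomial.eval_zero]
      have h6 : (fun i => ((cv (A u') + (Polynomial.X : Polynomial K) • cv w2) i).eval t) =
          A u' + t • w2 := by
        funext i
        simp [cv]
        ring
      rw [h6]
      exact (mem_tangent I _ _).1 (hw2 t) f hf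
    rw [dl_add, dl_smul] at h1
    exact eq_neg_of_add_eq_zero_left h1
  have hsh : ∀ f ∈ I, ∀ l, (dl x (A v) f (cv w2)).coeff l =
      - (dl x (A v) f (cv (A u'))).coeff (l + 1) := by
    intro f hf l
    rw [hdl f hf, Polynomial.coeff_neg, Polynomial.coeff_X_mul, neg_neg]
  have hw2t : w2 ∈ tangent I x := by
    rw [mem_tangent]
    intro f hf
    obtain ⟨a, ha⟩ := hFs _ (grad_mem I x hf)
    rw [ha, dotB_sum_left]
    refine Finset.sum_eq_zero (fun m _ => ?_)
    have h1 := hsh (F m) (hF m) 0
    rw [hc1 (0 + 1) (by omega) m, neg_zero, Polynomial.coeff_zero_eq_eval_zero, dl_eval,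
      zero_smul, add_zero] at h1
    have h2 : (fun i => (cv w2 i).eval 0) = w2 := at0_cv w2
    rw [h2] at h1
    rw [h1, mul_zero]
  obtain ⟨α, u'', hu''⟩ := h.tan' w2 hw2t
  have hdu : ∀ f ∈ I, dl x (A v) f (cv (A u'')) = dl x (A v) f (cv w2) := by
    intro f hf
    rw [hu'', cv_add, cv_smul, dl_add, dl_smul, dl_base hfl f hf, mul_zero, zero_add]
  have hkey := hd u'' (by
    intro t ht
    simp only [Set.mem_Iio] at ht
    obtain ⟨l, m, hm, rfl⟩ : ∃ l m : ℕ, m < c ∧ t = l * c + m :=
      ⟨t / c, t % c, Nat.mod_lt t hc, (Nat.div_add_mod' t c).symm⟩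
    have hce := cand_eq hc x A F l ⟨m, hm⟩
    simp only at hce
    rcases l with _ | l
    · rw [hce, grad_coeff_zero A (h.mem _ (hF _)), map_zero, LinearMap.zero_apply]
    · rw [hce, grad_lexp, hdu _ (hF _), hsh _ (hF _)]
      have h1 : l + 1 ≤ j := by
        by_contra h2
        have h3 : (j + 1) * c ≤ (l + 1) * c := Nat.mul_le_mul_right c (by omega)
        rw [add_mul, one_mul] at h3
        omega
      rcases Nat.lt_or_ge (l + 1) j with h2 | h2
      · rw [hc1 (l + 1) h2, neg_zero]
      · have h3 : l + 1 = j := by omega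
        subst h3
        rw [hc2 ⟨m, hm⟩ (by simp only; omega), neg_zero])
  have hce := cand_eq hc x A F j ⟨i, hi⟩
  simp only at hce
  obtain ⟨j', rfl⟩ : ∃ j', j = j' + 1 := ⟨j - 1, by omega⟩
  rw [hce, grad_lexp, hdu _ (hF _), hsh _ (hF _), neg_eq_zero] at hkey
  have hce2 := cand_eq hc x A F (j' + 1 + 1) ⟨i, hi⟩
  simp only at hce2
  have h9 : (j' + 1) * c + i + c = (j' + 1 + 1) * c + i := by ring
  rw [h9, hce2, grad_lexp]
  exact hkey

/-- the gradients of all elements of `I` along the line are controlled by the chosen ones -/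
lemma dl_of_frame [IsAlgClosed K] {I : Ideal (MvPolynomial σ K)} {c : ℕ} {x : σ → K}
    {A : (τ → K) →ₗ[K] (σ → K)} (h : FreePt I c x A)
    (F : Fin c → MvPolynomial σ K) (hF : ∀ i, F i ∈ I)
    (hind : LinearIndependent K (fun i => grad (F i) x))
    (v : τ → K) (hv : v ∈ cone (linesI I x A)) (w : σ → K)
    (hall : ∀ m, dl x (A v) (F m) (cv w) = 0) (f : MvPolynomial σ K) (hf : f ∈ I) :
    dl x (A v) f (cv w) = 0 := by
  classical
  haveI := IsAlgClosed.instInfinite (K := K)
  by_contra hne
  obtain ⟨W, hW⟩ := exists_mdet F x hind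
  have hq : line (mdet F W) x (A v) ≠ 0 := by
    intro h0
    have h1 := eval_line (mdet F W) x (A v) 0
    rw [h0, Polynomial.eval_zero, zero_smul, add_zero, hW] at h1
    exact zero_ne_one h1
  apply mul_ne_zero hne hq
  apply Polynomial.funext
  intro t
  rw [Polynomial.eval_mul, Polynomial.eval_zero, eval_line]
  by_cases h1 : eval (x + t • A v) (mdet F W) = 0
  · rw [h1, mul_zero]
  · have hy : x + t • A v ∈ cone I := (mem_linesI_cone I x A v).1 hv t
    have hy0 : x + t • A v ≠ 0 := by
      intro h0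
      have h2 : (1 : K) • x = A (-(t • v)) := by
        rw [one_smul, map_neg, map_smul]
        exact eq_neg_of_add_eq_zero_left h0
      exact one_ne_zero (h.notMem 1 _ h2)
    have hi := ind_of_mdet F W _ h1
    have hspan : Submodule.span K (Set.range (fun i => grad (F i) (x + t • A v))) =
        conormal I (x + t • A v) := by
      apply Submodule.eq_of_le_of_finrank_eq
      · rw [Submodule.span_le]
        rintro _ ⟨i, rfl⟩
        exact grad_mem I _ (hF i)
      · rw [finrank_span_eq_card hi, Fintype.card_fin, h.sc.rank _ hy hy0]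
    have h2 := grad_mem I (x + t • A v) hf
    rw [← hspan, Submodule.mem_span_range_iff_exists_fun] at h2
    obtain ⟨a, ha⟩ := h2
    have h3 : (dl x (A v) f (cv w)).eval t = 0 := by
      rw [dl_eval]
      have h6 : (fun i => (cv w i).eval t) = w := by funext i; simp [cv]
      rw [h6, ← ha, dotB_sum_left]
      refine Finset.sum_eq_zero (fun m _ => ?_)
      have h4 := congrArg (fun p => Polynomial.eval t p) (hall m)
      simp only [dl_eval, Polynomial.eval_zero] at h4
      rw [h6] at h4
      rw [h4, mul_zero]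
    rw [h3, zero_mul]

/-- **The candidates span the conormal space.** -/
theorem cand_span [IsAlgClosed K] {I : Ideal (MvPolynomial σ K)} {c : ℕ} {x : σ → K}
    {A : (τ → K) →ₗ[K] (σ → K)} (h : FreePt I c x A) (hc : 0 < c)
    (F : Fin c → MvPolynomial σ K) (hF : ∀ i, F i ∈ I)
    (hind : LinearIndependent K (fun i => grad (F i) x))
    (v : τ → K) (hv : v ∈ cone (linesI I x A)) (s : ℕ)
    (hd : ∀ t, s ≤ t → grad (cand hc x A F t) v ∈
      Submodule.span K ((fun t => grad (cand hc x A F t) v) '' Set.Iio t)) :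
    conormal (linesI I x A) v ≤
      Submodule.span K ((fun t => grad (cand hc x A F t) v) '' Set.Iio s) := by
  haveI := IsAlgClosed.instInfinite (K := K)
  intro ξ hξ
  rw [mem_span_orth]
  intro u' hu'
  have hall : ∀ t, dotB τ K (grad (cand hc x A F t) v) u' = 0 := by
    intro t
    induction t using Nat.strong_induction_on with
    | _ t ih =>
      rcases Nat.lt_or_ge t s with h1 | h1
      · exact hu' t h1
      · have h2 := hd t h1
        rw [mem_span_orth] at h2
        exact h2 u' (fun i hi => ih i hi)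
  have hdl : ∀ m, dl x (A v) (F m) (cv (A u')) = 0 := by
    intro m
    ext l
    have h1 := hall ((l + 1) * c + m)
    rw [cand_eq, grad_lexp] at h1
    rw [h1, Polynomial.coeff_zero]
  have hdlf := fun f hf => dl_of_frame h F hF hind v hv (A u') hdl f hf
  have hJ : ∀ g ∈ linesI I x A, eval v g = 0 ∧ dotB τ K (grad g v) u' = 0 := by
    intro g hg
    refine ⟨hv g hg, ?_⟩
    have h0 : ∀ g ∈ linesI I x A, g ∈ linesI I x A ∧ dotB τ K (grad g v) u' = 0 := by
      intro g hg
      refine Submodule.span_induction ?_ ?_ ?_ ?_ hg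
      · rintro _ ⟨f, hf, k, rfl⟩
        refine ⟨Ideal.subset_span ⟨f, hf, k, rfl⟩, ?_⟩
        rcases k with _ | k
        · rw [grad_coeff_zero A (h.mem _ hf), map_zero, LinearMap.zero_apply]
        · rw [grad_lexp, hdlf f hf, Polynomial.coeff_zero]
      · exact ⟨Ideal.zero_mem _, by rw [grad_zero, map_zero, LinearMap.zero_apply]⟩
      · intro a b _ _ ha hb
        refine ⟨Ideal.add_mem _ ha.1 hb.1, ?_⟩
        rw [grad_add, map_add, LinearMap.add_apply, ha.2, hb.2, add_zero]
      · intro a b _ hb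
        refine ⟨Ideal.mul_mem_left _ _ hb.1, ?_⟩
        rw [smul_eq_mul, grad_mul, hv b hb.1, zero_smul, zero_add, map_smul,
          LinearMap.smul_apply, hb.2, smul_zero]
    exact (h0 g hg).2
  obtain ⟨g, hg, rfl⟩ := exists_grad _ v ξ hξ
  exact (hJ g hg).2

end Pool.Agent.Run7.h399
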