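import Mathlib

/-!
# Basic facts on cones, tangent and conormal spaces

This file collects the lemmas of `Pool.Agent.H929R2.Hart` that are used here, so that they can be
imported without the rest of that development.
-/

-- from Pool.Agent.H929R2.Hart.Basic
set_option autoImplicit false
set_option maxHeartbeats 400000

namespace Pool.Agent.Run7.h399.Hart

open MvPolynomial

variable {σ : Type} [Fintype σ] {K : Type} [Field K]

/-- The gradient of the polynomial `F` at the point `x`. -/
noncomputable def grad (F : MvPolynomial σ K) (x : σ → K) : σ → K :=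
  fun i => eval x (pderiv i F)

/-- The common zeros in `K^σ` of the polynomials in `I` (the affine cone over the projective
variety, together with `0`, when `I` is homogeneous). -/
def cone (I : Ideal (MvPolynomial σ K)) : Set (σ → K) := {x | ∀ F ∈ I, eval x F = 0}

/-- The conormal space at `x`: the span of the gradients at `x` of the elements of `I`. -/
noncomputable def conormal (I : Ideal (MvPolynomial σ K)) (x : σ → K) : Submodule K (σ → K) :=
  Submodule.span K {ξ | ∃ F ∈ I, ξ = grad F x}

/-- The standard dot product. -/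
noncomputable def dotB (σ : Type) [Fintype σ] (K : Type) [Field K] :
    LinearMap.BilinForm K (σ → K) := by
  classical exact Matrix.toBilin' (1 : Matrix σ σ K)

lemma dotB_apply (x y : σ → K) : dotB σ K x y = ∑ i, x i * y i := by
  classical
  simp [dotB, Matrix.toBilin'_apply', dotProduct]

lemma dotB_nondegenerate : (dotB σ K).Nondegenerate := by
  classical
  apply LinearMap.BilinForm.nondegenerate_toBilin'_of_det_ne_zero'
  simp

lemma dotB_comm (x y : σ → K) : dotB σ K x y = dotB σ K y x := by
  rw [dotB_apply, dotB_apply]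
  exact Finset.sum_congr rfl (fun i _ => mul_comm _ _)

lemma dotB_refl : (dotB σ K).IsRefl := by
  intro x y h
  rw [dotB_comm]; exact h

/-- The (affine) tangent space at `x`. -/
noncomputable def tangent (I : Ideal (MvPolynomial σ K)) (x : σ → K) : Submodule K (σ → K) :=
  (dotB σ K).orthogonal (conormal I x)

lemma grad_mem (I : Ideal (MvPolynomial σ K)) (x : σ → K) {F : MvPolynomial σ K} (hF : F ∈ I) :
    grad F x ∈ conormal I x := Submodule.subset_span ⟨F, hF, rfl⟩

lemma mem_tangent (I : Ideal (MvPolynomial σ K)) (x v : σ → K) :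
    v ∈ tangent I x ↔ ∀ F ∈ I, dotB σ K (grad F x) v = 0 := by
  rw [tangent, LinearMap.BilinForm.mem_orthogonal_iff]
  constructor
  · intro h F hF
    exact h _ (grad_mem I x hF)
  · intro h ξ hξ
    induction hξ using Submodule.span_induction with
    | mem ξ hξ => obtain ⟨F, hF, rfl⟩ := hξ; exact h F hF
    | zero => simp
    | add a b _ _ ha hb => simp [ha, hb]
    | smul c a _ ha => simp [ha]

lemma finrank_tangent (I : Ideal (MvPolynomial σ K)) (x : σ → K) :
    Module.finrank K (conormal I x) + Module.finrank K (tangent I x) = Fintype.card σ := by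
  have h := LinearMap.BilinForm.finrank_orthogonal dotB_nondegenerate (conormal I x)
  have h2 := Submodule.finrank_le (conormal I x)
  rw [Module.finrank_fintype_fun_eq_card] at h h2
  rw [tangent, h]
  omega

lemma mem_conormal_iff (I : Ideal (MvPolynomial σ K)) (x : σ → K) (ξ : σ → K) :
    ξ ∈ conormal I x ↔ ∀ v ∈ tangent I x, dotB σ K ξ v = 0 := by
  have h : (dotB σ K).orthogonal (tangent I x) = conormal I x :=
    LinearMap.BilinForm.orthogonal_orthogonal dotB_nondegenerate dotB_refl _
  rw [← h, LinearMap.BilinForm.mem_orthogonal_iff]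
  constructor
  · intro h v hv
    rw [dotB_comm]; exact h v hv
  · intro h v hv
    rw [dotB_comm]; exact h v hv

lemma tangent_conormal (I : Ideal (MvPolynomial σ K)) (x : σ → K) {ξ v : σ → K}
    (hξ : ξ ∈ conormal I x) (hv : v ∈ tangent I x) : dotB σ K ξ v = 0 :=
  (mem_conormal_iff I x ξ).1 hξ v hv

omit [Fintype σ] in
/-- Every element of the conormal space is a gradient. -/
lemma exists_grad (I : Ideal (MvPolynomial σ K)) (x ξ : σ → K) (hξ : ξ ∈ conormal I x) :
    ∃ F ∈ I, ξ = grad F x := by
  induction hξ using Submodule.span_induction with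
  | mem ξ hξ => exact hξ
  | zero => exact ⟨0, I.zero_mem, by ext; simp [grad]⟩
  | add a b _ _ ha hb =>
    obtain ⟨F, hF, rfl⟩ := ha
    obtain ⟨G, hG, rfl⟩ := hb
    exact ⟨F + G, I.add_mem hF hG, by ext; simp [grad]⟩
  | smul c a _ ha =>
    obtain ⟨F, hF, rfl⟩ := ha
    exact ⟨C c * F, I.mul_mem_left _ hF, by ext; simp [grad]⟩

/-- The chain rule for a derivation of a `K`-algebra. -/
lemma deriv_aeval {A : Type} [CommRing A] [Algebra K A] (D : Derivation K A A) (g : σ → A)
    (F : MvPolynomial σ K) :
    D (aeval g F) = ∑ i, aeval g (pderiv i F) * D (g i) := by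
  classical
  induction F using MvPolynomial.induction_on with
  | C c => simp [← algebraMap_eq, Derivation.map_algebraMap]
  | add p q hp hq => simp [hp, hq, add_mul, Finset.sum_add_distrib]
  | mul_X p j hp =>
    simp only [map_mul, aeval_X, Derivation.leibniz, smul_eq_mul, hp, pderiv_X, map_add,
      Pi.single_apply]
    simp only [apply_ite (aeval g), map_one, map_zero, mul_ite, mul_one, mul_zero, add_mul, ite_mul,
      zero_mul, Finset.sum_add_distrib, Finset.sum_ite_eq, Finset.mem_univ, if_true]
    congr 1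
    rw [Finset.mul_sum]
    exact Finset.sum_congr rfl (fun i _ => by ring)

end Pool.Agent.Run7.h399.Hart

-- from Pool.Agent.H929R2.Hart.Closure
set_option autoImplicit false
set_option maxHeartbeats 400000

namespace Pool.Agent.Run7.h399.Hart

open MvPolynomial

variable {σ : Type} [Fintype σ] {K : Type} [Field K]

/-- Restriction of a polynomial to the line `x + t v`. -/
noncomputable def line (F : MvPolynomial σ K) (x v : σ → K) : Polynomial K :=
  aeval (fun i => Polynomial.C (x i) + Polynomial.X * Polynomial.C (v i)) F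

lemma eval_line (F : MvPolynomial σ K) (x v : σ → K) (t : K) :
    (line F x v).eval t = eval (x + t • v) F := by
  have : (Polynomial.evalRingHom t).comp (aeval (R := K)
      (fun i => Polynomial.C (x i) + Polynomial.X * Polynomial.C (v i))).toRingHom
      = eval (x + t • v) := by
    apply MvPolynomial.ringHom_ext
    · intro c; simp
    · intro i; simp; ring
  exact RingHom.congr_fun this F

lemma derivative_line (F : MvPolynomial σ K) (x v : σ → K) :
    Polynomial.derivative (line F x v) = ∑ i, line (pderiv i F) x v * Polynomial.C (v i) := by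
  have h := deriv_aeval (Polynomial.derivative' (R := K))
    (fun i => Polynomial.C (x i) + Polynomial.X * Polynomial.C (v i)) F
  simp only [Polynomial.derivative'_apply, Polynomial.derivative_add, Polynomial.derivative_C,
    Polynomial.derivative_mul, Polynomial.derivative_X, one_mul, mul_zero, add_zero,
    zero_add] at h
  exact h

lemma eval_derivative_line (F : MvPolynomial σ K) (x v : σ → K) (t : K) :
    (Polynomial.derivative (line F x v)).eval t = dotB σ K (grad F (x + t • v)) v := by
  rw [derivative_line, Polynomial.eval_finsetSum, dotB_apply]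
  exact Finset.sum_congr rfl (fun i _ => by
    rw [Polynomial.eval_mul, eval_line, Polynomial.eval_C, grad])

lemma poly_eq_zero [Infinite K] (p : Polynomial K) (h : ∀ t : K, t ≠ 0 → p.eval t = 0) : p = 0 := by
  classical
  by_contra hp
  have : (Set.Infinite {t : K | t ≠ 0}) := by
    have : {t : K | t ≠ 0} = ({0} : Set K)ᶜ := by ext; simp
    rw [this]; exact (Set.finite_singleton 0).infinite_compl
  exact this (Set.Finite.subset (p.roots.toFinset.finite_toSet) (fun t ht => by
    simp [hp, Polynomial.IsRoot, h t ht]))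

/-- If the line `x + t v`, `t ≠ 0`, is contained in the cone, then so is `x`, and `v` is tangent
at `x`. -/
lemma cone_of_line [Infinite K] (I : Ideal (MvPolynomial σ K)) (x v : σ → K)
    (h : ∀ t : K, t ≠ 0 → x + t • v ∈ cone I) : x ∈ cone I ∧ v ∈ tangent I x := by
  have key : ∀ F ∈ I, line F x v = 0 := fun F hF =>
    poly_eq_zero _ (fun t ht => by rw [eval_line]; exact h t ht F hF)
  refine ⟨fun F hF => ?_, ?_⟩
  · have := congrArg (Polynomial.eval 0) (key F hF)
    rw [eval_line] at this
    simpa using this
  · rw [mem_tangent]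
    intro F hF
    have := eval_derivative_line F x v 0
    rw [key F hF] at this
    simpa using this.symm

lemma exists_dual_vectors {n : ℕ} (b : Fin n → (σ → K)) (hb : LinearIndependent K b) :
    ∃ v : Fin n → (σ → K), ∀ i j, dotB σ K (b i) (v j) = if i = j then 1 else 0 := by
  classical
  let Φ : (σ → K) →ₗ[K] (Fin n → K) := LinearMap.pi (fun i => dotB σ K (b i))
  have hsurj : Function.Surjective Φ := by
    rw [← LinearMap.range_eq_top]
    by_contra hne
    obtain ⟨φ, hφ0, hφ⟩ := Submodule.exists_le_ker_of_lt_top _ (lt_top_iff_ne_top.2 hne)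
    apply hφ0
    have h1 : ∑ i, φ (Pi.single i 1) • b i = 0 := by
      ext m
      have h2 : φ (Φ (Pi.single m 1)) = 0 := hφ (LinearMap.mem_range_self Φ _)
      have h3 : Φ (Pi.single m 1) = ∑ i, b i m • (Pi.single i 1 : Fin n → K) := by
        ext j
        simp [Φ, Finset.sum_apply, Pi.single_apply, dotB_apply]
      rw [h3, map_sum] at h2
      simp only [map_smul, smul_eq_mul] at h2
      simp only [Finset.sum_apply, Pi.smul_apply, smul_eq_mul, Pi.zero_apply]
      rw [← h2]
      exact Finset.sum_congr rfl (fun i _ => mul_comm _ _)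
    have h3 := Fintype.linearIndependent_iff.1 hb (fun i => φ (Pi.single i 1)) h1
    ext i
    simpa using h3 i
  choose v hv using fun j => hsurj (Pi.single j 1)
  refine ⟨v, fun i j => ?_⟩
  have := congrFun (hv j) i
  simp only [Φ, LinearMap.pi_apply] at this
  rw [this, Pi.single_apply]

end Pool.Agent.Run7.h399.Hart

-- from Pool.Agent.H929R2.Hart.Weights
set_option autoImplicit false
set_option maxHeartbeats 400000

namespace Pool.Agent.Run7.h399.Hart

open MvPolynomial

variable {σ : Type} [Fintype σ] {K : Type} [Field K]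

lemma eval_wscale {w : σ → ℕ} {φ : MvPolynomial σ K} {m : ℕ} (h : IsWeightedHomogeneous w φ m)
    (t : K) (x : σ → K) :
    eval (fun i => t ^ w i * x i) φ = t ^ m * eval x φ := by
  rw [eval_eq, eval_eq, Finset.mul_sum]
  refine Finset.sum_congr rfl (fun d hd => ?_)
  have hw := h (mem_support_iff.1 hd)
  rw [Finsupp.weight_apply, Finsupp.sum_fintype _ _ (by simp)] at hw
  have h1 : ∏ i ∈ d.support, (t ^ w i * x i) ^ d i = ∏ i, (t ^ w i * x i) ^ d i :=
    Finset.prod_subset (Finset.subset_univ _) (fun i _ hi => by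
      rw [Finsupp.notMem_support_iff.1 hi, pow_zero])
  have h2 : ∏ i ∈ d.support, (x i) ^ d i = ∏ i, (x i) ^ d i :=
    Finset.prod_subset (Finset.subset_univ _) (fun i _ hi => by
      rw [Finsupp.notMem_support_iff.1 hi, pow_zero])
  rw [h1, h2]
  simp only [mul_pow, Finset.prod_mul_distrib, ← pow_mul]
  rw [Finset.prod_pow_eq_pow_sum, ← hw]
  simp only [smul_eq_mul, mul_comm (w _)]
  ring

lemma sum_wcomp (w : σ → ℕ) (F : MvPolynomial σ K) (M : ℕ) (hM : weightedTotalDegree w F < M) :
    ∑ m ∈ Finset.range M, weightedHomogeneousComponent w m F = F := by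
  have h := sum_weightedHomogeneousComponent w F
  rw [finsum_eq_sum_of_support_subset _ (s := Finset.range M)] at h
  · exact h
  · intro m hm
    simp only [Finset.coe_range, Set.mem_Iio]
    by_contra hcon
    exact hm (weightedHomogeneousComponent_eq_zero m F (by omega))

omit [Fintype σ] in
lemma aeval_eval (x : σ → K) (P : MvPolynomial σ K) : aeval x P = eval x P := by
  rw [← MvPolynomial.coe_aeval_eq_eval]; rfl

lemma mem_of_vanish [IsAlgClosed K] (I : Ideal (MvPolynomial σ K)) (hI : I.IsPrime)
    (P : MvPolynomial σ K) (h : ∀ x ∈ cone I, eval x P = 0) : P ∈ I := by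
  haveI := hI
  have h1 : vanishingIdeal K (zeroLocus K I) = I := MvPolynomial.IsPrime.vanishingIdeal_zeroLocus I
  rw [← h1, mem_vanishingIdeal_iff]
  intro x hx
  rw [mem_zeroLocus_iff] at hx
  rw [aeval_eval]
  refine h x (fun F hF => ?_)
  have := hx F hF
  rwa [aeval_eval] at this

lemma wcomp_mem [IsAlgClosed K] (I : Ideal (MvPolynomial σ K)) (hI : I.IsPrime) (w : σ → ℕ)
    (hst : ∀ t : K, t ≠ 0 → ∀ x ∈ cone I, (fun i => t ^ w i * x i) ∈ cone I)
    (F : MvPolynomial σ K) (hF : F ∈ I) (m : ℕ) : weightedHomogeneousComponent w m F ∈ I := by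
  apply mem_of_vanish I hI
  intro x hx
  set M := weightedTotalDegree w F + 1 with hM
  let q : Polynomial K := ∑ m ∈ Finset.range M,
    Polynomial.C (eval x (weightedHomogeneousComponent w m F)) * Polynomial.X ^ m
  have hq : q = 0 := by
    apply poly_eq_zero
    intro t ht
    have h1 := hst t ht x hx F hF
    rw [← sum_wcomp w F M (by omega), map_sum] at h1
    rw [Polynomial.eval_finsetSum, ← h1]
    refine Finset.sum_congr rfl (fun m _ => ?_)
    rw [eval_wscale (weightedHomogeneousComponent_isWeightedHomogeneous m F)]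
    rw [Polynomial.eval_mul, Polynomial.eval_C, Polynomial.eval_pow, Polynomial.eval_X, mul_comm]
  by_cases hm : m < M
  · have := congrArg (fun p => Polynomial.coeff p m) hq
    simp only [q, Polynomial.finsetSum_coeff, Polynomial.coeff_C_mul, Polynomial.coeff_X_pow,
      mul_ite, mul_one, mul_zero, Polynomial.coeff_zero] at this
    rw [Finset.sum_ite_eq] at this
    simpa [hm] using this
  · rw [weightedHomogeneousComponent_eq_zero m F (by omega), map_zero]

/-- A homogeneous ideal is stable under scaling. -/
lemma cone_smul (I : Ideal (MvPolynomial σ K)) (hom : ∀ F ∈ I, ∀ d, homogeneousComponent d F ∈ I)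
    (c : K) (x : σ → K) (hx : x ∈ cone I) : c • x ∈ cone I := by
  intro F hF
  rw [← sum_wcomp 1 F _ (Nat.lt_succ_self _), map_sum]
  refine Finset.sum_eq_zero (fun d _ => ?_)
  have h1 := eval_wscale (weightedHomogeneousComponent_isWeightedHomogeneous (w := 1) d F) c x
  have h2 : (fun i => c ^ (1 : σ → ℕ) i * x i) = c • x := by
    ext i; simp
  rw [h2] at h1
  rw [h1]
  have h3 := hx _ (hom F hF d)
  have h4 : homogeneousComponent d F = weightedHomogeneousComponent 1 d F := rfl
  rw [← h4, h3, mul_zero]

end Pool.Agent.Run7.h399.Hart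

-- from Pool.Agent.H929R2.Hart.Flat
set_option autoImplicit false
set_option maxHeartbeats 400000

namespace Pool.Agent.Run7.h399.Hart

open MvPolynomial

variable {σ : Type} [Fintype σ] [DecidableEq σ] {K : Type} [Field K]

lemma pderiv_comm' (i j : σ) (p : MvPolynomial σ K) :
    pderiv i (pderiv j p) = pderiv j (pderiv i p) := by
  ext d
  rw [coeff_pderiv, coeff_pderiv, coeff_pderiv, coeff_pderiv]
  rw [add_right_comm]
  simp only [Finsupp.add_apply, Finsupp.single_apply]
  by_cases h : i = j
  · subst h; ring
  · rw [if_neg h, if_neg (Ne.symm h)]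
    push_cast
    ring

/-- The directional derivative in the direction `a`. -/
noncomputable def dd (a : σ → K) (p : MvPolynomial σ K) : MvPolynomial σ K :=
  ∑ i, C (a i) * pderiv i p

omit [DecidableEq σ] in
lemma eval_dd (a x : σ → K) (p : MvPolynomial σ K) : eval x (dd a p) = dotB σ K (grad p x) a := by
  rw [dd, map_sum, dotB_apply]
  refine Finset.sum_congr rfl (fun i _ => ?_)
  rw [map_mul, eval_C, grad, mul_comm]

lemma pderiv_dd (i : σ) (a : σ → K) (p : MvPolynomial σ K) :
    pderiv i (dd a p) = dd a (pderiv i p) := by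
  rw [dd, dd, map_sum]
  refine Finset.sum_congr rfl (fun j _ => ?_)
  rw [pderiv_C_mul, pderiv_comm']

end Pool.Agent.Run7.h399.Hart

-- from Pool.Agent.H929R2.Hart.Limits
set_option autoImplicit false
set_option maxHeartbeats 400000

namespace Pool.Agent.Run7.h399.Hart

open MvPolynomial

variable {σ : Type} [Fintype σ] [DecidableEq σ] {K : Type} [Field K]

omit [DecidableEq σ] in
lemma eval_hscale {φ : MvPolynomial σ K} {m : ℕ} (h : φ.IsHomogeneous m)
    (t : K) (x : σ → K) : eval (t • x) φ = t ^ m * eval x φ := by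
  have h1 := eval_wscale (w := (1 : σ → ℕ)) h t x
  have h2 : (fun i => t ^ (1 : σ → ℕ) i * x i) = t • x := by
    ext i; simp
  rw [h2] at h1
  exact h1

omit [DecidableEq σ] in
lemma conormal_smul_le (I : Ideal (MvPolynomial σ K))
    (hom : ∀ F ∈ I, ∀ d, homogeneousComponent d F ∈ I) (c : K) (x : σ → K) :
    conormal I (c • x) ≤ conormal I x := by
  rw [conormal, Submodule.span_le]
  rintro _ ⟨F, hF, rfl⟩
  have h1 : grad F (c • x) = ∑ d ∈ Finset.range (F.totalDegree + 1),
      c ^ (d - 1) • grad (homogeneousComponent d F) x := by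
    funext i
    rw [grad, Finset.sum_apply]
    conv_lhs => rw [← MvPolynomial.sum_homogeneousComponent F, map_sum, map_sum]
    refine Finset.sum_congr rfl (fun d _ => ?_)
    rw [eval_hscale (homogeneousComponent_isHomogeneous d F).pderiv]
    rfl
  rw [h1]
  exact Submodule.sum_mem _ (fun d _ => Submodule.smul_mem _ _ (grad_mem I x (hom F hF d)))

omit [DecidableEq σ] in
lemma conormal_smul (I : Ideal (MvPolynomial σ K))
    (hom : ∀ F ∈ I, ∀ d, homogeneousComponent d F ∈ I) (c : K) (hc : c ≠ 0) (x : σ → K) :
    conormal I (c • x) = conormal I x := by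
  apply le_antisymm (conormal_smul_le I hom c x)
  have h1 := conormal_smul_le I hom c⁻¹ (c • x)
  rwa [smul_smul, inv_mul_cancel₀ hc, one_smul] at h1

namespace Adapted

variable {I : Ideal (MvPolynomial σ K)} {r : ℕ} {δ : σ → ℕ} {o : σ} {C : Finset σ}
  {f : σ → MvPolynomial σ K}

end Adapted

end Pool.Agent.Run7.h399.Hart

-- from Pool.Agent.H929R2.Hart.Tangency
set_option autoImplicit false
set_option maxHeartbeats 400000

namespace Pool.Agent.Run7.h399.Hart

open MvPolynomial

variable {σ : Type} [Fintype σ] [DecidableEq σ] {K : Type} [Field K]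

lemma grad_X (l : σ) (x : σ → K) : grad (X l) x = Pi.single l 1 := by
  funext i
  rw [grad, pderiv_X]
  by_cases h : i = l
  · subst h; simp
  · simp [h]

namespace Adapted

variable {I : Ideal (MvPolynomial σ K)} {r : ℕ} {δ : σ → ℕ} {o : σ} {C : Finset σ}
  {f : σ → MvPolynomial σ K} {A : Submodule K (σ → K)}

end Adapted

end Pool.Agent.Run7.h399.Hart

-- from Pool.Agent.H929R2.Hart.Hyper2
set_option autoImplicit false
set_option maxHeartbeats 400000

namespace Pool.Agent.Run7.h399.Hart

open MvPolynomial

variable {σ : Type} [Fintype σ] {K : Type} [Field K]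

lemma mem_of_vanish_ne [IsAlgClosed K] (I : Ideal (MvPolynomial σ K)) (hI : I.IsPrime)
    (hne : ∃ x ∈ cone I, x ≠ 0)
    (P : MvPolynomial σ K) (h : ∀ x ∈ cone I, x ≠ 0 → eval x P = 0) : P ∈ I := by
  obtain ⟨x0, hx0, hx0'⟩ := hne
  obtain ⟨m, hm⟩ := Function.ne_iff.1 hx0'
  have h1 : X m * P ∈ I := by
    apply mem_of_vanish I hI
    intro x hx
    by_cases h0 : x = 0
    · rw [h0]; simp
    · rw [map_mul, h x hx h0, mul_zero]
  rcases hI.mem_or_mem h1 with h2 | h2
  · exfalso
    have := hx0 _ h2
    rw [eval_X] at this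
    exact hm this
  · exact h2

end Pool.Agent.Run7.h399.Hart

-- from Pool.Agent.H929R2.Hart.W2
set_option autoImplicit false
set_option maxHeartbeats 400000

namespace Pool.Agent.Run7.h399.Hart

open MvPolynomial

variable {σ : Type} [Fintype σ] [DecidableEq σ] {K : Type} [Field K]

/-! ### The line lemma -/

omit [DecidableEq σ] in
lemma derivative_line' (F : MvPolynomial σ K) (x v : σ → K) :
    Polynomial.derivative (line F x v) = line (dd v F) x v := by
  rw [derivative_line, dd, line, map_sum]
  refine Finset.sum_congr rfl (fun i _ => ?_)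
  rw [map_mul, line, mul_comm]
  congr 1
  simp

omit [DecidableEq σ] in
/-- The determinant of directional derivatives of `r + 1` elements of `I` is in `I`. -/
lemma det_mem [IsAlgClosed K] (I : Ideal (MvPolynomial σ K)) (hI : I.IsPrime)
    (hne : ∃ x ∈ cone I, x ≠ 0) (r : ℕ)
    (hr : ∀ x ∈ cone I, x ≠ 0 → Module.finrank K (conormal I x) ≤ r)
    (F : Fin (r + 1) → MvPolynomial σ K) (hF : ∀ i, F i ∈ I) (v : Fin (r + 1) → (σ → K)) :
    Matrix.det (fun a b => dd (v b) (F a)) ∈ I := by
  apply mem_of_vanish_ne I hI hne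
  intro x hx hx0
  have h0 : (eval x) (Matrix.det (fun a b => dd (v b) (F a))) =
      Matrix.det (fun a b => dotB σ K (grad (F a) x) (v b)) := by
    rw [RingHom.map_det]
    congr 1
    ext a b
    rw [RingHom.mapMatrix_apply, Matrix.map_apply, eval_dd]
  rw [h0, ← Matrix.exists_vecMul_eq_zero_iff]
  have hdep : ¬ LinearIndependent K (fun a => grad (F a) x) := by
    intro hli
    have h2 : LinearIndependent K
        (fun i => (⟨grad (F i) x, grad_mem I x (hF i)⟩ : conormal I x)) :=
      LinearIndependent.of_comp (conormal I x).subtype hli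
    have := h2.fintype_card_le_finrank
    rw [Fintype.card_fin] at this
    have := hr x hx hx0
    omega
  rw [Fintype.not_linearIndependent_iff] at hdep
  obtain ⟨c, hc, i, hci⟩ := hdep
  refine ⟨c, fun h0 => hci (congrFun h0 i), ?_⟩
  ext j
  have := congrArg (fun φ => dotB σ K φ (v j)) hc
  simpa [Matrix.vecMul, dotProduct, map_sum, LinearMap.sum_apply] using this

end Pool.Agent.Run7.h399.Hart

-- from Pool.Agent.H929R2.Hart.W3
set_option autoImplicit false
set_option maxHeartbeats 400000

namespace Pool.Agent.Run7.h399.Hart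

open MvPolynomial

variable {σ : Type} [Fintype σ] [DecidableEq σ] {K : Type} [Field K]

/-- the cone over a smooth irreducible variety of codimension `r` -/
structure SCone (I : Ideal (MvPolynomial σ K)) (r : ℕ) : Prop where
  prime : I.IsPrime
  homog : ∀ F ∈ I, ∀ d, homogeneousComponent d F ∈ I
  rank : ∀ x ∈ cone I, x ≠ 0 → Module.finrank K (conormal I x) = r

omit [Fintype σ] [DecidableEq σ] in
lemma grad_add (F G : MvPolynomial σ K) (x : σ → K) : grad (F + G) x = grad F x + grad G x := by
  funext i; simp [grad]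

omit [Fintype σ] [DecidableEq σ] in
lemma grad_sum {ι : Type} (s : Finset ι) (F : ι → MvPolynomial σ K) (x : σ → K) :
    grad (∑ k ∈ s, F k) x = ∑ k ∈ s, grad (F k) x := by
  funext i; simp [grad, Finset.sum_apply]

omit [Fintype σ] [DecidableEq σ] in
lemma grad_C_mul (c : K) (F : MvPolynomial σ K) (x : σ → K) :
    grad (C c * F) x = c • grad F x := by
  funext i; simp [grad]

end Pool.Agent.Run7.h399.Hart

-- from Pool.Agent.H929R2.Hart.W4
set_option autoImplicit false
set_option maxHeartbeats 400000

namespace Pool.Agent.Run7.h399.Hart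

open MvPolynomial

variable {σ : Type} [Fintype σ] [DecidableEq σ] {K : Type} [Field K]

/-- `c ↦ ∑ c_i grad F_i(p)` -/
noncomputable def uu {r : ℕ} (F : Fin r → MvPolynomial σ K) (p : σ → K) :
    (Fin r → K) →ₗ[K] (σ → K) where
  toFun c := ∑ i, c i • grad (F i) p
  map_add' c d := by simp [add_smul, Finset.sum_add_distrib]
  map_smul' t c := by
    simp only [Pi.smul_apply, smul_eq_mul, RingHom.id_apply, Finset.smul_sum]
    exact Finset.sum_congr rfl (fun i _ => by rw [mul_smul])

omit [DecidableEq σ] in
lemma uu_apply {r : ℕ} (F : Fin r → MvPolynomial σ K) (p : σ → K) (c : Fin r → K) :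
    uu F p c = ∑ i, c i • grad (F i) p := rfl

/-- the combination of the frame -/
noncomputable def comb {r : ℕ} (F : Fin r → MvPolynomial σ K) (c : Fin r → K) :
    MvPolynomial σ K := ∑ i, MvPolynomial.C (c i) * F i

omit [Fintype σ] [DecidableEq σ] in
lemma comb_mem {r : ℕ} {I : Ideal (MvPolynomial σ K)} (F : Fin r → MvPolynomial σ K)
    (hF : ∀ i, F i ∈ I) (c : Fin r → K) : comb F c ∈ I :=
  I.sum_mem (fun i _ => I.mul_mem_left _ (hF i))

omit [DecidableEq σ] in
lemma grad_comb {r : ℕ} (F : Fin r → MvPolynomial σ K) (c : Fin r → K) (x : σ → K) :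
    grad (comb F c) x = uu F x c := by
  rw [comb, grad_sum, uu_apply]
  exact Finset.sum_congr rfl (fun i _ => grad_C_mul _ _ _)

omit [DecidableEq σ] in
lemma uu_mem {r : ℕ} {I : Ideal (MvPolynomial σ K)} (F : Fin r → MvPolynomial σ K)
    (hF : ∀ i, F i ∈ I) (c : Fin r → K) (x : σ → K) : uu F x c ∈ conormal I x := by
  rw [← grad_comb]
  exact grad_mem I x (comb_mem F hF c)

namespace FlatSpace

variable {w : σ → ℤ} {I : Ideal (MvPolynomial σ K)} {p : σ → K} {r : ℕ}
  {F : Fin r → MvPolynomial σ K} {l : Fin r → ℤ} {A : Submodule K (σ → K)}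

end FlatSpace

end Pool.Agent.Run7.h399.Hart

-- from Pool.Agent.H929R2.Hart.W5
set_option autoImplicit false
set_option maxHeartbeats 400000

namespace Pool.Agent.Run7.h399.Hart

open MvPolynomial

variable {σ : Type} [Fintype σ] [DecidableEq σ] {K : Type} [Field K]

section Frame

variable {w : σ → ℤ} {I : Ideal (MvPolynomial σ K)} {p : σ → K} {r : ℕ}
  {F : Fin r → MvPolynomial σ K} {l : Fin r → ℤ}

omit [DecidableEq σ] in
lemma uu_injective (hF : LinearIndependent K (fun i => grad (F i) p)) (c : Fin r → K)
    (hc : uu F p c = 0) : c = 0 := by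
  funext i
  exact Fintype.linearIndependent_iff.1 hF c (by rw [← uu_apply]; exact hc) i

omit [DecidableEq σ] in
lemma mem_tangent' (I : Ideal (MvPolynomial σ K)) (x v : σ → K) :
    v ∈ tangent I x ↔ ∀ ξ ∈ conormal I x, dotB σ K ξ v = 0 := by
  constructor
  · intro h ξ hξ; exact tangent_conormal I x hξ h
  · intro h; rw [mem_tangent]; intro F hF; exact h _ (grad_mem I x hF)

end Frame

namespace Src

variable {w : σ → ℤ} {I : Ideal (MvPolynomial σ K)} {p : σ → K} {r : ℕ} {D : ℤ}
  {F : Fin r → MvPolynomial σ K} {l : Fin r → ℤ}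

end Src

end Pool.Agent.Run7.h399.Hart

-- from Pool.Agent.H929R2.Hart.W16
set_option autoImplicit false
set_option maxHeartbeats 400000

namespace Pool.Agent.Run7.h399.Hart

open MvPolynomial

variable {σ : Type} [Fintype σ] {K : Type} [Field K]

/-- the linear form with coefficients `u` -/
noncomputable def lin (u : σ → K) : MvPolynomial σ K := ∑ k, C (u k) * X k

lemma lin_add (u v : σ → K) : lin (u + v) = lin u + lin v := by
  simp [lin, add_mul, Finset.sum_add_distrib]

lemma lin_smul (c : K) (u : σ → K) : lin (c • u) = C c * lin u := by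
  simp [lin, Finset.mul_sum, mul_assoc]

lemma lin_zero : lin (0 : σ → K) = 0 := by simp [lin]

lemma lin_sum {ι : Type} (s : Finset ι) (u : ι → σ → K) :
    lin (∑ k ∈ s, u k) = ∑ k ∈ s, lin (u k) := by
  classical
  induction s using Finset.induction_on with
  | empty => simp [lin_zero]
  | insert a s ha ih => rw [Finset.sum_insert ha, Finset.sum_insert ha, lin_add, ih]

lemma lin_single [DecidableEq σ] (i : σ) : lin (Pi.single i (1 : K)) = X i := by
  rw [lin, Finset.sum_eq_single i]
  · simp
  · intro k _ hk
    rw [Pi.single_apply, if_neg hk, map_zero, zero_mul]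
  · intro h; exact absurd (Finset.mem_univ _) h

lemma eval_lin (u x : σ → K) : eval x (lin u) = dotB σ K u x := by
  rw [lin, map_sum, dotB_apply]
  exact Finset.sum_congr rfl (fun i _ => by simp)

lemma grad_lin (u x : σ → K) : grad (lin u) x = u := by
  classical
  funext i
  rw [grad, lin, map_sum, map_sum, Finset.sum_eq_single i]
  · simp [pderiv_C_mul]
  · intro k _ hk
    rw [pderiv_C_mul, pderiv_X_of_ne (Ne.symm hk.symm)]
    simp
  · intro h; exact absurd (Finset.mem_univ _) h

lemma lin_homog (u : σ → K) : (lin u).IsHomogeneous 1 := by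
  refine IsHomogeneous.sum _ _ _ (fun k _ => ?_)
  have h1 : (C (u k) : MvPolynomial σ K).IsHomogeneous 0 := isHomogeneous_C _ _
  have h2 := h1.mul (isHomogeneous_X K k)
  simpa using h2

/-- the linear forms in the ideal -/
def linsub (I : Ideal (MvPolynomial σ K)) : Submodule K (σ → K) where
  carrier := {u | lin u ∈ I}
  zero_mem' := by
    show lin 0 ∈ I
    rw [lin_zero]; exact I.zero_mem
  add_mem' := fun {u v} hu hv => by
    show lin (u + v) ∈ I
    rw [lin_add]; exact I.add_mem hu hv
  smul_mem' := fun c u hu => by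
    show lin (c • u) ∈ I
    rw [lin_smul]; exact I.mul_mem_left _ hu

section Ext

variable {κ : Type} [Fintype κ] [DecidableEq σ]

end Ext

namespace Red

variable [DecidableEq σ] {I : Ideal (MvPolynomial σ K)} {κ : Type} [Fintype κ] {a : κ → σ}
  {c : σ → κ → K}

end Red

end Pool.Agent.Run7.h399.Hart

-- from Pool.Agent.H929R2.Hart.U1
set_option autoImplicit false
set_option maxHeartbeats 400000

namespace Pool.Agent.Run7.h399.Hart

open MvPolynomial

/-! ### Polynomial arcs and approximations -/

section Taylor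

variable {σ : Type} [Fintype σ] {A : Type} [CommRing A]

/-- gradient over a ring -/
noncomputable def gT (Ψ : MvPolynomial σ A) (P : σ → A) : σ → A := fun i => eval P (pderiv i Ψ)

lemma gT_add (Ψ Φ : MvPolynomial σ A) (P : σ → A) : gT (Ψ + Φ) P = gT Ψ P + gT Φ P := by
  funext i; simp [gT]

lemma gT_mul (Ψ Φ : MvPolynomial σ A) (P : σ → A) :
    gT (Ψ * Φ) P = eval P Φ • gT Ψ P + eval P Ψ • gT Φ P := by
  funext i
  simp only [gT, Derivation.leibniz, smul_eq_mul, map_add, map_mul, Pi.add_apply, Pi.smul_apply]
  ring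

lemma gT_C (a : A) (P : σ → A) : gT (C a) P = 0 := by
  funext i; simp [gT]

/-- Taylor expansion -/
lemma taylor1 (Ψ : MvPolynomial σ A) (P Q : σ → A) (h : A) :
    ∃ R : A, eval (P + h • Q) Ψ = eval P Ψ + h * (gT Ψ P ⬝ᵥ Q) + h ^ 2 * R := by
  classical
  induction Ψ using MvPolynomial.induction_on with
  | C a => exact ⟨0, by rw [gT_C, zero_dotProduct]; simp⟩
  | add p q hp hq =>
    obtain ⟨R, hR⟩ := hp
    obtain ⟨S, hS⟩ := hq
    refine ⟨R + S, ?_⟩
    rw [map_add, hR, hS, map_add, gT_add, add_dotProduct]
    ring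
  | mul_X p i hp =>
    obtain ⟨R, hR⟩ := hp
    have hX : gT (X i : MvPolynomial σ A) P ⬝ᵥ Q = Q i := by
      have : gT (X i : MvPolynomial σ A) P = Pi.single i 1 := by
        funext j
        rw [gT]
        by_cases hj : j = i
        · subst hj; simp
        · rw [pderiv_X_of_ne (fun h => hj h.symm), map_zero, Pi.single_apply, if_neg hj]
      rw [this, single_dotProduct, one_mul]
    refine ⟨(gT p P ⬝ᵥ Q) * Q i + R * (P i + h * Q i), ?_⟩
    rw [map_mul, hR, eval_X, map_mul, eval_X, gT_mul, add_dotProduct, smul_dotProduct,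
      smul_dotProduct, hX, eval_X, Pi.add_apply, Pi.smul_apply, smul_eq_mul, smul_eq_mul,
      smul_eq_mul]
    ring

end Taylor

section Poly

variable {σ : Type} [Fintype σ] [DecidableEq σ] {K : Type} [Field K]

/-- coefficients viewed as constant polynomials -/
noncomputable def io (F : MvPolynomial σ K) : MvPolynomial σ (Polynomial K) :=
  MvPolynomial.map Polynomial.C F

/-- constant vectors -/
noncomputable def cv (x : σ → K) : σ → Polynomial K := fun i => Polynomial.C (x i)

/-- the value at `0` of a polynomial vector -/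
noncomputable def at0 (P : σ → Polynomial K) : σ → K := fun i => (P i).eval 0

omit [Fintype σ] [DecidableEq σ] in
lemma at0_add (P Q : σ → Polynomial K) : at0 (P + Q) = at0 P + at0 Q := by
  funext i; simp [at0]

omit [Fintype σ] [DecidableEq σ] in
lemma at0_smul (p : Polynomial K) (Q : σ → Polynomial K) : at0 (p • Q) = p.eval 0 • at0 Q := by
  funext i; simp [at0]

omit [Fintype σ] [DecidableEq σ] in
lemma at0_cv (x : σ → K) : at0 (cv x) = x := by
  funext i; simp [at0, cv]

omit [Fintype σ] [DecidableEq σ] in
lemma at0_sum {ι : Type} (s : Finset ι) (P : ι → σ → Polynomial K) :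
    at0 (∑ k ∈ s, P k) = ∑ k ∈ s, at0 (P k) := by
  funext i; simp [at0, Finset.sum_apply, Polynomial.eval_finsetSum]

omit [Fintype σ] [DecidableEq σ] in
lemma cv_add (x y : σ → K) : cv (x + y) = cv x + cv y := by
  funext i; simp [cv]

omit [Fintype σ] [DecidableEq σ] in
lemma cv_smul (c : K) (x : σ → K) : cv (c • x) = Polynomial.C c • cv x := by
  funext i; simp [cv]

omit [Fintype σ] [DecidableEq σ] in
lemma eval_io (P : σ → Polynomial K) (F : MvPolynomial σ K) : eval P (io F) = aeval P F := by
  rw [io, eval_map, aeval_def]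
  rfl

omit [Fintype σ] [DecidableEq σ] in
lemma eval_io_cv (x : σ → K) (F : MvPolynomial σ K) :
    eval (cv x) (io F) = Polynomial.C (eval x F) := by
  rw [io, eval_map]
  exact (MvPolynomial.eval₂_comp_left Polynomial.C (RingHom.id K) x F).symm

omit [Fintype σ] [DecidableEq σ] in
lemma eval_io_eval (t : K) (P : σ → Polynomial K) (F : MvPolynomial σ K) :
    (eval P (io F)).eval t = eval (fun i => (P i).eval t) F := by
  rw [io, eval_map]
  have h := MvPolynomial.eval₂_comp_left (Polynomial.evalRingHom t) Polynomial.C P F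
  rw [Polynomial.coe_evalRingHom] at h
  rw [h]
  have h2 : (Polynomial.evalRingHom t).comp Polynomial.C = RingHom.id K := by
    ext x; simp
  rw [h2]
  rfl

omit [Fintype σ] [DecidableEq σ] in
lemma eval_io_zero (P : σ → Polynomial K) (F : MvPolynomial σ K) :
    (eval P (io F)).eval 0 = eval (at0 P) F := eval_io_eval 0 P F

omit [Fintype σ] in
lemma pderiv_io (i : σ) (F : MvPolynomial σ K) : pderiv i (io F) = io (pderiv i F) := by
  rw [io, io, pderiv_map]

lemma gT_io_at0 (P : σ → Polynomial K) (F : MvPolynomial σ K) :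
    at0 (gT (io F) P) = grad F (at0 P) := by
  funext i
  rw [at0, gT, pderiv_io, eval_io_zero, grad]

lemma gT_io_cv (x : σ → K) (F : MvPolynomial σ K) : gT (io F) (cv x) = cv (grad F x) := by
  funext i
  rw [gT, pderiv_io, eval_io_cv, cv, grad]

omit [DecidableEq σ] in
lemma dot_at0 (P Q : σ → Polynomial K) : (P ⬝ᵥ Q).eval 0 = dotB σ K (at0 P) (at0 Q) := by
  rw [dotProduct, Polynomial.eval_finsetSum, dotB_apply]
  exact Finset.sum_congr rfl (fun i _ => by rw [Polynomial.eval_mul]; rfl)

/-- derivative along an arc -/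
lemma deriv_eval_io (P : σ → Polynomial K) (F : MvPolynomial σ K) :
    Polynomial.derivative (eval P (io F)) = gT (io F) P ⬝ᵥ (fun i => Polynomial.derivative (P i)) := by
  rw [eval_io]
  have h := deriv_aeval (A := Polynomial K) (K := K) Polynomial.derivative' P F
  have h' : Polynomial.derivative (aeval P F) = _ := h
  rw [h', dotProduct]
  refine Finset.sum_congr rfl (fun i _ => ?_)
  rw [gT, pderiv_io, eval_io]
  rfl

lemma gT_dd (P : σ → Polynomial K) (F : MvPolynomial σ K) (v : σ → K) :
    eval P (io (dd v F)) = gT (io F) P ⬝ᵥ cv v := by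
  rw [eval_io, dd, map_sum, dotProduct]
  refine Finset.sum_congr rfl (fun i _ => ?_)
  rw [map_mul, aeval_C, gT, pderiv_io, eval_io, cv, mul_comm]
  rfl

omit [Fintype σ] [DecidableEq σ] in
lemma dvd_of_deriv [CharZero K] (p : Polynomial K) (k : ℕ) (h0 : p.eval 0 = 0)
    (h : Polynomial.X ^ k ∣ Polynomial.derivative p) : Polynomial.X ^ (k + 1) ∣ p := by
  rw [Polynomial.X_pow_dvd_iff] at h ⊢
  intro d hd
  rcases d with _ | d
  · rw [Polynomial.coeff_zero_eq_eval_zero]; exact h0
  · have h1 := h d (by omega)
    rw [Polynomial.coeff_derivative] at h1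
    rcases mul_eq_zero.1 h1 with h2 | h2
    · exact h2
    · exfalso
      have : ((d : K) + 1) ≠ 0 := by exact_mod_cast Nat.succ_ne_zero d
      exact this h2

omit [Fintype σ] [DecidableEq σ] in
lemma dvd_deriv (p : Polynomial K) (k : ℕ)
    (h : Polynomial.X ^ (k + 1) ∣ p) : Polynomial.X ^ k ∣ Polynomial.derivative p := by
  rw [Polynomial.X_pow_dvd_iff] at h ⊢
  intro d hd
  rw [Polynomial.coeff_derivative, h (d + 1) (by omega), zero_mul]

omit [Fintype σ] [DecidableEq σ] in
lemma dvd_of_unit (p c : Polynomial K) (k : ℕ) (hc : c.eval 0 ≠ 0)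
    (h : Polynomial.X ^ k ∣ c * p) : Polynomial.X ^ k ∣ p := by
  apply IsCoprime.dvd_of_dvd_mul_left _ h
  apply IsCoprime.pow_left
  rw [(Polynomial.irreducible_X (R := K)).coprime_iff_not_dvd, Polynomial.X_dvd_iff,
    Polynomial.coeff_zero_eq_eval_zero]
  exact hc

/-- If `r` elements of `I` with independent gradients at `v(0)` vanish to order `k` along the arc
`v`, then so do all the elements of `I`. -/
theorem approx_of_frame [IsAlgClosed K] [CharZero K] {I : Ideal (MvPolynomial σ K)} {r : ℕ}
    (hI : SCone I r) (z : σ → K) (hz : z ∈ cone I) (hz0 : z ≠ 0)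
    (F : Fin r → MvPolynomial σ K) (hF : ∀ i, F i ∈ I)
    (hind : LinearIndependent K (fun i => grad (F i) z)) (v : σ → Polynomial K)
    (hv : at0 v = z) (k : ℕ) (hk : ∀ i, Polynomial.X ^ k ∣ eval v (io (F i))) :
    ∀ l, l ≤ k → ∀ G ∈ I, Polynomial.X ^ l ∣ eval v (io G) := by
  obtain ⟨W, hW⟩ := exists_dual_vectors _ hind
  intro l
  induction l with
  | zero => intro _ G _; simp
  | succ l ih =>
    intro hl G hG
    have ih' := ih (by omega)
    apply dvd_of_deriv
    · rw [eval_io_zero, hv]; exact hz G hG
    let F' : Fin (r + 1) → MvPolynomial σ K := Fin.cons G F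
    have hF' : ∀ a, F' a ∈ I := by
      intro a
      refine Fin.cases ?_ (fun i => ?_) a
      · exact hG
      · exact hF i
    let N : Fin (r + 1) → Fin r → Polynomial K := fun a j => gT (io (F' a)) v ⬝ᵥ cv (W j)
    let c : Fin (r + 1) → Polynomial K := fun a => (-1) ^ (a : ℕ) *
      Matrix.det (fun (i j : Fin r) => N (a.succAbove i) j)
    have key : ∀ w : σ → K, Polynomial.X ^ l ∣ ∑ a, c a * (gT (io (F' a)) v ⬝ᵥ cv w) := by
      intro w
      have h1 := det_mem I hI.prime ⟨z, hz, hz0⟩ r (fun x hx hx0 => (hI.rank x hx hx0).le) F' hF'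
        (Fin.cons w W)
      have h2 := ih' _ h1
      have h3 : eval v (io (Matrix.det (fun a b => dd ((Fin.cons w W : Fin (r+1) → (σ → K)) b)
          (F' a)))) = ∑ a, c a * (gT (io (F' a)) v ⬝ᵥ cv w) := by
        have h4 : eval v (io (Matrix.det (fun a b => dd ((Fin.cons w W : Fin (r+1) → (σ → K)) b)
            (F' a)))) = ((eval v).comp (MvPolynomial.map Polynomial.C))
              (Matrix.det (fun a b => dd ((Fin.cons w W : Fin (r+1) → (σ → K)) b) (F' a))) := rfl
        rw [h4, RingHom.map_det, Matrix.det_succ_column_zero]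
        refine Finset.sum_congr rfl (fun a _ => ?_)
        have h5 : ((eval v).comp (MvPolynomial.map Polynomial.C)).mapMatrix
            (fun a b => dd ((Fin.cons w W : Fin (r+1) → (σ → K)) b) (F' a)) a 0 =
            gT (io (F' a)) v ⬝ᵥ cv w := by
          rw [← gT_dd]; rfl
        rw [h5]
        have h6 : (((eval v).comp (MvPolynomial.map Polynomial.C)).mapMatrix
            (fun a b => dd ((Fin.cons w W : Fin (r+1) → (σ → K)) b) (F' a))).submatrix
              a.succAbove Fin.succ = fun (i j : Fin r) => N (a.succAbove i) j := by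
          funext i j
          show _ = gT (io (F' (a.succAbove i))) v ⬝ᵥ cv (W j)
          rw [← gT_dd]
          rfl
        rw [h6]
        show _ = (-1) ^ (a : ℕ) * Matrix.det (fun (i j : Fin r) => N (a.succAbove i) j) * _
        ring
      rw [← h3]; exact h2
    have key2 : ∀ u : σ → Polynomial K, Polynomial.X ^ l ∣ ∑ a, c a * (gT (io (F' a)) v ⬝ᵥ u) := by
      intro u
      have h1 : ∑ a, c a * (gT (io (F' a)) v ⬝ᵥ u) =
          ∑ i, u i * ∑ a, c a * (gT (io (F' a)) v ⬝ᵥ cv (Pi.single i 1)) := by
        simp only [dotProduct, Finset.mul_sum]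
        rw [Finset.sum_comm]
        refine Finset.sum_congr rfl (fun i _ => Finset.sum_congr rfl (fun a _ => ?_))
        rw [Finset.sum_eq_single i]
        · simp [cv]; ring
        · intro j _ hj
          simp [cv, Pi.single_apply, hj]
        · intro h; exact absurd (Finset.mem_univ _) h
      rw [h1]
      exact Finset.dvd_sum (fun i _ => Dvd.dvd.mul_left (key _) _)
    have h1 := key2 (fun i => Polynomial.derivative (v i))
    rw [Fin.sum_univ_succ] at h1
    have h2 : Polynomial.X ^ l ∣ ∑ i : Fin r, c i.succ *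
        (gT (io (F' i.succ)) v ⬝ᵥ fun i => Polynomial.derivative (v i)) := by
      apply Finset.dvd_sum
      intro i _
      apply Dvd.dvd.mul_left
      rw [← deriv_eval_io]
      apply dvd_deriv
      exact (pow_dvd_pow _ hl).trans (hk i)
    have h3 := (dvd_add_left h2).1 h1
    rw [← deriv_eval_io] at h3
    apply dvd_of_unit _ (c 0) l _ h3
    have h4 : (c 0).eval 0 = 1 := by
      show Polynomial.eval 0 ((-1) ^ ((0 : Fin (r+1)) : ℕ) *
        Matrix.det (fun (i j : Fin r) => N ((0 : Fin (r + 1)).succAbove i) j)) = 1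
      rw [Fin.val_zero, pow_zero, one_mul]
      have h5 : Polynomial.eval 0 (Matrix.det (fun (i j : Fin r) =>
          N ((0 : Fin (r + 1)).succAbove i) j)) = (Polynomial.evalRingHom (0 : K))
          (Matrix.det (fun (i j : Fin r) => N ((0 : Fin (r + 1)).succAbove i) j)) := rfl
      rw [h5, RingHom.map_det]
      have h6 : (Polynomial.evalRingHom (0 : K)).mapMatrix (fun (i j : Fin r) =>
          N ((0 : Fin (r + 1)).succAbove i) j) = 1 := by
        ext i j
        rw [Matrix.one_apply, ← hW i j]
        show Polynomial.eval 0 (gT (io (F' ((0 : Fin (r + 1)).succAbove i))) v ⬝ᵥ cv (W j)) = _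
        rw [dot_at0, gT_io_at0, at0_cv, hv]
        rfl
      rw [h6, Matrix.det_one]
    rw [h4]; exact one_ne_zero

end Poly

end Pool.Agent.Run7.h399.Hart

-- from Pool.Agent.H929R2.Hart.U2
set_option autoImplicit false
set_option maxHeartbeats 400000

namespace Pool.Agent.Run7.h399.Hart

open MvPolynomial

variable {σ : Type} [Fintype σ] [DecidableEq σ] {K : Type} [Field K]

/-- Newton iteration: correct an arc satisfying `r` equations to order `k0` so that it satisfies
them to any order. -/
theorem newton {r : ℕ} (z : σ → K) (F : Fin r → MvPolynomial σ K) (W : Fin r → (σ → K))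
    (hW : ∀ i j, dotB σ K (grad (F i) z) (W j) = if i = j then 1 else 0)
    (c : σ → Polynomial K) (hc : at0 c = z) (k0 : ℕ) (hk0 : 1 ≤ k0)
    (h : ∀ i, Polynomial.X ^ k0 ∣ eval c (io (F i))) (l : ℕ) :
    ∃ a : Fin r → Polynomial K,
      ∀ i, (Polynomial.X : Polynomial K) ^ (k0 + l) ∣
        eval (c + (Polynomial.X : Polynomial K) ^ k0 • ∑ j, a j • cv (W j)) (io (F i)) := by
  induction l with
  | zero => exact ⟨0, fun i => by simpa using h i⟩
  | succ l ih =>
    obtain ⟨a, ha⟩ := ih
    choose g hg using ha
    let a' : Fin r → Polynomial K := fun j =>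
      a j - Polynomial.X ^ l * Polynomial.C ((g j).eval 0)
    refine ⟨a', fun i => ?_⟩
    set v := c + (Polynomial.X : Polynomial K) ^ k0 • ∑ j, a j • cv (W j) with hv
    have hv0 : at0 v = z := by
      rw [hv, at0_add, hc, at0_smul]
      have : (Polynomial.X ^ k0 : Polynomial K).eval 0 = 0 := by
        rw [Polynomial.eval_pow, Polynomial.eval_X, zero_pow (by omega)]
      rw [this, zero_smul, add_zero]
    have h1 : c + (Polynomial.X : Polynomial K) ^ k0 • ∑ j, a' j • cv (W j) =
        v + (Polynomial.X : Polynomial K) ^ (k0 + l) • (- ∑ j, Polynomial.C ((g j).eval 0) • cv (W j)) := by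
      rw [hv, add_assoc, smul_neg, ← sub_eq_add_neg, pow_add, mul_smul, ← smul_sub]
      congr 2
      rw [Finset.smul_sum, ← Finset.sum_sub_distrib]
      refine Finset.sum_congr rfl (fun j _ => ?_)
      rw [smul_smul, ← sub_smul]
    obtain ⟨R, hR⟩ := taylor1 (io (F i)) v (- ∑ j, Polynomial.C ((g j).eval 0) • cv (W j))
      (Polynomial.X ^ (k0 + l))
    rw [h1, hR, hg i]
    have h2 : Polynomial.X ∣ g i + (gT (io (F i)) v ⬝ᵥ
        (- ∑ j, Polynomial.C ((g j).eval 0) • cv (W j))) := by
      rw [Polynomial.X_dvd_iff, Polynomial.coeff_zero_eq_eval_zero, Polynomial.eval_add, dot_at0,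
        gT_io_at0, hv0]
      have h3 : at0 (- ∑ j, Polynomial.C ((g j).eval 0) • cv (W j)) =
          - ∑ j, (g j).eval 0 • W j := by
        have : at0 (- ∑ j, Polynomial.C ((g j).eval 0) • cv (W j)) =
            - at0 (∑ j, Polynomial.C ((g j).eval 0) • cv (W j)) := by
          funext i; simp [at0]
        rw [this, at0_sum]
        congr 1
        refine Finset.sum_congr rfl (fun j _ => ?_)
        rw [at0_smul, at0_cv, Polynomial.eval_C]
      rw [h3, map_neg, map_sum, Finset.sum_eq_single i]
      · rw [map_smul, hW, if_pos rfl, smul_eq_mul, mul_one, add_neg_cancel]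
      · intro j _ hj
        rw [map_smul, hW, if_neg (fun h => hj h.symm), smul_zero]
      · intro h; exact absurd (Finset.mem_univ _) h
    obtain ⟨q, hq⟩ := h2
    have h3 : Polynomial.X ^ (k0 + l) * g i + Polynomial.X ^ (k0 + l) *
        (gT (io (F i)) v ⬝ᵥ (- ∑ j, Polynomial.C ((g j).eval 0) • cv (W j))) +
        (Polynomial.X ^ (k0 + l)) ^ 2 * R =
        Polynomial.X ^ (k0 + (l + 1)) * (q + Polynomial.X ^ (k0 + l - 1) * R) := by
      rw [← mul_add, hq]
      obtain ⟨n, hn⟩ : ∃ n, k0 + l = n + 1 := ⟨k0 + l - 1, by omega⟩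
      rw [show k0 + (l + 1) = (n + 1) + 1 by omega, hn, Nat.add_sub_cancel]
      ring
    rw [h3]
    exact Dvd.intro _ rfl

/-- arcs in the cone, to any order -/
theorem exists_arc [IsAlgClosed K] [CharZero K] {I : Ideal (MvPolynomial σ K)} {r : ℕ}
    (hI : SCone I r) (z : σ → K) (hz : z ∈ cone I) (hz0 : z ≠ 0)
    (F : Fin r → MvPolynomial σ K) (hF : ∀ i, F i ∈ I)
    (hind : LinearIndependent K (fun i => grad (F i) z)) (W : Fin r → (σ → K))
    (hW : ∀ i j, dotB σ K (grad (F i) z) (W j) = if i = j then 1 else 0)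
    (c : σ → Polynomial K) (hc : at0 c = z) (k0 : ℕ) (hk0 : 1 ≤ k0)
    (h : ∀ i, Polynomial.X ^ k0 ∣ eval c (io (F i))) :
    ∃ a : ℕ → Fin r → Polynomial K, ∀ l, ∀ G ∈ I, (Polynomial.X : Polynomial K) ^ l ∣
        eval (c + (Polynomial.X : Polynomial K) ^ k0 • ∑ j, a l j • cv (W j)) (io G) := by
  choose a ha using newton z F W hW c hc k0 hk0 h
  refine ⟨a, fun l G hG => ?_⟩
  refine approx_of_frame hI z hz hz0 F hF hind _ ?_ (k0 + l) (ha l) l (by omega) G hG
  rw [at0_add, hc, at0_smul]
  have : (Polynomial.X ^ k0 : Polynomial K).eval 0 = 0 := by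
    rw [Polynomial.eval_pow, Polynomial.eval_X, zero_pow (by omega)]
  rw [this, zero_smul, add_zero]

end Pool.Agent.Run7.h399.Hart

-- from Pool.Agent.H929R2.Hart.U3
set_option autoImplicit false
set_option maxHeartbeats 400000

namespace Pool.Agent.Run7.h399.Hart

open MvPolynomial

variable {σ : Type} [Fintype σ] [DecidableEq σ] {K : Type} [Field K]

/-! ### Linear substitutions with polynomial coefficients -/

section Gen

variable {A : Type} [CommRing A]

end Gen

omit [DecidableEq σ] in
lemma eval_homog_smul {A : Type} [CommRing A] (Φ : MvPolynomial σ A) (d : ℕ)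
    (hd : Φ.IsHomogeneous d) (P : σ → A) (c : A) :
    eval (c • P) Φ = c ^ d * eval P Φ := by
  rw [eval_eq', eval_eq', Finset.mul_sum]
  refine Finset.sum_congr rfl (fun m hm => ?_)
  have h1 : ∑ i, m i = d := by
    have h2 := hd (mem_support_iff.1 hm)
    rw [Finsupp.weight_apply, Finsupp.sum_fintype _ _ (fun _ => by simp)] at h2
    simpa using h2
  have h2 : ∏ i, ((c • P) i) ^ m i = c ^ d * ∏ i, P i ^ m i := by
    rw [← h1, ← Finset.prod_pow_eq_pow_sum, ← Finset.prod_mul_distrib]
    refine Finset.prod_congr rfl (fun i _ => ?_)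
    rw [Pi.smul_apply, smul_eq_mul, mul_pow]
  rw [h2]
  ring

/-! ### The exponential of a nilpotent matrix -/

end Pool.Agent.Run7.h399.Hart

-- from Pool.Agent.H929R2.Hart.U4
set_option autoImplicit false
set_option maxHeartbeats 800000

namespace Pool.Agent.Run7.h399.Hart

open MvPolynomial

variable {σ : Type} [Fintype σ] [DecidableEq σ] {K : Type} [Field K]

variable {M : Matrix σ σ K} {m : ℕ} {I : Ideal (MvPolynomial σ K)} {r : ℕ}

omit [DecidableEq σ] in
lemma exists_grads (hI : SCone I r) (z : σ → K) (hz : z ∈ cone I) (hz0 : z ≠ 0) :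
    ∃ F : Fin r → MvPolynomial σ K, (∀ i, F i ∈ I) ∧
      LinearIndependent K (fun i => grad (F i) z) ∧
      ∀ ξ ∈ conormal I z, ∃ c : Fin r → K, ξ = ∑ i, c i • grad (F i) z := by
  have hfin := hI.rank z hz hz0
  let b := Module.finBasisOfFinrankEq K (conormal I z) hfin
  choose F hF hbF using fun i => exists_grad I z (b i : σ → K) (b i).2
  refine ⟨F, hF, ?_, ?_⟩
  · have h1 : (fun i => grad (F i) z) = fun i => ((b i : conormal I z) : σ → K) := by
      funext i; exact (hbF i).symm
    rw [h1]
    exact b.linearIndependent.map' (conormal I z).subtype (Submodule.ker_subtype _)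
  · intro ξ hξ
    refine ⟨fun i => b.repr ⟨ξ, hξ⟩ i, ?_⟩
    have h1 := congrArg (fun v : conormal I z => (v : σ → K)) (b.sum_repr ⟨ξ, hξ⟩)
    simp only [Submodule.coe_sum, Submodule.coe_smul] at h1
    refine h1.symm.trans ?_
    exact Finset.sum_congr rfl (fun i _ => by rw [hbF i])

section Claim

end Claim

end Pool.Agent.Run7.h399.Hart

-- from Pool.Agent.H929R2.Hart.U9
set_option autoImplicit false
set_option maxHeartbeats 400000

namespace Pool.Agent.Run7.h399.Hart

open MvPolynomial

variable {σ : Type} [Fintype σ] [DecidableEq σ] {K : Type} [Field K]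

variable {M : Matrix σ σ K} {m : ℕ} {I : Ideal (MvPolynomial σ K)} {r : ℕ}

omit [DecidableEq σ] in
lemma grad_mul (F G : MvPolynomial σ K) (x : σ → K) :
    grad (F * G) x = eval x G • grad F x + eval x F • grad G x := gT_mul F G x

namespace QD

variable {Q : (Fin r → K) →ₗ[K] (σ → K) →ₗ[K] (σ → K)}

variable {y : σ → K} {B : Submodule K (σ → K)} {lam : (σ → K) →ₗ[K] (σ → K) →ₗ[K] (σ → K)}

end QD

end Pool.Agent.Run7.h399.Hart

-- from Pool.Agent.H929R2.Hart.U11
set_option autoImplicit false
set_option maxHeartbeats 400000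

namespace Pool.Agent.Run7.h399.Hart

open MvPolynomial

/-! ### Points at infinity of an affine variety -/

section Top

variable {σ : Type} {K : Type} [Field K]

lemma hc_mul (f g : MvPolynomial σ K) (a b : ℕ) (hg : g.IsHomogeneous b) :
    homogeneousComponent (a + b) (f * g) = homogeneousComponent a f * g := by
  classical
  conv_lhs => rw [← sum_homogeneousComponent f, Finset.sum_mul, map_sum]
  have h0 : ∀ i, homogeneousComponent (a + b) (homogeneousComponent i f * g) =
      if i = a then homogeneousComponent a f * g else 0 := by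
    intro i
    have h1 : (homogeneousComponent i f * g).IsHomogeneous (i + b) :=
      (homogeneousComponent_isHomogeneous i f).mul hg
    rw [homogeneousComponent_of_mem h1]
    by_cases h : i = a
    · rw [if_pos (by omega), if_pos h, h]
    · rw [if_neg (by omega), if_neg h]
  rw [Finset.sum_congr rfl (fun i _ => h0 i), Finset.sum_ite_eq']
  split_ifs with h
  · rfl
  · rw [Finset.mem_range] at h
    rw [homogeneousComponent_eq_zero a f (by omega), zero_mul]

lemma hc_mul_zero (f g : MvPolynomial σ K) (e b : ℕ) (hg : g.IsHomogeneous b) (he : e < b) :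
    homogeneousComponent e (f * g) = 0 := by
  classical
  rw [← sum_homogeneousComponent f, Finset.sum_mul, map_sum]
  refine Finset.sum_eq_zero (fun i _ => ?_)
  have h1 : (homogeneousComponent i f * g).IsHomogeneous (i + b) :=
    (homogeneousComponent_isHomogeneous i f).mul hg
  rw [homogeneousComponent_of_mem h1, if_neg (by omega)]

lemma hc_X_mul (f : MvPolynomial σ K) (i : σ) (e : ℕ) :
    homogeneousComponent (e + 1) (f * X i) = homogeneousComponent e f * X i :=
  hc_mul f _ e 1 (isHomogeneous_X K i)

lemma hc_X_mul_zero (f : MvPolynomial σ K) (i : σ) :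
    homogeneousComponent 0 (f * X i) = 0 :=
  hc_mul_zero f _ 0 1 (isHomogeneous_X K i) Nat.one_pos

/-- `g` is the form of degree `e` of an element of the ideal of degree at most `e` -/
def TopF (P : Ideal (MvPolynomial σ K)) (e : ℕ) (g : MvPolynomial σ K) : Prop :=
  ∃ f ∈ P, homogeneousComponent e f = g ∧ ∀ e' > e, homogeneousComponent e' f = 0

/-- the ideal of the forms of highest degree -/
noncomputable def topI (P : Ideal (MvPolynomial σ K)) : Ideal (MvPolynomial σ K) where
  carrier := {g | ∀ e, TopF P e (homogeneousComponent e g)}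
  zero_mem' := fun e => ⟨0, P.zero_mem, rfl, fun e' _ => map_zero _⟩
  add_mem' := by
    intro g g' hg hg' e
    obtain ⟨f, hf, h1, h2⟩ := hg e
    obtain ⟨f', hf', h1', h2'⟩ := hg' e
    exact ⟨f + f', P.add_mem hf hf', by rw [map_add, map_add, h1, h1'], fun e' he' => by
      rw [map_add, h2 e' he', h2' e' he', add_zero]⟩
  smul_mem' := by
    intro a g hg
    show ∀ e, TopF P e (homogeneousComponent e (a * g))
    induction a using MvPolynomial.induction_on generalizing g with
    | C c =>
      intro e
      obtain ⟨f, hf, h1, h2⟩ := hg e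
      exact ⟨C c * f, P.mul_mem_left _ hf, by
        rw [homogeneousComponent_C_mul, homogeneousComponent_C_mul, h1], fun e' he' => by
        rw [homogeneousComponent_C_mul, h2 e' he', mul_zero]⟩
    | add a b ha hb =>
      intro e
      obtain ⟨f, hf, h1, h2⟩ := ha hg e
      obtain ⟨f', hf', h1', h2'⟩ := hb hg e
      exact ⟨f + f', P.add_mem hf hf', by rw [add_mul, map_add, map_add, h1, h1'], fun e' he' => by
        rw [map_add, h2 e' he', h2' e' he', add_zero]⟩
    | mul_X a i ha =>
      intro e
      have h0 : a * X i * g = a * (g * X i) := by ring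
      rw [h0]
      refine ha (g := g * X i) ?_ e
      intro e
      rcases e with _ | e
      · rw [hc_X_mul_zero]
        exact ⟨0, P.zero_mem, map_zero _, fun e' _ => map_zero _⟩
      · rw [hc_X_mul]
        obtain ⟨f, hf, h1, h2⟩ := hg e
        refine ⟨f * X i, P.mul_mem_right _ hf, by rw [hc_X_mul, h1], fun e' he' => ?_⟩
        obtain ⟨k, rfl⟩ : ∃ k, e' = k + 1 := ⟨e' - 1, by omega⟩
        rw [hc_X_mul, h2 k (by omega), zero_mul]

lemma finite_quot (P : Ideal (MvPolynomial σ K)) (S : Set (MvPolynomial σ K)) (hS : S.Finite)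
    (h : ∀ g : MvPolynomial σ K, ∃ g' ∈ Submodule.span K S, g - g' ∈ P) :
    Module.Finite K (MvPolynomial σ K ⧸ P) := by
  have h1 : Module.Finite K (Submodule.span K S) := Module.Finite.span_of_finite K hS
  let φ : Submodule.span K S →ₗ[K] (MvPolynomial σ K ⧸ P) :=
    (Ideal.Quotient.mkₐ K P).toLinearMap.comp (Submodule.span K S).subtype
  have hφ : Function.Surjective φ := by
    intro q
    obtain ⟨g, rfl⟩ := Ideal.Quotient.mk_surjective q
    obtain ⟨g', hg', h4⟩ := h g
    exact ⟨⟨g', hg'⟩, ((Ideal.Quotient.eq).2 h4).symm⟩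
  exact Module.Finite.of_surjective φ hφ

/-- A nonmaximal prime ideal has a point at infinity. -/
theorem exists_infinity [Finite σ] [IsAlgClosed K] (P : Ideal (MvPolynomial σ K)) (hP : P.IsPrime)
    (hmax : ¬ P.IsMaximal) : ∃ y : σ → K, y ≠ 0 ∧ ∀ f ∈ P, ∀ d,
      (∀ e > d, homogeneousComponent e f = 0) → eval y (homogeneousComponent d f) = 0 := by
  classical
  have hmem : ∀ f ∈ P, ∀ d, (∀ e > d, homogeneousComponent e f = 0) →
      homogeneousComponent d f ∈ topI P := by
    intro f hf d hd e
    rw [homogeneousComponent_of_mem (homogeneousComponent_isHomogeneous d f)]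
    split_ifs with h
    · subst h
      exact ⟨f, hf, rfl, hd⟩
    · exact ⟨0, P.zero_mem, map_zero _, fun e' _ => map_zero _⟩
  by_contra hcon
  push Not at hcon
  have hzero : ∀ y : σ → K, (∀ g ∈ topI P, eval y g = 0) → y = 0 := by
    intro y hy
    by_contra hy0
    obtain ⟨f, hf, d, hd, hne⟩ := hcon y hy0
    exact hne (hy _ (hmem f hf d hd))
  have hrad : idealOfVars σ K ≤ (topI P).radical := by
    rw [idealOfVars, Ideal.span_le]
    rintro _ ⟨i, rfl⟩
    rw [SetLike.mem_coe, ← MvPolynomial.vanishingIdeal_zeroLocus_eq_radical (K := K) (topI P),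
      MvPolynomial.mem_vanishingIdeal_iff]
    intro x hx
    have hx0 : x = 0 := by
      apply hzero
      intro g hg
      rw [mem_zeroLocus_iff] at hx
      have := hx g hg
      rwa [MvPolynomial.aeval_eq_eval] at this
    rw [hx0, aeval_X]
    rfl
  obtain ⟨n, hn⟩ := Ideal.exists_pow_le_of_le_radical_of_fg hrad (idealOfVars_fg σ K)
  have hred : ∀ (N : ℕ) (g : MvPolynomial σ K), (∀ e, n + N ≤ e → homogeneousComponent e g = 0) →
      ∃ g', (∀ e, n ≤ e → homogeneousComponent e g' = 0) ∧ g - g' ∈ P := by
    intro N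
    induction N with
    | zero => intro g hg; exact ⟨g, hg, by rw [sub_self]; exact P.zero_mem⟩
    | succ N ih =>
      intro g hg
      have h1 : homogeneousComponent (n + N) g ∈ topI P := by
        apply hn
        rw [mem_pow_idealOfVars_iff]
        intro x hx
        rw [support_homogeneousComponent, Finset.mem_filter] at hx
        omega
      obtain ⟨f, hf, h2, h3⟩ := h1 (n + N)
      rw [homogeneousComponent_of_mem (homogeneousComponent_isHomogeneous _ g), if_pos rfl] at h2
      obtain ⟨g', hg', h4⟩ := ih (g - f) (fun e he => by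
        rw [map_sub]
        rcases Nat.eq_or_lt_of_le he with h | h
        · rw [← h, h2, sub_self]
        · rw [h3 e h, hg e (by omega), sub_zero])
      refine ⟨g', hg', ?_⟩
      have h5 : g - g' = (g - f - g') + f := by ring
      rw [h5]
      exact P.add_mem h4 hf
  have hP' := hP
  -- the quotient is finite dimensional
  let S : Set (MvPolynomial σ K) := (fun x : σ →₀ ℕ => monomial x (1 : K)) '' {x | x.degree < n}
  have hS : S.Finite := (Finsupp.finite_of_degree_lt n).image _
  have hspan : ∀ g' : MvPolynomial σ K, (∀ e, n ≤ e → homogeneousComponent e g' = 0) →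
      g' ∈ Submodule.span K S := by
    intro g' hg'
    rw [← support_sum_monomial_coeff g']
    refine Submodule.sum_mem _ (fun x hx => ?_)
    have h1 : (monomial x (coeff x g') : MvPolynomial σ K) = coeff x g' • monomial x 1 := by
      rw [smul_monomial, smul_eq_mul, mul_one]
    rw [h1]
    apply Submodule.smul_mem
    apply Submodule.subset_span
    refine ⟨x, ?_, rfl⟩
    by_contra hcon
    have hcon : n ≤ x.degree := not_lt.1 hcon
    have h2 := congrArg (coeff x) (hg' _ hcon)
    rw [coeff_homogeneousComponent, if_pos rfl, coeff_zero] at h2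
    exact (mem_support_iff.1 hx) h2
  have hfin : Module.Finite K (MvPolynomial σ K ⧸ P) := by
    apply finite_quot P S hS
    intro g
    obtain ⟨g', hg', h4⟩ := hred (g.totalDegree + 1) g (fun e he =>
      homogeneousComponent_eq_zero e g (by omega))
    exact ⟨g', hspan g' hg', h4⟩
  have hart : IsArtinianRing (MvPolynomial σ K ⧸ P) :=
    isArtinian_of_tower K (isArtinian_of_fg_of_artinian' (R := K) (M := MvPolynomial σ K ⧸ P))
  exact hmax (Ideal.Quotient.maximal_of_isField _ (IsArtinianRing.isField_of_isDomain _))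

end Top

end Pool.Agent.Run7.h399.Hart

-- from Pool.Agent.H929R2.Hart.U12
set_option autoImplicit false
set_option maxHeartbeats 400000

namespace Pool.Agent.Run7.h399.Hart

open MvPolynomial

variable {σ : Type} [Fintype σ] [DecidableEq σ] {K : Type} [Field K]

/-- the polynomial `G(Y + p)` -/
noncomputable def sh (p : σ → K) : MvPolynomial σ K →ₐ[K] MvPolynomial σ K :=
  aeval (fun i => X i + C (p i))

omit [Fintype σ] [DecidableEq σ] in
lemma eval_sh (p y : σ → K) (G : MvPolynomial σ K) : eval y (sh p G) = eval (y + p) G := by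
  have : (eval y).comp (sh p).toRingHom = eval (y + p) := by
    apply MvPolynomial.ringHom_ext
    · intro c; simp [sh]
    · intro i; simp [sh]
  exact RingHom.congr_fun this G

omit [Fintype σ] [DecidableEq σ] in
lemma sh_sh (p : σ → K) (G : MvPolynomial σ K) : sh p (sh (-p) G) = G := by
  have : (sh p).comp (sh (-p)) = AlgHom.id K _ := by
    apply MvPolynomial.algHom_ext
    intro i
    simp [sh]
  exact AlgHom.congr_fun this G

omit [Fintype σ] [DecidableEq σ] in
lemma aeval_sh (p : σ → K) (P : σ → Polynomial K) (G : MvPolynomial σ K) :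
    eval P (io (sh p G)) = eval (P + cv p) (io G) := by
  rw [eval_io, eval_io]
  have : (aeval P : MvPolynomial σ K →ₐ[K] Polynomial K).comp (sh p) = aeval (P + cv p) := by
    apply MvPolynomial.algHom_ext
    intro i
    simp [sh, cv]
  exact AlgHom.congr_fun this G

omit [DecidableEq σ] in
lemma lin_mem (u : σ → K) : lin u ∈ idealOfVars σ K := by
  rw [lin]
  refine Ideal.sum_mem _ (fun i _ => Ideal.mul_mem_left _ _ ?_)
  exact Ideal.subset_span ⟨i, rfl⟩

omit [DecidableEq σ] in
lemma sh_expand (p : σ → K) (Ψ : MvPolynomial σ K) :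
    sh p Ψ - C (eval p Ψ) - lin (grad Ψ p) ∈ idealOfVars σ K ^ 2 := by
  classical
  induction Ψ using MvPolynomial.induction_on with
  | C a =>
    have h1 : grad (C a) p = 0 := by funext i; simp [grad]
    rw [h1, lin_zero]
    simp [sh]
  | add f g hf hg =>
    have h1 : sh p (f + g) - C (eval p (f + g)) - lin (grad (f + g) p) =
        (sh p f - C (eval p f) - lin (grad f p)) + (sh p g - C (eval p g) - lin (grad g p)) := by
      rw [map_add, map_add, grad_add, lin_add, map_add]; ring
    rw [h1]
    exact Ideal.add_mem _ hf hg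
  | mul_X f i hf =>
    have h1 : grad (f * X i) p = p i • grad f p + eval p f • (Pi.single i 1 : σ → K) := by
      rw [grad_mul, grad_X, eval_X]
    have h2 : sh p (f * X i) = sh p f * (X i + C (p i)) := by
      rw [map_mul]; simp [sh]
    have h3 : sh p (f * X i) - C (eval p (f * X i)) - lin (grad (f * X i) p) =
        (sh p f - C (eval p f) - lin (grad f p)) * (X i + C (p i)) + lin (grad f p) * X i := by
      rw [h1, h2, lin_add, lin_smul, lin_smul, lin_single, map_mul, eval_X, map_mul]
      ring
    rw [h3]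
    refine Ideal.add_mem _ (Ideal.mul_mem_right _ _ hf) ?_
    rw [pow_two]
    exact Ideal.mul_mem_mul (lin_mem _) (Ideal.subset_span ⟨i, rfl⟩)

omit [DecidableEq σ] in
lemma grads_span {I : Ideal (MvPolynomial σ K)} {r : ℕ} (hI : SCone I r) (p : σ → K)
    (hp : p ∈ cone I) (hp0 : p ≠ 0) (F : Fin r → MvPolynomial σ K) (hF : ∀ i, F i ∈ I)
    (hind : LinearIndependent K (fun i => grad (F i) p)) (ξ : σ → K) (hξ : ξ ∈ conormal I p) :
    ∃ c, uu F p c = ξ := by
  have h1 : LinearMap.range (uu F p) = conormal I p := by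
    apply Submodule.eq_of_le_of_finrank_eq
    · rintro _ ⟨c, rfl⟩
      exact uu_mem F hF c p
    · rw [LinearMap.finrank_range_of_inj, Module.finrank_fintype_fun_eq_card, Fintype.card_fin,
        hI.rank p hp hp0]
      rw [← LinearMap.ker_eq_bot, LinearMap.ker_eq_bot']
      exact fun c hc => uu_injective hind c hc
  rw [← h1] at hξ
  exact hξ

omit [Fintype σ] [DecidableEq σ] in
lemma dvd_aeval (w : σ → Polynomial K) (n : ℕ) (E : MvPolynomial σ K)
    (hE : E ∈ idealOfVars σ K ^ n) :
    (Polynomial.X : Polynomial K) ^ n ∣ eval ((Polynomial.X : Polynomial K) • w) (io E) := by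
  rw [eval_io]
  have h1 : (idealOfVars σ K).map (aeval ((Polynomial.X : Polynomial K) • w) :
      MvPolynomial σ K →ₐ[K] Polynomial K) ≤ Ideal.span {Polynomial.X} := by
    rw [idealOfVars, Ideal.map_span, Ideal.span_le]
    rintro _ ⟨_, ⟨i, rfl⟩, rfl⟩
    rw [SetLike.mem_coe, Ideal.mem_span_singleton]
    simp
  have h2 : aeval ((Polynomial.X : Polynomial K) • w) E ∈
      (Ideal.span {(Polynomial.X : Polynomial K)}) ^ n := by
    have h3 := Ideal.mem_map_of_mem (aeval ((Polynomial.X : Polynomial K) • w) :
      MvPolynomial σ K →ₐ[K] Polynomial K) hE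
    rw [Ideal.map_pow] at h3
    exact Ideal.pow_right_mono h1 n h3
  rwa [Ideal.span_singleton_pow, Ideal.mem_span_singleton] at h2

section LG

variable {I : Ideal (MvPolynomial σ K)} {r : ℕ}

omit [Fintype σ] [DecidableEq σ] in
lemma sub_hc_mem (k : ℕ) (E : MvPolynomial σ K) (hE : E ∈ idealOfVars σ K ^ k) :
    E - homogeneousComponent k E ∈ idealOfVars σ K ^ (k + 1) := by
  rw [mem_pow_idealOfVars_iff'] at hE ⊢
  intro x hx
  rw [coeff_sub, coeff_homogeneousComponent]
  split_ifs with h
  · rw [sub_self]
  · rw [hE x (by omega), sub_zero]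

/-- the form of lowest degree of an element of the ideal vanishes on the tangent space -/
lemma hc_tangent [IsAlgClosed K] [CharZero K] (hI : SCone I r) (p : σ → K)
    (hp : p ∈ cone I) (hp0 : p ≠ 0) (F : Fin r → MvPolynomial σ K) (hF : ∀ i, F i ∈ I)
    (hind : LinearIndependent K (fun i => grad (F i) p)) (k : ℕ) (G : MvPolynomial σ K)
    (hG : G ∈ I) (hE : sh p G ∈ idealOfVars σ K ^ k) (u : σ → K) (hu : u ∈ tangent I p) :
    eval u (homogeneousComponent k (sh p G)) = 0 := by
  obtain ⟨W, hW⟩ := exists_dual_vectors _ hind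
  have hc0 : at0 (cv p + (Polynomial.X : Polynomial K) • cv u) = p := by
    rw [at0_add, at0_cv, at0_smul, Polynomial.eval_X, zero_smul, add_zero]
  have hdiv : ∀ i, (Polynomial.X : Polynomial K) ^ 2 ∣
      eval (cv p + (Polynomial.X : Polynomial K) • cv u) (io (F i)) := by
    intro i
    obtain ⟨R, hR⟩ := taylor1 (io (F i)) (cv p) (cv u) Polynomial.X
    rw [hR, eval_io_cv, hp _ (hF i), map_zero, zero_add, gT_io_cv]
    have h1 : cv (grad (F i) p) ⬝ᵥ cv u = 0 := by
      have h2 := tangent_conormal I p (grad_mem I p (hF i)) hu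
      rw [dotB_apply] at h2
      have h3 : cv (grad (F i) p) ⬝ᵥ cv u = Polynomial.C (∑ k, grad (F i) p k * u k) := by
        rw [map_sum]
        exact Finset.sum_congr rfl (fun k _ => by simp [cv])
      rw [h3, h2, map_zero]
    rw [h1, mul_zero, zero_add]
    exact Dvd.intro _ rfl
  obtain ⟨a, ha⟩ := exists_arc hI p hp hp0 F hF hind W hW _ hc0 2 (by norm_num) hdiv
  set w : σ → Polynomial K := cv u + (Polynomial.X : Polynomial K) • ∑ j, a (k + 1) j • cv (W j)
    with hw
  have h1 := ha (k + 1) G hG
  have h2 : cv p + (Polynomial.X : Polynomial K) • cv u + (Polynomial.X : Polynomial K) ^ 2 •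
      ∑ j, a (k + 1) j • cv (W j) = (Polynomial.X : Polynomial K) • w + cv p := by
    rw [hw, smul_add, smul_smul, ← pow_two]
    abel
  rw [h2, ← aeval_sh] at h1
  set E := sh p G with hEdef
  have h3 : eval ((Polynomial.X : Polynomial K) • w) (io E) =
      (Polynomial.X : Polynomial K) ^ k * eval w (io (homogeneousComponent k E)) +
      eval ((Polynomial.X : Polynomial K) • w) (io (E - homogeneousComponent k E)) := by
    rw [← eval_homog_smul (io (homogeneousComponent k E)) k
      ((homogeneousComponent_isHomogeneous k E).map _)]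
    have h4 : io E = io (homogeneousComponent k E) + io (E - homogeneousComponent k E) := by
      rw [io, io, io, ← map_add]; congr 1; ring
    conv_lhs => rw [h4]
    rw [map_add]
  have h5 := dvd_aeval w (k + 1) _ (sub_hc_mem k E hE)
  rw [h3] at h1
  have h6 := (dvd_add_left h5).1 h1
  rw [pow_succ] at h6
  have h7 := (mul_dvd_mul_iff_left (pow_ne_zero k Polynomial.X_ne_zero)).1 h6
  rw [Polynomial.X_dvd_iff, Polynomial.coeff_zero_eq_eval_zero, eval_io_zero] at h7
  have h8 : at0 w = u := by
    rw [hw, at0_add, at0_cv, at0_smul, Polynomial.eval_X, zero_smul, add_zero]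
  rwa [h8] at h7

lemma LG_step [IsAlgClosed K] [CharZero K] (hI : SCone I r) (p : σ → K)
    (hp : p ∈ cone I) (hp0 : p ≠ 0) (F : Fin r → MvPolynomial σ K) (hF : ∀ i, F i ∈ I)
    (hind : LinearIndependent K (fun i => grad (F i) p)) (k : ℕ) (G : MvPolynomial σ K)
    (hG : G ∈ I) (hE : sh p G ∈ idealOfVars σ K ^ k) :
    sh p G ∈ (Ideal.span (Set.range F)).map (sh p) ⊔ idealOfVars σ K ^ (k + 1) := by
  have hT := hc_tangent hI p hp hp0 F hF hind k G hG hE
  set E := sh p G with hEdef
  have hsub := sub_hc_mem k E hE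
  rcases k with _ | k
  · -- constant term
    have h1 : homogeneousComponent 0 E = 0 := by
      have h2 := hT 0 (Submodule.zero_mem _)
      rw [homogeneousComponent_zero, eval_C] at h2
      rw [homogeneousComponent_zero, h2, map_zero]
    rw [h1, sub_zero] at hsub
    exact Ideal.mem_sup_right hsub
  obtain ⟨W, hW⟩ := exists_dual_vectors _ hind
  set lam : Fin r → MvPolynomial σ K := fun i => lin (grad (F i) p) with hlam
  let prj : MvPolynomial σ K →ₐ[K] MvPolynomial σ K :=
    aeval (fun j => X j - ∑ i, lam i * C (W i j))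
  have hpr1 : ∀ f, f - prj f ∈ Ideal.span (Set.range lam) := by
    intro f
    rw [← Ideal.Quotient.eq]
    have h1 : Ideal.Quotient.mkₐ K (Ideal.span (Set.range lam)) =
        (Ideal.Quotient.mkₐ K (Ideal.span (Set.range lam))).comp prj := by
      apply MvPolynomial.algHom_ext
      intro j
      rw [AlgHom.comp_apply, aeval_X]
      refine (Ideal.Quotient.eq).2 ?_
      have h2 : X j - (X j - ∑ i, lam i * C (W i j)) = ∑ i, lam i * C (W i j) := by ring
      rw [h2]
      exact Ideal.sum_mem _ (fun i _ => Ideal.mul_mem_right _ _ (Ideal.subset_span ⟨i, rfl⟩))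
    exact AlgHom.congr_fun h1 f
  have hpr2 : prj (homogeneousComponent (k + 1) E) = 0 := by
    apply MvPolynomial.funext
    intro y
    rw [map_zero]
    have h1 : eval y (prj (homogeneousComponent (k + 1) E)) =
        eval (y - ∑ i, dotB σ K (grad (F i) p) y • W i) (homogeneousComponent (k + 1) E) := by
      have h2 : (eval y).comp prj.toRingHom = eval (y - ∑ i, dotB σ K (grad (F i) p) y • W i) := by
        apply MvPolynomial.ringHom_ext
        · intro c; simp [prj]
        · intro j
          simp [prj, hlam, eval_lin, Finset.sum_apply]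
      exact RingHom.congr_fun h2 _
    rw [h1]
    apply hT
    rw [mem_tangent']
    intro ξ hξ
    obtain ⟨c, rfl⟩ := grads_span hI p hp hp0 F hF hind ξ hξ
    rw [uu_apply, map_sum, LinearMap.sum_apply]
    refine Finset.sum_eq_zero (fun i _ => ?_)
    rw [map_smul, LinearMap.smul_apply, map_sub, map_sum, Finset.sum_eq_single i]
    · rw [map_smul, hW, if_pos rfl]
      simp
    · intro j _ hj
      rw [map_smul, hW, if_neg (fun h => hj h.symm), smul_zero]
    · intro h; exact absurd (Finset.mem_univ _) h
  have h1 := hpr1 (homogeneousComponent (k + 1) E)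
  rw [hpr2, sub_zero] at h1
  obtain ⟨B, hB⟩ := Ideal.mem_span_range_iff_exists_fun.1 h1
  have h2 : homogeneousComponent (k + 1) E = ∑ i, homogeneousComponent k (B i) * lam i := by
    have h3 := congrArg (homogeneousComponent (k + 1)) hB
    rw [homogeneousComponent_of_mem (homogeneousComponent_isHomogeneous _ E), if_pos rfl,
      map_sum] at h3
    rw [← h3]
    exact Finset.sum_congr rfl (fun i _ => hc_mul _ _ k 1 (lin_homog _))
  have h3 : E = ∑ i, homogeneousComponent k (B i) * sh p (F i) +
      (∑ i, -(homogeneousComponent k (B i) * (sh p (F i) - C (eval p (F i)) - lam i)) +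
        (E - homogeneousComponent (k + 1) E)) := by
    have h4 : ∑ i, homogeneousComponent k (B i) * sh p (F i) +
      ∑ i, -(homogeneousComponent k (B i) * (sh p (F i) - C (eval p (F i)) - lam i)) =
        homogeneousComponent (k + 1) E := by
      rw [h2, ← Finset.sum_add_distrib]
      refine Finset.sum_congr rfl (fun i _ => ?_)
      rw [hp _ (hF i), map_zero]
      ring
    rw [← add_assoc, h4]
    ring
  rw [h3]
  refine Ideal.add_mem _ (Ideal.mem_sup_left ?_) (Ideal.mem_sup_right (Ideal.add_mem _ ?_ hsub))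
  · exact Ideal.sum_mem _ (fun i _ => Ideal.mul_mem_left _ _
      (Ideal.mem_map_of_mem _ (Ideal.subset_span ⟨i, rfl⟩)))
  · refine Ideal.sum_mem _ (fun i _ => neg_mem ?_)
    have h5 : homogeneousComponent k (B i) ∈ idealOfVars σ K ^ k := by
      rw [mem_pow_idealOfVars_iff]
      intro x hx
      rw [support_homogeneousComponent, Finset.mem_filter] at hx
      omega
    have h6 := Ideal.mul_mem_mul h5 (sh_expand p (F i))
    rw [← pow_add] at h6
    exact h6

/-- Near a smooth point the ideal is generated by `r` elements with independent gradients. -/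
theorem LG [IsAlgClosed K] [CharZero K] (hI : SCone I r) (p : σ → K)
    (hp : p ∈ cone I) (hp0 : p ≠ 0) (F : Fin r → MvPolynomial σ K) (hF : ∀ i, F i ∈ I)
    (hind : LinearIndependent K (fun i => grad (F i) p)) (k : ℕ) :
    ∀ G ∈ I, sh p G ∈ (Ideal.span (Set.range F)).map (sh p) ⊔ idealOfVars σ K ^ k := by
  induction k with
  | zero =>
    intro G hG
    apply Ideal.mem_sup_right
    rw [pow_zero, Ideal.one_eq_top]; exact Submodule.mem_top
  | succ k ih =>
    intro G hG
    obtain ⟨j, hj, E, hE, hsum⟩ := Submodule.mem_sup.1 (ih G hG)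
    have hsurj : Function.Surjective (sh p) := fun f => ⟨_, sh_sh p f⟩
    obtain ⟨j', hj', hj2⟩ := (Ideal.mem_map_iff_of_surjective (sh p) hsurj).1 hj
    have hj'I : j' ∈ I := by
      have : Ideal.span (Set.range F) ≤ I := by
        rw [Ideal.span_le]; rintro _ ⟨i, rfl⟩; exact hF i
      exact this hj'
    have hEe : sh p (G - j') = E := by
      rw [map_sub, hj2, ← hsum]; ring
    have h1 := LG_step hI p hp hp0 F hF hind k (G - j') (I.sub_mem hG hj'I) (by rw [hEe]; exact hE)
    rw [hEe] at h1
    rw [← hsum]
    exact Ideal.add_mem _ (Ideal.mem_sup_left hj) h1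

end LG

end Pool.Agent.Run7.h399.Hart

-- from Pool.Agent.H929R2.Hart.U13
set_option autoImplicit false
set_option maxHeartbeats 400000

namespace Pool.Agent.Run7.h399.Hart

open MvPolynomial

variable {σ : Type} [Fintype σ] [DecidableEq σ] {K : Type} [Field K]

/-! ### Heights -/

section Height

variable {n : ℕ}

omit [DecidableEq σ] in
lemma mem_idealOfVars (f : MvPolynomial σ K) : f ∈ idealOfVars σ K ↔ eval 0 f = 0 := by
  rw [← pow_one (idealOfVars σ K), mem_pow_idealOfVars_iff']
  constructor
  · intro h
    rw [eval_zero, constantCoeff_eq]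
    exact h 0 (by simp)
  · intro h x hx
    rw [eval_zero, constantCoeff_eq] at h
    have : x = 0 := by
      rw [← Finsupp.degree_eq_zero_iff]; omega
    rw [this]; exact h

end Height

/-! ### The forms of highest degree of a translate -/

omit [DecidableEq σ] in
lemma eval_hc_sum (f : MvPolynomial σ K) (n : ℕ) (hn : f.totalDegree < n) (y : σ → K) (t : K) :
    eval (t • y) f = ∑ e ∈ Finset.range n, t ^ e * eval y (homogeneousComponent e f) := by
  conv_lhs => rw [← sum_homogeneousComponent f, map_sum]
  have h1 : ∑ e ∈ Finset.range (f.totalDegree + 1), eval (t • y) (homogeneousComponent e f) =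
      ∑ e ∈ Finset.range n, eval (t • y) (homogeneousComponent e f) := by
    apply Finset.sum_subset
    · intro i hi
      rw [Finset.mem_range] at hi ⊢
      omega
    · intro i _ hi
      rw [Finset.mem_range] at hi
      rw [homogeneousComponent_eq_zero i f (by omega), map_zero]
  rw [h1]
  refine Finset.sum_congr rfl (fun e _ => ?_)
  rw [eval_hscale (homogeneousComponent_isHomogeneous e f)]

omit [DecidableEq σ] in
/-- the coefficients of a homogeneous polynomial along a line -/
lemma line_coeff [Infinite K] (G : MvPolynomial σ K) (d : ℕ) (hd : G.IsHomogeneous d)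
    (y p : σ → K) : (∀ e, d < e → eval y (homogeneousComponent e (sh p G)) = 0) ∧
      ∀ e, e ≤ d → eval y (homogeneousComponent e (sh p G)) = (line G y p).coeff (d - e) := by
  set n := (sh p G).totalDegree + d + (line G y p).natDegree + 1 with hn
  have key : ∑ e ∈ Finset.range n, Polynomial.C (eval y (homogeneousComponent e (sh p G))) *
      Polynomial.X ^ (e + n) = ∑ i ∈ Finset.range n, Polynomial.C ((line G y p).coeff i) *
      Polynomial.X ^ (d + n - i) := by
    rw [← sub_eq_zero]
    apply poly_eq_zero
    intro t ht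
    have h1 : eval (t • y) (sh p G) = t ^ d * (line G y p).eval t⁻¹ := by
      rw [eval_sh, eval_line, ← eval_hscale hd, smul_add, smul_smul, mul_inv_cancel₀ ht, one_smul]
    rw [eval_hc_sum _ n (by omega), Polynomial.eval_eq_sum_range' (n := n) (by omega)] at h1
    rw [Polynomial.eval_sub, Polynomial.eval_finsetSum, Polynomial.eval_finsetSum, sub_eq_zero]
    simp only [Polynomial.eval_mul, Polynomial.eval_C, Polynomial.eval_pow, Polynomial.eval_X]
    have h2 := congrArg (fun z => t ^ n * z) h1
    simp only [Finset.mul_sum] at h2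
    calc ∑ e ∈ Finset.range n, eval y (homogeneousComponent e (sh p G)) * t ^ (e + n) =
        ∑ e ∈ Finset.range n, t ^ n * (t ^ e * eval y (homogeneousComponent e (sh p G))) := by
          refine Finset.sum_congr rfl (fun e _ => ?_)
          rw [pow_add]; ring
      _ = ∑ i ∈ Finset.range n, t ^ n * (t ^ d * ((line G y p).coeff i * t⁻¹ ^ i)) := h2
      _ = _ := by
          refine Finset.sum_congr rfl (fun i hi => ?_)
          rw [Finset.mem_range] at hi
          have h3 : t ^ (d + n) = t ^ (d + n - i) * t ^ i := by rw [← pow_add]; congr 1; omega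
          have h4 : t ^ n * (t ^ d * ((line G y p).coeff i * t⁻¹ ^ i)) =
              (line G y p).coeff i * (t ^ (d + n) * t⁻¹ ^ i) := by rw [pow_add]; ring
          rw [h4, h3, inv_pow, mul_assoc, mul_inv_cancel₀ (pow_ne_zero _ ht), mul_one]
  have hco : ∀ k, (if k ∈ Finset.range n then
      eval y (homogeneousComponent k (sh p G)) else 0) =
      if k ≤ d then (line G y p).coeff (d - k) else 0 := by
    intro k
    have h1 := congrArg (fun P => Polynomial.coeff P (k + n)) key
    simp only [Polynomial.finsetSum_coeff, Polynomial.coeff_C_mul, Polynomial.coeff_X_pow,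
      mul_ite, mul_one, mul_zero] at h1
    have h2 : ∑ e ∈ Finset.range n, (if k + n = e + n then
        eval y (homogeneousComponent e (sh p G)) else 0) = if k ∈ Finset.range n then
      eval y (homogeneousComponent k (sh p G)) else 0 := by
      have h3 : ∀ e, (if k + n = e + n then eval y (homogeneousComponent e (sh p G)) else 0) =
          if k = e then eval y (homogeneousComponent e (sh p G)) else 0 := by
        intro e
        by_cases h : k = e
        · rw [if_pos (by omega), if_pos h]
        · rw [if_neg (by omega), if_neg h]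
      rw [Finset.sum_congr rfl (fun e _ => h3 e), Finset.sum_ite_eq]
    rw [h2] at h1
    rw [h1]
    by_cases hk : k ≤ d
    · rw [if_pos hk, Finset.sum_eq_single (d - k)]
      · rw [if_pos (by omega)]
      · intro i hi hne
        rw [Finset.mem_range] at hi
        rw [if_neg (by omega)]
      · intro h
        rw [Finset.mem_range] at h
        omega
    · rw [if_neg hk]
      refine Finset.sum_eq_zero (fun i hi => ?_)
      rw [Finset.mem_range] at hi
      rw [if_neg (by omega)]
  constructor
  · intro e he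
    have h1 := hco e
    rw [if_neg (by omega : ¬ e ≤ d)] at h1
    split_ifs at h1 with h
    · exact h1
    · rw [Finset.mem_range] at h
      rw [homogeneousComponent_eq_zero e _ (by omega), map_zero]
  · intro e he
    have h1 := hco e
    rw [if_pos he, if_pos (Finset.mem_range.2 (by omega))] at h1
    exact h1

omit [DecidableEq σ] in
lemma line_coeff_zero (G : MvPolynomial σ K) (y p : σ → K) : (line G y p).coeff 0 = eval y G := by
  rw [Polynomial.coeff_zero_eq_eval_zero, eval_line, zero_smul, add_zero]

omit [DecidableEq σ] in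
lemma line_coeff_one (G : MvPolynomial σ K) (y p : σ → K) :
    (line G y p).coeff 1 = dotB σ K (grad G y) p := by
  have h2 := Polynomial.coeff_derivative (line G y p) 0
  rw [derivative_line', Polynomial.coeff_zero_eq_eval_zero, eval_line] at h2
  simp only [zero_smul, add_zero, Nat.cast_zero, zero_add, mul_one] at h2
  rw [← h2, eval_dd]

section Krull

variable {I : Ideal (MvPolynomial σ K)} {r : ℕ}

end Krull

end Pool.Agent.Run7.h399.Hart

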